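import Pool.Agent.Lib.MP_4960b8_pr.QK.AnaB

-- part Pool.Agent.Lib.MP_4960b8_pr.QK.AlgC
section

/-! The flux in terms of the empty component, and the functional equation. -/

namespace Pool.Agent.Lib.MP_4960b8_pr.QK

noncomputable def Wp : List P → ℂ
  | [] => 0
  | a :: l => (a.1 ^ 2 + a.2 ^ 2) * (pP l * pQ l) + a.1 * a.2 * Wp l
noncomputable def cc1 (Ψ : List P → Vec) (l : List P) : ℂ :=
  deriv (fun t : ℂ => Ψ ((t, 1) :: l) zer) 0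
noncomputable def F6 (a m : P) : ℂ :=
  (a.1 * m.2 - a.2 * m.1) * (a.1 * m.1 - a.2 * m.2) * (a.1 * m.2 - ζ ^ 2 * (a.2 * m.1)) *
    (a.1 * m.2 - ζ ^ 14 * (a.2 * m.1)) * (a.1 * m.1 - ζ ^ 2 * (a.2 * m.2)) *
    (a.1 * m.1 - ζ ^ 14 * (a.2 * m.2))
noncomputable def PhiL (Ψ : List P → Vec) (l : List P) (a : P) : ℂ :=
  (a.1 ^ 2 - a.2 ^ 2) * (a.1 ^ 2 - c18 * (a.1 * a.2) + a.2 ^ 2) * (l.map (F6 a)).prod *
    Ψ (a :: l) zer

lemma algc_cos (k : ℕ) :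
    ((2 * Real.cos (k * (Real.pi / 8)) : ℝ) : ℂ) * ζ ^ k = ζ ^ (2 * k) + 1 := by
  have e0 : ζ ^ k = Complex.exp (k * (Real.pi / 8) * Complex.I) := by
    unfold ζ
    rw [← Complex.exp_nat_mul, mul_assoc]
  have e : Complex.exp (-(k * (Real.pi / 8)) * Complex.I) * ζ ^ k = 1 := by
    rw [e0, ← Complex.exp_add]
    simp
  have c : ((2 * Real.cos (k * (Real.pi / 8)) : ℝ) : ℂ) =
      ζ ^ k + Complex.exp (-(k * (Real.pi / 8)) * Complex.I) := by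
    rw [e0, ← Complex.two_cos]
    push_cast
    rfl
  rw [c]
  linear_combination e

lemma sqrt_two_eq : ((Real.sqrt 2 : ℝ) : ℂ) = ζ ^ 2 - ζ ^ 6 := by
  have h := algc_cos 2
  rw [show ((2 : ℕ) : ℝ) * (Real.pi / 8) = Real.pi / 4 by push_cast; ring, Real.cos_pi_div_four,
    show 2 * (Real.sqrt 2 / 2) = Real.sqrt 2 by ring] at h
  refine mul_right_cancel₀ (pow_ne_zero 2 zeta_ne) ?_
  linear_combination h + h8
lemma c18_eq : (c18 : ℂ) = ζ - ζ ^ 7 := by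
  refine mul_right_cancel₀ zeta_ne ?_
  linear_combination poly_c18 + h8
lemma c38_eq : (c38 : ℂ) = ζ ^ 3 - ζ ^ 5 := by
  have h := algc_cos 3
  rw [show ((3 : ℕ) : ℝ) * (Real.pi / 8) = 3 * Real.pi / 8 by push_cast; ring] at h
  refine mul_right_cancel₀ (pow_ne_zero 3 zeta_ne) ?_
  unfold c38
  linear_combination h + h8
lemma I_eq : Complex.I = ζ ^ 4 := by
  have e : ((4 : ℕ) : ℂ) * (Real.pi / 8 * Complex.I) = Real.pi / 2 * Complex.I := by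
    push_cast
    ring
  unfold ζ
  rw [← Complex.exp_nat_mul, e, Complex.exp_pi_div_two_mul_I]

/-! scalar identities -/

lemma algc_sh (x y W p q D C : ℂ) :
    (1 + ζ ^ 2 - ζ ^ 6) * (((ζ ^ 13 * x) ^ 2 + (ζ ^ 3 * y) ^ 2) * (x * p * (y * q)) +
        ζ ^ 13 * x * (ζ ^ 3 * y) * ((x ^ 2 + y ^ 2) * (p * q) + x * y * W)) *
        (phi (0, 1) (x, y) * D) - ζ ^ 13 * x * (x * p) * (ζ ^ 3 * y * (y * q)) *
        ((-(ζ ^ 4 + ζ ^ 6) * x * y * dd (0, 1) (y, x) +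
          dd (x, y) (0, 1) * (-(ζ ^ 4 + ζ ^ 6) * y * x)) * D + phi (0, 1) (x, y) * C) =
      ζ ^ 10 * (x * y) ^ 4 * ((1 + ζ ^ 2 - ζ ^ 6) * W * D - p * q * C) := by
  simp only [phi, dd, bar]
  linear_combination
      (C * p * q * x ^ 4 * y ^ 4 * ζ ^ 10 - C * p * q * x ^ 4 * y ^ 4 * ζ ^ 18 - D * W * x ^ 4 *
      y ^ 4 * ζ ^ 10 - D * W * x ^ 4 * y ^ 4 * ζ ^ 12 + D * W * x ^ 4 * y ^ 4 * ζ ^ 16 + D * W *
      x ^ 4 * y ^ 4 * ζ ^ 18 + D * W * x ^ 4 * y ^ 4 * ζ ^ 20 - D * W * x ^ 4 * y ^ 4 * ζ ^ 24 +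
      D * p * q * x ^ 3 * y ^ 5 * ζ ^ 16 + D * p * q * x ^ 3 * y ^ 5 * ζ ^ 18 + D * p * q * x ^ 3
      * y ^ 5 * ζ ^ 20 - D * p * q * x ^ 3 * y ^ 5 * ζ ^ 24 + D * p * q * x ^ 5 * y ^ 3 * ζ ^ 26
      + D * p * q * x ^ 5 * y ^ 3 * ζ ^ 28 + D * p * q * x ^ 5 * y ^ 3 * ζ ^ 30 - D * p * q * x ^
      5 * y ^ 3 * ζ ^ 34) * h8

noncomputable def algcA (u v : ℂ) : ℂ := (u - v) * (u - ζ ^ 2 * v) * (u - ζ ^ 14 * v)
noncomputable def algcB (u v : ℂ) : ℂ := (ζ ^ 4 * u - v) * (ζ ^ 6 * u - v)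

lemma algc_AB (u v : ℂ) :
    ζ ^ 10 * (algcA (ζ ^ 10 * u) v * algcB u v) = algcA (ζ ^ 6 * u) v * algcB v u := by
  simp only [algcA, algcB]
  linear_combination
      (-u * v ^ 4 * ζ ^ 18 - u * v ^ 4 * ζ ^ 20 + u * v ^ 4 * ζ ^ 26 + u * v ^ 4 * ζ ^ 28 + u ^ 2
      * v ^ 3 * ζ ^ 12 + u ^ 2 * v ^ 3 * ζ ^ 14 + u ^ 2 * v ^ 3 * ζ ^ 16 - u ^ 2 * v ^ 3 * ζ ^ 20
      + u ^ 2 * v ^ 3 * ζ ^ 24 + u ^ 2 * v ^ 3 * ζ ^ 26 + u ^ 2 * v ^ 3 * ζ ^ 28 - u ^ 2 * v ^ 3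
      * ζ ^ 30 - 2 * u ^ 2 * v ^ 3 * ζ ^ 32 - u ^ 2 * v ^ 3 * ζ ^ 34 - u ^ 2 * v ^ 3 * ζ ^ 36 - u
      ^ 3 * v ^ 2 * ζ ^ 8 - 2 * u ^ 3 * v ^ 2 * ζ ^ 18 - 2 * u ^ 3 * v ^ 2 * ζ ^ 20 - u ^ 3 * v ^
      2 * ζ ^ 22 + 2 * u ^ 3 * v ^ 2 * ζ ^ 26 + u ^ 3 * v ^ 2 * ζ ^ 28 - u ^ 3 * v ^ 2 * ζ ^ 34 +
      u ^ 3 * v ^ 2 * ζ ^ 36 + u ^ 3 * v ^ 2 * ζ ^ 38 + u ^ 3 * v ^ 2 * ζ ^ 40 + u ^ 3 * v ^ 2 *
      ζ ^ 42 + u ^ 4 * v * ζ ^ 12 + u ^ 4 * v * ζ ^ 14 - u ^ 4 * v * ζ ^ 20 + u ^ 4 * v * ζ ^ 24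
      + u ^ 4 * v * ζ ^ 26 + u ^ 4 * v * ζ ^ 28 - u ^ 4 * v * ζ ^ 32 - u ^ 4 * v * ζ ^ 34 - u ^ 4
      * v * ζ ^ 36 - u ^ 4 * v * ζ ^ 46 - u ^ 5 * ζ ^ 18 + u ^ 5 * ζ ^ 26 - u ^ 5 * ζ ^ 34 + u ^
      5 * ζ ^ 42) * h8

lemma algc_F6 (a m : P) :
    F6 a m = algcA (a.1 * m.2) (a.2 * m.1) * algcA (a.1 * m.1) (a.2 * m.2) := by
  simp only [F6, algcA]
  ring

lemma algc_A_symm (u v : ℂ) : algcA v u = -algcA u v := by
  simp only [algcA]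
  linear_combination (u - v) * (u ^ 2 - u ^ 2 * ζ ^ 8 - v ^ 2 + v ^ 2 * ζ ^ 8) * h8

lemma algc_F6_bar (a m : P) : F6 (bar a) m = F6 a m := by
  rw [algc_F6, algc_F6]
  simp only [bar]
  rw [algc_A_symm (a.1 * m.1), algc_A_symm (a.1 * m.2)]
  ring

lemma algc_F6_smul (c : ℂ) (a m : P) : F6 (c • a) m = c ^ 6 * F6 a m := by
  simp only [F6, Prod.smul_fst, Prod.smul_snd, smul_eq_mul]
  ring

lemma algc_other (m k : P) : ζ ^ 26 * (F6 (tw 10 false m) k * phi k m) =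
    ζ ^ 6 * (F6 (tw 6 false m) k * phi k (bar m)) := by
  have e1 : F6 (tw 10 false m) k * phi k m =
      algcA (ζ ^ 10 * (m.1 * k.2)) (m.2 * k.1) * algcB (m.1 * k.2) (m.2 * k.1) *
        (algcA (ζ ^ 10 * (m.1 * k.1)) (m.2 * k.2) * algcB (m.1 * k.1) (m.2 * k.2)) := by
    have : phi k m = algcB (m.1 * k.2) (m.2 * k.1) * algcB (m.1 * k.1) (m.2 * k.2) := by
      simp only [phi, dd, algcB, bar]
      ring
    rw [this, algc_F6]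
    simp only [tw, Bool.false_eq_true, if_false, mul_assoc (ζ ^ 10)]
    ring
  have e2 : F6 (tw 6 false m) k * phi k (bar m) =
      algcA (ζ ^ 6 * (m.1 * k.2)) (m.2 * k.1) * algcB (m.2 * k.1) (m.1 * k.2) *
        (algcA (ζ ^ 6 * (m.1 * k.1)) (m.2 * k.2) * algcB (m.2 * k.2) (m.1 * k.1)) := by
    have : phi k (bar m) = algcB (m.2 * k.1) (m.1 * k.2) * algcB (m.2 * k.2) (m.1 * k.1) := by
      simp only [phi, dd, algcB, bar]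
      ring
    rw [this, algc_F6]
    simp only [tw, Bool.false_eq_true, if_false, mul_assoc (ζ ^ 6)]
    ring
  rw [e1, e2, ← algc_AB, ← algc_AB]
  ring

lemma algc_m (x y : ℂ) :
    ((ζ ^ 10 * x) ^ 2 - y ^ 2) * ((ζ ^ 10 * x) ^ 2 - c18 * (ζ ^ 10 * x * y) + y ^ 2) *
        F6 (ζ ^ 10 * x, y) (x, y) * ζ ^ 26 * kd (x, y) * lin (x, y) * y =
      ((ζ ^ 6 * x) ^ 2 - y ^ 2) * ((ζ ^ 6 * x) ^ 2 - c18 * (ζ ^ 6 * x * y) + y ^ 2) *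
        F6 (ζ ^ 6 * x, y) (x, y) * ζ ^ 6 * kd (y, x) * lin (y, x) * x := by
  simp only [c18_eq, F6, kd, lin]
  linear_combination
      (x ^ 4 * y ^ 16 * ζ ^ 35 - x ^ 4 * y ^ 16 * ζ ^ 37 - x ^ 4 * y ^ 16 * ζ ^ 39 - x ^ 4 * y ^
      16 * ζ ^ 43 + 3 * x ^ 4 * y ^ 16 * ζ ^ 45 + x ^ 4 * y ^ 16 * ζ ^ 47 - 4 * x ^ 4 * y ^ 16 *
      ζ ^ 53 + x ^ 4 * y ^ 16 * ζ ^ 57 - x ^ 4 * y ^ 16 * ζ ^ 59 + 3 * x ^ 4 * y ^ 16 * ζ ^ 61 +
      x ^ 4 * y ^ 16 * ζ ^ 63 - 2 * x ^ 4 * y ^ 16 * ζ ^ 65 + x ^ 4 * y ^ 16 * ζ ^ 67 - x ^ 4 * y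
      ^ 16 * ζ ^ 69 - x ^ 4 * y ^ 16 * ζ ^ 71 + x ^ 4 * y ^ 16 * ζ ^ 73 - x ^ 5 * y ^ 15 * ζ ^ 32
      + x ^ 5 * y ^ 15 * ζ ^ 34 + 2 * x ^ 5 * y ^ 15 * ζ ^ 36 - x ^ 5 * y ^ 15 * ζ ^ 38 - 4 * x ^
      5 * y ^ 15 * ζ ^ 42 - x ^ 5 * y ^ 15 * ζ ^ 44 + 4 * x ^ 5 * y ^ 15 * ζ ^ 46 + 2 * x ^ 5 * y
      ^ 15 * ζ ^ 48 + 4 * x ^ 5 * y ^ 15 * ζ ^ 50 - 4 * x ^ 5 * y ^ 15 * ζ ^ 52 - 5 * x ^ 5 * y ^
      15 * ζ ^ 54 - 2 * x ^ 5 * y ^ 15 * ζ ^ 58 + 3 * x ^ 5 * y ^ 15 * ζ ^ 60 + 6 * x ^ 5 * y ^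
      15 * ζ ^ 62 - x ^ 5 * y ^ 15 * ζ ^ 64 - 5 * x ^ 5 * y ^ 15 * ζ ^ 70 - x ^ 5 * y ^ 15 * ζ ^
      72 + x ^ 5 * y ^ 15 * ζ ^ 74 + 2 * x ^ 5 * y ^ 15 * ζ ^ 78 + 2 * x ^ 5 * y ^ 15 * ζ ^ 80 -
      x ^ 5 * y ^ 15 * ζ ^ 82 - x ^ 5 * y ^ 15 * ζ ^ 86 - x ^ 5 * y ^ 15 * ζ ^ 88 + x ^ 5 * y ^
      15 * ζ ^ 90 - x ^ 6 * y ^ 14 * ζ ^ 27 + x ^ 6 * y ^ 14 * ζ ^ 29 + x ^ 6 * y ^ 14 * ζ ^ 31 -
      x ^ 6 * y ^ 14 * ζ ^ 33 + 2 * x ^ 6 * y ^ 14 * ζ ^ 35 - 2 * x ^ 6 * y ^ 14 * ζ ^ 37 - x ^ 6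
      * y ^ 14 * ζ ^ 39 - 3 * x ^ 6 * y ^ 14 * ζ ^ 43 + 4 * x ^ 6 * y ^ 14 * ζ ^ 45 + 2 * x ^ 6 *
      y ^ 14 * ζ ^ 47 + 3 * x ^ 6 * y ^ 14 * ζ ^ 49 + x ^ 6 * y ^ 14 * ζ ^ 51 - 9 * x ^ 6 * y ^
      14 * ζ ^ 53 - 3 * x ^ 6 * y ^ 14 * ζ ^ 55 - x ^ 6 * y ^ 14 * ζ ^ 57 + x ^ 6 * y ^ 14 * ζ ^
      59 + 12 * x ^ 6 * y ^ 14 * ζ ^ 61 + 4 * x ^ 6 * y ^ 14 * ζ ^ 63 - 5 * x ^ 6 * y ^ 14 * ζ ^
      65 - 2 * x ^ 6 * y ^ 14 * ζ ^ 67 - 7 * x ^ 6 * y ^ 14 * ζ ^ 69 - 5 * x ^ 6 * y ^ 14 * ζ ^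
      71 + 5 * x ^ 6 * y ^ 14 * ζ ^ 73 + 4 * x ^ 6 * y ^ 14 * ζ ^ 75 + 2 * x ^ 6 * y ^ 14 * ζ ^
      77 + 3 * x ^ 6 * y ^ 14 * ζ ^ 79 - 3 * x ^ 6 * y ^ 14 * ζ ^ 81 - 3 * x ^ 6 * y ^ 14 * ζ ^
      83 - x ^ 6 * y ^ 14 * ζ ^ 87 + 2 * x ^ 6 * y ^ 14 * ζ ^ 89 + x ^ 6 * y ^ 14 * ζ ^ 91 - x ^
      6 * y ^ 14 * ζ ^ 93 + x ^ 7 * y ^ 13 * ζ ^ 24 - x ^ 7 * y ^ 13 * ζ ^ 26 - 2 * x ^ 7 * y ^
      13 * ζ ^ 28 + x ^ 7 * y ^ 13 * ζ ^ 30 + 4 * x ^ 7 * y ^ 13 * ζ ^ 34 + 2 * x ^ 7 * y ^ 13 *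
      ζ ^ 36 - 4 * x ^ 7 * y ^ 13 * ζ ^ 38 - 4 * x ^ 7 * y ^ 13 * ζ ^ 40 - 6 * x ^ 7 * y ^ 13 * ζ
      ^ 42 + 4 * x ^ 7 * y ^ 13 * ζ ^ 44 + 8 * x ^ 7 * y ^ 13 * ζ ^ 46 + 6 * x ^ 7 * y ^ 13 * ζ ^
      48 + 2 * x ^ 7 * y ^ 13 * ζ ^ 50 - 11 * x ^ 7 * y ^ 13 * ζ ^ 52 - 7 * x ^ 7 * y ^ 13 * ζ ^
      54 - 2 * x ^ 7 * y ^ 13 * ζ ^ 56 + x ^ 7 * y ^ 13 * ζ ^ 58 + 10 * x ^ 7 * y ^ 13 * ζ ^ 60 +
      6 * x ^ 7 * y ^ 13 * ζ ^ 62 - x ^ 7 * y ^ 13 * ζ ^ 64 - 3 * x ^ 7 * y ^ 13 * ζ ^ 66 - 3 * x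
      ^ 7 * y ^ 13 * ζ ^ 68 - 7 * x ^ 7 * y ^ 13 * ζ ^ 70 - 3 * x ^ 7 * y ^ 13 * ζ ^ 72 + 6 * x ^
      7 * y ^ 13 * ζ ^ 74 + 2 * x ^ 7 * y ^ 13 * ζ ^ 76 + 5 * x ^ 7 * y ^ 13 * ζ ^ 78 + 4 * x ^ 7
      * y ^ 13 * ζ ^ 80 - 5 * x ^ 7 * y ^ 13 * ζ ^ 82 - 3 * x ^ 7 * y ^ 13 * ζ ^ 84 - 3 * x ^ 7 *
      y ^ 13 * ζ ^ 86 - 2 * x ^ 7 * y ^ 13 * ζ ^ 88 + 3 * x ^ 7 * y ^ 13 * ζ ^ 90 + 3 * x ^ 7 * y
      ^ 13 * ζ ^ 92 + x ^ 7 * y ^ 13 * ζ ^ 94 + x ^ 7 * y ^ 13 * ζ ^ 96 - 2 * x ^ 7 * y ^ 13 * ζ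
      ^ 98 - 3 * x ^ 7 * y ^ 13 * ζ ^ 100 + x ^ 7 * y ^ 13 * ζ ^ 102 + x ^ 7 * y ^ 13 * ζ ^ 106 +
      x ^ 7 * y ^ 13 * ζ ^ 108 - x ^ 7 * y ^ 13 * ζ ^ 110 + x ^ 8 * y ^ 12 * ζ ^ 25 - x ^ 8 * y ^
      12 * ζ ^ 27 - x ^ 8 * y ^ 12 * ζ ^ 29 + 3 * x ^ 8 * y ^ 12 * ζ ^ 35 + x ^ 8 * y ^ 12 * ζ ^
      37 - 2 * x ^ 8 * y ^ 12 * ζ ^ 39 - 5 * x ^ 8 * y ^ 12 * ζ ^ 41 - 3 * x ^ 8 * y ^ 12 * ζ ^
      43 + 4 * x ^ 8 * y ^ 12 * ζ ^ 45 + 8 * x ^ 8 * y ^ 12 * ζ ^ 47 + 7 * x ^ 8 * y ^ 12 * ζ ^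
      49 - 4 * x ^ 8 * y ^ 12 * ζ ^ 51 - 11 * x ^ 8 * y ^ 12 * ζ ^ 53 - 8 * x ^ 8 * y ^ 12 * ζ ^
      55 - 2 * x ^ 8 * y ^ 12 * ζ ^ 57 + 8 * x ^ 8 * y ^ 12 * ζ ^ 59 + 12 * x ^ 8 * y ^ 12 * ζ ^
      61 + 6 * x ^ 8 * y ^ 12 * ζ ^ 63 - 3 * x ^ 8 * y ^ 12 * ζ ^ 65 - 6 * x ^ 8 * y ^ 12 * ζ ^
      67 - 10 * x ^ 8 * y ^ 12 * ζ ^ 69 - 10 * x ^ 8 * y ^ 12 * ζ ^ 71 + 5 * x ^ 8 * y ^ 12 * ζ ^
      73 + 10 * x ^ 8 * y ^ 12 * ζ ^ 75 + 9 * x ^ 8 * y ^ 12 * ζ ^ 77 + 7 * x ^ 8 * y ^ 12 * ζ ^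
      79 - 6 * x ^ 8 * y ^ 12 * ζ ^ 81 - 12 * x ^ 8 * y ^ 12 * ζ ^ 83 - 6 * x ^ 8 * y ^ 12 * ζ ^
      85 + 5 * x ^ 8 * y ^ 12 * ζ ^ 89 + 8 * x ^ 8 * y ^ 12 * ζ ^ 91 + 3 * x ^ 8 * y ^ 12 * ζ ^
      93 - 3 * x ^ 8 * y ^ 12 * ζ ^ 95 - 4 * x ^ 8 * y ^ 12 * ζ ^ 97 - 3 * x ^ 8 * y ^ 12 * ζ ^
      99 + 2 * x ^ 8 * y ^ 12 * ζ ^ 103 + 2 * x ^ 8 * y ^ 12 * ζ ^ 105 - x ^ 8 * y ^ 12 * ζ ^ 109
      - x ^ 9 * y ^ 11 * ζ ^ 28 + 2 * x ^ 9 * y ^ 11 * ζ ^ 32 + 2 * x ^ 9 * y ^ 11 * ζ ^ 34 - 3 *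
      x ^ 9 * y ^ 11 * ζ ^ 38 - 5 * x ^ 9 * y ^ 11 * ζ ^ 40 - 2 * x ^ 9 * y ^ 11 * ζ ^ 42 + 5 * x
      ^ 9 * y ^ 11 * ζ ^ 44 + 6 * x ^ 9 * y ^ 11 * ζ ^ 46 + 5 * x ^ 9 * y ^ 11 * ζ ^ 48 - x ^ 9 *
      y ^ 11 * ζ ^ 50 - 9 * x ^ 9 * y ^ 11 * ζ ^ 52 - 6 * x ^ 9 * y ^ 11 * ζ ^ 54 - 3 * x ^ 9 * y
      ^ 11 * ζ ^ 56 + 3 * x ^ 9 * y ^ 11 * ζ ^ 58 + 8 * x ^ 9 * y ^ 11 * ζ ^ 60 + 6 * x ^ 9 * y ^
      11 * ζ ^ 62 + 3 * x ^ 9 * y ^ 11 * ζ ^ 64 - 3 * x ^ 9 * y ^ 11 * ζ ^ 66 - 6 * x ^ 9 * y ^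
      11 * ζ ^ 68 - 10 * x ^ 9 * y ^ 11 * ζ ^ 70 - 3 * x ^ 9 * y ^ 11 * ζ ^ 72 + 7 * x ^ 9 * y ^
      11 * ζ ^ 74 + 7 * x ^ 9 * y ^ 11 * ζ ^ 76 + 8 * x ^ 9 * y ^ 11 * ζ ^ 78 + 2 * x ^ 9 * y ^
      11 * ζ ^ 80 - 9 * x ^ 9 * y ^ 11 * ζ ^ 82 - 9 * x ^ 9 * y ^ 11 * ζ ^ 84 - 2 * x ^ 9 * y ^
      11 * ζ ^ 86 - x ^ 9 * y ^ 11 * ζ ^ 88 + 5 * x ^ 9 * y ^ 11 * ζ ^ 90 + 10 * x ^ 9 * y ^ 11 *
      ζ ^ 92 + 2 * x ^ 9 * y ^ 11 * ζ ^ 94 - 2 * x ^ 9 * y ^ 11 * ζ ^ 96 - 3 * x ^ 9 * y ^ 11 * ζ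
      ^ 98 - 7 * x ^ 9 * y ^ 11 * ζ ^ 100 - 3 * x ^ 9 * y ^ 11 * ζ ^ 102 + 3 * x ^ 9 * y ^ 11 * ζ
      ^ 104 + 3 * x ^ 9 * y ^ 11 * ζ ^ 106 + 3 * x ^ 9 * y ^ 11 * ζ ^ 108 + 2 * x ^ 9 * y ^ 11 *
      ζ ^ 110 - 2 * x ^ 9 * y ^ 11 * ζ ^ 112 - 2 * x ^ 9 * y ^ 11 * ζ ^ 114 - x ^ 9 * y ^ 11 * ζ
      ^ 116 + x ^ 9 * y ^ 11 * ζ ^ 120 - x ^ 10 * y ^ 10 * ζ ^ 29 + 2 * x ^ 10 * y ^ 10 * ζ ^ 33
      + 2 * x ^ 10 * y ^ 10 * ζ ^ 35 - 4 * x ^ 10 * y ^ 10 * ζ ^ 39 - 5 * x ^ 10 * y ^ 10 * ζ ^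
      41 + 7 * x ^ 10 * y ^ 10 * ζ ^ 45 + 6 * x ^ 10 * y ^ 10 * ζ ^ 47 + 2 * x ^ 10 * y ^ 10 * ζ
      ^ 49 - 5 * x ^ 10 * y ^ 10 * ζ ^ 51 - 11 * x ^ 10 * y ^ 10 * ζ ^ 53 - 3 * x ^ 10 * y ^ 10 *
      ζ ^ 55 + 3 * x ^ 10 * y ^ 10 * ζ ^ 57 + 5 * x ^ 10 * y ^ 10 * ζ ^ 59 + 7 * x ^ 10 * y ^ 10
      * ζ ^ 61 + 2 * x ^ 10 * y ^ 10 * ζ ^ 63 + 2 * x ^ 10 * y ^ 10 * ζ ^ 65 - x ^ 10 * y ^ 10 *
      ζ ^ 67 - 11 * x ^ 10 * y ^ 10 * ζ ^ 69 - 8 * x ^ 10 * y ^ 10 * ζ ^ 71 - 2 * x ^ 10 * y ^ 10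
      * ζ ^ 73 + 5 * x ^ 10 * y ^ 10 * ζ ^ 75 + 14 * x ^ 10 * y ^ 10 * ζ ^ 77 + 11 * x ^ 10 * y ^
      10 * ζ ^ 79 - 3 * x ^ 10 * y ^ 10 * ζ ^ 81 - 14 * x ^ 10 * y ^ 10 * ζ ^ 83 - 11 * x ^ 10 *
      y ^ 10 * ζ ^ 85 - 4 * x ^ 10 * y ^ 10 * ζ ^ 87 + 4 * x ^ 10 * y ^ 10 * ζ ^ 89 + 15 * x ^ 10
      * y ^ 10 * ζ ^ 91 + 11 * x ^ 10 * y ^ 10 * ζ ^ 93 - 4 * x ^ 10 * y ^ 10 * ζ ^ 95 - 7 * x ^
      10 * y ^ 10 * ζ ^ 97 - 9 * x ^ 10 * y ^ 10 * ζ ^ 99 - 8 * x ^ 10 * y ^ 10 * ζ ^ 101 + 6 * x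
      ^ 10 * y ^ 10 * ζ ^ 103 + 8 * x ^ 10 * y ^ 10 * ζ ^ 105 + 3 * x ^ 10 * y ^ 10 * ζ ^ 107 + 2
      * x ^ 10 * y ^ 10 * ζ ^ 109 - 3 * x ^ 10 * y ^ 10 * ζ ^ 111 - 4 * x ^ 10 * y ^ 10 * ζ ^ 113
      - x ^ 10 * y ^ 10 * ζ ^ 115 + x ^ 10 * y ^ 10 * ζ ^ 117 + x ^ 10 * y ^ 10 * ζ ^ 119 + x ^
      11 * y ^ 9 * ζ ^ 34 - 2 * x ^ 11 * y ^ 9 * ζ ^ 38 - x ^ 11 * y ^ 9 * ζ ^ 40 - 2 * x ^ 11 *
      y ^ 9 * ζ ^ 42 + 4 * x ^ 11 * y ^ 9 * ζ ^ 44 + 4 * x ^ 11 * y ^ 9 * ζ ^ 46 - x ^ 11 * y ^ 9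
      * ζ ^ 48 + 2 * x ^ 11 * y ^ 9 * ζ ^ 50 - 5 * x ^ 11 * y ^ 9 * ζ ^ 52 - 4 * x ^ 11 * y ^ 9 *
      ζ ^ 54 - x ^ 11 * y ^ 9 * ζ ^ 56 - 2 * x ^ 11 * y ^ 9 * ζ ^ 58 + 5 * x ^ 11 * y ^ 9 * ζ ^
      60 + 5 * x ^ 11 * y ^ 9 * ζ ^ 62 + 7 * x ^ 11 * y ^ 9 * ζ ^ 64 + 3 * x ^ 11 * y ^ 9 * ζ ^
      66 - 10 * x ^ 11 * y ^ 9 * ζ ^ 68 - 12 * x ^ 11 * y ^ 9 * ζ ^ 70 - 6 * x ^ 11 * y ^ 9 * ζ ^
      72 + 4 * x ^ 11 * y ^ 9 * ζ ^ 74 + 10 * x ^ 11 * y ^ 9 * ζ ^ 76 + 13 * x ^ 11 * y ^ 9 * ζ ^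
      78 + 4 * x ^ 11 * y ^ 9 * ζ ^ 80 - 10 * x ^ 11 * y ^ 9 * ζ ^ 82 - 10 * x ^ 11 * y ^ 9 * ζ ^
      84 - 6 * x ^ 11 * y ^ 9 * ζ ^ 86 - 2 * x ^ 11 * y ^ 9 * ζ ^ 88 + 7 * x ^ 11 * y ^ 9 * ζ ^
      90 + 12 * x ^ 11 * y ^ 9 * ζ ^ 92 + 2 * x ^ 11 * y ^ 9 * ζ ^ 94 - 2 * x ^ 11 * y ^ 9 * ζ ^
      96 - 3 * x ^ 11 * y ^ 9 * ζ ^ 98 - 10 * x ^ 11 * y ^ 9 * ζ ^ 100 - 3 * x ^ 11 * y ^ 9 * ζ ^
      102 + 5 * x ^ 11 * y ^ 9 * ζ ^ 104 + 3 * x ^ 11 * y ^ 9 * ζ ^ 106 + 4 * x ^ 11 * y ^ 9 * ζ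
      ^ 108 + 4 * x ^ 11 * y ^ 9 * ζ ^ 110 - 3 * x ^ 11 * y ^ 9 * ζ ^ 112 - 5 * x ^ 11 * y ^ 9 *
      ζ ^ 114 - x ^ 11 * y ^ 9 * ζ ^ 116 - x ^ 11 * y ^ 9 * ζ ^ 118 + x ^ 11 * y ^ 9 * ζ ^ 120 +
      2 * x ^ 11 * y ^ 9 * ζ ^ 122 + x ^ 11 * y ^ 9 * ζ ^ 124 - x ^ 11 * y ^ 9 * ζ ^ 128 + x ^ 12
      * y ^ 8 * ζ ^ 35 - x ^ 12 * y ^ 8 * ζ ^ 37 - x ^ 12 * y ^ 8 * ζ ^ 39 - x ^ 12 * y ^ 8 * ζ ^
      41 + 5 * x ^ 12 * y ^ 8 * ζ ^ 45 - 2 * x ^ 12 * y ^ 8 * ζ ^ 49 - x ^ 12 * y ^ 8 * ζ ^ 51 -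
      2 * x ^ 12 * y ^ 8 * ζ ^ 53 + x ^ 12 * y ^ 8 * ζ ^ 55 - x ^ 12 * y ^ 8 * ζ ^ 57 - x ^ 12 *
      y ^ 8 * ζ ^ 59 + x ^ 12 * y ^ 8 * ζ ^ 61 + 4 * x ^ 12 * y ^ 8 * ζ ^ 63 + 8 * x ^ 12 * y ^ 8
      * ζ ^ 65 - 10 * x ^ 12 * y ^ 8 * ζ ^ 69 - 11 * x ^ 12 * y ^ 8 * ζ ^ 71 - 3 * x ^ 12 * y ^ 8
      * ζ ^ 73 + 5 * x ^ 12 * y ^ 8 * ζ ^ 75 + 12 * x ^ 12 * y ^ 8 * ζ ^ 77 + 12 * x ^ 12 * y ^ 8
      * ζ ^ 79 - x ^ 12 * y ^ 8 * ζ ^ 81 - 9 * x ^ 12 * y ^ 8 * ζ ^ 83 - 11 * x ^ 12 * y ^ 8 * ζ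
      ^ 85 - 8 * x ^ 12 * y ^ 8 * ζ ^ 87 + x ^ 12 * y ^ 8 * ζ ^ 89 + 11 * x ^ 12 * y ^ 8 * ζ ^ 91
      + 11 * x ^ 12 * y ^ 8 * ζ ^ 93 + 3 * x ^ 12 * y ^ 8 * ζ ^ 95 - 2 * x ^ 12 * y ^ 8 * ζ ^ 97
      - 10 * x ^ 12 * y ^ 8 * ζ ^ 99 - 11 * x ^ 12 * y ^ 8 * ζ ^ 101 + x ^ 12 * y ^ 8 * ζ ^ 103 +
      7 * x ^ 12 * y ^ 8 * ζ ^ 105 + 5 * x ^ 12 * y ^ 8 * ζ ^ 107 + 6 * x ^ 12 * y ^ 8 * ζ ^ 109
      - 9 * x ^ 12 * y ^ 8 * ζ ^ 113 - 3 * x ^ 12 * y ^ 8 * ζ ^ 115 + x ^ 12 * y ^ 8 * ζ ^ 117 +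
      3 * x ^ 12 * y ^ 8 * ζ ^ 121 + 2 * x ^ 12 * y ^ 8 * ζ ^ 123 - x ^ 12 * y ^ 8 * ζ ^ 125 - x
      ^ 12 * y ^ 8 * ζ ^ 127 - x ^ 13 * y ^ 7 * ζ ^ 42 + x ^ 13 * y ^ 7 * ζ ^ 44 + x ^ 13 * y ^ 7
      * ζ ^ 46 - x ^ 13 * y ^ 7 * ζ ^ 52 + x ^ 13 * y ^ 7 * ζ ^ 54 - 4 * x ^ 13 * y ^ 7 * ζ ^ 56
      - x ^ 13 * y ^ 7 * ζ ^ 58 + 2 * x ^ 13 * y ^ 7 * ζ ^ 60 + x ^ 13 * y ^ 7 * ζ ^ 62 + 8 * x ^
      13 * y ^ 7 * ζ ^ 64 + x ^ 13 * y ^ 7 * ζ ^ 66 - 4 * x ^ 13 * y ^ 7 * ζ ^ 68 - 8 * x ^ 13 *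
      y ^ 7 * ζ ^ 70 - 8 * x ^ 13 * y ^ 7 * ζ ^ 72 + 4 * x ^ 13 * y ^ 7 * ζ ^ 74 + 6 * x ^ 13 * y
      ^ 7 * ζ ^ 76 + 9 * x ^ 13 * y ^ 7 * ζ ^ 78 + 6 * x ^ 13 * y ^ 7 * ζ ^ 80 - 5 * x ^ 13 * y ^
      7 * ζ ^ 82 - 9 * x ^ 13 * y ^ 7 * ζ ^ 84 - 7 * x ^ 13 * y ^ 7 * ζ ^ 86 - 3 * x ^ 13 * y ^ 7
      * ζ ^ 88 + 4 * x ^ 13 * y ^ 7 * ζ ^ 90 + 9 * x ^ 13 * y ^ 7 * ζ ^ 92 + 5 * x ^ 13 * y ^ 7 *
      ζ ^ 94 + 2 * x ^ 13 * y ^ 7 * ζ ^ 96 - 3 * x ^ 13 * y ^ 7 * ζ ^ 98 - 8 * x ^ 13 * y ^ 7 * ζ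
      ^ 100 - 5 * x ^ 13 * y ^ 7 * ζ ^ 102 + 2 * x ^ 13 * y ^ 7 * ζ ^ 104 + 2 * x ^ 13 * y ^ 7 *
      ζ ^ 106 + 3 * x ^ 13 * y ^ 7 * ζ ^ 108 + 6 * x ^ 13 * y ^ 7 * ζ ^ 110 - 3 * x ^ 13 * y ^ 7
      * ζ ^ 112 - 4 * x ^ 13 * y ^ 7 * ζ ^ 114 + x ^ 13 * y ^ 7 * ζ ^ 116 - 2 * x ^ 13 * y ^ 7 *
      ζ ^ 118 - x ^ 13 * y ^ 7 * ζ ^ 120 + 4 * x ^ 13 * y ^ 7 * ζ ^ 122 + x ^ 13 * y ^ 7 * ζ ^
      124 - 2 * x ^ 13 * y ^ 7 * ζ ^ 126 + x ^ 13 * y ^ 7 * ζ ^ 128 - x ^ 13 * y ^ 7 * ζ ^ 130 -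
      x ^ 13 * y ^ 7 * ζ ^ 132 + x ^ 13 * y ^ 7 * ζ ^ 134 + 2 * x ^ 14 * y ^ 6 * ζ ^ 53 - x ^ 14
      * y ^ 6 * ζ ^ 55 - 4 * x ^ 14 * y ^ 6 * ζ ^ 57 - x ^ 14 * y ^ 6 * ζ ^ 59 + x ^ 14 * y ^ 6 *
      ζ ^ 61 + 6 * x ^ 14 * y ^ 6 * ζ ^ 63 + 4 * x ^ 14 * y ^ 6 * ζ ^ 65 - x ^ 14 * y ^ 6 * ζ ^
      67 - 6 * x ^ 14 * y ^ 6 * ζ ^ 69 - 8 * x ^ 14 * y ^ 6 * ζ ^ 71 + 4 * x ^ 14 * y ^ 6 * ζ ^
      75 + 7 * x ^ 14 * y ^ 6 * ζ ^ 77 + 5 * x ^ 14 * y ^ 6 * ζ ^ 79 - 4 * x ^ 14 * y ^ 6 * ζ ^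
      83 - 8 * x ^ 14 * y ^ 6 * ζ ^ 85 - 4 * x ^ 14 * y ^ 6 * ζ ^ 87 + 4 * x ^ 14 * y ^ 6 * ζ ^
      91 + 8 * x ^ 14 * y ^ 6 * ζ ^ 93 + 4 * x ^ 14 * y ^ 6 * ζ ^ 95 - 4 * x ^ 14 * y ^ 6 * ζ ^
      99 - 9 * x ^ 14 * y ^ 6 * ζ ^ 101 - 2 * x ^ 14 * y ^ 6 * ζ ^ 103 + 2 * x ^ 14 * y ^ 6 * ζ ^
      105 + x ^ 14 * y ^ 6 * ζ ^ 107 + 8 * x ^ 14 * y ^ 6 * ζ ^ 109 + 2 * x ^ 14 * y ^ 6 * ζ ^
      111 - 5 * x ^ 14 * y ^ 6 * ζ ^ 113 - 2 * x ^ 14 * y ^ 6 * ζ ^ 117 - 3 * x ^ 14 * y ^ 6 * ζ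
      ^ 119 + 4 * x ^ 14 * y ^ 6 * ζ ^ 121 + 2 * x ^ 14 * y ^ 6 * ζ ^ 123 - 2 * x ^ 14 * y ^ 6 *
      ζ ^ 125 + x ^ 14 * y ^ 6 * ζ ^ 127 - x ^ 14 * y ^ 6 * ζ ^ 129 - x ^ 14 * y ^ 6 * ζ ^ 131 +
      x ^ 14 * y ^ 6 * ζ ^ 133 + x ^ 15 * y ^ 5 * ζ ^ 54 - x ^ 15 * y ^ 5 * ζ ^ 56 - 2 * x ^ 15 *
      y ^ 5 * ζ ^ 58 + 2 * x ^ 15 * y ^ 5 * ζ ^ 62 + 3 * x ^ 15 * y ^ 5 * ζ ^ 64 + x ^ 15 * y ^ 5
      * ζ ^ 66 - 2 * x ^ 15 * y ^ 5 * ζ ^ 68 - 5 * x ^ 15 * y ^ 5 * ζ ^ 70 - 2 * x ^ 15 * y ^ 5 *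
      ζ ^ 72 + x ^ 15 * y ^ 5 * ζ ^ 74 + 4 * x ^ 15 * y ^ 5 * ζ ^ 76 + 4 * x ^ 15 * y ^ 5 * ζ ^
      78 - 4 * x ^ 15 * y ^ 5 * ζ ^ 84 - 4 * x ^ 15 * y ^ 5 * ζ ^ 86 + 4 * x ^ 15 * y ^ 5 * ζ ^
      92 + 4 * x ^ 15 * y ^ 5 * ζ ^ 94 - 4 * x ^ 15 * y ^ 5 * ζ ^ 100 - 4 * x ^ 15 * y ^ 5 * ζ ^
      102 + x ^ 15 * y ^ 5 * ζ ^ 104 - x ^ 15 * y ^ 5 * ζ ^ 106 + 3 * x ^ 15 * y ^ 5 * ζ ^ 108 +
      5 * x ^ 15 * y ^ 5 * ζ ^ 110 - 2 * x ^ 15 * y ^ 5 * ζ ^ 112 - 4 * x ^ 15 * y ^ 5 * ζ ^ 118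
      + 2 * x ^ 15 * y ^ 5 * ζ ^ 122 - x ^ 15 * y ^ 5 * ζ ^ 124 + x ^ 15 * y ^ 5 * ζ ^ 126 + x ^
      15 * y ^ 5 * ζ ^ 128 - x ^ 15 * y ^ 5 * ζ ^ 130 - x ^ 16 * y ^ 4 * ζ ^ 59 + x ^ 16 * y ^ 4
      * ζ ^ 61 + x ^ 16 * y ^ 4 * ζ ^ 63 + x ^ 16 * y ^ 4 * ζ ^ 67 - 3 * x ^ 16 * y ^ 4 * ζ ^ 69
      - x ^ 16 * y ^ 4 * ζ ^ 71 + 4 * x ^ 16 * y ^ 4 * ζ ^ 77 - 4 * x ^ 16 * y ^ 4 * ζ ^ 85 + 4 *
      x ^ 16 * y ^ 4 * ζ ^ 93 - 4 * x ^ 16 * y ^ 4 * ζ ^ 101 + 4 * x ^ 16 * y ^ 4 * ζ ^ 109 - x ^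
      16 * y ^ 4 * ζ ^ 113 + x ^ 16 * y ^ 4 * ζ ^ 115 - 3 * x ^ 16 * y ^ 4 * ζ ^ 117 - x ^ 16 * y
      ^ 4 * ζ ^ 119 + 2 * x ^ 16 * y ^ 4 * ζ ^ 121 - x ^ 16 * y ^ 4 * ζ ^ 123 + x ^ 16 * y ^ 4 *
      ζ ^ 125 + x ^ 16 * y ^ 4 * ζ ^ 127 - x ^ 16 * y ^ 4 * ζ ^ 129) * h8

/-! polynomial functions of lists -/

lemma algc_head {F : List P → ℂ} (h : Pol F) {g : (ℕ → P) → P} (hg : PolyP g) (l : List P) :
    PolyF fun x => F (g x :: l) := by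
  have := h (g :: l.map fun a _ => a) fun u hu => by
    rcases List.mem_cons.1 hu with rfl | hu
    · exact hg
    · obtain ⟨a, -, rfl⟩ := List.mem_map.1 hu
      exact PolyP.const a
  simpa [List.map_map, Function.comp_def] using this

lemma algc_range {F : List P → ℂ} (h : Pol F) (T : ℕ) :
    PolyF fun x => F ((List.range T).map x) := by
  have := h ((List.range T).map fun i (y : ℕ → P) => y i) fun u hu => by
    obtain ⟨i, -, rfl⟩ := List.mem_map.1 hu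
    exact PolyP.var i
  simpa only [← poly_range] using this

lemma algc_cons {F : List P → ℂ} (h : Pol F) (a : P) : Pol fun l => F (a :: l) := fun L hL =>
  h ((fun _ => a) :: L) fun u hu => by
    rcases List.mem_cons.1 hu with rfl | hu
    exacts [PolyP.const a, hL u hu]

lemma algc_dens {F : List P → ℂ} (hF : Pol F) (T : ℕ)
    (h : ∀ l, l.length = T → Gen l → F l = 0) (l : List P) (hl : l.length = T) : F l = 0 :=
  congrFun (densL (F := fun l _ => F l) T (fun _ => algc_range hF T)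
    (fun l h1 h2 => funext fun _ => h l h1 h2) l hl) zer

lemma algc_pP : Pol pP := fun _ hL => PolyF.listProd (fun _ => Prod.fst) fun g hg => (hL g hg).1
lemma algc_pQ : Pol pQ := fun _ hL => PolyF.listProd (fun _ => Prod.snd) fun g hg => (hL g hg).2

lemma algc_Wp : Pol Wp := by
  intro L hL
  induction L with
  | nil => exact PolyF.const 0
  | cons g L ih =>
    have h1 := hL g List.mem_cons_self
    have h2 : ∀ u ∈ L, PolyP u := fun u hu => hL u (List.mem_cons_of_mem _ hu)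
    exact (((h1.1.pow 2).add (h1.2.pow 2)).mul ((algc_pP L h2).mul (algc_pQ L h2))).add
      ((h1.1.mul h1.2).mul (ih h2))

lemma algc_Wp_perm {l l' : List P} (h : l.Perm l') : Wp l = Wp l' := by
  induction h with
  | nil => rfl
  | cons a h ih => simp only [Wp, ih, local_pP_perm h, local_pQ_perm h]
  | swap a b l =>
    simp only [Wp, local_pP_cons, local_pQ_cons]
    ring
  | trans _ _ ih ih' => exact ih.trans ih'

lemma algc_dd1 (k : P) :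
    HasDerivAt (fun t : ℂ => dd k (t, 1)) (-(ζ ^ 4 + ζ ^ 6) * k.1 * k.2) 0 := by
  have h := (hasDerivAt_id (0 : ℂ)).const_mul k.2
  refine ((h.const_sub (ζ ^ 4 * (k.1 * 1))).mul (h.const_sub (ζ ^ 6 * (k.1 * 1)))).congr_deriv ?_
  simp only [id]
  ring

lemma algc_dd2 (k : P) :
    HasDerivAt (fun t : ℂ => dd (t, 1) k) (-(ζ ^ 4 + ζ ^ 6) * k.1 * k.2) 0 := by
  have h := (hasDerivAt_id (0 : ℂ)).mul_const k.2
  refine (((h.const_mul (ζ ^ 4)).sub_const (1 * k.1)).mul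
    ((h.const_mul (ζ ^ 6)).sub_const (1 * k.1))).congr_deriv ?_
  simp only [id]
  ring

variable {n : ℕ} {Ψ : List P → Vec}

lemma algc_der (h : Good n Ψ) (l : List P) :
    HasDerivAt (fun t : ℂ => Ψ ((t, 1) :: l) zer) (cc1 Ψ l) 0 := by
  obtain ⟨q, hq⟩ := (algc_head (h.pol zer) (PolyP.var 0) l).curve fun _ => (Polynomial.X, 1)
  have e : (fun t : ℂ => Ψ ((t, 1) :: l) zer) = fun t => q.eval t := by
    funext t
    simpa using hq t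
  refine DifferentiableAt.hasDerivAt ?_
  rw [e]
  exact q.differentiableAt

lemma algc_cc1 (h : Good n Ψ) {l l' : List P} {μ g' : ℂ} {g : ℂ → ℂ} (hg : HasDerivAt g g' 0)
    (e : ∀ t : ℂ, Ψ ((t, 1) :: l') zer = μ * (g t * Ψ ((t, 1) :: l) zer)) :
    cc1 Ψ l' = μ * (g' * Ψ ((0, 1) :: l) zer + g 0 * cc1 Ψ l) := by
  have h1 := (hg.mul (algc_der h l)).const_mul μ
  rw [cc1, funext e]
  exact h1.deriv

/-- the difference of the two sides of the flux identity -/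
noncomputable def algcD (Ψ : List P → Vec) (l : List P) : ℂ :=
  (ζ ^ 2 - ζ ^ 6) * ζ ^ (13 * l.length) * GG Ψ l -
    ζ ^ 5 * ((1 + ζ ^ 2 - ζ ^ 6) * Wp l * Ψ ((0, 1) :: l) zer - pP l * pQ l * cc1 Ψ l)

lemma algc_pol (h : Good n Ψ) : Pol (algcD Ψ) := by
  intro L hL
  simp only [algcD, List.length_map]
  exact (((PolyF.const _).mul (PolyF.const _)).mul (h.G_pol L hL)).sub ((PolyF.const _).mul
    ((((PolyF.const _).mul (algc_Wp L hL)).mul (algc_cons (h.pol zer) _ L hL)).sub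
      (((algc_pP L hL).mul (algc_pQ L hL)).mul ((h.pol zer).d1 L hL))))

lemma algc_perm (h : Good n Ψ) {l l' : List P} (hl : l.length < n) (hp : l.Perm l') :
    algcD Ψ l = algcD Ψ l' := by
  have e : ∀ x, Ψ (x :: l) zer = Ψ (x :: l') zer := fun x => h.D_perm hl (hp.cons x)
  simp only [algcD, cc1, e, hp.length_eq, h.G_perm hl.le hp, algc_Wp_perm hp, local_pP_perm hp,
    local_pQ_perm hp]

lemma algc_D2 (h : Good n Ψ) (x a : P) {l : List P} (hl : l.length + 1 < n) :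
    Ψ (x :: a :: l) zer = Ψ (a :: x :: l) zer := h.D_perm hl (List.Perm.swap a x l)

lemma algc_Dbar (h : Good n Ψ) (x a : P) {l : List P} (hl : l.length + 1 < n) :
    Ψ (x :: bar a :: l) zer = Ψ (x :: a :: l) zer := by
  rw [algc_D2 h x _ hl, h.D_bar a (x :: l) hl, algc_D2 h a _ hl]

lemma algc_bar (h : Good n Ψ) (a : P) {l : List P} (hl : l.length + 1 < n) :
    algcD Ψ (bar a :: l) = algcD Ψ (a :: l) := by
  simp only [algcD, cc1, algc_Dbar h _ a hl, h.G_bar a l (by omega), List.length_cons, Wp,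
    local_pP_cons, local_pQ_cons]
  simp only [bar]
  ring

lemma algc_hom (h : Good n Ψ) (c : ℂ) (a : P) {l : List P} (hl : l.length + 1 < n) :
    algcD Ψ (c • a :: l) = c ^ (2 * l.length + 4) * algcD Ψ (a :: l) := by
  have e : ∀ x, Ψ (x :: c • a :: l) zer = c ^ (2 * (l.length + 1)) * Ψ (x :: a :: l) zer :=
    fun x => by rw [algc_D2 h x _ hl, h.D_hom a c (x :: l) hl, algc_D2 h a _ hl, List.length_cons]
  have e1 : cc1 Ψ (c • a :: l) = c ^ (2 * (l.length + 1)) * cc1 Ψ (a :: l) := by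
    simp only [cc1, e, deriv_const_mul_field]
  simp only [algcD, e, e1, h.G_hom a c l (by omega), List.length_cons, Wp, local_pP_cons,
    local_pQ_cons, Prod.smul_fst, Prod.smul_snd, smul_eq_mul]
  ring

lemma algc_sh0 (h : Good n Ψ) (k : P) {l : List P} (hl : l.length + 2 < n)
    (h0 : algcD Ψ l = 0) : algcD Ψ (sh k :: k :: l) = 0 := by
  have e : ∀ x, Ψ (x :: sh k :: k :: l) zer =
      kd k * lin k * (l.map fun m => phi m k).prod * k.2 * (phi x k * Ψ (x :: l) zer) := by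
    intro x
    rw [h.D_perm (l := x :: sh k :: k :: l) (l' := sh k :: k :: x :: l) hl
      ((List.Perm.swap _ _ _).trans ((List.Perm.swap _ _ _).cons _)), h.D_sh k (x :: l) hl,
      List.map_cons, List.prod_cons]
    ring
  have e1 := algc_cc1 h (g := fun t => phi (t, 1) k) ((algc_dd1 k).mul (algc_dd2 (bar k)))
    fun t => e (t, 1)
  have e2 := algc_sh k.1 k.2 (Wp l) (pP l) (pQ l) (Ψ ((0, 1) :: l) zer) (cc1 Ψ l)
  simp only [algcD] at h0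
  simp only [algcD, e, e1, h.G_sh k l hl.le, List.length_cons, Wp, local_pP_cons, local_pQ_cons]
  simp only [sh, bar]
  generalize kd k * lin k * (l.map fun m => phi m k).prod * k.2 = μ
  linear_combination μ * ζ ^ 10 * (k.1 * k.2) ^ 4 * h0 - ζ ^ 5 * μ * e2 +
    (ζ ^ 2 - ζ ^ 6) * ζ ^ (13 * l.length) * μ * (k.1 * k.2) ^ 4 * GG Ψ l * ζ ^ 10 * h16

lemma algc_aux0 (h : Good n Ψ) {l : List P} (hl : l.length + 1 < n) (h0 : algcD Ψ l = 0) :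
    algcD Ψ (bar aux :: l) = 0 := by
  have e : ∀ x, Ψ (x :: bar aux :: l) zer = fc l * (dd x aux * Ψ (x :: l) zer) := by
    intro x
    rw [algc_D2 h x _ hl, h.D_aux (x :: l) hl, fc, List.map_cons, List.prod_cons, fc]
    ring
  have e1 := algc_cc1 h (algc_dd2 aux) fun t => e (t, 1)
  simp only [algcD] at h0
  simp only [algcD, e, e1, h.G_aux l (by omega), List.length_cons, Wp, local_pP_cons,
    local_pQ_cons]
  simp only [bar, aux, dd]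
  linear_combination fc l * ζ ^ 3 * h0 -
    ζ ^ 5 * fc l * (Ψ ((0, 1) :: l) zer * pP l * pQ l * (1 + ζ ^ 2)) * h8 +
    (ζ ^ 2 - ζ ^ 6) * ζ ^ (13 * l.length) * fc l * GG Ψ l * ζ ^ 3 * h16

lemma algc_zero0 (h : Good n Ψ) {l : List P} (hl : l.length + 1 < n) :
    algcD Ψ ((0, 1) :: l) = 0 := by
  simp only [algcD, h.G_zero l (by omega), h.D_zero ((0, 1) :: l) hl, local_pP_cons]
  ring

lemma algc_D1 (h : Good n Ψ) (hn : 0 < n) (a : P) : Ψ [a] zer = 1 := by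
  have e : ∀ b : P, Ψ [(0 : ℂ) • b] zer = Ψ [b] zer := fun b => by
    simpa using h.D_hom b 0 [] hn
  rw [← e a, zero_smul, ← zero_smul ℂ (bar aux), e, h.D_aux [] hn, h.nil]
  simp [fc, vac]

lemma algc_nil (h : Good n Ψ) (hn : 0 < n) : algcD Ψ [] = 0 := by
  simp [algcD, GG, LT, Wp, cc1, algc_D1 h hn]

/-- the mixed coefficient for two lines -/
noncomputable def algcβ (a : P) : ℂ :=
  -ζ ^ 5 * (a.1 ^ 2 + a.2 ^ 2) + (-1 + ζ ^ 2 - ζ ^ 4 - ζ ^ 6) * (a.1 * a.2)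

lemma algc_D2' (h : Good n Ψ) (hn : 1 < n) (a x : P) :
    Ψ [x, a] zer = ζ ^ 13 * (a.1 * a.2) * (x.1 ^ 2 + x.2 ^ 2) + algcβ a * (x.1 * x.2) := by
  have z0 : Ψ [(0, 1), a] zer = ζ ^ 13 * (a.1 * a.2) := by
    rw [h.D_zero [a] hn, algc_D1 h (by omega)]
    simp [pP, pQ, mul_assoc]
  refine sub_eq_zero.1 (nodecount (f := fun x => Ψ [x, a] zer -
    (ζ ^ 13 * (a.1 * a.2) * (x.1 ^ 2 + x.2 ^ 2) + algcβ a * (x.1 * x.2))) ?_ 2 (fun c x => ?_)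
    [bar aux, (0, 1), (1, 0)] (by simp) (special_np.sublist (by simp)) ?_ x)
  · have v := PolyP.var 0
    exact (algc_head (h.pol zer) v [a]).sub (((PolyF.const _).mul ((v.1.pow 2).add
      (v.2.pow 2))).add ((PolyF.const _).mul (v.1.mul v.2)))
  · rw [h.D_hom x c [a] hn]
    simp only [Prod.smul_fst, Prod.smul_snd, smul_eq_mul, List.length_singleton]
    ring
  · intro e he
    simp only [List.mem_cons, List.not_mem_nil, or_false] at he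
    rcases he with rfl | rfl | rfl
    · rw [h.D_aux [a] hn, algc_D1 h (by omega)]
      simp only [fc, List.map_cons, List.map_nil, List.prod_cons, List.prod_nil, dd, bar, aux,
        algcβ]
      linear_combination (a.1 * a.2 * ζ ^ 3 - a.1 * a.2 * ζ ^ 5 - a.1 * a.2 * ζ ^ 11 +
        a.1 ^ 2 * ζ ^ 8 + a.2 ^ 2) * h8
    · rw [z0]
      ring
    · rw [show ((1, 0) : P) = bar (0, 1) from rfl, h.D_bar _ [a] hn, z0]
      simp [bar]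

lemma algc_one (h : Good n Ψ) (hn : 1 < n) (a : P) : algcD Ψ [a] = 0 := by
  have e1 : cc1 Ψ [a] = algcβ a := by
    have h1 := ((((hasDerivAt_id (0 : ℂ)).pow 2).add_const (1 ^ 2)).const_mul
      (ζ ^ 13 * (a.1 * a.2))).add (((hasDerivAt_id (0 : ℂ)).mul_const 1).const_mul (algcβ a))
    simp only [cc1, algc_D2' h hn]
    exact (h1.congr_deriv (by simp)).deriv
  obtain ⟨x, y⟩ := a
  simp only [algcD, e1, algc_D2' h hn, h.G_one hn.le, Wp, pP, pQ, algcβ, List.map_cons,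
    List.map_nil, List.prod_cons, List.prod_nil, List.length_singleton]
  linear_combination
      (-x * y ^ 3 * ζ ^ 10 - x ^ 2 * y ^ 2 * ζ ^ 5 + x ^ 2 * y ^ 2 * ζ ^ 7 - x ^ 2 * y ^ 2 * ζ ^
      9 - x ^ 2 * y ^ 2 * ζ ^ 11 + x ^ 2 * y ^ 2 * ζ ^ 13 + x ^ 2 * y ^ 2 * ζ ^ 17 - x ^ 2 * y ^
      2 * ζ ^ 21 - x ^ 2 * y ^ 2 * ζ ^ 25 + x ^ 2 * y ^ 2 * ζ ^ 29 - x ^ 3 * y * ζ ^ 10 - x ^ 3 *
      y * ζ ^ 20 + x ^ 3 * y * ζ ^ 24) * h8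

lemma algc_all (h : Good n Ψ) (T : ℕ) : ∀ l : List P, l.length = T → T < n → algcD Ψ l = 0 := by
  induction T using Nat.strong_induction_on with
  | _ T ih =>
    intro l hl hT
    rcases l with _ | ⟨a, l⟩
    · exact algc_nil h (by omega)
    rcases Nat.eq_zero_or_pos l.length with h0 | h0
    · obtain rfl := List.length_eq_zero_iff.1 h0
      exact algc_one h (by simp at hl; omega) a
    simp only [List.length_cons] at hl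
    refine algc_dens (algc_cons (algc_pol h) a) l.length (fun l' e hg => ?_) l rfl
    have hn : l'.length + 1 < n := by omega
    have i1 := algc_aux0 h hn (ih _ (by omega) l' rfl (by omega))
    have i2 := algc_zero0 h hn
    refine congrFun (nodecount4 (f := fun a _ => algcD Ψ (a :: l'))
      (fun _ => algc_head (algc_pol h) (PolyP.var 0) l') (2 * l'.length + 4)
      (fun c b => funext fun _ => algc_hom h c b hn) hg _ special_np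
      (fun e he => (special_ok e he).1) (fun e he => (special_ok e he).2) (by simp; omega)
      (fun e he => funext fun _ => ?_) (fun m hm => ?_) a) zer
    · simp only [List.mem_cons, List.not_mem_nil, or_false] at he
      rcases he with rfl | rfl | rfl | rfl
      exacts [i1, (algc_bar h (bar aux) hn).trans i1, i2, (algc_bar h (0, 1) hn).trans i2]
    · obtain ⟨s, t, rfl⟩ := List.append_of_mem hm
      have hl2 : (s ++ t).length + 2 < n := by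
        simp only [List.length_append, List.length_cons] at hn ⊢
        omega
      have i0 : algcD Ψ (s ++ t) = 0 := ih _ (by
        simp only [List.length_append, List.length_cons] at e ⊢
        omega) _ rfl (by omega)
      have p : ∀ x, algcD Ψ (x :: (s ++ m :: t)) = algcD Ψ (x :: m :: (s ++ t)) := fun x =>
        algc_perm h hn (List.perm_middle.cons x)
      have j1 : algcD Ψ (sh m :: (s ++ m :: t)) = 0 := (p _).trans (algc_sh0 h m hl2 i0)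
      have j2 : algcD Ψ (sh (bar m) :: (s ++ m :: t)) = 0 := by
        rw [p, algc_perm h (l := sh (bar m) :: m :: (s ++ t)) hl2 (List.Perm.swap _ _ _),
          ← algc_bar h m (l := sh (bar m) :: (s ++ t)) hl2,
          algc_perm h (l := bar m :: sh (bar m) :: (s ++ t)) hl2 (List.Perm.swap _ _ _)]
        exact algc_sh0 h (bar m) hl2 i0
      exact ⟨funext fun _ => j1, funext fun _ => j2,
        funext fun _ => (algc_bar h _ hn).trans j1, funext fun _ => (algc_bar h _ hn).trans j2⟩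

theorem Good.flux (h : Good n Ψ) (l : List P) (hl : l.length < n) :
    (ζ ^ 2 - ζ ^ 6) * ζ ^ (13 * l.length) * GG Ψ l =
      ζ ^ 5 * ((1 + ζ ^ 2 - ζ ^ 6) * Wp l * Ψ ((0, 1) :: l) zer - pP l * pQ l * cc1 Ψ l) :=
  sub_eq_zero.1 (algc_all h _ l rfl hl)

/-! the functional equation -/

lemma algc_F6_pol {g u : (ℕ → P) → P} (hg : PolyP g) (hu : PolyP u) :
    PolyF fun x => F6 (g x) (u x) := by
  have a := hg.1.mul hu.2
  have b := hg.2.mul hu.1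
  have c := hg.1.mul hu.1
  have d := hg.2.mul hu.2
  exact (((((a.sub b).mul (c.sub d)).mul (a.sub ((PolyF.const _).mul b))).mul
    (a.sub ((PolyF.const _).mul b))).mul (c.sub ((PolyF.const _).mul d))).mul
    (c.sub ((PolyF.const _).mul d))

/-- `PhiL` as a function of one list -/
noncomputable def algcP (Ψ : List P → Vec) (j : ℕ) : List P → ℂ
  | [] => 0
  | a :: l => PhiL Ψ l (tw j false a)

lemma algc_P_pol (h : Good n Ψ) (j : ℕ) : Pol (algcP Ψ j) := by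
  intro L hL
  rcases L with _ | ⟨g, L⟩
  · exact PolyF.const 0
  have h1 := (hL g List.mem_cons_self).tw j false
  have h2 : ∀ u ∈ L, PolyP u := fun u hu => hL u (List.mem_cons_of_mem _ hu)
  refine ((((h1.1.pow 2).sub (h1.2.pow 2)).mul (((h1.1.pow 2).sub ((PolyF.const _).mul
    (h1.1.mul h1.2))).add (h1.2.pow 2))).mul (PolyF.listProd (fun x => F6 (tw j false (g x)))
      fun u hu => algc_F6_pol h1 (h2 u hu))).mul
    (h.pol zer ((fun x => tw j false (g x)) :: L) fun u hu => ?_)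
  rcases List.mem_cons.1 hu with rfl | hu
  exacts [h1, h2 u hu]

lemma algc_prod_smul (c : ℂ) (f : P → ℂ) (l : List P) :
    (l.map fun m => c * f m).prod = c ^ l.length * (l.map f).prod := by
  induction l with
  | nil => simp
  | cons a l ih =>
    simp only [List.map_cons, List.prod_cons, ih, List.length_cons]
    ring

lemma algc_Phi_hom (h : Good n Ψ) {l : List P} (hl : l.length < n) (c : ℂ) (a : P) :
    PhiL Ψ l (c • a) = c ^ (8 * l.length + 4) * PhiL Ψ l a := by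
  have e : F6 (c • a) = fun m => c ^ 6 * F6 a m := funext (algc_F6_smul c a)
  simp only [PhiL, h.D_hom a c l hl, e, algc_prod_smul, Prod.smul_fst, Prod.smul_snd,
    smul_eq_mul]
  ring

lemma algc_Phi_bar (h : Good n Ψ) {l : List P} (hl : l.length < n) (a : P) :
    PhiL Ψ l (bar a) = -PhiL Ψ l a := by
  have e : F6 (bar a) = F6 a := funext (algc_F6_bar a)
  simp only [PhiL, h.D_bar a l hl, e]
  simp only [bar]
  ring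

lemma algc_tw_tw (i j : ℕ) (a : P) : tw i false (tw j false a) = tw (i + j) false a := by
  simp [tw, pow_add, mul_assoc]

lemma algc_tw16 (j : ℕ) (a : P) : tw (16 + j) false a = tw j false a := by
  simp [tw, pow_add, h16]

lemma algc_tw_smul (j : ℕ) (c : ℂ) (a : P) : tw j false (c • a) = c • tw j false a := by
  simp [tw, mul_left_comm]

lemma algc_tw_bar {i j : ℕ} (e : i + j = 16) (a : P) :
    tw i false (bar a) = bar (ζ ^ i • tw j false a) := by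
  simp [tw, bar, ← mul_assoc, ← pow_add, e, h16]

/-- the left side of the functional equation -/
noncomputable def algcF (Ψ : List P → Vec) (l : List P) (a : P) : ℂ :=
  PhiL Ψ l (tw 0 false a) - PhiL Ψ l (tw 4 false a) + PhiL Ψ l (tw 8 false a) -
    PhiL Ψ l (tw 12 false a)

lemma algc_F_hom (h : Good n Ψ) {l : List P} (hl : l.length < n) (c : ℂ) (a : P) :
    algcF Ψ l (c • a) = c ^ (8 * l.length + 4) * algcF Ψ l a := by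
  simp only [algcF, algc_tw_smul, algc_Phi_hom h hl]
  ring

lemma algc_F_tw (l : List P) (j : ℕ) (a : P) :
    algcF Ψ l (tw (4 + j) false a) = -algcF Ψ l (tw j false a) := by
  simp only [algcF, algc_tw_tw]
  rw [show 12 + (4 + j) = 16 + (0 + j) by ring, algc_tw16, show 0 + (4 + j) = 4 + j by ring,
    show 4 + (4 + j) = 8 + j by ring, show 8 + (4 + j) = 12 + j by ring]
  ring

lemma algc_z4 (i T : ℕ) : (ζ ^ (4 * i)) ^ (8 * T + 4) = 1 := by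
  rw [← pow_mul, show 4 * i * (8 * T + 4) = 16 * (i * (2 * T + 1)) by ring, pow_mul, h16, one_pow]

lemma algc_F_bar (h : Good n Ψ) {l : List P} (hl : l.length < n) (a : P) :
    algcF Ψ l (bar a) = -algcF Ψ l a := by
  have e := algc_tw16 0 a
  rw [algcF, algc_tw_bar (i := 0) (j := 16) rfl, algc_tw_bar (i := 4) (j := 12) rfl,
    algc_tw_bar (i := 8) (j := 8) rfl, algc_tw_bar (i := 12) (j := 4) rfl]
  simp only [algc_Phi_bar h hl, algc_Phi_hom h hl, algc_z4 0, algc_z4 1, algc_z4 2, algc_z4 3, e,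
    algcF]
  ring

lemma algc_key (h : Good n Ψ) {l : List P} (m : P) (hl : l.length + 1 < n) :
    PhiL Ψ (m :: l) (tw 10 false m) = PhiL Ψ (m :: l) (tw 6 false m) := by
  have e1 : tw 10 false m = ζ ^ 13 • sh m := by
    rw [sh_eq_tw, smul_smul, ← pow_add, h16, one_smul]
  have e2 : tw 6 false m = ζ ^ 3 • bar (sh (bar m)) := by
    rw [bar_sh_bar_eq_tw, smul_smul, ← pow_add, h16, one_smul]
  have d1 : Ψ (tw 10 false m :: m :: l) zer = ζ ^ 26 * (ζ ^ 26) ^ l.length *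
      (kd m * lin m * (l.map fun k => phi k m).prod * m.2 * Ψ l zer) := by
    rw [e1, h.D_hom _ _ (m :: l) hl, h.D_sh m l hl, List.length_cons]
    ring
  have d2 : Ψ (tw 6 false m :: m :: l) zer = ζ ^ 6 * (ζ ^ 6) ^ l.length *
      (kd (bar m) * lin (bar m) * (l.map fun k => phi k (bar m)).prod * m.1 * Ψ l zer) := by
    rw [e2, h.D_hom _ _ (m :: l) hl, h.D_bar _ (m :: l) hl, ← algc_Dbar h _ m hl,
      h.D_sh (bar m) l hl, List.length_cons]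
    simp only [bar]
    ring
  have p : (ζ ^ 26) ^ l.length * ((l.map (F6 (tw 10 false m))).prod *
      (l.map fun k => phi k m).prod) = (ζ ^ 6) ^ l.length * ((l.map (F6 (tw 6 false m))).prod *
      (l.map fun k => phi k (bar m)).prod) := by
    rw [← List.prod_map_mul, ← List.prod_map_mul, ← algc_prod_smul, ← algc_prod_smul]
    simp only [algc_other]
  have s := algc_m m.1 m.2
  simp only [PhiL, d1, d2, List.map_cons, List.prod_cons]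
  simp only [tw, Bool.false_eq_true, if_false, bar] at p ⊢
  generalize ((ζ ^ 10 * m.1) ^ 2 - m.2 ^ 2) *
    ((ζ ^ 10 * m.1) ^ 2 - c18 * (ζ ^ 10 * m.1 * m.2) + m.2 ^ 2) = A at s ⊢
  generalize ((ζ ^ 6 * m.1) ^ 2 - m.2 ^ 2) *
    ((ζ ^ 6 * m.1) ^ 2 - c18 * (ζ ^ 6 * m.1 * m.2) + m.2 ^ 2) = B at s ⊢
  linear_combination (A * F6 (ζ ^ 10 * m.1, m.2) m * ζ ^ 26 * kd m * lin m * m.2 * Ψ l zer) * p +
    ((ζ ^ 6) ^ l.length * ((l.map (F6 (ζ ^ 6 * m.1, m.2))).prod *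
      (l.map fun k => phi k (m.2, m.1)).prod) * Ψ l zer) * s

lemma algc_node (h : Good n Ψ) {l : List P} (hl : l.length < n) {m : P} (hm : m ∈ l) :
    algcF Ψ l (tw 2 false m) = 0 := by
  obtain ⟨s, t, rfl⟩ := List.append_of_mem hm
  have p : ∀ a, PhiL Ψ (s ++ m :: t) a = PhiL Ψ (m :: (s ++ t)) a := fun a => by
    simp only [PhiL, (List.perm_middle.map (F6 a)).prod_eq,
      h.D_perm (l := a :: (s ++ m :: t)) hl (List.perm_middle.cons a)]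
  have z1 : F6 (tw 2 false m) m = 0 := by
    simp only [F6, tw, Bool.false_eq_true, if_false]
    ring
  have z2 : F6 (tw 14 false m) m = 0 := by
    simp only [F6, tw, Bool.false_eq_true, if_false]
    ring
  simp only [algcF, algc_tw_tw, p]
  rw [algc_key h m (by simpa [Nat.add_assoc] using hl)]
  simp [PhiL, z1, z2]

lemma algc_gen (h : Good n Ψ) {l : List P} (hl : l.length < n) (hg : Gen l) (a : P) :
    algcF Ψ l a = 0 := by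
  have up : ∀ (j : ℕ) (b : P), algcF Ψ l (tw j false b) = 0 → algcF Ψ l (tw (4 + j) false b) = 0 :=
    fun j b e => by rw [algc_F_tw, e, neg_zero]
  have rv : ∀ (i j : ℕ) (b : P), i + j = 16 → algcF Ψ l (tw j false b) = 0 →
      algcF Ψ l (tw i true b) = 0 := fun i j b e e' => by
    rw [show tw i true b = tw i false (bar b) from rfl, algc_tw_bar e, algc_F_bar h hl,
      algc_F_hom h hl, e', mul_zero, neg_zero]
  have s0 : algcF Ψ l (tw 0 false (1, 1)) = 0 := by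
    have := algc_F_bar h hl (1, 1)
    rw [show tw 0 false ((1, 1) : P) = (1, 1) by simp [tw]]
    simp only [bar] at this
    linear_combination this / 2
  have s2 : algcF Ψ l (tw 2 false (1, 1)) = 0 := by
    have e := algc_tw_bar (i := 2) (j := 14) rfl (1, 1)
    have e1 : (ζ ^ 2) ^ (8 * l.length + 4) = -1 := by
      rw [← pow_mul, show 2 * (8 * l.length + 4) = 16 * l.length + 8 by ring, pow_add, pow_mul,
        h16, h8, one_pow, one_mul]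
    have e2 : algcF Ψ l (tw 2 false (1, 1)) = algcF Ψ l (tw 14 false (1, 1)) := by
      rw [show tw 2 false ((1, 1) : P) = tw 2 false (bar (1, 1)) from rfl, e, algc_F_bar h hl,
        algc_F_hom h hl, e1]
      ring
    rw [algc_F_tw l 10, algc_F_tw l 6, algc_F_tw l 2] at e2
    linear_combination e2 / 2
  have pol : ∀ j, PolyF fun x => PhiL Ψ l (tw j false (x 0)) := fun j =>
    algc_head (algc_P_pol h j) (PolyP.var 0) l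
  refine nodecountL ((((pol 0).sub (pol 4)).add (pol 8)).sub (pol 12)) (8 * l.length + 4)
    (algc_F_hom h hl) hg [(2, false), (6, false), (10, false), (14, false), (2, true), (6, true),
      (10, true), (14, true)] (by decide) (by decide)
    ((List.range 8).map fun i => tw (2 * i) false (1, 1)) ?_ ?_ ?_ (by simp; omega) ?_ ?_ a
  · rw [List.pairwise_map]
    refine List.Pairwise.imp_of_mem ?_ List.pairwise_lt_range
    intro i j hi hj hij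
    rw [List.mem_range] at hi hj
    simpa [NP, tw] using zeta_pow_ne (i := 2 * i) (j := 2 * j) (by omega) (by omega) (by omega)
  · intro e he
    obtain ⟨i, -, rfl⟩ := List.mem_map.1 he
    simp [tw]
  · intro e he
    obtain ⟨i, -, rfl⟩ := List.mem_map.1 he
    simp [tw, poly_z32]
  · intro e he
    obtain ⟨i, hi, rfl⟩ := List.mem_map.1 he
    rw [List.mem_range] at hi
    interval_cases i
    exacts [s0, s2, up 0 _ s0, up 2 _ s2, up 4 _ (up 0 _ s0), up 6 _ (up 2 _ s2),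
      up 8 _ (up 4 _ (up 0 _ s0)), up 10 _ (up 6 _ (up 2 _ s2))]
  · intro j hj m hm
    have n2 := algc_node h hl hm
    have n6 := up 2 _ n2
    have n10 := up 6 _ n6
    have n14 := up 10 _ n10
    simp only [List.mem_cons, List.not_mem_nil, or_false] at hj
    rcases hj with rfl | rfl | rfl | rfl | rfl | rfl | rfl | rfl
    exacts [n2, n6, n10, n14, rv 2 14 m rfl n14, rv 6 10 m rfl n10, rv 10 6 m rfl n6,
      rv 14 2 m rfl n2]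

theorem Good.fe (h : Good n Ψ) (l : List P) (hl : l.length < n) (x : ℂ) :
    PhiL Ψ l (x, 1) - PhiL Ψ l (ζ ^ 4 * x, 1) + PhiL Ψ l (-x, 1) -
      PhiL Ψ l (-(ζ ^ 4 * x), 1) = 0 := by
  have pol : ∀ j, Pol fun l => PhiL Ψ l (tw j false (x, 1)) := fun j =>
    algc_cons (algc_P_pol h j) (x, 1)
  have key := algc_dens (F := fun l => algcF Ψ l (x, 1))
    (fun L hL => (((pol 0 L hL).sub (pol 4 L hL)).add (pol 8 L hL)).sub (pol 12 L hL)) l.length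
    (fun l' e hg => algc_gen h (e ▸ hl) hg _) l rfl
  have e : ζ ^ 12 = -ζ ^ 4 := by linear_combination ζ ^ 4 * h8
  simpa [algcF, tw, h8, e] using key


end Pool.Agent.Lib.MP_4960b8_pr.QK
end

-- part Pool.Agent.Lib.MP_4960b8_pr.QK.AlgD
section

/-! Specialisation to the hexagonal lattice. -/

namespace Pool.Agent.Lib.MP_4960b8_pr.QK

open Polynomial

/-- the curve from `hn` to `aux` -/
noncomputable def algd_c (t : ℂ) : P := (1, ζ + t * (ζ ^ 3 - ζ))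

lemma algd_c0 : algd_c 0 = hn := by simp [algd_c, hn]
lemma algd_c1 : algd_c 1 = aux := by simp [algd_c, aux]

lemma algd_var : PolyF fun x => (x 0).1 := (PolyP.var 0).1

lemma algd_cP : PolyP fun x => algd_c (x 0).1 :=
  ⟨PolyF.const 1, (PolyF.const ζ).add (algd_var.mul (PolyF.const _))⟩

lemma algd_eval (q : ℂ[X]) : PolyF fun x => q.eval (x 0).1 := by
  simp only [eval_eq_sum_range]
  exact PolyF.sum _ fun i _ => (PolyF.const _).mul (algd_var.pow i)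

lemma algd_ex {f : ℂ → ℂ} (hf : PolyF fun x => f (x 0).1) : ∃ q : ℂ[X], ∀ t, f t = q.eval t := by
  obtain ⟨q, hq⟩ := hf.curve fun _ => (X, 0)
  exact ⟨q, fun t => by simpa using hq t⟩

/-- a relation valid after multiplication by `t ^ k` holds at `t = 0` -/
lemma algd_lim {f g : ℂ → ℂ} (hf : PolyF fun x => f (x 0).1) (hg : PolyF fun x => g (x 0).1)
    {k : ℕ} (h : ∀ t, t ^ k * f t = t ^ k * g t) : f 0 = g 0 :=
  sub_eq_zero.1 (poly_dom (hf.sub hg) algd_var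
    (fun _ hx => sub_eq_zero.2 (mul_left_cancel₀ (pow_ne_zero k hx) (h _)))
    (y := fun _ => (1, 0)) one_ne_zero fun _ => (0, 0))

lemma algd_limV {f g : ℂ → Vec} (hf : PolyV fun x => f (x 0).1) (hg : PolyV fun x => g (x 0).1)
    {k : ℕ} (h : ∀ t, t ^ k • f t = t ^ k • g t) : f 0 = g 0 :=
  funext fun σ => algd_lim (f := fun t => f t σ) (g := fun t => g t σ) (hf σ) (hg σ)
    fun t => congrFun (h t) σ

lemma algd_pP (T : ℕ) (a : P) : pP (List.replicate T a) = a.1 ^ T := by simp [pP]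
lemma algd_pQ (T : ℕ) (a : P) : pQ (List.replicate T a) = a.2 ^ T := by simp [pQ]
lemma algd_fc (T : ℕ) (a : P) : fc (List.replicate T a) = dd a aux ^ T := by simp [fc]

lemma algd_Wp_pol (T : ℕ) {g} (hg : PolyP g) : PolyF fun x => Wp (List.replicate T (g x)) := by
  induction T with
  | zero => exact PolyF.const 0
  | succ T ih =>
    simp only [List.replicate_succ, Wp, algd_pP, algd_pQ]
    exact (((hg.1.pow 2).add (hg.2.pow 2)).mul ((hg.1.pow T).mul (hg.2.pow T))).add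
      ((hg.1.mul hg.2).mul ih)

lemma algd_Wp (T : ℕ) : Wp (List.replicate T hn) = T * c18 * ζ ^ T := by
  induction T with
  | zero => simp [Wp]
  | succ T ih =>
    rw [List.replicate_succ, Wp, ih, algd_pP, algd_pQ]
    simp only [hn, one_pow]
    push_cast
    linear_combination -ζ ^ T * poly_c18

lemma algd_LT_smul (l : List P) (c : ℂ) (v : Vec) : LT l (c • v) = c * LT l v := by
  induction l generalizing v with
  | nil => simp [LT]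
  | cons a l ih =>
    rw [LT, LT, map_smul, ih, Pi.smul_apply, smul_eq_mul]
    ring

lemma algd_LT (T : ℕ) (v : Vec) :
    LT (List.replicate T hn) v = (ζ - ζ ^ 13) * ∑ j ∈ Finset.range T, v (sgl j) := by
  induction T generalizing v with
  | zero => simp [LT]
  | succ T ih =>
    have e0 : cons .p zer = sgl 0 := by
      funext i
      cases i <;> simp [sgl, zer]
    have e1 : ∀ j, prj .o v (sgl j) = v (sgl (j + 1)) := fun j => by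
      refine congrArg v (funext fun i => ?_)
      cases i <;> simp [sgl]
    rw [List.replicate_succ, LT, ih, algd_pP, Finset.sum_range_succ', e0]
    simp only [e1, hn, one_pow]
    ring

lemma algd_F6 (x : ℂ) :
    F6 (x, 1) hn = ζ ^ 3 * (x ^ 2 - c18 * x + 1) ^ 2 * (x ^ 2 - c38 * x + 1) := by
  have a1 : (x * ζ - 1) * (x - ζ) = ζ * (x ^ 2 - c18 * x + 1) := by
    linear_combination x * poly_c18
  have a2 : (x * ζ - ζ ^ 2) * (x - ζ ^ 14 * ζ) = ζ * (x ^ 2 - c18 * x + 1) := by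
    linear_combination x * poly_c18 + (ζ - x) * h16
  have a3 : (x * ζ - ζ ^ 14) * (x - ζ ^ 2 * ζ) = ζ * (x ^ 2 - c38 * x + 1) := by
    rw [c38_eq]
    linear_combination ζ * h16 - x * ζ ^ 6 * h8
  calc F6 (x, 1) hn = ((x * ζ - 1) * (x - ζ)) * ((x * ζ - ζ ^ 2) * (x - ζ ^ 14 * ζ)) *
        ((x * ζ - ζ ^ 14) * (x - ζ ^ 2 * ζ)) := by
        simp only [F6, hn]
        ring
    _ = _ := by
        rw [a1, a2, a3]
        ring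

lemma algd_F6_pol (a : P) {g} (hg : PolyP g) : PolyF fun x => F6 a (g x) := by
  have c := PolyF.const
  have h1 := (c a.1).mul hg.1
  have h2 := (c a.1).mul hg.2
  have h3 := (c a.2).mul hg.1
  have h4 := (c a.2).mul hg.2
  exact (((((h2.sub h3).mul (h1.sub h4)).mul (h2.sub ((c _).mul h3))).mul
    (h2.sub ((c _).mul h3))).mul (h1.sub ((c _).mul h4))).mul (h1.sub ((c _).mul h4))

lemma algd_c18_ne : (c18 : ℂ) ≠ 0 := by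
  rw [c18_eq, sub_ne_zero]
  simpa using zeta_pow_ne (i := 1) (j := 7) (by norm_num) (by norm_num) (by norm_num)

/-- the leading terms along the curve -/
lemma algd_lead {T : ℕ} {Ψ : List P → Vec} (h : Good (T + 1) Ψ) :
    ∃ (k : ℕ) (g : ℂ → Vec) (p : ℂ → ℂ[X]), (PolyV fun x => g (x 0).1) ∧
      (∀ y, PolyF fun x => (p (x 0).1).eval y) ∧ (PolyF fun x => (p (x 0).1).coeff 1) ∧
      (p 0).natDegree ≤ 2 * T ∧ (g 0 ≠ 0 ∨ p 0 ≠ 0) ∧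
      (∀ t, Ψ (List.replicate T (algd_c t)) = t ^ k • g t) ∧
      (∀ t y, Ψ ((y, 1) :: List.replicate T (algd_c t)) zer = t ^ k * (p t).eval y) ∧
      ∀ t, cc1 Ψ (List.replicate T (algd_c t)) = t ^ k * (p t).coeff 1 := by
  have hL : ∀ g ∈ List.replicate T fun x : ℕ → P => algd_c (x 0).1, PolyP g := fun g hg => by
    rw [List.eq_of_mem_replicate hg]
    exact algd_cP
  have e1 : ∀ σ, ∃ q : ℂ[X], ∀ t, Ψ (List.replicate T (algd_c t)) σ = q.eval t := fun σ =>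
    algd_ex (by simpa only [List.map_replicate] using h.pol σ _ hL)
  have e2 : ∀ y : ℂ, ∃ q : ℂ[X], ∀ t, Ψ ((y, 1) :: List.replicate T (algd_c t)) zer = q.eval t :=
    fun y => algd_ex (by
      simpa only [List.map_cons, List.map_replicate] using h.pol zer ((fun _ => (y, 1)) :: _)
        (List.forall_mem_cons.2 ⟨PolyP.const _, hL⟩))
  choose F₁ hF₁ using e1
  choose F₂ hF₂ using e2
  obtain ⟨k, G, hG, i, hi⟩ := tk (Sum.elim F₁ F₂) ⟨Sum.inl zer, fun h0 => by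
    have := hF₁ zer 1
    rw [algd_c1, show F₁ zer = 0 from h0, eval_zero] at this
    exact h.aux_ne T (Nat.le_succ T) this⟩
  have g1 : ∀ t σ, Ψ (List.replicate T (algd_c t)) σ = t ^ k * (G (.inl σ)).eval t := fun t σ => by
    rw [hF₁, show F₁ σ = _ from hG (.inl σ)]
    simp
  have g2 : ∀ t y, Ψ ((y, 1) :: List.replicate T (algd_c t)) zer = t ^ k * (G (.inr y)).eval t :=
    fun t y => by
      rw [hF₂, show F₂ y = _ from hG (.inr y)]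
      simp
  have inj : Set.InjOn (fun i : ℕ => (i : ℂ)) (Finset.range (2 * T + 1)) :=
    fun _ _ _ _ e => Nat.cast_injective e
  let p : ℂ → ℂ[X] := fun t => Lagrange.interpolate (Finset.range (2 * T + 1))
    (fun i : ℕ => (i : ℂ)) fun i => (G (.inr i)).eval t
  have key : ∀ t y, Ψ ((y, 1) :: List.replicate T (algd_c t)) zer = (t ^ k • p t).eval y := by
    intro t
    have q0 := h.pol zer ((fun x => x 0) :: List.replicate T fun _ => algd_c t)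
      (List.forall_mem_cons.2 ⟨PolyP.var 0, fun g hg => by
        rw [List.eq_of_mem_replicate hg]
        exact PolyP.const _⟩)
    simp only [List.map_cons, List.map_replicate] at q0
    obtain ⟨q, q1, q2⟩ := hom_poly (f := fun a => Ψ (a :: List.replicate T (algd_c t)) zer) q0 (2 * T)
      fun c a => by simpa using h.D_hom a c (List.replicate T (algd_c t)) (by simp)
    have q3 := Lagrange.eq_interpolate (f := q) inj (by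
      rw [Finset.card_range]
      exact (degree_le_of_natDegree_le q1).trans_lt (by exact_mod_cast Nat.lt_succ_self _))
    intro y
    rw [q2, q3, ← map_smul]
    congr 2
    funext i
    rw [← q2, g2]
    rfl
  have p1 : ∀ y, PolyF fun x => (p (x 0).1).eval y := fun y => by
    simp only [p, Lagrange.interpolate_apply, eval_finsetSum, eval_mul, eval_C]
    exact PolyF.sum _ fun i _ => (algd_eval _).mul (PolyF.const _)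
  have p2 : ∀ t y, Ψ ((y, 1) :: List.replicate T (algd_c t)) zer = t ^ k * (p t).eval y :=
    fun t y => by rw [key, eval_smul, smul_eq_mul]
  refine ⟨k, fun t σ => (G (.inl σ)).eval t, p, fun σ => algd_eval _, p1, ?_, ?_, ?_,
    fun t => funext (g1 t), p2, fun t => ?_⟩
  · simp only [p, Lagrange.interpolate_apply, finsetSum_coeff, coeff_C_mul]
    exact PolyF.sum _ fun i _ => (algd_eval _).mul (PolyF.const _)
  · refine natDegree_le_iff_degree_le.2 ?_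
    have := Lagrange.degree_interpolate_le (fun i : ℕ => (G (.inr i)).eval 0) inj
    rwa [Finset.card_range, Nat.add_sub_cancel] at this
  · rcases i with σ | y
    · exact Or.inl fun h0 => hi (congrFun h0 σ)
    · refine Or.inr fun h0 => hi ?_
      have := algd_lim (f := fun t => (G (.inr y)).eval t) (g := fun t => (p t).eval y)
        (algd_eval _) (p1 y) fun t => (g2 t y).symm.trans (p2 t y)
      rwa [h0, eval_zero] at this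
  · simp only [cc1, key]
    rw [Polynomial.deriv, ← coeff_zero_eq_eval_zero, coeff_derivative]
    simp

theorem alg (h : StmtGood) : StmtAlg := by
  intro T
  obtain ⟨Ψ, h⟩ := h (T + 1)
  obtain ⟨k, g, p, hg, hp, hp1, hd, hne, e1, e2, e3⟩ := algd_lead h
  have hL : ∀ g ∈ List.replicate T fun x : ℕ → P => algd_c (x 0).1, PolyP g := fun g hg => by
    rw [List.eq_of_mem_replicate hg]
    exact algd_cP
  have le : ∀ t, (List.replicate T (algd_c t)).length ≤ T + 1 := fun t => by simp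
  have lt : ∀ t, (List.replicate T (algd_c t)).length < T + 1 := fun t => by simp
  have c := PolyF.const
  have oD : PolyO fun x => down aux (List.replicate T (algd_c (x 0).1)) := by
    simpa only [List.map_replicate] using PolyO.down (PolyP.const aux) hL
  have oC : PolyO fun x => col (List.replicate T (algd_c (x 0).1)) := (PolyO.prj _).mul oD
  have oA : PolyO fun x => colA (List.replicate T (algd_c (x 0).1)) := (PolyO.prj _).mul oD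
  have oJ : PolyO fun x => JB (List.replicate T (algd_c (x 0).1)) := by
    simpa only [List.map_replicate] using PolyO.JB hL
  have fP : PolyF fun x => pP (List.replicate T (algd_c (x 0).1)) := by
    simpa only [algd_pP] using algd_cP.1.pow T
  have fQ : PolyF fun x => pQ (List.replicate T (algd_c (x 0).1)) := by
    simpa only [algd_pQ] using algd_cP.2.pow T
  have fF : PolyF fun x => fc (List.replicate T (algd_c (x 0).1)) := by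
    simpa only [algd_fc] using (PolyF.dd algd_cP (PolyP.const aux)).pow T
  have fL : PolyF fun x => LT (List.replicate T (algd_c (x 0).1))
      (JB (List.replicate T (algd_c (x 0).1)) (g (x 0).1)) := by
    simpa only [List.map_replicate] using PolyF.LT hL (oJ _ hg)
  have z0 : ∀ σ, (∀ t, Ψ (List.replicate T (algd_c t)) σ = 0) → g 0 σ = 0 := fun σ h0 =>
    algd_lim (f := fun t => g t σ) (g := fun _ => 0) (hg σ) (c 0) (k := k) fun t => by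
      rw [mul_zero, ← h0 t, e1]
      rfl
  have s0 : Supp T (g 0) := fun σ i h1 h2 => z0 σ fun t => h.supp _ (le t) σ i (by simpa) h2
  have c0 : HasCh T 0 (g 0) := fun σ h1 => z0 σ fun t => h.ch _ (le t) σ (by simpa)
  have r1 := algd_limV (f := fun t => col (List.replicate T (algd_c t)) (g t))
    (g := fun t => fc (List.replicate T (algd_c t)) • g t) (oC _ hg) (PolyV.smul fF hg) (k := k)
    fun t => by rw [← map_smul, smul_comm, ← e1, h.col_fix _ (le t)]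
  have r2 := algd_limV (f := fun t => Q T (g t)) (g := fun _ => 0) (PolyO.Q T _ hg)
    (fun _ => c 0) (k := k) fun t => by
      rw [← map_smul, ← e1, smul_zero]
      simpa using h.Q_zero _ (le t)
  have r3 := algd_limV (f := fun t => fc (List.replicate T (algd_c t)) •
      JB (List.replicate T (algd_c t)) (g t))
    (g := fun t => col (List.replicate T (algd_c t)) (JB (List.replicate T (algd_c t)) (g t)) +
      (pP (List.replicate T (algd_c t)) * pQ (List.replicate T (algd_c t)) * (ζ ^ 2 + ζ ^ 4)) •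
        colA (List.replicate T (algd_c t)) (g t)) (PolyV.smul fF (oJ _ hg))
    ((oC _ (oJ _ hg)).add (PolyV.smul ((fP.mul fQ).mul (c _)) (oA _ hg))) (k := k) fun t => by
      have := h.phi_eq _ (le t)
      rw [e1] at this
      simp only [map_smul] at this
      rw [smul_comm, this, smul_add, smul_comm (t ^ k)]
  have r4 := algd_lim (f := fun t => (p t).eval 0) (g := fun t => ζ ^ (13 * T) *
      pP (List.replicate T (algd_c t)) * pQ (List.replicate T (algd_c t)) * g t zer) (hp 0)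
    ((((c _).mul fP).mul fQ).mul (hg zer)) (k := k) fun t => by
      rw [← e2, h.D_zero _ (lt t), e1, List.length_replicate, Pi.smul_apply, smul_eq_mul]
      ring
  have r5 := algd_lim (f := fun t => (p t).eval (ζ ^ 3))
    (g := fun t => fc (List.replicate T (algd_c t)) * g t zer) (hp _) (fF.mul (hg zer)) (k := k)
    fun t => by
      rw [← e2, show ((ζ ^ 3, 1) : P) = bar aux from rfl, h.D_aux _ (lt t), e1, Pi.smul_apply,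
        smul_eq_mul]
      ring
  have r6 : ∀ y : ℂ, y ≠ 0 → (p 0).eval y = y ^ (2 * T) * (p 0).eval y⁻¹ := fun y hy =>
    algd_lim (f := fun t => (p t).eval y) (g := fun t => y ^ (2 * T) * (p t).eval y⁻¹) (hp _)
      ((c _).mul (hp _)) (k := k) fun t => by
        have a1 := h.D_bar (y, 1) _ (lt t)
        have a2 := h.D_hom (y⁻¹, 1) y _ (lt t)
        rw [show y • ((y⁻¹, 1) : P) = bar (y, 1) by simp [bar, hy], a1, e2, e2,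
          List.length_replicate] at a2
        linear_combination a2
  have w : ∀ y : ℂ, PolyF fun x => (y ^ 2 - 1) * (y ^ 2 - c18 * y + 1) *
      F6 (y, 1) (algd_c (x 0).1) ^ T * (p (x 0).1).eval y := fun y =>
    ((c _).mul ((algd_F6_pol _ algd_cP).pow T)).mul (hp y)
  have r7 := fun y : ℂ => algd_lim
    (f := fun t => (y ^ 2 - 1) * (y ^ 2 - c18 * y + 1) * F6 (y, 1) (algd_c t) ^ T * (p t).eval y -
      ((ζ ^ 4 * y) ^ 2 - 1) * ((ζ ^ 4 * y) ^ 2 - c18 * (ζ ^ 4 * y) + 1) *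
        F6 (ζ ^ 4 * y, 1) (algd_c t) ^ T * (p t).eval (ζ ^ 4 * y) +
      ((-y) ^ 2 - 1) * ((-y) ^ 2 - c18 * (-y) + 1) * F6 (-y, 1) (algd_c t) ^ T * (p t).eval (-y) -
      ((-(ζ ^ 4 * y)) ^ 2 - 1) * ((-(ζ ^ 4 * y)) ^ 2 - c18 * (-(ζ ^ 4 * y)) + 1) *
        F6 (-(ζ ^ 4 * y), 1) (algd_c t) ^ T * (p t).eval (-(ζ ^ 4 * y)))
    (g := fun _ => 0) ((((w _).sub (w _)).add (w _)).sub (w _)) (c 0) (k := k) fun t => by
      have := h.fe _ (lt t) y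
      simp only [PhiL, e2, List.map_replicate, List.prod_replicate] at this
      linear_combination this
  have r8 := algd_lim (f := fun t => (ζ ^ 2 - ζ ^ 6) * ζ ^ (13 * T) *
      (pQ (List.replicate T (algd_c t)) * LT (List.replicate T (algd_c t))
        (JB (List.replicate T (algd_c t)) (g t))))
    (g := fun t => ζ ^ 5 * ((1 + ζ ^ 2 - ζ ^ 6) * Wp (List.replicate T (algd_c t)) * (p t).eval 0 -
      pP (List.replicate T (algd_c t)) * pQ (List.replicate T (algd_c t)) * (p t).coeff 1))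
    ((c _).mul (fQ.mul fL))
    ((c _).mul ((((c _).mul (algd_Wp_pol T algd_cP)).mul (hp 0)).sub ((fP.mul fQ).mul hp1)))
    (k := k) fun t => by
      have := h.flux _ (lt t)
      rw [GG, e1, e2, e3, map_smul, algd_LT_smul, List.length_replicate] at this
      linear_combination this
  simp only [algd_c0, algd_pP, algd_pQ, algd_fc, algd_Wp, algd_LT, algd_F6] at r1 r3 r4 r5 r7 r8
  simp only [show hn.1 = 1 from rfl, show hn.2 = ζ from rfl, one_pow] at r3 r4 r8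
  have hT : (ζ ^ T) ^ 16 = 1 := poly_z16 T
  have u13 : ζ ^ (13 * T) = (ζ ^ T) ^ 13 := by rw [← pow_mul, mul_comm]
  have u2 : ζ ^ (2 * T) = (ζ ^ T) ^ 2 := by rw [← pow_mul, mul_comm]
  have n1 : dd hn aux ≠ 0 := by
    rw [dd_hn_aux]
    exact mul_ne_zero (mul_ne_zero two_ne_zero algd_c18_ne) zeta_ne
  have n2 : ζ ^ 2 + ζ ^ 4 = ζ ^ 3 * c18 := by linear_combination -ζ ^ 2 * poly_c18
  have n3 : (ζ ^ 2 + ζ ^ 4) * ζ ^ T ≠ 0 := by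
    rw [n2]
    exact mul_ne_zero (mul_ne_zero (pow_ne_zero _ zeta_ne) algd_c18_ne) (pow_ne_zero _ zeta_ne)
  have i1 : (dd hn aux)⁻¹ ^ T * dd hn aux ^ T = 1 := by
    rw [← mul_pow, inv_mul_cancel₀ n1, one_pow]
  have i2 := inv_mul_cancel₀ n3
  have k0 : (ζ ^ (2 * T) • p 0).coeff 0 = g 0 zer := by
    rw [coeff_smul, coeff_zero_eq_eval_zero, r4, u13, u2, smul_eq_mul]
    linear_combination g 0 zer * hT
  refine ⟨g 0, ((ζ ^ 2 + ζ ^ 4) * ζ ^ T)⁻¹ • JB (List.replicate T hn) (g 0), ζ ^ (2 * T) • p 0,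
    ⟨s0, c0, Supp.smul ?_ _, HasCh.smul ?_ _, ?_, r2, ?_⟩,
    hne.imp id fun h1 => smul_ne_zero (pow_ne_zero _ zeta_ne) h1,
    ⟨(natDegree_smul_le _ _).trans hd, fun y hy => ?_, fun y => ?_⟩, k0, ?_, ?_⟩
  · exact ((s0.JE _ (by simp)).smul _).add (((s0.JF _ (by simp)).Q _).smul _)
  · exact ((c0.JE _ (by simp)).smul _).add (((c0.JF _ (by simp)).Q _ (by simp)).smul _)
  · rw [Ch, LinearMap.smul_apply, r1, smul_smul, i1, one_smul]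
  · funext σ
    have := congrFun r3 σ
    simp only [Ch, ChA, LinearMap.smul_apply, map_smul, Pi.add_apply, Pi.smul_apply,
      smul_eq_mul] at this ⊢
    linear_combination (dd hn aux)⁻¹ ^ T * ((ζ ^ 2 + ζ ^ 4) * ζ ^ T)⁻¹ * this -
      ((ζ ^ 2 + ζ ^ 4) * ζ ^ T)⁻¹ * JB (List.replicate T hn) (g 0) σ * i1 +
      (dd hn aux)⁻¹ ^ T * colA (List.replicate T hn) (g 0) σ * i2
  · rw [eval_smul, eval_smul, r6 y hy, smul_eq_mul, smul_eq_mul]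
    ring
  · have a : ∀ x : ℂ, ζ ^ T * PhiH T (ζ ^ (2 * T) • p 0) x = (x ^ 2 - 1) * (x ^ 2 - c18 * x + 1) *
        (ζ ^ 3 * (x ^ 2 - c18 * x + 1) ^ 2 * (x ^ 2 - c38 * x + 1)) ^ T * (p 0).eval x := fun x => by
      rw [PhiH, eval_smul, smul_eq_mul, mul_pow, mul_pow, ← pow_mul _ 2 T]
      generalize x ^ 2 - c18 * x + 1 = A
      ring
    apply mul_left_cancel₀ (pow_ne_zero T zeta_ne)
    rw [I_eq, mul_sub, mul_add, mul_sub, a, a, a, a, mul_zero]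
    exact r7 y
  · rw [k0, eval_smul, r5, dd_hn_aux, smul_eq_mul, mul_pow _ ζ, mul_pow _ (ζ ^ 3)]
    ring
  · rw [coeff_smul, coeff_smul, coeff_zero_eq_eval_zero, sqrt_two_eq, u2]
    simp only [Pi.smul_apply, smul_eq_mul, ← Finset.mul_sum]
    rw [u13] at r8
    generalize ∑ j ∈ Finset.range T, JB (List.replicate T hn) (g 0) (sgl j) = s at r8 ⊢
    apply mul_left_cancel₀ (mul_ne_zero n3 (pow_ne_zero 5 zeta_ne))
    have a : (ζ ^ 2 - ζ ^ 6) * (ζ - ζ ^ 13) = 2 * ζ ^ 3 := by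
      linear_combination (ζ ^ 11 - ζ ^ 7 - ζ ^ 3) * h8
    rw [n2] at i2 ⊢
    linear_combination 2 * c18 * ζ ^ 6 * s * i2 + ζ ^ 3 * c18 * (ζ ^ T) ^ 2 * r8 -
      ζ ^ 3 * c18 * (ζ ^ T) ^ 16 * s * a - 2 * c18 * ζ ^ 6 * s * hT

end Pool.Agent.Lib.MP_4960b8_pr.QK
end
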