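import Pool.Agent.Lib.MP_4960b8_pr.QK.AnaB

-- part Pool.Agent.Lib.MP_4960b8_pr.QK.AnaD
section

/-! The a priori bound. -/

namespace Pool.Agent.Lib.MP_4960b8_pr.QK

open Real

variable {T : ℕ} {a b : ℝ} {Θ : ℂ → ℂ}

@[simp] lemma anad_pt_re (x τ : ℝ) : (pt x τ).re = x := by simp [pt]
@[simp] lemma anad_pt_im (x τ : ℝ) : (pt x τ).im = τ := by simp [pt]

lemma anad_mem {x : ℝ} (hx : |x| ≤ 3 * π / 4) (τ : ℝ) : pt x τ ∈ Ust := by
  change |(pt x τ).re| < 13 * π / 16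
  rw [anad_pt_re]
  linarith [pi_pos]

lemma anad_abs {x : ℝ} (h0 : 0 ≤ x) (h1 : x ≤ 3 * π / 4) : |x| ≤ 3 * π / 4 := by
  rwa [abs_of_nonneg h0]

lemma anad_r : |3 * π / 4| ≤ 3 * π / 4 := anad_abs (by positivity) le_rfl
lemma anad_m : |π / 4| ≤ 3 * π / 4 := anad_abs (by positivity) (by linarith [pi_pos])
lemma anad_z : |(0 : ℝ)| ≤ 3 * π / 4 := anad_abs le_rfl (by positivity)

lemma anad_refl (h : RH T a b Θ) {x : ℝ} (hx : |x| ≤ 3 * π / 4) (τ : ℝ) :
    Θ (pt (-x) τ) = starRingEnd ℂ (Θ (pt x τ)) := by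
  rw [← h.real _ (anad_mem hx τ)]
  congr 1
  apply Complex.ext <;> simp

lemma anad_conj (h : RH T a b Θ) {x : ℝ} (hx : |x| ≤ 3 * π / 4) (τ : ℝ) :
    Θ (pt x (-τ)) = starRingEnd ℂ (Θ (pt x τ)) := by
  rw [← anad_refl h hx, ← h.even _ (anad_mem (by rwa [abs_neg]) τ)]
  congr 1
  apply Complex.ext <;> simp

lemma RH.im_real (h : RH T a b Θ) {x : ℝ} (hx : |x| ≤ 3 * π / 4) : (Θ (pt x 0)).im = 0 := by
  have := anad_conj h hx 0
  rw [neg_zero] at this
  exact Complex.conj_eq_iff_im.1 this.symm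

lemma RH.im_imag (h : RH T a b Θ) (τ : ℝ) : (Θ (pt 0 τ)).im = 0 := by
  have := anad_refl h anad_z τ
  rw [neg_zero] at this
  exact Complex.conj_eq_iff_im.1 this.symm

lemma anad_cos (x τ : ℝ) : Complex.cos (2 * pt x τ / 3) =
    ⟨cos (2 * x / 3) * cosh (2 * τ / 3), -(sin (2 * x / 3) * sinh (2 * τ / 3))⟩ := by
  have : 2 * pt x τ / 3 = ((2 * x / 3 : ℝ) : ℂ) + ((2 * τ / 3 : ℝ) : ℂ) * Complex.I := by
    rw [pt]; push_cast; ring
  rw [this, Complex.cos_add_mul_I, ← Complex.ofReal_cos, ← Complex.ofReal_sin,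
    ← Complex.ofReal_cosh, ← Complex.ofReal_sinh]
  apply Complex.ext <;>
    simp only [Complex.sub_re, Complex.sub_im, Complex.mul_re, Complex.mul_im, Complex.ofReal_re,
      Complex.ofReal_im, Complex.I_re, Complex.I_im] <;> ring

lemma anad_norm_cos (x τ : ℝ) : ‖Complex.cos (2 * pt x τ / 3)‖ ≤ cosh (2 * τ / 3) := by
  refine le_of_sq_le_sq ?_ (cosh_pos _).le
  rw [Complex.sq_norm, Complex.normSq_apply, anad_cos]
  have h1 := sin_sq_add_cos_sq (2 * x / 3)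
  have h2 := cosh_sq (2 * τ / 3)
  have h3 := sq_nonneg (sin (2 * x / 3))
  simp only
  nlinarith

/-- the auxiliary function -/
noncomputable def anadXi (a : ℝ) (Θ : ℂ → ℂ) (z : ℂ) : ℂ := (a - Θ z) * Complex.cos (2 * z / 3)

lemma anad_hol (h : RH T a b Θ) : DifferentiableOn ℂ (anadXi a Θ) Ust := by
  unfold anadXi
  exact ((differentiableOn_const _).sub h.hol).mul (by fun_prop)

lemma anad_xi_refl (h : RH T a b Θ) {x : ℝ} (hx : |x| ≤ 3 * π / 4) (τ : ℝ) :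
    anadXi a Θ (pt (-x) τ) = starRingEnd ℂ (anadXi a Θ (pt x τ)) := by
  rw [anadXi, anadXi, anad_refl h hx, map_mul, map_sub, Complex.conj_ofReal, anad_cos, anad_cos]
  congr 1
  apply Complex.ext <;> simp [neg_div]

lemma anad_xi_conj (h : RH T a b Θ) {x : ℝ} (hx : |x| ≤ 3 * π / 4) (τ : ℝ) :
    anadXi a Θ (pt x (-τ)) = starRingEnd ℂ (anadXi a Θ (pt x τ)) := by
  rw [anadXi, anadXi, anad_conj h hx, map_mul, map_sub, Complex.conj_ofReal, anad_cos, anad_cos]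
  congr 1
  apply Complex.ext <;> simp [neg_div]

lemma anad_bdd (h : RH T a b Θ) : ∃ L C : ℝ, 0 ≤ L ∧ ∀ x τ : ℝ, |x| ≤ 3 * π / 4 → L ≤ |τ| →
    ‖anadXi a Θ (pt x τ)‖ ≤ C := by
  obtain ⟨L, hL⟩ := h.asym 1 one_pos
  have key : ∀ x τ : ℝ, |x| ≤ 3 * π / 4 → max L 0 ≤ τ → ‖anadXi a Θ (pt x τ)‖ ≤ 1 + |b| := by
    intro x τ hx hτ
    have h0 : 0 ≤ τ := (le_max_right _ _).trans hτ
    have h1 := hL x τ hx ((le_max_left _ _).trans hτ)
    have h2 : ‖(b : ℂ) * Complex.exp (Complex.I * pt x τ)‖ = |b| * exp (-τ) := by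
      rw [norm_mul, Complex.norm_real, Real.norm_eq_abs, Complex.norm_exp]
      simp
    have h3 : ‖a - Θ (pt x τ)‖ ≤ (1 + |b|) * exp (-τ) := by
      have e : a - Θ (pt x τ) = b * Complex.exp (Complex.I * pt x τ) -
          (Θ (pt x τ) - a + b * Complex.exp (Complex.I * pt x τ)) := by ring
      rw [e]
      refine (norm_sub_le _ _).trans ?_
      rw [h2]
      linarith
    have h4 : cosh (2 * τ / 3) ≤ exp τ := by
      rw [cosh_eq]
      have a1 : exp (2 * τ / 3) ≤ exp τ := exp_le_exp.2 (by linarith)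
      have a2 : exp (-(2 * τ / 3)) ≤ exp τ := exp_le_exp.2 (by linarith)
      linarith
    rw [anadXi, norm_mul]
    refine (mul_le_mul h3 ((anad_norm_cos x τ).trans h4) (norm_nonneg _) (by positivity)).trans
      (le_of_eq ?_)
    rw [mul_assoc, ← exp_add, neg_add_cancel, exp_zero, mul_one]
  refine ⟨max L 0, 1 + |b|, le_max_right _ _, fun x τ hx hτ => ?_⟩
  rcases le_total 0 τ with h0 | h0
  · exact key x τ hx (by rwa [abs_of_nonneg h0] at hτ)
  · have := key x (-τ) hx (by rwa [abs_of_nonpos h0] at hτ)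
    rwa [anad_xi_conj h hx, Complex.norm_conj] at this

lemma anad_strip (h : RH T a b Θ) {M : ℝ}
    (hM : ∀ τ, |(anadXi a Θ (pt (3 * π / 4) τ)).re| ≤ M) {x : ℝ} (hx : |x| ≤ 3 * π / 4) (τ : ℝ) :
    |(anadXi a Θ (pt x τ)).re| ≤ M := by
  obtain ⟨L, C, -, hC⟩ := anad_bdd h
  have hM' : ∀ τ, |(anadXi a Θ (pt (-(3 * π / 4)) τ)).re| ≤ M := fun τ => by
    rw [anad_xi_refl h anad_r, Complex.conj_re]; exact hM τ
  have hC' : ∀ x τ : ℝ, |x| ≤ 3 * π / 4 → L ≤ |τ| → |(anadXi a Θ (pt x τ)).re| ≤ C :=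
    fun x τ hx hτ => (Complex.abs_re_le_norm _).trans (hC x τ hx hτ)
  rw [abs_le]
  constructor
  · have := mp_strip (g := fun z => -anadXi a Θ z) (anad_hol h).neg (M := M) (L := L) (C := C)
      (fun τ => by rw [Complex.neg_re]; exact (neg_le_abs _).trans (hM' τ))
      (fun τ => by rw [Complex.neg_re]; exact (neg_le_abs _).trans (hM τ))
      (fun x τ hx hτ => by rw [Complex.neg_re]; exact (neg_le_abs _).trans (hC' x τ hx hτ)) hx τ
    rw [Complex.neg_re] at this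
    linarith
  · exact mp_strip (anad_hol h) (L := L) (C := C) (fun τ => (le_abs_self _).trans (hM' τ))
      (fun τ => (le_abs_self _).trans (hM τ))
      (fun x τ hx hτ => (le_abs_self _).trans (hC' x τ hx hτ)) hx τ

lemma anad_im (w : ℂ) {s : ℝ} (hs : s = 1 ∨ s = -1) (x τ : ℝ) :
    (s * w * Complex.exp (s * (2 * Complex.I * pt x τ / 3))).im =
      exp (-(s * (2 * τ / 3))) * (w.re * sin (2 * x / 3) + s * w.im * cos (2 * x / 3)) := by
  have e1 : ((s : ℂ) * (2 * Complex.I * pt x τ / 3)).re = -(s * (2 * τ / 3)) := by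
    simp [pt]; ring
  have e2 : ((s : ℂ) * (2 * Complex.I * pt x τ / 3)).im = s * (2 * x / 3) := by
    simp [pt]
  rw [Complex.mul_im, Complex.exp_im, Complex.exp_re, e1, e2]
  rcases hs with rfl | rfl <;> simp <;> ring

lemma anad_sector {W : ℂ → ℂ} (hW : DifferentiableOn ℂ W Ust) {L C : ℝ} (hL : 0 ≤ L)
    (hre : ∀ x τ : ℝ, |x| ≤ 3 * π / 4 → 0 ≤ (W (pt x τ)).re)
    (h1 : ∀ τ, (W (pt 0 τ)).im = 0) (h2 : ∀ x, |x| ≤ 3 * π / 4 → (W (pt x 0)).im = 0)
    (hC : ∀ x τ : ℝ, |x| ≤ 3 * π / 4 → L ≤ τ → ‖W (pt x τ)‖ ≤ C) {τ : ℝ} (hτ : 0 ≤ τ) :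
    √3 * |(W (pt (π / 4) τ)).im| ≤ (W (pt (π / 4) τ)).re := by
  have key : ∀ s : ℝ, s = 1 ∨ s = -1 →
      0 ≤ (W (pt (π / 4) τ)).re + s * (√3 * (W (pt (π / 4) τ)).im) := by
    intro s hs
    have := mp_half (g := fun z => s * W z * Complex.exp (s * (2 * Complex.I * z / 3)))
      (((differentiableOn_const _).mul hW).mul (by fun_prop)) (t₀ := 0) (L := L) (C := C)
      (fun τ _ => by rw [anad_im _ hs, h1]; simp)
      (fun τ _ => by
        have e : 2 * (3 * π / 4) / 3 = π / 2 := by ring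
        rw [anad_im _ hs, e, sin_pi_div_two, cos_pi_div_two, mul_one, mul_zero, add_zero]
        exact mul_nonneg (exp_pos _).le (hre _ _ anad_r))
      (fun x h0 hx => by
        rw [anad_im _ hs, h2 x (anad_abs h0 hx), mul_zero s, zero_mul, add_zero]
        refine mul_nonneg (exp_pos _).le (mul_nonneg (hre _ _ (anad_abs h0 hx)) ?_)
        exact sin_nonneg_of_nonneg_of_le_pi (by positivity) (by linarith [pi_pos]))
      (fun x τ h0 hx hτ => by
        refine neg_le_of_abs_le ((Complex.abs_im_le_norm _).trans ?_)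
        have e1 : ((s : ℂ) * (2 * Complex.I * pt x τ / 3)).re = -(s * (2 * τ / 3)) := by
          simp [pt]; ring
        have e2 : ‖(s : ℂ)‖ = 1 := by rcases hs with rfl | rfl <;> simp
        have hc := hC x τ (anad_abs h0 hx) hτ
        rw [norm_mul, norm_mul, e2, one_mul, Complex.norm_exp, e1]
        refine mul_le_mul hc (exp_le_exp.2 ?_) (exp_pos _).le ((norm_nonneg _).trans hc)
        rcases hs with rfl | rfl <;> linarith)
      (x := π / 4) (τ := τ) (by positivity) (by linarith [pi_pos]) hτ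
    have e : 2 * (π / 4) / 3 = π / 6 := by ring
    rw [anad_im _ hs, e, sin_pi_div_six, cos_pi_div_six] at this
    have := nonneg_of_mul_nonneg_right this (exp_pos _)
    linarith
  have a1 := key 1 (Or.inl rfl)
  have a2 := key (-1) (Or.inr rfl)
  rcases abs_cases (W (pt (π / 4) τ)).im with h | h <;> rw [h.1] <;> linarith

lemma anad_mid (h : RH T a b Θ) {M : ℝ}
    (hM : ∀ τ, |(anadXi a Θ (pt (3 * π / 4) τ)).re| ≤ M) {τ : ℝ} (hτ : 0 ≤ τ) :
    |(anadXi a Θ (pt (π / 4) τ)).re| + √3 * |(anadXi a Θ (pt (π / 4) τ)).im| ≤ M := by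
  obtain ⟨L, C, hL, hC⟩ := anad_bdd h
  have i1 : ∀ τ, (anadXi a Θ (pt 0 τ)).im = 0 := fun τ => by
    have := anad_xi_refl h anad_z τ
    rw [neg_zero] at this
    exact Complex.conj_eq_iff_im.1 this.symm
  have i2 : ∀ x, |x| ≤ 3 * π / 4 → (anadXi a Θ (pt x 0)).im = 0 := fun x hx => by
    have := anad_xi_conj h hx 0
    rw [neg_zero] at this
    exact Complex.conj_eq_iff_im.1 this.symm
  have a1 := anad_sector (W := fun z => M + anadXi a Θ z)
    ((differentiableOn_const _).add (anad_hol h)) (C := ‖(M : ℂ)‖ + C) hL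
    (fun x τ hx => by
      have := neg_le_of_abs_le (anad_strip h hM hx τ)
      simp only [Complex.add_re, Complex.ofReal_re]
      linarith)
    (fun τ => by simp [i1]) (fun x hx => by simp [i2 x hx])
    (fun x τ hx hτ => (norm_add_le _ _).trans
      (add_le_add le_rfl (hC x τ hx (hτ.trans (le_abs_self _))))) hτ
  have a2 := anad_sector (W := fun z => M - anadXi a Θ z)
    ((differentiableOn_const _).sub (anad_hol h)) (C := ‖(M : ℂ)‖ + C) hL
    (fun x τ hx => by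
      have := le_of_abs_le (anad_strip h hM hx τ)
      simp only [Complex.sub_re, Complex.ofReal_re]
      linarith)
    (fun τ => by simp [i1]) (fun x hx => by simp [i2 x hx])
    (fun x τ hx hτ => (norm_sub_le _ _).trans
      (add_le_add le_rfl (hC x τ hx (hτ.trans (le_abs_self _))))) hτ
  simp only [Complex.add_re, Complex.add_im, Complex.sub_re, Complex.sub_im, Complex.ofReal_re,
    Complex.ofReal_im, zero_add, zero_sub, abs_neg] at a1 a2
  rcases abs_cases (anadXi a Θ (pt (π / 4) τ)).re with h | h <;> rw [h.1] <;> linarith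

lemma anad_normSq (τ : ℝ) :
    Complex.normSq (Complex.cos (2 * pt (π / 4) τ / 3)) = sinh (2 * τ / 3) ^ 2 + 3 / 4 := by
  have e : 2 * (π / 4) / 3 = π / 6 := by ring
  rw [Complex.normSq_apply, anad_cos, e, sin_pi_div_six, cos_pi_div_six]
  have h2 := cosh_sq (2 * τ / 3)
  have h3 : √3 * √3 = 3 := mul_self_sqrt (by norm_num)
  simp only
  linear_combination (cosh (2 * τ / 3) ^ 2 / 4) * h3 + (3 / 4) * h2

lemma anad_Y (τ : ℝ) : exp (-4 * τ / 3) = exp (-(2 * τ / 3)) ^ 2 := by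
  rw [← exp_nat_mul]; congr 1; push_cast; ring

lemma anad_sqrt (T : ℕ) (τ : ℝ) :
    √(2 * T * exp (-4 * τ / 3)) = 2 * √(T / 2) * exp (-(2 * τ / 3)) := by
  rw [anad_Y]
  have h : √((T : ℝ) / 2) ^ 2 = T / 2 := sq_sqrt (by positivity)
  rw [show 2 * (T : ℝ) * exp (-(2 * τ / 3)) ^ 2 = (2 * √(T / 2) * exp (-(2 * τ / 3))) ^ 2 by
    rw [mul_pow, mul_pow, h]; ring]
  exact sqrt_sq (by positivity)

lemma anad_lam (hT : 1000 ≤ T) {τ : ℝ} (hτ : 0 < τ) :
    sinh (2 * τ / 3) * |(Lam T (exp (-4 * τ / 3))).im| ≤ 0.42 * √(T / 2) ∧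
    sinh (2 * τ / 3) * |(Lam T (exp (-4 * τ / 3)) / Complex.cos (2 * pt (π / 4) τ / 3)).re| ≤ 1 ∧
    sinh (2 * τ / 3) * |(Lam T (exp (-4 * τ / 3)) / Complex.cos (2 * pt (π / 4) τ / 3)).im|
      ≤ 0.58 := by
  have hY0 : 0 < exp (-4 * τ / 3) := exp_pos _
  have hY1 : exp (-4 * τ / 3) ≤ 1 := exp_le_one_iff.2 (by linarith)
  have hk : 0 < sinh (2 * τ / 3) := sinh_pos_iff.2 (by linarith)
  have hks : sinh (2 * τ / 3) * exp (-(2 * τ / 3)) ≤ 1 / 2 := by
    rw [sinh_eq]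
    have e : exp (2 * τ / 3) * exp (-(2 * τ / 3)) = 1 := by rw [← exp_add]; simp
    nlinarith [exp_pos (-(2 * τ / 3))]
  have hns := anad_normSq τ
  have hsq := anad_sqrt T τ
  have hl1 := lam_le_one T hY0 hY1
  have hR : 0 ≤ √((T : ℝ) / 2) := sqrt_nonneg _
  have hs := exp_pos (-(2 * τ / 3))
  set Λ := Lam T (exp (-4 * τ / 3)) with hΛ
  set z := Complex.cos (2 * pt (π / 4) τ / 3) with hz
  set k := sinh (2 * τ / 3) with hk'
  have hkz : k ≤ ‖z‖ := by
    refine le_of_sq_le_sq ?_ (norm_nonneg _)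
    rw [Complex.sq_norm, hns]; linarith
  have hz0 : 0 < ‖z‖ := hk.trans_le hkz
  have hq : k * ‖Λ / z‖ ≤ ‖Λ‖ := by
    rw [norm_div, mul_div_assoc', div_le_iff₀ hz0]
    nlinarith [norm_nonneg Λ]
  have hre : k * |(Λ / z).re| ≤ 1 :=
    (mul_le_mul_of_nonneg_left (Complex.abs_re_le_norm _) hk.le).trans (hq.trans hl1)
  rcases le_total 1 (2 * T * exp (-4 * τ / 3)) with ht | ht
  · have hb : ‖Λ‖ ≤ 0.076 := lam_bad hT hY1 ht
    have h1 : 1 ≤ 2 * √(T / 2) * exp (-(2 * τ / 3)) := by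
      rw [← hsq]; exact one_le_sqrt.2 ht
    refine ⟨?_, hre, ?_⟩
    · have h2 := (Complex.abs_im_le_norm Λ).trans hb
      have h3 : k ≤ √(T / 2) := by nlinarith
      nlinarith [abs_nonneg Λ.im]
    · have := (mul_le_mul_of_nonneg_left (Complex.abs_im_le_norm _) hk.le).trans (hq.trans hb)
      linarith
  · obtain ⟨g1, g2, g3, -⟩ := lam_good hT hY0 ht
    rw [← hΛ] at g1 g2 g3
    have g4 : 0 ≤ -Λ.im := le_trans (by positivity) g2
    have g5 : √(2 * T * exp (-4 * τ / 3)) ≤ 1 := sqrt_le_one.2 ht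
    refine ⟨?_, hre, ?_⟩
    · rw [abs_of_nonpos (by linarith)]
      rw [hsq] at g3
      nlinarith
    · have e : 2 * (π / 4) / 3 = π / 6 := by ring
      have zre : z.re = √3 / 2 * cosh (2 * τ / 3) := by
        rw [hz, anad_cos, e, cos_pi_div_six]
      have zim : z.im = -(1 / 2 * k) := by
        rw [hz, anad_cos, e, sin_pi_div_six]
      have hD : 0 < k ^ 2 + 3 / 4 := by positivity
      have h3 : √3 ≤ 2 := by
        rw [sqrt_le_left (by norm_num)]; norm_num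
      have hh := cosh_sq (2 * τ / 3)
      have hh0 := cosh_pos (2 * τ / 3)
      rw [← hk'] at hh
      have hhk : cosh (2 * τ / 3) * k ≤ k ^ 2 + 1 / 2 := by
        nlinarith [sq_nonneg (cosh (2 * τ / 3) - k)]
      have l1 : Λ.re ≤ 1 := (Complex.re_le_norm Λ).trans hl1
      have l2 : -Λ.im ≤ 0.42 := by linarith
      have u1 : 0 ≤ -Λ.im * (√3 / 2 * (cosh (2 * τ / 3) * k)) := by positivity
      have u2 : -Λ.im * (√3 / 2 * (cosh (2 * τ / 3) * k)) ≤ 0.42 * (1 * (k ^ 2 + 1 / 2)) :=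
        mul_le_mul l2 (mul_le_mul (by linarith) hhk (by positivity) (by norm_num))
          (by positivity) (by norm_num)
      have u3 : 0 ≤ Λ.re * k ^ 2 := by positivity
      have u4 : Λ.re * k ^ 2 ≤ k ^ 2 := by nlinarith
      rw [← abs_of_pos hk, ← abs_mul, Complex.div_im, hns, zre, zim, ← sub_div, mul_div_assoc',
        abs_div, abs_of_pos hD, div_le_iff₀ hD, abs_le]
      constructor <;> nlinarith

lemma anad_ne (τ : ℝ) : Complex.cos (2 * pt (π / 4) τ / 3) ≠ 0 := by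
  rw [Ne, ← Complex.normSq_eq_zero, anad_normSq]
  positivity

lemma anad_step (hT : 1000 ≤ T) (ha : 0 ≤ a) (h : RH T a b Θ) {M : ℝ}
    (hM : ∀ τ, |(anadXi a Θ (pt (3 * π / 4) τ)).re| ≤ M) (τ : ℝ) :
    |(anadXi a Θ (pt (3 * π / 4) τ)).re| ≤ 0.42 * (a * √(T / 2)) + 0.58 * M := by
  have hM0 : 0 ≤ M := (abs_nonneg _).trans (hM 0)
  have hval : ∀ τ, (anadXi a Θ (pt (3 * π / 4) τ)).re =
      -(sinh (2 * τ / 3) * (Θ (pt (3 * π / 4) τ)).im) := by
    intro τ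
    have e : 2 * (3 * π / 4) / 3 = π / 2 := by ring
    rw [anadXi, anad_cos, e, sin_pi_div_two, cos_pi_div_two]
    simp
    ring
  have key : ∀ τ, 0 < τ →
      |(anadXi a Θ (pt (3 * π / 4) τ)).re| ≤ 0.42 * (a * √(T / 2)) + 0.58 * M := by
    intro τ hτ
    obtain ⟨l1, l2, l3⟩ := anad_lam hT hτ
    have hm := anad_mid h hM hτ.le
    have hk : 0 < sinh (2 * τ / 3) := sinh_pos_iff.2 (by linarith)
    have e : Lam T (exp (-4 * τ / 3)) * Θ (pt (π / 4) τ) = a * Lam T (exp (-4 * τ / 3)) -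
        Lam T (exp (-4 * τ / 3)) / Complex.cos (2 * pt (π / 4) τ / 3) *
          anadXi a Θ (pt (π / 4) τ) := by
      have := anad_ne τ
      rw [anadXi]
      field_simp
      ring
    rw [hval, h.bd τ hτ, e, abs_neg]
    set Λ := Lam T (exp (-4 * τ / 3))
    set μ := Λ / Complex.cos (2 * pt (π / 4) τ / 3)
    set X := anadXi a Θ (pt (π / 4) τ)
    set k := sinh (2 * τ / 3)
    have e2 : k * (a * Λ - μ * X).im = a * (k * Λ.im) - ((k * μ.re) * X.im + (k * μ.im) * X.re) := by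
      simp; ring
    rw [e2]
    refine (abs_sub _ _).trans (add_le_add ?_ ((abs_add_le _ _).trans ?_))
    · rw [abs_mul, abs_mul, abs_of_nonneg ha, abs_of_pos hk]
      nlinarith
    · rw [abs_mul, abs_mul, abs_mul, abs_mul, abs_of_pos hk]
      have h3 : (1.73 : ℝ) ≤ √3 := by
        rw [le_sqrt (by norm_num) (by norm_num)]; norm_num
      have a1 := abs_nonneg X.im
      have a2 := abs_nonneg X.re
      nlinarith [mul_le_mul_of_nonneg_right l2 a1, mul_le_mul_of_nonneg_right l3 a2,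
        mul_le_mul_of_nonneg_right h3 a1]
  rcases lt_trichotomy τ 0 with h0 | rfl | h0
  · have := key (-τ) (by linarith)
    rwa [anad_xi_conj h anad_r, Complex.conj_re] at this
  · rw [hval]
    simp only [mul_zero, zero_div, sinh_zero, zero_mul, neg_zero, abs_zero]
    positivity
  · exact key τ h0

lemma anad_line (hT : 1000 ≤ T) (ha : 0 ≤ a) (h : RH T a b Θ) (τ : ℝ) :
    |(anadXi a Θ (pt (3 * π / 4) τ)).re| ≤ a * √(T / 2) := by
  obtain ⟨L, C, -, hC⟩ := anad_bdd h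
  have hc : Continuous fun τ : ℝ => |(anadXi a Θ (pt (3 * π / 4) τ)).re| := by
    have h1 : Continuous fun τ : ℝ => pt (3 * π / 4) τ := by unfold pt; fun_prop
    have h2 := (anad_hol h).continuousOn.comp_continuous h1 fun τ => anad_mem anad_r τ
    exact (Complex.continuous_re.comp h2).abs
  obtain ⟨C', hC'⟩ := (isCompact_Icc (a := -L) (b := L)).bddAbove_image hc.continuousOn
  have hb : BddAbove (Set.range fun τ : ℝ => |(anadXi a Θ (pt (3 * π / 4) τ)).re|) := by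
    refine ⟨max C C', ?_⟩
    rintro _ ⟨τ, rfl⟩
    rcases le_total L |τ| with h1 | h1
    · exact ((Complex.abs_re_le_norm _).trans (hC _ τ anad_r h1)).trans (le_max_left _ _)
    · exact (hC' ⟨τ, abs_le.1 h1, rfl⟩).trans (le_max_right _ _)
  have h1 := le_ciSup hb
  have h2 := ciSup_le (anad_step hT ha h h1)
  have h3 := h1 τ
  linarith

theorem RH.apriori (hT : 1000 ≤ T) (ha : 0 ≤ a) (h : RH T a b Θ) :
    (∀ x τ : ℝ, |x| ≤ 3 * π / 4 →
      |((a - Θ (pt x τ)) * Complex.cos (2 * pt x τ / 3)).re| ≤ a * √(T / 2)) ∧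
    ∀ τ : ℝ, 0 < τ → ‖a - Θ (pt (π / 4) τ)‖ ≤ a * √(2 * T * exp (-4 * τ / 3)) := by
  refine ⟨fun x τ hx => anad_strip h (anad_line hT ha h) hx τ, fun τ hτ => ?_⟩
  have hm := anad_mid h (anad_line hT ha h) hτ.le
  have h3 : (1 : ℝ) ≤ √3 := one_le_sqrt.2 (by norm_num)
  have h1 : ‖anadXi a Θ (pt (π / 4) τ)‖ ≤ a * √(T / 2) := by
    refine (Complex.norm_le_abs_re_add_abs_im _).trans ?_
    nlinarith [abs_nonneg (anadXi a Θ (pt (π / 4) τ)).im]
  have hs := exp_pos (-(2 * τ / 3))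
  have h2 : 1 ≤ 2 * exp (-(2 * τ / 3)) * ‖Complex.cos (2 * pt (π / 4) τ / 3)‖ := by
    refine le_of_sq_le_sq ?_ (by positivity)
    rw [mul_pow, Complex.sq_norm, anad_normSq, sinh_eq]
    have e : exp (2 * τ / 3) * exp (-(2 * τ / 3)) = 1 := by rw [← exp_add]; simp
    set u := exp (2 * τ / 3)
    set s := exp (-(2 * τ / 3))
    have : (2 * s) ^ 2 * (((u - s) / 2) ^ 2 + 3 / 4) = 1 + s ^ 2 + s ^ 4 := by
      linear_combination (u * s + 1 - 2 * s ^ 2) * e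
    rw [this]
    nlinarith [sq_nonneg s, sq_nonneg (s ^ 2)]
  rw [anadXi, norm_mul] at h1
  rw [anad_sqrt]
  nlinarith [norm_nonneg (a - Θ (pt (π / 4) τ)), mul_le_mul_of_nonneg_left h1 hs.le,
    mul_le_mul_of_nonneg_left h2 (norm_nonneg (a - Θ (pt (π / 4) τ)))]

theorem RH.zero (hT : 1000 ≤ T) (h : RH T 0 b Θ) (τ : ℝ) : Θ (pt 0 τ) = 0 := by
  have h1 := (h.apriori hT le_rfl).1 0 τ anad_z
  have h2 := h.im_imag τ
  rw [zero_mul, abs_nonpos_iff, anad_cos] at h1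
  have h3 := (cosh_pos (2 * τ / 3)).ne'
  apply Complex.ext
  · simpa [h2, h3] using h1
  · exact h2

end Pool.Agent.Lib.MP_4960b8_pr.QK
end

-- part Pool.Agent.Lib.MP_4960b8_pr.QK.AnaE
section

/-! Barriers. -/

namespace Pool.Agent.Lib.MP_4960b8_pr.QK

open Real

variable {T : ℕ} {b : ℝ} {Θ : ℂ → ℂ}

/-- the barrier `exp (i n (z - i s) / 3)` -/
noncomputable def anae_b (n : ℕ) (s : ℝ) (z : ℂ) : ℂ :=
  Complex.exp (((n / 3 : ℝ) : ℂ) * Complex.I * (z - s * Complex.I))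

lemma anae_diff (n : ℕ) (s : ℝ) : Differentiable ℂ (anae_b n s) := by
  unfold anae_b
  fun_prop

lemma anae_im (n : ℕ) (s x τ : ℝ) :
    (anae_b n s (pt x τ)).im = exp (-(τ - s) / 3) ^ n * sin (n * (x / 3)) := by
  rw [anae_b, Complex.exp_im, ← exp_nat_mul]
  congr 2
  · simp only [pt, Complex.mul_re, Complex.mul_im, Complex.sub_re, Complex.sub_im, Complex.add_re,
      Complex.add_im, Complex.ofReal_re, Complex.ofReal_im, Complex.I_re, Complex.I_im]
    ring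
  · simp only [pt, Complex.mul_re, Complex.mul_im, Complex.sub_re, Complex.sub_im, Complex.add_re,
      Complex.add_im, Complex.ofReal_re, Complex.ofReal_im, Complex.I_re, Complex.I_im]
    ring

lemma anae_im2 (x τ : ℝ) : (anae_b 2 0 (pt x τ)).im = exp (-2 * τ / 3) * sin (2 * x / 3) := by
  rw [anae_im, ← exp_nat_mul]
  congr 2 <;> push_cast <;> ring

lemma anae_sqrt (T : ℕ) (τ : ℝ) :
    √(2 * T * exp (-4 * τ / 3)) = √(2 * T) * exp (-2 * τ / 3) := by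
  have : exp (-4 * τ / 3) = exp (-2 * τ / 3) ^ 2 := by
    rw [← exp_nat_mul]
    congr 1
    push_cast
    ring
  rw [this, sqrt_mul (by positivity), sqrt_sq (exp_pos _).le]

lemma anae_sin {x : ℝ} (h0 : 0 ≤ x) (h1 : x ≤ 3 * π / 4) :
    0 ≤ sin (2 * x / 3) ∧ sin (2 * x / 3) ≤ 1 :=
  ⟨sin_nonneg_of_nonneg_of_le_pi (by linarith) (by linarith [pi_pos]), sin_le_one _⟩

lemma anae_abs {x : ℝ} (h0 : 0 ≤ x) (h1 : x ≤ 3 * π / 4) : |x| ≤ 3 * π / 4 := by
  rwa [abs_of_nonneg h0]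

/-- decay of the imaginary part -/
lemma anae_decay (h : RH T 1 b Θ) : ∃ L C : ℝ, 0 ≤ C ∧ ∀ x τ, 0 ≤ x → x ≤ 3 * π / 4 → L ≤ τ →
    0 ≤ τ ∧ |(Θ (pt x τ)).im| ≤ C * exp (-2 * τ / 3) := by
  obtain ⟨L, hL⟩ := h.asym 1 one_pos
  refine ⟨max L 0, 1 + |b|, by positivity, fun x τ h0 h1 hτ => ?_⟩
  have h2 : 0 ≤ τ := (le_max_right _ _).trans hτ
  refine ⟨h2, ?_⟩
  have h3 := (Complex.abs_im_le_norm _).trans (hL x τ (anae_abs h0 h1) ((le_max_left _ _).trans hτ))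
  have h4 : (Complex.exp (Complex.I * pt x τ)).im = exp (-τ) * sin x := by
    rw [Complex.exp_im]
    simp [pt]
  simp only [Complex.add_im, Complex.sub_im, Complex.ofReal_im, Complex.mul_im, Complex.ofReal_re,
    h4, zero_mul, add_zero, sub_zero, one_mul] at h3
  have h5 : |b * (exp (-τ) * sin x)| ≤ |b| * exp (-τ) := by
    rw [abs_mul, abs_mul, abs_of_pos (exp_pos _)]
    exact mul_le_mul_of_nonneg_left (mul_le_of_le_one_right (exp_pos _).le (abs_sin_le_one x))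
      (abs_nonneg b)
  have h6 : exp (-τ) ≤ exp (-2 * τ / 3) := exp_le_exp.2 (by linarith)
  have h7 := mul_le_mul_of_nonneg_left h6 (abs_nonneg b)
  have h8 := abs_le.1 h3
  have h9 := abs_le.1 h5
  rw [abs_le]
  constructor <;> nlinarith

/-- the relation between the two lines -/
lemma anae_right (hT : 1000 ≤ T) (h : RH T 1 b Θ) {τ : ℝ} (hτ : 0 < τ) :
    (Θ (pt (3 * π / 4) τ)).im =
      (Lam T (exp (-4 * τ / 3))).re * (Θ (pt (π / 4) τ)).im +
        (Lam T (exp (-4 * τ / 3))).im * (Θ (pt (π / 4) τ)).re ∧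
    |1 - (Θ (pt (π / 4) τ)).re| ≤ √(2 * T * exp (-4 * τ / 3)) ∧
    |(Θ (pt (3 * π / 4) τ)).im - (Lam T (exp (-4 * τ / 3))).im| ≤
      ‖Lam T (exp (-4 * τ / 3))‖ * √(2 * T * exp (-4 * τ / 3)) := by
  have h1 := (h.apriori hT zero_le_one).2 τ hτ
  rw [one_mul, Complex.ofReal_one] at h1
  refine ⟨by rw [h.bd τ hτ, Complex.mul_im], ?_, ?_⟩
  · simpa using (Complex.abs_re_le_norm _).trans h1
  · have h2 := Complex.abs_im_le_norm (Lam T (exp (-4 * τ / 3)) * (1 - Θ (pt (π / 4) τ)))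
    rw [norm_mul, mul_sub, mul_one, Complex.sub_im, ← h.bd τ hτ, abs_sub_comm] at h2
    exact h2.trans (mul_le_mul_of_nonneg_left h1 (norm_nonneg _))

lemma anae_Y {τ : ℝ} (hτ : 0 ≤ τ) : exp (-4 * τ / 3) ≤ 1 := exp_le_one_iff.2 (by linarith)

lemma anae_bad (hT : 1000 ≤ T) (h : RH T 1 b Θ) {τ : ℝ} (hτ : 0 < τ)
    (ht : 1 ≤ 2 * T * exp (-4 * τ / 3)) :
    |(Θ (pt (3 * π / 4) τ)).im| ≤ 0.152 * √(2 * T * exp (-4 * τ / 3)) := by
  have h1 := abs_le.1 (anae_right hT h hτ).2.2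
  have h2 := lam_bad hT (anae_Y hτ.le) ht
  have h3 := abs_le.1 (Complex.abs_im_le_norm (Lam T (exp (-4 * τ / 3))))
  have h4 : 1 ≤ √(2 * T * exp (-4 * τ / 3)) := one_le_sqrt.2 ht
  have h5 := mul_le_mul_of_nonneg_right h2 (zero_le_one.trans h4)
  rw [abs_le]
  constructor <;> linarith

lemma anae_min {r a c : ℝ} (h0 : 0 ≤ r) (h1 : r ≤ 1) (h : r * a ≤ c) : min 0 a ≤ c := by
  rcases le_total 0 a with ha | ha
  · rw [min_eq_left ha]
    exact (mul_nonneg h0 ha).trans h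
  · rw [min_eq_right ha]
    nlinarith

lemma anae_s3 : sin (2 * (3 * π / 4) / 3) = 1 := by
  rw [show 2 * (3 * π / 4) / 3 = π / 2 by ring, sin_pi_div_two]

lemma anae_s1 : sin (2 * (π / 4) / 3) = 1 / 2 := by
  rw [show 2 * (π / 4) / 3 = π / 6 by ring, sin_pi_div_six]

lemma anae_pi : |3 * π / 4| ≤ 3 * π / 4 := anae_abs (by positivity) le_rfl

theorem RH.stepA (hT : 1000 ≤ T) (h : RH T 1 b Θ) {x τ : ℝ} (h0 : 0 ≤ x) (h1 : x ≤ 3 * π / 4)
    (hτ : 0 ≤ τ) :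
    (Θ (pt x τ)).im ≤ 0.152 * √(2 * T) * (exp (-2 * τ / 3) * sin (2 * x / 3)) ∧
    -(Θ (pt x τ)).im ≤ 1.5 * √(2 * T) * (exp (-2 * τ / 3) * sin (2 * x / 3)) := by
  obtain ⟨L, C, hC0, hC⟩ := anae_decay h
  have hs := sqrt_nonneg (2 * T : ℝ)
  constructor
  · have e : ∀ x τ, (((0.152 * √(2 * T) : ℝ) : ℂ) * anae_b 2 0 (pt x τ) - Θ (pt x τ)).im =
        0.152 * √(2 * T) * (exp (-2 * τ / 3) * sin (2 * x / 3)) - (Θ (pt x τ)).im := fun x τ => by
      rw [Complex.sub_im, Complex.im_ofReal_mul, anae_im2]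
    have key := nlmp (g := fun z => ((0.152 * √(2 * T) : ℝ) : ℂ) * anae_b 2 0 z - Θ z)
      (((anae_diff 2 0).const_mul _).differentiableOn.sub h.hol) (t₀ := 0) (L := L) (C := C)
      (fun τ _ => by rw [e]; simp [h.im_imag]) (fun τ hτ => ?_) (fun x h0 h1 => ?_)
      (fun x τ h0 h1 hτ => ?_) h0 h1 hτ
    · rw [e] at key
      linarith
    · rw [e, e, anae_s3, anae_s1]
      have hE := exp_pos (-2 * τ / 3)
      have hm : 0 ≤ 0.152 * √(2 * T) * exp (-2 * τ / 3) := by positivity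
      rcases hτ.eq_or_lt with rfl | hτ
      · rw [h.im_real anae_pi]
        exact (min_le_left _ _).trans (by linarith)
      rcases le_total (2 * T * exp (-4 * τ / 3)) 1 with ht | ht
      · obtain ⟨a1, a2, -⟩ := anae_right hT h hτ
        obtain ⟨b1, b2, -⟩ := lam_good hT (exp_pos _) ht
        have b3 := (Complex.re_le_norm _).trans (lam_le_one T (exp_pos _) (anae_Y hτ.le))
        have a3 : 0 ≤ (Θ (pt (π / 4) τ)).re := by
          linarith [(abs_le.1 a2).2, sqrt_le_one.2 ht]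
        have b4 : 0 ≤ -(Lam T (exp (-4 * τ / 3))).im := le_trans (by positivity) b2
        refine anae_min b1 b3 ?_
        rw [a1]
        nlinarith [mul_nonneg b4 a3, mul_nonneg hm (sub_nonneg.2 b3)]
      · have := (abs_le.1 (anae_bad hT h hτ ht)).2
        rw [anae_sqrt] at this
        exact (min_le_left _ _).trans (by linarith)
    · rw [e, h.im_real (anae_abs h0 h1), sub_zero]
      have := (anae_sin h0 h1).1
      positivity
    · rw [e]
      have := (anae_sin h0 h1).1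
      have h2 : 0 ≤ 0.152 * √(2 * T) * (exp (-2 * τ / 3) * sin (2 * x / 3)) := by positivity
      linarith [(abs_le.1 (hC x τ h0 h1 hτ).2).2]
  · have e : ∀ x τ, (((1.5 * √(2 * T) : ℝ) : ℂ) * anae_b 2 0 (pt x τ) + Θ (pt x τ)).im =
        1.5 * √(2 * T) * (exp (-2 * τ / 3) * sin (2 * x / 3)) + (Θ (pt x τ)).im := fun x τ => by
      rw [Complex.add_im, Complex.im_ofReal_mul, anae_im2]
    have key := mp_half (g := fun z => ((1.5 * √(2 * T) : ℝ) : ℂ) * anae_b 2 0 z + Θ z)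
      (((anae_diff 2 0).const_mul _).differentiableOn.add h.hol) (t₀ := 0) (L := L) (C := C)
      (fun τ _ => by rw [e]; simp [h.im_imag]) (fun τ hτ => ?_) (fun x h0 h1 => ?_)
      (fun x τ h0 h1 hτ => ?_) h0 h1 hτ
    · rw [e] at key
      linarith
    · rw [e, anae_s3, mul_one, mul_assoc, ← anae_sqrt]
      have hq := sqrt_nonneg (2 * T * exp (-4 * τ / 3))
      rcases hτ.eq_or_lt with rfl | hτ
      · rw [h.im_real anae_pi]
        linarith
      rcases le_total (2 * T * exp (-4 * τ / 3)) 1 with ht | ht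
      · have a1 := (abs_le.1 (anae_right hT h hτ).2.2).1
        have b1 := (lam_good hT (exp_pos _) ht).2.2.1
        have b2 := mul_le_mul_of_nonneg_right (lam_le_one T (exp_pos _) (anae_Y hτ.le)) hq
        linarith
      · linarith [(abs_le.1 (anae_bad hT h hτ ht)).1]
    · rw [e, h.im_real (anae_abs h0 h1), add_zero]
      have := (anae_sin h0 h1).1
      positivity
    · rw [e]
      have := (anae_sin h0 h1).1
      have h2 : 0 ≤ 1.5 * √(2 * T) * (exp (-2 * τ / 3) * sin (2 * x / 3)) := by positivity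
      obtain ⟨h3, h4⟩ := hC x τ h0 h1 hτ
      have h5 : exp (-2 * τ / 3) ≤ exp (2 * τ / 3) := exp_le_exp.2 (by linarith)
      linarith [(abs_le.1 h4).1, mul_le_mul_of_nonneg_left h5 hC0]

/-- trigonometric inequalities on the bottom side -/
lemma anae_trig {u : ℝ} (h0 : 0 ≤ u) (h1 : u ≤ π / 4) :
    0 ≤ sin (2 * u) ∧ sin (3 * u) ≤ 1.5 * sin (2 * u) ∧ 0.7 * sin (2 * u) ≤ sin (3 * u) ∧
      sin (4 * u) ≤ 2 * sin (2 * u) ∧ sin (2 * u) + sin (6 * u) ≤ 2 * sin (4 * u) := by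
  have hS : 0 ≤ sin u := sin_nonneg_of_nonneg_of_le_pi h0 (by linarith [pi_pos])
  have hc : √2 / 2 ≤ cos u := by
    rw [← cos_pi_div_four]
    exact cos_le_cos_of_nonneg_of_le_pi h0 (by linarith [pi_pos]) h1
  have h2 : (1.414 : ℝ) ≤ √2 := le_sqrt_of_sq_le (by norm_num)
  have hc1 := cos_le_one u
  have e3 : sin (3 * u) = sin u * (4 * cos u ^ 2 - 1) := by
    rw [sin_three_mul]
    linear_combination (-4 * sin u) * sin_sq_add_cos_sq u
  have e2 := sin_two_mul u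
  have s2 : 0 ≤ sin (2 * u) := sin_nonneg_of_nonneg_of_le_pi (by linarith) (by linarith [pi_pos])
  have c2 : 0 ≤ cos (2 * u) := cos_nonneg_of_mem_Icc ⟨by linarith [pi_pos], by linarith⟩
  have e4 : sin (4 * u) = 2 * sin (2 * u) * cos (2 * u) := by
    rw [← sin_two_mul]
    congr 1
    ring
  have e6 : sin (6 * u) = sin (2 * u) * (4 * cos (2 * u) ^ 2 - 1) := by
    rw [show 6 * u = 3 * (2 * u) by ring, sin_three_mul]
    linear_combination (-4 * sin (2 * u)) * sin_sq_add_cos_sq (2 * u)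
  have c3 := cos_le_one (2 * u)
  refine ⟨s2, ?_, ?_, ?_, ?_⟩
  · rw [e3, e2]
    have : 0 ≤ 3 * cos u - (4 * cos u ^ 2 - 1) := by nlinarith
    nlinarith [mul_nonneg hS this]
  · rw [e3, e2]
    have : 0 ≤ 4 * cos u ^ 2 - 1 - 1.4 * cos u := by nlinarith
    nlinarith [mul_nonneg hS this]
  · rw [e4]
    nlinarith [mul_nonneg s2 (sub_nonneg.2 c3)]
  · rw [e4, e6]
    nlinarith [mul_nonneg (mul_nonneg s2 c2) (sub_nonneg.2 c3)]

lemma anae_vals : sin (3 * (3 * π / 4 / 3)) = √2 / 2 ∧ sin (4 * (3 * π / 4 / 3)) = 0 ∧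
    sin (6 * (3 * π / 4 / 3)) = -1 ∧ sin (3 * (π / 4 / 3)) = √2 / 2 ∧
    sin (4 * (π / 4 / 3)) = √3 / 2 ∧ sin (6 * (π / 4 / 3)) = 1 ∧ sin (3 * (π / 2 / 3)) = 1 ∧
    0 ≤ sin (4 * (π / 2 / 3)) ∧ sin (6 * (π / 2 / 3)) = 0 := by
  refine ⟨?_, ?_, ?_, ?_, ?_, ?_, ?_, ?_, ?_⟩
  · rw [show 3 * (3 * π / 4 / 3) = π - π / 4 by ring, sin_pi_sub, sin_pi_div_four]
  · rw [show 4 * (3 * π / 4 / 3) = π by ring, sin_pi]
  · rw [show 6 * (3 * π / 4 / 3) = π / 2 + π by ring, sin_add_pi, sin_pi_div_two]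
  · rw [show 3 * (π / 4 / 3) = π / 4 by ring, sin_pi_div_four]
  · rw [show 4 * (π / 4 / 3) = π / 3 by ring, sin_pi_div_three]
  · rw [show 6 * (π / 4 / 3) = π / 2 by ring, sin_pi_div_two]
  · rw [show 3 * (π / 2 / 3) = π / 2 by ring, sin_pi_div_two]
  · exact sin_nonneg_of_nonneg_of_le_pi (by positivity) (by linarith [pi_pos])
  · rw [show 6 * (π / 2 / 3) = π by ring, sin_pi]

section One

variable {s : ℝ} (hT : 1000 ≤ T) (h : RH T 1 b Θ) (hs : exp (4 * s / 3) = 8 * T)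

include hs in
lemma anae_t (τ : ℝ) : 2 * T * exp (-4 * τ / 3) = exp (-(τ - s) / 3) ^ 4 / 4 := by
  rw [← exp_nat_mul, show ((4 : ℕ) : ℝ) * (-(τ - s) / 3) = 4 * s / 3 + -4 * τ / 3 by
    push_cast; ring, exp_add, hs]
  ring

include hs in
lemma anae_rt (τ : ℝ) : √(2 * T) * exp (-2 * τ / 3) = exp (-(τ - s) / 3) ^ 2 / 2 := by
  rw [← anae_sqrt, anae_t hs, sqrt_eq_iff_mul_self_eq (by positivity) (by positivity)]
  ring

include hT hs in
lemma anae_spos : 0 < s := by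
  have h1 : (1000 : ℝ) ≤ T := by exact_mod_cast hT
  have h2 : 1 < exp (4 * s / 3) := by linarith
  linarith [one_lt_exp_iff.1 h2]

include hT h hs in
/-- the facts on the right side -/
lemma anae_R {τ : ℝ} (hτ : s ≤ τ) : ∃ r g : ℝ, 1 / 8 ≤ r ∧ r ≤ 1 ∧
    1 - r ≤ 7 / 8 * exp (-(τ - s) / 3) ^ 4 ∧
    (Θ (pt (3 * π / 4) τ)).im = r * (Θ (pt (π / 4) τ)).im - g ∧
    0.186 * (exp (-(τ - s) / 3) ^ 4 * r) ≤ g ∧ g ≤ 0.57 * exp (-(τ - s) / 3) ^ 4 := by
  have h0 : 0 < τ := (anae_spos hT hs).trans_le hτ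
  obtain ⟨a1, a2, -⟩ := anae_right hT h h0
  have w0 := exp_pos (-(τ - s) / 3)
  have w1 : exp (-(τ - s) / 3) ≤ 1 := exp_le_one_iff.2 (by linarith)
  have w2 : exp (-(τ - s) / 3) ^ 2 ≤ 1 := pow_le_one₀ w0.le w1
  have w4 : exp (-(τ - s) / 3) ^ 4 ≤ 1 := pow_le_one₀ w0.le w1
  have w5 : 0 < exp (-(τ - s) / 3) ^ 4 := by positivity
  obtain ⟨b1, b2, -, b3⟩ := lam_good hT (exp_pos (-4 * τ / 3)) (by rw [anae_t hs]; linarith)
  have b4 := (Complex.re_le_norm _).trans (lam_le_one T (exp_pos _) (anae_Y h0.le))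
  have b5 := (Complex.re_le_norm _).trans (lam_sub T hT (exp_pos _) (anae_Y h0.le))
  rw [anae_sqrt, anae_rt hs] at a2
  rw [anae_t hs] at b2 b3 b5
  rw [Complex.sub_re, Complex.one_re] at b5
  obtain ⟨a3, a4⟩ := abs_le.1 a2
  have b6 : 0 ≤ exp (-(τ - s) / 3) ^ 4 * (Lam T (exp (-4 * τ / 3))).re := by positivity
  refine ⟨_, -(Lam T (exp (-4 * τ / 3))).im * (Θ (pt (π / 4) τ)).re, by linarith, b4, by linarith,
    by rw [a1]; ring, ?_, ?_⟩
  · have := mul_le_mul b2 (show 1 / 2 ≤ (Θ (pt (π / 4) τ)).re by linarith) (by norm_num)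
      (le_trans (by positivity) b2)
    linarith
  · have := mul_le_mul b3 (show (Θ (pt (π / 4) τ)).re ≤ 3 / 2 by linarith) (by linarith)
      (by positivity)
    linarith

include hT h hs in
lemma anae_A {x τ : ℝ} (h0 : 0 ≤ x) (h1 : x ≤ 3 * π / 4) (hτ : s ≤ τ) :
    (Θ (pt x τ)).im ≤ 0.076 * (exp (-(τ - s) / 3) ^ 2 * sin (2 * (x / 3))) ∧
    -(Θ (pt x τ)).im ≤ 0.75 * (exp (-(τ - s) / 3) ^ 2 * sin (2 * (x / 3))) := by
  obtain ⟨a1, a2⟩ := h.stepA hT h0 h1 ((anae_spos hT hs).le.trans hτ)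
  rw [mul_assoc, ← mul_assoc (√(2 * T)), anae_rt hs, mul_div_assoc 2 x 3] at a1 a2
  constructor <;> linarith

lemma anae_pw {w a : ℝ} (h0 : 0 < w) (h1 : w ≤ 1) (ha : |a| ≤ 1) {n : ℕ} (hn : 2 ≤ n) :
    |w ^ n * a| ≤ w ^ 2 := by
  rw [abs_mul, abs_of_pos (pow_pos h0 n)]
  exact (mul_le_of_le_one_right (pow_pos h0 n).le ha).trans (pow_le_pow_of_le_one h0.le h1 hn)

lemma anae_w2 (s τ : ℝ) : exp (-(τ - s) / 3) ^ 2 = exp (2 * s / 3) * exp (-2 * τ / 3) := by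
  rw [← exp_nat_mul, ← exp_add]
  congr 1
  push_cast
  ring

include hT h hs in
lemma anae_low {τ : ℝ} (hτ : s ≤ τ) :
    1 / 2000 * exp (-(τ - s) / 3) ^ 3 - exp (-(τ - s) / 3) ^ 4 ≤ -(Θ (pt (π / 2) τ)).im := by
  have e : ∀ x τ, (((-(1 / 2000) : ℝ) : ℂ) * anae_b 3 s (pt x τ) +
      ((0.1535 : ℝ) : ℂ) * anae_b 4 s (pt x τ) - ((0.07675 : ℝ) : ℂ) * anae_b 6 s (pt x τ) -
      Θ (pt x τ)).im = -(1 / 2000) * (exp (-(τ - s) / 3) ^ 3 * sin (3 * (x / 3))) +
      0.1535 * (exp (-(τ - s) / 3) ^ 4 * sin (4 * (x / 3))) -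
      0.07675 * (exp (-(τ - s) / 3) ^ 6 * sin (6 * (x / 3))) - (Θ (pt x τ)).im := fun x τ => by
    simp only [Complex.sub_im, Complex.add_im, Complex.im_ofReal_mul, anae_im, Nat.cast_ofNat]
  obtain ⟨v1, v2, v3, v4, v5, v6, v7, -, v9⟩ := anae_vals
  have key := nlmp (g := fun z => ((-(1 / 2000) : ℝ) : ℂ) * anae_b 3 s z +
      ((0.1535 : ℝ) : ℂ) * anae_b 4 s z - ((0.07675 : ℝ) : ℂ) * anae_b 6 s z - Θ z)
    (((((anae_diff 3 s).const_mul _).add ((anae_diff 4 s).const_mul _)).sub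
      ((anae_diff 6 s).const_mul _)).differentiableOn.sub h.hol) (t₀ := s) (L := s)
    (C := exp (2 * s / 3)) (fun τ _ => by rw [e]; simp [h.im_imag]) (fun τ hτ => ?_)
    (fun x h0 h1 => ?_) (fun x τ h0 h1 hτ => ?_) (x := π / 2) (by positivity)
    (by linarith [pi_pos]) hτ
  · rw [e, v7, v9] at key
    have w4 : 0 < exp (-(τ - s) / 3) ^ 4 := by positivity
    have := mul_le_of_le_one_right w4.le (sin_le_one (4 * (π / 2 / 3)))
    linarith
  · obtain ⟨r, g, r1, r2, r3, r4, g1, -⟩ := anae_R hT h hs hτ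
    refine anae_min (by linarith) r2 ?_
    rw [e, e, v1, v2, v3, v4, v5, v6, r4]
    have w0 := exp_pos (-(τ - s) / 3)
    have w1 : exp (-(τ - s) / 3) ≤ 1 := exp_le_one_iff.2 (by linarith)
    generalize exp (-(τ - s) / 3) = w at *
    have q2 : √2 ≤ 2 := sqrt_le_iff.2 ⟨by norm_num, by norm_num⟩
    have q3 : √3 ≤ 1.74 := sqrt_le_iff.2 ⟨by norm_num, by norm_num⟩
    have w3 : w ^ 3 ≤ 1 := pow_le_one₀ w0.le w1
    have w4 : 0 < w ^ 4 := by positivity
    have w6 : 0 < w ^ 6 := by positivity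
    have c1 : w ^ 3 * √2 ≤ 2 := by nlinarith [sqrt_nonneg 2, pow_pos w0 3]
    have c2 : w ^ 3 * √2 * (1 - r) ≤ 2 * (7 / 8 * w ^ 4) :=
      mul_le_mul c1 r3 (by linarith) (by norm_num)
    have c3 : w ^ 4 * r * √3 ≤ w ^ 4 * r * 1.74 :=
      mul_le_mul_of_nonneg_left q3 (mul_nonneg w4.le (by linarith))
    have c4 : w ^ 4 * (1 / 8) ≤ w ^ 4 * r := mul_le_mul_of_nonneg_left r1 w4.le
    have c5 : 0 ≤ w ^ 6 * r := mul_nonneg w6.le (by linarith)
    nlinarith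
  · rw [e]
    obtain ⟨t0, t1, -, -, t4⟩ := anae_trig (u := x / 3) (by linarith) (by linarith)
    have a1 := (anae_A hT h hs h0 h1 le_rfl).1
    simp only [sub_self, neg_zero, zero_div, exp_zero, one_pow, one_mul] at a1 ⊢
    linarith
  · rw [e, ← anae_w2]
    have w0 := exp_pos (-(τ - s) / 3)
    have w1 : exp (-(τ - s) / 3) ≤ 1 := exp_le_one_iff.2 (by linarith)
    have a1 := (anae_A hT h hs h0 h1 hτ).1
    have p2 := abs_le.1 (anae_pw w0 w1 (abs_sin_le_one (2 * (x / 3))) (n := 2) le_rfl)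
    have p3 := abs_le.1 (anae_pw w0 w1 (abs_sin_le_one (3 * (x / 3))) (n := 3) (by norm_num))
    have p4 := abs_le.1 (anae_pw w0 w1 (abs_sin_le_one (4 * (x / 3))) (n := 4) (by norm_num))
    have p6 := abs_le.1 (anae_pw w0 w1 (abs_sin_le_one (6 * (x / 3))) (n := 6) (by norm_num))
    have w2 : 0 < exp (-(τ - s) / 3) ^ 2 := by positivity
    linarith [p2.2, p3.2, p4.1, p6.2]

include hT h hs in
lemma anae_up {τ : ℝ} (hτ : s ≤ τ) : -(Θ (pt (π / 2) τ)).im ≤ 25 * exp (-(τ - s) / 3) ^ 3 := by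
  have e : ∀ x τ, (((25 : ℝ) : ℂ) * anae_b 3 s (pt x τ) -
      ((6.25 : ℝ) : ℂ) * anae_b 4 s (pt x τ) + Θ (pt x τ)).im =
      25 * (exp (-(τ - s) / 3) ^ 3 * sin (3 * (x / 3))) -
      6.25 * (exp (-(τ - s) / 3) ^ 4 * sin (4 * (x / 3))) + (Θ (pt x τ)).im := fun x τ => by
    simp only [Complex.sub_im, Complex.add_im, Complex.im_ofReal_mul, anae_im, Nat.cast_ofNat]
  obtain ⟨v1, v2, -, v4, v5, -, v7, v8, -⟩ := anae_vals
  have key := nlmp (g := fun z => ((25 : ℝ) : ℂ) * anae_b 3 s z -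
      ((6.25 : ℝ) : ℂ) * anae_b 4 s z + Θ z)
    ((((anae_diff 3 s).const_mul _).sub ((anae_diff 4 s).const_mul _)).differentiableOn.add h.hol)
    (t₀ := s) (L := s) (C := 32 * exp (2 * s / 3)) (fun τ _ => by rw [e]; simp [h.im_imag])
    (fun τ hτ => ?_) (fun x h0 h1 => ?_) (fun x τ h0 h1 hτ => ?_) (x := π / 2) (by positivity)
    (by linarith [pi_pos]) hτ
  · rw [e, v7] at key
    have w4 : 0 < exp (-(τ - s) / 3) ^ 4 := by positivity
    linarith [mul_nonneg w4.le v8]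
  · obtain ⟨r, g, r1, r2, -, r4, -, g1⟩ := anae_R hT h hs hτ
    refine anae_min (by linarith) r2 ?_
    rw [e, e, v1, v2, v4, v5, r4]
    have w0 := exp_pos (-(τ - s) / 3)
    generalize exp (-(τ - s) / 3) = w at *
    have q3 : (1.73 : ℝ) ≤ √3 := le_sqrt_of_sq_le (by norm_num)
    have w4 : 0 < w ^ 4 := by positivity
    have c2 : 0 ≤ w ^ 3 * √2 * (1 - r) := mul_nonneg (by positivity) (by linarith)
    have c3 : w ^ 4 * r * 1.73 ≤ w ^ 4 * r * √3 :=
      mul_le_mul_of_nonneg_left q3 (mul_nonneg w4.le (by linarith))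
    have c4 : w ^ 4 * (1 / 8) ≤ w ^ 4 * r := mul_le_mul_of_nonneg_left r1 w4.le
    nlinarith
  · rw [e]
    obtain ⟨t0, -, t2, t3, -⟩ := anae_trig (u := x / 3) (by linarith) (by linarith)
    have a1 := (anae_A hT h hs h0 h1 le_rfl).2
    simp only [sub_self, neg_zero, zero_div, exp_zero, one_pow, one_mul] at a1 ⊢
    linarith
  · rw [e, mul_assoc, ← anae_w2]
    have w0 := exp_pos (-(τ - s) / 3)
    have w1 : exp (-(τ - s) / 3) ≤ 1 := exp_le_one_iff.2 (by linarith)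
    have a1 := (anae_A hT h hs h0 h1 hτ).2
    have p2 := abs_le.1 (anae_pw w0 w1 (abs_sin_le_one (2 * (x / 3))) (n := 2) le_rfl)
    have p3 := abs_le.1 (anae_pw w0 w1 (abs_sin_le_one (3 * (x / 3))) (n := 3) (by norm_num))
    have p4 := abs_le.1 (anae_pw w0 w1 (abs_sin_le_one (4 * (x / 3))) (n := 4) (by norm_num))
    linarith [p2.2, p3.1, p4.2]

include h in
lemma anae_lim {ε : ℝ} (hε : 0 < ε) (s : ℝ) : ∃ τ, s ≤ τ ∧ exp s * exp (-(τ - s) / 3) ≤ ε ∧
    |(Θ (pt (π / 2) τ)).im + b * exp (-τ)| ≤ ε * exp (-τ) := by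
  obtain ⟨L, hL⟩ := h.asym ε hε
  refine ⟨max (max L s) (4 * s - 3 * log ε), (le_max_right _ _).trans (le_max_left _ _), ?_, ?_⟩
  · rw [← exp_add, ← exp_log hε, exp_le_exp, exp_log hε]
    linarith [le_max_right (max L s) (4 * s - 3 * log ε)]
  · generalize hτ : max (max L s) (4 * s - 3 * log ε) = τ
    have h1 : L ≤ τ := hτ ▸ (le_max_left _ _).trans (le_max_left _ _)
    have h3 := (Complex.abs_im_le_norm _).trans
      (hL (π / 2) τ (anae_abs (by positivity) (by linarith [pi_pos])) h1)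
    have h4 : (Complex.exp (Complex.I * pt (π / 2) τ)).im = exp (-τ) := by
      rw [Complex.exp_im]
      simp [pt]
    simpa only [Complex.add_im, Complex.sub_im, Complex.ofReal_im, Complex.mul_im,
      Complex.ofReal_re, h4, zero_mul, add_zero, sub_zero] using h3

end One

theorem RH.one (hT : 1000 ≤ T) (h : RH T 1 b Θ) :
    1 / 2000 * (8 * T : ℝ) ^ (3 / 4 : ℝ) ≤ b ∧ b ≤ 25 * (8 * T : ℝ) ^ (3 / 4 : ℝ) := by
  have hT' : (1000 : ℝ) ≤ T := by exact_mod_cast hT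
  have h8 : (0 : ℝ) < 8 * T := by linarith
  have hs : exp (4 * (log (8 * T) * (3 / 4)) / 3) = 8 * T := by
    rw [show 4 * (log (8 * T) * (3 / 4)) / 3 = log (8 * T) by ring, exp_log h8]
  rw [rpow_def_of_pos h8]
  generalize log (8 * T) * (3 / 4) = s at hs
  have w3 : ∀ τ, exp (-(τ - s) / 3) ^ 3 = exp s * exp (-τ) := fun τ => by
    rw [← exp_nat_mul, ← exp_add]
    congr 1
    push_cast
    ring
  constructor
  · refine le_of_forall_pos_le_add fun ε hε => ?_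
    obtain ⟨τ, h1, h2, h3⟩ := anae_lim h (half_pos hε) s
    have h4 := anae_low hT h hs h1
    rw [pow_succ _ 3, w3] at h4
    have h5 := mul_le_mul_of_nonneg_right h2 (exp_pos (-τ)).le
    refine le_of_mul_le_mul_right ?_ (exp_pos (-τ))
    linarith [(abs_le.1 h3).1]
  · refine le_of_forall_pos_le_add fun ε hε => ?_
    obtain ⟨τ, h1, -, h3⟩ := anae_lim h hε s
    have h4 := anae_up hT h hs h1
    rw [w3] at h4
    refine le_of_mul_le_mul_right ?_ (exp_pos (-τ))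
    linarith [(abs_le.1 h3).2]

end Pool.Agent.Lib.MP_4960b8_pr.QK
end
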