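import Pool.Agent.Lib.MP_4960b8_pr.QK.Defs

/-! Structural lemmas, scalar identities, support and charge. -/

namespace Pool.Agent.Lib.MP_4960b8_pr.QK

lemma h8 : ζ ^ 8 = -1 := by
  unfold ζ
  rw [← Complex.exp_nat_mul, ← Complex.exp_pi_mul_I]; congr 1; push_cast; ring

@[simp] lemma cons_zero (a : S) (σ : St) : cons a σ 0 = a := rfl
@[simp] lemma cons_succ (a : S) (σ : St) (n : ℕ) : cons a σ (n + 1) = σ n := rfl
@[simp] lemma tl_cons (a : S) (σ : St) : tl (cons a σ) = σ := rfl
lemma cons_eta (σ : St) : cons (σ 0) (tl σ) = σ := by funext n; cases n <;> rfl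
lemma R_apply (a b : P) (v : Vec) (x y : S) (t : St) :
    R a b v (cons x (cons y t)) = Rf a b (fun x y => v (cons x (cons y t))) x y := rfl
lemma lift_apply (A : Op) (v : Vec) (x : S) (t : St) :
    lift A v (cons x t) = A (fun τ => v (cons x τ)) t := rfl

lemma basic_ex1 (σ : St) : ∃ x t, σ = cons x t := ⟨σ 0, tl σ, (cons_eta σ).symm⟩
lemma basic_ex2 (σ : St) : ∃ x y t, σ = cons x (cons y t) := by
  obtain ⟨x, t, rfl⟩ := basic_ex1 σ
  obtain ⟨y, t, rfl⟩ := basic_ex1 t
  exact ⟨x, y, t, rfl⟩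
lemma basic_ex3 (σ : St) : ∃ x y z t, σ = cons x (cons y (cons z t)) := by
  obtain ⟨x, y, t, rfl⟩ := basic_ex2 σ
  obtain ⟨z, t, rfl⟩ := basic_ex1 t
  exact ⟨x, y, z, t, rfl⟩

/-! extensionality -/
lemma ext1 {A B : Op} (h : ∀ v x t, A v (cons x t) = B v (cons x t)) : A = B := by
  refine LinearMap.ext fun v => funext fun σ => ?_
  obtain ⟨x, t, rfl⟩ := basic_ex1 σ
  exact h v x t
lemma ext2 {A B : Op} (h : ∀ v x y t, A v (cons x (cons y t)) = B v (cons x (cons y t))) :
    A = B := by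
  refine LinearMap.ext fun v => funext fun σ => ?_
  obtain ⟨x, y, t, rfl⟩ := basic_ex2 σ
  exact h v x y t
lemma ext3 {A B : Op} (h : ∀ v x y z t,
    A v (cons x (cons y (cons z t))) = B v (cons x (cons y (cons z t)))) : A = B := by
  refine LinearMap.ext fun v => funext fun σ => ?_
  obtain ⟨x, y, z, t, rfl⟩ := basic_ex3 σ
  exact h v x y z t
lemma zeta_ne : ζ ≠ 0 := Complex.exp_ne_zero _
lemma h16 : ζ ^ 16 = 1 := by linear_combination (ζ ^ 8 - 1) * h8
lemma basic_prim : IsPrimitiveRoot ζ 16 := by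
  have h := Complex.isPrimitiveRoot_exp 16 (by norm_num)
  have e : ζ = Complex.exp (2 * Real.pi * Complex.I / (16 : ℕ)) := by
    unfold ζ; congr 1; push_cast; ring
  rw [e]; exact h
lemma zeta_pow_ne {i j : ℕ} (hi : i < 16) (hj : j < 16) (h : i ≠ j) : ζ ^ i ≠ ζ ^ j :=
  fun e => h (basic_prim.pow_inj hi hj e)
/-- the one-site part of `Q` -/
noncomputable def q1 : Op := loc fun a b => match a, b with
  | .p, .m => 1
  | _, _ => 0
noncomputable def kq : Op := dg 1 (ζ ^ 4) (-ζ ^ 4)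
lemma Q_succ (n : ℕ) : Q (n + 1) = q1 + kq * lift (Q n) := rfl

/-! structural -/
@[simp] lemma lift_one : lift 1 = 1 := ext1 fun _ _ _ => rfl
@[simp] lemma lift_zero : lift 0 = 0 := ext1 fun _ _ _ => rfl
lemma lift_mul (A B : Op) : lift (A * B) = lift A * lift B := ext1 fun _ _ _ => rfl
lemma lift_add (A B : Op) : lift (A + B) = lift A + lift B := ext1 fun _ _ _ => rfl
lemma lift_smul (c : ℂ) (A : Op) : lift (c • A) = c • lift A := ext1 fun _ _ _ => rfl
lemma basic_liftN_zero (A : Op) : liftN 0 A = A := rfl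
lemma basic_liftN_succ (n : ℕ) (A : Op) : liftN (n + 1) A = lift (liftN n A) := rfl
@[simp] lemma liftN_one (n : ℕ) : liftN n 1 = 1 := by
  induction n with
  | zero => rfl
  | succ n ih => rw [basic_liftN_succ, ih, lift_one]
lemma liftN_mul (n : ℕ) (A B : Op) : liftN n (A * B) = liftN n A * liftN n B := by
  induction n with
  | zero => rfl
  | succ n ih => simp only [basic_liftN_succ, ih, lift_mul]
lemma liftN_add (n : ℕ) (A B : Op) : liftN n (A + B) = liftN n A + liftN n B := by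
  induction n with
  | zero => rfl
  | succ n ih => simp only [basic_liftN_succ, ih, lift_add]
lemma liftN_smul (n : ℕ) (c : ℂ) (A : Op) : liftN n (c • A) = c • liftN n A := by
  induction n with
  | zero => rfl
  | succ n ih => simp only [basic_liftN_succ, ih, lift_smul]
lemma liftN_liftN (m n : ℕ) (A : Op) : liftN m (liftN n A) = liftN (m + n) A := by
  induction m with
  | zero => rw [Nat.zero_add]; rfl
  | succ m ih => rw [basic_liftN_succ, ih, Nat.add_right_comm]; rfl
lemma liftN_lift (n : ℕ) (A : Op) : liftN n (lift A) = liftN (n + 1) A :=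
  liftN_liftN n 1 A

/-- vector valued form of `Rf` -/
noncomputable def basic_Rv (a b : P) (g : S → S → Vec) : S → S → Vec
  | .o, .o => dd a b • g .o .o + jn a b • (ζ ^ 2 • g .p .m - ζ ^ 6 • g .m .p)
  | .p, .o => ul a b • g .p .o + vv a b • g .o .p
  | .m, .o => ul a b • g .m .o + vv a b • g .o .m
  | .o, .p => vv a b • g .p .o + uu a b • g .o .p
  | .o, .m => vv a b • g .m .o + uu a b • g .o .m
  | .p, .p => w1 a b • g .p .p
  | .m, .m => w1 a b • g .m .m
  | .p, .m => w1 a b • g .p .m +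
      ζ ^ 2 • (cr a b • g .o .o + w2 a b • (ζ ^ 2 • g .p .m - ζ ^ 6 • g .m .p))
  | .m, .p => w1 a b • g .m .p -
      ζ ^ 6 • (cr a b • g .o .o + w2 a b • (ζ ^ 2 • g .p .m - ζ ^ 6 • g .m .p))

lemma basic_Rv_apply (a b : P) (g : S → S → Vec) (x y : S) (t : St) :
    basic_Rv a b g x y t = Rf a b (fun x y => g x y t) x y := by
  cases x <;> cases y <;> rfl

lemma basic_Rv_map (a b : P) (g : S → S → Vec) (x y : S) (A : Op) :
    A (basic_Rv a b g x y) = basic_Rv a b (fun x y => A (g x y)) x y := by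
  cases x <;> cases y <;> simp only [basic_Rv, map_add, map_sub, map_smul]

lemma R_lift (a b : P) (A : Op) : R a b * lift (lift A) = lift (lift A) * R a b := by
  refine ext2 fun v x y t => ?_
  have e : (fun τ => R a b v (cons x (cons y τ))) =
      basic_Rv a b (fun x y τ => v (cons x (cons y τ))) x y := by
    funext τ; rw [basic_Rv_apply]; rfl
  show Rf a b (fun x y => A (fun τ => v (cons x (cons y τ))) t) x y =
    A (fun τ => R a b v (cons x (cons y τ))) t
  rw [e, basic_Rv_map, basic_Rv_apply]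
lemma loc_lift (M : S → S → ℂ) (A : Op) : loc M * lift A = lift A * loc M := by
  refine ext1 fun v x t => ?_
  have e : (fun τ => loc M v (cons x τ)) = M x .o • (fun τ => v (cons .o τ)) +
      M x .p • (fun τ => v (cons .p τ)) + M x .m • (fun τ => v (cons .m τ)) := rfl
  show M x .o * A (fun τ => v (cons .o τ)) t + M x .p * A (fun τ => v (cons .p τ)) t +
    M x .m * A (fun τ => v (cons .m τ)) t = A (fun τ => loc M v (cons x τ)) t
  rw [e, map_add, map_add, map_smul, map_smul, map_smul]; rfl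
lemma ins_lift (c : P) (A : Op) : ins c * A = lift (lift A) * ins c := by
  refine ext2 fun v x y t => ?_
  have e : (fun τ => ins c v (cons x (cons y τ))) = chi c x y • v := rfl
  show chi c x y * A v t = A (fun τ => ins c v (cons x (cons y τ))) t
  rw [e, map_smul]; rfl
lemma ins1_lift (χ : S → ℂ) (A : Op) : ins1 χ * A = lift A * ins1 χ := by
  refine ext1 fun v x t => ?_
  have e : (fun τ => ins1 χ v (cons x τ)) = χ x • v := rfl
  show χ x * A v t = A (fun τ => ins1 χ v (cons x τ)) t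
  rw [e, map_smul]; rfl
lemma prj_lift (s : S) (A : Op) : prj s * lift A = A * prj s := rfl
lemma up_append (k : P) (l₁ l₂ : List P) :
    up k (l₁ ++ l₂) = liftN l₁.length (up k l₂) * up k l₁ := by
  induction l₁ with
  | nil => simp only [List.nil_append, List.length_nil, basic_liftN_zero, up, mul_one]
  | cons m l ih =>
    simp only [List.cons_append, List.length_cons, basic_liftN_succ, up, ih, lift_mul, mul_assoc]
lemma down_append (k : P) (l₁ l₂ : List P) :
    down k (l₁ ++ l₂) = down k l₁ * liftN l₁.length (down k l₂) := by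
  induction l₁ with
  | nil => simp only [List.nil_append, List.length_nil, basic_liftN_zero, down, one_mul]
  | cons m l ih =>
    simp only [List.cons_append, List.length_cons, basic_liftN_succ, down, ih, lift_mul, mul_assoc]
lemma up_liftN (k : P) (l : List P) (A : Op) :
    up k l * liftN (l.length + 1) A = liftN (l.length + 1) A * up k l := by
  induction l with
  | nil => simp only [up, mul_one, one_mul]
  | cons m l ih =>
    have e : liftN ((m :: l).length + 1) A = lift (lift (liftN l.length A)) := rfl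
    have ih' : up k l * lift (liftN l.length A) = lift (liftN l.length A) * up k l := ih
    rw [e, up, mul_assoc, R_lift, ← mul_assoc, ← lift_mul, ih', lift_mul, mul_assoc]
lemma down_liftN (k : P) (l : List P) (A : Op) :
    down k l * liftN (l.length + 1) A = liftN (l.length + 1) A * down k l := by
  induction l with
  | nil => simp only [down, mul_one, one_mul]
  | cons m l ih =>
    have e : liftN ((m :: l).length + 1) A = lift (lift (liftN l.length A)) := rfl
    have ih' : down k l * lift (liftN l.length A) = lift (liftN l.length A) * down k l := ih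
    rw [e, down, mul_assoc, ← lift_mul, ih', lift_mul, ← mul_assoc, R_lift, mul_assoc]

/-! homogeneity -/
lemma R_smul_left (c : ℂ) (a b : P) : R (c • a) b = c ^ 2 • R a b := by
  refine ext2 fun v x y t => ?_
  show Rf (c • a) b (fun x y => v (cons x (cons y t))) x y =
    c ^ 2 * Rf a b (fun x y => v (cons x (cons y t))) x y
  cases x <;> cases y <;>
    simp only [Rf, dd, vv, w1, w2, ul, uu, cr, jn, Prod.smul_fst, Prod.smul_snd, smul_eq_mul] <;>
    ring
lemma R_smul_right (c : ℂ) (a b : P) : R a (c • b) = c ^ 2 • R a b := by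
  refine ext2 fun v x y t => ?_
  show Rf a (c • b) (fun x y => v (cons x (cons y t))) x y =
    c ^ 2 * Rf a b (fun x y => v (cons x (cons y t))) x y
  cases x <;> cases y <;>
    simp only [Rf, dd, vv, w1, w2, ul, uu, cr, jn, Prod.smul_fst, Prod.smul_snd, smul_eq_mul] <;>
    ring
/-- the eigenvalue of `dg x y z` -/
def basic_ev (x y z : ℂ) : S → ℂ
  | .o => x
  | .p => y
  | .m => z
lemma basic_dg_apply (x y z : ℂ) (v : Vec) (s : S) (t : St) :
    dg x y z v (cons s t) = basic_ev x y z s * v (cons s t) := by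
  cases s
  · show x * v _ + 0 * v _ + 0 * v _ = x * v _
    simp only [zero_mul, add_zero, tl_cons]
  · show 0 * v _ + y * v _ + 0 * v _ = y * v _
    simp only [zero_mul, add_zero, zero_add, tl_cons]
  · show 0 * v _ + 0 * v _ + z * v _ = z * v _
    simp only [zero_mul, add_zero, zero_add, tl_cons]
lemma K_smul (c : ℂ) (a : P) : K (c • a) = c ^ 2 • K a := by
  refine ext1 fun v x t => ?_
  show dg _ _ _ v _ = c ^ 2 * dg _ _ _ v _
  rw [basic_dg_apply, basic_dg_apply]
  cases x <;> simp only [basic_ev, kd, ko, Prod.smul_fst, Prod.smul_snd, smul_eq_mul] <;> ring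
lemma ins_smul (c : ℂ) (a : P) : ins (c • a) = c • ins a := by
  refine ext2 fun v x y t => ?_
  show chi (c • a) x y * v t = c * (chi a x y * v t)
  cases x <;> cases y <;>
    simp only [chi, Prod.smul_fst, Prod.smul_snd, smul_eq_mul] <;> ring
lemma dd_smul_left (c : ℂ) (a b : P) : dd (c • a) b = c ^ 2 * dd a b := by
  simp only [dd, Prod.smul_fst, Prod.smul_snd, smul_eq_mul]; ring
lemma dd_smul_right (c : ℂ) (a b : P) : dd a (c • b) = c ^ 2 * dd a b := by
  simp only [dd, Prod.smul_fst, Prod.smul_snd, smul_eq_mul]; ring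

/-! scalar identities -/
@[simp] lemma bar_bar (a : P) : bar (bar a) = a := rfl
lemma sh_bar_sh (c : P) : sh (bar (sh c)) = bar c := by
  refine Prod.ext ?_ ?_
  · simp only [sh, bar]; linear_combination (-c.2 + c.2 * ζ ^ 8) * h8
  · simp only [sh, bar]; linear_combination (-c.1 + c.1 * ζ ^ 8) * h8
lemma sh_bar_aux : sh (bar aux) = aux := by
  refine Prod.ext ?_ ?_
  · simp only [sh, bar, aux]; linear_combination (-1 + ζ ^ 8) * h8
  · simp only [sh, bar, aux]; ring
lemma dd_sh_right (m c : P) : dd m (sh c) = dd c m := by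
  simp only [dd, sh]
  linear_combination (c.1 * c.2 * m.1 * m.2 * ζ ^ 4 + c.1 * c.2 * m.1 * m.2 * ζ ^ 6 -
    c.1 * c.2 * m.1 * m.2 * ζ ^ 12 - c.1 * c.2 * m.1 * m.2 * ζ ^ 14 -
    c.1 ^ 2 * m.2 ^ 2 * ζ ^ 10 + c.1 ^ 2 * m.2 ^ 2 * ζ ^ 18 - c.2 ^ 2 * m.1 ^ 2 +
    c.2 ^ 2 * m.1 ^ 2 * ζ ^ 8) * h8
lemma dd_sh_sh (m c : P) : dd (sh m) (sh c) = dd m c := by
  rw [dd_sh_right, dd_sh_right]
lemma dd_bar_bar (m c : P) : dd (bar m) (bar c) = dd c m := by
  simp only [dd, bar]; ring
lemma dd_sh_self (c : P) : dd (sh c) c = 0 := by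
  simp only [dd, sh]
  linear_combination (c.1 ^ 2 * c.2 ^ 2 * ζ ^ 6 - c.1 ^ 2 * c.2 ^ 2 * ζ ^ 14 -
    c.1 ^ 2 * c.2 ^ 2 * ζ ^ 20 + c.1 ^ 2 * c.2 ^ 2 * ζ ^ 28) * h8
lemma dd_sh_sh_self (c : P) : dd c (sh (sh c)) = 0 := by
  rw [dd_sh_right, dd_sh_self]
lemma dd_bar_aux (a : P) : dd (bar a) aux = dd a aux := by
  simp only [dd, bar, aux]
  linear_combination (a.1 ^ 2 - a.1 ^ 2 * ζ ^ 8 - a.2 ^ 2 + a.2 ^ 2 * ζ ^ 8) * h8
lemma dd_aux_bar (k : P) : dd aux (bar k) = dd (sh k) aux := by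
  simp only [dd, bar, aux, sh]
  linear_combination (-k.1 * k.2 * ζ ^ 7 - k.1 * k.2 * ζ ^ 9 + k.1 * k.2 * ζ ^ 15 +
    k.1 * k.2 * ζ ^ 17 + k.1 ^ 2 * ζ ^ 10 - k.1 ^ 2 * ζ ^ 18 + k.1 ^ 2 * ζ ^ 26 -
    k.1 ^ 2 * ζ ^ 34) * h8
lemma phi_bar_aux (c : P) : phi (bar aux) c = dd (sh c) aux * dd c aux := by
  have x1 : dd c (bar aux) = dd (sh c) aux := by
    rw [← dd_aux_bar, ← dd_bar_bar, bar_bar]
  rw [phi, x1, dd_bar_bar]
lemma phi_bar_sh (m c : P) : phi m (bar (sh c)) = phi m c := by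
  have x4 : dd (bar (sh c)) m = dd m (bar c) := by
    rw [← dd_sh_right, sh_bar_sh]
  rw [phi, phi, x4, bar_bar, dd_sh_right, mul_comm]
lemma phi_bar_left (m c : P) : phi (bar m) c = phi m c := by
  simp only [phi, dd, bar]; ring
lemma phi_sh_mul (k c : P) : phi (sh k) c * phi k c =
    dd (sh c) (bar k) * dd c (bar k) * dd k (sh c) * dd k c := by
  simp only [phi, dd, bar, sh]; ring
lemma aux_node : lin (bar aux) * kd (bar aux) = dd aux aux := by
  simp only [lin, kd, dd, bar, aux]; ring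

/-! support and charge -/
lemma basic_supp_cons {n : ℕ} {v : Vec} (h : Supp (n + 1) v) (x : S) :
    Supp n fun τ => v (cons x τ) :=
  fun σ i hi hσ => h (cons x σ) (i + 1) (by omega) hσ

lemma basic_supp_of_cons {n : ℕ} {v : Vec} (h : ∀ x, Supp n fun τ => v (cons x τ)) :
    Supp (n + 1) v := by
  intro σ i hi hσ
  obtain ⟨x, t, rfl⟩ := basic_ex1 σ
  obtain ⟨j, rfl⟩ : ∃ j, i = j + 1 := ⟨i - 1, by omega⟩
  exact h x t j (by omega) hσ

lemma basic_supp_zero_ne {v : Vec} (h : Supp 0 v) {x : S} (hx : x ≠ .o) :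
    (fun τ => v (cons x τ)) = 0 :=
  funext fun τ => h (cons x τ) 0 le_rfl hx

/-- operators sending vectors supported on `n` sites to vectors supported on `m` sites -/
def basic_PS (n m : ℕ) (A : Op) : Prop := ∀ v, Supp n v → Supp m (A v)

lemma basic_PS_lift {n m : ℕ} {A : Op} (h : basic_PS n m A) : basic_PS (n + 1) (m + 1) (lift A) :=
  fun _ hv => basic_supp_of_cons fun x => h _ (basic_supp_cons hv x)

lemma basic_PS_liftN {n m : ℕ} {A : Op} (h : basic_PS n m A) (i : ℕ) :
    basic_PS (n + i) (m + i) (liftN i A) := by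
  induction i with
  | zero => exact h
  | succ i ih => exact basic_PS_lift ih

lemma basic_PS_lift_zero {A : Op} (h : basic_PS 0 0 A) : basic_PS 0 0 (lift A) := by
  intro v hv σ i _ hσ
  obtain ⟨x, t, rfl⟩ := basic_ex1 σ
  rw [lift_apply]
  by_cases hx : x = .o
  · subst hx
    obtain ⟨j, rfl⟩ : ∃ j, i = j + 1 := by
      cases i with
      | zero => exact absurd rfl hσ
      | succ j => exact ⟨j, rfl⟩
    refine h _ (fun τ k _ hk => hv (cons .o τ) (k + 1) (Nat.zero_le _) hk) t j (Nat.zero_le _) hσ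
  · rw [basic_supp_zero_ne hv hx, map_zero]; rfl

lemma basic_PS_lift_all {A : Op} (h : ∀ n, basic_PS n n A) (n : ℕ) : basic_PS n n (lift A) := by
  cases n with
  | zero => exact basic_PS_lift_zero (h 0)
  | succ n => exact basic_PS_lift (h n)

lemma basic_PS_mul {n m k : ℕ} {A B : Op} (hA : basic_PS m k A) (hB : basic_PS n m B) :
    basic_PS n k (A * B) := fun v hv => hA _ (hB v hv)

lemma Supp.add {n : ℕ} {u v : Vec} (hu : Supp n u) (hv : Supp n v) : Supp n (u + v) := by
  intro σ i hi hσ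
  rw [Pi.add_apply, hu σ i hi hσ, hv σ i hi hσ, add_zero]
lemma Supp.sub {n : ℕ} {u v : Vec} (hu : Supp n u) (hv : Supp n v) : Supp n (u - v) := by
  intro σ i hi hσ
  rw [Pi.sub_apply, hu σ i hi hσ, hv σ i hi hσ, sub_zero]
lemma Supp.smul {n : ℕ} {v : Vec} (hv : Supp n v) (a : ℂ) : Supp n (a • v) := by
  intro σ i hi hσ
  rw [Pi.smul_apply, hv σ i hi hσ, smul_zero]

lemma basic_PS_add {n m : ℕ} {A B : Op} (hA : basic_PS n m A) (hB : basic_PS n m B) :
    basic_PS n m (A + B) := fun v hv => (hA v hv).add (hB v hv)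
lemma basic_PS_smul {n m : ℕ} {A : Op} (hA : basic_PS n m A) (c : ℂ) :
    basic_PS n m (c • A) := fun v hv => (hA v hv).smul c
lemma basic_PS_zero (n m : ℕ) : basic_PS n m 0 := fun _ _ _ _ _ _ => rfl
lemma basic_PS_one (n : ℕ) : basic_PS n n 1 := fun _ hv => hv

lemma basic_Rf_zero (a b : P) (g : S → S → ℂ) (x y : S)
    (h : ∀ x' y', x'.val + y'.val = x.val + y.val → g x' y' = 0) : Rf a b g x y = 0 := by
  cases x <;> cases y <;> simp only [Rf] <;>
    simp (disch := decide) only [h, mul_zero, add_zero, sub_zero]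

lemma basic_PS_R (a b : P) (n : ℕ) : basic_PS (n + 2) (n + 2) (R a b) := by
  intro v hv σ i hi hσ
  obtain ⟨x, y, t, rfl⟩ := basic_ex2 σ
  obtain ⟨j, rfl⟩ : ∃ j, i = j + 2 := ⟨i - 2, by omega⟩
  rw [R_apply]
  exact basic_Rf_zero a b _ x y fun x' y' _ => hv _ (j + 2) hi hσ

lemma basic_loc_apply (M : S → S → ℂ) (v : Vec) (x : S) (t : St) :
    loc M v (cons x t) = M x .o * v (cons .o t) + M x .p * v (cons .p t) +
      M x .m * v (cons .m t) := rfl

lemma basic_PS_loc (M : S → S → ℂ) (n : ℕ) : basic_PS (n + 1) (n + 1) (loc M) := by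
  intro v hv σ i hi hσ
  obtain ⟨x, t, rfl⟩ := basic_ex1 σ
  obtain ⟨j, rfl⟩ : ∃ j, i = j + 1 := ⟨i - 1, by omega⟩
  rw [basic_loc_apply, hv (cons .o t) (j + 1) hi hσ, hv (cons .p t) (j + 1) hi hσ,
    hv (cons .m t) (j + 1) hi hσ]
  simp only [mul_zero, add_zero]

/-- diagonal operators -/
def basic_Dg (A : Op) : Prop := ∃ c : St → ℂ, ∀ v σ, A v σ = c σ * v σ

lemma basic_Dg_dg (x y z : ℂ) : basic_Dg (dg x y z) := by
  refine ⟨fun σ => basic_ev x y z (σ 0), fun v σ => ?_⟩
  obtain ⟨s, t, rfl⟩ := basic_ex1 σ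
  exact basic_dg_apply x y z v s t

lemma basic_Dg_lift {A : Op} (h : basic_Dg A) : basic_Dg (lift A) := by
  obtain ⟨c, hc⟩ := h
  refine ⟨fun σ => c (tl σ), fun v σ => ?_⟩
  obtain ⟨s, t, rfl⟩ := basic_ex1 σ
  rw [lift_apply, hc]; rfl

lemma basic_Dg_liftN {A : Op} (h : basic_Dg A) (i : ℕ) : basic_Dg (liftN i A) := by
  induction i with
  | zero => exact h
  | succ i ih => exact basic_Dg_lift ih

lemma basic_PS_Dg {A : Op} (h : basic_Dg A) (n : ℕ) : basic_PS n n A := by
  obtain ⟨c, hc⟩ := h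
  intro v hv σ i hi hσ
  rw [hc, hv σ i hi hσ, mul_zero]

lemma Supp.mono {n m : ℕ} {v : Vec} (h : Supp n v) (hm : n ≤ m) : Supp m v :=
  fun σ i hi hσ => h σ i (hm.trans hi) hσ

lemma Supp.liftN_E0 {n m : ℕ} {v : Vec} (h : Supp n v) (hm : n ≤ m) : liftN m E0 v = v := by
  have h' := h.mono hm
  clear h hm
  induction m generalizing v with
  | zero =>
    funext σ
    obtain ⟨x, t, rfl⟩ := basic_ex1 σ
    show dg 1 0 0 v _ = _
    rw [basic_dg_apply]
    cases x
    · exact one_mul _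
    · rw [h' _ 0 le_rfl (by simp)]; exact mul_zero _
    · rw [h' _ 0 le_rfl (by simp)]; exact mul_zero _
  | succ m ih =>
    funext σ
    obtain ⟨x, t, rfl⟩ := basic_ex1 σ
    rw [basic_liftN_succ, lift_apply, ih (basic_supp_cons h' x)]

lemma basic_supp_zero_eq {v : Vec} (h : Supp 0 v) {σ : St} (hσ : σ ≠ zer) : v σ = 0 := by
  obtain ⟨i, hi⟩ := Function.ne_iff.1 hσ
  exact h σ i (Nat.zero_le _) hi

lemma basic_cons_zer : cons .o zer = zer := by funext n; cases n <;> rfl

lemma Supp.liftN_emp {n : ℕ} {v : Vec} (h : Supp n v) : liftN n emp v = v := by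
  induction n generalizing v with
  | zero =>
    funext σ
    obtain ⟨x, t, rfl⟩ := basic_ex1 σ
    cases x
    · show 1 * v t = _
      rw [one_mul]
      by_cases ht : t = zer
      · rw [ht, basic_cons_zer]
      · rw [basic_supp_zero_eq h ht, basic_supp_zero_eq h]
        intro e
        exact ht (congrArg tl e)
    · show 0 * v t = _
      rw [h (cons .p t) 0 le_rfl (by simp), zero_mul]
    · show 0 * v t = _
      rw [h (cons .m t) 0 le_rfl (by simp), zero_mul]
  | succ m ih =>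
    funext σ
    obtain ⟨x, t, rfl⟩ := basic_ex1 σ
    rw [basic_liftN_succ, lift_apply, ih (basic_supp_cons h x)]
lemma Supp.R {n i : ℕ} {v : Vec} (h : Supp n v) (hi : i + 2 ≤ n) (a b : P) :
    Supp n (liftN i (R a b) v) := by
  obtain ⟨k, rfl⟩ : ∃ k, n = k + 2 + i := ⟨n - 2 - i, by omega⟩
  exact basic_PS_liftN (basic_PS_R a b k) i v h
lemma Supp.K {n : ℕ} {v : Vec} (h : Supp n v) (i : ℕ) (a : P) : Supp n (liftN i (K a) v) :=
  basic_PS_Dg (basic_Dg_liftN (basic_Dg_dg _ _ _) i) n v h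
lemma basic_PS_ins (c : P) (n : ℕ) : basic_PS n (n + 2) (ins c) := by
  intro v hv σ i hi hσ
  obtain ⟨x, y, t, rfl⟩ := basic_ex2 σ
  obtain ⟨j, rfl⟩ : ∃ j, i = j + 2 := ⟨i - 2, by omega⟩
  show chi c x y * v t = 0
  rw [hv t j (by omega) hσ, mul_zero]
lemma Supp.ins {n i : ℕ} {v : Vec} (h : Supp n v) (hi : i ≤ n) (c : P) :
    Supp (n + 2) (liftN i (ins c) v) := by
  obtain ⟨k, rfl⟩ : ∃ k, n = k + i := ⟨n - i, by omega⟩
  rw [Nat.add_right_comm]
  exact basic_PS_liftN (basic_PS_ins c k) i v h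
lemma Supp.emp {n : ℕ} {v : Vec} (h : Supp n v) : Supp (n + 1) (emp v) := by
  refine basic_supp_of_cons fun x σ i hi hσ => ?_
  show _ * v σ = 0
  rw [h σ i hi hσ, mul_zero]
lemma Supp.prj {n : ℕ} {v : Vec} (h : Supp (n + 1) v) (s : S) : Supp n (prj s v) :=
  basic_supp_cons h s
lemma basic_PS_up (k : P) (l : List P) (j : ℕ) :
    basic_PS (l.length + 1 + j) (l.length + 1 + j) (up k l) := by
  induction l with
  | nil => exact basic_PS_one _
  | cons m l ih =>
    have e : (m :: l).length + 1 + j = l.length + 1 + j + 1 := by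
      rw [List.length_cons]; omega
    have e' : l.length + 1 + j + 1 = l.length + j + 2 := by omega
    rw [e]
    refine basic_PS_mul (basic_PS_lift ih) ?_
    rw [e']; exact basic_PS_R _ _ _
lemma basic_PS_down (k : P) (l : List P) (j : ℕ) :
    basic_PS (l.length + 1 + j) (l.length + 1 + j) (down k l) := by
  induction l with
  | nil => exact basic_PS_one _
  | cons m l ih =>
    have e : (m :: l).length + 1 + j = l.length + 1 + j + 1 := by
      rw [List.length_cons]; omega
    have e' : l.length + 1 + j + 1 = l.length + j + 2 := by omega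
    rw [e]
    refine basic_PS_mul ?_ (basic_PS_lift ih)
    rw [e']; exact basic_PS_R _ _ _
lemma Supp.up {n i : ℕ} {v : Vec} (h : Supp n v) (k : P) (l : List P)
    (hi : i + l.length + 1 ≤ n) : Supp n (liftN i (up k l) v) := by
  obtain ⟨j, rfl⟩ : ∃ j, n = l.length + 1 + j + i := ⟨n - i - l.length - 1, by omega⟩
  exact basic_PS_liftN (basic_PS_up k l j) i v h
lemma Supp.down {n i : ℕ} {v : Vec} (h : Supp n v) (k : P) (l : List P)
    (hi : i + l.length + 1 ≤ n) : Supp n (liftN i (down k l) v) := by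
  obtain ⟨j, rfl⟩ : ∃ j, n = l.length + 1 + j + i := ⟨n - i - l.length - 1, by omega⟩
  exact basic_PS_liftN (basic_PS_down k l j) i v h

lemma basic_chg_cons (n : ℕ) (x : S) (t : St) : chg (n + 1) (cons x t) = x.val + chg n t := by
  unfold chg
  rw [Finset.sum_range_succ', add_comm]; rfl

lemma basic_ch_cons {n : ℕ} {c : ℤ} {v : Vec} (h : HasCh (n + 1) c v) (x : S) :
    HasCh n (c - x.val) fun τ => v (cons x τ) := by
  intro σ hσ
  refine h _ ?_
  rw [basic_chg_cons]; omega

lemma basic_ch_of_cons {n : ℕ} {c : ℤ} {v : Vec}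
    (h : ∀ x, HasCh n (c - x.val) fun τ => v (cons x τ)) : HasCh (n + 1) c v := by
  intro σ hσ
  obtain ⟨x, t, rfl⟩ := basic_ex1 σ
  rw [basic_chg_cons] at hσ
  exact h x t (by omega)

/-- operators changing the charge by `k` -/
def basic_PC (n m : ℕ) (k : ℤ) (A : Op) : Prop := ∀ c v, HasCh n c v → HasCh m (c + k) (A v)

lemma basic_PC_lift {n m : ℕ} {k : ℤ} {A : Op} (h : basic_PC n m k A) :
    basic_PC (n + 1) (m + 1) k (lift A) := by
  intro c v hv
  refine basic_ch_of_cons fun x => ?_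
  have e : c + k - x.val = c - x.val + k := by omega
  rw [e]
  exact h _ _ (basic_ch_cons hv x)

lemma basic_PC_liftN {n m : ℕ} {k : ℤ} {A : Op} (h : basic_PC n m k A) (i : ℕ) :
    basic_PC (n + i) (m + i) k (liftN i A) := by
  induction i with
  | zero => exact h
  | succ i ih => exact basic_PC_lift ih

lemma HasCh.add {n : ℕ} {c : ℤ} {u v : Vec} (hu : HasCh n c u) (hv : HasCh n c v) :
    HasCh n c (u + v) := by
  intro σ hσ
  rw [Pi.add_apply, hu σ hσ, hv σ hσ, add_zero]
lemma HasCh.sub {n : ℕ} {c : ℤ} {u v : Vec} (hu : HasCh n c u) (hv : HasCh n c v) :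
    HasCh n c (u - v) := by
  intro σ hσ
  rw [Pi.sub_apply, hu σ hσ, hv σ hσ, sub_zero]
lemma HasCh.smul {n : ℕ} {c : ℤ} {v : Vec} (hv : HasCh n c v) (a : ℂ) : HasCh n c (a • v) := by
  intro σ hσ
  rw [Pi.smul_apply, hv σ hσ, smul_zero]

lemma basic_PC_mul {n m r : ℕ} {k j : ℤ} {A B : Op} (hA : basic_PC m r k A)
    (hB : basic_PC n m j B) : basic_PC n r (j + k) (A * B) := by
  intro c v hv
  rw [← add_assoc]
  exact hA _ _ (hB c v hv)
lemma basic_PC_mul0 {n m r : ℕ} {A B : Op} (hA : basic_PC m r 0 A)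
    (hB : basic_PC n m 0 B) : basic_PC n r 0 (A * B) := basic_PC_mul hA hB
lemma basic_PC_mul1 {n m r : ℕ} {k : ℤ} {A B : Op} (hA : basic_PC m r 0 A)
    (hB : basic_PC n m k B) : basic_PC n r k (A * B) := by
  have := basic_PC_mul hA hB
  rwa [add_zero] at this
lemma basic_PC_add {n m : ℕ} {k : ℤ} {A B : Op} (hA : basic_PC n m k A) (hB : basic_PC n m k B) :
    basic_PC n m k (A + B) := fun c v hv => (hA c v hv).add (hB c v hv)
lemma basic_PC_smul {n m : ℕ} {k : ℤ} {A : Op} (hA : basic_PC n m k A) (a : ℂ) :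
    basic_PC n m k (a • A) := fun c v hv => (hA c v hv).smul a
lemma basic_PC_zero (n m : ℕ) (k : ℤ) : basic_PC n m k 0 := fun _ _ _ _ _ => rfl
lemma basic_PC_one (n : ℕ) : basic_PC n n 0 1 := fun c v hv => by
  rw [add_zero]; exact hv

lemma basic_PC_Dg {A : Op} (h : basic_Dg A) (n : ℕ) : basic_PC n n 0 A := by
  obtain ⟨c, hc⟩ := h
  intro k v hv σ hσ
  rw [add_zero] at hσ
  rw [hc, hv σ hσ, mul_zero]

lemma basic_PC_R (a b : P) (n : ℕ) : basic_PC (n + 2) (n + 2) 0 (R a b) := by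
  intro c v hv σ hσ
  obtain ⟨x, y, t, rfl⟩ := basic_ex2 σ
  rw [R_apply]
  refine basic_Rf_zero a b _ x y fun x' y' e => hv _ ?_
  rw [basic_chg_cons, basic_chg_cons] at hσ ⊢
  omega

lemma basic_PC_loc (M : S → S → ℂ) (k : ℤ) (hM : ∀ x y, x.val ≠ y.val + k → M x y = 0) (n : ℕ) :
    basic_PC (n + 1) (n + 1) k (loc M) := by
  intro c v hv σ hσ
  obtain ⟨x, t, rfl⟩ := basic_ex1 σ
  have key : ∀ y, M x y * v (cons y t) = 0 := by
    intro y
    by_cases hy : x.val = y.val + k
    · rw [hv (cons y t), mul_zero]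
      rw [basic_chg_cons] at hσ ⊢
      omega
    · rw [hM x y hy, zero_mul]
  rw [basic_loc_apply, key, key, key, add_zero, add_zero]

lemma basic_PC_ins (a : P) (n : ℕ) : basic_PC n (n + 2) 0 (ins a) := by
  intro c v hv σ hσ
  obtain ⟨x, y, t, rfl⟩ := basic_ex2 σ
  show chi a x y * v t = 0
  rw [basic_chg_cons, basic_chg_cons] at hσ
  cases x <;> cases y <;> simp only [chi, zero_mul] <;> simp only [S.val] at hσ <;>
    rw [hv t (by omega), mul_zero]

lemma HasCh.R {n i : ℕ} {c : ℤ} {v : Vec} (h : HasCh n c v) (hi : i + 2 ≤ n) (a b : P) :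
    HasCh n c (liftN i (R a b) v) := by
  obtain ⟨k, rfl⟩ : ∃ k, n = k + 2 + i := ⟨n - 2 - i, by omega⟩
  have := basic_PC_liftN (basic_PC_R a b k) i c v h
  rwa [add_zero] at this
lemma HasCh.K {n : ℕ} {c : ℤ} {v : Vec} (h : HasCh n c v) (i : ℕ) (a : P) :
    HasCh n c (liftN i (K a) v) := by
  have := basic_PC_Dg (basic_Dg_liftN (basic_Dg_dg (kd a) (ko a) (ko a)) i) n c v h
  rwa [add_zero] at this
lemma HasCh.ins {n i : ℕ} {c : ℤ} {v : Vec} (h : HasCh n c v) (hi : i ≤ n) (a : P) :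
    HasCh (n + 2) c (liftN i (ins a) v) := by
  obtain ⟨k, rfl⟩ : ∃ k, n = k + i := ⟨n - i, by omega⟩
  have := basic_PC_liftN (basic_PC_ins a k) i c v h
  rwa [add_zero, Nat.add_right_comm] at this
lemma HasCh.emp {n : ℕ} {c : ℤ} {v : Vec} (h : HasCh n c v) : HasCh (n + 1) c (emp v) := by
  intro σ hσ
  obtain ⟨x, t, rfl⟩ := basic_ex1 σ
  rw [basic_chg_cons] at hσ
  cases x
  · show 1 * v t = 0
    rw [h t (by simpa [S.val] using hσ), mul_zero]
  · exact zero_mul _
  · exact zero_mul _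
lemma HasCh.prj {n : ℕ} {c : ℤ} {v : Vec} (h : HasCh (n + 1) c v) (s : S) :
    HasCh n (c - s.val) (prj s v) := basic_ch_cons h s
lemma HasCh.succ {n : ℕ} {c : ℤ} {v : Vec} (h : HasCh n c v) (hs : Supp n v) :
    HasCh (n + 1) c v := by
  intro σ hσ
  by_cases e : σ n = .o
  · refine h σ ?_
    unfold chg at hσ ⊢
    rw [Finset.sum_range_succ, e] at hσ
    simpa [S.val] using hσ
  · exact hs σ n le_rfl e
lemma basic_PC_up (k : P) (l : List P) (j : ℕ) :
    basic_PC (l.length + 1 + j) (l.length + 1 + j) 0 (up k l) := by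
  induction l with
  | nil => exact basic_PC_one _
  | cons m l ih =>
    have e : (m :: l).length + 1 + j = l.length + 1 + j + 1 := by
      rw [List.length_cons]; omega
    have e' : l.length + 1 + j + 1 = l.length + j + 2 := by omega
    rw [e]
    refine basic_PC_mul0 (basic_PC_lift ih) ?_
    rw [e']; exact basic_PC_R _ _ _
lemma basic_PC_down (k : P) (l : List P) (j : ℕ) :
    basic_PC (l.length + 1 + j) (l.length + 1 + j) 0 (down k l) := by
  induction l with
  | nil => exact basic_PC_one _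
  | cons m l ih =>
    have e : (m :: l).length + 1 + j = l.length + 1 + j + 1 := by
      rw [List.length_cons]; omega
    have e' : l.length + 1 + j + 1 = l.length + j + 2 := by omega
    rw [e]
    refine basic_PC_mul0 ?_ (basic_PC_lift ih)
    rw [e']; exact basic_PC_R _ _ _
lemma HasCh.up {n i : ℕ} {c : ℤ} {v : Vec} (h : HasCh n c v) (k : P) (l : List P)
    (hi : i + l.length + 1 ≤ n) : HasCh n c (liftN i (up k l) v) := by
  obtain ⟨j, rfl⟩ : ∃ j, n = l.length + 1 + j + i := ⟨n - i - l.length - 1, by omega⟩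
  have := basic_PC_liftN (basic_PC_up k l j) i c v h
  rwa [add_zero] at this
lemma HasCh.down {n i : ℕ} {c : ℤ} {v : Vec} (h : HasCh n c v) (k : P) (l : List P)
    (hi : i + l.length + 1 ≤ n) : HasCh n c (liftN i (down k l) v) := by
  obtain ⟨j, rfl⟩ : ∃ j, n = l.length + 1 + j + i := ⟨n - i - l.length - 1, by omega⟩
  have := basic_PC_liftN (basic_PC_down k l j) i c v h
  rwa [add_zero] at this

lemma basic_PS_q1 (n : ℕ) : basic_PS n n q1 := by
  cases n with
  | succ n => exact basic_PS_loc _ n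
  | zero =>
    intro v hv σ i _ _
    obtain ⟨x, t, rfl⟩ := basic_ex1 σ
    have e : v (cons .m t) = 0 := hv _ 0 le_rfl (by simp)
    unfold q1
    rw [basic_loc_apply, e]
    cases x <;> simp only [zero_mul, mul_zero, add_zero]
lemma basic_PS_Q (m n : ℕ) : basic_PS n n (Q m) := by
  induction m generalizing n with
  | zero => exact basic_PS_zero _ _
  | succ m ih =>
    rw [Q_succ]
    exact basic_PS_add (basic_PS_q1 n)
      (basic_PS_mul (basic_PS_Dg (basic_Dg_dg _ _ _) n) (basic_PS_lift_all ih n))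
lemma Supp.Q {n : ℕ} {v : Vec} (h : Supp n v) (m : ℕ) : Supp n (Q m v) := basic_PS_Q m n v h
lemma basic_PS_JE (l : List P) (j : ℕ) : basic_PS (l.length + j) (l.length + j) (JE l) := by
  induction l with
  | nil => exact basic_PS_zero _ _
  | cons a l ih =>
    have e : (a :: l).length + j = l.length + j + 1 := by rw [List.length_cons]; omega
    rw [e]
    exact basic_PS_add (basic_PS_smul (basic_PS_loc _ _) _) (basic_PS_smul
      (basic_PS_mul (basic_PS_Dg (basic_Dg_dg _ _ _) _) (basic_PS_lift ih)) _)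
lemma basic_PS_JF (l : List P) (j : ℕ) : basic_PS (l.length + j) (l.length + j) (JF l) := by
  induction l with
  | nil => exact basic_PS_zero _ _
  | cons a l ih =>
    have e : (a :: l).length + j = l.length + j + 1 := by rw [List.length_cons]; omega
    rw [e]
    exact basic_PS_add (basic_PS_smul (basic_PS_loc _ _) _) (basic_PS_smul
      (basic_PS_mul (basic_PS_Dg (basic_Dg_dg _ _ _) _) (basic_PS_lift ih)) _)
lemma Supp.JE {n : ℕ} {v : Vec} (h : Supp n v) (l : List P) (hl : l.length ≤ n) :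
    Supp n (JE l v) := by
  obtain ⟨j, rfl⟩ := Nat.exists_eq_add_of_le hl
  exact basic_PS_JE l j v h
lemma Supp.JF {n : ℕ} {v : Vec} (h : Supp n v) (l : List P) (hl : l.length ≤ n) :
    Supp n (JF l v) := by
  obtain ⟨j, rfl⟩ := Nat.exists_eq_add_of_le hl
  exact basic_PS_JF l j v h
lemma basic_PC_Q (m j : ℕ) : basic_PC (m + j) (m + j) 2 (Q m) := by
  induction m with
  | zero => exact basic_PC_zero _ _ _
  | succ m ih =>
    rw [Q_succ, Nat.add_right_comm]
    refine basic_PC_add (basic_PC_loc _ _ ?_ _)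
      (basic_PC_mul1 (basic_PC_Dg (basic_Dg_dg _ _ _) _) (basic_PC_lift ih))
    intro x y hxy
    cases x <;> cases y <;> first | rfl | exact absurd (by decide) hxy
lemma basic_PC_JE (l : List P) (j : ℕ) : basic_PC (l.length + j) (l.length + j) 1 (JE l) := by
  induction l with
  | nil => exact basic_PC_zero _ _ _
  | cons a l ih =>
    have e : (a :: l).length + j = l.length + j + 1 := by rw [List.length_cons]; omega
    rw [e]
    refine basic_PC_add (basic_PC_smul (basic_PC_loc _ _ ?_ _) _) (basic_PC_smul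
      (basic_PC_mul1 (basic_PC_Dg (basic_Dg_dg _ _ _) _) (basic_PC_lift ih)) _)
    intro x y hxy
    cases x <;> cases y <;> first | rfl | exact absurd (by decide) hxy
lemma basic_PC_JF (l : List P) (j : ℕ) : basic_PC (l.length + j) (l.length + j) (-1) (JF l) := by
  induction l with
  | nil => exact basic_PC_zero _ _ _
  | cons a l ih =>
    have e : (a :: l).length + j = l.length + j + 1 := by rw [List.length_cons]; omega
    rw [e]
    refine basic_PC_add (basic_PC_smul (basic_PC_loc _ _ ?_ _) _) (basic_PC_smul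
      (basic_PC_mul1 (basic_PC_Dg (basic_Dg_dg _ _ _) _) (basic_PC_lift ih)) _)
    intro x y hxy
    cases x <;> cases y <;> first | rfl | exact absurd (by decide) hxy
lemma HasCh.Q {n : ℕ} {c : ℤ} {v : Vec} (h : HasCh n c v) (m : ℕ) (hm : m ≤ n) :
    HasCh n (c + 2) (Q m v) := by
  obtain ⟨j, rfl⟩ := Nat.exists_eq_add_of_le hm
  exact basic_PC_Q m j c v h
lemma HasCh.JE {n : ℕ} {c : ℤ} {v : Vec} (h : HasCh n c v) (l : List P) (hl : l.length ≤ n) :
    HasCh n (c + 1) (JE l v) := by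
  obtain ⟨j, rfl⟩ := Nat.exists_eq_add_of_le hl
  exact basic_PC_JE l j c v h
lemma HasCh.JF {n : ℕ} {c : ℤ} {v : Vec} (h : HasCh n c v) (l : List P) (hl : l.length ≤ n) :
    HasCh n (c - 1) (JF l v) := by
  obtain ⟨j, rfl⟩ := Nat.exists_eq_add_of_le hl
  exact basic_PC_JF l j c v h
lemma basic_chg_zer (n : ℕ) : chg n zer = 0 := Finset.sum_eq_zero fun _ _ => rfl
lemma HasCh.zer {n : ℕ} {c : ℤ} {v : Vec} (h : HasCh n c v) (hc : c ≠ 0) : v zer = 0 :=
  h _ (by rw [basic_chg_zer]; exact hc.symm)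
lemma supp_vac : Supp 0 vac := by
  intro σ i _ hσ
  refine if_neg fun e => hσ ?_
  rw [e]; rfl
lemma hasCh_vac (n : ℕ) : HasCh n 0 vac := by
  intro σ hσ
  refine if_neg fun e => hσ ?_
  rw [e, basic_chg_zer]

end Pool.Agent.Lib.MP_4960b8_pr.QK
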