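import Pool.Agent.Lib.MP_4960b8_pr.QK.AlgA
import Pool.Agent.Lib.MP_4960b8_pr.QK.Basic

-- part Pool.Agent.Lib.MP_4960b8_pr.QK.PhysA
section

/-! The oriented vertex model on a finite set of vertices of the hexagonal lattice. -/

namespace Pool.Agent.Lib.MP_4960b8_pr.QK

open SAW

/-- spins on the edges; an edge is named by the sum of its end points -/
abbrev Cfg := V → S
def ed (a b : V) : V := ⟨a.i + b.i, a.j + b.j, a.k + b.k⟩
/-- the spin of an arrow from `a` to `b` -/
def sp (a b : V) : S := if b.j = a.j + 1 ∨ b.k = a.k - 1 ∨ b.i = a.i - 1 then .p else .m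
def spo (o : Bool) (a b : V) : S := if o then sp a b else sp b a
/-- gauge exponent of a directed edge -/
def ga (a b : V) : ℤ :=
  if b.j = a.j + 1 then -3 else if b.j = a.j - 1 then 3 else if b.i = a.i then -2 else 2
def ex (p q r : V) : ℤ := (2 * turn p q r + ga p q - ga q r) / 3
def wex : V → V → List V → ℤ
  | _, _, [] => 0
  | p, q, r :: l => ex p q r + wex q r l
/-- weight of the path `a, q, b` through `q` with the edge to `c` empty -/
noncomputable def thr (s : Cfg) (a q b c : V) : ℂ :=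
  if s (ed a q) = sp a q ∧ s (ed q b) = sp q b ∧ s (ed q c) = .o then xc * ph (ex a q b) else 0
noncomputable def vw3 (s : Cfg) (q a b c : V) : ℂ :=
  (if s (ed q a) = .o ∧ s (ed q b) = .o ∧ s (ed q c) = .o then 1 else 0) +
    thr s a q b c + thr s b q a c + thr s a q c b + thr s c q a b + thr s b q c a + thr s c q b a
/-- vertex weight -/
noncomputable def vw (q : V) (s : Cfg) : ℂ :=
  if q.i + q.j + q.k = 1 then vw3 s q ⟨q.i + 1, q.j, q.k⟩ ⟨q.i, q.j + 1, q.k⟩ ⟨q.i, q.j, q.k + 1⟩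
  else vw3 s q ⟨q.i - 1, q.j, q.k⟩ ⟨q.i, q.j - 1, q.k⟩ ⟨q.i, q.j, q.k - 1⟩
/-- sum over the spins of the edges in `I` -/
noncomputable def mar (I : Finset V) (F : Cfg → ℂ) (s : Cfg) : ℂ :=
  ∑ y : I → S, F (Function.updateFinset s I y)
open Classical in
/-- interior edges -/
noncomputable def inE (Ω : Finset V) : Finset V :=
  ((Ω ×ˢ Ω).filter fun x => Adj x.1 x.2).image fun x => ed x.1 x.2
/-- partition function with boundary condition `s` -/
noncomputable def Z (Ω : Finset V) : Cfg → ℂ := mar (inE Ω) fun s => ∏ v ∈ Ω, vw v s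
/-- weight of a walk followed along (`true`) or against (`false`) the arrows -/
noncomputable def wtb (o : Bool) : V → V → List V → ℂ
  | _, _, [] => 1
  | p, q, r :: l => xc * ph (if o then ex p q r else ex r q p) * wtb o q r l
/-- the walks that may be peeled from the boundary edge `(p, q)` -/
def Pe (Ω : Finset V) (s : Cfg) (o : Bool) (p q : V) : Set (List V) :=
  {l | (q :: l).IsChain Adj ∧ (q :: l).Nodup ∧ Inn Ω q l ∧ lv q l ∉ Ω ∧
    ed (pv p q l) (lv q l) ≠ ed p q ∧ s (ed (pv p q l) (lv q l)) = spo o (pv p q l) (lv q l) ∧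
    ∀ a ∈ q :: l, a ∈ Ω → ∀ c, c ∉ Ω → Adj a c →
      ed a c = ed p q ∨ ed a c = ed (pv p q l) (lv q l) ∨ s (ed a c) = .o}
/-- the interior edges are empty -/
def Nrm (Ω : Finset V) (s : Cfg) : Prop := ∀ a ∈ Ω, ∀ c ∈ Ω, Adj a c → s (ed a c) = .o

lemma ed_comm (a b : V) : ed a b = ed b a := by simp [ed, add_comm]
lemma ed_inj {a b c d : V} (h : Adj a b) (h' : Adj c d) (e : ed a b = ed c d) :
    (a = c ∧ b = d) ∨ (a = d ∧ b = c) := by
  rw [adj_iff] at h h'
  simp only [ed, V.mk.injEq] at e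
  simp only [V.ext_iff]
  rcases h with ⟨h0, h | h | h⟩ | ⟨h0, h | h | h⟩ <;>
    rcases h' with ⟨h1, h' | h' | h'⟩ | ⟨h1, h' | h' | h'⟩ <;>
    first | (exfalso; omega) | (left; omega) | (right; omega)
lemma sp_ne_o (a b : V) : sp a b ≠ .o := by
  unfold sp
  split_ifs <;> simp
lemma sp_val {a b : V} (h : Adj a b) : (sp b a).val = -(sp a b).val := by
  rw [adj_iff] at h
  unfold sp
  split_ifs <;> simp only [S.val] <;> omega
lemma spo_cases {a b : V} (h : Adj a b) {x : S} (hx : x ≠ .o) : ∃ o, x = spo o a b := by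
  have h1 := sp_val h
  have h2 := sp_ne_o a b
  have h3 := sp_ne_o b a
  by_cases e : x = sp a b
  · exact ⟨true, e⟩
  · refine ⟨false, ?_⟩
    show x = sp b a
    generalize sp a b = y at *
    generalize sp b a = z at *
    cases x <;> cases y <;> cases z <;> simp_all [S.val]

lemma physa_sp_ne {a b : V} (h : Adj a b) : sp a b ≠ sp b a := fun e => by
  have h1 := sp_val h
  have h2 := sp_ne_o a b
  rw [← e] at h1
  generalize sp a b = y at *
  cases y <;> simp_all [S.val]

lemma physa_spo_ne (o : Bool) (a b : V) : spo o a b ≠ .o := by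
  cases o
  · exact sp_ne_o b a
  · exact sp_ne_o a b

lemma physa_ex {p q r : V} (h : Adj p q) (h' : Adj q r) (hne : p ≠ r) :
    3 * ex p q r = 2 * turn p q r + ga p q - ga q r := by
  have : (2 * turn p q r + ga p q - ga q r) % 3 = 0 := by
    rcases adj_cases h h' hne with rfl | rfl
    · rw [turn_Lf]
      rcases h with ⟨h0, rfl | rfl | rfl⟩ | ⟨h0, rfl | rfl | rfl⟩ <;>
        simp only [ga, Lf] <;> split_ifs <;> omega
    · rw [turn_Rt h]
      rcases h with ⟨h0, rfl | rfl | rfl⟩ | ⟨h0, rfl | rfl | rfl⟩ <;>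
        simp only [ga, Rt] <;> split_ifs <;> omega
  unfold ex
  omega

lemma wex_eq {p q : V} {l : List V} (h : (p :: q :: l).IsChain Adj) (hn : (q :: l).Nodup)
    (hp : l.head? ≠ some p) :
    3 * wex p q l = 2 * wind p q l + ga p q - ga (pv p q l) (lv q l) := by
  induction l generalizing p q with
  | nil => simp [wex]
  | cons r l ih =>
    obtain ⟨h1, h2⟩ := List.isChain_cons_cons.1 h
    obtain ⟨n1, n2⟩ := List.nodup_cons.1 hn
    have a := ih h2 n2 fun e => n1 (List.mem_cons_of_mem _ (List.mem_of_mem_head? e))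
    have b := physa_ex h1 (List.isChain_cons_cons.1 h2).1 fun e => hp (by rw [e]; rfl)
    simp only [wex, wind_cons, pv_cons, lv_cons]
    omega

lemma physa_ph_zero : ph 0 = 1 := by simp [ph]

lemma wtb_true (p q : V) (l : List V) :
    wtb true p q l = (xc : ℂ) ^ l.length * ph (wex p q l) := by
  induction l generalizing p q with
  | nil => simp [wtb, wex, physa_ph_zero]
  | cons r l ih =>
    simp only [wtb, wex, ih, if_true, ph_add, List.length_cons, pow_succ]
    ring

lemma norm_wtb (o : Bool) (p q : V) (l : List V) : ‖wtb o p q l‖ = wt l := by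
  induction l generalizing p q with
  | nil => simp [wtb, wt]
  | cons r l ih =>
    have : ∀ w, ‖ph w‖ = 1 := fun w => Complex.norm_exp_ofReal_mul_I _
    simp only [wtb, norm_mul, ih, this, wt, List.length_cons, pow_succ, Complex.norm_real,
      Real.norm_eq_abs, abs_of_pos xc_pos]
    ring

lemma physa_swap1 (s : Cfg) (q a b c : V) : vw3 s q a b c = vw3 s q b a c := by
  unfold vw3
  rw [if_congr (and_left_comm (a := s (ed q a) = .o)) rfl rfl]
  ring

lemma physa_swap2 (s : Cfg) (q a b c : V) : vw3 s q a b c = vw3 s q a c b := by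
  unfold vw3
  rw [if_congr (and_congr_right' (and_comm (a := s (ed q b) = .o))) rfl rfl]
  ring

lemma vw_eq {p q : V} (h : Adj p q) (s : Cfg) : vw q s = vw3 s q p (Lf p q) (Rt p q) := by
  obtain ⟨i, j, k⟩ := p
  rcases h with ⟨h0, rfl | rfl | rfl⟩ | ⟨h0, rfl | rfl | rfl⟩ <;> simp only at h0 <;>
    simp only [vw, Lf, Rt]
  · rw [if_neg (by omega), physa_swap2]
    simp
  · rw [if_neg (by omega), physa_swap1]
    simp
  · rw [if_neg (by omega), physa_swap2, physa_swap1, physa_swap2]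
    simp
  · rw [if_pos (by omega), physa_swap2]
    simp
  · rw [if_pos (by omega), physa_swap1]
    simp
  · rw [if_pos (by omega), physa_swap2, physa_swap1, physa_swap2]
    simp

lemma mar_empty (F : Cfg → ℂ) : mar ∅ F = F := by
  funext s
  simp [mar]
lemma mar_singleton (e : V) (F : Cfg → ℂ) (s : Cfg) : mar {e} F s =
    F (Function.update s e .o) + F (Function.update s e .p) + F (Function.update s e .m) := by
  unfold mar
  rw [Fintype.sum_equiv (Equiv.funUnique (({e} : Finset V) : Type) S) _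
    (fun x => F (Function.update s e x)) fun y => by rw [Function.updateFinset_singleton]; rfl]
  have : (Finset.univ : Finset S) = {S.o, S.p, S.m} := rfl
  rw [this, Finset.sum_insert (by simp), Finset.sum_insert (by simp), Finset.sum_singleton, add_assoc]
lemma mar_union {I J : Finset V} (h : Disjoint I J) (F : Cfg → ℂ) :
    mar (I ∪ J) F = mar I (mar J F) := by
  funext s
  unfold mar
  rw [← Fintype.sum_prod_type']
  exact (Fintype.sum_equiv (Equiv.piFinsetUnion (fun _ => S) h) _ _ fun y => by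
    rw [Function.updateFinset_updateFinset h]).symm
lemma mar_mul {I : Finset V} {F : Cfg → ℂ} (G : Cfg → ℂ)
    (h : ∀ s t, (∀ e, e ∉ I → s e = t e) → F s = F t) :
    mar I (fun s => F s * G s) = fun s => F s * mar I G s := by
  funext s
  unfold mar
  rw [Finset.mul_sum]
  refine Finset.sum_congr rfl fun y _ => ?_
  beta_reduce
  rw [h (Function.updateFinset s I y) s fun e he => by simp [Function.updateFinset, he]]
lemma mar_congr {I : Finset V} {F G : Cfg → ℂ} {s t : Cfg}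
    (h : ∀ y, F (Function.updateFinset s I y) = G (Function.updateFinset t I y)) :
    mar I F s = mar I G t := Finset.sum_congr rfl fun y _ => h y

lemma physa_nbr {q : V} (hq : Valid q) : ∃ p, Adj p q := by
  rcases hq with h | h
  · exact ⟨_, Adj.symm (Or.inl ⟨h, Or.inl rfl⟩)⟩
  · exact ⟨_, Adj.symm (Or.inr ⟨h, Or.inl rfl⟩)⟩

lemma vw_congr {q : V} (hq : Valid q) {s t : Cfg} (h : ∀ c, Adj q c → s (ed q c) = t (ed q c)) :
    vw q s = vw q t := by
  obtain ⟨p, hp⟩ := physa_nbr hq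
  rw [vw_eq hp, vw_eq hp]
  simp only [vw3, thr, ed_comm _ q, h _ hp.symm, h _ (adj_Lf hp), h _ (adj_Rt hp)]

lemma physa_mar_add (I : Finset V) (F G : Cfg → ℂ) (s : Cfg) :
    mar I (fun t => F t + G t) s = mar I F s + mar I G s := Finset.sum_add_distrib

/-- a marginal in which the spins of all summed edges are forced -/
lemma physa_mar_two {I : Finset V} {e₁ e₂ : V} (hI : ∀ e ∈ I, e = e₁ ∨ e = e₂) (h12 : e₁ ≠ e₂)
    (x₁ x₂ : S) (G : Cfg → ℂ) (s : Cfg) :
    mar I (fun t => if t e₁ = x₁ ∧ t e₂ = x₂ then G t else 0) s =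
      if (e₁ ∈ I ∨ s e₁ = x₁) ∧ (e₂ ∈ I ∨ s e₂ = x₂) then
        G (Function.update (Function.update s e₁ x₁) e₂ x₂) else 0 := by
  unfold mar
  split_ifs with c
  · have key : Function.updateFinset s I
        (fun e => Function.update (Function.update s e₁ x₁) e₂ x₂ e) =
        Function.update (Function.update s e₁ x₁) e₂ x₂ := by
      funext e
      by_cases a : e ∈ I
      · simp [Function.updateFinset, a]
      · simp only [Function.updateFinset, dif_neg a]
        by_cases b : e = e₂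
        · subst b
          simp [c.2.resolve_left a]
        by_cases d : e = e₁
        · subst d
          simp [b, c.1.resolve_left a]
        simp [b, d]
    rw [Finset.sum_eq_single (fun e : I => Function.update (Function.update s e₁ x₁) e₂ x₂ e)]
    · rw [key]
      exact if_pos (by simp [h12])
    · intro y _ hy
      refine if_neg fun a => hy (funext fun e => ?_)
      have b : Function.updateFinset s I y e = y e := by simp [Function.updateFinset]
      rcases hI e e.2 with d | d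
      · rw [← b, d, a.1]; simp [h12]
      · rw [← b, d, a.2]; simp
    · simp
  · refine Finset.sum_eq_zero fun y _ => if_neg fun a => c ⟨?_, ?_⟩
    · by_cases b : e₁ ∈ I
      · exact Or.inl b
      · exact Or.inr (by simpa [Function.updateFinset, b] using a.1)
    · by_cases b : e₂ ∈ I
      · exact Or.inl b
      · exact Or.inr (by simpa [Function.updateFinset, b] using a.2)

variable {Ω : Finset V}

lemma physa_mem_inE {e : V} : e ∈ inE Ω ↔ ∃ a ∈ Ω, ∃ c ∈ Ω, Adj a c ∧ ed a c = e := by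
  simp only [inE, Finset.mem_image, Finset.mem_filter, Finset.mem_product, Prod.exists]
  exact ⟨fun ⟨a, c, h, e⟩ => ⟨a, h.1.1, c, h.1.2, h.2, e⟩,
    fun ⟨a, h1, c, h2, h3, e⟩ => ⟨a, c, ⟨⟨h1, h2⟩, h3⟩, e⟩⟩

lemma physa_ed_inE {a c : V} (h : Adj a c) : ed a c ∈ inE Ω ↔ a ∈ Ω ∧ c ∈ Ω := by
  rw [physa_mem_inE]
  refine ⟨fun ⟨a', h1, c', h2, h3, e⟩ => ?_, fun b => ⟨a, b.1, c, b.2, h, rfl⟩⟩
  rcases ed_inj h3 h e with ⟨rfl, rfl⟩ | ⟨rfl, rfl⟩
  · exact ⟨h1, h2⟩
  · exact ⟨h2, h1⟩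

theorem Z_congr (hV : ∀ v ∈ Ω, Valid v) {s t : Cfg}
    (h : ∀ a ∈ Ω, ∀ c, c ∉ Ω → Adj a c → s (ed a c) = t (ed a c)) : Z Ω s = Z Ω t := by
  refine mar_congr fun y => Finset.prod_congr rfl fun v hv => vw_congr (hV v hv) fun c hc => ?_
  by_cases a : ed v c ∈ inE Ω
  · simp [Function.updateFinset, a]
  · simp only [Function.updateFinset, dif_neg a]
    exact h v hv c (fun b => a ((physa_ed_inE hc).2 ⟨hv, b⟩)) hc
/-- splitting off a part of the domain -/
theorem Z_split (hV : ∀ v ∈ Ω, Valid v) {Ω' : Finset V} (h : Ω' ⊆ Ω) :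
    Z Ω = mar (inE Ω \ inE Ω') fun s => (∏ v ∈ Ω \ Ω', vw v s) * Z Ω' s := by
  have h1 : inE Ω' ⊆ inE Ω := fun e he => by
    obtain ⟨a, h1, c, h2, h3⟩ := physa_mem_inE.1 he
    exact physa_mem_inE.2 ⟨a, h h1, c, h h2, h3⟩
  unfold Z
  rw [← mar_mul (I := inE Ω') (F := fun s => ∏ v ∈ Ω \ Ω', vw v s), ← mar_union
    Finset.sdiff_disjoint, Finset.sdiff_union_of_subset h1]
  · simp only [Finset.prod_sdiff h]
  · intro s t hst
    refine Finset.prod_congr rfl fun v hv => ?_
    rw [Finset.mem_sdiff] at hv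
    exact vw_congr (hV v hv.1) fun c hc => hst _ fun a => hv.2 ((physa_ed_inE hc).1 a).1
theorem exists_nrm (Ω : Finset V) (s : Cfg) :
    ∃ t, Nrm Ω t ∧ ∀ a c, Adj a c → (a ∉ Ω ∨ c ∉ Ω) → t (ed a c) = s (ed a c) :=
  ⟨fun e => if e ∈ inE Ω then .o else s e,
    fun _ ha _ hc h => if_pos ((physa_ed_inE h).2 ⟨ha, hc⟩),
    fun _ _ h hn => if_neg fun b => hn.elim (fun d => d ((physa_ed_inE h).1 b).1)
      fun d => d ((physa_ed_inE h).1 b).2⟩
lemma Pe_finite (Ω : Finset V) (s : Cfg) (o : Bool) (p q : V) : (Pe Ω s o p q).Finite := by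
  refine (finite_nodup _ (finite_nbr (Ω : Set V) Ω.finite_toSet)).subset ?_
  rintro l ⟨h1, h2, h3, -⟩
  refine ⟨(List.nodup_cons.1 h2).2, ?_⟩
  clear h2
  induction l generalizing q with
  | nil => simp
  | cons r l ih =>
    intro u hu
    rcases List.mem_cons.1 hu with rfl | hu
    · exact ⟨q, h3.1, (List.isChain_cons_cons.1 h1).1⟩
    · exact ih r (List.isChain_cons_cons.1 h1).2 h3.2 u hu

/-! ### one vertex -/

/-- `p, r, r'` are the three neighbours of `q` -/
structure PhysaTri (q p r r' : V) : Prop where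
  a0 : Adj q p
  a1 : Adj q r
  a2 : Adj q r'
  n1 : p ≠ r
  n2 : p ≠ r'
  n3 : r ≠ r'
  all : ∀ c, Adj q c → c = p ∨ c = r ∨ c = r'

lemma physa_tri {p q : V} (h : Adj p q) : PhysaTri q p (Lf p q) (Rt p q) :=
  ⟨h.symm, adj_Lf h, adj_Rt h, (Lf_ne h).symm, (Rt_ne h).symm, Lf_ne_Rt h, fun c hc => by
    by_cases e : p = c
    · exact Or.inl e.symm
    · exact Or.inr (adj_cases h hc e)⟩

lemma PhysaTri.swap {q p r r' : V} (h : PhysaTri q p r r') : PhysaTri q p r' r :=
  ⟨h.a0, h.a2, h.a1, h.n2, h.n1, h.n3.symm, fun c hc => (h.all c hc).imp id Or.symm⟩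

lemma physa_ed_ne {q a b : V} (h : a ≠ b) : ed q a ≠ ed q b := fun e => h (by
  simp only [ed, V.mk.injEq, add_right_inj] at e
  exact V.ext e.1 e.2.1 e.2.2)

lemma physa_I {q p r r' : V} (h : PhysaTri q p r r') (hp : p ∉ Ω) :
    ∀ e ∈ inE Ω \ inE (Ω.erase q), e = ed q r ∨ e = ed q r' := by
  intro e he
  rw [Finset.mem_sdiff] at he
  obtain ⟨a, h1, c, h2, h3, rfl⟩ := physa_mem_inE.1 he.1
  have k : ∀ c ∈ Ω, Adj q c → ed q c = ed q r ∨ ed q c = ed q r' := fun c hc b => by
    rcases h.all c b with rfl | rfl | rfl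
    · exact absurd hc hp
    · exact Or.inl rfl
    · exact Or.inr rfl
  by_cases b : a = q
  · subst b
    exact k c h2 h3
  by_cases d : c = q
  · subst d
    rw [ed_comm]
    exact k a h1 h3.symm
  exact absurd ((physa_ed_inE h3).2 ⟨Finset.mem_erase.2 ⟨b, h1⟩, Finset.mem_erase.2 ⟨d, h2⟩⟩) he.2

lemma physa_memI {q r : V} (hq : q ∈ Ω) (h : Adj q r) :
    ed q r ∈ inE Ω \ inE (Ω.erase q) ↔ r ∈ Ω := by
  simp [Finset.mem_sdiff, physa_ed_inE h, hq]

/-- removing one vertex -/
lemma physa_erase (hV : ∀ v ∈ Ω, Valid v) {p q : V} (hp : p ∉ Ω) (hq : q ∈ Ω) (h : Adj p q)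
    (s : Cfg) (F : Cfg → ℂ) (hF : ∀ t, t (ed p q) = s (ed p q) → vw q t = F t) :
    Z Ω s = mar (inE Ω \ inE (Ω.erase q)) (fun t => F t * Z (Ω.erase q) t) s := by
  rw [Z_split hV (Finset.erase_subset q Ω), Finset.sdiff_erase_self hq]
  refine mar_congr fun y => ?_
  rw [Finset.prod_singleton, hF]
  have : ed p q ∉ inE Ω \ inE (Ω.erase q) := fun a =>
    hp ((physa_ed_inE h).1 (Finset.mem_sdiff.1 a).1).1
  simp only [Function.updateFinset, dif_neg this]

/-- a forced term of the sum over the edges at `q` -/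
lemma physa_term {q p r r' : V} (h : PhysaTri q p r r') (hp : p ∉ Ω) (hq : q ∈ Ω) (x y : S)
    (w : ℂ) (G : Cfg → ℂ) (s : Cfg) :
    mar (inE Ω \ inE (Ω.erase q))
      (fun t => (if t (ed q r) = x ∧ t (ed q r') = y then w else 0) * G t) s =
      if (r ∈ Ω ∨ s (ed q r) = x) ∧ (r' ∈ Ω ∨ s (ed q r') = y) then
        w * G (Function.update (Function.update s (ed q r) x) (ed q r') y) else 0 := by
  simp only [ite_mul, zero_mul]
  rw [physa_mar_two (physa_I h hp) (physa_ed_ne h.n3) x y (fun t => w * G t)]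
  simp only [physa_memI hq h.a1, physa_memI hq h.a2]

lemma physa_vw_arrow {p q : V} (h : Adj p q) (o : Bool) {t : Cfg} (ht : t (ed p q) = spo o p q) :
    vw q t = (if t (ed q (Lf p q)) = spo o q (Lf p q) ∧ t (ed q (Rt p q)) = .o then
      (xc : ℂ) * ph (if o then ex p q (Lf p q) else ex (Lf p q) q p) else 0) +
      (if t (ed q (Rt p q)) = spo o q (Rt p q) ∧ t (ed q (Lf p q)) = .o then
      (xc : ℂ) * ph (if o then ex p q (Rt p q) else ex (Rt p q) q p) else 0) := by
  have n1 := physa_sp_ne h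
  rw [vw_eq h]
  rw [ed_comm] at ht
  cases o <;> simp [vw3, thr, ed_comm _ q, ht, spo, sp_ne_o, n1, n1.symm]

lemma physa_vw_empty {p q : V} (h : Adj p q) {t : Cfg} (ht : t (ed p q) = .o) :
    vw q t = (if t (ed q (Lf p q)) = .o ∧ t (ed q (Rt p q)) = .o then 1 else 0) +
      (if t (ed q (Rt p q)) = sp q (Rt p q) ∧ t (ed q (Lf p q)) = sp (Lf p q) q then
      (xc : ℂ) * ph (ex (Lf p q) q (Rt p q)) else 0) +
      (if t (ed q (Lf p q)) = sp q (Lf p q) ∧ t (ed q (Rt p q)) = sp (Rt p q) q then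
      (xc : ℂ) * ph (ex (Rt p q) q (Lf p q)) else 0) := by
  rw [vw_eq h]
  rw [ed_comm] at ht
  simp [vw3, thr, ed_comm _ q, ht, (sp_ne_o _ _).symm, and_comm]

/-! ### peeling -/

lemma physa_last {q r : V} {l : List V} (h : (q :: r :: l).IsChain Adj) :
    Adj (pv q r l) (lv r l) := by
  induction l generalizing q r with
  | nil => exact (List.isChain_cons_cons.1 h).1
  | cons u l ih => exact ih (List.isChain_cons_cons.1 h).2

lemma physa_pv_mem {q r : V} {l : List V} (h : l ≠ []) : pv q r l ∈ r :: l := by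
  rcases l with _ | ⟨u, l⟩
  · exact absurd rfl h
  · exact pv_mem r u l

lemma physa_inn_erase {q r : V} {l : List V} (h : Inn Ω r l) (hq : q ∉ r :: l) :
    Inn (Ω.erase q : Finset V) r l := by
  induction l generalizing r with
  | nil => trivial
  | cons u l ih =>
    exact ⟨Finset.mem_coe.2 (Finset.mem_erase.2 ⟨fun e => hq (by simp [e]), h.1⟩),
      ih h.2 fun a => hq (List.mem_cons_of_mem _ a)⟩

/-- the first step leaves the domain -/
lemma physa_out {s : Cfg} (hn : Nrm Ω s) {q p r r' : V} (h : PhysaTri q p r r') (hq : q ∈ Ω)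
    (hr : r ∉ Ω) (o : Bool) (l : List V) : r :: l ∈ Pe Ω s o p q ↔
      l = [] ∧ s (ed q r) = spo o q r ∧ s (ed q r') = .o := by
  have e1 : ed q r ≠ ed p q := by rw [ed_comm p]; exact physa_ed_ne h.n1.symm
  have e2 : ed q r' ≠ ed p q := by rw [ed_comm p]; exact physa_ed_ne h.n2.symm
  constructor
  · rintro ⟨-, -, h3, -, -, h6, h7⟩
    have hl : l = [] := by
      rcases l with _ | ⟨u, l⟩
      · rfl
      · exact absurd h3.2.1 hr
    subst hl
    refine ⟨rfl, h6, ?_⟩
    by_cases a : r' ∈ Ω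
    · exact hn q hq r' a h.a2
    · exact ((h7 q (by simp) hq r' a h.a2).resolve_left e2).resolve_left (physa_ed_ne h.n3.symm)
  · rintro ⟨rfl, h1, h2⟩
    refine ⟨by simpa using h.a1, by simpa using h.a1.ne, ⟨hq, trivial⟩, hr, e1, h1,
      fun a ha aΩ c _ hc => ?_⟩
    have : a = q := by
      rcases List.mem_cons.1 ha with b | b
      · exact b
      · exact absurd (List.mem_singleton.1 b ▸ aΩ) hr
    subst this
    rcases h.all c hc with rfl | rfl | rfl
    · exact Or.inl (ed_comm _ _)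
    · exact Or.inr (Or.inl rfl)
    · exact Or.inr (Or.inr h2)

/-- the first step stays in the domain -/
lemma physa_in {s : Cfg} (hn : Nrm Ω s) {q p r r' : V} (h : PhysaTri q p r r') (hp : p ∉ Ω)
    (hq : q ∈ Ω) (hr : r ∈ Ω) (o : Bool) (l : List V) : r :: l ∈ Pe Ω s o p q ↔
      s (ed q r') = .o ∧
        l ∈ Pe (Ω.erase q) (Function.update s (ed q r) (spo o q r)) o q r := by
  have e2 : ed q r' ≠ ed p q := by rw [ed_comm p]; exact physa_ed_ne h.n2.symm
  have k1 : ∀ a c, Adj a c → c ∉ Ω → ed a c ≠ ed q r := fun a c hc cΩ e => by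
    rcases ed_inj hc h.a1 e with ⟨-, rfl⟩ | ⟨-, rfl⟩
    · exact cΩ hr
    · exact cΩ hq
  have k2 : ∀ a c, Adj a c → a ∈ Ω → a ≠ q → ed a c ≠ ed p q := fun a c hc aΩ n e => by
    rcases ed_inj hc h.a0.symm e with ⟨rfl, -⟩ | ⟨rfl, -⟩
    · exact hp aΩ
    · exact n rfl
  constructor
  · rintro ⟨h1, h2, h3, h4, h5, h6, h7⟩
    simp only [lv_cons, pv_cons] at h4 h5 h6 h7
    obtain ⟨n1, n2⟩ := List.nodup_cons.1 h2
    have la := physa_last h1
    have hl : l ≠ [] := by
      rintro rfl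
      exact h4 hr
    have s2 : s (ed q r') = .o := by
      by_cases a : r' ∈ Ω
      · exact hn q hq r' a h.a2
      refine ((h7 q (by simp) hq r' a h.a2).resolve_left e2).resolve_left fun e => ?_
      rcases ed_inj h.a2 la e with ⟨b, -⟩ | ⟨b, -⟩
      · exact n1 (b ▸ physa_pv_mem hl)
      · exact h4 (b ▸ hq)
    refine ⟨s2, (List.isChain_cons_cons.1 h1).2, n2, physa_inn_erase h3.2 n1,
      fun a => h4 (Finset.mem_of_mem_erase a), k1 _ _ la h4,
      by rw [Function.update_of_ne (k1 _ _ la h4), h6], fun a ha aΩ c cΩ hc => ?_⟩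
    replace aΩ := Finset.mem_erase.1 aΩ
    obtain ⟨aq, aΩ⟩ := aΩ
    by_cases b : c = q
    · subst b
      rcases h.all a hc.symm with rfl | rfl | rfl
      · exact absurd aΩ hp
      · exact Or.inl (ed_comm _ _)
      · refine Or.inr (Or.inr ?_)
        rw [ed_comm a, Function.update_of_ne (physa_ed_ne h.n3.symm), s2]
    · have cΩ : c ∉ Ω := fun d => cΩ (Finset.mem_erase.2 ⟨b, d⟩)
      rw [Function.update_of_ne (k1 _ _ hc cΩ)]
      exact Or.inr ((h7 a (List.mem_cons_of_mem _ ha) aΩ c cΩ hc).resolve_left (k2 a c hc aΩ aq))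
  · rintro ⟨s2, h1, h2, h3, h4, h5, h6, h7⟩
    have ch := List.isChain_cons_cons.2 ⟨h.a1, h1⟩
    have la := physa_last ch
    rw [Function.update_of_ne h5] at h6
    have hl : l ≠ [] := by
      rintro rfl
      exact h5 rfl
    have pm := Finset.mem_erase.1 (Finset.mem_coe.1 (h3.pv_mem (p := q) hl))
    have lq : lv r l ≠ q := fun e => by
      rw [e] at la h5 h6
      rcases h.all _ la.symm with b | b | b
      · exact hp (b ▸ pm.2)
      · exact h5 (by rw [b, ed_comm])
      · rw [b, ed_comm, s2] at h6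
        exact physa_spo_ne _ _ _ h6.symm
    have lΩ : lv r l ∉ Ω := fun a => h4 (Finset.mem_erase.2 ⟨lq, a⟩)
    have n1 : q ∉ r :: l := fun a => (h3.mem a).elim
      (fun b => (Finset.mem_erase.1 (Finset.mem_coe.1 b)).1 rfl) fun b => lq b.symm
    refine ⟨ch, List.nodup_cons.2 ⟨n1, h2⟩,
      ⟨hq, h3.mono (Finset.coe_subset.2 (Finset.erase_subset _ _))⟩, lΩ, k2 _ _ la pm.2 pm.1, h6,
      fun a ha aΩ c cΩ hc => ?_⟩
    rcases List.mem_cons.1 ha with rfl | ha
    · rcases h.all c hc with rfl | rfl | rfl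
      · exact Or.inl (ed_comm _ _)
      · exact absurd hr cΩ
      · exact Or.inr (Or.inr s2)
    · have := h7 a ha (Finset.mem_erase.2 ⟨fun e => n1 (e ▸ ha), aΩ⟩) c
        (fun d => cΩ (Finset.mem_of_mem_erase d)) hc
      rw [Function.update_of_ne (k1 _ _ hc cΩ)] at this
      exact Or.inr (this.resolve_left (k1 _ _ hc cΩ))

/-- the walks with a given first step -/
lemma physa_branch (hV : ∀ v ∈ Ω, Valid v) {s : Cfg} (hn : Nrm Ω s) {q p r r' : V}
    (h : PhysaTri q p r r') (hp : p ∉ Ω) (hq : q ∈ Ω) (o : Bool)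
    (ih : ∀ t, Nrm (Ω.erase q) t → r ∈ Ω.erase q → t (ed q r) = spo o q r →
      Z (Ω.erase q) t = ∑ᶠ l ∈ Pe (Ω.erase q) t o q r,
        wtb o q r l * Z (Ω.erase q \ (r :: l).toFinset) t) :
    (if (r ∈ Ω ∨ s (ed q r) = spo o q r) ∧ (r' ∈ Ω ∨ s (ed q r') = .o) then
      (xc : ℂ) * ph (if o then ex p q r else ex r q p) *
        Z (Ω.erase q) (Function.update (Function.update s (ed q r) (spo o q r)) (ed q r') .o)
      else 0) = ∑ᶠ l ∈ (List.cons r) '' {l | r :: l ∈ Pe Ω s o p q},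
        wtb o p q l * Z (Ω \ (q :: l).toFinset) s := by
  rw [finsum_mem_image (List.cons_injective.injOn)]
  have c2 : (r' ∈ Ω ∨ s (ed q r') = .o) ↔ s (ed q r') = .o :=
    ⟨fun a => a.elim (fun b => hn q hq r' b h.a2) id, Or.inr⟩
  have u : s (ed q r') = .o → Function.update (Function.update s (ed q r) (spo o q r)) (ed q r') .o =
      Function.update s (ed q r) (spo o q r) := fun a =>
    Function.update_eq_self_iff.2 (by rw [Function.update_of_ne (physa_ed_ne h.n3.symm), a])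
  simp only [c2]
  by_cases hr : r ∈ Ω
  · simp only [physa_in hn h hp hq hr, hr, true_or, true_and]
    by_cases a : s (ed q r') = .o
    swap
    · simp [a]
    have hr' := Finset.mem_erase.2 ⟨h.a1.ne.symm, hr⟩
    rw [if_pos a, u a, ih _ ?_ hr' (Function.update_self ..), mul_finsum_mem]
    · simp only [a, true_and, Set.ofPred_mem_eq]
      refine finsum_mem_congr rfl fun l _ => ?_
      have e : Ω.erase q \ (r :: l).toFinset = Ω \ (q :: r :: l).toFinset := by
        ext v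
        simp only [Finset.mem_sdiff, Finset.mem_erase, List.mem_toFinset, List.mem_cons]
        tauto
      rw [e, wtb, mul_assoc _ (wtb o q r l)]
      refine congrArg _ (congrArg _ ?_)
      refine Z_congr (fun v hv => hV v (Finset.mem_sdiff.1 hv).1) fun a ha c _ hc =>
        Function.update_of_ne (fun e => (Finset.mem_sdiff.1 ha).2 ?_) _ _
      rcases ed_inj hc h.a1 e with ⟨rfl, -⟩ | ⟨rfl, -⟩ <;> simp
    · intro b hb c hc hbc
      rw [Function.update_of_ne, hn b (Finset.mem_of_mem_erase hb) c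
        (Finset.mem_of_mem_erase hc) hbc]
      intro e
      rcases ed_inj hbc h.a1 e with ⟨rfl, -⟩ | ⟨-, rfl⟩
      · exact (Finset.mem_erase.1 hb).1 rfl
      · exact (Finset.mem_erase.1 hc).1 rfl
  · simp only [physa_out hn h hq hr, hr, false_or]
    by_cases a : s (ed q r) = spo o q r ∧ s (ed q r') = .o
    swap
    · simp [a]
    have e : Ω \ [q, r].toFinset = Ω.erase q := by
      ext v
      simp only [Finset.mem_sdiff, Finset.mem_erase, List.mem_toFinset, List.mem_cons,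
        List.not_mem_nil, or_false, not_or]
      exact ⟨fun b => ⟨b.2.1, b.1⟩, fun b => ⟨b.2, b.1, fun d => hr (d ▸ b.2)⟩⟩
    rw [if_pos a, u a.2, ← a.1, Function.update_eq_self]
    simp only [a, and_true, Set.ofPred_eq_eq_singleton, finsum_mem_singleton, wtb, mul_one, e]

theorem Z_peel (hV : ∀ v ∈ Ω, Valid v) {s : Cfg} (hn : Nrm Ω s) {p q : V} (hp : p ∉ Ω)
    (hq : q ∈ Ω) (h : Adj p q) (o : Bool) (hs : s (ed p q) = spo o p q) :
    Z Ω s = ∑ᶠ l ∈ Pe Ω s o p q, wtb o p q l * Z (Ω \ (q :: l).toFinset) s := by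
  induction hc : Ω.card using Nat.strong_induction_on generalizing Ω s p q with
  | _ n ih =>
  have T := physa_tri h
  have ih' : ∀ r, Adj q r → ∀ t, Nrm (Ω.erase q) t → r ∈ Ω.erase q → t (ed q r) = spo o q r →
      Z (Ω.erase q) t = ∑ᶠ l ∈ Pe (Ω.erase q) t o q r,
        wtb o q r l * Z (Ω.erase q \ (r :: l).toFinset) t := fun r hr t h1 h2 h3 =>
    ih _ (hc ▸ Finset.card_erase_lt_of_mem hq) (fun v hv => hV v (Finset.mem_of_mem_erase hv)) h1
      (Finset.notMem_erase q Ω) h2 hr h3 rfl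
  have fin : ∀ r, ((List.cons r) '' {l | r :: l ∈ Pe Ω s o p q}).Finite := fun r =>
    (Pe_finite Ω s o p q).subset (by rintro _ ⟨l, hl, rfl⟩; exact hl)
  rw [physa_erase hV hp hq h s _ fun t ht => physa_vw_arrow h o (ht.trans hs)]
  simp only [add_mul]
  rw [physa_mar_add, physa_term T hp hq, physa_term T.swap hp hq,
    physa_branch hV hn T hp hq o (ih' _ T.a1), physa_branch hV hn T.swap hp hq o (ih' _ T.a2),
    ← finsum_mem_union _ (fin _) (fin _)]
  · refine finsum_mem_congr ?_ fun _ _ => rfl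
    ext l
    constructor
    · rintro (⟨l, hl, rfl⟩ | ⟨l, hl, rfl⟩) <;> exact hl
    · intro hl
      rcases l with _ | ⟨r, l⟩
      · exact absurd hq hl.2.2.2.1
      rcases T.all r (List.isChain_cons_cons.1 hl.1).1 with rfl | rfl | rfl
      · rcases l with _ | ⟨u, l⟩
        · exact absurd (ed_comm _ _) hl.2.2.2.2.1
        · exact absurd hl.2.2.1.2.1 hp
      · exact Or.inl ⟨l, hl, rfl⟩
      · exact Or.inr ⟨l, hl, rfl⟩
  · rw [Set.disjoint_left]
    rintro _ ⟨l, -, rfl⟩ ⟨l', -, e⟩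
    exact T.n3 (List.cons.inj e).1.symm

/-! ### loops -/

/-- self-avoiding paths from `b` to `a` -/
def physaM (Ω : Finset V) (b a : V) : Set (List V) :=
  {c | (b :: c).IsChain Adj ∧ (b :: c).Nodup ∧ (∀ u ∈ b :: c, u ∈ Ω) ∧ lv b c = a}

lemma physa_rev {a b : V} {c : List V} (h : c ∈ physaM Ω b a) :
    (b :: c).reverse.tail ∈ physaM Ω a b ∧ (a :: (b :: c).reverse.tail).reverse.tail = c ∧
      (b :: c).reverse.tail.length = c.length := by
  obtain ⟨h1, h2, h3, rfl⟩ := h
  obtain ⟨d, e1, e2, e3⟩ := reverse_cons_lv b c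
  rw [e1, List.tail_cons]
  refine ⟨⟨?_, ?_, ?_, e2⟩, ?_, e3⟩
  · rw [← e1, List.isChain_reverse]
    exact h1.imp fun _ _ h => h.symm
  · rw [← e1]
    exact List.nodup_reverse.2 h2
  · rw [← e1]
    exact fun u hu => h3 u (List.mem_reverse.1 hu)
  · rw [← e1, List.reverse_reverse, List.tail_cons]

lemma physa_sym (a b : V) : ∑ᶠ c ∈ physaM Ω b a, (xc : ℂ) ^ c.length =
    ∑ᶠ c ∈ physaM Ω a b, (xc : ℂ) ^ c.length := by
  refine finsum_mem_eq_of_bijOn (fun c => (b :: c).reverse.tail)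
    (Set.InvOn.bijOn (f' := fun c => (a :: c).reverse.tail)
      ⟨fun c hc => (physa_rev hc).2.1, fun c hc => (physa_rev hc).2.1⟩
      (fun c hc => (physa_rev hc).1) fun c hc => (physa_rev hc).1) fun c hc => ?_
  rw [(physa_rev hc).2.2]

lemma physa_inn_concat {D : Set V} {b v : V} {c : List V} :
    Inn D b (c ++ [v]) ↔ ∀ u ∈ b :: c, u ∈ D := by
  induction c generalizing b with
  | nil => simp
  | cons u c ih => rw [List.cons_append, Inn_cons, ih, List.forall_mem_cons (a := b)]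

/-- the loops through the lowest vertex in one orientation -/
lemma physa_loop (hV : ∀ v ∈ Ω, Valid v) {v p a b : V} (h : PhysaTri v p b a) (hu : UpE p v)
    (hv : v ∉ Ω) (hp : p ∉ Ω) (ha : a ∈ Ω) (hb : b ∈ Ω) (hY : ∀ u ∈ Ω, cY p ≤ cY u)
    (ih : ∀ Ω' ⊆ Ω, ∀ t : Cfg, (∀ a ∈ Ω', ∀ c, c ∉ Ω' → Adj a c → t (ed a c) = .o) → Z Ω' t = 1) :
    (xc : ℂ) * ph (ex a v b) *
      Z Ω (Function.update (Function.update (fun _ => .o) (ed v b) (sp v b)) (ed v a) (sp a v)) =
      xc * ph (-4 * turn p v b) * xc * ∑ᶠ c ∈ physaM Ω b a, (xc : ℂ) ^ c.length := by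
  obtain ⟨t, ht⟩ : ∃ t : Cfg,
    t = Function.update (Function.update (fun _ => .o) (ed v b) (sp v b)) (ed v a) (sp a v) :=
    ⟨_, rfl⟩
  have t1 : t (ed v b) = sp v b := by
    rw [ht, Function.update_of_ne (physa_ed_ne h.n3), Function.update_self]
  have t2 : t (ed v a) = sp a v := by rw [ht, Function.update_self]
  have t3 : ∀ e, e ≠ ed v b → e ≠ ed v a → t e = .o := fun e e1 e2 => by
    rw [ht, Function.update_of_ne e2, Function.update_of_ne e1]
  have t4 : ∀ x y, Adj x y → x ∈ Ω → (y ≠ v ∨ (x ≠ a ∧ x ≠ b)) → t (ed x y) = .o :=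
    fun x y hxy hx hy => t3 _ (fun e => by
      rcases ed_inj hxy h.a1 e with ⟨rfl, -⟩ | ⟨rfl, rfl⟩
      · exact hv hx
      · tauto) fun e => by
      rcases ed_inj hxy h.a2 e with ⟨rfl, -⟩ | ⟨rfl, rfl⟩
      · exact hv hx
      · tauto
  have P : Pe Ω t true v b = (fun c => c ++ [v]) '' physaM Ω b a := by
    ext l
    constructor
    · rintro ⟨h1, h2, h3, h4, h5, h6, -⟩
      have la := physa_last (List.isChain_cons_cons.2 ⟨h.a1, h1⟩)
      have e : ed (pv v b l) (lv b l) = ed v a := by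
        by_contra e
        exact sp_ne_o _ _ (h6.symm.trans (t3 _ h5 e))
      rcases ed_inj la h.a2 e with ⟨-, e2⟩ | ⟨e1, e2⟩
      · exact absurd (e2 ▸ ha) h4
      rcases List.eq_nil_or_concat l with rfl | ⟨c, u, rfl⟩
      · exact absurd hb h4
      rw [List.concat_eq_append] at *
      simp only [lv_append, lv_cons, lv_nil, pv_append, pv_cons, pv_nil] at e1 e2
      subst e2
      exact ⟨c, ⟨List.IsChain.left_of_append (l₁ := b :: c) h1,
        (List.nodup_append.1 (show ((b :: c) ++ [u]).Nodup from h2)).1, physa_inn_concat.1 h3, e1⟩,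
        rfl⟩
    · rintro ⟨c, ⟨h1, h2, h3, h4⟩, rfl⟩
      have e1 : pv v b (c ++ [v]) = a := by simpa using h4
      have e2 : lv b (c ++ [v]) = v := by simp
      refine ⟨?_, ?_, physa_inn_concat.2 h3, by rwa [e2], ?_, ?_, fun x _ _ y _ _ => ?_⟩
      · have : ∀ (x : V) (l : List V), (x :: l).IsChain Adj → Adj (lv x l) v →
            (x :: (l ++ [v])).IsChain Adj := fun x l => by
          induction l generalizing x with
          | nil => intro _ k; simpa using k
          | cons y l ih =>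
            intro k1 k2
            exact List.isChain_cons_cons.2 ⟨(List.isChain_cons_cons.1 k1).1,
              ih y (List.isChain_cons_cons.1 k1).2 k2⟩
        exact this b c h1 (h4 ▸ h.a2.symm)
      · exact (List.nodup_append (l₁ := b :: c)).2 ⟨h2, by simp, fun x hx y hy e =>
          hv (by rw [← List.mem_singleton.1 hy, ← e]; exact h3 x hx)⟩
      · rw [e1, e2, ed_comm a]
        exact physa_ed_ne h.n3.symm
      · rw [e1, e2, ed_comm a, t2]
        rfl
      · rw [e1, e2, ed_comm a]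
        by_cases k1 : ed x y = ed v b
        · exact Or.inl k1
        by_cases k2 : ed x y = ed v a
        · exact Or.inr (Or.inl k2)
        exact Or.inr (Or.inr (t3 _ k1 k2))
  rw [← ht, Z_peel hV (fun x hx y hy hxy => t4 x y hxy hx (Or.inl fun e => hv (e ▸ hy))) hv hb
    h.a1 true t1, P, finsum_mem_image fun _ _ _ _ e => List.append_cancel_right e,
    mul_finsum_mem, mul_finsum_mem]
  refine finsum_mem_congr rfl fun c hc => ?_
  have hl : c ++ [v] ∈ Pe Ω t true v b := P ▸ ⟨c, hc, rfl⟩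
  obtain ⟨h1, h2, h3, h4⟩ := hc
  have hne : c ≠ [] := by
    rintro rfl
    exact h.n3 h4
  have nv : v ∉ b :: c := fun e => hv (h3 v e)
  have w1 := wex_eq (List.isChain_cons_cons.2 ⟨h.a1, hl.1⟩) hl.2.1 (by
    rcases c with _ | ⟨u, c⟩
    · exact absurd rfl hne
    · exact fun e => nv (by simp [← Option.some.inj e]))
  have w2 := physa_ex h.a2.symm h.a1 h.n3.symm
  have w3 := wind_close (l₁ := []) (a := b) (c := c) hu
    ⟨List.isChain_cons_cons.2 ⟨hu.adj, List.isChain_cons_cons.2 ⟨h.a1, h1⟩⟩,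
      List.nodup_cons.2 ⟨fun e => (List.mem_cons.1 e).elim hu.adj.ne fun e => hp (h3 p e),
        List.nodup_cons.2 ⟨nv, h2⟩⟩⟩
    (fun u hm => (List.mem_cons.1 hm).elim
      (fun e => e ▸ cY_le_of_mem hu hu.adj.valid_right le_rfl) fun e => hY u (h3 u e)) hne
    (h4 ▸ h.a2.symm)
  have w4 := (turn_other hu.adj h.a1 h.a2 h.n1 h.n2 h.n3).2
  simp only [lv_append, lv_cons, lv_nil, pv_append, pv_cons, pv_nil, h4, List.cons_append,
    wind_cons] at w1 w3
  have w5 : -4 * turn p v b = ex a v b + wex v b (c ++ [v]) := by omega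
  rw [ih _ Finset.sdiff_subset t, wtb_true, w5, ph_add, List.length_append, List.length_singleton,
    pow_succ]
  · ring
  · intro x hx y _ hxy
    rw [Finset.mem_sdiff, List.mem_toFinset] at hx
    refine t4 x y hxy hx.1 (Or.inr ⟨fun e => hx.2 ?_, fun e => hx.2 (by simp [e])⟩)
    rw [e, ← h4]
    exact List.mem_append_left (bs := [v]) (lv_mem b c)

/-- loops cancel -/
theorem Z_zero (hV : ∀ v ∈ Ω, Valid v) {s : Cfg}
    (h : ∀ a ∈ Ω, ∀ c, c ∉ Ω → Adj a c → s (ed a c) = .o) : Z Ω s = 1 := by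
  induction hc : Ω.card using Nat.strong_induction_on generalizing Ω s with
  | _ n ih =>
  rcases Ω.eq_empty_or_nonempty with rfl | hne
  · simp [Z, inE, mar_empty]
  obtain ⟨v, hv, hm⟩ := Ω.exists_min_image cY hne
  have hV' : ∀ u ∈ Ω.erase v, Valid u := fun u hu => hV u (Finset.mem_of_mem_erase hu)
  have ih' : ∀ Ω' ⊆ Ω.erase v, ∀ t : Cfg,
      (∀ a ∈ Ω', ∀ c, c ∉ Ω' → Adj a c → t (ed a c) = .o) → Z Ω' t = 1 := fun Ω' h1 t h2 =>
    ih _ (hc ▸ (Finset.card_le_card h1).trans_lt (Finset.card_erase_lt_of_mem hv))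
      (fun u hu => hV' u (h1 hu)) h2 rfl
  obtain ⟨p, hp, hpv, hu⟩ : ∃ p, p ∉ Ω ∧ Adj p v ∧ (Rt p v ∈ Ω → UpE p v) := by
    rcases hV v hv with e | e
    · refine ⟨⟨v.i + 1, v.j, v.k⟩, fun a => ?_, Adj.symm (Or.inl ⟨e, Or.inl rfl⟩), fun a => ?_⟩
      · have := hm _ a
        simp only [cY] at this
        omega
      · have := hm _ a
        simp only [cY, Rt] at this
        omega
    · refine ⟨⟨v.i, v.j, v.k - 1⟩, fun a => ?_, Adj.symm (Or.inr ⟨e, Or.inr (Or.inr rfl)⟩),
        fun _ => ⟨by simp only; omega, by simp⟩⟩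
      have := hm _ a
      simp only [cY] at this
      omega
  have T := physa_tri hpv
  rw [Z_congr hV (t := fun _ => .o) h, physa_erase hV hp hv hpv _ _
    fun t ht => physa_vw_empty hpv ht]
  simp only [add_mul]
  rw [physa_mar_add, physa_mar_add, physa_term T hp hv, physa_term T.swap hp hv,
    physa_term T hp hv, if_pos (by simp), ih' _ Finset.Subset.rfl _ (by simp), add_assoc]
  simp only [(sp_ne_o _ _).symm, or_false, one_mul, add_eq_left]
  by_cases a : Lf p v ∈ Ω ∧ Rt p v ∈ Ω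
  swap
  · rw [if_neg a, if_neg fun b => a b.symm, add_zero]
  have hu := hu a.2
  have p' : p ∉ Ω.erase v := fun b => hp (Finset.mem_of_mem_erase b)
  have l' := Finset.mem_erase.2 ⟨T.a1.ne.symm, a.1⟩
  have r' := Finset.mem_erase.2 ⟨T.a2.ne.symm, a.2⟩
  have hY : ∀ u ∈ Ω.erase v, cY p ≤ cY u := fun u b =>
    (cY_le_of_mem hu hpv.valid_right le_rfl).trans (hm u (Finset.mem_of_mem_erase b))
  rw [if_pos a, if_pos a.symm, physa_loop hV' T hu (Finset.notMem_erase _ _) p' r' l' hY ih',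
    physa_loop hV' T.swap hu (Finset.notMem_erase _ _) p' l' r' hY ih', turn_Lf, turn_Rt hpv,
    physa_sym]
  have f := ph_four
  norm_num
  linear_combination (xc : ℂ) * xc * (∑ᶠ c ∈ physaM (Ω.erase v) (Lf p v) (Rt p v),
    (xc : ℂ) ^ c.length) * f

end Pool.Agent.Lib.MP_4960b8_pr.QK
end

-- part Pool.Agent.Lib.MP_4960b8_pr.QK.CombA
section

/-! The step domain. -/

namespace Pool.Agent.Lib.MP_4960b8_pr.QK

open SAW Filter Topology

/-! ### partition functions and finite families -/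

lemma comba_Zc_le {A : Set (List V)} {c : ℝ}
    (h : ∀ S : Set (List V), S.Finite → S ⊆ A → mu S ≤ c) :
    Summable (fun γ : A => xc ^ γ.1.length) ∧ Zc A ≤ c := by
  have H : ∀ u : Finset A, ∑ γ ∈ u, xc ^ γ.1.length ≤ c := fun u => by
    have := h (u.map (Function.Embedding.subtype _)) (Finset.finite_toSet _) (fun γ hγ => by
      obtain ⟨x, -, rfl⟩ := Finset.mem_map.1 hγ
      exact x.2)
    rwa [mu, ms, finsum_mem_coe_finset, Finset.sum_map] at this
  have s := summable_of_sum_le (fun γ : A => (pow_pos xc_pos γ.1.length).le) H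
  exact ⟨s, s.tsum_le_of_sum_le H⟩

lemma comba_le_Zc {A S : Set (List V)} (hA : Summable fun γ : A => xc ^ γ.1.length)
    (hS : S.Finite) (h : S ⊆ A) : mu S ≤ Zc A := by
  have e : Zc A = ∑' γ, A.indicator wt γ := tsum_subtype A wt
  have s : Summable (A.indicator wt) := summable_subtype_iff_indicator.1 hA
  rw [e, mu, ms_eq_sum hS]
  refine le_trans (le_of_eq (Finset.sum_congr rfl fun γ hγ => ?_))
    (s.sum_le_tsum _ fun γ _ => Set.indicator_nonneg (fun l _ => (wt_pos l).le) γ)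
  rw [Set.indicator_of_mem (h (hS.mem_toFinset.1 hγ))]

lemma comba_mu_image {S : Set (List V)} (hS : S.Finite) (e : List V → List V)
    (he : Set.InjOn e S) (hl : ∀ l ∈ S, (e l).length = l.length + 1) :
    mu (e '' S) = xc * mu S := by
  rw [mu, ms_image e he]
  exact ms_eq_mul hS fun l h => by simp [wt, hl l h, pow_succ, mul_comm]

lemma comba_ext {p q z : V} {m : List V} (h : Saw p q m) (ha : Adj (lv q m) z)
    (hz : z ∉ p :: q :: m) : Saw p q (m ++ [z]) := by
  refine saw_append.2 ⟨h, saw_cons.2 ⟨h.adj_last, ?_, saw_nil.2 ha⟩, fun u hu e => hz ?_⟩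
  · simp only [List.mem_cons, List.not_mem_nil, or_false, not_or]
    exact ⟨h.adj_last.ne, fun e => hz (e ▸ pv_mem p q m)⟩
  · rw [← List.mem_singleton.1 e]; exact hu

lemma comba_mem {T : ℕ} {γ : List V} (h : γ ∈ bridges T) : ∃ m, γ = q0 :: m ∧ Saw p0 q0 m ∧
    (∀ v ∈ q0 :: m, 0 ≤ v.k ∧ v.k < T) ∧ (lv q0 m).k = T - 1 ∧
      (lv q0 m).i + (lv q0 m).j + (lv q0 m).k = 1 := by
  obtain ⟨h1, h2, h3, h4, b, h5, h6, h7⟩ := h
  rcases γ with _ | ⟨x, m⟩
  · simp at h3
  · obtain rfl : x = q0 := Option.some.inj h3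
    rw [getLast?_lv] at h5
    obtain rfl : lv q0 m = b := by simpa using h5
    exact ⟨m, rfl, ⟨List.isChain_cons_cons.2 ⟨up0.adj, h1⟩, List.nodup_cons.2
      ⟨fun a => by have := (h4 _ a).1; simp [p0] at this, h2⟩⟩, h4, h6, h7⟩

lemma comba_mem' {T : ℕ} {p : V} {m : List V} (h : Saw p q0 m)
    (h1 : ∀ v ∈ q0 :: m, 0 ≤ v.k ∧ v.k < T) (h2 : (lv q0 m).k = T - 1)
    (h3 : (lv q0 m).i + (lv q0 m).j + (lv q0 m).k = 1) : q0 :: m ∈ bridges T :=
  ⟨(List.isChain_cons_cons.1 h.1).2, (List.nodup_cons.1 h.2).2, rfl, h1, _, getLast?_lv _ _,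
    h2, h3⟩

lemma comba_symid : IsSym id := ⟨Function.injective_id, fun _ _ h => h⟩

lemma comba_fin_le (T : ℕ) (S : Set (List V)) (hS : S.Finite) (h : S ⊆ bridges T) :
    mu S ≤ 1 := by
  refine (mu_le_of_inj (hS.image _)
    (fun γ => γ.tail ++ [⟨(lv q0 γ).i, (lv q0 γ).j, (lv q0 γ).k + 1⟩])
    (fun γ hγ => Set.mem_image_of_mem _ hγ) (fun a ha b hb e => ?_) fun γ hγ => ?_).trans
    ((brg_le_bb comba_symid rfl rfl T (hS.image _) ?_).trans (bb_le_one T))
  · obtain ⟨m, rfl, -⟩ := comba_mem (h ha)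
    obtain ⟨m', rfl, -⟩ := comba_mem (h hb)
    rw [show m = m' from (List.append_inj' e rfl).1]
  · obtain ⟨m, rfl, -⟩ := comba_mem (h hγ)
    simp
  · rintro _ ⟨γ, hγ, rfl⟩
    obtain ⟨m, rfl, h1, h2, h3, h4⟩ := comba_mem (h hγ)
    refine ⟨comba_ext h1 (Or.inl ⟨h4, Or.inr (Or.inr rfl)⟩) fun hm => ?_, Inn_concat.2 h2, ?_⟩
    · have h0 := (h2 _ (lv_mem q0 m)).1
      rcases List.mem_cons.1 hm with e | hm
      · have : (lv q0 m).k + 1 = -1 := congrArg V.k e
        omega
      · have : (lv q0 m).k + 1 < T := (h2 _ hm).2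
        omega
    · simp [h3]

theorem bridges_summable (T : ℕ) : Summable fun γ : bridges T => xc ^ γ.1.length :=
  (comba_Zc_le (comba_fin_le T)).1

theorem bridges_le_one (T : ℕ) : Zc (bridges T) ≤ 1 := (comba_Zc_le (comba_fin_le T)).2

/-! ### the flux identity -/

/-- mass of the walks from the bottom edge of the column `j` whose last vertex satisfies `P` -/
noncomputable def comba_m (D : Set V) (P : V → Prop) (j : ℤ) : ℝ :=
  mu {l | l ∈ Exit D (pB j) (qB j) ∧ P (lv (qB j) l)}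

/-- total mass over the columns `a ≤ j < b` -/
noncomputable def comba_M (D : Set V) (a b : ℤ) (P : V → Prop) : ℝ :=
  ∑ j ∈ Finset.Ico a b, comba_m D P j

/-- staircase domains -/
structure comba_St (D : Set V) (a b : ℤ) : Prop where
  fin : D.Finite
  conv : Conv D
  ab : ∀ u ∈ D, 0 ≤ u.k ∧ u.j < b
  bot : ∀ j, qB j ∈ D ↔ a ≤ j ∧ j < b
  cl : ∀ u ∈ D, ∀ v, Adj u v → v ∉ D → v.k < 0 ∨ v.k = u.k + 1 ∨ v.j = u.j - 1 ∨ v.j = b

lemma comba_up (j : ℤ) : UpE (pB j) (qB j) := ⟨by simp [pB], by simp [pB, qB]⟩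

lemma comba_St.good {D : Set V} {a b : ℤ} (h : comba_St D a b) (j : ℤ) :
    SAW.Good D (pB j) (qB j) := ⟨comba_up j, h.fin, h.conv, fun u hu => (h.ab u hu).1⟩

open Classical in
lemma comba_m_eq {D : Set V} (hD : D.Finite) (P : V → Prop) (j : ℤ) : comba_m D P j =
    ∑ l ∈ (finite_exit hD (pB j) (qB j)).toFinset, if P (lv (qB j) l) then wt l else 0 := by
  rw [← Finset.sum_filter, comba_m, mu,
    ms_eq_sum ((finite_exit hD (pB j) (qB j)).subset fun _ h => h.1)]
  refine Finset.sum_congr ?_ fun _ _ => rfl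
  ext l
  simp

lemma comba_arc {D : Set V} {a b : ℤ} (h : comba_St D a b) (j j' : ℤ) :
    comba_m D (· = pB j') j ≤ comba_m D (· = pB j) j' := by
  have key : ∀ l ∈ {l | l ∈ Exit D (pB j) (qB j) ∧ lv (qB j) l = pB j'},
      pv (pB j) (qB j) l = qB j' ∧ lv (qB j) l = pB j' := fun l hl => by
    have := ((h.good j).bot hl.1 (by rw [hl.2]; simp [pB, qB])).2.2.2.2.1
    rw [hl.2] at this
    exact ⟨this, hl.2⟩
  refine mu_le_rev comba_symid ((h.good j').finP _) key fun l hl => ?_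
  obtain ⟨e1, e2⟩ := key l hl
  have a1 := hl.1.1.rev
  have a2 := hl.1.2.1.rev (p := pB j)
  have a3 := lv_rev (pB j) (qB j) l
  rw [e1] at a1 a2 a3
  rw [e2] at a1
  rw [List.map_id]
  refine ⟨⟨a1, a2, fun hm => ?_⟩, a3⟩
  have := (h.ab _ hm).1
  rw [a3] at this
  simp [pB] at this

lemma comba_sin : Real.sin (Real.pi / 8 * ((-2 : ℤ) : ℝ)) = -(2 * s8 * c8) := by
  rw [s8, c8, ← Real.sin_two_mul, ← Real.sin_neg]
  congr 1
  push_cast
  ring

open Classical in
lemma comba_im {D : Set V} {a b : ℤ} (h : comba_St D a b) {P : V → Prop}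
    (hP : ∀ u ∈ D, ∀ v, Adj u v → v ∉ D → (P v ↔ v.j = u.j - 1)) {j : ℤ} (hj : a ≤ j ∧ j < b)
    {l : List V} (hl : l ∈ Exit D (pB j) (qB j)) :
    im (pB j) (qB j) l = s8 * (if P (lv (qB j) l) then wt l else 0) -
      2 * s8 * c8 * (if (lv (qB j) l).j = b then wt l else 0) +
      ∑ j' ∈ Finset.Ico a b, c8 * (Int.sign (j - j') : ℝ) *
        (if lv (qB j) l = pB j' then wt l else 0) := by
  have g := h.good j
  have hu := Exit.pv_mem hl ((h.bot j).2 hj)
  have ad := hl.1.adj_last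
  have ad' := adj_iff.1 ad
  have hP' := hP _ hu _ ad hl.2.2
  obtain ⟨u0, ub⟩ := h.ab _ hu
  by_cases hk : (lv (qB j) l).k < 0
  · obtain ⟨-, -, b1, b2, b3, b4⟩ := g.bot hl hk
    obtain ⟨c1, c2⟩ := g.im_bot hl hk
    change _ = 2 - j + j at b2
    change _ ≠ 2 - j at b4
    have b5 : (lv (qB j) l).i = 2 - (lv (qB j) l).j := by omega
    have e : lv (qB j) l = pB (lv (qB j) l).j := V.ext b5 rfl b1
    have hq : pv (pB j) (qB j) l = qB (lv (qB j) l).j := b3.trans (V.ext b5 rfl rfl)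
    have hj' := (h.bot _).1 (hq ▸ hu)
    rw [if_neg (fun c => by have := hP'.1 c; omega), if_neg (by omega),
      Finset.sum_eq_single (lv (qB j) l).j (fun j' _ hne => by
        rw [if_neg (fun c => hne (by rw [c]; rfl)), mul_zero])
        (fun hn => absurd (Finset.mem_Ico.2 hj') hn), if_pos e]
    rcases lt_or_ge (lv (qB j) l).i (2 - j) with c | c
    · rw [Int.sign_eq_neg_one_of_neg (by omega), c1 c]; push_cast; ring
    · rw [Int.sign_eq_one_of_pos (by omega), c2 c]; push_cast; ring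
  · rw [Finset.sum_eq_zero fun j' _ => by
      rw [if_neg (fun c => hk (by rw [c]; simp [pB])), mul_zero]]
    rcases h.cl _ hu _ ad hl.2.2 with c | c | c | c
    · exact absurd c hk
    · rw [if_neg (fun c => by have := hP'.1 c; omega), if_neg (by omega), im, g.wind_top hl c]
      simp
    · rw [if_pos (hP'.2 c), if_neg (by omega), (g.om_l hl c).2]
      ring
    · have w1 := wind_right g.up hl.1 (cY_le_inn g.up g.ab hl.1 hl.2.1) fun u hm hh => by
        have v1 := hl.1.valid hm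
        obtain ⟨y1, y2⟩ := hh
        unfold cY at y1
        unfold cX at y2
        unfold Valid at v1
        rcases Exit.cases hl hm with e | e | e
        · rw [e] at y1; simp only [pB] at y1; omega
        · have := (h.ab u e).2; omega
        · rw [e] at y2; omega
      have w2 := hl.1.wind_mod
      rw [g.up.dirI, dirI, if_neg (by omega), if_neg (by omega), if_neg (by omega),
        if_neg (by omega), if_pos (by omega)] at w2
      have w3 : wind (pB j) (qB j) l = -2 := by omega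
      rw [if_neg (fun c => by have := hP'.1 c; omega), if_pos c, im, w3, comba_sin]
      ring

theorem comba_flux {D : Set V} {a b : ℤ} (h : comba_St D a b) {P : V → Prop}
    (hP : ∀ u ∈ D, ∀ v, Adj u v → v ∉ D → (P v ↔ v.j = u.j - 1)) :
    xc * comba_M D a b P = comba_M D a b (·.j = b) := by
  have e1 : ∀ j ∈ Finset.Ico a b, s8 * comba_m D P j - 2 * s8 * c8 * comba_m D (·.j = b) j +
      ∑ j' ∈ Finset.Ico a b, c8 * (Int.sign (j - j') : ℝ) * comba_m D (· = pB j') j = 0 := by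
    intro j hj
    have := (h.good j).ident_im
    rw [ms_eq_sum (finite_exit h.fin _ _), Finset.sum_congr rfl fun l hl =>
      comba_im h hP (Finset.mem_Ico.1 hj) ((Set.Finite.mem_toFinset _).1 hl),
      Finset.sum_add_distrib, Finset.sum_sub_distrib, Finset.sum_comm] at this
    simp only [comba_m_eq h.fin, Finset.mul_sum]
    convert this
  have e2 := Finset.sum_eq_zero e1
  rw [Finset.sum_add_distrib, Finset.sum_sub_distrib, ← Finset.mul_sum, ← Finset.mul_sum] at e2
  have e3 : ∑ j ∈ Finset.Ico a b, ∑ j' ∈ Finset.Ico a b,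
      c8 * (Int.sign (j - j') : ℝ) * comba_m D (· = pB j') j =
      -∑ j ∈ Finset.Ico a b, ∑ j' ∈ Finset.Ico a b,
      c8 * (Int.sign (j - j') : ℝ) * comba_m D (· = pB j') j := by
    conv_rhs => rw [Finset.sum_comm]
    simp only [← Finset.sum_neg_distrib]
    refine Finset.sum_congr rfl fun j _ => Finset.sum_congr rfl fun j' _ => ?_
    rw [le_antisymm (comba_arc h j j') (comba_arc h j' j), ← neg_sub j j', Int.sign_neg]
    push_cast
    ring
  have e4 : comba_M D a b P = 2 * c8 * comba_M D a b (·.j = b) :=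
    mul_left_cancel₀ s8_pos.ne' (by unfold comba_M; linarith)
  have e5 := xc_cos
  rw [e4, ← mul_assoc, c8, e5, one_mul]

/-! ### comparison of domains -/

lemma comba_m_nonneg (D : Set V) (P : V → Prop) (j : ℤ) : 0 ≤ comba_m D P j := mu_nonneg _

lemma comba_gp (c j : ℤ) : gT (-c) c 0 (pB j) = pB (j + c) := V.ext (by
  show 2 - j + -c = 2 - (j + c); ring) rfl rfl

lemma comba_gq (c j : ℤ) : gT (-c) c 0 (qB j) = qB (j + c) := V.ext (by
  show 2 - j + -c = 2 - (j + c); ring) rfl rfl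

lemma comba_M_le {D D' : Set V} {a b a' b' : ℤ} (c : ℤ) {P P' : V → Prop} (hf : D'.Finite)
    (hD : ∀ u ∈ D, gT (-c) c 0 u ∈ D') (ha : a' ≤ a + c) (hb : b + c ≤ b')
    (hP : ∀ v, P v → gT (-c) c 0 v ∉ D' ∧ P' (gT (-c) c 0 v)) :
    comba_M D a b P ≤ comba_M D' a' b' P' := by
  have hg : IsSym (gT (-c) c 0) := sym_T (by ring)
  have e1 : comba_M D a b P ≤ ∑ j ∈ Finset.Ico a b, comba_m D' P' (j + c) := by
    refine Finset.sum_le_sum fun j _ => mu_le_map hg
      ((finite_exit hf _ _).subset fun _ h => h.1) fun l hl => ?_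
    rw [Set.mem_ofPred_eq, Exit, Set.mem_ofPred_eq, ← comba_gp, ← comba_gq, lv_map]
    exact ⟨⟨hl.1.1.map hg, hl.1.2.1.map hD, (hP _ hl.2).1⟩, (hP _ hl.2).2⟩
  refine e1.trans ?_
  rw [Finset.sum_Ico_add' (comba_m D' P')]
  exact Finset.sum_le_sum_of_subset_of_nonneg (Finset.Ico_subset_Ico ha hb)
    fun j _ _ => comba_m_nonneg _ _ _

lemma comba_M_or {D : Set V} (hf : D.Finite) (a b : ℤ) {P Q : V → Prop} (h : ∀ v, P v → ¬ Q v) :
    comba_M D a b (fun v => P v ∨ Q v) = comba_M D a b P + comba_M D a b Q := by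
  rw [comba_M, comba_M, comba_M, ← Finset.sum_add_distrib]
  refine Finset.sum_congr rfl fun j _ => ?_
  simp only [comba_m_eq hf, ← Finset.sum_add_distrib]
  refine Finset.sum_congr rfl fun l _ => ?_
  have := h (lv (qB j) l)
  by_cases h1 : P (lv (qB j) l) <;> by_cases h2 : Q (lv (qB j) l) <;> simp_all

lemma comba_mem_box {a b : ℤ} {T : ℕ} {v : V} : v ∈ box a b T ↔
    (v.i + v.j + v.k = 1 ∨ v.i + v.j + v.k = 2) ∧ 0 ≤ v.k ∧ v.k < T ∧ a ≤ v.j ∧ v.j < b := Iff.rfl

lemma comba_box_fin (a b : ℤ) (T : ℕ) : (box a b T).Finite :=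
  (Tr_finite (1 - b - T) a 0).subset fun v hv => by
    rw [mem_Tr]; rw [comba_mem_box] at hv; omega

lemma comba_box_st (a b : ℤ) {T : ℕ} (hT : 1 ≤ T) : comba_St (box a b T) a b := by
  refine ⟨comba_box_fin a b T, fun x hx y hy z v1 v2 v3 e1 e2 e3 e4 => ?_, fun u hu => ?_,
    fun j => ?_, fun u hu v ad hv => ?_⟩
  · rw [comba_mem_box] at *
    unfold Valid cX cY at *
    omega
  · rw [comba_mem_box] at hu; omega
  · rw [comba_mem_box]; simp only [qB]; omega
  · rw [comba_mem_box] at hu hv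
    rw [adj_iff] at ad
    omega

/-- mass of the exits of a box through its right side -/
noncomputable def comba_R (a b : ℤ) (T : ℕ) : ℝ := comba_M (box a b T) a b (·.j = b)
/-- mass of the exits of a box through its left side -/
noncomputable def comba_L (a b : ℤ) (T : ℕ) : ℝ := comba_M (box a b T) a b (·.j = a - 1)

lemma comba_LR (a b : ℤ) {T : ℕ} (hT : 1 ≤ T) : xc * comba_L a b T = comba_R a b T :=
  comba_flux (comba_box_st a b hT) fun u hu v ad hv => by
    rw [comba_mem_box] at hu hv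
    rw [adj_iff] at ad
    omega

lemma comba_R_le {a b a' b' : ℤ} (T : ℕ) (h : b - a = b' - a') :
    comba_R a b T ≤ comba_R a' b' T :=
  comba_M_le (a' - a) (comba_box_fin _ _ _)
    (fun u hu => by rw [comba_mem_box] at *; simp only [gT]; omega) (by omega) (by omega)
    fun v hv => by rw [comba_mem_box]; simp only [gT]; omega

lemma comba_R_eq {a b : ℤ} (T N : ℕ) (h : b - a = N) : comba_R a b T = RT T N := by
  rw [le_antisymm (comba_R_le (a' := -N) (b' := 0) T (by omega)) (comba_R_le T (by omega))]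
  unfold comba_R comba_M RT
  symm
  refine Finset.sum_nbij' (fun i : ℕ => -1 - (i : ℤ)) (fun j => (-1 - j).toNat) ?_ ?_ ?_ ?_
    fun _ _ => rfl
  all_goals simp only [Finset.mem_range, Finset.mem_Ico]; intros; omega

/-! ### the step domain -/

def comba_D (T N : ℕ) : Set V := {v | (v.i + v.j + v.k = 1 ∨ v.i + v.j + v.k = 2) ∧ 0 ≤ v.k ∧
  v.k ≤ T ∧ -(N : ℤ) ≤ v.j ∧ v.j < N ∧ (v.k < T ∨ 0 ≤ v.j)}

lemma comba_mem_D {T N : ℕ} {v : V} : v ∈ comba_D T N ↔
    (v.i + v.j + v.k = 1 ∨ v.i + v.j + v.k = 2) ∧ 0 ≤ v.k ∧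
      v.k ≤ T ∧ -(N : ℤ) ≤ v.j ∧ v.j < N ∧ (v.k < T ∨ 0 ≤ v.j) := Iff.rfl

lemma comba_D_fin (T N : ℕ) : (comba_D T N).Finite :=
  (comba_box_fin (-N) N (T + 1)).subset fun v hv => by
    rw [comba_mem_box]; rw [comba_mem_D] at hv; omega

lemma comba_D_st {T : ℕ} (hT : 1 ≤ T) (N : ℕ) : comba_St (comba_D T N) (-N) N := by
  refine ⟨comba_D_fin T N, fun x hx y hy z v1 v2 v3 e1 e2 e3 e4 => ?_, fun u hu => ?_,
    fun j => ?_, fun u hu v ad hv => ?_⟩
  · rw [comba_mem_D] at *
    unfold Valid cX cY at *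
    omega
  · rw [comba_mem_D] at hu; omega
  · rw [comba_mem_D]; simp only [qB]; omega
  · rw [comba_mem_D] at hu hv
    rw [adj_iff] at ad
    omega

/-- mass of the exits of the step domain through the step -/
noncomputable def comba_X (T N : ℕ) : ℝ := comba_M (comba_D T N) (-N) N (· = ⟨2 - T, -1, T⟩)

lemma comba_step_flux {T N : ℕ} (hT : 1 ≤ T) (hN : 1 ≤ N) :
    xc * comba_M (comba_D T N) (-N) N (·.j = -N - 1) + xc * comba_X T N =
      comba_M (comba_D T N) (-N) N (·.j = N) := by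
  rw [← mul_add, comba_X, ← comba_M_or (comba_D_fin T N) _ _ fun v h1 h2 => by
    rw [h2] at h1; dsimp only at h1; omega]
  refine comba_flux (comba_D_st hT N) fun u hu v ad hv => ?_
  rw [comba_mem_D] at hu hv
  rw [adj_iff] at ad
  rw [V.ext_iff]
  dsimp only
  omega

lemma comba_left_le (T N : ℕ) :
    comba_M (comba_D T N) (-N) N (·.j = -N - 1) + comba_L (-N) 0 (T + 1) ≤
      comba_L (-N) 0 T + comba_L (-N) N (T + 1) := by
  have sub : Finset.Ico (-N : ℤ) 0 ⊆ Finset.Ico (-N : ℤ) N :=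
    Finset.Ico_subset_Ico le_rfl (by omega)
  have e1 : comba_L (-N) 0 (T + 1) ≤ comba_M (box (-N) 0 (T + 1)) (-N) N (·.j = -N - 1) :=
    Finset.sum_le_sum_of_subset_of_nonneg sub fun j _ _ => comba_m_nonneg _ _ j
  have e2 : comba_L (-N) 0 T = comba_M (box (-N) 0 T) (-N) N (·.j = -N - 1) := by
    refine Finset.sum_subset sub fun j h1 h2 => ?_
    rw [Finset.mem_Ico] at h1 h2
    rw [comba_m, Set.eq_empty_of_forall_notMem (s := {l | _}) fun l hl => ?_, mu, ms_empty]
    rcases l with _ | ⟨r, l⟩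
    · have : j = -N - 1 := hl.2
      omega
    · have : j < 0 := hl.1.2.1.1.2.2.2.2
      omega
  rw [e2]
  refine le_trans (add_le_add le_rfl e1) ?_
  rw [comba_L, comba_M, comba_M, comba_M, comba_M, ← Finset.sum_add_distrib,
    ← Finset.sum_add_distrib]
  refine Finset.sum_le_sum fun j _ => ?_
  have f : ∀ {D : Set V}, D.Finite → ∀ P : List V → Prop,
      {l | l ∈ Exit D (pB j) (qB j) ∧ P l}.Finite :=
    fun hD P => (finite_exit hD _ _).subset fun _ h => h.1
  unfold comba_m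
  rw [mu_split (f (comba_D_fin T N) _) (Inn {v | v.j < 0} (qB j)),
    mu_split (f (comba_box_fin (-N) N (T + 1)) _) (Inn {v | v.j < 0} (qB j))]
  have i1 := mu_mono (f (comba_box_fin (-N) 0 T) fun l => (lv (qB j) l).j = -N - 1)
    (S := {l | l ∈ {l | l ∈ Exit (comba_D T N) (pB j) (qB j) ∧ (lv (qB j) l).j = -N - 1} ∧
      Inn {v | v.j < 0} (qB j) l}) fun l hl =>
    ⟨⟨hl.1.1.1, (Inn_inter.2 ⟨hl.1.1.2.1, hl.2⟩).mono fun u hu => by
        have h1 := comba_mem_D.1 hu.1
        have h2 : u.j < 0 := hu.2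
        rw [comba_mem_box]; omega,
      fun hm => by have := hl.1.2; rw [comba_mem_box] at hm; omega⟩, hl.1.2⟩
  have i2 := mu_mono ((f (comba_box_fin (-N) N (T + 1)) fun l => (lv (qB j) l).j = -N - 1).subset
      (t := {l | l ∈ {l | l ∈ Exit (box (-N) N (T + 1)) (pB j) (qB j) ∧ (lv (qB j) l).j = -N - 1} ∧
      ¬ Inn {v | v.j < 0} (qB j) l}) fun _ h => h.1)
    (S := {l | l ∈ {l | l ∈ Exit (comba_D T N) (pB j) (qB j) ∧ (lv (qB j) l).j = -N - 1} ∧
      ¬ Inn {v | v.j < 0} (qB j) l}) fun l hl =>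
    ⟨⟨⟨hl.1.1.1, hl.1.1.2.1.mono fun u hu => by
        rw [comba_mem_D] at hu; rw [comba_mem_box]; omega,
      fun hm => by have := hl.1.2; rw [comba_mem_box] at hm; omega⟩, hl.1.2⟩, hl.2⟩
  have i3 := mu_mono ((f (comba_box_fin (-N) N (T + 1)) fun l => (lv (qB j) l).j = -N - 1).subset
      (t := {l | l ∈ {l | l ∈ Exit (box (-N) N (T + 1)) (pB j) (qB j) ∧ (lv (qB j) l).j = -N - 1} ∧
      Inn {v | v.j < 0} (qB j) l}) fun _ h => h.1)
    (S := {l | l ∈ Exit (box (-N) 0 (T + 1)) (pB j) (qB j) ∧ (lv (qB j) l).j = -N - 1})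
    fun l hl =>
    ⟨⟨⟨hl.1.1, hl.1.2.1.mono fun u hu => by rw [comba_mem_box] at *; omega,
      fun hm => by have := hl.2; rw [comba_mem_box] at hm; omega⟩, hl.2⟩,
      hl.1.2.1.mono fun u hu => hu.2.2.2.2⟩
  linarith

lemma comba_gT0 (v : V) : gT (-0) 0 0 v = v := by simp [gT]

lemma comba_X_bounds {T N : ℕ} (hT : 1 ≤ T) (hN : 1 ≤ N) :
    2 * RT (T + 1) N - RT T N - RT (T + 1) (2 * N) ≤ xc * comba_X T N ∧
      xc * comba_X T N ≤ RT (T + 1) (2 * N) - RT T N := by
  have e0 := comba_step_flux hT hN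
  have e1 := mul_le_mul_of_nonneg_left (comba_left_le T N) xc_pos.le
  have r1 := comba_R_eq (a := -N) (b := 0) (T + 1) N (by omega)
  have r2 := comba_R_eq (a := -N) (b := 0) T N (by omega)
  have r3 := comba_R_eq (a := -N) (b := N) (T + 1) (2 * N) (by omega)
  have r4 := comba_R_eq (a := 0) (b := N) (T + 1) N (by omega)
  rw [mul_add, mul_add, comba_LR _ _ hT, comba_LR _ _ (by omega), comba_LR _ _ (by omega),
    r1, r2, r3] at e1
  have e2 : comba_R 0 N (T + 1) ≤ comba_M (comba_D T N) (-N) N (·.j = N) :=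
    comba_M_le 0 (comba_D_fin T N) (fun u hu => by
      rw [comba_gT0, comba_mem_D]; rw [comba_mem_box] at hu; omega) (by omega) (by omega)
      fun v hv => by rw [comba_gT0, comba_mem_D]; omega
  have e3 : comba_M (comba_D T N) (-N) N (·.j = N) ≤ comba_R (-N) N (T + 1) :=
    comba_M_le 0 (comba_box_fin _ _ _) (fun u hu => by
      rw [comba_gT0, comba_mem_box]; rw [comba_mem_D] at hu; omega) (by omega) (by omega)
      fun v hv => by rw [comba_gT0, comba_mem_box]; omega
  have e4 : comba_L (-N) 0 T ≤ comba_M (comba_D T N) (-N) N (·.j = -N - 1) :=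
    comba_M_le 0 (comba_D_fin T N) (fun u hu => by
      rw [comba_gT0, comba_mem_D]; rw [comba_mem_box] at hu; omega) (by omega) (by omega)
      fun v hv => by rw [comba_gT0, comba_mem_D]; omega
  have e5 := mul_le_mul_of_nonneg_left e4 xc_pos.le
  rw [comba_LR _ _ hT, r2] at e5
  constructor <;> linarith

/-! ### exits through the step and bridges -/

lemma comba_X_le (T N : ℕ) : xc * comba_X T N ≤ Zc (bridges (T + 1)) := by
  have f := fun j => (comba_D_fin T N |> fun h => finite_exit h (pB j) (qB j)).subset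
    (t := {l | l ∈ Exit (comba_D T N) (pB j) (qB j) ∧ lv (qB j) l = ⟨2 - T, -1, T⟩}) fun _ h => h.1
  have hg : ∀ j : ℤ, IsSym (gT (-(1 - j)) (1 - j) 0) := fun j => sym_T (by ring)
  have hq : ∀ j : ℤ, gT (-(1 - j)) (1 - j) 0 (qB j) = q0 := fun j => by
    rw [comba_gq]; simp [qB, q0]
  have e : ∀ j, mu ((fun l => q0 :: l.map (gT (-(1 - j)) (1 - j) 0)) ''
      {l | l ∈ Exit (comba_D T N) (pB j) (qB j) ∧ lv (qB j) l = ⟨2 - T, -1, T⟩}) =
      xc * comba_m (comba_D T N) (· = ⟨2 - T, -1, T⟩) j := fun j =>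
    comba_mu_image (f j) _
      (fun a _ b _ e => List.map_injective_iff.2 (hg j).1 (List.cons.inj e).2) fun l _ => by simp
  have hl : ∀ j l, lv (qB j) l = ⟨2 - T, -1, T⟩ →
      lv q0 (l.map (gT (-(1 - j)) (1 - j) 0)) = ⟨2 - T + -(1 - j), -1 + (1 - j), T + 0⟩ :=
    fun j l h => by rw [← hq j, lv_map, h]; rfl
  rw [comba_X, comba_M, Finset.mul_sum]
  simp only [← e]
  unfold mu
  rw [← ms_biUnion _ _ (fun j _ => (f j).image _) fun j _ j' _ hne => Set.disjoint_left.2 ?_]
  · refine comba_le_Zc (bridges_summable _)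
      (Set.Finite.biUnion (Finset.finite_toSet _) fun j _ => (f j).image _)
      (Set.iUnion₂_subset fun j _ => ?_)
    rintro _ ⟨l, ⟨h1, h2⟩, rfl⟩
    have a1 := h1.1.map (hg j)
    rw [hq] at a1
    refine comba_mem' a1 (fun v hv => ?_) (by rw [hl j l h2]; dsimp only; omega)
      (by rw [hl j l h2]; dsimp only; omega)
    rw [← hq j, ← List.map_cons] at hv
    obtain ⟨u, hu, rfl⟩ := List.mem_map.1 hv
    simp only [gT]
    rcases h1.2.1.mem hu with a | a
    · rw [comba_mem_D] at a; omega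
    · rw [a, h2]; dsimp only; omega
  · rintro _ ⟨l, h1, rfl⟩ ⟨l', h2, e'⟩
    have a1 := hl j l h1.2
    rw [← (List.cons.inj e').2, hl j' l' h2.2, V.ext_iff] at a1
    dsimp only at a1
    omega

lemma comba_le_X {T : ℕ} {S : Set (List V)} (hS : S.Finite) (h : S ⊆ bridges T) :
    ∀ᶠ N in atTop, xc * mu S ≤ comba_X T N := by
  have fA : (V.j '' ⋃ γ ∈ S, {v | v ∈ γ}).Finite :=
    (hS.biUnion fun γ _ => γ.finite_toSet).image _
  obtain ⟨K1, h1⟩ := fA.bddAbove
  obtain ⟨K2, h2⟩ := fA.bddBelow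
  have hK : ∀ γ ∈ S, ∀ v ∈ γ, K2 ≤ v.j ∧ v.j ≤ K1 := fun γ hγ v hv =>
    ⟨h2 ⟨v, Set.mem_biUnion hγ hv, rfl⟩, h1 ⟨v, Set.mem_biUnion hγ hv, rfl⟩⟩
  filter_upwards [eventually_gt_atTop (K1 - K2).toNat] with N hN
  have e1 := mu_le_sum (S := S) (Finset.Ico (-N : ℤ) N)
    (fun j => {γ | γ ∈ S ∧ (lv q0 γ).j = 1 - j}) (fun j _ => hS.subset fun _ h => h.1)
    fun γ hγ => ⟨1 - (lv q0 γ).j, by
      obtain ⟨m, rfl, -⟩ := comba_mem (h hγ)
      have a1 := hK _ hγ _ (lv_mem q0 m)
      have a2 : K2 ≤ 1 ∧ 1 ≤ K1 := hK _ hγ q0 List.mem_cons_self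
      rw [Finset.mem_Ico, lv_cons]
      omega, hγ, by ring⟩
  refine (mul_le_mul_of_nonneg_left e1 xc_pos.le).trans ?_
  rw [Finset.mul_sum]
  refine Finset.sum_le_sum fun j _ => ?_
  have hg : IsSym (gT (-(j - 1)) (j - 1) 0) := sym_T (by ring)
  have hp : gT (-(j - 1)) (j - 1) 0 p0 = pB j := by
    rw [show p0 = pB 1 from rfl, comba_gp]; congr 1; ring
  have hq : gT (-(j - 1)) (j - 1) 0 q0 = qB j := by
    rw [show q0 = qB 1 from rfl, comba_gq]; congr 1; ring
  rw [← comba_mu_image (hS.subset fun _ h => h.1)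
    (fun γ => γ.tail.map (gT (-(j - 1)) (j - 1) 0) ++ [⟨2 - T, 0, T⟩] ++ [⟨2 - T, -1, T⟩])
    (fun a ha b hb e => ?_) fun γ hγ => ?_]
  · refine mu_mono ((finite_exit (comba_D_fin T N) _ _).subset fun _ h => h.1) ?_
    rintro _ ⟨γ, ⟨hγ, a0⟩, rfl⟩
    obtain ⟨m, rfl, a1, a2, a3, a4⟩ := comba_mem (h hγ)
    rw [lv_cons] at a0
    have b1 := a1.map hg
    have b2 := lv_map (gT (-(j - 1)) (j - 1) 0) q0 m
    have b3 : ∀ v ∈ qB j :: m.map (gT (-(j - 1)) (j - 1) 0), v ∈ comba_D T N ∧ v.k < T := by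
      intro v hv
      rw [← hq, ← List.map_cons] at hv
      obtain ⟨u, hu, rfl⟩ := List.mem_map.1 hv
      have c1 := a2 u hu
      have c2 := hK _ hγ u hu
      have c3 := hK _ hγ _ (lv_mem q0 m)
      have c4 := a1.valid (List.mem_cons_of_mem _ hu)
      unfold Valid at c4
      rw [comba_mem_D]
      simp only [gT]
      omega
    have a5 := (a2 _ (lv_mem q0 m)).1
    rw [hp, hq] at b1
    rw [hq] at b2
    have b4 := comba_ext (z := ⟨2 - T, 0, T⟩) b1
      (by rw [b2, adj_iff]; simp only [gT]; omega) fun hm => by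
        rcases List.mem_cons.1 hm with e | hm
        · have : (T : ℤ) = -1 := congrArg V.k e
          omega
        · exact lt_irrefl _ (b3 _ hm).2
    have b5 := comba_ext (z := ⟨2 - T, -1, T⟩) b4
      (by rw [lv_append, lv_cons, lv_nil, adj_iff]; dsimp only; omega) fun hm => by
        rcases List.mem_cons.1 hm with e | hm
        · have : (T : ℤ) = -1 := congrArg V.k e
          omega
        · rw [← List.cons_append, List.mem_append, List.mem_singleton] at hm
          rcases hm with hm | e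
          · exact lt_irrefl _ (b3 _ hm).2
          · have : (-1 : ℤ) = 0 := congrArg V.j e
            omega
    refine ⟨⟨b5, Inn_concat.2 fun u hu => ?_, fun hm => ?_⟩, by simp⟩
    · rw [List.tail_cons, ← List.cons_append, List.mem_append, List.mem_singleton] at hu
      rcases hu with hu | rfl
      · exact (b3 u hu).1
      · rw [comba_mem_D]; dsimp only; omega
    · rw [lv_append, lv_cons, lv_nil, comba_mem_D] at hm
      dsimp only at hm
      omega
  · obtain ⟨m, rfl, -⟩ := comba_mem (h ha.1)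
    obtain ⟨m', rfl, -⟩ := comba_mem (h hb.1)
    rw [show m = m' from List.map_injective_iff.2 hg.1
      (List.append_inj' (List.append_inj' e rfl).1 rfl).1]
  · obtain ⟨m, rfl, -⟩ := comba_mem (h hγ.1)
    simp

theorem comb_step {T : ℕ} (hT : 1 ≤ T) {s s' : ℝ} (h : Tendsto (RT T) atTop (𝓝 s))
    (h' : Tendsto (RT (T + 1)) atTop (𝓝 s')) :
    xc ^ 2 * Zc (bridges T) ≤ s' - s ∧ s' - s ≤ Zc (bridges (T + 1)) := by
  have h2 : Tendsto (fun N => RT (T + 1) (2 * N)) atTop (𝓝 s') :=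
    h'.comp (tendsto_id.const_mul_atTop' (by norm_num))
  constructor
  · have x2 : 0 < xc ^ 2 := pow_pos xc_pos 2
    rw [← le_div_iff₀' x2]
    refine (comba_Zc_le fun S hS hs => ?_).2
    rw [le_div_iff₀' x2]
    refine ge_of_tendsto (h2.sub h) ?_
    filter_upwards [comba_le_X hS hs, eventually_ge_atTop 1] with N a1 a2
    have := mul_le_mul_of_nonneg_left a1 xc_pos.le
    linarith [(comba_X_bounds hT a2).2]
  · have := ((h'.const_mul 2).sub h).sub h2
    rw [show 2 * s' - s - s' = s' - s by ring] at this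
    refine le_of_tendsto this ?_
    filter_upwards [eventually_ge_atTop 1] with N a2
    exact (comba_X_bounds hT a2).1.trans (comba_X_le T N)

end Pool.Agent.Lib.MP_4960b8_pr.QK
end
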