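import Pool.Agent.Lib.MP_4960b8_pr.QK.AnaB
import Pool.Agent.Lib.MP_4960b8_pr.QK.Basic
import Pool.Agent.Lib.MP_4960b8_pr.QK.CombA

-- part Pool.Agent.Lib.MP_4960b8_pr.QK.AnaC
section

/-! The functional equation as a boundary value problem. -/

namespace Pool.Agent.Lib.MP_4960b8_pr.QK

open Real Polynomial

noncomputable def q3 (v : ℂ) : ℂ := 1 + v + v ^ 2
noncomputable def q4 (v : ℂ) : ℂ := (1 + v) * (1 + v ^ 2)
/-- `exp (i (g + j π / 8) / 3)` -/
noncomputable def ev (j : ℤ) (g : ℂ) : ℂ := Complex.exp (Complex.I * (g + j * (π / 8)) / 3)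
noncomputable def Th (T : ℕ) (Pl : ℂ[X]) (g : ℂ) : ℂ :=
  q3 (ev 0 g ^ 2) / (1 + ev 0 g ^ 2) *
    (q3 (ev 1 g) * q3 (ev (-1) g) / (q4 (ev 1 g) * q4 (ev (-1) g))) ^ (T + 1) *
    (q4 (ev 5 g) * q4 (ev (-5) g) /
      (q3 (ev 5 g) * q3 (ev (-5) g) * (1 + c18 * ev 0 g ^ 3 + ev 0 g ^ 6))) ^ T *
    Pl.eval (ev 0 g ^ 3)

/-! ### non-vanishing -/

lemma anac_sq_ne {v : ℂ} (h : 0 < v.re) : 1 + v ^ 2 ≠ 0 := by
  intro e
  have h1 := congrArg Complex.re e
  have h2 := congrArg Complex.im e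
  simp [pow_two] at h1 h2
  have h3 : v.im = 0 := by
    have : v.re * v.im = 0 := by linarith
    rcases mul_eq_zero.1 this with h4 | h4
    · exact absurd h4 h.ne'
    · exact h4
  rw [h3] at h1
  nlinarith

lemma anac_q4_ne {v : ℂ} (h : 0 < v.re) : q4 v ≠ 0 := by
  refine mul_ne_zero ?_ (anac_sq_ne h)
  intro e
  have h1 := congrArg Complex.re e
  simp at h1
  linarith

lemma anac_q3_ne {v : ℂ} (h : 0 < v.re) : q3 v ≠ 0 := by
  intro e
  have h1 := congrArg Complex.re e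
  have h2 := congrArg Complex.im e
  simp [q3, pow_two] at h1 h2
  have h3 : v.im = 0 := by
    have : (1 + 2 * v.re) * v.im = 0 := by linarith
    rcases mul_eq_zero.1 this with h4 | h4
    · linarith
    · exact h4
  rw [h3] at h1
  nlinarith

lemma anac_exp_re_pos {w : ℂ} (h : |w.im| < π / 2) : 0 < (Complex.exp w).re := by
  rw [Complex.exp_re]
  exact mul_pos (Real.exp_pos _) (Real.cos_pos_of_mem_Ioo (by
    constructor <;> linarith [(abs_lt.1 h).1, (abs_lt.1 h).2]))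

lemma anac_ev_re_pos {g : ℂ} (hg : g ∈ Ust) {j : ℤ} (h1 : -5 ≤ j) (h2 : j ≤ 5) :
    0 < (ev j g).re := by
  apply anac_exp_re_pos
  have e : (Complex.I * (g + j * (π / 8)) / 3).im = (g.re + j * (π / 8)) / 3 := by
    simp
  rw [e]
  have hg' : |g.re| < 13 * π / 16 := hg
  have a1 : (-5 : ℝ) ≤ j := by exact_mod_cast h1
  have a2 : (j : ℝ) ≤ 5 := by exact_mod_cast h2
  have hp := Real.pi_pos
  rw [abs_lt] at hg' ⊢
  constructor <;> nlinarith [hg'.1, hg'.2]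

lemma anac_ev_ne (j : ℤ) (g : ℂ) : ev j g ≠ 0 := Complex.exp_ne_zero _

lemma anac_quad (θ : ℝ) (x : ℂ) :
    (1 - x * Complex.exp (θ * Complex.I)) * (1 - x * Complex.exp (-θ * Complex.I)) =
      1 - (2 * cos θ : ℝ) * x + x ^ 2 := by
  have h1 : Complex.exp (θ * Complex.I) * Complex.exp (-θ * Complex.I) = 1 := by
    rw [← Complex.exp_add]; simp
  have h2 : ((2 * cos θ : ℝ) : ℂ) =
      Complex.exp (θ * Complex.I) + Complex.exp (-θ * Complex.I) := by
    push_cast; exact Complex.two_cos _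
  rw [h2]
  linear_combination x ^ 2 * h1

lemma anac_ev0_cube (g : ℂ) : ev 0 g ^ 3 = Complex.exp (Complex.I * g) := by
  unfold ev
  rw [← Complex.exp_nat_mul]
  congr 1; push_cast; ring

lemma anac_den_ne {g : ℂ} (hg : g ∈ Ust) : 1 + c18 * ev 0 g ^ 3 + ev 0 g ^ 6 ≠ 0 := by
  have hg' : |g.re| < 13 * π / 16 := hg
  have hp := Real.pi_pos
  have key : ∀ s : ℝ, |s| ≤ π / 8 → 1 + ev 0 g ^ 3 * Complex.exp (s * Complex.I) ≠ 0 := by
    intro s hs
    have e : ev 0 g ^ 3 * Complex.exp (s * Complex.I) =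
        Complex.exp (Complex.I * (g + s) / 2) ^ 2 := by
      rw [anac_ev0_cube, ← Complex.exp_nat_mul, ← Complex.exp_add]
      congr 1; push_cast; ring
    rw [e]
    apply anac_sq_ne
    apply anac_exp_re_pos
    have e2 : (Complex.I * (g + s) / 2).im = (g.re + s) / 2 := by simp
    rw [e2]
    rw [abs_lt] at hg' ⊢
    rw [abs_le] at hs
    constructor <;> linarith [hg'.1, hg'.2, hs.1, hs.2]
  have h := anac_quad (π / 8) (-(ev 0 g ^ 3))
  have a := key (π / 8) (by rw [abs_of_pos (by positivity)])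
  have b := key (-(π / 8)) (by rw [abs_neg, abs_of_pos (by positivity)])
  intro e
  apply mul_ne_zero a b
  have e3 : ((-(π / 8) : ℝ) : ℂ) = -((π / 8 : ℝ) : ℂ) := by push_cast; ring
  rw [e3]
  unfold c18 at e
  linear_combination h + e

/-! ### holomorphy and symmetries -/

lemma anac_ev_diff (j : ℤ) : Differentiable ℂ (ev j) := by
  unfold ev; fun_prop

lemma anac_hol (T : ℕ) (Pl : ℂ[X]) : DifferentiableOn ℂ (Th T Pl) Ust := by
  intro g hg
  apply DifferentiableAt.differentiableWithinAt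
  have d : ∀ j, DifferentiableAt ℂ (ev j) g := fun j => anac_ev_diff j g
  have d3 : ∀ j, DifferentiableAt ℂ (fun z => q3 (ev j z)) g := fun j => by
    have := d j
    unfold q3; fun_prop
  have d4 : ∀ j, DifferentiableAt ℂ (fun z => q4 (ev j z)) g := fun j => by
    have := d j
    unfold q4; fun_prop
  have d0 := d 0
  have dP : DifferentiableAt ℂ (fun z => Pl.eval (ev 0 z ^ 3)) g :=
    (Pl.differentiableAt).comp g (d0.pow 3)
  have r : ∀ j : ℤ, -5 ≤ j → j ≤ 5 → 0 < (ev j g).re := fun j a b => anac_ev_re_pos hg a b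
  unfold Th
  refine (((DifferentiableAt.div ?_ ?_ ?_).mul (DifferentiableAt.pow
    (DifferentiableAt.div ((d3 1).mul (d3 (-1))) ((d4 1).mul (d4 (-1))) ?_) _)).mul
    (DifferentiableAt.pow (DifferentiableAt.div ((d4 5).mul (d4 (-5)))
      (((d3 5).mul (d3 (-5))).mul ?_) ?_) _)).mul dP
  · unfold q3; fun_prop
  · fun_prop
  · exact anac_sq_ne (r 0 (by norm_num) (by norm_num))
  · exact mul_ne_zero (anac_q4_ne (r 1 (by norm_num) (by norm_num)))
      (anac_q4_ne (r (-1) (by norm_num) (by norm_num)))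
  · fun_prop
  · exact mul_ne_zero (mul_ne_zero (anac_q3_ne (r 5 (by norm_num) (by norm_num)))
      (anac_q3_ne (r (-5) (by norm_num) (by norm_num)))) (anac_den_ne hg)

lemma anac_ev_neg (j : ℤ) (g : ℂ) : ev j (-g) = (ev (-j) g)⁻¹ := by
  unfold ev
  rw [← Complex.exp_neg]
  congr 1; push_cast; ring

lemma anac_ev_mul (j : ℤ) (g : ℂ) : ev j g * ev (-j) g = ev 0 g ^ 2 := by
  unfold ev
  rw [← Complex.exp_add, ← Complex.exp_nat_mul]
  congr 1; push_cast; ring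

lemma anac_q3_inv {v : ℂ} (h : v ≠ 0) : q3 v⁻¹ = q3 v / v ^ 2 := by
  unfold q3; field_simp; ring

lemma anac_q4_inv {v : ℂ} (h : v ≠ 0) : q4 v⁻¹ = q4 v / v ^ 3 := by
  unfold q4; field_simp; ring

lemma anac_even {T : ℕ} {Pl : ℂ[X]} (h : FE T Pl) {g : ℂ} (hg : g ∈ Ust) :
    Th T Pl (-g) = Th T Pl g := by
  have r : ∀ j : ℤ, -5 ≤ j → j ≤ 5 → 0 < (ev j g).re := fun j a b => anac_ev_re_pos hg a b
  have hu := anac_ev_ne 0 g
  have ha := anac_ev_ne 1 g
  have hb := anac_ev_ne (-1) g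
  have hc := anac_ev_ne 5 g
  have hd := anac_ev_ne (-5) g
  have hab := anac_ev_mul 1 g
  have hcd := anac_ev_mul 5 g
  have n0 := anac_sq_ne (r 0 (by norm_num) (by norm_num))
  have n1 := anac_q4_ne (r 1 (by norm_num) (by norm_num))
  have n2 := anac_q4_ne (r (-1) (by norm_num) (by norm_num))
  have n3 := anac_q3_ne (r 5 (by norm_num) (by norm_num))
  have n4 := anac_q3_ne (r (-5) (by norm_num) (by norm_num))
  have n5 := anac_den_ne hg
  have hP := h.2.1 (ev 0 g ^ 3) (pow_ne_zero 3 hu)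
  unfold Th
  rw [anac_ev_neg 0, anac_ev_neg 1, anac_ev_neg (-1), anac_ev_neg 5, anac_ev_neg (-5)]
  simp only [neg_zero, neg_neg]
  generalize ev 0 g = u at *
  generalize ev 1 g = a at *
  generalize ev (-1) g = b at *
  generalize ev 5 g = c at *
  generalize ev (-5) g = d at *
  have e1 : q3 (u⁻¹ ^ 2) / (1 + u⁻¹ ^ 2) = q3 (u ^ 2) / (1 + u ^ 2) / u ^ 2 := by
    have n0' : u ^ 2 + 1 ≠ 0 := by rwa [add_comm]
    rw [inv_pow, anac_q3_inv (pow_ne_zero 2 hu)]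
    field_simp
    ring
  have e2 : q3 b⁻¹ * q3 a⁻¹ / (q4 b⁻¹ * q4 a⁻¹) = q3 a * q3 b / (q4 a * q4 b) * u ^ 2 := by
    rw [anac_q3_inv ha, anac_q3_inv hb, anac_q4_inv ha, anac_q4_inv hb, ← hab]
    field_simp
  have e3 : q4 d⁻¹ * q4 c⁻¹ / (q3 d⁻¹ * q3 c⁻¹ * (1 + c18 * u⁻¹ ^ 3 + u⁻¹ ^ 6)) =
      q4 c * q4 d / (q3 c * q3 d * (1 + c18 * u ^ 3 + u ^ 6)) * u ^ 4 := by
    have e4 : 1 + c18 * u⁻¹ ^ 3 + u⁻¹ ^ 6 = (1 + c18 * u ^ 3 + u ^ 6) / u ^ 6 := by
      field_simp; ring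
    have e5 : u ^ 6 = u ^ 4 * (c * d) := by rw [hcd]; ring
    rw [anac_q3_inv hc, anac_q3_inv hd, anac_q4_inv hc, anac_q4_inv hd, e4]
    generalize 1 + c18 * u ^ 3 + u ^ 6 = w at *
    rw [e5]
    field_simp
  rw [e1, e2, e3, hP, inv_pow, mul_pow, mul_pow]
  field_simp
  ring

lemma anac_ev_conj (j : ℤ) (g : ℂ) :
    ev j (-(starRingEnd ℂ g)) = starRingEnd ℂ (ev (-j) g) := by
  unfold ev
  rw [← Complex.exp_conj]
  congr 1
  simp only [map_div₀, map_mul, map_add, Complex.conj_I, map_intCast, Complex.conj_ofReal,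
    map_ofNat]
  push_cast; ring

lemma anac_eval_conj {Pl : ℂ[X]} (hr : ∀ i, (Pl.coeff i).im = 0) (x : ℂ) :
    Pl.eval (starRingEnd ℂ x) = starRingEnd ℂ (Pl.eval x) := by
  rw [eval_eq_sum_range, eval_eq_sum_range, map_sum]
  refine Finset.sum_congr rfl fun i _ => ?_
  rw [map_mul, map_pow, Complex.conj_eq_iff_im.2 (hr i)]

lemma anac_real {T : ℕ} {Pl : ℂ[X]} (hr : ∀ i, (Pl.coeff i).im = 0) (g : ℂ) :
    Th T Pl (-(starRingEnd ℂ g)) = starRingEnd ℂ (Th T Pl g) := by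
  unfold Th
  rw [anac_ev_conj 0, anac_ev_conj 1, anac_ev_conj (-1), anac_ev_conj 5, anac_ev_conj (-5)]
  simp only [neg_zero, neg_neg]
  rw [← map_pow, ← map_pow (starRingEnd ℂ) (ev 0 g) 3, anac_eval_conj hr]
  simp only [q3, q4, map_mul, map_div₀, map_pow, map_add, map_one, Complex.conj_ofReal]
  ring

/-! ### the product form in the upper half plane -/

noncomputable def anacG (T : ℕ) (Pl : ℂ[X]) (x : ℂ) : ℂ :=
  (1 - x ^ 2) * (1 - c18 * x + x ^ 2) ^ (T + 1) * Pl.eval x /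
    ((1 + c18 * x + x ^ 2) * (1 + c38 * x + x ^ 2)) ^ T

noncomputable def anacH (T : ℕ) (y : ℂ) : ℂ :=
  (1 + √3 * y + y ^ 2) ^ T / ((1 - y) * (1 - √3 * y + y ^ 2) ^ (T + 1))

lemma anac_ev_norm (j : ℤ) (g : ℂ) : ‖ev j g‖ = exp (-g.im / 3) := by
  unfold ev
  rw [Complex.norm_exp]
  congr 1
  simp

lemma anac_one_sub_ne {v : ℂ} (h : ‖v‖ < 1) : 1 - v ≠ 0 := by
  intro e
  have : v = 1 := by linear_combination -e
  rw [this] at h
  simp at h

lemma anac_quad_ne (θ : ℝ) {x : ℂ} (h : ‖x‖ < 1) : 1 - (2 * cos θ : ℝ) * x + x ^ 2 ≠ 0 := by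
  rw [← anac_quad]
  refine mul_ne_zero (anac_one_sub_ne ?_) (anac_one_sub_ne ?_)
  · rw [norm_mul, Complex.norm_exp_ofReal_mul_I]; simpa using h
  · have e : -(θ : ℂ) = ((-θ : ℝ) : ℂ) := by push_cast; ring
    rw [norm_mul, e, Complex.norm_exp_ofReal_mul_I]; simpa using h

lemma anac_cos1 : 2 * cos (π / 6) = √3 := by rw [Real.cos_pi_div_six]; ring

lemma anac_cos2 : 2 * cos (5 * π / 6) = -√3 := by
  have : 5 * π / 6 = π - π / 6 := by ring
  rw [this, Real.cos_pi_sub, Real.cos_pi_div_six]; ring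

lemma anac_cos3 : 2 * cos (5 * π / 8) = -c38 := by
  have : 5 * π / 8 = π - 3 * π / 8 := by ring
  rw [this, Real.cos_pi_sub, c38]; ring

lemma anac_cos4 : 2 * cos (7 * π / 8) = -c18 := by
  have : 7 * π / 8 = π - π / 8 := by ring
  rw [this, Real.cos_pi_sub, c18]; ring

lemma anac_ne1 {x : ℂ} (h : ‖x‖ < 1) : 1 - c18 * x + x ^ 2 ≠ 0 := anac_quad_ne (π / 8) h

lemma anac_ne2 {x : ℂ} (h : ‖x‖ < 1) : 1 + c18 * x + x ^ 2 ≠ 0 := by
  have := anac_quad_ne (7 * π / 8) h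
  rw [anac_cos4] at this
  intro e; apply this; push_cast; linear_combination e

lemma anac_ne3 {x : ℂ} (h : ‖x‖ < 1) : 1 + c38 * x + x ^ 2 ≠ 0 := by
  have := anac_quad_ne (5 * π / 8) h
  rw [anac_cos3] at this
  intro e; apply this; push_cast; linear_combination e

lemma anac_ne4 {x : ℂ} (h : ‖x‖ < 1) : 1 - √3 * x + x ^ 2 ≠ 0 := by
  have := anac_quad_ne (π / 6) h
  rwa [anac_cos1] at this

lemma anac_ne5 {x : ℂ} (h : ‖x‖ < 1) : 1 + √3 * x + x ^ 2 ≠ 0 := by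
  have := anac_quad_ne (5 * π / 6) h
  rw [anac_cos2] at this
  intro e; apply this; push_cast; linear_combination e

lemma anac_ev_pow (j : ℤ) (g : ℂ) (n : ℕ) (θ : ℝ) (h : θ = n * j * π / 24) :
    (1 - ev j g ^ n) * (1 - ev (-j) g ^ n) =
      1 - (2 * cos θ : ℝ) * ev 0 g ^ n + (ev 0 g ^ n) ^ 2 := by
  rw [← anac_quad]
  have e1 : ev j g ^ n = ev 0 g ^ n * Complex.exp (θ * Complex.I) := by
    unfold ev
    rw [← Complex.exp_nat_mul, ← Complex.exp_nat_mul, ← Complex.exp_add, h]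
    congr 1; push_cast; ring
  have e2 : ev (-j) g ^ n = ev 0 g ^ n * Complex.exp (-θ * Complex.I) := by
    unfold ev
    rw [← Complex.exp_nat_mul, ← Complex.exp_nat_mul, ← Complex.exp_add, h]
    congr 1; push_cast; ring
  rw [e1, e2]

lemma anac_ev_lt (j : ℤ) {g : ℂ} (hg : 0 < g.im) : ‖ev j g‖ < 1 := by
  rw [anac_ev_norm, Real.exp_lt_one_iff]; linarith

lemma anac_pow_lt {v : ℂ} (h : ‖v‖ < 1) (n : ℕ) : ‖v ^ (n + 1)‖ < 1 := by
  rw [norm_pow]; exact pow_lt_one₀ (norm_nonneg _) h (Nat.succ_ne_zero n)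

lemma anac_prod (T : ℕ) (Pl : ℂ[X]) {g : ℂ} (hg : 0 < g.im) :
    Th T Pl g = anacG T Pl (ev 0 g ^ 3) * anacH T (ev 0 g ^ 4) := by
  have hu := anac_ev_lt 0 hg
  have n0 := anac_one_sub_ne (anac_pow_lt hu 1)
  have na := anac_one_sub_ne (anac_ev_lt 1 hg)
  have nb := anac_one_sub_ne (anac_ev_lt (-1) hg)
  have nc := anac_one_sub_ne (anac_ev_lt 5 hg)
  have nd := anac_one_sub_ne (anac_ev_lt (-5) hg)
  have a3 := anac_ev_pow 1 g 3 (π / 8) (by push_cast; ring)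
  have a4 := anac_ev_pow 1 g 4 (π / 6) (by push_cast; ring)
  have c3 := anac_ev_pow 5 g 3 (5 * π / 8) (by push_cast; ring)
  have c4 := anac_ev_pow 5 g 4 (5 * π / 6) (by push_cast; ring)
  rw [anac_cos1] at a4
  rw [anac_cos2] at c4
  rw [anac_cos3] at c3
  change _ = 1 - (c18 : ℂ) * _ + _ at a3
  unfold Th anacG anacH
  generalize ev 0 g = u at *
  generalize ev 1 g = a at *
  generalize ev (-1) g = b at *
  generalize ev 5 g = c at *
  generalize ev (-5) g = d at *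
  have e1 : q3 (u ^ 2) / (1 + u ^ 2) = (1 - (u ^ 3) ^ 2) / (1 - u ^ 4) := by
    rw [← mul_div_mul_left _ _ n0]
    unfold q3
    congr 1 <;> ring
  have e2 : q3 a * q3 b / (q4 a * q4 b) =
      (1 - c18 * u ^ 3 + (u ^ 3) ^ 2) / (1 - √3 * u ^ 4 + (u ^ 4) ^ 2) := by
    rw [← mul_div_mul_left _ _ (mul_ne_zero na nb), ← a3, ← a4]
    unfold q3 q4
    congr 1 <;> ring
  have e3 : q4 c * q4 d / (q3 c * q3 d * (1 + c18 * u ^ 3 + u ^ 6)) =
      (1 + √3 * u ^ 4 + (u ^ 4) ^ 2) /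
        ((1 + c18 * u ^ 3 + (u ^ 3) ^ 2) * (1 + c38 * u ^ 3 + (u ^ 3) ^ 2)) := by
    rw [← mul_div_mul_left _ _ (mul_ne_zero nc nd)]
    unfold q3 q4
    push_cast at c3 c4
    congr 1
    · linear_combination c4
    · linear_combination (1 + c18 * u ^ 3 + u ^ 6) * c3
  rw [e1, e2, e3, div_pow, div_pow]
  simp only [div_eq_mul_inv, mul_inv]
  ring

/-! ### the boundary relation -/

lemma anac_c18_sq : c18 ^ 2 = 2 + √2 := by
  have h := Real.cos_sq (π / 8)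
  have e : 2 * (π / 8) = π / 4 := by ring
  rw [e, Real.cos_pi_div_four] at h
  unfold c18
  linear_combination 4 * h

lemma anac_c38_sq : c38 ^ 2 = 2 - √2 := by
  have h := Real.cos_sq (3 * π / 8)
  have e : 2 * (3 * π / 8) = π - π / 4 := by ring
  rw [e, Real.cos_pi_sub, Real.cos_pi_div_four] at h
  unfold c38
  linear_combination 4 * h

lemma anac_c38 : c38 = (√2 - 1) * c18 := by
  have e1 : 3 * π / 8 = π / 4 + π / 8 := by ring
  have e2 : π / 8 = π / 4 - π / 8 := by ring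
  have h1 : cos (3 * π / 8) = √2 / 2 * cos (π / 8) - √2 / 2 * sin (π / 8) := by
    rw [e1, Real.cos_add, Real.cos_pi_div_four, Real.sin_pi_div_four]
  have h2 : cos (π / 8) = √2 / 2 * cos (π / 8) + √2 / 2 * sin (π / 8) := by
    conv_lhs => rw [e2, Real.cos_sub, Real.cos_pi_div_four, Real.sin_pi_div_four]
  unfold c18 c38
  linear_combination 2 * h1 + 2 * h2

lemma anac_phi (T : ℕ) (Pl : ℂ[X]) {x : ℂ} (h : ‖x‖ < 1) :
    PhiH T Pl x = -(1 + x ^ 8) ^ T * anacG T Pl x := by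
  have s2 : ((√2 : ℝ) : ℂ) ^ 2 = 2 := by
    rw [← Complex.ofReal_pow, Real.sq_sqrt (by norm_num)]; norm_num
  have h1 : (c18 : ℂ) ^ 2 = 2 + (√2 : ℝ) := by
    rw [← Complex.ofReal_pow, anac_c18_sq]; push_cast; ring
  have h2 : (c38 : ℂ) ^ 2 = 2 - (√2 : ℝ) := by
    rw [← Complex.ofReal_pow, anac_c38_sq]; push_cast; ring
  have e : 1 + x ^ 8 = ((x ^ 2 - c18 * x + 1) * (x ^ 2 - c38 * x + 1)) *
      ((1 + c18 * x + x ^ 2) * (1 + c38 * x + x ^ 2)) := by
    linear_combination (x ^ 2 * ((x ^ 2 + 1) ^ 2 - c38 ^ 2 * x ^ 2)) * h1 +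
      (x ^ 2 * ((x ^ 2 + 1) ^ 2 - (2 + (√2 : ℝ)) * x ^ 2)) * h2 + x ^ 4 * s2
  have n := pow_ne_zero T (mul_ne_zero (anac_ne2 h) (anac_ne3 h))
  unfold PhiH anacG
  rw [e, mul_pow _ ((1 + c18 * x + x ^ 2) * (1 + c38 * x + x ^ 2))]
  generalize ((1 + c18 * x + x ^ 2) * (1 + c38 * x + x ^ 2)) ^ T = w at *
  have e' : 1 - c18 * x + x ^ 2 = x ^ 2 - c18 * x + 1 := by ring
  rw [e', mul_pow]
  field_simp
  ring

lemma anac_phi_conj (T : ℕ) {Pl : ℂ[X]} (hr : ∀ i, (Pl.coeff i).im = 0) (x : ℂ) :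
    PhiH T Pl (starRingEnd ℂ x) = starRingEnd ℂ (PhiH T Pl x) := by
  unfold PhiH
  rw [anac_eval_conj hr]
  simp only [map_mul, map_pow, map_add, map_sub, map_one, Complex.conj_ofReal]

lemma anac_imG {T : ℕ} {Pl : ℂ[X]} (h : FE T Pl) (hr : ∀ i, (Pl.coeff i).im = 0) {s : ℝ}
    (h1 : ‖(s : ℂ) + s * Complex.I‖ < 1) (h2 : ‖-(s : ℂ) + s * Complex.I‖ < 1) :
    (anacG T Pl (-s + s * Complex.I)).im = (anacG T Pl (s + s * Complex.I)).im := by
  have f := h.2.2 (s + s * Complex.I)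
  have e1 : Complex.I * (s + s * Complex.I) = -s + s * Complex.I := by
    linear_combination (s : ℂ) * Complex.I_mul_I
  have e2 : -((s : ℂ) + s * Complex.I) = starRingEnd ℂ (-s + s * Complex.I) := by
    simp only [map_add, map_neg, map_mul, Complex.conj_ofReal, Complex.conj_I]; ring
  have e3 : -(-(s : ℂ) + s * Complex.I) = starRingEnd ℂ (s + s * Complex.I) := by
    simp only [map_add, map_mul, Complex.conj_ofReal, Complex.conj_I]; ring
  rw [e1, e2, e3, anac_phi_conj T hr, anac_phi_conj T hr] at f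
  have f2 := congrArg Complex.im f
  simp only [Complex.sub_im, Complex.add_im, Complex.conj_im, Complex.zero_im] at f2
  have p1 : 1 + ((s : ℂ) + s * Complex.I) ^ 8 = ((1 + 16 * s ^ 8 : ℝ) : ℂ) := by
    have : ((s : ℂ) + s * Complex.I) ^ 2 = 2 * s ^ 2 * Complex.I := by
      linear_combination (s : ℂ) ^ 2 * Complex.I_mul_I
    have i4 := Complex.I_pow_four
    push_cast
    calc 1 + ((s : ℂ) + s * Complex.I) ^ 8 = 1 + (((s : ℂ) + s * Complex.I) ^ 2) ^ 4 := by ring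
      _ = _ := by rw [this]; linear_combination 16 * (s : ℂ) ^ 8 * i4
  have p2 : 1 + (-(s : ℂ) + s * Complex.I) ^ 8 = ((1 + 16 * s ^ 8 : ℝ) : ℂ) := by
    have : (-(s : ℂ) + s * Complex.I) ^ 2 = -2 * s ^ 2 * Complex.I := by
      linear_combination (s : ℂ) ^ 2 * Complex.I_mul_I
    have i4 := Complex.I_pow_four
    push_cast
    calc 1 + (-(s : ℂ) + s * Complex.I) ^ 8 = 1 + ((-(s : ℂ) + s * Complex.I) ^ 2) ^ 4 := by ring
      _ = _ := by rw [this]; linear_combination 16 * (s : ℂ) ^ 8 * i4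
  rw [anac_phi T Pl h1, anac_phi T Pl h2, p1, p2, ← Complex.ofReal_pow, ← Complex.ofReal_neg,
    Complex.im_ofReal_mul, Complex.im_ofReal_mul] at f2
  have pos : 0 < (1 + 16 * s ^ 8) ^ T := by positivity
  apply mul_left_cancel₀ pos.ne'
  linarith

lemma anac_lam (T : ℕ) {Y : ℝ} (h0 : 0 < Y) (h1 : Y < 1) :
    Lam T Y * anacH T (Y * (1 / 2 + √3 / 2 * Complex.I)) =
      ((1 - √3 * Y + Y ^ 2) ^ T / ((1 + Y) * (1 + √3 * Y + Y ^ 2) ^ (T + 1)) : ℝ) := by
  have s3 : √3 ^ 2 = 3 := Real.sq_sqrt (by norm_num)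
  have s3' : ((√3 : ℝ) : ℂ) ^ 2 = 3 := by rw [← Complex.ofReal_pow, s3]; norm_num
  have ii := Complex.I_mul_I
  set y : ℂ := Y * (1 / 2 + √3 / 2 * Complex.I) with hy
  have ny : ‖y‖ < 1 := by
    have : ‖y‖ ^ 2 = Y ^ 2 := by
      rw [Complex.sq_norm, Complex.normSq_apply, hy]
      simp
      linear_combination Y ^ 2 / 4 * s3
    nlinarith [norm_nonneg y]
  have n1 := anac_one_sub_ne ny
  have n4 := anac_ne4 ny
  have n5 := anac_ne5 ny
  have p1 : (0 : ℝ) < 1 + √3 * Y + Y ^ 2 := by positivity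
  have q1 : ((1 + √3 * Y + Y ^ 2 : ℝ) : ℂ) ≠ 0 := by exact_mod_cast p1.ne'
  have q2 : ((1 + Y : ℝ) : ℂ) ≠ 0 := by exact_mod_cast (by positivity : (0 : ℝ) < 1 + Y).ne'
  have q3' : (((1 + Y ^ 2) * (1 + √3 * Y + Y ^ 2) : ℝ) : ℂ) ≠ 0 := by
    exact_mod_cast (by positivity : (0 : ℝ) < (1 + Y ^ 2) * (1 + √3 * Y + Y ^ 2)).ne'
  have e1 : lfp Y = (1 - √3 * y + y ^ 2) / (1 + √3 * y + y ^ 2) := by
    unfold lfp
    rw [div_eq_div_iff q3' n5, hy]
    push_cast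
    generalize ((√3 : ℝ) : ℂ) = r at *
    generalize (Y : ℂ) = z at *
    linear_combination (-3 / 2 * z ^ 2 * r ^ 2 - 3 / 2 * z ^ 3 * r -
      3 / 4 * z ^ 3 * r ^ 2 * Complex.I - 1 / 4 * z ^ 3 * r ^ 3 + 3 / 2 * z ^ 5 * r +
      3 / 4 * z ^ 5 * r ^ 2 * Complex.I - 1 / 4 * z ^ 5 * r ^ 3) * ii +
      (z * Complex.I + 2 * z ^ 2 + 1 / 2 * z ^ 2 * r * Complex.I - 3 / 4 * z ^ 3 * Complex.I +
      1 / 4 * z ^ 3 * r + 1 / 2 * z ^ 4 + 1 / 2 * z ^ 4 * r * Complex.I -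
      1 / 4 * z ^ 5 * Complex.I + 1 / 4 * z ^ 5 * r) * s3'
  have e2 : lla Y = (1 - y) * (1 - √3 * y + y ^ 2) / ((1 + Y : ℝ) * (1 + √3 * Y + Y ^ 2 : ℝ)) := by
    unfold lla
    rw [div_eq_div_iff q1 (mul_ne_zero q2 q1), hy]
    have : ((dD * Y * (1 - Y) / (1 + Y) : ℝ) : ℂ) * (1 + Y : ℝ) = dD * Y * (1 - Y) := by
      rw [← Complex.ofReal_mul, div_mul_cancel₀ _ (by positivity)]; push_cast; ring
    generalize ((dD * Y * (1 - Y) / (1 + Y) : ℝ) : ℂ) = w at *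
    unfold dD at *
    push_cast at this ⊢
    generalize ((√3 : ℝ) : ℂ) = r at *
    generalize (Y : ℂ) = z at *
    linear_combination (1 + r * z + z ^ 2) * ((-1 / 4 * z ^ 2 * r ^ 2 - 1 / 4 * z ^ 2 * r ^ 3 +
      3 / 8 * z ^ 3 * r ^ 2 + 1 / 8 * z ^ 3 * r ^ 3 * Complex.I) * ii +
      (1 / 2 * z * Complex.I + 1 / 4 * z ^ 2 - 1 / 2 * z ^ 2 * Complex.I + 1 / 4 * z ^ 2 * r -
      3 / 8 * z ^ 3 - 1 / 8 * z ^ 3 * r * Complex.I) * s3' - Complex.I * this)
  unfold Lam anacH lf0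
  rw [e1, e2]
  push_cast at *
  rw [mul_pow, div_pow, div_pow]
  generalize 1 - (√3 : ℝ) * y + y ^ 2 = A at *
  generalize 1 + (√3 : ℝ) * y + y ^ 2 = B at *
  generalize 1 + (√3 : ℝ) * (Y : ℂ) + Y ^ 2 = C at *
  field_simp
  ring

lemma anac_pt_im (x τ : ℝ) : (pt x τ).im = τ := by simp [pt]

lemma anac_ev_pt (x τ : ℝ) (n : ℕ) : ev 0 (pt x τ) ^ n =
    (exp (-(n * τ) / 3) : ℝ) * ((cos (n * x / 3) : ℝ) + (sin (n * x / 3) : ℝ) * Complex.I) := by
  rw [Complex.ofReal_cos, Complex.ofReal_sin, ← Complex.exp_mul_I, Complex.ofReal_exp,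
    ← Complex.exp_add]
  unfold ev pt
  rw [← Complex.exp_nat_mul]
  congr 1
  push_cast
  linear_combination (n : ℂ) * τ / 3 * Complex.I_mul_I

lemma anac_bd {T : ℕ} {Pl : ℂ[X]} (h : FE T Pl) (hr : ∀ i, (Pl.coeff i).im = 0) {τ : ℝ}
    (hτ : 0 < τ) : (Th T Pl (pt (3 * π / 4) τ)).im =
      (Lam T (exp (-4 * τ / 3)) * Th T Pl (pt (π / 4) τ)).im := by
  have i1 : 0 < (pt (3 * π / 4) τ).im := by rwa [anac_pt_im]
  have i2 : 0 < (pt (π / 4) τ).im := by rwa [anac_pt_im]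
  have hY0 : 0 < exp (-4 * τ / 3) := Real.exp_pos _
  have hY1 : exp (-4 * τ / 3) < 1 := by rw [Real.exp_lt_one_iff]; linarith
  have x1 : ev 0 (pt (3 * π / 4) τ) ^ 3 =
      -((exp (-τ) * (√2 / 2) : ℝ) : ℂ) + (exp (-τ) * (√2 / 2) : ℝ) * Complex.I := by
    rw [anac_ev_pt]
    have e1 : -(((3 : ℕ) : ℝ) * τ) / 3 = -τ := by push_cast; ring
    have e2 : ((3 : ℕ) : ℝ) * (3 * π / 4) / 3 = π - π / 4 := by push_cast; ring
    rw [e1, e2, Real.cos_pi_sub, Real.sin_pi_sub, Real.cos_pi_div_four, Real.sin_pi_div_four]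
    push_cast; ring
  have x2 : ev 0 (pt (π / 4) τ) ^ 3 =
      ((exp (-τ) * (√2 / 2) : ℝ) : ℂ) + (exp (-τ) * (√2 / 2) : ℝ) * Complex.I := by
    rw [anac_ev_pt]
    have e1 : -(((3 : ℕ) : ℝ) * τ) / 3 = -τ := by push_cast; ring
    have e2 : ((3 : ℕ) : ℝ) * (π / 4) / 3 = π / 4 := by push_cast; ring
    rw [e1, e2, Real.cos_pi_div_four, Real.sin_pi_div_four]
    push_cast; ring
  have y1 : ev 0 (pt (3 * π / 4) τ) ^ 4 = -((exp (-4 * τ / 3) : ℝ) : ℂ) := by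
    rw [anac_ev_pt]
    have e1 : -(((4 : ℕ) : ℝ) * τ) / 3 = -4 * τ / 3 := by push_cast; ring
    have e2 : ((4 : ℕ) : ℝ) * (3 * π / 4) / 3 = π := by push_cast; ring
    rw [e1, e2, Real.cos_pi, Real.sin_pi]
    push_cast; ring
  have y2 : ev 0 (pt (π / 4) τ) ^ 4 =
      ((exp (-4 * τ / 3) : ℝ) : ℂ) * (1 / 2 + √3 / 2 * Complex.I) := by
    rw [anac_ev_pt]
    have e1 : -(((4 : ℕ) : ℝ) * τ) / 3 = -4 * τ / 3 := by push_cast; ring
    have e2 : ((4 : ℕ) : ℝ) * (π / 4) / 3 = π / 3 := by push_cast; ring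
    rw [e1, e2, Real.cos_pi_div_three, Real.sin_pi_div_three]
    push_cast; ring
  have n1 := anac_pow_lt (anac_ev_lt 0 i1) 2
  have n2 := anac_pow_lt (anac_ev_lt 0 i2) 2
  rw [anac_prod T Pl i1, anac_prod T Pl i2, y1, y2, mul_left_comm, anac_lam T hY0 hY1]
  rw [x1] at n1 ⊢
  rw [x2] at n2 ⊢
  generalize exp (-4 * τ / 3) = Y at *
  have e : anacH T (-(Y : ℂ)) =
      ((1 - √3 * Y + Y ^ 2) ^ T / ((1 + Y) * (1 + √3 * Y + Y ^ 2) ^ (T + 1)) : ℝ) := by
    unfold anacH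
    push_cast
    congr 3 <;> ring
  rw [e, Complex.im_mul_ofReal, Complex.im_mul_ofReal, anac_imG h hr n2 n1]

/-! ### the expansion at infinity -/

lemma anac_G_deriv (T : ℕ) (Pl : ℂ[X]) : HasDerivAt (anacG T Pl)
    (Pl.coeff 1 - ((1 + √2) * T * c18 + c18) * Pl.coeff 0) 0 := by
  have p2 : HasDerivAt (fun x : ℂ => x ^ 2) 0 0 := by
    simpa using hasDerivAt_pow 2 (0 : ℂ)
  have p1 : ∀ c : ℂ, HasDerivAt (fun x : ℂ => c * x) c 0 := fun c => by
    simpa using (hasDerivAt_id' (0 : ℂ)).const_mul c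
  have q : ∀ c : ℂ, HasDerivAt (fun x : ℂ => 1 + c * x + x ^ 2) (c + 0) 0 := fun c =>
    ((p1 c).const_add 1).fun_add p2
  have a : HasDerivAt (fun x : ℂ => 1 - x ^ 2) (-0) 0 := p2.const_sub 1
  have b : HasDerivAt (fun x : ℂ => 1 - c18 * x + x ^ 2) (-(c18 : ℂ) + 0) 0 :=
    ((p1 c18).const_sub 1).fun_add p2
  have key := ((a.fun_mul (b.fun_pow (T + 1))).fun_mul (Pl.hasDerivAt 0)).fun_div
    (((q c18).fun_mul (q c38)).fun_pow T) (by simp)
  have h38 : (c38 : ℂ) = (√2 - 1) * c18 := by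
    rw [anac_c38]; push_cast; ring
  refine HasDerivAt.congr_deriv key ?_
  simp [← coeff_zero_eq_eval_zero, h38, coeff_derivative]
  ring

lemma anac_G_zero (T : ℕ) (Pl : ℂ[X]) : anacG T Pl 0 = Pl.coeff 0 := by
  simp [anacG, coeff_zero_eq_eval_zero]

lemma anac_H_diff (T : ℕ) : DifferentiableAt ℂ (anacH T) 0 := by
  unfold anacH
  refine DifferentiableAt.div (by fun_prop) (by fun_prop) (by simp)

lemma anac_H_zero (T : ℕ) : anacH T 0 = 1 := by simp [anacH]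

open Asymptotics Filter Topology in
lemma anac_little (T : ℕ) (Pl : ℂ[X]) :
    (fun u : ℂ => anacG T Pl (u ^ 3) * anacH T (u ^ 4) - Pl.coeff 0 -
      u ^ 3 * (Pl.coeff 1 - ((1 + √2) * T * c18 + c18) * Pl.coeff 0)) =o[𝓝 0]
      fun u => u ^ 3 := by
  have t3 : Tendsto (fun u : ℂ => u ^ 3) (𝓝 0) (𝓝 0) := by
    have : Continuous fun u : ℂ => u ^ 3 := by fun_prop
    simpa using this.tendsto 0
  have t4 : Tendsto (fun u : ℂ => u ^ 4) (𝓝 0) (𝓝 0) := by
    have : Continuous fun u : ℂ => u ^ 4 := by fun_prop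
    simpa using this.tendsto 0
  have h1 := (hasDerivAt_iff_isLittleO.1 (anac_G_deriv T Pl)).comp_tendsto t3
  have h2 := ((anac_H_diff T).isBigO_sub).comp_tendsto t4
  have h3 : (fun u : ℂ => anacG T Pl (u ^ 3)) =O[𝓝 0] fun _ => (1 : ℂ) :=
    (((anac_G_deriv T Pl).continuousAt.tendsto).comp t3).isBigO_one ℂ
  have h4 : (fun u : ℂ => u ^ 4) =o[𝓝 0] fun u => u ^ 3 := isLittleO_pow_pow (by norm_num)
  have h5 := h3.mul h2
  simp only [Function.comp_def, sub_zero, one_mul, anac_H_zero, anac_G_zero,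
    smul_eq_mul] at h1 h5
  refine (h1.add (h5.trans_isLittleO h4)).congr_left fun u => ?_
  ring

lemma anac_asym {T : ℕ} {Pl : ℂ[X]} (hr : ∀ i, (Pl.coeff i).im = 0) {ε : ℝ} (hε : 0 < ε) :
    ∃ L : ℝ, ∀ x τ : ℝ, L ≤ τ → ‖Th T Pl (pt x τ) - (Pl.coeff 0).re +
      (((1 + √2) * T * c18 + c18) * (Pl.coeff 0).re - (Pl.coeff 1).re : ℝ) *
        Complex.exp (Complex.I * pt x τ)‖ ≤ ε * exp (-τ) := by
  obtain ⟨δ, hδ, hb⟩ := Metric.eventually_nhds_iff.1 ((anac_little T Pl).def hε)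
  refine ⟨max 1 (1 - 3 * Real.log δ), fun x τ hτ => ?_⟩
  have h1 : 1 ≤ τ := (le_max_left _ _).trans hτ
  have h2 : 1 - 3 * Real.log δ ≤ τ := (le_max_right _ _).trans hτ
  have i1 : 0 < (pt x τ).im := by rw [anac_pt_im]; linarith
  have hn : ‖ev 0 (pt x τ)‖ = exp (-τ / 3) := by rw [anac_ev_norm, anac_pt_im]
  have hd : dist (ev 0 (pt x τ)) 0 < δ := by
    rw [dist_zero_right, hn, ← Real.exp_log hδ, Real.exp_lt_exp]; linarith
  have h3 := hb hd
  have e0 : (((Pl.coeff 0).re : ℝ) : ℂ) = Pl.coeff 0 := Complex.ext (by simp) (by simp [hr 0])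
  have e1 : (((Pl.coeff 1).re : ℝ) : ℂ) = Pl.coeff 1 := Complex.ext (by simp) (by simp [hr 1])
  have e2 : ‖ev 0 (pt x τ) ^ 3‖ = exp (-τ) := by
    rw [norm_pow, hn, ← Real.exp_nat_mul]; congr 1; push_cast; ring
  rw [e2] at h3
  rw [anac_prod T Pl i1, ← anac_ev0_cube]
  convert h3 using 2
  push_cast
  rw [e0, e1]
  ring

theorem th_rh {T : ℕ} {Pl : ℂ[X]} (h : FE T Pl) (hr : ∀ i, (Pl.coeff i).im = 0) :
    RH T (Pl.coeff 0).re (((1 + √2) * T * c18 + c18) * (Pl.coeff 0).re - (Pl.coeff 1).re)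
      (Th T Pl) where
  hol := anac_hol T Pl
  even := fun _ hz => anac_even h hz
  real := fun z _ => anac_real hr z
  bd := fun _ hτ => anac_bd h hr hτ
  asym := fun _ hε => by
    obtain ⟨L, hL⟩ := anac_asym (T := T) hr hε
    exact ⟨L, fun x τ _ hτ => hL x τ hτ⟩

theorem th_zero {T : ℕ} {Pl : ℂ[X]} (h : ∀ τ : ℝ, 0 < τ → Th T Pl (pt 0 τ) = 0) : Pl = 0 := by
  apply Polynomial.eq_zero_of_infinite_isRoot
  have hinj : Set.InjOn (fun τ : ℝ => ev 0 (pt 0 τ) ^ 3) (Set.Ioi 0) := by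
    intro a _ b _ e
    have e2 := congrArg norm e
    simp only [norm_pow, anac_ev_norm, anac_pt_im] at e2
    rw [← Real.exp_nat_mul, ← Real.exp_nat_mul, Real.exp_eq_exp] at e2
    push_cast at e2
    linarith
  refine ((Set.Ioi_infinite (0 : ℝ)).image hinj).mono ?_
  rintro _ ⟨τ, hτ, rfl⟩
  have i1 : 0 < (pt 0 τ).im := by rwa [anac_pt_im]
  have e := h τ hτ
  have hu := anac_ev_lt 0 i1
  have n3 := anac_pow_lt hu 2
  have n4 := anac_pow_lt hu 3
  rw [anac_prod T Pl i1] at e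
  have hH : anacH T (ev 0 (pt 0 τ) ^ 4) ≠ 0 :=
    div_ne_zero (pow_ne_zero _ (anac_ne5 n4))
      (mul_ne_zero (anac_one_sub_ne n4) (pow_ne_zero _ (anac_ne4 n4)))
  have hG := (mul_eq_zero.1 e).resolve_right hH
  unfold anacG at hG
  have h1 := (div_eq_zero_iff.1 hG).resolve_right
    (pow_ne_zero _ (mul_ne_zero (anac_ne2 n3) (anac_ne3 n3)))
  exact (mul_eq_zero.1 h1).resolve_left
    (mul_ne_zero (anac_one_sub_ne (anac_pow_lt n3 1)) (pow_ne_zero _ (anac_ne1 n3)))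

end Pool.Agent.Lib.MP_4960b8_pr.QK
end

-- part Pool.Agent.Lib.MP_4960b8_pr.QK.CombB
section

/-! From the flux to the bridges. -/

namespace Pool.Agent.Lib.MP_4960b8_pr.QK

open SAW Filter Topology

lemma combb_mu_le_Zc {A S : Set (List V)} (hA : Summable fun γ : A => xc ^ γ.1.length)
    (hS : S.Finite) (h : S ⊆ A) : mu S ≤ Zc A := by
  classical
  unfold mu Zc
  rw [ms_eq_sum hS]
  have e : ∑ l ∈ hS.toFinset, wt l =
      ∑ γ ∈ hS.toFinset.subtype (· ∈ A), xc ^ γ.1.length :=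
    (Finset.sum_subtype_of_mem wt (s := hS.toFinset) (p := (· ∈ A))
      fun l hl => h (hS.mem_toFinset.1 hl)).symm
  rw [e]
  exact hA.sum_le_tsum _ fun γ _ => (pow_pos xc_pos _).le

lemma combb_Zc_le {A : Set (List V)} {c : ℝ} (h : ∀ S : Set (List V), S.Finite → S ⊆ A → mu S ≤ c) :
    Zc A ≤ c := by
  classical
  unfold Zc
  refine Real.tsum_le_of_sum_le (fun γ => (pow_pos xc_pos _).le) fun s => ?_
  have h1 := h (Subtype.val '' (s : Set A)) (s.finite_toSet.image _) (by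
    rintro _ ⟨γ, -, rfl⟩; exact γ.2)
  unfold mu ms at h1
  rw [finsum_mem_image Subtype.val_injective.injOn, finsum_mem_coe_finset] at h1
  exact h1

lemma combb_Zc_nonneg (A : Set (List V)) : 0 ≤ Zc A :=
  tsum_nonneg fun _ => (pow_pos xc_pos _).le

lemma combb_getLast (q : V) (l : List V) : (q :: l).getLast? = some (lv q l) := by
  induction l generalizing q with
  | nil => rfl
  | cons r l ih => rw [List.getLast?_cons_cons, ih]; rfl

/-- the vertex above -/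
def combb_up (b : V) : V := ⟨b.i, b.j, b.k + 1⟩

/-- a bridge followed by its exit edge -/
def combb_ext (γ : List V) : List V := γ.tail ++ [combb_up (lv q0 γ.tail)]

lemma combb_cons {T : ℕ} {γ : List V} (h : γ ∈ bridges T) : γ = q0 :: γ.tail := by
  obtain ⟨-, -, h3, -⟩ := h
  rcases γ with _ | ⟨a, l⟩
  · simp at h3
  · simp only [List.head?_cons, Option.some.injEq] at h3
    rw [h3]; rfl

lemma combb_brg {T : ℕ} {γ : List V} (h : γ ∈ bridges T) : Brg T (combb_ext γ) := by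
  have e := combb_cons h
  obtain ⟨h1, h2, -, h4, b, h5, h6, h7⟩ := h
  unfold combb_ext
  generalize γ.tail = l at e
  subst e
  rw [combb_getLast, Option.some.injEq] at h5
  have s1 : Saw p0 q0 l := by
    refine ⟨List.isChain_cons_cons.2 ⟨up0.adj, h1⟩, List.nodup_cons.2 ⟨fun hm => ?_, h2⟩⟩
    have := (h4 _ hm).1
    simp [p0] at this
  have ad : Adj (lv q0 l) (combb_up (lv q0 l)) := by
    rw [h5]; exact Or.inl ⟨h7, Or.inr (Or.inr rfl)⟩
  have hk : (combb_up (lv q0 l)).k = T := by rw [h5]; simp only [combb_up]; omega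
  refine ⟨?_, ?_, by simpa using hk⟩
  · refine ⟨?_, ?_⟩
    · have : p0 :: q0 :: (l ++ [combb_up (lv q0 l)]) = (p0 :: q0 :: l) ++ [combb_up (lv q0 l)] := rfl
      rw [this, List.isChain_append]
      refine ⟨s1.1, List.isChain_singleton _, fun x hx y hy => ?_⟩
      rw [List.getLast?_cons_cons, combb_getLast] at hx
      simp only [Option.mem_def, Option.some.injEq, List.head?_cons] at hx hy
      rw [← hx, ← hy]; exact ad
    · have : p0 :: q0 :: (l ++ [combb_up (lv q0 l)]) = (p0 :: q0 :: l) ++ [combb_up (lv q0 l)] := rfl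
      rw [this, List.nodup_append]
      refine ⟨s1.2, List.nodup_singleton _, fun x hx y hy exy => ?_⟩
      rw [List.mem_singleton] at hy
      rw [hy] at exy
      rcases List.mem_cons.1 hx with hx | hx
      · rw [hx] at exy
        rw [← exy] at hk
        simp only [p0] at hk
        omega
      · have := (h4 _ hx).2
        rw [exy, hk] at this
        omega
  · rw [Inn_append]
    exact ⟨Inn_of_forall fun u hu => h4 u hu, h4 _ (lv_mem _ _), trivial⟩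

lemma combb_drop (q : V) (l : List V) (hl : l ≠ []) (p : V) :
    (q :: l).dropLast.getLast? = some (pv p q l) := by
  induction l generalizing p q with
  | nil => exact absurd rfl hl
  | cons r l ih =>
    rcases l with _ | ⟨s, l⟩
    · rfl
    · have := ih r (by simp) q
      rw [List.dropLast_cons_cons, pv_cons, ← this, List.dropLast_cons_cons, List.getLast?_cons_cons]

lemma combb_drop_mem {D : Set V} {q : V} {l : List V} (h : Inn D q l) :
    ∀ u ∈ (q :: l).dropLast, u ∈ D := by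
  induction l generalizing q with
  | nil => intro u hu; simp at hu
  | cons r l ih =>
    intro u hu
    rw [List.dropLast_cons_cons] at hu
    rcases List.mem_cons.1 hu with rfl | hu
    · exact h.1
    · exact ih h.2 u hu

lemma combb_of_brg {T : ℕ} (hT : 1 ≤ T) {l : List V} (h : Brg T l) :
    (q0 :: l).dropLast ∈ bridges T := by
  obtain ⟨h1, h2, h3⟩ := h
  have hl : l ≠ [] := by
    rintro rfl
    simp only [lv_nil, q0] at h3
    omega
  have hs := top_step up0 h1 (h2.mono fun u hu => hu.2) h3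
  have ad := adj_iff.1 h1.adj_last
  refine ⟨?_, ?_, ?_, combb_drop_mem h2, pv p0 q0 l, combb_drop q0 l hl p0, by omega, by omega⟩
  · exact (List.isChain_cons_cons.1 h1.1).2.dropLast
  · exact (List.nodup_cons.1 h1.2).2.sublist (List.dropLast_sublist _)
  · rcases l with _ | ⟨r, l⟩
    · exact absurd rfl hl
    · rfl

lemma combb_drop_inj {T : ℤ} {l l' : List V} (h : Brg T l) (h' : Brg T l')
    (e : (q0 :: l).dropLast = (q0 :: l').dropLast) : l = l' := by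
  have key : ∀ l : List V, q0 :: l = (q0 :: l).dropLast ++ [lv q0 l] := by
    intro l
    have := List.dropLast_append_getLast? (l := q0 :: l) (lv q0 l) (by
      rw [combb_getLast]; rfl)
    exact this.symm
  by_cases hl : l = []
  · subst hl
    rcases l' with _ | ⟨r, l'⟩
    · rfl
    · simp at e
  by_cases hl' : l' = []
  · subst hl'
    rcases l with _ | ⟨r, l⟩
    · rfl
    · simp at e
  have e1 := combb_drop q0 l hl p0
  have e2 := combb_drop q0 l' hl' p0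
  rw [e, e2, Option.some.injEq] at e1
  have hs := top_step up0 h.1 (h.2.1.mono fun u hu => hu.2) h.2.2
  have hs' := top_step up0 h'.1 (h'.2.1.mono fun u hu => hu.2) h'.2.2
  have ad := adj_iff.1 h.1.adj_last
  have ad' := adj_iff.1 h'.1.adj_last
  have e3 : lv q0 l = lv q0 l' := by
    rw [e1] at hs' ad'
    rw [V.ext_iff]
    omega
  have := key l
  rw [e, e3, ← key l'] at this
  simpa using this

lemma combb_brg_le {T : ℕ} (hT : 1 ≤ T) {S : Set (List V)} (hS : S.Finite)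
    (h : ∀ l ∈ S, Brg T l) : mu S ≤ Zc (bridges T) := by
  refine le_trans (mu_le_of_inj (hS.image fun l => (q0 :: l).dropLast) _
    (fun l hl => Set.mem_image_of_mem _ hl)
    (fun l hl l' hl' e => combb_drop_inj (h l hl) (h l' hl') e) fun l _ => by simp)
    (combb_mu_le_Zc (bridges_summable T) (hS.image _) ?_)
  rintro _ ⟨l, hl, rfl⟩
  exact combb_of_brg hT (h l hl)

lemma combb_esc_le {T : ℕ} (hT : 1 ≤ T) (N : ℕ) :
    esc (tri N ∩ {u | u.k < T}) p0 q0 ≤ Zc (bridges T) + SAW.vv N := by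
  have g : SAW.Good (tri N ∩ {u | u.k < T}) p0 q0 := (good_tri N).inter (conv_k (· < (T : ℤ)))
  unfold esc
  rw [ms_split (g.finP _) fun l => (lv q0 l).k = T]
  refine add_le_add ?_ ?_
  · have f : {l | l ∈ {l | l ∈ Exit (tri N ∩ {u | u.k < T}) p0 q0 ∧ ¬ (lv q0 l).k < q0.k} ∧
        (lv q0 l).k = T}.Finite := g.finE.subset fun l hl => hl.1.1
    refine le_trans (ms_le_ms f fun l _ => om_le _ _ _) (combb_brg_le hT f fun l hl => ?_)
    exact ⟨hl.1.1.1, Inn.mono (D := tri N ∩ {u | u.k < T})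
      (fun u hu => And.intro hu.1.2.1 hu.2) hl.1.1.2.1, hl.2⟩
  · unfold SAW.vv esc
    refine ms_mono ((good_tri N).finP _) (fun l hl => ⟨⟨hl.1.1.1,
      hl.1.1.2.1.mono Set.inter_subset_left, fun hm => hl.1.1.2.2 ⟨hm, ?_⟩⟩, hl.1.2⟩)
      fun l hl => (good_tri N).om_nonneg hl.1
    have hq : q0 ∈ tri N ∩ {u | u.k < T} :=
      ⟨q0_mem (by omega), by show (0 : ℤ) < T; omega⟩
    have h1 : (pv p0 q0 l).k < T := (Exit.pv_mem hl.1.1 hq).2
    have h2 := adj_iff.1 hl.1.1.1.adj_last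
    have h3 := hl.2
    show (lv q0 l).k < T
    omega

theorem bridges_anti {T : ℕ} (hT : 1 ≤ T) : Zc (bridges (T + 1)) ≤ Zc (bridges T) := by
  refine le_of_forall_pos_le_add fun ε hε => combb_Zc_le fun S hS hA => ?_
  obtain ⟨N, hN⟩ := decay_any hε
  have h1 := hN N le_rfl 1
  rw [pow_one, pow_one] at h1
  have g : SAW.Good (tri N ∩ {u | u.k < T}) p0 q0 := (good_tri N).inter (conv_k (· < (T : ℤ)))
  have h2 : mu S ≤ mu (combb_ext '' S) := by
    refine mu_le_of_inj (hS.image _) _ (fun l hl => Set.mem_image_of_mem _ hl)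
      (fun l hl l' hl' e => ?_) fun l hl => ?_
    · rw [combb_cons (hA hl), combb_cons (hA hl')]
      unfold combb_ext at e
      rw [(List.append_inj' e rfl).1]
    · conv_rhs => rw [combb_cons (hA hl)]
      simp [combb_ext]
  have h3 : mu (combb_ext '' S) ≤ esc (tri N ∩ {u | u.k < T}) p0 q0 := by
    refine brg_le (t := ((T + 1 : ℕ) : ℤ)) (by omega) (hS.image _) ?_ g fun u hu => ⟨hu.1.1, ?_⟩
    · rintro _ ⟨l, hl, rfl⟩
      exact combb_brg (hA hl)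
    · have : u.k < T := hu.2
      omega
  have h4 := combb_esc_le hT N
  linarith

lemma combb_real (B S : ℕ → ℝ) {a c C : ℝ} (ha : 0 < a) (hc : 0 < c) {T₀ : ℕ} (h0 : 1 ≤ T₀)
    (hB0 : ∀ T, 0 ≤ B T) (hB1 : ∀ T, B T ≤ 1) (hanti : ∀ T, 1 ≤ T → B (T + 1) ≤ B T)
    (hS : ∀ T, T₀ ≤ T → c * (T : ℝ) ^ (3 / 4 : ℝ) ≤ S T ∧ S T ≤ C * (T : ℝ) ^ (3 / 4 : ℝ))
    (hd : ∀ T, T₀ ≤ T → a * B T ≤ S (T + 1) - S T ∧ S (T + 1) - S T ≤ B (T + 1)) :
    ∃ c' C' : ℝ, 0 < c' ∧ ∀ T : ℕ, 1 ≤ T →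
      c' * (T : ℝ) ^ (-1 / 4 : ℝ) ≤ B T ∧ B T ≤ C' * (T : ℝ) ^ (-1 / 4 : ℝ) := by
  have anti : ∀ n m, 1 ≤ n → B (n + m) ≤ B n := by
    intro n m hn
    induction m with
    | zero => exact le_rfl
    | succ m ih => exact (hanti (n + m) (by omega)).trans ih
  have lo : ∀ m, a * m * B (T₀ + m) ≤ S (T₀ + m) - S T₀ := by
    intro m
    induction m with
    | zero => simp
    | succ m ih =>
      have h1 := (hd (T₀ + m) (by omega)).1
      have h2 := hanti (T₀ + m) (by omega)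
      have h3 : a * (m + 1) * B (T₀ + m + 1) ≤ a * (m + 1) * B (T₀ + m) :=
        mul_le_mul_of_nonneg_left h2 (by positivity)
      rw [← add_assoc]
      push_cast
      linarith
  have hi : ∀ n m, T₀ ≤ n → S (n + m) - S n ≤ m * B n := by
    intro n m hn
    induction m with
    | zero => simp
    | succ m ih =>
      have h1 := (hd (n + m) (by omega)).2
      have h2 := anti n (m + 1) (by omega)
      rw [← add_assoc] at h2 ⊢
      push_cast
      linarith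
  have pw : ∀ T : ℕ, 1 ≤ T → 1 ≤ (T : ℝ) ^ (3 / 4 : ℝ) ∧ 0 < (T : ℝ) ^ (-1 / 4 : ℝ) ∧
      (T : ℝ) ^ (-1 / 4 : ℝ) ≤ 1 ∧ (T : ℝ) ^ (3 / 4 : ℝ) = T * (T : ℝ) ^ (-1 / 4 : ℝ) := by
    intro T hT
    have h1 : (1 : ℝ) ≤ T := by exact_mod_cast hT
    refine ⟨Real.one_le_rpow h1 (by norm_num), Real.rpow_pos_of_pos (by linarith) _,
      Real.rpow_le_one_of_one_le_of_nonpos h1 (by norm_num), ?_⟩
    rw [show (3 / 4 : ℝ) = 1 + -1 / 4 by norm_num, Real.rpow_add (by linarith), Real.rpow_one]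
  have hC : 0 < C := by
    have h1 := hS T₀ le_rfl
    have h2 := (pw T₀ h0).1
    nlinarith
  obtain ⟨M, hM1, hM⟩ : ∃ M : ℕ, 1 ≤ M ∧ C + 1 ≤ c * (M : ℝ) ^ (3 / 4 : ℝ) := by
    have h1 : Tendsto (fun M : ℕ => c * (M : ℝ) ^ (3 / 4 : ℝ)) atTop atTop :=
      ((tendsto_rpow_atTop (by norm_num)).comp tendsto_natCast_atTop_atTop).const_mul_atTop hc
    obtain ⟨M, hM⟩ := ((eventually_ge_atTop 1).and (h1.eventually_ge_atTop (C + 1))).exists
    exact ⟨M, hM⟩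
  have hM0 : (0 : ℝ) < M := by exact_mod_cast hM1
  have big : ∀ T : ℕ, T₀ ≤ T → (T : ℝ) ^ (-1 / 4 : ℝ) / M ≤ B T := by
    intro T hT
    obtain ⟨p1, p2, p3, p4⟩ := pw T (by omega)
    have hT0 : (0 : ℝ) < T := by exact_mod_cast (by omega : 0 < T)
    have hle : T ≤ M * T := Nat.le_mul_of_pos_left T hM1
    have h1 := hi T (M * T - T) hT
    rw [Nat.add_sub_cancel' hle, Nat.cast_sub hle] at h1
    have h2 := (hS (M * T) (hT.trans hle)).1
    have h3 := (hS T hT).2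
    push_cast at h1 h2
    rw [Real.mul_rpow hM0.le hT0.le, ← mul_assoc] at h2
    have h4 : (C + 1) * (T : ℝ) ^ (3 / 4 : ℝ) ≤ c * (M : ℝ) ^ (3 / 4 : ℝ) * (T : ℝ) ^ (3 / 4 : ℝ) :=
      mul_le_mul_of_nonneg_right hM (by linarith)
    have h5 : (T : ℝ) * (T : ℝ) ^ (-1 / 4 : ℝ) ≤ T * (B T * M) := by
      rw [← p4]
      have := mul_nonneg hT0.le (hB0 T)
      nlinarith
    rw [div_le_iff₀ hM0]
    exact le_of_mul_le_mul_left h5 hT0
  obtain ⟨-, q2, q3, -⟩ := pw T₀ h0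
  refine ⟨(T₀ : ℝ) ^ (-1 / 4 : ℝ) / M, C / a + T₀, div_pos q2 hM0, fun T hT => ?_⟩
  obtain ⟨p1, p2, p3, p4⟩ := pw T hT
  have hT0 : (0 : ℝ) < T := by exact_mod_cast (by omega : 0 < T)
  have hCa : 0 < C / a := div_pos hC ha
  have hT₀ : (0 : ℝ) ≤ T₀ := Nat.cast_nonneg _
  constructor
  · rcases le_total T₀ T with h | h
    · refine le_trans ?_ (big T h)
      rw [div_mul_eq_mul_div]
      exact div_le_div_of_nonneg_right (by nlinarith) hM0.le
    · have h1 := anti T (T₀ - T) hT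
      rw [Nat.add_sub_cancel' h] at h1
      refine le_trans ?_ ((big T₀ le_rfl).trans h1)
      exact mul_le_of_le_one_right (div_pos q2 hM0).le p3
  · have key : (T : ℝ) * B T ≤ (C / a + T₀) * (T : ℝ) ^ (3 / 4 : ℝ) := by
      have b0 := hB0 T
      have b1 := hB1 T
      rcases le_total T₀ T with h | h
      · have h1 := lo (T - T₀)
        rw [Nat.add_sub_cancel' h, Nat.cast_sub h] at h1
        have h2 := (hS T h).2
        have h3 := (hS T₀ le_rfl).1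
        have h4 : 0 ≤ c * (T₀ : ℝ) ^ (3 / 4 : ℝ) := by positivity
        have h5 : ((T : ℝ) - T₀) * B T ≤ C / a * (T : ℝ) ^ (3 / 4 : ℝ) := by
          rw [div_mul_eq_mul_div, le_div_iff₀ ha]
          linarith
        have h6 : (T₀ : ℝ) * B T ≤ T₀ * (T : ℝ) ^ (3 / 4 : ℝ) :=
          mul_le_mul_of_nonneg_left (b1.trans p1) hT₀
        linarith
      · have h1 : (T : ℝ) ≤ T₀ := by exact_mod_cast h
        have h2 : (T : ℝ) * B T ≤ T₀ * (T : ℝ) ^ (3 / 4 : ℝ) :=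
          mul_le_mul h1 (b1.trans p1) b0 hT₀
        have h3 : 0 ≤ C / a * (T : ℝ) ^ (3 / 4 : ℝ) := by positivity
        linarith
    rw [p4, mul_left_comm] at key
    exact le_of_mul_le_mul_left key hT0

theorem comb : StmtComb := by
  rintro ⟨c, C, hc, T₀, h⟩
  choose! S hS using h
  obtain ⟨c', C', hc', H⟩ := combb_real (fun T => Zc (bridges T)) S (a := xc ^ 2) (C := C)
    (pow_pos xc_pos 2) hc (T₀ := T₀ + 1) (by omega) (fun T => combb_Zc_nonneg _) bridges_le_one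
    (fun T hT => bridges_anti hT) (fun T hT => (hS T (by omega)).2)
    (fun T hT => comb_step (by omega) (hS T (by omega)).1 (hS (T + 1) (by omega)).1)
  exact ⟨c', C', hc', fun T hT => ⟨bridges_summable T, H T hT⟩⟩

end Pool.Agent.Lib.MP_4960b8_pr.QK
end
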