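import Pool.Agent.Lib.MP_4960b8_pr.SAW.Defs

/-! Self-avoiding bridges of a strip of the hexagonal lattice. -/

namespace Pool.Agent.Lib.MP_4960b8_pr.QK

open SAW

/-- Bridges of the strip made of the rows `0 ≤ k < T`: self-avoiding walks, as lists of vertices,
from the lower vertex `(1, 1, 0)` of the bottom row to an upper vertex (sum `1`) of the top row. -/
def bridges (T : ℕ) : Set (List V) := {γ | γ.IsChain Adj ∧ γ.Nodup ∧ γ.head? = some ⟨1, 1, 0⟩ ∧
  (∀ v ∈ γ, 0 ≤ v.k ∧ v.k < T) ∧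
  ∃ b, γ.getLast? = some b ∧ b.k = T - 1 ∧ b.i + b.j + b.k = 1}

end Pool.Agent.Lib.MP_4960b8_pr.QK
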