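import Pool.Agent.Lib.MP_4960b8_pr.QK.Ident0

/-! Unitarity, rotation, crossing and reflection. -/

namespace Pool.Agent.Lib.MP_4960b8_pr.QK

set_option linter.unusedSimpArgs false

open IdentAux

lemma ident_uni_0 (a b : P) :
    dd b a * xc a b + xc b a * xe a b * xf a b = 0 := by
  simp only [dd, xc, xe, xf]
  ring

lemma ident_uni_1 (a b : P) :
    xc a b + xc b a = 0 := by
  simp only [xc]
  ring

lemma ident_uni_2 (a b : P) :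
    -dd a b * dd b a + xe a b * xe b a * xf a b * xf b a = 0 := by
  simp only [dd, xe, xf]
  ring

lemma ident_uni_3 (a b : P) :
    dd a b * xc b a + xc a b * xe b a * xf b a = 0 := by
  simp only [dd, xc, xe, xf]
  ring

lemma ident_uni_4 (a b : P) :
    -a.1 * a.2 * b.1 * b.2 * uz ^ 2 * xe a b * xe b a * ζ ^ 4 + dd a b * dd b a * ζ ^ 4 + xc a b *
      xc b a * xe a b * xe b a = 0 := by
  simp only [dd, xc, xe, uz]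
  linear_combination (-a.1 * a.2 ^ 3 * b.1 ^ 3 * b.2 - 2 * a.1 * a.2 ^ 3 * b.1 ^ 3 * b.2 * ζ ^ 6 -
    a.1 * a.2 ^ 3 * b.1 ^ 3 * b.2 * ζ ^ 12 + 2 * a.1 ^ 2 * a.2 ^ 2 * b.1 ^ 2 * b.2 ^ 2 + 2 * a.1 ^
    2 * a.2 ^ 2 * b.1 ^ 2 * b.2 ^ 2 * ζ ^ 6 + 2 * a.1 ^ 2 * a.2 ^ 2 * b.1 ^ 2 * b.2 ^ 2 * ζ ^ 12 -
    a.1 ^ 3 * a.2 * b.1 * b.2 ^ 3 - 2 * a.1 ^ 3 * a.2 * b.1 * b.2 ^ 3 * ζ ^ 6 - a.1 ^ 3 * a.2 * b.1
    * b.2 ^ 3 * ζ ^ 12 + a.1 ^ 4 * b.2 ^ 4 * ζ ^ 6 + a.2 ^ 4 * b.1 ^ 4 * ζ ^ 6) * h8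

lemma ident_uni_5 (a b : P) :
    a.1 * a.2 * b.1 * b.2 * uz ^ 2 * xc a b * xc b a * ζ ^ 6 + xc a b * xe b a * xf b a * xg a b +
      xc b a * xe a b * xf a b * xg b a = 0 := by
  simp only [xc, xe, xf, xg, uz]
  linear_combination (-a.1 * a.2 ^ 3 * b.1 ^ 3 * b.2 * ζ ^ 4 - 2 * a.1 * a.2 ^ 3 * b.1 ^ 3 * b.2 *
    ζ ^ 6 - a.1 * a.2 ^ 3 * b.1 ^ 3 * b.2 * ζ ^ 8 + 2 * a.1 ^ 2 * a.2 ^ 2 * b.1 ^ 2 * b.2 ^ 2 * ζ ^
    4 + 2 * a.1 ^ 2 * a.2 ^ 2 * b.1 ^ 2 * b.2 ^ 2 * ζ ^ 6 + 2 * a.1 ^ 2 * a.2 ^ 2 * b.1 ^ 2 * b.2 ^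
    2 * ζ ^ 8 - a.1 ^ 3 * a.2 * b.1 * b.2 ^ 3 * ζ ^ 4 - 2 * a.1 ^ 3 * a.2 * b.1 * b.2 ^ 3 * ζ ^ 6 -
    a.1 ^ 3 * a.2 * b.1 * b.2 ^ 3 * ζ ^ 8 + a.1 ^ 4 * b.2 ^ 4 * ζ ^ 6 + a.2 ^ 4 * b.1 ^ 4 * ζ ^ 6)
    * h8

theorem unitar (a b : P) : R b a * R a b = (dd a b * dd b a) • 1 := by
  refine ext2 fun v r s t => ?_
  cases r <;> cases s
  all_goals simp only [Module.End.mul_apply, R_apply, lift_apply, Rf, vv_f, w1_f, w2_f, ul_f, uu_f,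
    cr_f, jn_f, LinearMap.smul_apply, Pi.smul_apply, smul_eq_mul, Module.End.one_apply]
  case o.o =>
    linear_combination (a.2 * b.2 * uz * v (cons .m (cons .p t)) * ζ ^ 6 - a.2 * b.2 * uz * v (cons
      .p (cons .m t)) * ζ ^ 2) * ident_uni_0 a b + (a.1 * a.2 * b.1 * b.2 * uz ^ 2 * v (cons .o
      (cons .o t)) * xc a b * xc b a * ζ ^ 10 + a.2 * b.2 * uz * v (cons .m (cons .p t)) * xc a b *
      xc b a * xg a b * ζ ^ 10 - a.2 * b.2 * uz * v (cons .p (cons .m t)) * xc a b * xc b a * xg a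
      b * ζ ^ 6) * h8
  case o.p =>
    linear_combination (-a.2 * b.1 * uz * v (cons .p (cons .o t)) * xe a b * xe b a * ζ ^ 2) *
      ident_uni_1 a b + v (cons .o (cons .p t)) * ζ ^ 4 * ident_uni_4 a b + (a.1 * a.2 * b.1 * b.2
      * uz ^ 2 * v (cons .o (cons .p t)) * xe a b * xe b a - dd a b * dd b a * v (cons .o (cons .p
      t))) * h8
  case o.m =>
    linear_combination (-a.2 * b.1 * uz * v (cons .m (cons .o t)) * xe a b * xe b a * ζ ^ 2) *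
      ident_uni_1 a b + v (cons .o (cons .m t)) * ζ ^ 4 * ident_uni_4 a b + (a.1 * a.2 * b.1 * b.2
      * uz ^ 2 * v (cons .o (cons .m t)) * xe a b * xe b a - dd a b * dd b a * v (cons .o (cons .m
      t))) * h8
  case p.o =>
    linear_combination (-a.1 * b.2 * uz * v (cons .o (cons .p t)) * xe a b * xe b a * ζ ^ 2) *
      ident_uni_1 a b + v (cons .p (cons .o t)) * ζ ^ 4 * ident_uni_4 a b + (a.1 * a.2 * b.1 * b.2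
      * uz ^ 2 * v (cons .p (cons .o t)) * xe a b * xe b a - dd a b * dd b a * v (cons .p (cons .o
      t))) * h8
  case p.p =>
    linear_combination v (cons .p (cons .p t)) * ident_uni_2 a b
  case p.m =>
    linear_combination v (cons .p (cons .m t)) * ident_uni_2 a b + a.1 * b.1 * uz * v (cons .o
      (cons .o t)) * ident_uni_3 a b + (v (cons .m (cons .p t)) + v (cons .p (cons .m t)) * ζ ^ 4)
      * ident_uni_5 a b + (-a.1 * a.2 * b.1 * b.2 * uz ^ 2 * v (cons .m (cons .p t)) * xc a b * xc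
      b a * ζ ^ 6 - a.1 * b.1 * dd a b * uz * v (cons .o (cons .o t)) * xc b a - a.1 * b.1 * uz * v
      (cons .o (cons .o t)) * xc a b * xc b a * xg b a * ζ ^ 12 - a.1 * b.1 * uz * v (cons .o (cons
      .o t)) * xc a b * xe b a * xf b a - v (cons .m (cons .p t)) * xc a b * xc b a * xg a b * xg b
      a * ζ ^ 12 - v (cons .m (cons .p t)) * xc a b * xe b a * xf b a * xg a b - v (cons .m (cons
      .p t)) * xc b a * xe a b * xf a b * xg b a + v (cons .p (cons .m t)) * xc a b * xc b a * xg a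
      b * xg b a * ζ ^ 8) * h8
  case m.o =>
    linear_combination (-a.1 * b.2 * uz * v (cons .o (cons .m t)) * xe a b * xe b a * ζ ^ 2) *
      ident_uni_1 a b + v (cons .m (cons .o t)) * ζ ^ 4 * ident_uni_4 a b + (a.1 * a.2 * b.1 * b.2
      * uz ^ 2 * v (cons .m (cons .o t)) * xe a b * xe b a - dd a b * dd b a * v (cons .m (cons .o
      t))) * h8
  case m.p =>
    linear_combination v (cons .m (cons .p t)) * ident_uni_2 a b + (-a.1 * b.1 * uz * v (cons .o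
      (cons .o t)) * ζ ^ 4) * ident_uni_3 a b + (-v (cons .m (cons .p t)) * ζ ^ 4 + v (cons .p
      (cons .m t))) * ident_uni_5 a b + (a.1 * a.2 * b.1 * b.2 * uz ^ 2 * v (cons .m (cons .p t)) *
      xc a b * xc b a * ζ ^ 10 - a.1 * a.2 * b.1 * b.2 * uz ^ 2 * v (cons .p (cons .m t)) * xc a b
      * xc b a * ζ ^ 6 + a.1 * b.1 * dd a b * uz * v (cons .o (cons .o t)) * xc b a * ζ ^ 4 + a.1 *
      b.1 * uz * v (cons .o (cons .o t)) * xc a b * xc b a * xg b a * ζ ^ 16 + a.1 * b.1 * uz * v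
      (cons .o (cons .o t)) * xc a b * xe b a * xf b a * ζ ^ 4 + v (cons .m (cons .p t)) * xc a b *
      xc b a * xg a b * xg b a * ζ ^ 16 + v (cons .m (cons .p t)) * xc a b * xe b a * xf b a * xg a
      b * ζ ^ 4 + v (cons .m (cons .p t)) * xc b a * xe a b * xf a b * xg b a * ζ ^ 4 - v (cons .p
      (cons .m t)) * xc a b * xc b a * xg a b * xg b a * ζ ^ 12 - v (cons .p (cons .m t)) * xc a b
      * xe b a * xf b a * xg a b - v (cons .p (cons .m t)) * xc b a * xe a b * xf a b * xg b a) *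
      h8
  case m.m =>
    linear_combination v (cons .m (cons .m t)) * ident_uni_2 a b
  all_goals ring

lemma ident_self_0 (a : P) :
    xc a a = 0 := by
  simp only [xc]
  ring

lemma ident_self_1 (a : P) :
    a.1 * a.2 * uz * xe a a - dd a a = 0 := by
  simp only [dd, xe, uz]
  ring

lemma ident_self_2 (a : P) :
    -dd a a + xe a a * xf a a = 0 := by
  simp only [dd, xe, xf]
  ring

theorem R_self (a : P) : R a a = dd a a • 1 := by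
  refine ext2 fun v r s t => ?_
  cases r <;> cases s
  all_goals simp only [R_apply, Rf, vv_f, w1_f, w2_f, ul_f, uu_f, cr_f, jn_f, LinearMap.smul_apply,
    Pi.smul_apply, smul_eq_mul, Module.End.one_apply]
  case o.o =>
    linear_combination (a.2 ^ 2 * uz * v (cons .m (cons .p t)) * ζ ^ 6 - a.2 ^ 2 * uz * v (cons .p
      (cons .m t)) * ζ ^ 2) * ident_self_0 a
  case o.p =>
    linear_combination (-v (cons .p (cons .o t)) * xe a a * ζ ^ 2) * ident_self_0 a + v (cons .o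
      (cons .p t)) * ident_self_1 a
  case o.m =>
    linear_combination (-v (cons .m (cons .o t)) * xe a a * ζ ^ 2) * ident_self_0 a + v (cons .o
      (cons .m t)) * ident_self_1 a
  case p.o =>
    linear_combination (-v (cons .o (cons .p t)) * xe a a * ζ ^ 2) * ident_self_0 a + v (cons .p
      (cons .o t)) * ident_self_1 a
  case p.p =>
    linear_combination v (cons .p (cons .p t)) * ident_self_2 a
  case p.m =>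
    linear_combination (a.1 ^ 2 * uz * v (cons .o (cons .o t)) + v (cons .m (cons .p t)) * xg a a +
      v (cons .p (cons .m t)) * xg a a * ζ ^ 4) * ident_self_0 a + v (cons .p (cons .m t)) *
      ident_self_2 a + (-a.1 ^ 2 * uz * v (cons .o (cons .o t)) * xc a a - v (cons .m (cons .p t))
      * xc a a * xg a a) * h8
  case m.o =>
    linear_combination (-v (cons .o (cons .m t)) * xe a a * ζ ^ 2) * ident_self_0 a + v (cons .m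
      (cons .o t)) * ident_self_1 a
  case m.p =>
    linear_combination (-a.1 ^ 2 * uz * v (cons .o (cons .o t)) * ζ ^ 4 - v (cons .m (cons .p t)) *
      xg a a * ζ ^ 4 + v (cons .p (cons .m t)) * xg a a) * ident_self_0 a + v (cons .m (cons .p t))
      * ident_self_2 a + (a.1 ^ 2 * uz * v (cons .o (cons .o t)) * xc a a * ζ ^ 4 + v (cons .m
      (cons .p t)) * xc a a * xg a a * ζ ^ 4 - v (cons .p (cons .m t)) * xc a a * xg a a) * h8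
  case m.m =>
    linear_combination v (cons .m (cons .m t)) * ident_self_2 a
  all_goals ring

lemma ident_rot_0 (c m : P) :
    dd c m - dd m (sh c) = 0 := by
  simp only [dd, sh_1, sh_2]
  linear_combination (-c.1 * c.2 * m.1 * m.2 * ζ ^ 4 - c.1 * c.2 * m.1 * m.2 * ζ ^ 6 + c.1 * c.2 *
    m.1 * m.2 * ζ ^ 12 + c.1 * c.2 * m.1 * m.2 * ζ ^ 14 + c.1 ^ 2 * m.2 ^ 2 * ζ ^ 10 - c.1 ^ 2 *
    m.2 ^ 2 * ζ ^ 18 + c.2 ^ 2 * m.1 ^ 2 - c.2 ^ 2 * m.1 ^ 2 * ζ ^ 8) * h8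

lemma ident_rot_1 (c m : P) :
    xc m (sh c) * ζ ^ 3 + xe c m = 0 := by
  simp only [xc, xe, sh_1, sh_2]
  linear_combination (c.1 * m.2 - c.1 * m.2 * ζ ^ 8) * h8

lemma ident_rot_2 (c m : P) :
    xc c m * xe c m - xc m (sh c) * xe m (sh c) = 0 := by
  simp only [xc, xe, sh_1, sh_2]
  linear_combination (-c.1 * c.2 * m.1 * m.2 - c.1 * c.2 * m.1 * m.2 * ζ ^ 6 + c.1 * c.2 * m.1 *
    m.2 * ζ ^ 8 + c.1 * c.2 * m.1 * m.2 * ζ ^ 14 + c.1 ^ 2 * m.2 ^ 2 - c.1 ^ 2 * m.2 ^ 2 * ζ ^ 8 +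
    c.1 ^ 2 * m.2 ^ 2 * ζ ^ 16 - c.1 ^ 2 * m.2 ^ 2 * ζ ^ 24) * h8

lemma ident_rot_3 (c m : P) :
    xc c m - xe m (sh c) * ζ ^ 5 = 0 := by
  simp only [xc, xe, sh_1, sh_2]
  linear_combination (c.1 * m.2 - c.1 * m.2 * ζ ^ 8 + c.1 * m.2 * ζ ^ 16 - c.2 * m.1) * h8

lemma ident_rot_4 (c m : P) :
    xc c m * xg c m - xe m (sh c) * xf m (sh c) = 0 := by
  simp only [xc, xe, xf, xg, sh_1, sh_2]
  linear_combination (-c.1 * c.2 * m.1 * m.2 * ζ ^ 4 - c.1 * c.2 * m.1 * m.2 * ζ ^ 6 + c.1 * c.2 *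
    m.1 * m.2 * ζ ^ 12 + c.1 * c.2 * m.1 * m.2 * ζ ^ 14 + c.1 ^ 2 * m.2 ^ 2 * ζ ^ 4 - c.1 ^ 2 * m.2
    ^ 2 * ζ ^ 12 + c.1 ^ 2 * m.2 ^ 2 * ζ ^ 20 - c.1 ^ 2 * m.2 ^ 2 * ζ ^ 28) * h8

lemma ident_rot_5 (c m : P) :
    -xc m (sh c) * xg m (sh c) + xe c m * xf c m = 0 := by
  simp only [xc, xe, xf, xg, sh_1, sh_2]
  linear_combination (-c.1 * c.2 * m.1 * m.2 * ζ ^ 4 - c.1 * c.2 * m.1 * m.2 * ζ ^ 6 + c.1 * c.2 *
    m.1 * m.2 * ζ ^ 12 + c.1 * c.2 * m.1 * m.2 * ζ ^ 14 + c.1 ^ 2 * m.2 ^ 2 - c.1 ^ 2 * m.2 ^ 2 * ζ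
    ^ 8 + c.1 ^ 2 * m.2 ^ 2 * ζ ^ 16 - c.1 ^ 2 * m.2 ^ 2 * ζ ^ 24) * h8

theorem rot (c m : P) : lift (R c m) * ins c = R m (sh c) * lift (ins c) := by
  refine ext3 fun v r s u t => ?_
  cases r <;> cases s <;> cases u
  all_goals simp only [Module.End.mul_apply, R_apply, lift_apply, Rf, vv_f, w1_f, w2_f, ul_f, uu_f,
    cr_f, jn_f, ins_oo, ins_op, ins_om, ins_po, ins_pp, ins_pm, ins_mo, ins_mp, ins_mm, mul_zero,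
    add_zero, zero_add, sub_zero, sh_1, sh_2]
  case o.o.o =>
    linear_combination c.2 * v (cons .o t) * ident_rot_0 c m
  case o.o.p =>
    linear_combination c.1 * c.2 * m.2 * uz * v (cons .p t) * ident_rot_1 c m + (-c.1 * c.2 * m.2 *
      uz * v (cons .p t) * xc m (sh c) * ζ ^ 3) * h8
  case o.o.m =>
    linear_combination c.1 * c.2 * m.2 * uz * v (cons .m t) * ident_rot_1 c m + (-c.1 * c.2 * m.2 *
      uz * v (cons .m t) * xc m (sh c) * ζ ^ 3) * h8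
  case o.p.o =>
    linear_combination (-c.2 * v (cons .p t) * ζ ^ 2) * ident_rot_2 c m
  case o.p.m =>
    linear_combination c.1 * c.2 * m.1 * uz * v (cons .o t) * ident_rot_3 c m + (-c.1 * c.2 * m.1 *
      uz * v (cons .o t) * xc c m) * h8
  case o.m.o =>
    linear_combination (-c.2 * v (cons .m t) * ζ ^ 2) * ident_rot_2 c m
  case o.m.p =>
    linear_combination (-c.1 * c.2 * m.1 * uz * v (cons .o t) * ζ ^ 4) * ident_rot_3 c m + c.1 *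
      c.2 * m.1 * uz * v (cons .o t) * xc c m * ζ ^ 4 * h8
  case p.o.o =>
    linear_combination (-c.1 * c.2 * m.2 * uz * v (cons .p t)) * ident_rot_3 c m + (c.1 * c.2 * m.2
      * uz * v (cons .p t) * xc c m - c.1 * c.2 * m.2 * uz * v (cons .p t) * xe m (sh c) * ζ ^ 5) *
      h8
  case p.o.m =>
    linear_combination (-c.1 * v (cons .o t) * ζ ^ 4) * ident_rot_2 c m
  case p.p.m =>
    linear_combination c.1 * v (cons .p t) * ζ ^ 2 * ident_rot_4 c m + (-c.1 * v (cons .p t) * xc c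
      m * xg c m * ζ ^ 2) * h8
  case p.m.o =>
    linear_combination c.1 * c.2 * m.1 * uz * v (cons .o t) * ζ ^ 2 * ident_rot_1 c m + (-c.1 * c.2
      * m.1 * uz * v (cons .o t) * xc m (sh c) * ζ ^ 5 + c.1 * c.2 * m.1 * uz * v (cons .o t) * xc
      m (sh c) * ζ ^ 13) * h8
  case p.m.p =>
    linear_combination (-c.1 * v (cons .p t) * ζ ^ 6) * ident_rot_4 c m + c.1 * v (cons .p t) * ζ ^
      2 * ident_rot_5 c m + (c.1 * v (cons .p t) * xc c m * xg c m * ζ ^ 6 + c.1 * v (cons .p t) *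
      xc m (sh c) * xg m (sh c) * ζ ^ 2) * h8
  case p.m.m =>
    linear_combination c.1 * v (cons .m t) * ζ ^ 2 * ident_rot_5 c m + c.1 * v (cons .m t) * xc m
      (sh c) * xg m (sh c) * ζ ^ 2 * h8
  case m.o.o =>
    linear_combination (-c.1 * c.2 * m.2 * uz * v (cons .m t)) * ident_rot_3 c m + (c.1 * c.2 * m.2
      * uz * v (cons .m t) * xc c m - c.1 * c.2 * m.2 * uz * v (cons .m t) * xe m (sh c) * ζ ^ 5) *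
      h8
  case m.o.p =>
    linear_combination (-c.1 * v (cons .o t)) * ident_rot_2 c m + (c.1 * v (cons .o t) * xc c m *
      xe c m - c.1 * v (cons .o t) * xc m (sh c) * xe m (sh c)) * h8
  case m.p.o =>
    linear_combination (-c.1 * c.2 * m.1 * uz * v (cons .o t) * ζ ^ 6) * ident_rot_1 c m + (c.1 *
      c.2 * m.1 * uz * v (cons .o t) * xc m (sh c) * ζ ^ 9 - c.1 * c.2 * m.1 * uz * v (cons .o t) *
      xc m (sh c) * ζ ^ 17) * h8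
  case m.p.p =>
    linear_combination (-c.1 * v (cons .p t) * ζ ^ 6) * ident_rot_5 c m + (-c.1 * v (cons .p t) *
      xc m (sh c) * xg m (sh c) * ζ ^ 6) * h8
  case m.p.m =>
    linear_combination c.1 * v (cons .m t) * ζ ^ 2 * ident_rot_4 c m + (-c.1 * v (cons .m t) * ζ ^
      6) * ident_rot_5 c m + (-c.1 * v (cons .m t) * xc c m * xg c m * ζ ^ 2 - c.1 * v (cons .m t)
      * xc m (sh c) * xg m (sh c) * ζ ^ 6) * h8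
  case m.m.p =>
    linear_combination (-c.1 * v (cons .m t) * ζ ^ 6) * ident_rot_4 c m + c.1 * v (cons .m t) * xc
      c m * xg c m * ζ ^ 6 * h8
  all_goals ring

lemma ident_cr1_0 (c m : P) :
    dd (sh c) m * xe c m - xc (sh c) m * xc c m * xg c m * ζ ^ 3 = 0 := by
  simp only [dd, xc, xe, xg, sh_1, sh_2]
  linear_combination (c.1 * c.2 ^ 2 * m.1 ^ 2 * m.2 * ζ ^ 6 - c.1 * c.2 ^ 2 * m.1 ^ 2 * m.2 * ζ ^
    10 - c.1 * c.2 ^ 2 * m.1 ^ 2 * m.2 * ζ ^ 12 - c.1 * c.2 ^ 2 * m.1 ^ 2 * m.2 * ζ ^ 14 + c.1 *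
    c.2 ^ 2 * m.1 ^ 2 * m.2 * ζ ^ 18 + c.1 * c.2 ^ 2 * m.1 ^ 2 * m.2 * ζ ^ 20 + c.1 ^ 2 * c.2 * m.1
    * m.2 ^ 2 * ζ ^ 10 - c.1 ^ 2 * c.2 * m.1 * m.2 ^ 2 * ζ ^ 18 + c.1 ^ 2 * c.2 * m.1 * m.2 ^ 2 * ζ
    ^ 26 - c.1 ^ 2 * c.2 * m.1 * m.2 ^ 2 * ζ ^ 34 - c.1 ^ 3 * m.2 ^ 3 * ζ ^ 20 + c.1 ^ 3 * m.2 ^ 3
    * ζ ^ 28) * h8

lemma ident_cr1_1 (c m : P) :
    xc (sh c) m + xe c m * ζ ^ 5 = 0 := by
  simp only [xc, xe, sh_1, sh_2]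
  linear_combination (c.1 * m.2 * ζ ^ 5 - c.2 * m.1 * ζ ^ 3) * h8

lemma ident_cr1_2 (c m : P) :
    -dd (sh c) m * dd c m + xc c m * xe (sh c) m * xf (sh c) m * xg c m = 0 := by
  simp only [dd, xc, xe, xf, xg, sh_1, sh_2]
  linear_combination (c.1 * c.2 ^ 3 * m.1 ^ 3 * m.2 * ζ ^ 10 + c.1 * c.2 ^ 3 * m.1 ^ 3 * m.2 * ζ ^
    12 - c.1 * c.2 ^ 3 * m.1 ^ 3 * m.2 * ζ ^ 18 - c.1 * c.2 ^ 3 * m.1 ^ 3 * m.2 * ζ ^ 20 - c.1 ^ 2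
    * c.2 ^ 2 * m.1 ^ 2 * m.2 ^ 2 * ζ ^ 16 + c.1 ^ 2 * c.2 ^ 2 * m.1 ^ 2 * m.2 ^ 2 * ζ ^ 20 + c.1 ^
    2 * c.2 ^ 2 * m.1 ^ 2 * m.2 ^ 2 * ζ ^ 24 - c.1 ^ 2 * c.2 ^ 2 * m.1 ^ 2 * m.2 ^ 2 * ζ ^ 28 - c.1
    ^ 3 * c.2 * m.1 * m.2 ^ 3 * ζ ^ 24 - c.1 ^ 3 * c.2 * m.1 * m.2 ^ 3 * ζ ^ 26 + c.1 ^ 3 * c.2 *
    m.1 * m.2 ^ 3 * ζ ^ 32 + c.1 ^ 3 * c.2 * m.1 * m.2 ^ 3 * ζ ^ 34 + c.1 ^ 4 * m.2 ^ 4 * ζ ^ 30 -
    c.1 ^ 4 * m.2 ^ 4 * ζ ^ 38 - c.2 ^ 4 * m.1 ^ 4 * ζ ^ 6 + c.2 ^ 4 * m.1 ^ 4 * ζ ^ 14) * h8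

lemma ident_cr1_3 (c m : P) :
    -dd c m * xc (sh c) m * ζ ^ 3 + xe (sh c) m * xe c m * xf (sh c) m = 0 := by
  simp only [dd, xc, xe, xf, sh_1, sh_2]
  linear_combination (-c.1 * c.2 ^ 2 * m.1 ^ 2 * m.2 * ζ ^ 10 - c.1 * c.2 ^ 2 * m.1 ^ 2 * m.2 * ζ ^
    12 + c.1 * c.2 ^ 2 * m.1 ^ 2 * m.2 * ζ ^ 18 + c.1 * c.2 ^ 2 * m.1 ^ 2 * m.2 * ζ ^ 20 + c.1 ^ 2
    * c.2 * m.1 * m.2 ^ 2 * ζ ^ 16 - c.1 ^ 2 * c.2 * m.1 * m.2 ^ 2 * ζ ^ 24 + c.2 ^ 3 * m.1 ^ 3 * ζ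
    ^ 6 - c.2 ^ 3 * m.1 ^ 3 * ζ ^ 14) * h8

lemma ident_cr1_4 (c m : P) :
    c.1 * c.2 * m.1 * m.2 * uz ^ 2 * xc c m * xe (sh c) m * ζ ^ 7 + dd (sh c) m * dd c m * ζ ^ 4 +
      xc (sh c) m * xc c m * xe (sh c) m * xe c m = 0 := by
  simp only [dd, xc, xe, uz, sh_1, sh_2]
  linear_combination (-c.1 * c.2 ^ 3 * m.1 ^ 3 * m.2 * ζ ^ 12 - c.1 * c.2 ^ 3 * m.1 ^ 3 * m.2 * ζ ^
    14 - c.1 * c.2 ^ 3 * m.1 ^ 3 * m.2 * ζ ^ 18 - c.1 * c.2 ^ 3 * m.1 ^ 3 * m.2 * ζ ^ 20 + c.1 ^ 2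
    * c.2 ^ 2 * m.1 ^ 2 * m.2 ^ 2 * ζ ^ 12 + c.1 ^ 2 * c.2 ^ 2 * m.1 ^ 2 * m.2 ^ 2 * ζ ^ 20 + 2 *
    c.1 ^ 2 * c.2 ^ 2 * m.1 ^ 2 * m.2 ^ 2 * ζ ^ 22 + c.1 ^ 2 * c.2 ^ 2 * m.1 ^ 2 * m.2 ^ 2 * ζ ^ 24
    + c.1 ^ 2 * c.2 ^ 2 * m.1 ^ 2 * m.2 ^ 2 * ζ ^ 32 - c.1 ^ 3 * c.2 * m.1 * m.2 ^ 3 * ζ ^ 16 + c.1
    ^ 3 * c.2 * m.1 * m.2 ^ 3 * ζ ^ 20 - c.1 ^ 3 * c.2 * m.1 * m.2 ^ 3 * ζ ^ 22 - c.1 ^ 3 * c.2 *
    m.1 * m.2 ^ 3 * ζ ^ 24 - c.1 ^ 3 * c.2 * m.1 * m.2 ^ 3 * ζ ^ 26 + c.1 ^ 3 * c.2 * m.1 * m.2 ^ 3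
    * ζ ^ 30 - c.1 ^ 3 * c.2 * m.1 * m.2 ^ 3 * ζ ^ 36 - c.1 ^ 3 * c.2 * m.1 * m.2 ^ 3 * ζ ^ 38 +
    c.1 ^ 4 * m.2 ^ 4 * ζ ^ 26 - c.1 ^ 4 * m.2 ^ 4 * ζ ^ 34 + c.1 ^ 4 * m.2 ^ 4 * ζ ^ 42 + c.2 ^ 4
    * m.1 ^ 4 * ζ ^ 10) * h8

lemma ident_cr1_5 (c m : P) :
    -c.1 * c.2 * m.1 * m.2 * uz ^ 2 * xc (sh c) m * xe c m * ζ ^ 3 + xc (sh c) m * xc c m * xg (sh
      c) m * xg c m + xe (sh c) m * xe c m * xf (sh c) m * xf c m = 0 := by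
  simp only [xc, xe, xf, xg, uz, sh_1, sh_2]
  linear_combination (-c.1 * c.2 ^ 3 * m.1 ^ 3 * m.2 * ζ ^ 12 + c.1 * c.2 ^ 3 * m.1 ^ 3 * m.2 * ζ ^
    16 - c.1 * c.2 ^ 3 * m.1 ^ 3 * m.2 * ζ ^ 18 - c.1 * c.2 ^ 3 * m.1 ^ 3 * m.2 * ζ ^ 20 - c.1 *
    c.2 ^ 3 * m.1 ^ 3 * m.2 * ζ ^ 22 - c.1 * c.2 ^ 3 * m.1 ^ 3 * m.2 * ζ ^ 24 + c.1 ^ 2 * c.2 ^ 2 *
    m.1 ^ 2 * m.2 ^ 2 * ζ ^ 6 - 2 * c.1 ^ 2 * c.2 ^ 2 * m.1 ^ 2 * m.2 ^ 2 * ζ ^ 10 + 2 * c.1 ^ 2 *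
    c.2 ^ 2 * m.1 ^ 2 * m.2 ^ 2 * ζ ^ 16 + 2 * c.1 ^ 2 * c.2 ^ 2 * m.1 ^ 2 * m.2 ^ 2 * ζ ^ 18 + c.1
    ^ 2 * c.2 ^ 2 * m.1 ^ 2 * m.2 ^ 2 * ζ ^ 22 + 2 * c.1 ^ 2 * c.2 ^ 2 * m.1 ^ 2 * m.2 ^ 2 * ζ ^ 28
    - c.1 ^ 3 * c.2 * m.1 * m.2 ^ 3 * ζ ^ 16 + c.1 ^ 3 * c.2 * m.1 * m.2 ^ 3 * ζ ^ 20 - c.1 ^ 3 *
    c.2 * m.1 * m.2 ^ 3 * ζ ^ 22 - c.1 ^ 3 * c.2 * m.1 * m.2 ^ 3 * ζ ^ 24 - c.1 ^ 3 * c.2 * m.1 *
    m.2 ^ 3 * ζ ^ 26 - c.1 ^ 3 * c.2 * m.1 * m.2 ^ 3 * ζ ^ 28 + c.1 ^ 4 * m.2 ^ 4 * ζ ^ 26 + c.2 ^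
    4 * m.1 ^ 4 * ζ ^ 18) * h8

theorem cross1 (c m : P) :
    R (sh c) m * lift (R c m) * ins c = (dd c m * dd (sh c) m) • lift (ins c) := by
  refine ext3 fun v r s u t => ?_
  cases r <;> cases s <;> cases u
  all_goals simp only [Module.End.mul_apply, R_apply, lift_apply, Rf, vv_f, w1_f, w2_f, ul_f, uu_f,
    cr_f, jn_f, ins_oo, ins_op, ins_om, ins_po, ins_pp, ins_pm, ins_mo, ins_mp, ins_mm,
    LinearMap.smul_apply, Pi.smul_apply, smul_eq_mul, mul_zero, add_zero, zero_add, sub_zero, sh_1,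
    sh_2]
  case o.o.o =>
    linear_combination (-c.1 * c.2 ^ 2 * m.1 * m.2 * uz ^ 2 * v (cons .o t) * xc (sh c) m * xe c m
      * ζ ^ 7) * h8
  case o.o.p =>
    linear_combination c.1 * c.2 * m.2 * uz * v (cons .p t) * ident_cr1_0 c m + (c.1 * c.2 * m.2 *
      uz * v (cons .p t) * xc (sh c) m * xc c m * xg c m * ζ ^ 3 - c.1 * c.2 * m.2 * uz * v (cons
      .p t) * xc (sh c) m * xc c m * xg c m * ζ ^ 11 - c.1 * c.2 * m.2 * uz * v (cons .p t) * xc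
      (sh c) m * xe c m * xf c m * ζ ^ 7) * h8
  case o.o.m =>
    linear_combination c.1 * c.2 * m.2 * uz * v (cons .m t) * ident_cr1_0 c m + (c.1 * c.2 * m.2 *
      uz * v (cons .m t) * xc (sh c) m * xc c m * xg c m * ζ ^ 3 - c.1 * c.2 * m.2 * uz * v (cons
      .m t) * xc (sh c) m * xc c m * xg c m * ζ ^ 11 - c.1 * c.2 * m.2 * uz * v (cons .m t) * xc
      (sh c) m * xe c m * xf c m * ζ ^ 7) * h8
  case o.p.o =>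
    linear_combination c.1 * c.2 * m.2 * uz * v (cons .p t) * xc c m * xe (sh c) m * ζ ^ 2 *
      ident_cr1_1 c m + (-c.1 * c.2 * m.2 * uz * v (cons .p t) * xc (sh c) m * xc c m * xe (sh c) m
      * ζ ^ 2 - c.1 * c.2 * m.2 * uz * v (cons .p t) * xc c m * xe (sh c) m * xe c m * ζ ^ 7) * h8
  case o.p.m =>
    linear_combination c.1 * v (cons .o t) * ζ ^ 6 * ident_cr1_4 c m + (-c.1 * dd (sh c) m * dd c m
      * v (cons .o t) * ζ ^ 2 - c.1 ^ 2 * c.2 * m.1 * m.2 * uz ^ 2 * v (cons .o t) * xc c m * xe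
      (sh c) m * ζ ^ 13) * h8
  case o.m.o =>
    linear_combination c.1 * c.2 * m.2 * uz * v (cons .m t) * xc c m * xe (sh c) m * ζ ^ 2 *
      ident_cr1_1 c m + (-c.1 * c.2 * m.2 * uz * v (cons .m t) * xc (sh c) m * xc c m * xe (sh c) m
      * ζ ^ 2 - c.1 * c.2 * m.2 * uz * v (cons .m t) * xc c m * xe (sh c) m * xe c m * ζ ^ 7) * h8
  case o.m.p =>
    linear_combination c.1 * v (cons .o t) * ζ ^ 2 * ident_cr1_4 c m + (-c.1 * v (cons .o t) * xc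
      (sh c) m * xc c m * xe (sh c) m * xe c m * ζ ^ 2 - c.1 ^ 2 * c.2 * m.1 * m.2 * uz ^ 2 * v
      (cons .o t) * xc c m * xe (sh c) m * ζ ^ 9 + c.1 ^ 2 * c.2 * m.1 * m.2 * uz ^ 2 * v (cons .o
      t) * xc c m * xe (sh c) m * ζ ^ 17) * h8
  case p.o.o =>
    linear_combination c.2 * v (cons .p t) * ζ ^ 4 * ident_cr1_4 c m + (-c.2 * dd (sh c) m * dd c m
      * v (cons .p t)) * h8
  case p.o.m =>
    linear_combination (-c.1 * c.2 * m.1 * uz * v (cons .o t) * xc c m * xe (sh c) m * ζ ^ 2) *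
      ident_cr1_1 c m + c.1 * c.2 * m.1 * uz * v (cons .o t) * xc (sh c) m * xc c m * xe (sh c) m *
      ζ ^ 2 * h8
  case p.p.m =>
    linear_combination c.1 * v (cons .p t) * ζ ^ 2 * ident_cr1_2 c m + (-c.1 * v (cons .p t) * xc c
      m * xe (sh c) m * xf (sh c) m * xg c m * ζ ^ 2) * h8
  case p.m.o =>
    linear_combination c.1 * c.2 * m.1 * uz * v (cons .o t) * ζ ^ 2 * ident_cr1_3 c m + (c.1 * c.2
      * dd c m * m.1 * uz * v (cons .o t) * xc (sh c) m * ζ ^ 5 - c.1 * c.2 * dd c m * m.1 * uz * v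
      (cons .o t) * xc (sh c) m * ζ ^ 13 + c.1 * c.2 * m.1 * uz * v (cons .o t) * xc (sh c) m * xe
      c m * xg (sh c) m * ζ ^ 6) * h8
  case p.m.p =>
    linear_combination (-c.1 * v (cons .p t) * ζ ^ 6) * ident_cr1_2 c m + c.1 * v (cons .p t) * ζ ^
      2 * ident_cr1_5 c m + (-c.1 * v (cons .p t) * xc (sh c) m * xc c m * xg (sh c) m * xg c m * ζ
      ^ 2 + c.1 * v (cons .p t) * xc (sh c) m * xc c m * xg (sh c) m * xg c m * ζ ^ 10 + c.1 * v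
      (cons .p t) * xc (sh c) m * xe c m * xf c m * xg (sh c) m * ζ ^ 6 + c.1 * v (cons .p t) * xc
      c m * xe (sh c) m * xf (sh c) m * xg c m * ζ ^ 6 + c.1 ^ 2 * c.2 * m.1 * m.2 * uz ^ 2 * v
      (cons .p t) * xc (sh c) m * xe c m * ζ ^ 5 - c.1 ^ 2 * c.2 * m.1 * m.2 * uz ^ 2 * v (cons .p
      t) * xc (sh c) m * xe c m * ζ ^ 13) * h8
  case p.m.m =>
    linear_combination c.1 * v (cons .m t) * ζ ^ 2 * ident_cr1_5 c m + (-c.1 * v (cons .m t) * xc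
      (sh c) m * xc c m * xg (sh c) m * xg c m * ζ ^ 2 + c.1 * v (cons .m t) * xc (sh c) m * xc c m
      * xg (sh c) m * xg c m * ζ ^ 10 + c.1 * v (cons .m t) * xc (sh c) m * xe c m * xf c m * xg
      (sh c) m * ζ ^ 6 + c.1 ^ 2 * c.2 * m.1 * m.2 * uz ^ 2 * v (cons .m t) * xc (sh c) m * xe c m
      * ζ ^ 5 - c.1 ^ 2 * c.2 * m.1 * m.2 * uz ^ 2 * v (cons .m t) * xc (sh c) m * xe c m * ζ ^ 13)
      * h8
  case m.o.o =>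
    linear_combination c.2 * v (cons .m t) * ζ ^ 4 * ident_cr1_4 c m + (-c.2 * dd (sh c) m * dd c m
      * v (cons .m t)) * h8
  case m.o.p =>
    linear_combination c.1 * c.2 * m.1 * uz * v (cons .o t) * xc c m * xe (sh c) m * ζ ^ 6 *
      ident_cr1_1 c m + (-c.1 * c.2 * m.1 * uz * v (cons .o t) * xc (sh c) m * xc c m * xe (sh c) m
      * ζ ^ 6) * h8
  case m.p.o =>
    linear_combination (-c.1 * c.2 * m.1 * uz * v (cons .o t) * ζ ^ 6) * ident_cr1_3 c m + (-c.1 *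
      c.2 * dd c m * m.1 * uz * v (cons .o t) * xc (sh c) m * ζ ^ 9 + c.1 * c.2 * dd c m * m.1 * uz
      * v (cons .o t) * xc (sh c) m * ζ ^ 17 - c.1 * c.2 * m.1 * uz * v (cons .o t) * xc (sh c) m *
      xe c m * xg (sh c) m * ζ ^ 10) * h8
  case m.p.p =>
    linear_combination (-c.1 * v (cons .p t) * ζ ^ 6) * ident_cr1_5 c m + (c.1 * v (cons .p t) * xc
      (sh c) m * xc c m * xg (sh c) m * xg c m * ζ ^ 6 - c.1 * v (cons .p t) * xc (sh c) m * xc c m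
      * xg (sh c) m * xg c m * ζ ^ 14 - c.1 * v (cons .p t) * xc (sh c) m * xe c m * xf c m * xg
      (sh c) m * ζ ^ 10 - c.1 ^ 2 * c.2 * m.1 * m.2 * uz ^ 2 * v (cons .p t) * xc (sh c) m * xe c m
      * ζ ^ 9 + c.1 ^ 2 * c.2 * m.1 * m.2 * uz ^ 2 * v (cons .p t) * xc (sh c) m * xe c m * ζ ^ 17)
      * h8
  case m.p.m =>
    linear_combination c.1 * v (cons .m t) * ζ ^ 2 * ident_cr1_2 c m + (-c.1 * v (cons .m t) * ζ ^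
      6) * ident_cr1_5 c m + (c.1 * v (cons .m t) * xc (sh c) m * xc c m * xg (sh c) m * xg c m * ζ
      ^ 6 - c.1 * v (cons .m t) * xc (sh c) m * xc c m * xg (sh c) m * xg c m * ζ ^ 14 - c.1 * v
      (cons .m t) * xc (sh c) m * xe c m * xf c m * xg (sh c) m * ζ ^ 10 - c.1 * v (cons .m t) * xc
      c m * xe (sh c) m * xf (sh c) m * xg c m * ζ ^ 2 - c.1 ^ 2 * c.2 * m.1 * m.2 * uz ^ 2 * v
      (cons .m t) * xc (sh c) m * xe c m * ζ ^ 9 + c.1 ^ 2 * c.2 * m.1 * m.2 * uz ^ 2 * v (cons .m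
      t) * xc (sh c) m * xe c m * ζ ^ 17) * h8
  case m.m.p =>
    linear_combination (-c.1 * v (cons .m t) * ζ ^ 6) * ident_cr1_2 c m + c.1 * v (cons .m t) * xc
      c m * xe (sh c) m * xf (sh c) m * xg c m * ζ ^ 6 * h8
  all_goals ring

lemma ident_cr2_0 (c m : P) :
    -xc m c * ζ ^ 3 + xe m (sh c) = 0 := by
  simp only [xc, xe, sh_1, sh_2]
  linear_combination (c.1 * m.2 * ζ ^ 3 - c.1 * m.2 * ζ ^ 11) * h8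

lemma ident_cr2_1 (c m : P) :
    -dd m (sh c) * xc m c * ζ ^ 3 + xe m (sh c) * xe m c * xf m c = 0 := by
  simp only [dd, xc, xe, xf, sh_1, sh_2]
  linear_combination (-c.1 * c.2 ^ 2 * m.1 ^ 2 * m.2 * ζ ^ 7 - c.1 * c.2 ^ 2 * m.1 ^ 2 * m.2 * ζ ^
    9 + c.1 * c.2 ^ 2 * m.1 ^ 2 * m.2 * ζ ^ 15 + c.1 * c.2 ^ 2 * m.1 ^ 2 * m.2 * ζ ^ 17 + c.1 ^ 2 *
    c.2 * m.1 * m.2 ^ 2 * ζ ^ 13 - c.1 ^ 2 * c.2 * m.1 * m.2 ^ 2 * ζ ^ 21 + c.2 ^ 3 * m.1 ^ 3 * ζ ^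
    3 - c.2 ^ 3 * m.1 ^ 3 * ζ ^ 11) * h8

lemma ident_cr2_2 (c m : P) :
    dd m c * xe m (sh c) - xc m (sh c) * xc m c * xg m (sh c) * ζ ^ 3 = 0 := by
  simp only [dd, xc, xe, xg, sh_1, sh_2]
  linear_combination (-c.1 * c.2 ^ 2 * m.1 ^ 2 * m.2 * ζ ^ 7 - c.1 * c.2 ^ 2 * m.1 ^ 2 * m.2 * ζ ^
    9 + c.1 * c.2 ^ 2 * m.1 ^ 2 * m.2 * ζ ^ 13 + c.1 * c.2 ^ 2 * m.1 ^ 2 * m.2 * ζ ^ 15 + c.1 * c.2
    ^ 2 * m.1 ^ 2 * m.2 * ζ ^ 17 - c.1 * c.2 ^ 2 * m.1 ^ 2 * m.2 * ζ ^ 21 + c.1 ^ 2 * c.2 * m.1 *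
    m.2 ^ 2 * ζ ^ 3 - c.1 ^ 2 * c.2 * m.1 * m.2 ^ 2 * ζ ^ 11 + c.1 ^ 2 * c.2 * m.1 * m.2 ^ 2 * ζ ^
    19 - c.1 ^ 2 * c.2 * m.1 * m.2 ^ 2 * ζ ^ 27 - c.1 ^ 3 * m.2 ^ 3 * ζ ^ 19 + c.1 ^ 3 * m.2 ^ 3 *
    ζ ^ 27) * h8

lemma ident_cr2_3 (c m : P) :
    -dd m (sh c) * dd m c + xc m (sh c) * xe m c * xf m c * xg m (sh c) = 0 := by
  simp only [dd, xc, xe, xf, xg, sh_1, sh_2]
  linear_combination (-c.1 * c.2 ^ 3 * m.1 ^ 3 * m.2 * ζ ^ 14 - c.1 * c.2 ^ 3 * m.1 ^ 3 * m.2 * ζ ^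
    16 + c.1 * c.2 ^ 3 * m.1 ^ 3 * m.2 * ζ ^ 22 + c.1 * c.2 ^ 3 * m.1 ^ 3 * m.2 * ζ ^ 24 - c.1 ^ 2
    * c.2 ^ 2 * m.1 ^ 2 * m.2 ^ 2 * ζ ^ 16 + c.1 ^ 2 * c.2 ^ 2 * m.1 ^ 2 * m.2 ^ 2 * ζ ^ 20 + c.1 ^
    2 * c.2 ^ 2 * m.1 ^ 2 * m.2 ^ 2 * ζ ^ 24 - c.1 ^ 2 * c.2 ^ 2 * m.1 ^ 2 * m.2 ^ 2 * ζ ^ 28 + c.1
    ^ 3 * c.2 * m.1 * m.2 ^ 3 * ζ ^ 20 + c.1 ^ 3 * c.2 * m.1 * m.2 ^ 3 * ζ ^ 22 - c.1 ^ 3 * c.2 *
    m.1 * m.2 ^ 3 * ζ ^ 28 - c.1 ^ 3 * c.2 * m.1 * m.2 ^ 3 * ζ ^ 30 - c.1 ^ 4 * m.2 ^ 4 * ζ ^ 26 +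
    c.1 ^ 4 * m.2 ^ 4 * ζ ^ 34 + c.2 ^ 4 * m.1 ^ 4 * ζ ^ 10 - c.2 ^ 4 * m.1 ^ 4 * ζ ^ 18) * h8

lemma ident_cr2_4 (c m : P) :
    c.1 * c.2 * m.1 * m.2 * uz ^ 2 * xc m (sh c) * xe m c * ζ ^ 7 + dd m (sh c) * dd m c * ζ ^ 4 +
      xc m (sh c) * xc m c * xe m (sh c) * xe m c = 0 := by
  simp only [dd, xc, xe, uz, sh_1, sh_2]
  linear_combination (-c.1 * c.2 ^ 3 * m.1 ^ 3 * m.2 * ζ ^ 6 + c.1 * c.2 ^ 3 * m.1 ^ 3 * m.2 * ζ ^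
    10 - c.1 * c.2 ^ 3 * m.1 ^ 3 * m.2 * ζ ^ 12 - c.1 * c.2 ^ 3 * m.1 ^ 3 * m.2 * ζ ^ 14 - c.1 *
    c.2 ^ 3 * m.1 ^ 3 * m.2 * ζ ^ 16 + c.1 * c.2 ^ 3 * m.1 ^ 3 * m.2 * ζ ^ 20 - c.1 * c.2 ^ 3 * m.1
    ^ 3 * m.2 * ζ ^ 26 - c.1 * c.2 ^ 3 * m.1 ^ 3 * m.2 * ζ ^ 28 + c.1 ^ 2 * c.2 ^ 2 * m.1 ^ 2 * m.2
    ^ 2 * ζ ^ 12 + c.1 ^ 2 * c.2 ^ 2 * m.1 ^ 2 * m.2 ^ 2 * ζ ^ 20 + 2 * c.1 ^ 2 * c.2 ^ 2 * m.1 ^ 2
    * m.2 ^ 2 * ζ ^ 22 + c.1 ^ 2 * c.2 ^ 2 * m.1 ^ 2 * m.2 ^ 2 * ζ ^ 24 + c.1 ^ 2 * c.2 ^ 2 * m.1 ^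
    2 * m.2 ^ 2 * ζ ^ 32 - c.1 ^ 3 * c.2 * m.1 * m.2 ^ 3 * ζ ^ 22 - c.1 ^ 3 * c.2 * m.1 * m.2 ^ 3 *
    ζ ^ 24 - c.1 ^ 3 * c.2 * m.1 * m.2 ^ 3 * ζ ^ 28 - c.1 ^ 3 * c.2 * m.1 * m.2 ^ 3 * ζ ^ 30 + c.1
    ^ 4 * m.2 ^ 4 * ζ ^ 30 + c.2 ^ 4 * m.1 ^ 4 * ζ ^ 6 - c.2 ^ 4 * m.1 ^ 4 * ζ ^ 14 + c.2 ^ 4 * m.1
    ^ 4 * ζ ^ 22) * h8

lemma ident_cr2_5 (c m : P) :
    -c.1 * c.2 * m.1 * m.2 * uz ^ 2 * xc m c * xe m (sh c) * ζ ^ 3 + xc m (sh c) * xc m c * xg m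
      (sh c) * xg m c + xe m (sh c) * xe m c * xf m (sh c) * xf m c = 0 := by
  simp only [xc, xe, xf, xg, uz, sh_1, sh_2]
  linear_combination (-c.1 * c.2 ^ 3 * m.1 ^ 3 * m.2 * ζ ^ 6 + c.1 * c.2 ^ 3 * m.1 ^ 3 * m.2 * ζ ^
    10 - c.1 * c.2 ^ 3 * m.1 ^ 3 * m.2 * ζ ^ 12 - c.1 * c.2 ^ 3 * m.1 ^ 3 * m.2 * ζ ^ 14 - c.1 *
    c.2 ^ 3 * m.1 ^ 3 * m.2 * ζ ^ 16 - c.1 * c.2 ^ 3 * m.1 ^ 3 * m.2 * ζ ^ 18 + c.1 ^ 2 * c.2 ^ 2 *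
    m.1 ^ 2 * m.2 ^ 2 * ζ ^ 6 - 2 * c.1 ^ 2 * c.2 ^ 2 * m.1 ^ 2 * m.2 ^ 2 * ζ ^ 10 + 2 * c.1 ^ 2 *
    c.2 ^ 2 * m.1 ^ 2 * m.2 ^ 2 * ζ ^ 16 + 2 * c.1 ^ 2 * c.2 ^ 2 * m.1 ^ 2 * m.2 ^ 2 * ζ ^ 18 + c.1
    ^ 2 * c.2 ^ 2 * m.1 ^ 2 * m.2 ^ 2 * ζ ^ 22 + 2 * c.1 ^ 2 * c.2 ^ 2 * m.1 ^ 2 * m.2 ^ 2 * ζ ^ 28
    - c.1 ^ 3 * c.2 * m.1 * m.2 ^ 3 * ζ ^ 22 + c.1 ^ 3 * c.2 * m.1 * m.2 ^ 3 * ζ ^ 26 - c.1 ^ 3 *
    c.2 * m.1 * m.2 ^ 3 * ζ ^ 28 - c.1 ^ 3 * c.2 * m.1 * m.2 ^ 3 * ζ ^ 30 - c.1 ^ 3 * c.2 * m.1 *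
    m.2 ^ 3 * ζ ^ 32 - c.1 ^ 3 * c.2 * m.1 * m.2 ^ 3 * ζ ^ 34 + c.1 ^ 4 * m.2 ^ 4 * ζ ^ 38 + c.2 ^
    4 * m.1 ^ 4 * ζ ^ 6) * h8

theorem cross2 (c m : P) :
    lift (R m c) * R m (sh c) * lift (ins c) = (dd m c * dd m (sh c)) • ins c := by
  refine ext3 fun v r s u t => ?_
  cases r <;> cases s <;> cases u
  all_goals simp only [Module.End.mul_apply, R_apply, lift_apply, Rf, vv_f, w1_f, w2_f, ul_f, uu_f,
    cr_f, jn_f, ins_oo, ins_op, ins_om, ins_po, ins_pp, ins_pm, ins_mo, ins_mp, ins_mm,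
    LinearMap.smul_apply, Pi.smul_apply, smul_eq_mul, mul_zero, add_zero, zero_add, sub_zero, sh_1,
    sh_2]
  case o.o.o =>
    linear_combination (-c.1 * c.2 ^ 2 * m.1 * m.2 * uz ^ 2 * v (cons .o t) * xc m c * xe m (sh c)
      * ζ ^ 7) * h8
  case o.o.p =>
    linear_combination c.2 * v (cons .p t) * ζ ^ 4 * ident_cr2_4 c m + (-c.2 * dd m (sh c) * dd m c
      * v (cons .p t)) * h8
  case o.o.m =>
    linear_combination c.2 * v (cons .m t) * ζ ^ 4 * ident_cr2_4 c m + (-c.2 * dd m (sh c) * dd m c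
      * v (cons .m t)) * h8
  case o.p.o =>
    linear_combination (-c.1 * c.2 * m.2 * uz * v (cons .p t) * xc m (sh c) * xe m c * ζ ^ 2) *
      ident_cr2_0 c m + (-c.1 * c.2 * m.2 * uz * v (cons .p t) * xc m (sh c) * xc m c * xe m c * ζ
      ^ 5) * h8
  case o.p.m =>
    linear_combination c.1 * c.2 * m.1 * uz * v (cons .o t) * ζ ^ 5 * ident_cr2_1 c m + c.1 * c.2 *
      m.1 * uz * v (cons .o t) * xc m c * xe m (sh c) * xg m c * ζ ^ 9 * h8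
  case o.m.o =>
    linear_combination (-c.1 * c.2 * m.2 * uz * v (cons .m t) * xc m (sh c) * xe m c * ζ ^ 2) *
      ident_cr2_0 c m + (-c.1 * c.2 * m.2 * uz * v (cons .m t) * xc m (sh c) * xc m c * xe m c * ζ
      ^ 5) * h8
  case o.m.p =>
    linear_combination c.1 * c.2 * m.1 * uz * v (cons .o t) * ζ * ident_cr2_1 c m + (c.1 * c.2 * dd
      m (sh c) * m.1 * uz * v (cons .o t) * xc m c * ζ ^ 4 - c.1 * c.2 * m.1 * uz * v (cons .o t) *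
      xc m c * xe m (sh c) * xg m c * ζ ^ 13 - c.1 * c.2 * m.1 * uz * v (cons .o t) * xe m (sh c) *
      xe m c * xf m c * ζ) * h8
  case p.o.o =>
    linear_combination (-c.1 * c.2 * m.2 * uz * v (cons .p t) * ζ ^ 5) * ident_cr2_2 c m + (c.1 *
      c.2 * dd m c * m.2 * uz * v (cons .p t) * xe m (sh c) * ζ ^ 5 - c.1 * c.2 * m.2 * uz * v
      (cons .p t) * xc m (sh c) * xc m c * xg m (sh c) * ζ ^ 8 - c.1 * c.2 * m.2 * uz * v (cons .p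
      t) * xc m c * xe m (sh c) * xf m (sh c) * ζ ^ 4) * h8
  case p.o.m =>
    linear_combination (-c.1 * c.2 * m.1 * uz * v (cons .o t) * xc m (sh c) * xe m c * ζ ^ 4) *
      ident_cr2_0 c m + (-c.1 * c.2 * m.1 * uz * v (cons .o t) * xc m (sh c) * xc m c * xe m c * ζ
      ^ 7 + c.1 * c.2 * m.1 * uz * v (cons .o t) * xc m (sh c) * xc m c * xe m c * ζ ^ 15) * h8
  case p.p.m =>
    linear_combination c.1 * v (cons .p t) * ζ ^ 2 * ident_cr2_5 c m + (-c.1 * v (cons .p t) * xc m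
      (sh c) * xc m c * xg m (sh c) * xg m c * ζ ^ 2 + c.1 * v (cons .p t) * xc m (sh c) * xc m c *
      xg m (sh c) * xg m c * ζ ^ 10 + c.1 * v (cons .p t) * xc m c * xe m (sh c) * xf m (sh c) * xg
      m c * ζ ^ 6 + c.1 ^ 2 * c.2 * m.1 * m.2 * uz ^ 2 * v (cons .p t) * xc m c * xe m (sh c) * ζ ^
      5 - c.1 ^ 2 * c.2 * m.1 * m.2 * uz ^ 2 * v (cons .p t) * xc m c * xe m (sh c) * ζ ^ 13) * h8
  case p.m.o =>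
    linear_combination c.1 * v (cons .o t) * ζ ^ 6 * ident_cr2_4 c m + (-c.1 * dd m (sh c) * dd m c
      * v (cons .o t) * ζ ^ 2 - c.1 ^ 2 * c.2 * m.1 * m.2 * uz ^ 2 * v (cons .o t) * xc m (sh c) *
      xe m c * ζ ^ 13) * h8
  case p.m.p =>
    linear_combination c.1 * v (cons .p t) * ζ ^ 2 * ident_cr2_3 c m + (-c.1 * v (cons .p t) * ζ ^
      6) * ident_cr2_5 c m + (c.1 * v (cons .p t) * xc m (sh c) * xc m c * xg m (sh c) * xg m c * ζ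
      ^ 6 - c.1 * v (cons .p t) * xc m (sh c) * xc m c * xg m (sh c) * xg m c * ζ ^ 14 - c.1 * v
      (cons .p t) * xc m (sh c) * xe m c * xf m c * xg m (sh c) * ζ ^ 2 - c.1 * v (cons .p t) * xc
      m c * xe m (sh c) * xf m (sh c) * xg m c * ζ ^ 10 - c.1 ^ 2 * c.2 * m.1 * m.2 * uz ^ 2 * v
      (cons .p t) * xc m c * xe m (sh c) * ζ ^ 9 + c.1 ^ 2 * c.2 * m.1 * m.2 * uz ^ 2 * v (cons .p
      t) * xc m c * xe m (sh c) * ζ ^ 17) * h8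
  case p.m.m =>
    linear_combination c.1 * v (cons .m t) * ζ ^ 2 * ident_cr2_3 c m + (-c.1 * v (cons .m t) * xc m
      (sh c) * xe m c * xf m c * xg m (sh c) * ζ ^ 2) * h8
  case m.o.o =>
    linear_combination (-c.1 * c.2 * m.2 * uz * v (cons .m t) * ζ ^ 5) * ident_cr2_2 c m + (c.1 *
      c.2 * dd m c * m.2 * uz * v (cons .m t) * xe m (sh c) * ζ ^ 5 - c.1 * c.2 * m.2 * uz * v
      (cons .m t) * xc m (sh c) * xc m c * xg m (sh c) * ζ ^ 8 - c.1 * c.2 * m.2 * uz * v (cons .m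
      t) * xc m c * xe m (sh c) * xf m (sh c) * ζ ^ 4) * h8
  case m.o.p =>
    linear_combination (-c.1 * c.2 * m.1 * uz * v (cons .o t) * xc m (sh c) * xe m c) * ident_cr2_0
      c m + (-c.1 * c.2 * m.1 * uz * v (cons .o t) * xc m (sh c) * xc m c * xe m c * ζ ^ 3 + c.1 *
      c.2 * m.1 * uz * v (cons .o t) * xc m (sh c) * xc m c * xe m c * ζ ^ 11 - c.1 * c.2 * m.1 *
      uz * v (cons .o t) * xc m (sh c) * xc m c * xe m c * ζ ^ 19 + c.1 * c.2 * m.1 * uz * v (cons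
      .o t) * xc m (sh c) * xe m (sh c) * xe m c) * h8
  case m.p.o =>
    linear_combination c.1 * v (cons .o t) * ζ ^ 2 * ident_cr2_4 c m + (-c.1 * v (cons .o t) * xc m
      (sh c) * xc m c * xe m (sh c) * xe m c * ζ ^ 2 - c.1 ^ 2 * c.2 * m.1 * m.2 * uz ^ 2 * v (cons
      .o t) * xc m (sh c) * xe m c * ζ ^ 9 + c.1 ^ 2 * c.2 * m.1 * m.2 * uz ^ 2 * v (cons .o t) *
      xc m (sh c) * xe m c * ζ ^ 17) * h8
  case m.p.p =>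
    linear_combination (-c.1 * v (cons .p t) * ζ ^ 6) * ident_cr2_3 c m + c.1 * v (cons .p t) * xc
      m (sh c) * xe m c * xf m c * xg m (sh c) * ζ ^ 6 * h8
  case m.p.m =>
    linear_combination (-c.1 * v (cons .m t) * ζ ^ 6) * ident_cr2_3 c m + c.1 * v (cons .m t) * ζ ^
      2 * ident_cr2_5 c m + (-c.1 * v (cons .m t) * xc m (sh c) * xc m c * xg m (sh c) * xg m c * ζ
      ^ 2 + c.1 * v (cons .m t) * xc m (sh c) * xc m c * xg m (sh c) * xg m c * ζ ^ 10 + c.1 * v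
      (cons .m t) * xc m (sh c) * xe m c * xf m c * xg m (sh c) * ζ ^ 6 + c.1 * v (cons .m t) * xc
      m c * xe m (sh c) * xf m (sh c) * xg m c * ζ ^ 6 + c.1 ^ 2 * c.2 * m.1 * m.2 * uz ^ 2 * v
      (cons .m t) * xc m c * xe m (sh c) * ζ ^ 5 - c.1 ^ 2 * c.2 * m.1 * m.2 * uz ^ 2 * v (cons .m
      t) * xc m c * xe m (sh c) * ζ ^ 13) * h8
  case m.m.p =>
    linear_combination (-c.1 * v (cons .m t) * ζ ^ 6) * ident_cr2_5 c m + (c.1 * v (cons .m t) * xc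
      m (sh c) * xc m c * xg m (sh c) * xg m c * ζ ^ 6 - c.1 * v (cons .m t) * xc m (sh c) * xc m c
      * xg m (sh c) * xg m c * ζ ^ 14 - c.1 * v (cons .m t) * xc m c * xe m (sh c) * xf m (sh c) *
      xg m c * ζ ^ 10 - c.1 ^ 2 * c.2 * m.1 * m.2 * uz ^ 2 * v (cons .m t) * xc m c * xe m (sh c) *
      ζ ^ 9 + c.1 ^ 2 * c.2 * m.1 * m.2 * uz ^ 2 * v (cons .m t) * xc m c * xe m (sh c) * ζ ^ 17) *
      h8
  all_goals ring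

lemma ident_refl_0 (a b : P) :
    dd (bar b) (bar a) * dd a (bar b) - dd a b * dd b (bar a) = 0 := by
  simp only [dd, bar_1, bar_2]
  ring

lemma ident_refl_1 (a b : P) :
    xe (bar b) (bar a) * xe a (bar b) * xf (bar b) (bar a) * xf a (bar b) - xe a b * xe b (bar a) *
      xf a b * xf b (bar a) = 0 := by
  simp only [xe, xf, bar_1, bar_2]
  ring

lemma ident_refl_2 (a b : P) :
    dd (bar b) (bar a) * xc a (bar b) * xk a * xo b - dd b (bar a) * xc a b * xk a * xk b + xc (bar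
      b) (bar a) * xe a (bar b) * xf a (bar b) * xo a * xo b - xc b (bar a) * xe a b * xf a b * xk
      b * xo a = 0 := by
  simp only [dd, xc, xe, xf, xk, xo, bar_1, bar_2]
  linear_combination (a.1 * a.2 ^ 3 * b.1 ^ 4 - a.1 * a.2 ^ 3 * b.1 ^ 4 * ζ ^ 8 - a.1 * a.2 ^ 3 *
    b.2 ^ 4 + a.1 * a.2 ^ 3 * b.2 ^ 4 * ζ ^ 8 - a.1 ^ 3 * a.2 * b.1 ^ 4 + a.1 ^ 3 * a.2 * b.1 ^ 4 *
    ζ ^ 8 + a.1 ^ 3 * a.2 * b.2 ^ 4 - a.1 ^ 3 * a.2 * b.2 ^ 4 * ζ ^ 8 - a.1 ^ 4 * b.1 * b.2 ^ 3 +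
    a.1 ^ 4 * b.1 * b.2 ^ 3 * ζ ^ 8 + a.1 ^ 4 * b.1 ^ 3 * b.2 - a.1 ^ 4 * b.1 ^ 3 * b.2 * ζ ^ 8 +
    a.2 ^ 4 * b.1 * b.2 ^ 3 - a.2 ^ 4 * b.1 * b.2 ^ 3 * ζ ^ 8 - a.2 ^ 4 * b.1 ^ 3 * b.2 + a.2 ^ 4 *
    b.1 ^ 3 * b.2 * ζ ^ 8) * h8

lemma ident_refl_3 (a b : P) :
    xc (bar b) (bar a) * xe (bar b) (bar a) * xe a (bar b) * xk a * xk b + xc a (bar b) * xe (bar
      b) (bar a) * xe a (bar b) * xk b * xo a - xc a b * xe a b * xe b (bar a) * xo a * xo b - xc b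
      (bar a) * xe a b * xe b (bar a) * xk a * xo b = 0 := by
  simp only [xc, xe, xk, xo, bar_1, bar_2]
  ring

lemma ident_refl_4 (a b : P) :
    -a.1 * a.2 * b.1 * b.2 * uz ^ 2 * xe (bar b) (bar a) * xe a (bar b) * xo a * ζ ^ 4 + a.1 * a.2
      * b.1 * b.2 * uz ^ 2 * xe a b * xe b (bar a) * xo a * ζ ^ 4 + xc (bar b) (bar a) * xc a (bar
      b) * xe (bar b) (bar a) * xe a (bar b) * xk a - xc a b * xc b (bar a) * xe a b * xe b (bar a)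
      * xk a = 0 := by
  simp only [xc, xe, uz, xk, xo, bar_1, bar_2]
  ring

lemma ident_refl_5 (a b : P) :
    a.1 * a.2 * b.1 * b.2 * uz ^ 2 * xe (bar b) (bar a) * xe a (bar b) * xk a - a.1 * a.2 * b.1 *
      b.2 * uz ^ 2 * xe a b * xe b (bar a) * xk a + xc (bar b) (bar a) * xc a (bar b) * xe (bar b)
      (bar a) * xe a (bar b) * xo a * ζ ^ 4 - xc a b * xc b (bar a) * xe a b * xe b (bar a) * xo a
      * ζ ^ 4 = 0 := by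
  simp only [xc, xe, uz, xk, xo, bar_1, bar_2]
  ring

lemma ident_refl_6 (a b : P) :
    xc (bar b) (bar a) * xe (bar b) (bar a) * xe a (bar b) * xo a * xo b + xc a (bar b) * xe (bar
      b) (bar a) * xe a (bar b) * xk a * xo b - xc a b * xe a b * xe b (bar a) * xk a * xk b - xc b
      (bar a) * xe a b * xe b (bar a) * xk b * xo a = 0 := by
  simp only [xc, xe, xk, xo, bar_1, bar_2]
  ring

lemma ident_refl_7 (a b : P) :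
    dd a (bar b) * xc (bar b) (bar a) * xk a * xk b - dd a b * xc b (bar a) * xk a * xo b + xc a
      (bar b) * xe (bar b) (bar a) * xf (bar b) (bar a) * xk b * xo a - xc a b * xe b (bar a) * xf
      b (bar a) * xo a * xo b = 0 := by
  simp only [dd, xc, xe, xf, xk, xo, bar_1, bar_2]
  linear_combination (-a.1 * a.2 ^ 3 * b.1 ^ 4 + a.1 * a.2 ^ 3 * b.1 ^ 4 * ζ ^ 8 + a.1 * a.2 ^ 3 *
    b.2 ^ 4 - a.1 * a.2 ^ 3 * b.2 ^ 4 * ζ ^ 8 + a.1 ^ 3 * a.2 * b.1 ^ 4 - a.1 ^ 3 * a.2 * b.1 ^ 4 *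
    ζ ^ 8 - a.1 ^ 3 * a.2 * b.2 ^ 4 + a.1 ^ 3 * a.2 * b.2 ^ 4 * ζ ^ 8 + a.1 ^ 4 * b.1 * b.2 ^ 3 -
    a.1 ^ 4 * b.1 * b.2 ^ 3 * ζ ^ 8 - a.1 ^ 4 * b.1 ^ 3 * b.2 + a.1 ^ 4 * b.1 ^ 3 * b.2 * ζ ^ 8 -
    a.2 ^ 4 * b.1 * b.2 ^ 3 + a.2 ^ 4 * b.1 * b.2 ^ 3 * ζ ^ 8 + a.2 ^ 4 * b.1 ^ 3 * b.2 - a.2 ^ 4 *
    b.1 ^ 3 * b.2 * ζ ^ 8) * h8

lemma ident_refl_8 (a b : P) :
    a.1 * a.2 * b.1 * b.2 * uz ^ 2 * xc (bar b) (bar a) * xc a (bar b) * xk a * ζ ^ 6 - a.1 * a.2 *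
      b.1 * b.2 * uz ^ 2 * xc a b * xc b (bar a) * xk a * ζ ^ 6 + xc (bar b) (bar a) * xe a (bar b)
      * xf a (bar b) * xg (bar b) (bar a) * xo a + xc a (bar b) * xe (bar b) (bar a) * xf (bar b)
      (bar a) * xg a (bar b) * xo a - xc a b * xe b (bar a) * xf b (bar a) * xg a b * xo a - xc b
      (bar a) * xe a b * xf a b * xg b (bar a) * xo a = 0 := by
  simp only [xc, xe, xf, xg, uz, xk, xo, bar_1, bar_2]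
  ring

theorem refl_eq (a b : P) : R (bar b) (bar a) * lift (K a) * R a (bar b) * lift (K b) =
    lift (K b) * R b (bar a) * lift (K a) * R a b := by
  refine ext2 fun v r s t => ?_
  cases r <;> cases s
  all_goals simp only [Module.End.mul_apply, R_apply, lift_apply, Rf, vv_f, w1_f, w2_f, ul_f, uu_f,
    cr_f, jn_f, K_o, K_p, K_m, kd_f, ko_f, bar_1, bar_2]
  case o.o =>
    linear_combination a.1 * b.1 * v (cons .o (cons .o t)) * xk a * xk b * ident_refl_0 a b + (a.1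
      * a.2 * b.1 * b.2 * uz * v (cons .m (cons .p t)) * ζ ^ 6 - a.1 * a.2 * b.1 * b.2 * uz * v
      (cons .p (cons .m t)) * ζ ^ 2) * ident_refl_2 a b + (a.1 * a.2 * b.1 * b.2 * uz * v (cons .m
      (cons .p t)) * xc (bar b) (bar a) * xc a (bar b) * xg a (bar b) * xo a * xo b * ζ ^ 10 - a.1
      * a.2 * b.1 * b.2 * uz * v (cons .m (cons .p t)) * xc a b * xc b (bar a) * xg a b * xk b * xo
      a * ζ ^ 10 - a.1 * a.2 * b.1 * b.2 * uz * v (cons .p (cons .m t)) * xc (bar b) (bar a) * xc a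
      (bar b) * xg a (bar b) * xo a * xo b * ζ ^ 6 + a.1 * a.2 * b.1 * b.2 * uz * v (cons .p (cons
      .m t)) * xc a b * xc b (bar a) * xg a b * xk b * xo a * ζ ^ 6 + a.1 ^ 2 * a.2 * b.1 ^ 2 * b.2
      * uz ^ 2 * v (cons .o (cons .o t)) * xc (bar b) (bar a) * xc a (bar b) * xk b * xo a * ζ ^ 10
      - a.1 ^ 2 * a.2 * b.1 ^ 2 * b.2 * uz ^ 2 * v (cons .o (cons .o t)) * xc a b * xc b (bar a) *
      xk b * xo a * ζ ^ 10) * h8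
  case o.p =>
    linear_combination (-a.1 * a.2 * b.1 * b.2 * uz * v (cons .p (cons .o t)) * ζ ^ 2) *
      ident_refl_3 a b + a.1 * b.2 * v (cons .o (cons .p t)) * xo b * ζ ^ 4 * ident_refl_4 a b +
      (a.1 ^ 2 * a.2 * b.1 * b.2 ^ 2 * uz ^ 2 * v (cons .o (cons .p t)) * xe (bar b) (bar a) * xe a
      (bar b) * xo a * xo b - a.1 ^ 2 * a.2 * b.1 * b.2 ^ 2 * uz ^ 2 * v (cons .o (cons .p t)) * xe
      a b * xe b (bar a) * xo a * xo b) * h8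
  case o.m =>
    linear_combination (-a.1 * a.2 * b.1 * b.2 * uz * v (cons .m (cons .o t)) * ζ ^ 2) *
      ident_refl_3 a b + a.1 * b.2 * v (cons .o (cons .m t)) * xo b * ζ ^ 4 * ident_refl_4 a b +
      (a.1 ^ 2 * a.2 * b.1 * b.2 ^ 2 * uz ^ 2 * v (cons .o (cons .m t)) * xe (bar b) (bar a) * xe a
      (bar b) * xo a * xo b - a.1 ^ 2 * a.2 * b.1 * b.2 ^ 2 * uz ^ 2 * v (cons .o (cons .m t)) * xe
      a b * xe b (bar a) * xo a * xo b) * h8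
  case p.o =>
    linear_combination a.2 * b.1 * v (cons .p (cons .o t)) * xk b * ident_refl_5 a b + (-a.1 * a.2
      * b.1 * b.2 * uz * v (cons .o (cons .p t)) * ζ ^ 2) * ident_refl_6 a b
  case p.p =>
    linear_combination a.2 * b.2 * v (cons .p (cons .p t)) * xo a * xo b * ident_refl_1 a b
  case p.m =>
    linear_combination a.2 * b.2 * v (cons .p (cons .m t)) * xo a * xo b * ident_refl_1 a b + a.1 *
      a.2 * b.1 * b.2 * uz * v (cons .o (cons .o t)) * ident_refl_7 a b + (a.2 * b.2 * v (cons .m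
      (cons .p t)) * xo b + a.2 * b.2 * v (cons .p (cons .m t)) * xo b * ζ ^ 4) * ident_refl_8 a b
      + (-a.1 * a.2 * b.1 * b.2 * dd a (bar b) * uz * v (cons .o (cons .o t)) * xc (bar b) (bar a)
      * xk a * xk b + a.1 * a.2 * b.1 * b.2 * dd a b * uz * v (cons .o (cons .o t)) * xc b (bar a)
      * xk a * xo b - a.1 * a.2 * b.1 * b.2 * uz * v (cons .o (cons .o t)) * xc (bar b) (bar a) *
      xc a (bar b) * xg (bar b) (bar a) * xk b * xo a * ζ ^ 12 - a.1 * a.2 * b.1 * b.2 * uz * v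
      (cons .o (cons .o t)) * xc a (bar b) * xe (bar b) (bar a) * xf (bar b) (bar a) * xk b * xo a
      + a.1 * a.2 * b.1 * b.2 * uz * v (cons .o (cons .o t)) * xc a b * xc b (bar a) * xg b (bar a)
      * xo a * xo b * ζ ^ 12 + a.1 * a.2 * b.1 * b.2 * uz * v (cons .o (cons .o t)) * xc a b * xe b
      (bar a) * xf b (bar a) * xo a * xo b - a.1 * a.2 ^ 2 * b.1 * b.2 ^ 2 * uz ^ 2 * v (cons .m
      (cons .p t)) * xc (bar b) (bar a) * xc a (bar b) * xk a * xo b * ζ ^ 6 + a.1 * a.2 ^ 2 * b.1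
      * b.2 ^ 2 * uz ^ 2 * v (cons .m (cons .p t)) * xc a b * xc b (bar a) * xk a * xo b * ζ ^ 6 -
      a.2 * b.2 * v (cons .m (cons .p t)) * xc (bar b) (bar a) * xc a (bar b) * xg (bar b) (bar a)
      * xg a (bar b) * xo a * xo b * ζ ^ 12 - a.2 * b.2 * v (cons .m (cons .p t)) * xc (bar b) (bar
      a) * xe a (bar b) * xf a (bar b) * xg (bar b) (bar a) * xo a * xo b - a.2 * b.2 * v (cons .m
      (cons .p t)) * xc a (bar b) * xe (bar b) (bar a) * xf (bar b) (bar a) * xg a (bar b) * xo a *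
      xo b + a.2 * b.2 * v (cons .m (cons .p t)) * xc a b * xc b (bar a) * xg a b * xg b (bar a) *
      xo a * xo b * ζ ^ 12 + a.2 * b.2 * v (cons .m (cons .p t)) * xc a b * xe b (bar a) * xf b
      (bar a) * xg a b * xo a * xo b + a.2 * b.2 * v (cons .m (cons .p t)) * xc b (bar a) * xe a b
      * xf a b * xg b (bar a) * xo a * xo b + a.2 * b.2 * v (cons .p (cons .m t)) * xc (bar b) (bar
      a) * xc a (bar b) * xg (bar b) (bar a) * xg a (bar b) * xo a * xo b * ζ ^ 8 - a.2 * b.2 * v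
      (cons .p (cons .m t)) * xc a b * xc b (bar a) * xg a b * xg b (bar a) * xo a * xo b * ζ ^ 8)
      * h8
  case m.o =>
    linear_combination a.2 * b.1 * v (cons .m (cons .o t)) * xk b * ident_refl_5 a b + (-a.1 * a.2
      * b.1 * b.2 * uz * v (cons .o (cons .m t)) * ζ ^ 2) * ident_refl_6 a b
  case m.p =>
    linear_combination a.2 * b.2 * v (cons .m (cons .p t)) * xo a * xo b * ident_refl_1 a b + (-a.1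
      * a.2 * b.1 * b.2 * uz * v (cons .o (cons .o t)) * ζ ^ 4) * ident_refl_7 a b + (-a.2 * b.2 *
      v (cons .m (cons .p t)) * xo b * ζ ^ 4 + a.2 * b.2 * v (cons .p (cons .m t)) * xo b) *
      ident_refl_8 a b + (a.1 * a.2 * b.1 * b.2 * dd a (bar b) * uz * v (cons .o (cons .o t)) * xc
      (bar b) (bar a) * xk a * xk b * ζ ^ 4 - a.1 * a.2 * b.1 * b.2 * dd a b * uz * v (cons .o
      (cons .o t)) * xc b (bar a) * xk a * xo b * ζ ^ 4 + a.1 * a.2 * b.1 * b.2 * uz * v (cons .o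
      (cons .o t)) * xc (bar b) (bar a) * xc a (bar b) * xg (bar b) (bar a) * xk b * xo a * ζ ^ 16
      + a.1 * a.2 * b.1 * b.2 * uz * v (cons .o (cons .o t)) * xc a (bar b) * xe (bar b) (bar a) *
      xf (bar b) (bar a) * xk b * xo a * ζ ^ 4 - a.1 * a.2 * b.1 * b.2 * uz * v (cons .o (cons .o
      t)) * xc a b * xc b (bar a) * xg b (bar a) * xo a * xo b * ζ ^ 16 - a.1 * a.2 * b.1 * b.2 *
      uz * v (cons .o (cons .o t)) * xc a b * xe b (bar a) * xf b (bar a) * xo a * xo b * ζ ^ 4 +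
      a.1 * a.2 ^ 2 * b.1 * b.2 ^ 2 * uz ^ 2 * v (cons .m (cons .p t)) * xc (bar b) (bar a) * xc a
      (bar b) * xk a * xo b * ζ ^ 10 - a.1 * a.2 ^ 2 * b.1 * b.2 ^ 2 * uz ^ 2 * v (cons .m (cons .p
      t)) * xc a b * xc b (bar a) * xk a * xo b * ζ ^ 10 - a.1 * a.2 ^ 2 * b.1 * b.2 ^ 2 * uz ^ 2 *
      v (cons .p (cons .m t)) * xc (bar b) (bar a) * xc a (bar b) * xk a * xo b * ζ ^ 6 + a.1 * a.2
      ^ 2 * b.1 * b.2 ^ 2 * uz ^ 2 * v (cons .p (cons .m t)) * xc a b * xc b (bar a) * xk a * xo b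
      * ζ ^ 6 + a.2 * b.2 * v (cons .m (cons .p t)) * xc (bar b) (bar a) * xc a (bar b) * xg (bar
      b) (bar a) * xg a (bar b) * xo a * xo b * ζ ^ 16 + a.2 * b.2 * v (cons .m (cons .p t)) * xc
      (bar b) (bar a) * xe a (bar b) * xf a (bar b) * xg (bar b) (bar a) * xo a * xo b * ζ ^ 4 +
      a.2 * b.2 * v (cons .m (cons .p t)) * xc a (bar b) * xe (bar b) (bar a) * xf (bar b) (bar a)
      * xg a (bar b) * xo a * xo b * ζ ^ 4 - a.2 * b.2 * v (cons .m (cons .p t)) * xc a b * xc b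
      (bar a) * xg a b * xg b (bar a) * xo a * xo b * ζ ^ 16 - a.2 * b.2 * v (cons .m (cons .p t))
      * xc a b * xe b (bar a) * xf b (bar a) * xg a b * xo a * xo b * ζ ^ 4 - a.2 * b.2 * v (cons
      .m (cons .p t)) * xc b (bar a) * xe a b * xf a b * xg b (bar a) * xo a * xo b * ζ ^ 4 - a.2 *
      b.2 * v (cons .p (cons .m t)) * xc (bar b) (bar a) * xc a (bar b) * xg (bar b) (bar a) * xg a
      (bar b) * xo a * xo b * ζ ^ 12 - a.2 * b.2 * v (cons .p (cons .m t)) * xc (bar b) (bar a) *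
      xe a (bar b) * xf a (bar b) * xg (bar b) (bar a) * xo a * xo b - a.2 * b.2 * v (cons .p (cons
      .m t)) * xc a (bar b) * xe (bar b) (bar a) * xf (bar b) (bar a) * xg a (bar b) * xo a * xo b
      + a.2 * b.2 * v (cons .p (cons .m t)) * xc a b * xc b (bar a) * xg a b * xg b (bar a) * xo a
      * xo b * ζ ^ 12 + a.2 * b.2 * v (cons .p (cons .m t)) * xc a b * xe b (bar a) * xf b (bar a)
      * xg a b * xo a * xo b + a.2 * b.2 * v (cons .p (cons .m t)) * xc b (bar a) * xe a b * xf a b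
      * xg b (bar a) * xo a * xo b) * h8
  case m.m =>
    linear_combination a.2 * b.2 * v (cons .m (cons .m t)) * xo a * xo b * ident_refl_1 a b
  all_goals ring

lemma ident_pair_0 (c : P) :
    -lin (bar (sh c)) * xk (bar (sh c)) + lin c * xk c = 0 := by
  simp only [xk, lin, bar_1, bar_2, sh_1, sh_2]
  linear_combination (c.1 * c.2 * ζ ^ 2 - c.1 * c.2 * ζ ^ 4 - c.1 * c.2 * ζ ^ 6 + c.1 * c.2 * ζ ^ 8
    - c.1 * c.2 * ζ ^ 10 + c.1 * c.2 * ζ ^ 12 + c.1 * c.2 * ζ ^ 14 - c.1 * c.2 * ζ ^ 16 - c.1 ^ 2 *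
    ζ ^ 5 + c.1 ^ 2 * ζ ^ 7 + c.1 ^ 2 * ζ ^ 13 - c.1 ^ 2 * ζ ^ 15 - c.1 ^ 2 * ζ ^ 21 + c.1 ^ 2 * ζ
    ^ 23 + c.2 ^ 2 * ζ ^ 3 - c.2 ^ 2 * ζ ^ 5) * h8

lemma ident_pair_1 (c : P) :
    -c.1 * c.2 * lin c * uz * xc (sh c) (bar c) * xk c * xo (sh c) * ζ ^ 3 - dd (sh c) (bar c) *
      lin (bar (sh c)) * xk (bar (sh c)) * xk (sh c) + lin c * xe (sh c) (bar c) * xf (sh c) (bar
      c) * xo (sh c) * xo c = 0 := by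
  simp only [dd, xc, xe, xf, uz, xk, xo, lin, bar_1, bar_2, sh_1, sh_2]
  linear_combination (c.1 * c.2 ^ 6 * ζ ^ 15 - c.1 * c.2 ^ 6 * ζ ^ 17 - c.1 * c.2 ^ 6 * ζ ^ 19 +
    c.1 * c.2 ^ 6 * ζ ^ 21 - c.1 * c.2 ^ 6 * ζ ^ 23 + 2 * c.1 * c.2 ^ 6 * ζ ^ 25 - c.1 * c.2 ^ 6 *
    ζ ^ 29 + c.1 ^ 2 * c.2 ^ 5 * ζ ^ 14 - c.1 ^ 2 * c.2 ^ 5 * ζ ^ 16 - 2 * c.1 ^ 2 * c.2 ^ 5 * ζ ^
    18 + 2 * c.1 ^ 2 * c.2 ^ 5 * ζ ^ 20 - c.1 ^ 2 * c.2 ^ 5 * ζ ^ 22 + 2 * c.1 ^ 2 * c.2 ^ 5 * ζ ^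
    24 + 2 * c.1 ^ 2 * c.2 ^ 5 * ζ ^ 26 - 3 * c.1 ^ 2 * c.2 ^ 5 * ζ ^ 28 + c.1 ^ 2 * c.2 ^ 5 * ζ ^
    30 - 2 * c.1 ^ 2 * c.2 ^ 5 * ζ ^ 32 + c.1 ^ 2 * c.2 ^ 5 * ζ ^ 34 + c.1 ^ 2 * c.2 ^ 5 * ζ ^ 36 -
    c.1 ^ 2 * c.2 ^ 5 * ζ ^ 38 - c.1 ^ 3 * c.2 ^ 4 * ζ ^ 17 + c.1 ^ 3 * c.2 ^ 4 * ζ ^ 19 + 2 * c.1
    ^ 3 * c.2 ^ 4 * ζ ^ 25 - 2 * c.1 ^ 3 * c.2 ^ 4 * ζ ^ 27 - c.1 ^ 3 * c.2 ^ 4 * ζ ^ 29 + c.1 ^ 3
    * c.2 ^ 4 * ζ ^ 35 + c.1 ^ 3 * c.2 ^ 4 * ζ ^ 37 - c.1 ^ 3 * c.2 ^ 4 * ζ ^ 39 - c.1 ^ 3 * c.2 ^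
    4 * ζ ^ 41 + c.1 ^ 3 * c.2 ^ 4 * ζ ^ 45 - c.1 ^ 4 * c.2 ^ 3 * ζ ^ 30 + c.1 ^ 4 * c.2 ^ 3 * ζ ^
    32 - c.1 ^ 4 * c.2 ^ 3 * ζ ^ 40 + c.1 ^ 4 * c.2 ^ 3 * ζ ^ 42 + c.1 ^ 4 * c.2 ^ 3 * ζ ^ 48 - 2 *
    c.1 ^ 4 * c.2 ^ 3 * ζ ^ 50 + c.1 ^ 4 * c.2 ^ 3 * ζ ^ 54 + c.1 ^ 5 * c.2 ^ 2 * ζ ^ 27 - c.1 ^ 5
    * c.2 ^ 2 * ζ ^ 29 - c.1 ^ 5 * c.2 ^ 2 * ζ ^ 35 + c.1 ^ 5 * c.2 ^ 2 * ζ ^ 37 + c.1 ^ 5 * c.2 ^
    2 * ζ ^ 39 - c.1 ^ 5 * c.2 ^ 2 * ζ ^ 41 + c.1 ^ 5 * c.2 ^ 2 * ζ ^ 43 - 2 * c.1 ^ 5 * c.2 ^ 2 *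
    ζ ^ 47 + c.1 ^ 5 * c.2 ^ 2 * ζ ^ 49 - c.1 ^ 5 * c.2 ^ 2 * ζ ^ 51 + 2 * c.1 ^ 5 * c.2 ^ 2 * ζ ^
    55 - c.1 ^ 5 * c.2 ^ 2 * ζ ^ 61 + c.1 ^ 6 * c.2 * ζ ^ 38 - c.1 ^ 6 * c.2 * ζ ^ 40 - c.1 ^ 6 *
    c.2 * ζ ^ 42 + 2 * c.1 ^ 6 * c.2 * ζ ^ 44 - 2 * c.1 ^ 6 * c.2 * ζ ^ 46 + c.1 ^ 6 * c.2 * ζ ^ 48
    + c.1 ^ 6 * c.2 * ζ ^ 50 - 2 * c.1 ^ 6 * c.2 * ζ ^ 52 + 2 * c.1 ^ 6 * c.2 * ζ ^ 54 - c.1 ^ 6 *
    c.2 * ζ ^ 56 - c.1 ^ 6 * c.2 * ζ ^ 58 + 2 * c.1 ^ 6 * c.2 * ζ ^ 60 - 2 * c.1 ^ 6 * c.2 * ζ ^ 62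
    + c.1 ^ 6 * c.2 * ζ ^ 64 + c.1 ^ 6 * c.2 * ζ ^ 66 - c.1 ^ 6 * c.2 * ζ ^ 68 - c.1 ^ 7 * ζ ^ 41 +
    c.1 ^ 7 * ζ ^ 43 + c.1 ^ 7 * ζ ^ 49 - c.1 ^ 7 * ζ ^ 51 - c.1 ^ 7 * ζ ^ 57 + c.1 ^ 7 * ζ ^ 59 +
    c.1 ^ 7 * ζ ^ 65 - c.1 ^ 7 * ζ ^ 67 - c.1 ^ 7 * ζ ^ 73 + c.1 ^ 7 * ζ ^ 75 - c.2 ^ 7 * ζ ^ 20 +
    c.2 ^ 7 * ζ ^ 22) * h8

theorem pairK (c : P) : lin c • (lift (K (sh c)) * R (sh c) (bar c) * lift (K c) * ins c) =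
    (dd (sh c) (bar c) * kd (sh c) * kd (bar (sh c)) * lin (bar (sh c))) • ins (bar (sh c)) := by
  refine ext2 fun v r s t => ?_
  cases r <;> cases s
  all_goals simp only [Module.End.mul_apply, R_apply, lift_apply, Rf, vv_f, w1_f, w2_f, ul_f, uu_f,
    cr_f, jn_f, K_o, K_p, K_m, kd_f, ko_f, ins_oo, ins_op, ins_om, ins_po, ins_pp, ins_pm, ins_mo,
    ins_mp, ins_mm, LinearMap.smul_apply, Pi.smul_apply, smul_eq_mul, mul_zero, add_zero, zero_add,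
    sub_zero, bar_1, bar_2, sh_1, sh_2]
  case o.o =>
    linear_combination (-c.1 ^ 2 * c.2 * dd (sh c) (bar c) * v t * xk (sh c) * ζ ^ 5) *
      ident_pair_0 c + (-c.1 ^ 2 * c.2 * dd (sh c) (bar c) * lin (bar (sh c)) * v t * xk (bar (sh
      c)) * xk (sh c) * ζ ^ 5 + c.1 ^ 2 * c.2 * dd (sh c) (bar c) * lin (bar (sh c)) * v t * xk
      (bar (sh c)) * xk (sh c) * ζ ^ 13 - c.1 ^ 2 * c.2 * dd (sh c) (bar c) * lin (bar (sh c)) * v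
      t * xk (bar (sh c)) * xk (sh c) * ζ ^ 21 + c.1 ^ 2 * c.2 * dd (sh c) (bar c) * lin c * v t *
      xk (sh c) * xk c * ζ ^ 5 - c.1 ^ 3 * c.2 ^ 2 * lin c * uz * v t * xc (sh c) (bar c) * xk (sh
      c) * xo c * ζ ^ 20) * h8
  case p.m =>
    linear_combination c.1 * c.2 ^ 2 * v t * ζ ^ 5 * ident_pair_1 c + (c.1 * c.2 ^ 2 * dd (sh c)
      (bar c) * lin (bar (sh c)) * v t * xk (bar (sh c)) * xk (sh c) * ζ ^ 5 - c.1 * c.2 ^ 2 * dd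
      (sh c) (bar c) * lin (bar (sh c)) * v t * xk (bar (sh c)) * xk (sh c) * ζ ^ 13 + c.1 * c.2 ^
      2 * lin c * v t * xc (sh c) (bar c) * xg (sh c) (bar c) * xo (sh c) * xo c * ζ ^ 9 + c.1 ^ 2
      * c.2 ^ 3 * lin c * uz * v t * xc (sh c) (bar c) * xk c * xo (sh c) * ζ ^ 8 - c.1 ^ 2 * c.2 ^
      3 * lin c * uz * v t * xc (sh c) (bar c) * xk c * xo (sh c) * ζ ^ 16) * h8
  case m.p =>
    linear_combination c.1 * c.2 ^ 2 * v t * ζ * ident_pair_1 c + (c.1 * c.2 ^ 2 * dd (sh c) (bar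
      c) * lin (bar (sh c)) * v t * xk (bar (sh c)) * xk (sh c) * ζ - c.1 * c.2 ^ 2 * dd (sh c)
      (bar c) * lin (bar (sh c)) * v t * xk (bar (sh c)) * xk (sh c) * ζ ^ 9 + c.1 * c.2 ^ 2 * dd
      (sh c) (bar c) * lin (bar (sh c)) * v t * xk (bar (sh c)) * xk (sh c) * ζ ^ 17 - c.1 * c.2 ^
      2 * lin c * v t * xc (sh c) (bar c) * xg (sh c) (bar c) * xo (sh c) * xo c * ζ ^ 13 - c.1 *
      c.2 ^ 2 * lin c * v t * xe (sh c) (bar c) * xf (sh c) (bar c) * xo (sh c) * xo c * ζ + c.1 ^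
      2 * c.2 ^ 3 * lin c * uz * v t * xc (sh c) (bar c) * xk c * xo (sh c) * ζ ^ 4 - c.1 ^ 2 * c.2
      ^ 3 * lin c * uz * v t * xc (sh c) (bar c) * xk c * xo (sh c) * ζ ^ 12 + c.1 ^ 2 * c.2 ^ 3 *
      lin c * uz * v t * xc (sh c) (bar c) * xk c * xo (sh c) * ζ ^ 20) * h8
  all_goals ring


end Pool.Agent.Lib.MP_4960b8_pr.QK
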