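import Pool.Agent.Lib.MP_4960b8_pr.QK.Ident1
import Pool.Agent.Lib.MP_4960b8_pr.QK.Ident2

-- part Pool.Agent.Lib.MP_4960b8_pr.QK.Ident
section

/-! Local operator identities. -/

namespace Pool.Agent.Lib.MP_4960b8_pr.QK

set_option linter.unusedSimpArgs false

open IdentAux

theorem K_K (a : P) : K (bar a) * K a = (kd a * kd (bar a)) • 1 := by
  refine ext1 fun v r t => ?_
  cases r
  all_goals simp only [Module.End.mul_apply, K_o, K_p, K_m, LinearMap.smul_apply, Pi.smul_apply,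
    smul_eq_mul, Module.End.one_apply, kd, ko, bar_1, bar_2]
  all_goals ring

theorem K_fix (a : P) (h : a.1 = a.2 ∨ a.1 = -a.2) : K a = kd a • 1 := by
  have e : ko a = kd a := by
    rcases h with h | h <;> simp only [kd, ko, h] <;> ring
  refine ext1 fun v r t => ?_
  cases r <;> simp only [K_o, K_p, K_m, e, LinearMap.smul_apply, Pi.smul_apply, smul_eq_mul,
    Module.End.one_apply]

theorem topK (a : P) : lift (K a) * R a aux * lift E0 = R (bar a) aux * K a * lift E0 := by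
  refine ext2 fun v r s t => ?_
  cases r <;> cases s
  all_goals simp only [Module.End.mul_apply, R_apply, lift_apply, Rf, K_o, K_p, K_m, E0_o, E0_p,
    E0_m, mul_zero, add_zero, zero_add, sub_zero, dd, vv, w1, w2, ul, uu, cr, jn, kd, ko, bar_1,
    bar_2, aux_1, aux_2]
  case o.o =>
    linear_combination (-a.1 * a.2 ^ 3 * v (cons .o (cons .o t)) + a.1 * a.2 ^ 3 * v (cons .o (cons
      .o t)) * ζ ^ 8 + a.1 ^ 2 * a.2 ^ 2 * v (cons .o (cons .o t)) * ζ ^ 3 - a.1 ^ 2 * a.2 ^ 2 * v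
      (cons .o (cons .o t)) * ζ ^ 11 + a.1 ^ 3 * a.2 * v (cons .o (cons .o t)) - a.1 ^ 3 * a.2 * v
      (cons .o (cons .o t)) * ζ ^ 8 - a.1 ^ 4 * v (cons .o (cons .o t)) * ζ ^ 3 + a.1 ^ 4 * v (cons
      .o (cons .o t)) * ζ ^ 11) * h8
  case o.p =>
    linear_combination (-a.1 * a.2 ^ 3 * v (cons .p (cons .o t)) - a.1 ^ 2 * a.2 ^ 2 * v (cons .p
      (cons .o t)) * ζ ^ 3 + a.1 ^ 3 * a.2 * v (cons .p (cons .o t)) + a.2 ^ 4 * v (cons .p (cons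
      .o t)) * ζ ^ 3) * h8
  case o.m =>
    linear_combination (-a.1 * a.2 ^ 3 * v (cons .m (cons .o t)) - a.1 ^ 2 * a.2 ^ 2 * v (cons .m
      (cons .o t)) * ζ ^ 3 + a.1 ^ 3 * a.2 * v (cons .m (cons .o t)) + a.2 ^ 4 * v (cons .m (cons
      .o t)) * ζ ^ 3) * h8
  all_goals ring

lemma ident_botE1 : prj .o * R (bar aux) aux * emp = dd (bar aux) aux • (emp * prj .o) := by
  refine ext1 fun v r t => ?_
  cases r
  all_goals simp only [Module.End.mul_apply, R_apply, lift_apply, Rf, prj_apply, emp_o, emp_p,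
    emp_m, LinearMap.smul_apply, Pi.smul_apply, smul_eq_mul, mul_zero, add_zero, zero_add,
    sub_zero, dd, vv, w1, w2, ul, uu, cr, jn, bar_1, bar_2, aux_1, aux_2]
  all_goals ring

lemma ident_botE2 : prj .o * R (0, 1) aux * emp = dd (0, 1) aux • (emp * prj .o) := by
  refine ext1 fun v r t => ?_
  cases r
  all_goals simp only [Module.End.mul_apply, R_apply, lift_apply, Rf, prj_apply, emp_o, emp_p,
    emp_m, LinearMap.smul_apply, Pi.smul_apply, smul_eq_mul, mul_zero, add_zero, zero_add,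
    sub_zero, dd, vv, w1, w2, ul, uu, cr, jn, bar_1, bar_2, aux_1, aux_2]
  all_goals ring

theorem botE (a : P) (h : a = bar aux ∨ a = (0, 1)) :
    prj .o * R a aux * emp = dd a aux • (emp * prj .o) := by
  rcases h with rfl | rfl
  · exact ident_botE1
  · exact ident_botE2

theorem K_bar_aux : K (bar aux) = kd (bar aux) • E0 := by
  refine ext1 fun v r t => ?_
  cases r
  all_goals simp only [K_o, K_p, K_m, E0_o, E0_p, E0_m, LinearMap.smul_apply, Pi.smul_apply,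
    smul_eq_mul, mul_zero, add_zero, zero_add, sub_zero, kd, ko, bar_1, bar_2, aux_1, aux_2]
  all_goals ring

theorem E0_ins (c : P) : lift E0 * ins c = c.2 • (emp * emp) := by
  refine ext2 fun v r s t => ?_
  cases r <;> cases s
  all_goals simp only [Module.End.mul_apply, lift_apply, E0_o, E0_p, E0_m, ins_oo, ins_op, ins_om,
    ins_po, ins_pp, ins_pm, ins_mo, ins_mp, ins_mm, emp_o, emp_p, emp_m, LinearMap.smul_apply,
    Pi.smul_apply, smul_eq_mul, mul_zero, add_zero, zero_add, sub_zero]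
  all_goals ring

theorem K_zero_one : K (0, 1) * E0 = 0 := by
  refine ext1 fun v r t => ?_
  cases r
  all_goals simp only [Module.End.mul_apply, K_o, K_p, K_m, E0_o, E0_p, E0_m, LinearMap.zero_apply,
    Pi.zero_apply, mul_zero, add_zero, zero_add, sub_zero, kd, ko]
  all_goals ring

theorem stay_empty (b : P) : R (0, 1) b * E0 = lift E0 * R (0, 1) b * E0 := by
  refine ext2 fun v r s t => ?_
  cases r <;> cases s
  all_goals simp only [Module.End.mul_apply, R_apply, lift_apply, Rf, E0_o, E0_p, E0_m, mul_zero,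
    add_zero, zero_add, sub_zero, dd, vv, w1, w2, ul, uu, cr, jn]
  all_goals ring

theorem ins_zero_one : ins (0, 1) = emp * emp := by
  refine ext2 fun v r s t => ?_
  cases r <;> cases s
  all_goals simp only [Module.End.mul_apply, ins_oo, ins_op, ins_om, ins_po, ins_pp, ins_pm,
    ins_mo, ins_mp, ins_mm, emp_o, emp_p, emp_m]
  all_goals ring

/-! currents -/
theorem e_R (a b : P) : (a.2 • e1 b + b.2 • (kap * lift (e1 a))) * R a b =
    R a b * (b.2 • e1 a + a.2 • (kap * lift (e1 b))) := by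
  refine ext2 fun v r s t => ?_
  cases r <;> cases s
  all_goals simp only [Module.End.mul_apply, R_apply, lift_apply, Rf, LinearMap.add_apply,
    Pi.add_apply, LinearMap.smul_apply, Pi.smul_apply, smul_eq_mul, e1_o, e1_p, e1_m, kap_o, kap_p,
    kap_m, mul_zero, add_zero, zero_add, sub_zero, dd, vv, w1, w2, ul, uu, cr, jn]
  case o.o =>
    linear_combination (a.1 * a.2 ^ 2 * b.1 * b.2 ^ 2 * v (cons .m (cons .o t)) * ζ ^ 12 - a.1 *
      a.2 ^ 2 * b.1 * b.2 ^ 2 * v (cons .o (cons .m t)) * ζ ^ 2 + a.1 * a.2 ^ 2 * b.1 * b.2 ^ 2 * v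
      (cons .o (cons .m t)) * ζ ^ 6 + a.1 * a.2 ^ 2 * b.1 * b.2 ^ 2 * v (cons .o (cons .m t)) * ζ ^
      12 - a.1 ^ 2 * a.2 * b.2 ^ 3 * v (cons .m (cons .o t)) * ζ ^ 12 + a.1 ^ 2 * a.2 * b.2 ^ 3 * v
      (cons .o (cons .m t)) * ζ ^ 2 - a.1 ^ 2 * a.2 * b.2 ^ 3 * v (cons .o (cons .m t)) * ζ ^ 6 -
      a.1 ^ 2 * a.2 * b.2 ^ 3 * v (cons .o (cons .m t)) * ζ ^ 12) * h8
  case o.p =>
    linear_combination (-a.1 * a.2 ^ 2 * b.1 * b.2 ^ 2 * v (cons .m (cons .p t)) * ζ ^ 6 + a.1 *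
      a.2 ^ 2 * b.1 * b.2 ^ 2 * v (cons .m (cons .p t)) * ζ ^ 10 - a.1 * a.2 ^ 2 * b.1 * b.2 ^ 2 *
      v (cons .m (cons .p t)) * ζ ^ 18 - a.1 * a.2 ^ 2 * b.1 * b.2 ^ 2 * v (cons .m (cons .p t)) *
      ζ ^ 20 + a.1 * a.2 ^ 2 * b.1 * b.2 ^ 2 * v (cons .p (cons .m t)) * ζ ^ 2 - a.1 * a.2 ^ 2 *
      b.1 * b.2 ^ 2 * v (cons .p (cons .m t)) * ζ ^ 6 - a.1 * a.2 ^ 2 * b.1 * b.2 ^ 2 * v (cons .p
      (cons .m t)) * ζ ^ 10 + a.1 * a.2 ^ 2 * b.1 * b.2 ^ 2 * v (cons .p (cons .m t)) * ζ ^ 14 +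
      a.1 * a.2 ^ 2 * b.1 * b.2 ^ 2 * v (cons .p (cons .m t)) * ζ ^ 16 + a.1 * a.2 ^ 2 * b.1 ^ 2 *
      b.2 * v (cons .o (cons .o t)) * ζ ^ 6 - a.1 * a.2 ^ 2 * b.1 ^ 2 * b.2 * v (cons .o (cons .o
      t)) * ζ ^ 10 - a.1 * a.2 ^ 2 * b.1 ^ 2 * b.2 * v (cons .o (cons .o t)) * ζ ^ 14 + a.1 * a.2 ^
      2 * b.1 ^ 2 * b.2 * v (cons .o (cons .o t)) * ζ ^ 18 - a.1 ^ 2 * a.2 * b.1 * b.2 ^ 2 * v
      (cons .o (cons .o t)) * ζ ^ 2 - a.1 ^ 2 * a.2 * b.1 * b.2 ^ 2 * v (cons .o (cons .o t)) * ζ ^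
      6 + a.1 ^ 2 * a.2 * b.1 * b.2 ^ 2 * v (cons .o (cons .o t)) * ζ ^ 10 + a.1 ^ 2 * a.2 * b.1 *
      b.2 ^ 2 * v (cons .o (cons .o t)) * ζ ^ 14 - a.1 ^ 2 * a.2 * b.1 * b.2 ^ 2 * v (cons .o (cons
      .o t)) * ζ ^ 18 + a.1 ^ 2 * a.2 * b.2 ^ 3 * v (cons .m (cons .p t)) * ζ ^ 6 - a.1 ^ 2 * a.2 *
      b.2 ^ 3 * v (cons .m (cons .p t)) * ζ ^ 10 + a.1 ^ 2 * a.2 * b.2 ^ 3 * v (cons .m (cons .p
      t)) * ζ ^ 18 - a.1 ^ 2 * a.2 * b.2 ^ 3 * v (cons .p (cons .m t)) * ζ ^ 2 + a.1 ^ 2 * a.2 *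
      b.2 ^ 3 * v (cons .p (cons .m t)) * ζ ^ 6 + a.1 ^ 2 * a.2 * b.2 ^ 3 * v (cons .p (cons .m t))
      * ζ ^ 10 - a.1 ^ 2 * a.2 * b.2 ^ 3 * v (cons .p (cons .m t)) * ζ ^ 14 + a.1 ^ 3 * b.2 ^ 3 * v
      (cons .o (cons .o t)) * ζ ^ 2 + a.2 ^ 3 * b.1 ^ 2 * b.2 * v (cons .m (cons .p t)) * ζ ^ 20 -
      a.2 ^ 3 * b.1 ^ 2 * b.2 * v (cons .p (cons .m t)) * ζ ^ 16) * h8
  case o.m =>
    linear_combination (-a.1 * a.2 ^ 2 * b.1 * b.2 ^ 2 * v (cons .m (cons .m t)) * ζ ^ 14 + a.1 ^ 2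
      * a.2 * b.2 ^ 3 * v (cons .m (cons .m t)) * ζ ^ 14) * h8
  case p.o =>
    linear_combination (a.1 * a.2 ^ 2 * b.1 * b.2 ^ 2 * v (cons .m (cons .p t)) * ζ ^ 6 - a.1 * a.2
      ^ 2 * b.1 * b.2 ^ 2 * v (cons .m (cons .p t)) * ζ ^ 12 - a.1 * a.2 ^ 2 * b.1 * b.2 ^ 2 * v
      (cons .m (cons .p t)) * ζ ^ 14 + a.1 * a.2 ^ 2 * b.1 * b.2 ^ 2 * v (cons .m (cons .p t)) * ζ
      ^ 20 + a.1 * a.2 ^ 2 * b.1 * b.2 ^ 2 * v (cons .m (cons .p t)) * ζ ^ 22 - a.1 * a.2 ^ 2 * b.1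
      * b.2 ^ 2 * v (cons .p (cons .m t)) * ζ ^ 2 + a.1 * a.2 ^ 2 * b.1 * b.2 ^ 2 * v (cons .p
      (cons .m t)) * ζ ^ 6 + a.1 * a.2 ^ 2 * b.1 * b.2 ^ 2 * v (cons .p (cons .m t)) * ζ ^ 10 - a.1
      * a.2 ^ 2 * b.1 * b.2 ^ 2 * v (cons .p (cons .m t)) * ζ ^ 14 - a.1 * a.2 ^ 2 * b.1 * b.2 ^ 2
      * v (cons .p (cons .m t)) * ζ ^ 16 - a.1 * a.2 ^ 2 * b.1 * b.2 ^ 2 * v (cons .p (cons .m t))
      * ζ ^ 18 + a.1 * a.2 ^ 2 * b.1 ^ 2 * b.2 * v (cons .o (cons .o t)) - a.1 * a.2 ^ 2 * b.1 ^ 2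
      * b.2 * v (cons .o (cons .o t)) * ζ ^ 2 - a.1 * a.2 ^ 2 * b.1 ^ 2 * b.2 * v (cons .o (cons .o
      t)) * ζ ^ 4 - a.1 * a.2 ^ 2 * b.1 ^ 2 * b.2 * v (cons .o (cons .o t)) * ζ ^ 8 + a.1 * a.2 ^ 2
      * b.1 ^ 2 * b.2 * v (cons .o (cons .o t)) * ζ ^ 12 + a.1 * a.2 ^ 2 * b.1 ^ 2 * b.2 * v (cons
      .o (cons .o t)) * ζ ^ 16 - a.1 * a.2 ^ 2 * b.1 ^ 2 * b.2 * v (cons .o (cons .o t)) * ζ ^ 20 -
      a.1 ^ 2 * a.2 * b.1 * b.2 ^ 2 * v (cons .o (cons .o t)) + a.1 ^ 2 * a.2 * b.1 * b.2 ^ 2 * v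
      (cons .o (cons .o t)) * ζ ^ 2 + a.1 ^ 2 * a.2 * b.1 * b.2 ^ 2 * v (cons .o (cons .o t)) * ζ ^
      4 + a.1 ^ 2 * a.2 * b.1 * b.2 ^ 2 * v (cons .o (cons .o t)) * ζ ^ 8 - a.1 ^ 2 * a.2 * b.1 *
      b.2 ^ 2 * v (cons .o (cons .o t)) * ζ ^ 12 - a.1 ^ 2 * a.2 * b.1 * b.2 ^ 2 * v (cons .o (cons
      .o t)) * ζ ^ 16 + a.1 ^ 2 * a.2 * b.1 * b.2 ^ 2 * v (cons .o (cons .o t)) * ζ ^ 20 + a.1 ^ 2
      * a.2 * b.2 ^ 3 * v (cons .m (cons .p t)) * ζ ^ 12 - a.1 ^ 2 * a.2 * b.2 ^ 3 * v (cons .m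
      (cons .p t)) * ζ ^ 20 + a.1 ^ 2 * a.2 * b.2 ^ 3 * v (cons .p (cons .m t)) * ζ ^ 16 - a.2 ^ 3
      * b.1 ^ 2 * b.2 * v (cons .m (cons .p t)) * ζ ^ 6 + a.2 ^ 3 * b.1 ^ 2 * b.2 * v (cons .m
      (cons .p t)) * ζ ^ 14 - a.2 ^ 3 * b.1 ^ 2 * b.2 * v (cons .m (cons .p t)) * ζ ^ 22 + a.2 ^ 3
      * b.1 ^ 2 * b.2 * v (cons .p (cons .m t)) * ζ ^ 2 - a.2 ^ 3 * b.1 ^ 2 * b.2 * v (cons .p
      (cons .m t)) * ζ ^ 6 - a.2 ^ 3 * b.1 ^ 2 * b.2 * v (cons .p (cons .m t)) * ζ ^ 10 + a.2 ^ 3 *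
      b.1 ^ 2 * b.2 * v (cons .p (cons .m t)) * ζ ^ 14 + a.2 ^ 3 * b.1 ^ 2 * b.2 * v (cons .p (cons
      .m t)) * ζ ^ 18) * h8
  case p.p =>
    linear_combination (-a.1 * a.2 ^ 2 * b.1 ^ 2 * b.2 * v (cons .p (cons .o t)) + a.1 * a.2 ^ 2 *
      b.1 ^ 2 * b.2 * v (cons .p (cons .o t)) * ζ ^ 2 + a.1 * a.2 ^ 2 * b.1 ^ 2 * b.2 * v (cons .p
      (cons .o t)) * ζ ^ 8 + a.1 ^ 2 * a.2 * b.1 * b.2 ^ 2 * v (cons .o (cons .p t)) - a.1 ^ 2 *
      a.2 * b.1 * b.2 ^ 2 * v (cons .p (cons .o t)) * ζ ^ 2 - a.1 ^ 3 * b.2 ^ 3 * v (cons .o (cons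
      .p t)) + a.2 ^ 3 * b.1 ^ 3 * v (cons .p (cons .o t)) - a.2 ^ 3 * b.1 ^ 3 * v (cons .p (cons
      .o t)) * ζ ^ 8) * h8
  case p.m =>
    linear_combination (-a.1 * a.2 ^ 2 * b.1 ^ 2 * b.2 * v (cons .m (cons .o t)) + a.1 * a.2 ^ 2 *
      b.1 ^ 2 * b.2 * v (cons .m (cons .o t)) * ζ ^ 2 + a.1 * a.2 ^ 2 * b.1 ^ 2 * b.2 * v (cons .m
      (cons .o t)) * ζ ^ 8 - a.1 * a.2 ^ 2 * b.1 ^ 2 * b.2 * v (cons .m (cons .o t)) * ζ ^ 10 - a.1
      * a.2 ^ 2 * b.1 ^ 2 * b.2 * v (cons .m (cons .o t)) * ζ ^ 16 - a.1 * a.2 ^ 2 * b.1 ^ 2 * b.2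
      * v (cons .o (cons .m t)) * ζ ^ 6 - a.1 * a.2 ^ 2 * b.1 ^ 2 * b.2 * v (cons .o (cons .m t)) *
      ζ ^ 10 + a.1 * a.2 ^ 2 * b.1 ^ 2 * b.2 * v (cons .o (cons .m t)) * ζ ^ 14 - a.1 ^ 2 * a.2 *
      b.1 * b.2 ^ 2 * v (cons .m (cons .o t)) * ζ ^ 2 + a.1 ^ 2 * a.2 * b.1 * b.2 ^ 2 * v (cons .m
      (cons .o t)) * ζ ^ 10 + a.1 ^ 2 * a.2 * b.1 * b.2 ^ 2 * v (cons .o (cons .m t)) + a.1 ^ 2 *
      a.2 * b.1 * b.2 ^ 2 * v (cons .o (cons .m t)) * ζ ^ 6 + a.1 ^ 2 * a.2 * b.1 * b.2 ^ 2 * v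
      (cons .o (cons .m t)) * ζ ^ 10 - a.1 ^ 2 * a.2 * b.1 * b.2 ^ 2 * v (cons .o (cons .m t)) * ζ
      ^ 14 - a.1 ^ 3 * b.2 ^ 3 * v (cons .o (cons .m t)) + a.2 ^ 3 * b.1 ^ 3 * v (cons .m (cons .o
      t)) - a.2 ^ 3 * b.1 ^ 3 * v (cons .m (cons .o t)) * ζ ^ 8 + a.2 ^ 3 * b.1 ^ 3 * v (cons .m
      (cons .o t)) * ζ ^ 16) * h8
  case m.o =>
    linear_combination (a.1 * a.2 ^ 2 * b.1 * b.2 ^ 2 * v (cons .m (cons .m t)) * ζ ^ 10 - a.1 *
      a.2 ^ 2 * b.1 * b.2 ^ 2 * v (cons .m (cons .m t)) * ζ ^ 12 - a.1 * a.2 ^ 2 * b.1 * b.2 ^ 2 *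
      v (cons .m (cons .m t)) * ζ ^ 18 + a.1 ^ 2 * a.2 * b.2 ^ 3 * v (cons .m (cons .m t)) * ζ ^ 12
      - a.2 ^ 3 * b.1 ^ 2 * b.2 * v (cons .m (cons .m t)) * ζ ^ 10 + a.2 ^ 3 * b.1 ^ 2 * b.2 * v
      (cons .m (cons .m t)) * ζ ^ 18) * h8
  case m.p =>
    linear_combination (a.1 * a.2 ^ 2 * b.1 ^ 2 * b.2 * v (cons .m (cons .o t)) * ζ ^ 14 + a.1 *
      a.2 ^ 2 * b.1 ^ 2 * b.2 * v (cons .m (cons .o t)) * ζ ^ 20 + a.1 * a.2 ^ 2 * b.1 ^ 2 * b.2 *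
      v (cons .o (cons .m t)) * ζ ^ 10 + a.1 * a.2 ^ 2 * b.1 ^ 2 * b.2 * v (cons .o (cons .m t)) *
      ζ ^ 14 - a.1 * a.2 ^ 2 * b.1 ^ 2 * b.2 * v (cons .o (cons .m t)) * ζ ^ 18 - a.1 ^ 2 * a.2 *
      b.1 * b.2 ^ 2 * v (cons .m (cons .o t)) * ζ ^ 14 - a.1 ^ 2 * a.2 * b.1 * b.2 ^ 2 * v (cons .o
      (cons .m t)) * ζ ^ 10 - a.1 ^ 2 * a.2 * b.1 * b.2 ^ 2 * v (cons .o (cons .m t)) * ζ ^ 14 +
      a.1 ^ 2 * a.2 * b.1 * b.2 ^ 2 * v (cons .o (cons .m t)) * ζ ^ 18 - a.2 ^ 3 * b.1 ^ 3 * v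
      (cons .m (cons .o t)) * ζ ^ 20) * h8
  all_goals ring

theorem f_R (a b : P) : (a.1 • f1 b + b.1 • (kap * lift (f1 a))) * R a b =
    R a b * (b.1 • f1 a + a.1 • (kap * lift (f1 b))) := by
  refine ext2 fun v r s t => ?_
  cases r <;> cases s
  all_goals simp only [Module.End.mul_apply, R_apply, lift_apply, Rf, LinearMap.add_apply,
    Pi.add_apply, LinearMap.smul_apply, Pi.smul_apply, smul_eq_mul, f1_o, f1_p, f1_m, kap_o, kap_p,
    kap_m, mul_zero, add_zero, zero_add, sub_zero, dd, vv, w1, w2, ul, uu, cr, jn]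
  case o.o =>
    linear_combination (-a.1 * a.2 ^ 2 * b.1 ^ 2 * b.2 * v (cons .p (cons .o t)) + a.1 * a.2 ^ 2 *
      b.1 ^ 2 * b.2 * v (cons .p (cons .o t)) * ζ ^ 2 + a.1 * a.2 ^ 2 * b.1 ^ 2 * b.2 * v (cons .p
      (cons .o t)) * ζ ^ 4 + a.1 ^ 2 * a.2 * b.1 * b.2 ^ 2 * v (cons .o (cons .p t)) * ζ ^ 2 + a.1
      ^ 2 * a.2 * b.1 * b.2 ^ 2 * v (cons .p (cons .o t)) - a.1 ^ 2 * a.2 * b.1 * b.2 ^ 2 * v (cons
      .p (cons .o t)) * ζ ^ 2 - a.1 ^ 2 * a.2 * b.1 * b.2 ^ 2 * v (cons .p (cons .o t)) * ζ ^ 4 -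
      a.1 ^ 3 * b.2 ^ 3 * v (cons .o (cons .p t)) * ζ ^ 2) * h8
  case o.p =>
    linear_combination (-a.1 ^ 2 * a.2 * b.1 * b.2 ^ 2 * v (cons .p (cons .p t)) + a.1 ^ 3 * b.2 ^
      3 * v (cons .p (cons .p t))) * h8
  case o.m =>
    linear_combination (-a.1 * a.2 ^ 2 * b.1 ^ 2 * b.2 * v (cons .m (cons .p t)) * ζ ^ 6 + a.1 *
      a.2 ^ 2 * b.1 ^ 2 * b.2 * v (cons .p (cons .m t)) * ζ ^ 2 + a.1 ^ 2 * a.2 * b.1 * b.2 ^ 2 * v
      (cons .m (cons .p t)) * ζ ^ 6 - a.1 ^ 2 * a.2 * b.1 * b.2 ^ 2 * v (cons .p (cons .m t)) - a.1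
      ^ 2 * a.2 * b.1 * b.2 ^ 2 * v (cons .p (cons .m t)) * ζ ^ 2 + a.1 ^ 2 * a.2 * b.1 ^ 2 * b.2 *
      v (cons .o (cons .o t)) - a.1 ^ 2 * a.2 * b.1 ^ 2 * b.2 * v (cons .o (cons .o t)) * ζ ^ 2 -
      a.1 ^ 2 * a.2 * b.1 ^ 2 * b.2 * v (cons .o (cons .o t)) * ζ ^ 4 - a.1 ^ 3 * b.1 * b.2 ^ 2 * v
      (cons .o (cons .o t)) + a.1 ^ 3 * b.1 * b.2 ^ 2 * v (cons .o (cons .o t)) * ζ ^ 2 + a.1 ^ 3 *
      b.1 * b.2 ^ 2 * v (cons .o (cons .o t)) * ζ ^ 4 + a.1 ^ 3 * b.2 ^ 3 * v (cons .p (cons .m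
      t))) * h8
  case p.o =>
    linear_combination (a.1 * a.2 ^ 2 * b.1 ^ 2 * b.2 * v (cons .p (cons .p t)) - a.1 * a.2 ^ 2 *
      b.1 ^ 2 * b.2 * v (cons .p (cons .p t)) * ζ ^ 2 - a.1 * a.2 ^ 2 * b.1 ^ 2 * b.2 * v (cons .p
      (cons .p t)) * ζ ^ 8 + a.1 ^ 2 * a.2 * b.1 * b.2 ^ 2 * v (cons .p (cons .p t)) * ζ ^ 2 - a.2
      ^ 3 * b.1 ^ 3 * v (cons .p (cons .p t)) + a.2 ^ 3 * b.1 ^ 3 * v (cons .p (cons .p t)) * ζ ^
      8) * h8
  case p.m =>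
    linear_combination (a.1 * a.2 ^ 2 * b.1 ^ 3 * v (cons .o (cons .p t)) * ζ ^ 6 - a.1 * a.2 ^ 2 *
      b.1 ^ 3 * v (cons .p (cons .o t)) * ζ ^ 8 - a.1 ^ 2 * a.2 * b.1 ^ 2 * b.2 * v (cons .o (cons
      .p t)) * ζ ^ 6 + a.1 ^ 2 * a.2 * b.1 ^ 2 * b.2 * v (cons .p (cons .o t)) * ζ ^ 6 + a.1 ^ 2 *
      a.2 * b.1 ^ 2 * b.2 * v (cons .p (cons .o t)) * ζ ^ 8 - a.1 ^ 3 * b.1 * b.2 ^ 2 * v (cons .p
      (cons .o t)) * ζ ^ 6) * h8
  case m.o =>
    linear_combination (-a.1 * a.2 ^ 2 * b.1 ^ 2 * b.2 * v (cons .m (cons .p t)) * ζ ^ 6 + a.1 *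
      a.2 ^ 2 * b.1 ^ 2 * b.2 * v (cons .m (cons .p t)) * ζ ^ 10 - a.1 * a.2 ^ 2 * b.1 ^ 2 * b.2 *
      v (cons .m (cons .p t)) * ζ ^ 18 - a.1 * a.2 ^ 2 * b.1 ^ 2 * b.2 * v (cons .m (cons .p t)) *
      ζ ^ 20 + a.1 * a.2 ^ 2 * b.1 ^ 2 * b.2 * v (cons .p (cons .m t)) - a.1 * a.2 ^ 2 * b.1 ^ 2 *
      b.2 * v (cons .p (cons .m t)) * ζ ^ 6 - a.1 * a.2 ^ 2 * b.1 ^ 2 * b.2 * v (cons .p (cons .m
      t)) * ζ ^ 8 + a.1 * a.2 ^ 2 * b.1 ^ 2 * b.2 * v (cons .p (cons .m t)) * ζ ^ 14 + a.1 * a.2 ^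
      2 * b.1 ^ 2 * b.2 * v (cons .p (cons .m t)) * ζ ^ 16 + a.1 * a.2 ^ 2 * b.1 ^ 3 * v (cons .o
      (cons .o t)) * ζ ^ 6 - a.1 * a.2 ^ 2 * b.1 ^ 3 * v (cons .o (cons .o t)) * ζ ^ 10 - a.1 * a.2
      ^ 2 * b.1 ^ 3 * v (cons .o (cons .o t)) * ζ ^ 14 + a.1 * a.2 ^ 2 * b.1 ^ 3 * v (cons .o (cons
      .o t)) * ζ ^ 18 + a.1 ^ 2 * a.2 * b.1 * b.2 ^ 2 * v (cons .m (cons .p t)) * ζ ^ 6 - a.1 ^ 2 *
      a.2 * b.1 * b.2 ^ 2 * v (cons .m (cons .p t)) * ζ ^ 10 + a.1 ^ 2 * a.2 * b.1 * b.2 ^ 2 * v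
      (cons .m (cons .p t)) * ζ ^ 18 + a.1 ^ 2 * a.2 * b.1 * b.2 ^ 2 * v (cons .p (cons .m t)) * ζ
      ^ 6 - a.1 ^ 2 * a.2 * b.1 * b.2 ^ 2 * v (cons .p (cons .m t)) * ζ ^ 14 - a.1 ^ 2 * a.2 * b.1
      ^ 2 * b.2 * v (cons .o (cons .o t)) * ζ ^ 2 - a.1 ^ 2 * a.2 * b.1 ^ 2 * b.2 * v (cons .o
      (cons .o t)) * ζ ^ 6 + a.1 ^ 2 * a.2 * b.1 ^ 2 * b.2 * v (cons .o (cons .o t)) * ζ ^ 10 + a.1
      ^ 2 * a.2 * b.1 ^ 2 * b.2 * v (cons .o (cons .o t)) * ζ ^ 14 - a.1 ^ 2 * a.2 * b.1 ^ 2 * b.2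
      * v (cons .o (cons .o t)) * ζ ^ 18 + a.1 ^ 3 * b.1 * b.2 ^ 2 * v (cons .o (cons .o t)) * ζ ^
      2 + a.2 ^ 3 * b.1 ^ 3 * v (cons .m (cons .p t)) * ζ ^ 20 - a.2 ^ 3 * b.1 ^ 3 * v (cons .p
      (cons .m t)) + a.2 ^ 3 * b.1 ^ 3 * v (cons .p (cons .m t)) * ζ ^ 8 - a.2 ^ 3 * b.1 ^ 3 * v
      (cons .p (cons .m t)) * ζ ^ 16) * h8
  case m.p =>
    linear_combination (-a.1 * a.2 ^ 2 * b.1 ^ 3 * v (cons .o (cons .p t)) * ζ ^ 10 + a.1 * a.2 ^ 2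
      * b.1 ^ 3 * v (cons .p (cons .o t)) - a.1 * a.2 ^ 2 * b.1 ^ 3 * v (cons .p (cons .o t)) * ζ ^
      8 + a.1 * a.2 ^ 2 * b.1 ^ 3 * v (cons .p (cons .o t)) * ζ ^ 12 + a.1 ^ 2 * a.2 * b.1 ^ 2 *
      b.2 * v (cons .o (cons .p t)) * ζ ^ 4 + a.1 ^ 2 * a.2 * b.1 ^ 2 * b.2 * v (cons .o (cons .p
      t)) * ζ ^ 10 - a.1 ^ 2 * a.2 * b.1 ^ 2 * b.2 * v (cons .p (cons .o t)) + a.1 ^ 2 * a.2 * b.1
      ^ 2 * b.2 * v (cons .p (cons .o t)) * ζ ^ 2 + a.1 ^ 2 * a.2 * b.1 ^ 2 * b.2 * v (cons .p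
      (cons .o t)) * ζ ^ 8 - a.1 ^ 2 * a.2 * b.1 ^ 2 * b.2 * v (cons .p (cons .o t)) * ζ ^ 10 - a.1
      ^ 2 * a.2 * b.1 ^ 2 * b.2 * v (cons .p (cons .o t)) * ζ ^ 12 - a.1 ^ 3 * b.1 * b.2 ^ 2 * v
      (cons .o (cons .p t)) * ζ ^ 4 - a.1 ^ 3 * b.1 * b.2 ^ 2 * v (cons .p (cons .o t)) * ζ ^ 2 +
      a.1 ^ 3 * b.1 * b.2 ^ 2 * v (cons .p (cons .o t)) * ζ ^ 10) * h8
  case m.m =>
    linear_combination (a.1 * a.2 ^ 2 * b.1 ^ 3 * v (cons .m (cons .o t)) - a.1 * a.2 ^ 2 * b.1 ^ 3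
      * v (cons .m (cons .o t)) * ζ ^ 8 - a.1 ^ 2 * a.2 * b.1 ^ 2 * b.2 * v (cons .m (cons .o t)) +
      a.1 ^ 2 * a.2 * b.1 ^ 2 * b.2 * v (cons .m (cons .o t)) * ζ ^ 2 + a.1 ^ 2 * a.2 * b.1 ^ 2 *
      b.2 * v (cons .m (cons .o t)) * ζ ^ 8 + a.1 ^ 2 * a.2 * b.1 ^ 2 * b.2 * v (cons .o (cons .m
      t)) * ζ ^ 4 - a.1 ^ 3 * b.1 * b.2 ^ 2 * v (cons .m (cons .o t)) * ζ ^ 2 - a.1 ^ 3 * b.1 * b.2
      ^ 2 * v (cons .o (cons .m t)) * ζ ^ 4) * h8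
  all_goals ring

theorem q_R (a b : P) : (q1 + kq * lift q1) * R a b = R a b * (q1 + kq * lift q1) := by
  refine ext2 fun v r s t => ?_
  cases r <;> cases s
  all_goals simp only [Module.End.mul_apply, R_apply, lift_apply, Rf, LinearMap.add_apply,
    Pi.add_apply, q1_o, q1_p, q1_m, kq_o, kq_p, kq_m, mul_zero, add_zero, zero_add, sub_zero, dd,
    vv, w1, w2, ul, uu, cr, jn]
  case o.o =>
    linear_combination (a.1 * a.2 * b.2 ^ 2 * v (cons .m (cons .m t)) * ζ ^ 2 - a.1 * a.2 * b.2 ^ 2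
      * v (cons .m (cons .m t)) * ζ ^ 6 - a.2 ^ 2 * b.1 * b.2 * v (cons .m (cons .m t)) * ζ ^ 2 +
      a.2 ^ 2 * b.1 * b.2 * v (cons .m (cons .m t)) * ζ ^ 6) * h8
  case p.m =>
    linear_combination (a.1 * a.2 * b.1 * b.2 * v (cons .m (cons .m t)) * ζ ^ 8 + a.1 * a.2 * b.1 *
      b.2 * v (cons .m (cons .m t)) * ζ ^ 10 - a.1 ^ 2 * b.2 ^ 2 * v (cons .m (cons .m t)) * ζ ^ 8
      - a.2 ^ 2 * b.1 ^ 2 * v (cons .m (cons .m t)) * ζ ^ 10) * h8
  case m.p =>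
    linear_combination (-a.1 * a.2 * b.1 * b.2 * v (cons .m (cons .m t)) * ζ ^ 12 - a.1 * a.2 * b.1
      * b.2 * v (cons .m (cons .m t)) * ζ ^ 14 + a.1 ^ 2 * b.2 ^ 2 * v (cons .m (cons .m t)) * ζ ^
      12 + a.2 ^ 2 * b.1 ^ 2 * v (cons .m (cons .m t)) * ζ ^ 14) * h8
  all_goals ring

theorem dg_R (a b : P) {y z : ℂ} (h : y * z = 1) :
    dg 1 y z * lift (dg 1 y z) * R a b = R a b * (dg 1 y z * lift (dg 1 y z)) := by
  refine ext2 fun v r s t => ?_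
  cases r <;> cases s
  all_goals simp only [Module.End.mul_apply, R_apply, lift_apply, Rf, dg_o, dg_p, dg_m, dd, vv, w1,
    w2, ul, uu, cr, jn]
  case o.o =>
    linear_combination (-a.1 * a.2 * b.2 ^ 2 * v (cons .m (cons .p t)) * ζ ^ 6 + a.1 * a.2 * b.2 ^
      2 * v (cons .m (cons .p t)) * ζ ^ 10 + a.1 * a.2 * b.2 ^ 2 * v (cons .p (cons .m t)) * ζ ^ 2
      - a.1 * a.2 * b.2 ^ 2 * v (cons .p (cons .m t)) * ζ ^ 6 + a.2 ^ 2 * b.1 * b.2 * v (cons .m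
      (cons .p t)) * ζ ^ 6 - a.2 ^ 2 * b.1 * b.2 * v (cons .m (cons .p t)) * ζ ^ 10 - a.2 ^ 2 * b.1
      * b.2 * v (cons .p (cons .m t)) * ζ ^ 2 + a.2 ^ 2 * b.1 * b.2 * v (cons .p (cons .m t)) * ζ ^
      6) * h
  case p.m =>
    linear_combination (a.1 * a.2 * b.1 ^ 2 * v (cons .o (cons .o t)) * ζ ^ 8 - a.1 * a.2 * b.1 ^ 2
      * v (cons .o (cons .o t)) * ζ ^ 12 - a.1 ^ 2 * b.1 * b.2 * v (cons .o (cons .o t)) * ζ ^ 8 +
      a.1 ^ 2 * b.1 * b.2 * v (cons .o (cons .o t)) * ζ ^ 12) * h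
  case m.p =>
    linear_combination (-a.1 * a.2 * b.1 ^ 2 * v (cons .o (cons .o t)) * ζ ^ 12 + a.1 * a.2 * b.1 ^
      2 * v (cons .o (cons .o t)) * ζ ^ 16 + a.1 ^ 2 * b.1 * b.2 * v (cons .o (cons .o t)) * ζ ^ 12
      - a.1 ^ 2 * b.1 * b.2 * v (cons .o (cons .o t)) * ζ ^ 16) * h
  all_goals ring

theorem e_ins (c : P) : (c.2 • e1 (sh c) + (sh c).2 • (kap * lift (e1 c))) * ins c = 0 := by
  refine ext2 fun v r s t => ?_
  cases r <;> cases s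
  all_goals simp only [Module.End.mul_apply, lift_apply, LinearMap.add_apply, Pi.add_apply,
    LinearMap.smul_apply, Pi.smul_apply, smul_eq_mul, e1_o, e1_p, e1_m, kap_o, kap_p, kap_m,
    ins_oo, ins_op, ins_om, ins_po, ins_pp, ins_pm, ins_mo, ins_mp, ins_mm, LinearMap.zero_apply,
    Pi.zero_apply, mul_zero, add_zero, zero_add, sub_zero, sh_1, sh_2]
  case o.p =>
    linear_combination (c.1 * c.2 ^ 2 * v t * ζ ^ 3 - c.1 * c.2 ^ 2 * v t * ζ ^ 11) * h8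
  case p.o =>
    linear_combination c.1 * c.2 ^ 2 * v t * ζ ^ 13 * h8
  all_goals ring

theorem f_ins (c : P) : (c.1 • f1 (sh c) + (sh c).1 • (kap * lift (f1 c))) * ins c = 0 := by
  refine ext2 fun v r s t => ?_
  cases r <;> cases s
  all_goals simp only [Module.End.mul_apply, lift_apply, LinearMap.add_apply, Pi.add_apply,
    LinearMap.smul_apply, Pi.smul_apply, smul_eq_mul, f1_o, f1_p, f1_m, kap_o, kap_p, kap_m,
    ins_oo, ins_op, ins_om, ins_po, ins_pp, ins_pm, ins_mo, ins_mp, ins_mm, LinearMap.zero_apply,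
    Pi.zero_apply, mul_zero, add_zero, zero_add, sub_zero, sh_1, sh_2]
  case o.m =>
    linear_combination c.1 ^ 2 * c.2 * v t * ζ ^ 5 * h8
  case m.o =>
    linear_combination (c.1 ^ 2 * c.2 * v t * ζ ^ 13 - c.1 ^ 2 * c.2 * v t * ζ ^ 21) * h8
  all_goals ring

theorem q_ins (c : P) : (q1 + kq * lift q1) * ins c = 0 := by
  refine ext2 fun v r s t => ?_
  cases r <;> cases s
  all_goals simp only [Module.End.mul_apply, lift_apply, LinearMap.add_apply, Pi.add_apply, q1_o,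
    q1_p, q1_m, kq_o, kq_p, kq_m, ins_oo, ins_op, ins_om, ins_po, ins_pp, ins_pm, ins_mo, ins_mp,
    ins_mm, LinearMap.zero_apply, Pi.zero_apply, mul_zero, add_zero, zero_add, sub_zero]
  all_goals ring

theorem dg_ins (c : P) {y z : ℂ} (h : y * z = 1) :
    dg 1 y z * lift (dg 1 y z) * ins c = ins c := by
  refine ext2 fun v r s t => ?_
  cases r <;> cases s
  all_goals simp only [Module.End.mul_apply, lift_apply, dg_o, dg_p, dg_m, ins_oo, ins_op, ins_om,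
    ins_po, ins_pp, ins_pm, ins_mo, ins_mp, ins_mm, mul_zero, add_zero, zero_add, sub_zero]
  case p.m =>
    linear_combination c.1 * v t * ζ ^ 2 * h
  case m.p =>
    linear_combination (-c.1 * v t * ζ ^ 6) * h
  all_goals ring


end Pool.Agent.Lib.MP_4960b8_pr.QK
end

-- part Pool.Agent.Lib.MP_4960b8_pr.QK.Local
section

/-! Chains of local operators. -/

namespace Pool.Agent.Lib.MP_4960b8_pr.QK

/-! chains -/
theorem up_ex (k a b : P) (l₁ l₂ : List P) :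
    liftN l₁.length (R a b) * up k (l₁ ++ a :: b :: l₂) =
      up k (l₁ ++ b :: a :: l₂) * liftN (l₁.length + 1) (R a b) := by
  induction l₁ with
  | nil =>
    show R a b * (lift (lift (up k l₂) * R k b) * R k a) =
      lift (lift (up k l₂) * R k a) * R k b * lift (R a b)
    calc _ = R a b * lift (lift (up k l₂)) * lift (R k b) * R k a := by
          simp only [lift_mul, mul_assoc]
      _ = lift (lift (up k l₂)) * (R a b * lift (R k b) * R k a) := by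
          rw [R_lift]; simp only [mul_assoc]
      _ = _ := by rw [ybe]; simp only [lift_mul, mul_assoc]
  | cons m l ih =>
    show lift (liftN l.length (R a b)) * (lift (up k (l ++ a :: b :: l₂)) * R k m) =
      lift (up k (l ++ b :: a :: l₂)) * R k m * lift (lift (liftN l.length (R a b)))
    rw [← mul_assoc, ← lift_mul, ih, lift_mul, mul_assoc, mul_assoc, R_lift]; rfl
theorem down_ex (k a b : P) (l₁ l₂ : List P) :
    liftN (l₁.length + 1) (R a b) * down k (l₁ ++ a :: b :: l₂) =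
      down k (l₁ ++ b :: a :: l₂) * liftN l₁.length (R a b) := by
  induction l₁ with
  | nil =>
    show lift (R a b) * (R a k * lift (R b k * lift (down k l₂))) =
      R b k * lift (R a k * lift (down k l₂)) * R a b
    calc _ = lift (R a b) * R a k * lift (R b k) * lift (lift (down k l₂)) := by
          simp only [lift_mul, mul_assoc]
      _ = R b k * lift (R a k) * (R a b * lift (lift (down k l₂))) := by
          rw [← ybe]; simp only [mul_assoc]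
      _ = _ := by rw [R_lift]; simp only [lift_mul, mul_assoc]
  | cons m l ih =>
    show lift (lift (liftN l.length (R a b))) * (R m k * lift (down k (l ++ a :: b :: l₂))) =
      R m k * lift (down k (l ++ b :: a :: l₂)) * lift (liftN l.length (R a b))
    rw [← mul_assoc, ← R_lift, mul_assoc, mul_assoc, ← lift_mul, ← lift_mul, ← ih]; rfl
theorem rot_chain (c : P) (l : List P) :
    lift (up c l) * ins c = down (sh c) l * liftN l.length (ins c) := by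
  induction l with
  | nil =>
    show lift 1 * ins c = 1 * ins c
    rw [lift_one]
  | cons m l ih =>
    show lift (lift (up c l) * R c m) * ins c =
      R m (sh c) * lift (down (sh c) l) * lift (liftN l.length (ins c))
    rw [lift_mul, mul_assoc, rot, ← mul_assoc, ← R_lift, mul_assoc, ← lift_mul, ih, lift_mul,
      mul_assoc]

lemma local_pQ_cons (a : P) (l : List P) : pQ (a :: l) = a.2 * pQ l := by
  simp only [pQ, List.map_cons, List.prod_cons]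
lemma local_pP_cons (a : P) (l : List P) : pP (a :: l) = a.1 * pP l := by
  simp only [pP, List.map_cons, List.prod_cons]
lemma local_pQ_perm {l l' : List P} (h : l.Perm l') : pQ l = pQ l' := (h.map _).prod_eq
lemma local_pP_perm {l l' : List P} (h : l.Perm l') : pP l = pP l' := (h.map _).prod_eq
lemma local_kap : ζ ^ 6 * ζ ^ 10 = 1 := by rw [← pow_add]; exact h16
lemma local_kq : ζ ^ 4 * -ζ ^ 4 = 1 := by linear_combination (-1 : ℂ) * h8
lemma local_dg_lift (x y z : ℂ) (A : Op) : dg x y z * lift A = lift A * dg x y z := loc_lift _ A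

lemma local_JE_two (a b : P) (l : List P) : JE (b :: a :: l) =
    pQ l • (a.2 • e1 b + b.2 • (kap * lift (e1 a))) +
      (a.2 * b.2) • (kap * lift kap * lift (lift (JE l))) := by
  simp only [JE, local_pQ_cons, lift_add, lift_smul, lift_mul, mul_add, mul_smul_comm, mul_assoc]
  module
lemma local_JF_two (a b : P) (l : List P) : JF (b :: a :: l) =
    pP l • (a.1 • f1 b + b.1 • (kap * lift (f1 a))) +
      (a.1 * b.1) • (kap * lift kap * lift (lift (JF l))) := by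
  simp only [JF, local_pP_cons, lift_add, lift_smul, lift_mul, mul_add, mul_smul_comm, mul_assoc]
  module
lemma local_Q_two (n : ℕ) :
    Q (n + 2) = (q1 + kq * lift q1) + kq * lift kq * lift (lift (Q n)) := by
  simp only [Q_succ, lift_add, lift_mul, mul_add, mul_assoc, add_assoc]

lemma local_dd_R (a b : P) {y z : ℂ} (h : y * z = 1) (A : Op) :
    dg 1 y z * lift (dg 1 y z) * lift (lift A) * R a b =
      R a b * (dg 1 y z * lift (dg 1 y z) * lift (lift A)) := by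
  rw [mul_assoc, ← R_lift, ← mul_assoc, dg_R a b h, mul_assoc]
lemma local_dd_ins (c : P) {y z : ℂ} (h : y * z = 1) (A : Op) :
    dg 1 y z * lift (dg 1 y z) * lift (lift A) * ins c = ins c * A := by
  rw [mul_assoc, ← ins_lift, ← mul_assoc, dg_ins c h]

lemma local_step (M : S → S → ℂ) (x y z s t : ℂ) {A B X : Op} (h : A * X = X * B) :
    (s • loc M + t • (dg x y z * lift A)) * lift X =
      lift X * (s • loc M + t • (dg x y z * lift B)) := by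
  rw [add_mul, mul_add, smul_mul_assoc, smul_mul_assoc, mul_smul_comm, mul_smul_comm, loc_lift,
    mul_assoc, ← lift_mul, h, lift_mul, ← mul_assoc, local_dg_lift, mul_assoc]

lemma local_JE_step (m : P) {l l' : List P} (hp : l.Perm l') {X : Op}
    (h : JE l * X = X * JE l') : JE (m :: l) * lift X = lift X * JE (m :: l') := by
  rw [JE, JE, local_pQ_perm hp]
  exact local_step _ _ _ _ _ _ h
lemma local_JF_step (m : P) {l l' : List P} (hp : l.Perm l') {X : Op}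
    (h : JF l * X = X * JF l') : JF (m :: l) * lift X = lift X * JF (m :: l') := by
  rw [JF, JF, local_pP_perm hp]
  exact local_step _ _ _ _ _ _ h
lemma local_Q_step {n : ℕ} {X : Op} (h : Q n * X = X * Q n) :
    Q (n + 1) * lift X = lift X * Q (n + 1) := by
  have := local_step (fun a b => match a, b with
    | .p, .m => 1
    | _, _ => 0) 1 (ζ ^ 4) (-ζ ^ 4) 1 1 h
  simp only [one_smul] at this
  exact this

theorem JE_R (a b : P) (l₁ l₂ : List P) :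
    JE (l₁ ++ b :: a :: l₂) * liftN l₁.length (R a b) =
      liftN l₁.length (R a b) * JE (l₁ ++ a :: b :: l₂) := by
  induction l₁ with
  | nil =>
    show JE (b :: a :: l₂) * R a b = R a b * JE (a :: b :: l₂)
    rw [local_JE_two, local_JE_two, add_mul, mul_add, smul_mul_assoc, smul_mul_assoc,
      mul_smul_comm, mul_smul_comm, e_R, mul_comm a.2 b.2]
    congr 2
    exact local_dd_R a b local_kap _
  | cons m l ih => exact local_JE_step m ((List.Perm.swap _ _ _).append_left l) ih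
theorem JF_R (a b : P) (l₁ l₂ : List P) :
    JF (l₁ ++ b :: a :: l₂) * liftN l₁.length (R a b) =
      liftN l₁.length (R a b) * JF (l₁ ++ a :: b :: l₂) := by
  induction l₁ with
  | nil =>
    show JF (b :: a :: l₂) * R a b = R a b * JF (a :: b :: l₂)
    rw [local_JF_two, local_JF_two, add_mul, mul_add, smul_mul_assoc, smul_mul_assoc,
      mul_smul_comm, mul_smul_comm, f_R, mul_comm a.1 b.1]
    congr 2
    exact local_dd_R a b local_kap _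
  | cons m l ih => exact local_JF_step m ((List.Perm.swap _ _ _).append_left l) ih
theorem Q_R (a b : P) {i n : ℕ} (h : i + 2 ≤ n) :
    Q n * liftN i (R a b) = liftN i (R a b) * Q n := by
  obtain ⟨j, rfl⟩ : ∃ j, n = j + 2 + i := ⟨n - 2 - i, by omega⟩
  clear h
  induction i with
  | zero =>
    show Q (j + 2) * R a b = R a b * Q (j + 2)
    rw [local_Q_two, add_mul, mul_add, q_R]
    congr 1
    exact local_dd_R a b local_kq _
  | succ i ih => exact local_Q_step ih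
lemma local_dg_comm (x y z x' y' z' : ℂ) : dg x y z * dg x' y' z' = dg x' y' z' * dg x y z := by
  refine ext1 fun v s t => ?_
  simp only [Module.End.mul_apply, basic_dg_apply]
  ring
lemma local_q1_K (a : P) : q1 * K a = K a * q1 := by
  refine ext1 fun v s t => ?_
  cases s <;>
    simp only [Module.End.mul_apply, K, q1, basic_dg_apply, basic_loc_apply, basic_ev] <;> ring
theorem Q_K (a : P) (i n : ℕ) : Q n * liftN i (K a) = liftN i (K a) * Q n := by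
  induction n generalizing i with
  | zero =>
    show 0 * _ = _ * 0
    rw [zero_mul, mul_zero]
  | succ n ih =>
    cases i with
    | zero =>
      show Q (n + 1) * K a = K a * Q (n + 1)
      rw [Q_succ, add_mul, mul_add, local_q1_K]
      congr 1
      unfold K kq
      rw [mul_assoc, ← local_dg_lift, ← mul_assoc, local_dg_comm, mul_assoc]
    | succ i => exact local_Q_step (ih i)
theorem JE_down (k : P) (l l' : List P) :
    JE (k :: (l ++ l')) * down k l = down k l * JE (l ++ k :: l') := by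
  induction l with
  | nil =>
    show _ * 1 = 1 * _
    rw [mul_one, one_mul]; rfl
  | cons m l ih =>
    have h1 : JE (k :: m :: (l ++ l')) * R m k = R m k * JE (m :: k :: (l ++ l')) :=
      JE_R m k [] (l ++ l')
    show JE (k :: m :: (l ++ l')) * (R m k * lift (down k l)) =
      R m k * lift (down k l) * JE (m :: (l ++ k :: l'))
    rw [← mul_assoc, h1, mul_assoc, local_JE_step m List.perm_middle.symm ih, mul_assoc]
theorem JF_down (k : P) (l l' : List P) :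
    JF (k :: (l ++ l')) * down k l = down k l * JF (l ++ k :: l') := by
  induction l with
  | nil =>
    show _ * 1 = 1 * _
    rw [mul_one, one_mul]; rfl
  | cons m l ih =>
    have h1 : JF (k :: m :: (l ++ l')) * R m k = R m k * JF (m :: k :: (l ++ l')) :=
      JF_R m k [] (l ++ l')
    show JF (k :: m :: (l ++ l')) * (R m k * lift (down k l)) =
      R m k * lift (down k l) * JF (m :: (l ++ k :: l'))
    rw [← mul_assoc, h1, mul_assoc, local_JF_step m List.perm_middle.symm ih, mul_assoc]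
theorem Q_down (k : P) (l : List P) {n : ℕ} (h : l.length + 1 ≤ n) :
    Q n * down k l = down k l * Q n := by
  induction l generalizing n with
  | nil =>
    show _ * 1 = 1 * _
    rw [mul_one, one_mul]
  | cons m l ih =>
    rw [List.length_cons] at h
    obtain ⟨j, rfl⟩ : ∃ j, n = j + 1 := ⟨n - 1, by omega⟩
    have h1 : Q (j + 1) * R m k = R m k * Q (j + 1) := Q_R m k (i := 0) (by omega)
    rw [down, ← mul_assoc, h1, mul_assoc, local_Q_step (ih (by omega)), mul_assoc]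
theorem JE_ins (c : P) (l : List P) :
    JE (sh c :: c :: l) * ins c = ((sh c).2 * c.2) • (ins c * JE l) := by
  rw [local_JE_two, add_mul, smul_mul_assoc, smul_mul_assoc, e_ins, smul_zero, zero_add,
    mul_comm c.2]
  congr 1
  exact local_dd_ins c local_kap _
theorem JF_ins (c : P) (l : List P) :
    JF (sh c :: c :: l) * ins c = ((sh c).1 * c.1) • (ins c * JF l) := by
  rw [local_JF_two, add_mul, smul_mul_assoc, smul_mul_assoc, f_ins, smul_zero, zero_add,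
    mul_comm c.1]
  congr 1
  exact local_dd_ins c local_kap _
theorem Q_ins (c : P) (n : ℕ) : Q (n + 2) * ins c = ins c * Q n := by
  rw [local_Q_two, add_mul, q_ins, zero_add]
  exact local_dd_ins c local_kq _
/-- going up and coming down again -/
theorem down_up (k : P) (l : List P) :
    down k l * up k l = (l.map fun m => dd k m * dd m k).prod • 1 := by
  induction l with
  | nil => simp only [down, up, mul_one, List.map_nil, List.prod_nil, one_smul]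
  | cons m l ih =>
    rw [down, up, mul_assoc, ← mul_assoc (lift _), ← lift_mul, ih, lift_smul, lift_one,
      smul_mul_assoc, one_mul, mul_smul_comm, unitar, smul_smul, List.map_cons, List.prod_cons,
      mul_comm]
theorem up_down (k : P) (l : List P) :
    up k l * down k l = (l.map fun m => dd k m * dd m k).prod • 1 := by
  induction l with
  | nil => simp only [down, up, mul_one, List.map_nil, List.prod_nil, one_smul]
  | cons m l ih =>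
    rw [down, up, mul_assoc, ← mul_assoc (R k m), unitar, smul_mul_assoc, one_mul, mul_smul_comm,
      ← lift_mul, ih, lift_smul, lift_one, smul_smul, List.map_cons, List.prod_cons,
      mul_comm (dd m k)]
/-- a pair passes through a line going up or down -/
theorem up_ins (k c : P) (l₁ l₂ : List P) :
    up k (l₁ ++ sh c :: c :: l₂) * liftN (l₁.length + 1) (ins c) =
      (dd k c * dd k (sh c)) • (liftN l₁.length (ins c) * up k (l₁ ++ l₂)) := by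
  induction l₁ with
  | nil =>
    show lift (lift (up k l₂) * R k c) * R k (sh c) * lift (ins c) = _ • (ins c * up k l₂)
    calc _ = lift (lift (up k l₂)) * (lift (R k c) * R k (sh c) * lift (ins c)) := by
          simp only [lift_mul, mul_assoc]
      _ = _ := by rw [cross2, mul_smul_comm, ins_lift]
  | cons m l ih =>
    show lift (up k (l ++ sh c :: c :: l₂)) * R k m * lift (lift (liftN l.length (ins c))) =
      _ • (lift (liftN l.length (ins c)) * (lift (up k (l ++ l₂)) * R k m))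
    have ih' : up k (l ++ sh c :: c :: l₂) * lift (liftN l.length (ins c)) = _ := ih
    rw [mul_assoc, R_lift, ← mul_assoc, ← lift_mul, ih', lift_smul, lift_mul, smul_mul_assoc,
      mul_assoc]
theorem down_ins (k c : P) (l₁ l₂ : List P) :
    down k (l₁ ++ sh c :: c :: l₂) * liftN l₁.length (ins c) =
      (dd c k * dd (sh c) k) • (liftN (l₁.length + 1) (ins c) * down k (l₁ ++ l₂)) := by
  induction l₁ with
  | nil =>
    show R (sh c) k * lift (R c k * lift (down k l₂)) * ins c = _ • (lift (ins c) * down k l₂)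
    calc _ = R (sh c) k * lift (R c k) * (lift (lift (down k l₂)) * ins c) := by
          simp only [lift_mul, mul_assoc]
      _ = _ := by rw [← ins_lift, ← mul_assoc, cross1, smul_mul_assoc]
  | cons m l ih =>
    show R m k * lift (down k (l ++ sh c :: c :: l₂)) * lift (liftN l.length (ins c)) =
      _ • (lift (lift (liftN l.length (ins c))) * (R m k * lift (down k (l ++ l₂))))
    rw [mul_assoc, ← lift_mul, ih, lift_smul, lift_mul, mul_smul_comm, ← mul_assoc, ← mul_assoc,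
      ← R_lift]
    rfl

end Pool.Agent.Lib.MP_4960b8_pr.QK
end
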