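import Pool.Agent.Lib.MP_4960b8_pr.QK.Defs
import Pool.Agent.Lib.MP_4960b8_pr.QK.BDefs
import Pool.Agent.Lib.MP_4960b8_pr.SAW.Final
import Pool.Agent.Lib.MP_4960b8_pr.QK.Basic
import Pool.Agent.Lib.MP_4960b8_pr.QK.Local

-- part Pool.Agent.Lib.MP_4960b8_pr.QK.Stmts
section

/-!
Interfaces between the four parts of the proof of `B_T ≍ T^(-1/4)`.
-/

namespace Pool.Agent.Lib.MP_4960b8_pr.QK

open Polynomial Filter Topology

/-! ### polynomial families -/

def PolyF (f : (ℕ → P) → ℂ) : Prop := ∃ q : MvPolynomial (ℕ × Bool) ℂ,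
  ∀ x, f x = MvPolynomial.eval (fun i => if i.2 then (x i.1).1 else (x i.1).2) q
def PolyP (g : (ℕ → P) → P) : Prop := PolyF (fun x => (g x).1) ∧ PolyF (fun x => (g x).2)
/-- `F` is a polynomial function of the coordinates of the list, for every length -/
def Pol (F : List P → ℂ) : Prop := ∀ L : List ((ℕ → P) → P), (∀ g ∈ L, PolyP g) →
  PolyF fun x => F (L.map fun g => g x)
def PolV (Ψ : List P → Vec) : Prop := ∀ σ, Pol fun l => Ψ l σ
def G1 (a : P) : Prop := a.1 ≠ 0 ∧ a.2 ≠ 0 ∧ a.1 ^ 32 ≠ a.2 ^ 32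
def G2 (a b : P) : Prop :=
  (a.1 * b.2) ^ 32 ≠ (a.2 * b.1) ^ 32 ∧ (a.1 * b.1) ^ 32 ≠ (a.2 * b.2) ^ 32
/-- generic lists of parameters -/
def Gen (l : List P) : Prop := (∀ a ∈ l, G1 a) ∧ l.Pairwise G2
/-- interpolation nodes attached to the list `l` -/
noncomputable def node (l : List P) : Option (Bool × ℕ) → P
  | none => bar aux
  | some (true, j) => sh (l.getD j 0)
  | some (false, j) => sh (bar (l.getD j 0))
def NodeOK (n : ℕ) : Option (Bool × ℕ) → Prop
  | none => True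
  | some (_, j) => j < n

/-- existence of the polynomial interpolant -/
def StmtInterp : Prop := ∀ (n : ℕ) (W : Option (Bool × ℕ) → List P → ℂ), (∀ i, Pol (W i)) →
  (∀ i i', NodeOK n i → NodeOK n i' → i ≠ i' → ∀ (l : List P) (c : ℂ), l.length = n →
    (∀ a ∈ l, a.1 ≠ 0 ∧ a.2 ≠ 0) → node l i = c • node l i' → W i l = c ^ (2 * n) * W i' l) →
  ∃ F : List P → ℂ, Pol F ∧ (∀ l, l.length ≠ n + 1 → F l = 0) ∧
    (∀ (l : List P) (a : P) (c : ℂ), l.length = n → F (c • a :: l) = c ^ (2 * n) * F (a :: l)) ∧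
    ∀ i, NodeOK n i → ∀ l, l.length = n → F (node l i :: l) = W i l

/-- the polynomial solution of the exchange and reflection equations, up to length `n` -/
structure Good (n : ℕ) (Ψ : List P → Vec) : Prop where
  nil : Ψ [] = vac
  pol : PolV Ψ
  supp : ∀ l, l.length ≤ n → Supp l.length (Ψ l)
  ch : ∀ l, l.length ≤ n → HasCh l.length 0 (Ψ l)
  hom : ∀ l₁ a l₂ (c : ℂ), (l₁ ++ a :: l₂).length ≤ n →
    Ψ (l₁ ++ c • a :: l₂) = c ^ (2 * (l₁.length + l₂.length)) • Ψ (l₁ ++ a :: l₂)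
  ex : ∀ l₁ a b l₂, (l₁ ++ a :: b :: l₂).length ≤ n →
    liftN l₁.length (R a b) (Ψ (l₁ ++ a :: b :: l₂)) = dd a b • Ψ (l₁ ++ b :: a :: l₂)
  kt : ∀ l a, (l ++ [a]).length ≤ n →
    liftN l.length (K a) (Ψ (l ++ [a])) = kd a • Ψ (l ++ [bar a])
  r2 : ∀ l₁ c l₂, (l₁ ++ sh c :: c :: l₂).length ≤ n → Ψ (l₁ ++ sh c :: c :: l₂) =
    (kd c * lin c * ((l₁ ++ l₂).map fun m => phi m c).prod) •
      liftN l₁.length (ins c) (Ψ (l₁ ++ l₂))
  np : ∀ l₁ k l₂, (l₁ ++ k :: l₂).length < n → Ψ (sh k :: (l₁ ++ k :: l₂)) = Vp Ψ l₁ k l₂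
  nm : ∀ l₁ k l₂, (l₁ ++ k :: l₂).length < n → Ψ (sh (bar k) :: (l₁ ++ k :: l₂)) = Vm Ψ l₁ k l₂
  r0b : ∀ l, l.length < n → Ψ (bar aux :: l) = fc l • emp (Ψ l)
  r0t : ∀ l, l.length < n → Ψ (l ++ [aux]) = fc l • Ψ l
  p5 : ∀ l, l.length < n →
    Ψ ((0, 1) :: l) = (l.map fun m => ζ ^ 13 * m.1 * m.2).prod • emp (Ψ l)

def StmtGood : Prop := ∀ n, ∃ Ψ, Good n Ψ

/-! ### the functional equation -/

noncomputable def c18 : ℝ := 2 * Real.cos (Real.pi / 8)
noncomputable def c38 : ℝ := 2 * Real.cos (3 * Real.pi / 8)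

noncomputable def PhiH (T : ℕ) (Pl : ℂ[X]) (x : ℂ) : ℂ :=
  (x ^ 2 - 1) * (x ^ 2 - c18 * x + 1) ^ (2 * T + 1) * (x ^ 2 - c38 * x + 1) ^ T * Pl.eval x

def FE (T : ℕ) (Pl : ℂ[X]) : Prop := Pl.natDegree ≤ 2 * T ∧
  (∀ x : ℂ, x ≠ 0 → Pl.eval x = x ^ (2 * T) * Pl.eval x⁻¹) ∧
  ∀ x : ℂ, PhiH T Pl x - PhiH T Pl (Complex.I * x) + PhiH T Pl (-x) -
    PhiH T Pl (-(Complex.I * x)) = 0

/-- asymptotic analysis of the functional equation -/
def StmtAna : Prop := ∃ c C : ℝ, 0 < c ∧ ∃ T₀ : ℕ, ∀ T, T₀ ≤ T → ∀ Pl : ℂ[X], FE T Pl →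
  Pl.eval (ζ ^ 3) = Pl.coeff 0 * (2 * c18 * ζ ^ 3) ^ T →
  (Pl.coeff 0 = 0 → Pl = 0) ∧ ∃ k : ℝ, c * (T : ℝ) ^ (3 / 4 : ℝ) ≤ k ∧
    k ≤ C * (T : ℝ) ^ (3 / 4 : ℝ) ∧
    (1 + Real.sqrt 2) * T * c18 * Pl.coeff 0 - Pl.coeff 1 = Pl.coeff 0 * k

/-- normalised column operators of the hexagonal strip with `T` rows -/
noncomputable def Ch (T : ℕ) : Op := ((dd hn aux)⁻¹ ^ T) • col (List.replicate T hn)
noncomputable def ChA (T : ℕ) : Op := ((dd hn aux)⁻¹ ^ T) • colA (List.replicate T hn)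

/-- fixed vectors of the column operator -/
structure Fix (T : ℕ) (ψ φ : Vec) : Prop where
  s0 : Supp T ψ
  c0 : HasCh T 0 ψ
  s1 : Supp T φ
  c1 : HasCh T 1 φ
  fix : Ch T ψ = ψ
  cl : Q T ψ = 0
  inh : φ = Ch T φ + ChA T ψ

/-- output of the algebraic part -/
def StmtAlg : Prop := ∀ T : ℕ, ∃ (ψ φ : Vec) (Pl : ℂ[X]), Fix T ψ φ ∧ (ψ ≠ 0 ∨ Pl ≠ 0) ∧
  FE T Pl ∧ Pl.coeff 0 = ψ zer ∧ Pl.eval (ζ ^ 3) = Pl.coeff 0 * (2 * c18 * ζ ^ 3) ^ T ∧
  2 * c18 * ζ * ∑ j ∈ Finset.range T, φ (sgl j) =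
    (1 + Real.sqrt 2) * T * c18 * Pl.coeff 0 - Pl.coeff 1

/-! ### walks -/

open SAW

/-- columns `a ≤ j < b`, rows `0 ≤ k < T` -/
def box (a b : ℤ) (T : ℕ) : Set V := {v | Valid v ∧ 0 ≤ v.k ∧ v.k < T ∧ a ≤ v.j ∧ v.j < b}
/-- the bottom edge of the column `j` -/
def pB (j : ℤ) : V := ⟨2 - j, j, -1⟩
def qB (j : ℤ) : V := ⟨2 - j, j, 0⟩
/-- total mass of the walks from the bottom to the right side of the box with `N` columns -/
noncomputable def RT (T N : ℕ) : ℝ := ∑ i ∈ Finset.range N,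
  mu {l | l ∈ Exit (box (-N) 0 T) (pB (-1 - i)) (qB (-1 - i)) ∧ (lv (qB (-1 - i)) l).j = 0}

/-- the transfer operator counts self-avoiding walks -/
def StmtPhys : Prop := ∀ (T : ℕ) (ψ φ : Vec), Fix T ψ φ → (ψ zer = 0 → ψ = 0) ∧
  Tendsto (fun N => ψ zer * (RT T N : ℂ)) atTop (𝓝 (ζ * ∑ j ∈ Finset.range T, φ (sgl j)))

/-- critical partition function of a set of walks -/
noncomputable def Zc (A : Set (List V)) : ℝ := ∑' γ : A, xc ^ γ.1.length

def Final : Prop := ∃ c C : ℝ, 0 < c ∧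
  ∀ T : ℕ, 1 ≤ T → Summable (fun γ : bridges T => xc ^ γ.1.length) ∧
    c * (T : ℝ) ^ (-1 / 4 : ℝ) ≤ Zc (bridges T) ∧ Zc (bridges T) ≤ C * (T : ℝ) ^ (-1 / 4 : ℝ)

def StmtComb : Prop := (∃ c C : ℝ, 0 < c ∧ ∃ T₀ : ℕ, ∀ T, T₀ ≤ T → ∃ s : ℝ,
    Tendsto (RT T) atTop (𝓝 s) ∧ c * (T : ℝ) ^ (3 / 4 : ℝ) ≤ s ∧
      s ≤ C * (T : ℝ) ^ (3 / 4 : ℝ)) → Final

end Pool.Agent.Lib.MP_4960b8_pr.QK
end

-- part Pool.Agent.Lib.MP_4960b8_pr.QK.Poly
section

/-! Polynomial families, genericity, counting nodes. -/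

namespace Pool.Agent.Lib.MP_4960b8_pr.QK

open Polynomial

lemma PolyF.const (c : ℂ) : PolyF fun _ => c := ⟨MvPolynomial.C c, fun x => by simp⟩
lemma PolyF.add {f g} (hf : PolyF f) (hg : PolyF g) : PolyF fun x => f x + g x := by
  obtain ⟨p, hp⟩ := hf
  obtain ⟨q, hq⟩ := hg
  exact ⟨p + q, fun x => by rw [map_add, ← hp, ← hq]⟩
lemma PolyF.sub {f g} (hf : PolyF f) (hg : PolyF g) : PolyF fun x => f x - g x := by
  obtain ⟨p, hp⟩ := hf
  obtain ⟨q, hq⟩ := hg
  exact ⟨p - q, fun x => by rw [map_sub, ← hp, ← hq]⟩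
lemma PolyF.mul {f g} (hf : PolyF f) (hg : PolyF g) : PolyF fun x => f x * g x := by
  obtain ⟨p, hp⟩ := hf
  obtain ⟨q, hq⟩ := hg
  exact ⟨p * q, fun x => by rw [map_mul, ← hp, ← hq]⟩
lemma PolyF.neg {f} (hf : PolyF f) : PolyF fun x => -f x := by
  obtain ⟨p, hp⟩ := hf
  exact ⟨-p, fun x => by rw [map_neg, ← hp]⟩
lemma PolyF.pow {f} (hf : PolyF f) (n : ℕ) : PolyF fun x => f x ^ n := by
  obtain ⟨p, hp⟩ := hf
  exact ⟨p ^ n, fun x => by rw [map_pow, ← hp]⟩
lemma PolyF.sum {ι} (s : Finset ι) {f : ι → (ℕ → P) → ℂ} (h : ∀ i ∈ s, PolyF (f i)) :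
    PolyF fun x => ∑ i ∈ s, f i x := by
  classical
  induction s using Finset.induction_on with
  | empty => simpa using PolyF.const 0
  | insert a s ha ih =>
    simp only [Finset.sum_insert ha]
    exact (h a (by simp)).add (ih fun i hi => h i (by simp [hi]))
/-- product over a list of a polynomial expression -/
lemma PolyF.listProd {L : List ((ℕ → P) → P)} (F : (ℕ → P) → P → ℂ)
    (h : ∀ g ∈ L, PolyF fun x => F x (g x)) :
    PolyF fun x => ((L.map fun g => g x).map (F x)).prod := by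
  induction L with
  | nil => exact PolyF.const 1
  | cons g L ih =>
    simp only [List.map_cons, List.prod_cons]
    exact (h g (by simp)).mul (ih fun i hi => h i (by simp [hi]))
lemma PolyP.var (i : ℕ) : PolyP fun x => x i :=
  ⟨⟨MvPolynomial.X (i, true), fun x => by simp⟩, ⟨MvPolynomial.X (i, false), fun x => by simp⟩⟩
lemma PolyP.const (a : P) : PolyP fun _ => a := ⟨PolyF.const _, PolyF.const _⟩
lemma PolyP.bar {g} (h : PolyP g) : PolyP fun x => bar (g x) := ⟨h.2, h.1⟩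
lemma PolyP.sh {g} (h : PolyP g) : PolyP fun x => sh (g x) :=
  ⟨(PolyF.const _).mul h.1, (PolyF.const _).mul h.2⟩
lemma PolyP.smul {f g} (hf : PolyF f) (h : PolyP g) : PolyP fun x => f x • g x :=
  ⟨hf.mul h.1, hf.mul h.2⟩

lemma poly_w {g h} (hg : PolyP g) (hh : PolyP h) :
    (PolyF fun x => dd (g x) (h x)) ∧ (PolyF fun x => vv (g x) (h x)) ∧
    (PolyF fun x => w1 (g x) (h x)) ∧ (PolyF fun x => w2 (g x) (h x)) ∧
    (PolyF fun x => ul (g x) (h x)) ∧ (PolyF fun x => uu (g x) (h x)) ∧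
    (PolyF fun x => cr (g x) (h x)) ∧ (PolyF fun x => jn (g x) (h x)) := by
  have a := hg.1.mul hh.2
  have b := hg.2.mul hh.1
  have c := PolyF.const
  exact ⟨(((c _).mul a).sub b).mul (((c _).mul a).sub b),
    (a.sub b).neg.mul (((c _).mul a).add b),
    (a.sub ((c _).mul b)).mul (a.sub ((c _).mul b)),
    (((c _).mul a).sub ((c _).mul b)).mul (a.sub b),
    ((c _).mul (a.sub ((c _).mul b))).mul b, ((c _).mul (a.sub ((c _).mul b))).mul a,
    ((c _).mul (a.sub b)).mul (hg.1.mul hh.1), ((c _).mul (a.sub b)).mul (hg.2.mul hh.2)⟩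

lemma PolyF.dd {g h} (hg : PolyP g) (hh : PolyP h) : PolyF fun x => dd (g x) (h x) :=
  (poly_w hg hh).1
lemma PolyF.kd {g} (hg : PolyP g) : PolyF fun x => kd (g x) :=
  hg.1.mul (((PolyF.const _).mul hg.1).sub hg.2)
lemma PolyF.lin {g} (hg : PolyP g) : PolyF fun x => lin (g x) :=
  (PolyF.const _).mul (hg.1.add ((PolyF.const _).mul hg.2))
lemma PolyF.phi {g h} (hg : PolyP g) (hh : PolyP h) : PolyF fun x => phi (g x) (h x) :=
  (PolyF.dd hh hg).mul (PolyF.dd hg hh.bar)

/-- induction on polynomial functions -/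
lemma poly_ind {T : ((ℕ → P) → ℂ) → Prop} (hc : ∀ c, T fun _ => c)
    (h1 : ∀ i, T fun x => (x i).1) (h2 : ∀ i, T fun x => (x i).2)
    (ha : ∀ f g, T f → T g → T fun x => f x + g x)
    (hm : ∀ f g, PolyF f → PolyF g → T f → T g → T fun x => f x * g x)
    {f} (hf : PolyF f) : T f := by
  obtain ⟨q, hq⟩ := hf
  obtain rfl := funext hq
  clear hq
  induction q using MvPolynomial.induction_on with
  | C a => simpa using hc a
  | add p q hp hq => simpa using ha _ _ hp hq
  | mul_X p n hp =>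
    obtain ⟨i, b⟩ := n
    cases b
    · simpa using hm _ _ ⟨p, fun _ => rfl⟩ (PolyP.var i).2 hp (h2 i)
    · simpa using hm _ _ ⟨p, fun _ => rfl⟩ (PolyP.var i).1 hp (h1 i)

/-- substitution -/
lemma poly_comp {f} (hf : PolyF f) {g : ℕ → (ℕ → P) → P} (hg : ∀ i, PolyP (g i)) :
    PolyF fun x => f fun i => g i x :=
  poly_ind (T := fun f => PolyF fun x => f fun i => g i x) PolyF.const (fun i => (hg i).1)
    (fun i => (hg i).2) (fun _ _ a b => a.add b) (fun _ _ _ _ a b => a.mul b) hf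

/-- vectors with polynomial components -/
def PolyV (v : (ℕ → P) → Vec) : Prop := ∀ σ, PolyF fun x => v x σ
/-- operators preserving polynomial vectors -/
def PolyO (A : (ℕ → P) → Op) : Prop := ∀ v, PolyV v → PolyV fun x => A x (v x)

lemma PolyV.add {u v} (hu : PolyV u) (hv : PolyV v) : PolyV fun x => u x + v x :=
  fun σ => (hu σ).add (hv σ)
lemma PolyV.sub {u v} (hu : PolyV u) (hv : PolyV v) : PolyV fun x => u x - v x :=
  fun σ => (hu σ).sub (hv σ)
lemma PolyV.smul {f v} (hf : PolyF f) (hv : PolyV v) : PolyV fun x => f x • v x :=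
  fun σ => hf.mul (hv σ)
lemma PolV.polyV {Ψ} (h : PolV Ψ) {L : List ((ℕ → P) → P)} (hL : ∀ g ∈ L, PolyP g) :
    PolyV fun x => Ψ (L.map fun g => g x) := fun σ => h σ L hL
lemma PolyO.one : PolyO fun _ => 1 := fun _ hv => hv
lemma PolyO.mul {A B} (hA : PolyO A) (hB : PolyO B) : PolyO fun x => A x * B x :=
  fun v hv => hA _ (hB v hv)
lemma PolyO.add {A B} (hA : PolyO A) (hB : PolyO B) : PolyO fun x => A x + B x :=
  fun v hv => (hA v hv).add (hB v hv)
lemma PolyO.smul {f A} (hf : PolyF f) (hA : PolyO A) : PolyO fun x => f x • A x :=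
  fun v hv => (hA v hv).smul hf
lemma PolyO.lift {A} (hA : PolyO A) : PolyO fun x => lift (A x) :=
  fun v hv σ => hA (fun x τ => v x (cons (σ 0) τ)) (fun _ => hv _) (tl σ)
lemma PolyO.liftN {A} (hA : PolyO A) (n : ℕ) : PolyO fun x => liftN n (A x) := by
  induction n with
  | zero => exact hA
  | succ n ih => exact ih.lift
lemma PolyO.R {g h} (hg : PolyP g) (hh : PolyP h) : PolyO fun x => R (g x) (h x) := by
  intro v hv σ
  obtain ⟨a1, a2, a3, a4, a5, a6, a7, a8⟩ := poly_w hg hh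
  have c := PolyF.const
  have u : ∀ a b, PolyF fun x => v x (cons a (cons b (tl (tl σ)))) := fun _ _ => hv _
  have e := ((c (ζ ^ 2)).mul (u .p .m)).sub ((c (ζ ^ 6)).mul (u .m .p))
  change PolyF fun x => Rf (g x) (h x) (fun a b => v x (cons a (cons b (tl (tl σ))))) (σ 0) (σ 1)
  cases σ 0 <;> cases σ 1
  · exact (a1.mul (u _ _)).add (a8.mul e)
  · exact (a2.mul (u _ _)).add (a6.mul (u _ _))
  · exact (a2.mul (u _ _)).add (a6.mul (u _ _))
  · exact (a5.mul (u _ _)).add (a2.mul (u _ _))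
  · exact a3.mul (u _ _)
  · exact (a3.mul (u _ _)).add ((c _).mul ((a7.mul (u _ _)).add (a4.mul e)))
  · exact (a5.mul (u _ _)).add (a2.mul (u _ _))
  · exact (a3.mul (u _ _)).sub ((c _).mul ((a7.mul (u _ _)).add (a4.mul e)))
  · exact a3.mul (u _ _)
lemma poly_loc {M : (ℕ → P) → S → S → ℂ} (h : ∀ a b, PolyF fun x => M x a b) :
    PolyO fun x => loc (M x) := fun _ hv _ =>
  (((h _ _).mul (hv _)).add ((h _ _).mul (hv _))).add ((h _ _).mul (hv _))
lemma PolyO.K {g} (hg : PolyP g) : PolyO fun x => K (g x) := by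
  have k : PolyF fun x => ko (g x) := hg.2.mul (((PolyF.const _).mul hg.2).sub hg.1)
  refine poly_loc fun a b => ?_
  cases a <;> cases b <;> first | exact PolyF.const _ | exact k | exact PolyF.kd hg
lemma PolyO.ins {g} (hg : PolyP g) : PolyO fun x => ins (g x) := by
  intro v hv σ
  refine PolyF.mul (f := fun x => chi (g x) (σ 0) (σ 1)) ?_ (hv _)
  cases σ 0 <;> cases σ 1 <;>
    first | exact PolyF.const _ | exact hg.2 | exact (PolyF.const _).mul hg.1
lemma PolyO.emp : PolyO fun _ => emp := fun _ hv _ => (PolyF.const _).mul (hv _)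
lemma PolyO.prj (s : S) : PolyO fun _ => prj s := fun _ hv _ => hv _
lemma PolyO.loc {M : (ℕ → P) → S → S → ℂ} (h : ∀ a b, PolyF fun x => M x a b) :
    PolyO fun x => loc (M x) := poly_loc h
lemma PolyO.up {g} (hg : PolyP g) {L : List ((ℕ → P) → P)} (hL : ∀ g ∈ L, PolyP g) :
    PolyO fun x => up (g x) (L.map fun g => g x) := by
  induction L with
  | nil => exact PolyO.one
  | cons a L ih =>
    exact (ih fun i hi => hL i (by simp [hi])).lift.mul (PolyO.R hg (hL a (by simp)))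
lemma PolyO.down {g} (hg : PolyP g) {L : List ((ℕ → P) → P)} (hL : ∀ g ∈ L, PolyP g) :
    PolyO fun x => down (g x) (L.map fun g => g x) := by
  induction L with
  | nil => exact PolyO.one
  | cons a L ih =>
    exact (PolyO.R (hL a (by simp)) hg).mul (ih fun i hi => hL i (by simp [hi])).lift
lemma poly_zero : PolyO fun _ => 0 := fun _ _ _ => PolyF.const 0
lemma poly_cloc (M : S → S → ℂ) : PolyO fun _ => loc M :=
  poly_loc (M := fun _ => M) fun _ _ => PolyF.const _
lemma poly_kap : PolyO fun _ => kap := poly_cloc _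
lemma PolyO.Q (n : ℕ) : PolyO fun _ => Q n := by
  induction n with
  | zero => exact poly_zero
  | succ n ih =>
    have a : PolyO fun _ => q1 := poly_cloc _
    have b : PolyO fun _ => kq := poly_cloc _
    simp only [Q_succ]
    exact a.add (b.mul ih.lift)
lemma PolyO.JE {L : List ((ℕ → P) → P)} (hL : ∀ g ∈ L, PolyP g) :
    PolyO fun x => JE (L.map fun g => g x) := by
  induction L with
  | nil => exact poly_zero
  | cons a L ih =>
    have ha := hL a (by simp)
    have hl : ∀ g ∈ L, PolyP g := fun i hi => hL i (by simp [hi])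
    have e : PolyO fun x => e1 (a x) := poly_loc fun s t => by
      cases s <;> cases t <;>
        first | exact PolyF.const _ | exact ha.1 | exact (PolyF.const _).mul ha.2
    exact (e.smul (PolyF.listProd (fun _ => Prod.snd) fun g hg => (hl g hg).2)).add
      ((poly_kap.mul (ih hl).lift).smul ha.2)
lemma PolyO.JF {L : List ((ℕ → P) → P)} (hL : ∀ g ∈ L, PolyP g) :
    PolyO fun x => JF (L.map fun g => g x) := by
  induction L with
  | nil => exact poly_zero
  | cons a L ih =>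
    have ha := hL a (by simp)
    have hl : ∀ g ∈ L, PolyP g := fun i hi => hL i (by simp [hi])
    have e : PolyO fun x => f1 (a x) := poly_loc fun s t => by
      cases s <;> cases t <;> first | exact PolyF.const _ | exact ha.1 | exact ha.2
    exact (e.smul (PolyF.listProd (fun _ => Prod.fst) fun g hg => (hl g hg).1)).add
      ((poly_kap.mul (ih hl).lift).smul ha.1)

lemma exists_gen (n : ℕ) : ∃ l : List P, l.length = n ∧ Gen l := by
  have e : ∀ i j : ℕ, i ≠ j → (i : ℂ) ^ 32 ≠ (j : ℂ) ^ 32 := fun i j h h' =>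
    h (Nat.pow_left_injective (by norm_num : 32 ≠ 0) (by exact_mod_cast h'))
  refine ⟨(List.range n).map fun i => (((i + 2 : ℕ) : ℂ), 1), by simp, fun a ha => ?_, ?_⟩
  · obtain ⟨i, -, rfl⟩ := List.mem_map.1 ha
    exact ⟨Nat.cast_ne_zero.2 (by omega), one_ne_zero, by simpa using e (i + 2) 1 (by omega)⟩
  · refine List.pairwise_map.2 (List.pairwise_lt_range.imp fun {i j} h => ⟨?_, ?_⟩)
    · simpa using e (i + 2) (j + 2) (by omega)
    · simpa using e ((i + 2) * (j + 2)) 1 (by nlinarith)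

lemma poly_dom {f g : (ℕ → P) → ℂ} (hf : PolyF f) (hg : PolyF g) (h : ∀ x, g x ≠ 0 → f x = 0)
    {y : ℕ → P} (hy : g y ≠ 0) (x : ℕ → P) : f x = 0 := by
  obtain ⟨p, hp⟩ := hf
  obtain ⟨q, hq⟩ := hg
  have e : p * q = 0 := MvPolynomial.funext fun z => by
    have e : z = fun i : ℕ × Bool => if i.2 then (z (i.1, true), z (i.1, false)).1
        else (z (i.1, true), z (i.1, false)).2 := by
      funext ⟨i, b⟩
      cases b <;> rfl
    rw [map_mul, map_zero, e, ← hp fun i => (z (i, true), z (i, false)),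
      ← hq fun i => (z (i, true), z (i, false))]
    by_cases h0 : g (fun i => (z (i, true), z (i, false))) = 0
    · rw [h0, mul_zero]
    · rw [h _ h0, zero_mul]
  rcases mul_eq_zero.1 e with e | e
  · rw [hp, e, map_zero]
  · rw [hq, e, map_zero] at hy
    exact absurd rfl hy

lemma poly_gen {L : List ((ℕ → P) → P)} (hL : ∀ g ∈ L, PolyP g) :
    ∃ G, PolyF G ∧ ∀ x, G x ≠ 0 ↔ Gen (L.map fun g => g x) := by
  induction L with
  | nil => exact ⟨fun _ => 1, PolyF.const 1, fun x => by simp [Gen]⟩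
  | cons a L ih =>
    have ha := hL a (by simp)
    have hl : ∀ g ∈ L, PolyP g := fun i hi => hL i (by simp [hi])
    obtain ⟨G, hG, e⟩ := ih hl
    refine ⟨_, (((ha.1.mul ha.2).mul ((ha.1.pow 32).sub (ha.2.pow 32))).mul (PolyF.listProd
      (fun x b => (((a x).1 * b.2) ^ 32 - ((a x).2 * b.1) ^ 32) *
        (((a x).1 * b.1) ^ 32 - ((a x).2 * b.2) ^ 32)) fun g hg =>
      (((ha.1.mul (hl g hg).2).pow 32).sub ((ha.2.mul (hl g hg).1).pow 32)).mul
      (((ha.1.mul (hl g hg).1).pow 32).sub ((ha.2.mul (hl g hg).2).pow 32)))).mul hG, fun x => ?_⟩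
    rw [mul_ne_zero_iff, e, mul_ne_zero_iff, mul_ne_zero_iff, mul_ne_zero_iff, sub_ne_zero,
      List.map_cons]
    generalize L.map (fun g => g x) = l
    have : (l.map fun b : P => (((a x).1 * b.2) ^ 32 - ((a x).2 * b.1) ^ 32) *
        (((a x).1 * b.1) ^ 32 - ((a x).2 * b.2) ^ 32)).prod ≠ 0 ↔ ∀ b ∈ l, G2 (a x) b := by
      simp only [Ne, List.prod_eq_zero_iff, List.mem_map, not_exists, not_and, mul_eq_zero,
        not_or, sub_eq_zero, G2]
    rw [this]
    unfold Gen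
    rw [List.forall_mem_cons, List.pairwise_cons]
    exact ⟨fun h => ⟨⟨⟨h.1.1.1.1, h.1.1.1.2, h.1.1.2⟩, h.2.1⟩, h.1.2, h.2.2⟩,
      fun h => ⟨⟨⟨⟨h.1.1.1, h.1.1.2.1⟩, h.1.1.2.2⟩, h.2.1⟩, h.1.2, h.2.2⟩⟩

lemma poly_range (n : ℕ) (x : ℕ → P) : (List.range n).map x =
    ((List.range n).map fun i (y : ℕ → P) => y i).map fun g => g x := by
  rw [List.map_map]
  rfl

lemma poly_getD (l : List P) : (List.range l.length).map (fun i => l.getD i 0) = l :=
  List.ext_getElem (by simp) fun i h1 h2 => by simp [h2]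

/-- density of generic points: `f` is a polynomial in the variables `x 0, ..., x (n-1)` -/
theorem dens {f : (ℕ → P) → ℂ} (hf : PolyF f) (n : ℕ)
    (h : ∀ x, Gen ((List.range n).map x) → f x = 0) (x : ℕ → P) : f x = 0 := by
  obtain ⟨G, hG, e⟩ := poly_gen (L := (List.range n).map fun i (y : ℕ → P) => y i) fun g hg => by
    obtain ⟨i, -, rfl⟩ := List.mem_map.1 hg
    exact PolyP.var i
  obtain ⟨l, rfl, hl⟩ := exists_gen n
  refine poly_dom hf hG (fun y hy => h y ?_) (y := fun i => l.getD i 0) ?_ x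
  · rw [poly_range]
    exact (e y).1 hy
  · rw [e, ← poly_range, poly_getD]
    exact hl
theorem densV {v : (ℕ → P) → Vec} (hv : PolyV v) (n : ℕ)
    (h : ∀ x, Gen ((List.range n).map x) → v x = 0) (x : ℕ → P) : v x = 0 :=
  funext fun σ => dens (hv σ) n (fun y hy => congrFun (h y hy) σ) x
/-- restriction to a polynomial curve -/
theorem PolyF.curve {f} (hf : PolyF f) (γ : ℕ → ℂ[X] × ℂ[X]) :
    ∃ q : ℂ[X], ∀ t, f (fun i => ((γ i).1.eval t, (γ i).2.eval t)) = q.eval t := by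
  refine poly_ind
    (T := fun f => ∃ q : ℂ[X], ∀ t, f (fun i => ((γ i).1.eval t, (γ i).2.eval t)) = q.eval t)
    (fun c => ⟨C c, fun t => by simp⟩) (fun i => ⟨_, fun _ => rfl⟩) (fun i => ⟨_, fun _ => rfl⟩)
    ?_ ?_ hf
  · rintro f g ⟨p, hp⟩ ⟨q, hq⟩
    exact ⟨p + q, fun t => by rw [eval_add, ← hp, ← hq]⟩
  · rintro f g - - ⟨p, hp⟩ ⟨q, hq⟩
    exact ⟨p * q, fun t => by rw [eval_mul, ← hp, ← hq]⟩
/-- dehomogenisation -/
theorem hom_poly {f : P → ℂ} (hp : PolyF fun x => f (x 0)) (d : ℕ)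
    (hh : ∀ (c : ℂ) a, f (c • a) = c ^ d * f a) :
    ∃ q : ℂ[X], q.natDegree ≤ d ∧ ∀ t, f (t, 1) = q.eval t := by
  obtain ⟨q, hq⟩ := hp.curve fun _ => (X, 1)
  obtain ⟨r, hr⟩ := hp.curve fun _ => (1, X)
  simp only [eval_X, eval_one] at hq hr
  refine ⟨q, ?_, hq⟩
  rcases eq_or_ne q 0 with rfl | h0
  · simp
  have e : X ^ r.natDegree * q = X ^ d * r.reverse := by
    refine eq_of_infinite_eval_eq _ _ ((Set.finite_singleton (0 : ℂ)).infinite_compl.mono
      fun t (ht : t ≠ 0) => ?_)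
    have := invertibleOfNonzero (inv_ne_zero ht)
    have e1 := eval₂_reverse_mul_pow (RingHom.id ℂ) t⁻¹ r
    rw [invOf_eq_inv, inv_inv] at e1
    have e2 := hh t (1, t⁻¹)
    rw [Prod.smul_mk, smul_eq_mul, smul_eq_mul, mul_one, mul_inv_cancel₀ ht, hq, hr] at e2
    change eval t _ * _ = eval _ _ at e1
    simp only [Set.mem_ofPred_eq, eval_mul, eval_pow, eval_X]
    rw [e2, ← e1, inv_pow]
    field_simp
  have e1 := congrArg natDegree e
  have e2 := natDegree_mul_le (p := X ^ d) (q := r.reverse)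
  have e3 := reverse_natDegree_le r
  rw [natDegree_X_pow_mul _ h0] at e1
  rw [natDegree_X_pow] at e2
  omega
/-- a homogeneous polynomial of degree `d` in one parameter with more than `d` nodes vanishes -/
theorem nodecount {f : P → ℂ} (hp : PolyF fun x => f (x 0)) (d : ℕ)
    (hh : ∀ (c : ℂ) a, f (c • a) = c ^ d * f a) (N : List P) (hd : d < N.length)
    (hN : N.Pairwise fun a b => a.1 * b.2 ≠ a.2 * b.1) (h0 : ∀ a ∈ N, f a = 0) (a : P) :
    f a = 0 := by
  classical
  by_cases hz : (0 : P) ∈ N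
  · match N, hd, hN, hz with
    | [n], hd, _, hz =>
      have := hh 0 a
      obtain rfl : d = 0 := by simpa using hd
      rw [zero_smul, h0 0 hz] at this
      simpa using this.symm
    | n :: m :: N, _, hN, hz =>
      rw [List.pairwise_cons] at hN
      rcases List.mem_cons.1 hz with rfl | hz
      · simpa using hN.1 m (by simp)
      · simpa using hN.1 0 hz
  suffices H : ∀ a : P, a ≠ 0 → f a = 0 by
    rcases eq_or_ne a 0 with rfl | ha
    · have := hh 0 (1, 0)
      rwa [zero_smul, H (1, 0) (by simp), mul_zero] at this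
    · exact H a ha
  clear a
  intro a ha
  obtain ⟨s, hs⟩ := Infinite.exists_notMem_finset ((a :: N).map fun n : P => n.2 / n.1).toFinset
  have w : ∀ n ∈ a :: N, n.2 - s * n.1 ≠ 0 := fun n hn h => by
    have hn0 : n ≠ 0 := by
      rintro rfl
      rcases List.mem_cons.1 hn with h | h
      exacts [ha h.symm, hz h]
    have h1 : n.1 ≠ 0 := fun h1 => hn0 (Prod.ext h1 (by simpa [h1] using h))
    exact hs (List.mem_toFinset.2 (List.mem_map.2 ⟨n, hn, by
      rw [div_eq_iff h1]; exact sub_eq_zero.1 h⟩))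
  obtain ⟨q, hq, e⟩ := hom_poly (f := fun u => f (u.1, u.2 + s * u.1))
    (poly_comp hp (g := fun _ x => ((x 0).1, (x 0).2 + s * (x 0).1)) fun _ => ⟨(PolyP.var 0).1,
      (PolyP.var 0).2.add ((PolyF.const s).mul (PolyP.var 0).1)⟩) d fun c u => by
    rw [← hh]
    congr 1
    ext <;> simp
    ring
  have k : ∀ n ∈ a :: N, f n = (n.2 - s * n.1) ^ d * q.eval (n.1 / (n.2 - s * n.1)) :=
    fun n hn => by
      have := w n hn
      rw [← e, ← hh]
      congr 1
      have h1 := mul_div_cancel₀ n.1 this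
      ext <;> simp only [Prod.smul_fst, Prod.smul_snd, smul_eq_mul]
      · exact h1.symm
      · linear_combination -s * h1
  have nd : (N.map fun n : P => n.1 / (n.2 - s * n.1)).Nodup :=
    List.pairwise_map.2 (hN.imp_of_mem fun {n m} hn hm h h' => h (by
      rw [div_eq_div_iff (w n (by simp [hn])) (w m (by simp [hm]))] at h'
      linear_combination h'))
  have q0 : q = 0 := eq_zero_of_natDegree_lt_card_of_eval_eq_zero' q
    (N.map fun n : P => n.1 / (n.2 - s * n.1)).toFinset (fun t ht => by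
      obtain ⟨n, hn, rfl⟩ := List.mem_map.1 (List.mem_toFinset.1 ht)
      have := k n (by simp [hn])
      rw [h0 n hn] at this
      exact (mul_eq_zero.1 this.symm).resolve_left (pow_ne_zero _ (w n (by simp [hn]))))
    (by rw [List.toFinset_card_of_nodup nd, List.length_map]; omega)
  rw [k a (by simp), q0, eval_zero, mul_zero]
theorem nodecountV {f : P → Vec} (hp : PolyV fun x => f (x 0)) (d : ℕ)
    (hh : ∀ (c : ℂ) a, f (c • a) = c ^ d • f a) (N : List P) (hd : d < N.length)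
    (hN : N.Pairwise fun a b => a.1 * b.2 ≠ a.2 * b.1) (h0 : ∀ a ∈ N, f a = 0) (a : P) :
    f a = 0 :=
  funext fun σ => nodecount (f := fun a => f a σ) (hp σ) d (fun c a => congrFun (hh c a) σ) N hd
    hN (fun a ha => congrFun (h0 a ha) σ) a
/-- leading order of a family of polynomials -/
theorem tk {ι} (F : ι → ℂ[X]) (h : ∃ i, F i ≠ 0) :
    ∃ (k : ℕ) (G : ι → ℂ[X]), (∀ i, F i = X ^ k * G i) ∧ ∃ i, (G i).eval 0 ≠ 0 := by
  classical
  have ex : ∃ k, ∃ i, (F i).coeff k ≠ 0 := by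
    obtain ⟨i, hi⟩ := h
    exact ⟨_, i, leadingCoeff_ne_zero.2 hi⟩
  have dv : ∀ i, X ^ Nat.find ex ∣ F i := fun i => X_pow_dvd_iff.2 fun d hd => by
    by_contra hc
    exact Nat.find_min ex hd ⟨i, hc⟩
  choose G hG using dv
  obtain ⟨i, hi⟩ := Nat.find_spec ex
  refine ⟨_, G, hG, i, fun h0 => hi ?_⟩
  rw [hG i, coeff_X_pow_mul', if_pos le_rfl, Nat.sub_self, coeff_zero_eq_eval_zero, h0]

/-! genericity -/
lemma poly_z16 (j : ℕ) : (ζ ^ j) ^ 16 = 1 := by rw [← pow_mul, mul_comm, pow_mul, h16, one_pow]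
lemma poly_z32 (j : ℕ) : (ζ ^ j) ^ 32 = 1 := by
  rw [show 32 = 16 * 2 from rfl, pow_mul, poly_z16, one_pow]
lemma poly_ne32 {i j : ℕ} {x y : ℂ} (h : x ^ 32 ≠ y ^ 32) : ζ ^ i * x ≠ ζ ^ j * y := fun e => h <| by
  have := congrArg (· ^ 32) e
  simpa only [mul_pow, poly_z32, one_mul] using this
lemma poly_ne16 {i j : ℕ} {x y : ℂ} (h : x ^ 32 ≠ y ^ 32) :
    ζ ^ i * (x * x) ≠ ζ ^ j * (y * y) := fun e => h <| by
  have := congrArg (· ^ 16) e
  simpa only [mul_pow, poly_z16, one_mul, ← pow_add] using this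
lemma G2.symm {a b} (h : G2 a b) : G2 b a :=
  ⟨by rw [mul_comm b.1, mul_comm b.2]; exact h.1.symm,
    by rw [mul_comm b.1, mul_comm b.2]; exact h.2⟩
lemma G1_bar {a} : G1 (bar a) ↔ G1 a :=
  ⟨fun h => ⟨h.2.1, h.1, h.2.2.symm⟩, fun h => ⟨h.2.1, h.1, h.2.2.symm⟩⟩
lemma poly_G1 {a : P} (i j : ℕ) : G1 (ζ ^ i * a.1, ζ ^ j * a.2) ↔ G1 a := by
  simp only [G1, mul_pow, poly_z32, one_mul, pow_ne_zero _ zeta_ne, ne_eq, mul_eq_zero, false_or]
lemma poly_G2 {a b : P} (i j : ℕ) : G2 (ζ ^ i * a.1, ζ ^ j * a.2) b ↔ G2 a b := by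
  simp only [G2, mul_pow, poly_z32, one_mul]
lemma G1_sh {a} : G1 (sh a) ↔ G1 a := poly_G1 13 3
lemma G1_smul {a : P} {c : ℂ} (hc : c ≠ 0) : G1 (c • a) ↔ G1 a := by
  simp only [G1, Prod.smul_fst, Prod.smul_snd, smul_eq_mul, mul_pow, ne_eq, mul_eq_zero, hc,
    false_or, mul_right_inj' (pow_ne_zero 32 hc)]
lemma G2_bar {a b} : G2 (bar a) b ↔ G2 a b :=
  ⟨fun h => ⟨h.2.symm, h.1.symm⟩, fun h => ⟨h.2.symm, h.1.symm⟩⟩
lemma G2_sh {a b} : G2 (sh a) b ↔ G2 a b := poly_G2 13 3
lemma G2_smul {a b : P} {c : ℂ} (hc : c ≠ 0) : G2 (c • a) b ↔ G2 a b := by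
  simp only [G2, Prod.smul_fst, Prod.smul_snd, smul_eq_mul, mul_assoc, mul_pow c, ne_eq,
    mul_right_inj' (pow_ne_zero 32 hc)]
lemma G1.aux {a} (h : G1 a) : G2 a aux := by
  have := h.2.2
  constructor <;> simpa only [QK.aux, mul_pow, poly_z32, one_pow, mul_one] using this
lemma Gen.perm {l l' : List P} (h : Gen l) (hp : l.Perm l') : Gen l' :=
  ⟨fun a ha => h.1 a (hp.mem_iff.2 ha), (hp.pairwise_iff G2.symm).1 h.2⟩
lemma Gen.sublist {l l' : List P} (h : Gen l) (hp : l'.Sublist l) : Gen l' :=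
  ⟨fun a ha => h.1 a (hp.subset ha), h.2.sublist hp⟩
lemma G2.dd {a b} (h : G2 a b) : dd a b ≠ 0 :=
  mul_ne_zero (sub_ne_zero.2 (by simpa using poly_ne32 (j := 0) h.1))
    (sub_ne_zero.2 (by simpa only [pow_zero, one_mul] using poly_ne32 (i := 6) (j := 0) h.1))
lemma G2.det {a b} (h : G2 a b) : a.1 * b.2 ≠ a.2 * b.1 := fun e => h.1 (by rw [e])
lemma G1.kd {a} (h : G1 a) : kd a ≠ 0 := mul_ne_zero h.1
  (sub_ne_zero.2 (by simpa only [pow_zero, one_mul] using poly_ne32 (i := 3) (j := 0) h.2.2))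
lemma G1.lin {a} (h : G1 a) : lin a ≠ 0 := by
  refine mul_ne_zero (sub_ne_zero.2 (zeta_pow_ne (by norm_num) (by norm_num) (by norm_num)))
    fun e => poly_ne32 (i := 0) (j := 9) h.2.2 ?_
  linear_combination e - ζ * a.2 * h8
/-- `dd a (bar a)` and its shifted versions -/
lemma G1.dd_bar {a} (h : G1 a) : dd a (bar a) ≠ 0 ∧ dd (sh a) (bar a) ≠ 0 := by
  refine ⟨mul_ne_zero (fun e => poly_ne16 (i := 4) (j := 0) h.2.2 ?_)
    (fun e => poly_ne16 (i := 6) (j := 0) h.2.2 ?_), mul_ne_zero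
    (fun e => poly_ne16 (i := 17) (j := 3) h.2.2 ?_)
    (fun e => poly_ne16 (i := 19) (j := 3) h.2.2 ?_)⟩ <;> simp only [bar, sh] at e <;>
    linear_combination e
lemma poly_dd_self {a : P} (h1 : a.1 ≠ 0) (h2 : a.2 ≠ 0) : dd a a ≠ 0 := by
  have e : dd a a = (ζ ^ 4 - ζ ^ 0) * (ζ ^ 6 - ζ ^ 0) * (a.1 * a.2) ^ 2 := by
    unfold dd
    ring
  rw [e]
  exact mul_ne_zero (mul_ne_zero
    (sub_ne_zero.2 (zeta_pow_ne (by norm_num) (by norm_num) (by norm_num)))
    (sub_ne_zero.2 (zeta_pow_ne (by norm_num) (by norm_num) (by norm_num))))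
    (pow_ne_zero _ (mul_ne_zero h1 h2))
lemma G1.dd_self {a} (h : G1 a) : dd a a ≠ 0 := poly_dd_self h.1 h.2.1
lemma dd_aux_aux : dd aux aux ≠ 0 := poly_dd_self one_ne_zero (pow_ne_zero _ zeta_ne)
lemma poly_c18 : (c18 : ℂ) * ζ = ζ ^ 2 + 1 := by
  have e : Complex.exp (-(Real.pi / 8) * Complex.I) * ζ = 1 := by
    unfold ζ
    rw [← Complex.exp_add]
    simp
  have c : (c18 : ℂ) = ζ + Complex.exp (-(Real.pi / 8) * Complex.I) := by
    unfold c18 ζ
    rw [← Complex.two_cos]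
    push_cast
    rfl
  rw [c]
  linear_combination e
lemma dd_hn_aux : dd hn aux = 2 * c18 * ζ := by
  simp only [dd, hn, aux]
  linear_combination -2 * poly_c18 + (ζ ^ 8 - ζ ^ 2 - 2) * h8

/-! nodes generated by a generic list -/
def NP (a b : P) : Prop := a.1 * b.2 ≠ a.2 * b.1
noncomputable def tw (j : ℕ) (b : Bool) (a : P) : P :=
  if b then (ζ ^ j * a.2, a.1) else (ζ ^ j * a.1, a.2)
lemma sh_eq_tw (m : P) : sh m = ζ ^ 3 • tw 10 false m := by
  ext <;> simp [sh, tw]
  ring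
lemma sh_bar_eq_tw (m : P) : sh (bar m) = ζ ^ 3 • tw 10 true m := sh_eq_tw (bar m)
lemma bar_sh_eq_tw (m : P) : bar (sh m) = ζ ^ 13 • tw 6 true m := by
  ext <;> simp only [sh, tw, bar, if_true, Prod.smul_fst, Prod.smul_snd, smul_eq_mul]
  linear_combination -ζ ^ 3 * m.2 * h16
lemma bar_sh_bar_eq_tw (m : P) : bar (sh (bar m)) = ζ ^ 13 • tw 6 false m := bar_sh_eq_tw (bar m)
lemma PolyP.tw {g} (h : PolyP g) (j : ℕ) (b : Bool) : PolyP fun x => tw j b (g x) := by
  cases b
  · exact ⟨(PolyF.const _).mul h.1, h.2⟩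
  · exact ⟨(PolyF.const _).mul h.2, h.1⟩
lemma poly_tw (j : ℕ) (m : P) : tw j false m = (ζ ^ j * m.1, ζ ^ 0 * m.2) ∧
    tw j true m = (ζ ^ j * (bar m).1, ζ ^ 0 * (bar m).2) := by simp [tw, bar]
lemma poly_G1_tw {j b m} (h : G1 m) : G1 (tw j b m) := by
  cases b
  · rwa [(poly_tw j m).1, poly_G1]
  · rwa [(poly_tw j m).2, poly_G1, G1_bar]
lemma poly_G2_tw {j b m n} (h : G2 m n) : G2 (tw j b m) n := by
  cases b
  · rwa [(poly_tw j m).1, poly_G2]
  · rwa [(poly_tw j m).2, poly_G2, G2_bar]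
lemma poly_np_special {e t : P} (h0 : e ≠ 0) (h : e.1 * e.2 = 0 ∨ e.1 ^ 32 = e.2 ^ 32)
    (ht : G1 t) : NP e t := fun k => by
  have h1 : e.1 ≠ 0 := fun h1 => by
    rw [h1, zero_mul, eq_comm, mul_eq_zero] at k
    exact h0 (Prod.ext h1 (k.resolve_right ht.1))
  have h2 : e.2 ≠ 0 := fun h2 => by
    rw [h2, zero_mul, mul_eq_zero] at k
    exact h1 (k.resolve_right ht.2.1)
  have := congrArg (· ^ 32) k
  simp only [mul_pow, h.resolve_left (mul_ne_zero h1 h2),
    mul_right_inj' (pow_ne_zero 32 h2)] at this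
  exact ht.2.2 this.symm
lemma poly_np_tw {m : P} (h : G1 m) {i j : ℕ × Bool} (hi : i.1 < 16) (hj : j.1 < 16)
    (hne : i ≠ j) : NP (tw i.1 i.2 m) (tw j.1 j.2 m) := by
  obtain ⟨i, b⟩ := i
  obtain ⟨j, c⟩ := j
  have k : i ≠ j → ζ ^ i * (m.1 * m.2) ≠ ζ ^ j * (m.1 * m.2) := fun hij e =>
    zeta_pow_ne hi hj hij (mul_right_cancel₀ (mul_ne_zero h.1 h.2.1) e)
  cases b <;> cases c <;> intro e <;>
    simp only [tw, if_true, Bool.false_eq_true, if_false] at e
  · exact k (by simpa using hne) (by linear_combination e)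
  · exact poly_ne16 (i := i) (j := j) h.2.2 (by linear_combination e)
  · exact poly_ne16 (i := j) (j := i) h.2.2 (by linear_combination -e)
  · exact k (by simpa using hne) (by linear_combination e)
theorem nodecountL {f : P → ℂ} (hp : PolyF fun x => f (x 0)) (d : ℕ)
    (hh : ∀ (c : ℂ) a, f (c • a) = c ^ d * f a) {l : List P} (hl : Gen l)
    (J : List (ℕ × Bool)) (hJ : J.Nodup) (hJ' : ∀ j ∈ J, j.1 < 16)
    (E : List P) (hE : E.Pairwise NP) (hE0 : ∀ e ∈ E, e ≠ 0)
    (hE' : ∀ e ∈ E, e.1 * e.2 = 0 ∨ e.1 ^ 32 = e.2 ^ 32)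
    (hd : d < E.length + l.length * J.length) (h1 : ∀ e ∈ E, f e = 0)
    (h2 : ∀ j ∈ J, ∀ m ∈ l, f (tw j.1 j.2 m) = 0) (a : P) : f a = 0 := by
  have mem : ∀ t ∈ l.flatMap fun m => J.map fun j => tw j.1 j.2 m,
      ∃ m ∈ l, ∃ j ∈ J, tw j.1 j.2 m = t := fun t ht => by simpa only [List.mem_flatMap,
        List.mem_map] using ht
  refine nodecount hp d hh (E ++ l.flatMap fun m => J.map fun j => tw j.1 j.2 m) ?_
    (List.pairwise_append.2 ⟨hE, List.pairwise_flatMap.2 ⟨fun m hm => ?_, ?_⟩, fun e he t ht => ?_⟩)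
    (fun t ht => ?_) a
  · simpa [List.length_flatMap] using hd
  · exact List.pairwise_map.2 (hJ.imp_of_mem fun hi hj h =>
      poly_np_tw (hl.1 m hm) (hJ' _ hi) (hJ' _ hj) h)
  · refine hl.2.imp fun h s hs t ht => ?_
    obtain ⟨i, -, rfl⟩ := List.mem_map.1 hs
    obtain ⟨j, -, rfl⟩ := List.mem_map.1 ht
    exact (poly_G2_tw (poly_G2_tw h.symm).symm).det
  · obtain ⟨m, hm, j, -, rfl⟩ := mem t ht
    exact poly_np_special (hE0 e he) (hE' e he) (poly_G1_tw (hl.1 m hm))
  · rcases List.mem_append.1 ht with ht | ht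
    · exact h1 t ht
    · obtain ⟨m, hm, j, hj, rfl⟩ := mem t ht
      exact h2 j hj m hm
lemma poly_unsmul {f : P → Vec} {d : ℕ} (hh : ∀ (c : ℂ) a, f (c • a) = c ^ d • f a) {j : ℕ}
    {a b : P} (e : b = ζ ^ j • a) (h : f b = 0) : f a = 0 := by
  rw [e, hh] at h
  exact (smul_eq_zero.1 h).resolve_left (pow_ne_zero _ (pow_ne_zero _ zeta_ne))
/-- two families of nodes `sh m`, `sh (bar m)` -/
theorem nodecount2 {f : P → Vec} (hp : PolyV fun x => f (x 0)) (d : ℕ)
    (hh : ∀ (c : ℂ) a, f (c • a) = c ^ d • f a) {l : List P} (hl : Gen l)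
    (E : List P) (hE : E.Pairwise NP) (hE0 : ∀ e ∈ E, e ≠ 0)
    (hE' : ∀ e ∈ E, e.1 * e.2 = 0 ∨ e.1 ^ 32 = e.2 ^ 32)
    (hd : d < E.length + 2 * l.length) (h1 : ∀ e ∈ E, f e = 0)
    (h2 : ∀ m ∈ l, f (sh m) = 0 ∧ f (sh (bar m)) = 0) (a : P) : f a = 0 := by
  funext σ
  refine nodecountL (f := fun a => f a σ) (hp σ) d (fun c a => congrFun (hh c a) σ) hl
    [(10, false), (10, true)] (by decide) (by decide) E hE hE0 hE' (by simpa [mul_comm] using hd)
    (fun e he => congrFun (h1 e he) σ)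
    (fun j hj m hm => congrFun (?_ : f (tw j.1 j.2 m) = 0) σ) a
  simp only [List.mem_cons, List.not_mem_nil, or_false] at hj
  rcases hj with rfl | rfl
  exacts [poly_unsmul hh (sh_eq_tw m) (h2 m hm).1, poly_unsmul hh (sh_bar_eq_tw m) (h2 m hm).2]
/-- four families of nodes -/
theorem nodecount4 {f : P → Vec} (hp : PolyV fun x => f (x 0)) (d : ℕ)
    (hh : ∀ (c : ℂ) a, f (c • a) = c ^ d • f a) {l : List P} (hl : Gen l)
    (E : List P) (hE : E.Pairwise NP) (hE0 : ∀ e ∈ E, e ≠ 0)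
    (hE' : ∀ e ∈ E, e.1 * e.2 = 0 ∨ e.1 ^ 32 = e.2 ^ 32)
    (hd : d < E.length + 4 * l.length) (h1 : ∀ e ∈ E, f e = 0)
    (h2 : ∀ m ∈ l, f (sh m) = 0 ∧ f (sh (bar m)) = 0 ∧ f (bar (sh m)) = 0 ∧
      f (bar (sh (bar m))) = 0) (a : P) : f a = 0 := by
  funext σ
  refine nodecountL (f := fun a => f a σ) (hp σ) d (fun c a => congrFun (hh c a) σ) hl
    [(10, false), (10, true), (6, true), (6, false)] (by decide) (by decide) E hE hE0 hE'
    (by simpa [mul_comm] using hd)
    (fun e he => congrFun (h1 e he) σ)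
    (fun j hj m hm => congrFun (?_ : f (tw j.1 j.2 m) = 0) σ) a
  simp only [List.mem_cons, List.not_mem_nil, or_false] at hj
  rcases hj with rfl | rfl | rfl | rfl
  exacts [poly_unsmul hh (sh_eq_tw m) (h2 m hm).1, poly_unsmul hh (sh_bar_eq_tw m) (h2 m hm).2.1,
    poly_unsmul hh (bar_sh_eq_tw m) (h2 m hm).2.2.1,
    poly_unsmul hh (bar_sh_bar_eq_tw m) (h2 m hm).2.2.2]
/-- the special nodes: every sublist may be used as the list `E` above -/
lemma special_np : [bar aux, aux, ((0, 1) : P), (1, 0)].Pairwise NP := by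
  have h : ζ ^ 3 * ζ ^ 3 ≠ 1 := by
    simpa only [← pow_add, pow_zero] using
      zeta_pow_ne (i := 6) (j := 0) (by norm_num) (by norm_num) (by norm_num)
  have := (pow_ne_zero 3 zeta_ne).symm
  simp [NP, bar, aux, h, zeta_ne, this]
lemma special_ok : ∀ e ∈ [bar aux, aux, ((0, 1) : P), (1, 0)],
    e ≠ 0 ∧ (e.1 * e.2 = 0 ∨ e.1 ^ 32 = e.2 ^ 32) := by
  simp [bar, aux, poly_z32]
/-- list form of the density statement -/
theorem densL {F : List P → Vec} (n : ℕ)
    (hF : PolyV fun x => F ((List.range n).map x))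
    (h : ∀ l, l.length = n → Gen l → F l = 0) (l : List P) (hl : l.length = n) : F l = 0 := by
  subst hl
  have := densV hF l.length (fun x hx => h _ (by simp) hx) fun i => l.getD i 0
  rwa [poly_getD] at this
/-- a new first variable -/
def poly_cs (a : P) (x : ℕ → P) : ℕ → P
  | 0 => a
  | n + 1 => x n
lemma poly_d1 {f} (hf : PolyF f) : ∃ g, PolyF g ∧
    ∀ x, HasDerivAt (fun t : ℂ => f (poly_cs (t, 1) x)) (g x) 0 := by
  have z : ∀ f, PolyF f → PolyF fun x => f (poly_cs (0, 1) x) := fun f hf =>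
    poly_comp hf (g := fun i x => poly_cs (0, 1) x i) fun i => by
      cases i
      exacts [PolyP.const _, PolyP.var _]
  refine poly_ind (T := fun f => ∃ g, PolyF g ∧
    ∀ x, HasDerivAt (fun t : ℂ => f (poly_cs (t, 1) x)) (g x) 0)
    (fun c => ⟨_, PolyF.const 0, fun _ => hasDerivAt_const _ _⟩) (fun i => ?_) (fun i => ?_)
    ?_ ?_ hf
  · cases i
    · exact ⟨_, PolyF.const 1, fun _ => hasDerivAt_id _⟩
    · exact ⟨_, PolyF.const 0, fun x => hasDerivAt_const _ (x _).1⟩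
  · cases i
    · exact ⟨_, PolyF.const 0, fun _ => hasDerivAt_const _ (1 : ℂ)⟩
    · exact ⟨_, PolyF.const 0, fun x => hasDerivAt_const _ (x _).2⟩
  · rintro f g ⟨p, hp, a⟩ ⟨q, hq, b⟩
    exact ⟨_, hp.add hq, fun x => (a x).add (b x)⟩
  · rintro f g hf hg ⟨p, hp, a⟩ ⟨q, hq, b⟩
    exact ⟨_, (hp.mul (z g hg)).add ((z f hf).mul hq), fun x => (a x).mul (b x)⟩
/-- the linear coefficient in the first parameter -/
theorem Pol.d1 {F : List P → ℂ} (h : Pol F) :
    Pol fun l => deriv (fun t : ℂ => F ((t, 1) :: l)) 0 := by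
  intro L hL
  obtain ⟨g, hg, e⟩ := poly_d1 (h ((fun y => y 0) :: L.map fun g y => g fun i => y (i + 1))
    fun g hg => by
      rcases List.mem_cons.1 hg with rfl | hg
      · exact PolyP.var 0
      · obtain ⟨u, hu, rfl⟩ := List.mem_map.1 hg
        exact ⟨poly_comp (hL u hu).1 fun i => PolyP.var (i + 1),
          poly_comp (hL u hu).2 fun i => PolyP.var (i + 1)⟩)
  convert hg using 2 with x
  have := (e x).deriv
  simp only [List.map_cons, List.map_map] at this
  exact this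

end Pool.Agent.Lib.MP_4960b8_pr.QK
end

-- part Pool.Agent.Lib.MP_4960b8_pr.QK.AlgA
section

/-! Invariance under the column operator, uniqueness, the empty component. -/

namespace Pool.Agent.Lib.MP_4960b8_pr.QK

/-- column with a given spin at the bottom -/
noncomputable def colB (s : S) (l : List P) : Op := prj s * down aux l

theorem colB_ex (s : S) (a b : P) (l₁ l₂ : List P) :
    liftN l₁.length (R a b) * colB s (l₁ ++ a :: b :: l₂) =
      colB s (l₁ ++ b :: a :: l₂) * liftN l₁.length (R a b) := by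
  unfold colB
  rw [← mul_assoc, ← prj_lift, mul_assoc, mul_assoc]
  exact congrArg _ (down_ex aux a b l₁ l₂)

lemma alga_down_one (k a : P) : down k [a] = R a k := by
  simp only [down, lift_one, mul_one]

theorem colB_K (s : S) (a : P) (l : List P) {v : Vec} (hv : Supp (l.length + 1) v) :
    liftN l.length (K a) (colB s (l ++ [a]) v) =
      colB s (l ++ [bar a]) (liftN l.length (K a) v) := by
  have key : liftN l.length (K a) * colB s (l ++ [a]) * liftN (l.length + 1) E0 =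
      colB s (l ++ [bar a]) * liftN l.length (K a) * liftN (l.length + 1) E0 := by
    have h1 := congrArg (liftN l.length) (topK a)
    simp only [liftN_mul, liftN_lift] at h1
    unfold colB
    rw [down_append, down_append, alga_down_one, alga_down_one, ← mul_assoc, ← prj_lift]
    calc _ = prj s * (liftN (l.length + 1) (K a) * down aux l) *
          (liftN l.length (R a aux) * liftN (l.length + 1) E0) := by
          simp only [mul_assoc]; rfl
      _ = prj s * down aux l * (liftN (l.length + 1) (K a) * liftN l.length (R a aux) *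
          liftN (l.length + 1) E0) := by
          rw [← down_liftN]; simp only [mul_assoc]
      _ = _ := by rw [h1]; simp only [mul_assoc]
  have h2 := LinearMap.congr_fun key v
  simp only [Module.End.mul_apply, hv.liftN_E0 le_rfl] at h2
  exact h2
lemma Supp.colB {l : List P} {v : Vec} (h : Supp (l.length + 1) v) (s : S) :
    Supp l.length (colB s l v) :=
  (h.down (i := 0) aux l (by omega)).prj s
lemma HasCh.colB {l : List P} {c : ℤ} {v : Vec} (h : HasCh (l.length + 1) c v) (s : S) :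
    HasCh l.length (c - s.val) (colB s l v) :=
  (h.down (i := 0) aux l (by omega)).prj s
lemma Q_succ_supp {n : ℕ} {v : Vec} (h : Supp n v) : Q (n + 1) v = Q n v := by
  induction n generalizing v with
  | zero =>
    funext σ
    obtain ⟨x, t, rfl⟩ := basic_ex1 σ
    have e : v (cons .m t) = 0 := h _ 0 le_rfl (by simp [cons])
    show q1 v (cons x t) + kq (lift 0 v) (cons x t) = 0
    unfold q1 kq
    rw [basic_loc_apply, e, basic_dg_apply]
    show _ + _ * 0 = 0
    cases x <;> simp only [zero_mul, mul_zero, add_zero]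
  | succ n ih =>
    have e : lift (Q (n + 1)) v = lift (Q n) v := by
      funext σ
      obtain ⟨x, t, rfl⟩ := basic_ex1 σ
      rw [lift_apply, lift_apply, ih (basic_supp_cons h x)]
    show q1 v + kq (lift (Q (n + 1)) v) = q1 v + kq (lift (Q n) v)
    rw [e]

lemma alga_prj_Q (n : ℕ) (v : Vec) : prj .o (Q (n + 1) v) = Q n (prj .o v) := by
  funext t
  show q1 v (cons .o t) + kq (lift (Q n) v) (cons .o t) = _
  unfold q1 kq
  rw [basic_loc_apply, basic_dg_apply]
  simp only [zero_mul, add_zero, zero_add, basic_ev, one_mul]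
  rfl

lemma Q_col (l : List P) {v : Vec} (h : Supp l.length v) :
    Q l.length (col l v) = col l (Q l.length v) := by
  have h1 := LinearMap.congr_fun (Q_down aux l (n := l.length + 1) le_rfl) v
  simp only [Module.End.mul_apply] at h1
  show Q l.length (prj .o (down aux l v)) = prj .o (down aux l (Q l.length v))
  rw [← alga_prj_Q, h1, Q_succ_supp h]

/-! polynomial families of lists -/

def alga_PL (M : (ℕ → P) → List P) : Prop :=
  ∃ L : List ((ℕ → P) → P), (∀ g ∈ L, PolyP g) ∧ ∀ x, M x = L.map fun g => g x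

lemma alga_PL_const (l : List P) : alga_PL fun _ => l :=
  ⟨l.map fun a _ => a, fun g hg => by
    obtain ⟨a, -, rfl⟩ := List.mem_map.1 hg
    exact PolyP.const a, fun x => by simp [Function.comp_def]⟩

lemma alga_PL_cons {g M} (hg : PolyP g) (hM : alga_PL M) : alga_PL fun x => g x :: M x := by
  obtain ⟨L, h1, h2⟩ := hM
  refine ⟨g :: L, fun g' hg' => ?_, fun x => by simp only [h2, List.map_cons]⟩
  rcases List.mem_cons.1 hg' with rfl | h
  · exact hg
  · exact h1 _ h

lemma alga_PL_append {M M'} (hM : alga_PL M) (hM' : alga_PL M') :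
    alga_PL fun x => M x ++ M' x := by
  obtain ⟨L, h1, h2⟩ := hM
  obtain ⟨L', h1', h2'⟩ := hM'
  refine ⟨L ++ L', fun g hg => ?_, fun x => by simp only [h2, h2', List.map_append]⟩
  rcases List.mem_append.1 hg with h | h
  · exact h1 _ h
  · exact h1' _ h

lemma alga_PL_range (n : ℕ) {g : (ℕ → P) → ℕ → P} (hg : ∀ i, PolyP fun x => g x i) :
    alga_PL fun x => (List.range n).map (g x) :=
  ⟨(List.range n).map fun i x => g x i, fun g' hg' => by
    obtain ⟨i, -, rfl⟩ := List.mem_map.1 hg'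
    exact hg i, fun x => by simp [Function.comp_def]⟩

lemma alga_PL.psi {M Ψ} (hM : alga_PL M) (h : PolV Ψ) : PolyV fun x => Ψ (M x) := by
  obtain ⟨L, h1, h2⟩ := hM
  simp only [h2]
  exact h.polyV h1

lemma alga_PL.fix {M v} (hM : alga_PL M) (hv : PolyV v) :
    PolyV fun x => col (M x) (v x) - fc (M x) • v x := by
  obtain ⟨L, h1, h2⟩ := hM
  simp only [h2]
  refine PolyV.sub (((PolyO.prj .o).mul (PolyO.down (PolyP.const aux) h1)) v hv) (hv.smul ?_)
  exact PolyF.listProd (fun _ m => dd m aux) fun g hg => PolyF.dd (h1 g hg) (PolyP.const aux)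

lemma alga_evalF {f} (hf : PolyF f) (q : Polynomial ℂ) : PolyF fun x => q.eval (f x) := by
  simp only [Polynomial.eval_eq_sum_range]
  exact PolyF.sum _ fun i _ => (PolyF.const _).mul (hf.pow i)

lemma alga_down_rep (T : ℕ) : down aux (List.replicate T aux) = dd aux aux ^ T • 1 := by
  induction T with
  | zero => simp [down]
  | succ T ih =>
    rw [List.replicate_succ, down, ih, R_self, lift_smul, lift_one, smul_mul_smul_comm, mul_one,
      pow_succ']

lemma alga_fc_rep (T : ℕ) : fc (List.replicate T aux) = dd aux aux ^ T := by simp [fc]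

lemma alga_shift {T : ℕ} {w : Vec} (hs : Supp T w) (h : prj .o w = w) (hz : w zer = 0) :
    w = 0 := by
  induction T with
  | zero =>
    funext σ
    by_cases e : σ = zer
    · rw [e, hz]; rfl
    · exact basic_supp_zero_eq hs e
  | succ T ih => exact ih (h ▸ hs.prj .o)

/-- a polynomial family of fixed vectors without empty component vanishes -/
theorem uniq {T : ℕ} {v : (ℕ → P) → Vec} (hp : PolyV v) (hs : ∀ x, Supp T (v x))
    (hz : ∀ x, v x zer = 0)
    (hc : ∀ x, col ((List.range T).map x) (v x) = fc ((List.range T).map x) • v x)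
    (x : ℕ → P) : v x = 0 := by
  let γ : ℕ → Polynomial ℂ × Polynomial ℂ := fun i =>
    (Polynomial.C aux.1 + Polynomial.X * Polynomial.C ((x i).1 - aux.1),
      Polynomial.C aux.2 + Polynomial.X * Polynomial.C ((x i).2 - aux.2))
  let c : ℂ → ℕ → P := fun t i => ((γ i).1.eval t, (γ i).2.eval t)
  have c1 : c 1 = x := by funext i; simp [c, γ]
  have c0 : c 0 = fun _ => aux := by funext i; simp [c, γ]
  choose q hq using fun σ => (hp σ).curve γ
  by_cases h0 : ∃ σ, q σ ≠ 0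
  swap
  · push Not at h0
    funext σ
    rw [← c1]
    exact (hq σ 1).trans (by rw [h0 σ]; simp)
  exfalso
  obtain ⟨k, G, hG, σ₀, hσ₀⟩ := tk q h0
  let g : ℂ → Vec := fun t σ => (G σ).eval t
  have hg : ∀ t, v (c t) = t ^ k • g t := fun t => funext fun σ => by
    refine (hq σ t).trans ?_
    rw [hG σ]
    simp [g]
  have ht : PolyF fun y : ℕ → P => (y 0).1 := (PolyP.var 0).1
  have hgp : PolyV fun y : ℕ → P => g (y 0).1 := fun σ => alga_evalF ht (G σ)
  have hz' : ∀ σ, (∀ y, v y σ = 0) → g 0 σ = 0 := fun σ hσ =>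
    poly_dom (hgp σ) ht (fun y hy => by
      have := hσ (c (y 0).1)
      rw [hg] at this
      exact (mul_eq_zero.1 this).resolve_left (pow_ne_zero _ hy)) (y := fun _ => 1)
      one_ne_zero fun _ => 0
  have hfix : col ((List.range T).map (c 0)) (g 0) - fc ((List.range T).map (c 0)) • g 0 = 0 :=
    funext fun σ => poly_dom ((alga_PL_range T (g := fun y => c (y 0).1) fun i =>
      ⟨alga_evalF ht _, alga_evalF ht _⟩).fix hgp σ) ht (fun y hy => by
        have := hc (c (y 0).1)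
        rw [hg, map_smul, smul_comm, ← sub_eq_zero, ← smul_sub] at this
        exact congrFun ((smul_eq_zero.1 this).resolve_left (pow_ne_zero _ hy)) σ)
      (y := fun _ => 1) one_ne_zero fun _ => 0
  rw [c0, List.map_const', List.length_range, alga_fc_rep, col, alga_down_rep, mul_smul_comm,
    mul_one, LinearMap.smul_apply, ← smul_sub] at hfix
  have h1 := sub_eq_zero.1 ((smul_eq_zero.1 hfix).resolve_left (pow_ne_zero _ dd_aux_aux))
  exact hσ₀ (congrFun (alga_shift (T := T) (fun σ i hi hσ => hz' σ fun y => hs y σ i hi hσ) h1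
    (hz' _ hz)) σ₀)

/-! stability of the fixed point equation -/

def alga_CF (l : List P) (v : Vec) : Prop := col l v = fc l • v

lemma alga_fc_perm {l l' : List P} (h : l.Perm l') : fc l = fc l' := (h.map _).prod_eq
lemma alga_fc_cons (a : P) (l : List P) : fc (a :: l) = dd a aux * fc l := by
  simp only [fc, List.map_cons, List.prod_cons]

lemma alga_CF.smul {l v} (h : alga_CF l v) (c : ℂ) : alga_CF l (c • v) := by
  unfold alga_CF at *
  rw [map_smul, h, smul_comm]

lemma alga_CF.ex {a b : P} {l₁ l₂ : List P} {v} (h : alga_CF (l₁ ++ a :: b :: l₂) v) :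
    alga_CF (l₁ ++ b :: a :: l₂) (liftN l₁.length (R a b) v) := by
  have h1 := LinearMap.congr_fun (colB_ex .o a b l₁ l₂) v
  unfold alga_CF at *
  rw [alga_fc_perm ((List.Perm.swap a b l₂).append_left l₁), ← map_smul, ← h]
  exact h1.symm

lemma alga_CF.up {k : P} {l₀ l₁ l₂ : List P} {v} (h : alga_CF (l₀ ++ k :: (l₁ ++ l₂)) v) :
    alga_CF (l₀ ++ (l₁ ++ k :: l₂)) (liftN l₀.length (up k l₁) v) := by
  induction l₁ generalizing l₀ v with
  | nil => simpa [QK.up] using h
  | cons m l ih =>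
    have h1 := ih (l₀ := l₀ ++ [m]) (v := liftN l₀.length (R k m) v) (by simpa using h.ex)
    simpa [QK.up, liftN_mul, liftN_lift] using h1

lemma alga_CF.down {k : P} {l₀ l₁ l₂ : List P} {v} (h : alga_CF (l₀ ++ (l₁ ++ k :: l₂)) v) :
    alga_CF (l₀ ++ k :: (l₁ ++ l₂)) (liftN l₀.length (down k l₁) v) := by
  induction l₁ generalizing l₀ v with
  | nil => simpa [QK.down] using h
  | cons m l ih =>
    have h1 := ih (l₀ := l₀ ++ [m]) (v := v) (by simpa using h)
    rw [List.append_assoc, List.singleton_append] at h1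
    simpa [QK.down, liftN_mul, liftN_lift] using h1.ex

lemma alga_CF.ins {l v} (h : alga_CF l v) (c : P) : alga_CF (sh c :: c :: l) (ins c v) := by
  have h1 := LinearMap.congr_fun (down_ins aux c [] l) v
  unfold alga_CF at *
  have h2 : QK.down aux (sh c :: c :: l) (QK.ins c v) =
      (dd c aux * dd (sh c) aux) • lift (QK.ins c) (QK.down aux l v) := h1
  show prj .o (QK.down aux (sh c :: c :: l) (QK.ins c v)) = _
  rw [h2, map_smul]
  show _ • QK.ins c (col l v) = _
  rw [h, map_smul, smul_smul, alga_fc_cons, alga_fc_cons]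
  congr 1
  ring

lemma alga_CF.K {l a v} (h : alga_CF (l ++ [a]) v) (hv : Supp (l.length + 1) v) :
    alga_CF (l ++ [bar a]) (liftN l.length (K a) v) := by
  have h1 := colB_K .o a l hv
  have e : fc (l ++ [bar a]) = fc (l ++ [a]) := by simp [fc, dd_bar_aux]
  unfold alga_CF at *
  rw [e, ← map_smul, ← h]
  exact h1.symm

lemma alga_CF.emp {l v} (h : alga_CF l v) {a : P} (ha : a = bar aux ∨ a = (0, 1)) :
    alga_CF (a :: l) (emp v) := by
  have h1 := LinearMap.congr_fun (botE a ha) (QK.down aux l v)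
  have h2 : lift (QK.down aux l) (QK.emp v) = QK.emp (QK.down aux l v) :=
    (LinearMap.congr_fun (ins1_lift _ (QK.down aux l)) v).symm
  unfold alga_CF at *
  show prj .o (R a aux (lift (QK.down aux l) (QK.emp v))) = _
  rw [h2]
  refine h1.trans ?_
  show dd a aux • QK.emp (col l v) = _
  rw [h, map_smul, smul_smul, alga_fc_cons]

variable {n : ℕ} {Ψ : List P → Vec}

lemma alga_chain (h : Good n Ψ) (k : P) (l₀ l₁ l₂ : List P)
    (hl : (l₀ ++ (l₁ ++ k :: l₂)).length ≤ n) :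
    liftN l₀.length (down k l₁) (Ψ (l₀ ++ (l₁ ++ k :: l₂))) =
      (l₁.map fun m => dd m k).prod • Ψ (l₀ ++ k :: (l₁ ++ l₂)) := by
  induction l₁ generalizing l₀ with
  | nil => simp [down]
  | cons m l ih =>
    have h1 := ih (l₀ ++ [m]) (by simpa using hl)
    have h2 := h.ex l₀ m k (l ++ l₂) (by simp at hl ⊢; omega)
    simp only [List.append_assoc, List.singleton_append, List.length_append, List.length_singleton]
      at h1
    simp only [down, liftN_mul, liftN_lift, Module.End.mul_apply, List.cons_append, h1, map_smul,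
      h2, smul_smul, List.map_cons, List.prod_cons, mul_comm]

lemma alga_node_aux (h : Good n Ψ) {l : List P} (hl : l.length < n) (hg : Gen l)
    (ih : alga_CF l (Ψ l)) : alga_CF (aux :: l) (Ψ (aux :: l)) := by
  have hne : fc l ≠ 0 := List.prod_ne_zero fun h0 => by
    obtain ⟨m, hm, e⟩ := List.mem_map.1 h0
    exact (hg.1 m hm).aux.dd e
  have h1 : down aux l (Ψ (l ++ [aux])) = fc l • Ψ (aux :: (l ++ [])) :=
    alga_chain h aux [] l [] (by simpa using hl)
  rw [h.r0t l hl, map_smul, List.append_nil] at h1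
  have h2 := smul_right_injective _ hne h1
  unfold alga_CF at *
  show prj .o (R aux aux (lift (down aux l) (Ψ (aux :: l)))) = _
  rw [R_self, LinearMap.smul_apply, Module.End.one_apply, map_smul, alga_fc_cons, mul_smul]
  congr 1
  show down aux l (prj .o (Ψ (aux :: l))) = _
  rw [← h2, ← map_smul, ← ih]
  rfl

lemma alga_step (h : Good n Ψ) {l : List P} (hl : l.length < n) (hg : Gen l)
    (ih : ∀ l' : List P, l'.length ≤ l.length → alga_CF l' (Ψ l')) (a : P) :
    alga_CF (a :: l) (Ψ (a :: l)) := by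
  have hp := (alga_PL_cons (PolyP.var 0) (alga_PL_const l))
  refine sub_eq_zero.1 (nodecount2
    (f := fun a => col (a :: l) (Ψ (a :: l)) - fc (a :: l) • Ψ (a :: l))
    (hp.fix (hp.psi h.pol)) (2 * l.length + 2) (fun c a => ?_) hg [bar aux, aux, (0, 1)]
    (special_np.sublist (by simp)) (fun e he => (special_ok e (by simp at he ⊢; tauto)).1)
    (fun e he => (special_ok e (by simp at he ⊢; tauto)).2) (by simp; omega) ?_ ?_ a)
  · have h1 : Ψ (c • a :: l) = c ^ (2 * (0 + l.length)) • Ψ (a :: l) := h.hom [] a l c hl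
    have h2 : col (c • a :: l) = c ^ 2 • col (a :: l) := by
      simp only [col, down, R_smul_left, smul_mul_assoc, mul_smul_comm]
    rw [h1, h2, alga_fc_cons, alga_fc_cons, dd_smul_left, LinearMap.smul_apply, map_smul,
      Nat.zero_add]
    module
  · intro e he
    simp only [List.mem_cons, List.not_mem_nil, or_false] at he
    refine sub_eq_zero.2 ?_
    rcases he with rfl | rfl | rfl
    · rw [h.r0b l hl]
      exact ((ih l le_rfl).emp (Or.inl rfl)).smul _
    · exact alga_node_aux h hl hg (ih l le_rfl)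
    · rw [h.p5 l hl]
      exact ((ih l le_rfl).emp (Or.inr rfl)).smul _
  · intro k hk
    obtain ⟨l₁, l₂, rfl⟩ := List.append_of_mem hk
    have h0 := ih (l₁ ++ l₂) (by simp)
    refine ⟨sub_eq_zero.2 ?_, sub_eq_zero.2 ?_⟩
    · rw [h.np l₁ k l₂ hl]
      exact (alga_CF.up (l₀ := [sh k]) (h0.ins k)).smul _
    · rw [h.nm l₁ k l₂ hl]
      have hs : Supp ((l₁ ++ l₂).length + 2) (ins (bar k) (Ψ (l₁ ++ l₂))) :=
        (h.supp _ (by simp at hl ⊢; omega)).ins (i := 0) (Nat.zero_le _) _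
      have h1 := alga_CF.up (l₀ := [sh (bar k)]) (l₁ := l₁ ++ l₂) (l₂ := []) (k := bar k)
        (v := ins (bar k) (Ψ (l₁ ++ l₂))) (by simpa using h0.ins (bar k))
      have h2 := alga_CF.K (l := sh (bar k) :: (l₁ ++ l₂)) h1
        (hs.up (i := 1) _ _ (by omega))
      have h3 := alga_CF.down (l₀ := sh (bar k) :: l₁) (l₁ := l₂) (l₂ := []) (k := k)
        (by simpa only [List.append_assoc, List.cons_append, bar_bar] using h2)
      rw [List.append_nil] at h3
      exact h3.smul _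

theorem Good.col_fix (h : Good n Ψ) (l : List P) (hl : l.length ≤ n) :
    col l (Ψ l) = fc l • Ψ l := by
  induction hm : l.length using Nat.strong_induction_on generalizing l with
  | _ m ih =>
    cases m with
    | zero =>
      obtain rfl := List.length_eq_zero_iff.1 hm
      rw [h.nil]
      funext σ
      show vac (cons .o σ) = 1 * vac σ
      rw [one_mul]
      have e : cons .o σ = zer ↔ σ = zer :=
        ⟨fun e => congrArg tl e, fun e => by rw [e, basic_cons_zer]⟩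
      unfold vac
      by_cases hσ : σ = zer
      · rw [if_pos hσ, if_pos (e.2 hσ)]
      · rw [if_neg hσ, if_neg fun h' => hσ (e.1 h')]
    | succ m =>
      have hp := alga_PL_range (m + 1) (g := fun x => x) PolyP.var
      refine sub_eq_zero.1 (densL (F := fun l => col l (Ψ l) - fc l • Ψ l) (m + 1)
        (hp.fix (hp.psi h.pol)) (fun l' hl' hg => ?_) l hm)
      obtain ⟨a, l', rfl⟩ := List.exists_cons_of_length_eq_add_one hl'
      rw [List.length_cons] at hl'
      exact sub_eq_zero.2 (alga_step h (by omega) (hg.sublist (List.sublist_cons_self _ _))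
        (fun l'' h'' => ih l''.length (by omega) l'' (by omega) rfl) a)

theorem Good.Q_zero (h : Good n Ψ) (l : List P) (hl : l.length ≤ n) :
    Q l.length (Ψ l) = 0 := by
  have e : ∀ x : ℕ → P, ((List.range l.length).map x).length = l.length := fun x => by simp
  have hs : ∀ x : ℕ → P, Supp l.length (Ψ ((List.range l.length).map x)) := fun x => by
    have := h.supp _ ((e x).trans_le hl)
    rwa [e] at this
  have := uniq (T := l.length) (v := fun x => Q l.length (Ψ ((List.range l.length).map x)))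
    (PolyO.Q _ _ ((alga_PL_range _ (g := fun x => x) PolyP.var).psi h.pol))
    (fun x => (hs x).Q _) (fun x => ?_) (fun x => ?_) fun i => l.getD i 0
  · rwa [poly_getD] at this
  · have := h.ch _ ((e x).trans_le hl)
    rw [e] at this
    exact (this.Q _ le_rfl).zer (by norm_num)
  · have h1 := Q_col ((List.range l.length).map x) (v := Ψ ((List.range l.length).map x))
      (by rw [e]; exact hs x)
    rw [e, h.col_fix _ ((e x).trans_le hl), map_smul] at h1
    exact h1.symm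

lemma alga_Q_zer (m : ℕ) (v : Vec) : Q m v zer = 0 := by
  induction m generalizing v with
  | zero => rfl
  | succ m ih =>
    have := congrFun (alga_prj_Q m v) zer
    rw [ih] at this
    rw [← basic_cons_zer]
    exact this

lemma alga_Q_p (m : ℕ) (v : Vec) (t : St) :
    Q (m + 1) v (cons .p t) = v (cons .m t) + ζ ^ 4 * Q m (prj .p v) t := by
  show q1 v (cons .p t) + kq (lift (Q m) v) (cons .p t) = _
  unfold q1 kq
  rw [basic_loc_apply, basic_dg_apply]
  simp only [zero_mul, zero_add, basic_ev, one_mul]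
  rfl

lemma alga_R_zer (a b : P) {i T : ℕ} {v : Vec} (hi : i + 2 ≤ T) (hQ : Q T v = 0) :
    liftN i (R a b) v zer = dd a b * v zer := by
  induction i generalizing T v with
  | zero =>
    obtain ⟨T, rfl⟩ : ∃ m, T = m + 2 := ⟨T - 2, by omega⟩
    have h1 := congrFun hQ (cons .p (cons .p zer))
    rw [alga_Q_p, alga_Q_p, alga_Q_zer] at h1
    have h2 : v (cons .m (cons .p zer)) + ζ ^ 4 * (v (cons .p (cons .m zer)) + ζ ^ 4 * 0) = 0 :=
      h1
    have h3 : R a b v (cons .o (cons .o zer)) = dd a b * v (cons .o (cons .o zer)) +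
      jn a b * (ζ ^ 2 * v (cons .p (cons .m zer)) - ζ ^ 6 * v (cons .m (cons .p zer))) := rfl
    rw [basic_cons_zer, basic_cons_zer] at h3
    show R a b v zer = _
    rw [h3]
    linear_combination -jn a b * ζ ^ 6 * h2 + jn a b * ζ ^ 2 * v (cons .p (cons .m zer)) * h8
  | succ i ih =>
    obtain ⟨T, rfl⟩ : ∃ m, T = m + 1 := ⟨T - 1, by omega⟩
    have h1 := ih (T := T) (v := prj .o v) (by omega) (by rw [← alga_prj_Q, hQ, map_zero])
    have h2 : prj .o v zer = v zer := congrArg v basic_cons_zer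
    rw [h2] at h1
    exact h1

lemma alga_swap (h : Good n Ψ) (l₁ : List P) (a b : P) (l₂ : List P)
    (hl : (l₁ ++ a :: b :: l₂).length ≤ n) :
    Ψ (l₁ ++ a :: b :: l₂) zer = Ψ (l₁ ++ b :: a :: l₂) zer := by
  have p : ∀ i j, PolyF fun x : ℕ → P => Ψ (l₁ ++ x i :: x j :: l₂) zer := fun i j =>
    (alga_PL_append (alga_PL_const l₁) (alga_PL_cons (PolyP.var i)
      (alga_PL_cons (PolyP.var j) (alga_PL_const l₂)))).psi h.pol zer
  refine sub_eq_zero.1 (poly_dom ((p 0 1).sub (p 1 0)) (PolyF.dd (PolyP.var 0) (PolyP.var 1))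
    (fun x hx => ?_) (y := fun _ => aux) dd_aux_aux fun i => if i = 0 then a else b)
  have hl' : (l₁ ++ x 0 :: x 1 :: l₂).length ≤ n := by simpa using hl
  have h1 := congrFun (h.ex l₁ (x 0) (x 1) l₂ hl') zer
  rw [alga_R_zer _ _ (by simp) (h.Q_zero _ hl')] at h1
  exact sub_eq_zero.2 (mul_left_cancel₀ hx h1)

theorem Good.D_perm (h : Good n Ψ) {l l' : List P} (hl : l.length ≤ n) (hp : l.Perm l') :
    Ψ l zer = Ψ l' zer := by
  suffices H : ∀ l₁ : List P, (l₁ ++ l).length ≤ n → Ψ (l₁ ++ l) zer = Ψ (l₁ ++ l') zer from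
    H [] hl
  clear hl
  induction hp with
  | nil => intro _ _; rfl
  | cons x _ ih =>
    intro l₁ hl
    simpa using ih (l₁ ++ [x]) (by simpa using hl)
  | swap x y l => exact fun l₁ hl => alga_swap h l₁ y x l hl
  | trans h1 _ ih1 ih2 =>
    exact fun l₁ hl => (ih1 l₁ hl).trans (ih2 l₁ ((h1.append_left l₁).length_eq ▸ hl))

lemma alga_K_zer (a : P) (i : ℕ) (v : Vec) : liftN i (K a) v zer = kd a * v zer := by
  induction i generalizing v with
  | zero =>
    have := basic_dg_apply (kd a) (ko a) (ko a) v .o zer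
    rw [basic_cons_zer] at this
    exact this
  | succ i ih =>
    have h1 := ih (prj .o v)
    have h2 : prj .o v zer = v zer := congrArg v basic_cons_zer
    rw [h2] at h1
    exact h1

theorem Good.D_bar (h : Good n Ψ) (a : P) (l : List P) (hl : l.length < n) :
    Ψ (bar a :: l) zer = Ψ (a :: l) zer := by
  have p : ∀ g, PolyP g → PolyF fun x : ℕ → P => Ψ (g x :: l) zer := fun g hg =>
    (alga_PL_cons hg (alga_PL_const l)).psi h.pol zer
  refine sub_eq_zero.1 (poly_dom ((p _ (PolyP.var 0).bar).sub (p _ (PolyP.var 0)))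
    (PolyF.kd (PolyP.var 0)) (fun x hx => ?_) (y := fun _ => (1, 0))
    (by simp [kd, zeta_ne]) fun _ => a)
  have h1 := congrFun (h.kt l (x 0) (by simpa using hl)) zer
  rw [alga_K_zer] at h1
  rw [h.D_perm (l := bar (x 0) :: l) hl (List.perm_append_singleton _ _).symm,
    h.D_perm (l := x 0 :: l) hl (List.perm_append_singleton _ _).symm]
  exact sub_eq_zero.2 (mul_left_cancel₀ hx h1).symm
theorem Good.D_sh (h : Good n Ψ) (c : P) (l : List P) (hl : l.length + 2 ≤ n) :
    Ψ (sh c :: c :: l) zer =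
      kd c * lin c * (l.map fun m => phi m c).prod * c.2 * Ψ l zer := by
  rw [mul_assoc _ c.2]
  exact congrFun (h.r2 [] c l hl) zer
theorem Good.D_aux (h : Good n Ψ) (l : List P) (hl : l.length < n) :
    Ψ (bar aux :: l) zer = fc l * Ψ l zer := by
  rw [← one_mul (Ψ l zer)]
  exact congrFun (h.r0b l hl) zer
theorem Good.D_zero (h : Good n Ψ) (l : List P) (hl : l.length < n) :
    Ψ ((0, 1) :: l) zer = ζ ^ (13 * l.length) * pP l * pQ l * Ψ l zer := by
  have e : ∀ l : List P, ζ ^ (13 * l.length) * pP l * pQ l =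
      (l.map fun m => ζ ^ 13 * m.1 * m.2).prod := by
    intro l
    induction l with
    | nil => simp [pP, pQ]
    | cons a l ih =>
      rw [List.map_cons, List.prod_cons, ← ih, local_pP_cons, local_pQ_cons, List.length_cons]
      ring
  rw [e, ← one_mul (Ψ l zer)]
  exact congrFun (h.p5 l hl) zer
theorem Good.D_hom (h : Good n Ψ) (a : P) (c : ℂ) (l : List P) (hl : l.length < n) :
    Ψ (c • a :: l) zer = c ^ (2 * l.length) * Ψ (a :: l) zer := by
  rw [← Nat.zero_add l.length]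
  exact congrFun (h.hom [] a l c hl) zer
theorem Good.aux_ne (h : Good n Ψ) (T : ℕ) (hT : T ≤ n) :
    Ψ (List.replicate T aux) zer ≠ 0 := by
  induction T with
  | zero =>
    show Ψ [] zer ≠ 0
    rw [h.nil]
    simp [vac]
  | succ T ih =>
    rw [List.replicate_succ', h.r0t _ (by simpa using hT), alga_fc_rep]
    exact mul_ne_zero (pow_ne_zero _ dd_aux_aux) (ih (by omega))

end Pool.Agent.Lib.MP_4960b8_pr.QK
end
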