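import Pool.Agent.Lib.MP_4960b8_pr.QK.PhysC
import Pool.Agent.Lib.MP_4960b8_pr.QK.AlgA
import Pool.Agent.Lib.MP_4960b8_pr.QK.CombB
import Pool.Agent.Lib.MP_4960b8_pr.QK.AnaE
import Pool.Agent.Lib.MP_4960b8_pr.QK.AlgD

-- part Pool.Agent.Lib.MP_4960b8_pr.QK.PhysD
section

/-! The mass of the walks from the bottom to the right side as a matrix element. -/

namespace Pool.Agent.Lib.MP_4960b8_pr.QK

open SAW

/-- walks from the bottom of the column `-1-i` to the right side, with `m` columns on the left -/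
noncomputable def am (T i m : ℕ) : ℝ :=
  mu {l | l ∈ Exit (box (-1 - i - m) 0 T) (pB (-1 - i)) (qB (-1 - i)) ∧ (lv (qB (-1 - i)) l).j = 0}

/-- bottom spins: one arrow in the column number `m` -/
def physd_b (m : ℕ) : ℕ → S := fun n => if n = m then .m else .o

lemma physd_tr0 (T m n : ℕ) (h : n ≤ m) : tr T (physd_b m) n = Ch T ^ n := by
  induction n with
  | zero => rfl
  | succ n ih =>
    rw [tr, ih (by omega), pow_succ', physd_b, if_neg (by omega)]
    rfl

lemma physd_tr (T m i : ℕ) : tr T (physd_b m) (m + 1 + i) = Ch T ^ i * ChA T * Ch T ^ m := by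
  induction i with
  | zero =>
    rw [add_zero, tr, physd_tr0 T m m le_rfl, pow_zero, one_mul, physd_b, if_pos rfl]
    rfl
  | succ i ih =>
    rw [← add_assoc, tr, ih, pow_succ', physd_b, if_neg (by omega), mul_assoc (Ch T),
      mul_assoc (Ch T)]
    rfl

/-- the two ends of the exit edge in the row `j` -/
def physd_y (j : ℕ) : V := ⟨2 - j, -1, j⟩
def physd_u (j : ℕ) : V := ⟨2 - j, 0, j⟩

/-- boundary condition: one arrow entering at the bottom, one leaving on the right -/
def physd_s (c : ℤ) (j : ℕ) : Cfg := fun e =>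
  if e = ed (pB c) (qB c) then .m else if e = ed (physd_y j) (physd_u j) then .p else .o

lemma physd_up (c : ℤ) : UpE (pB c) (qB c) := ⟨by simp [pB], by simp [pB, qB]⟩

lemma physd_adj (j : ℕ) : Adj (physd_y j) (physd_u j) := by
  refine Or.inl ⟨?_, Or.inr (Or.inl ?_)⟩
  · simp only [physd_y]; omega
  · simp [physd_y, physd_u]

lemma physd_ne (c : ℤ) (j : ℕ) : ed (physd_y j) (physd_u j) ≠ ed (pB c) (qB c) := by
  simp only [ne_eq, V.ext_iff, ed, physd_y, physd_u, pB, qB]; omega

lemma physd_s_o {c : ℤ} {j : ℕ} {e : V} (h1 : e ≠ ed (pB c) (qB c))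
    (h2 : e ≠ ed (physd_y j) (physd_u j)) : physd_s c j e = .o := by
  rw [physd_s, if_neg h1, if_neg h2]

lemma physd_s_m (c : ℤ) (j : ℕ) : physd_s c j (ed (pB c) (qB c)) = .m := by
  rw [physd_s, if_pos rfl]

lemma physd_s_p (c : ℤ) (j : ℕ) : physd_s c j (ed (physd_y j) (physd_u j)) = .p := by
  rw [physd_s, if_neg (physd_ne c j), if_pos rfl]

lemma physd_transfer {T j : ℕ} (hj : j < T) (i m : ℕ) :
    (Ch T ^ i * ChA T * Ch T ^ m) vac (sgl j) =
      Z (boxF (-1 - i - m) 0 T) (physd_s (-1 - i) j) := by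
  have e : (-1 - i - m : ℤ) + ((m + 1 + i : ℕ) : ℤ) = 0 := by push_cast; ring
  have h := transfer T (-1 - i - m) (m + 1 + i) (physd_b m) (σ := zer) (σ' := sgl j)
    (s := physd_s (-1 - i) j) (fun _ _ => rfl) (fun n hn => by rw [sgl, if_neg (by omega)])
    (fun k _ => by
      apply physd_s_o <;> simp only [ne_eq, V.ext_iff, eW, ed, physd_y, physd_u, pB, qB] <;> omega)
    (fun k _ => by
      rw [e, sgl]
      by_cases hk : k = j
      · rw [if_pos hk, ← physd_s_p (-1 - i) j]
        congr 1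
        simp only [V.ext_iff, eW, ed, physd_y, physd_u]; omega
      · rw [if_neg hk]
        apply physd_s_o <;>
          simp only [ne_eq, V.ext_iff, eW, ed, physd_y, physd_u, pB, qB] <;> omega)
    (fun n _ => by
      rw [physd_b]
      by_cases hn : n = m
      · rw [if_pos hn, ← physd_s_m (-1 - i) j]
        congr 1
        simp only [V.ext_iff, eS, ed, pB, qB]; omega
      · rw [if_neg hn]
        apply physd_s_o <;>
          simp only [ne_eq, V.ext_iff, eS, ed, physd_y, physd_u, pB, qB] <;> omega)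
    (fun n _ => by
      apply physd_s_o <;> simp only [ne_eq, V.ext_iff, eS, ed, physd_y, physd_u, pB, qB] <;> omega)
  rw [physd_tr, e] at h
  exact h

lemma physd_chain {p q : V} {l : List V} (h : (p :: q :: l).IsChain Adj) :
    Adj (pv p q l) (lv q l) := by
  induction l generalizing p q with
  | nil => exact (List.isChain_cons_cons.1 h).1
  | cons r l ih => exact ih (List.isChain_cons_cons.1 h).2

lemma physd_coe (a b : ℤ) (T : ℕ) : ((boxF a b T : Finset V) : Set V) = box a b T :=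
  Set.Finite.coe_toFinset _

/-- walks leaving the box on the right in the row `j` -/
def physd_E (a c : ℤ) (T j : ℕ) : Set (List V) :=
  {l | l ∈ Exit (box a 0 T) (pB c) (qB c) ∧ lv (qB c) l = physd_u j}

section
variable {a c : ℤ} {T j : ℕ}

lemma physd_p_not (a c : ℤ) (T : ℕ) : pB c ∉ box a 0 T := fun h => by
  have := h.2.1
  simp [pB] at this

lemma physd_u_not (a : ℤ) (T j : ℕ) : physd_u j ∉ box a 0 T := fun h => by
  have := h.2.2.2.2
  simp [physd_u] at this

lemma physd_pv (hc : c < 0) {l : List V} (hl : l ∈ physd_E a c T j) :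
    pv (pB c) (qB c) l = physd_y j := by
  obtain ⟨⟨h1, h2, -⟩, h4⟩ := hl
  have h0 : l ≠ [] := by
    rintro rfl
    have := congrArg V.j h4
    simp only [lv_nil, qB, physd_u] at this
    omega
  have h5 := (h2.pv_mem (p := pB c) h0).2.2.2.2
  have h6 := h1.adj_last
  rw [h4, adj_iff] at h6
  simp only [physd_u] at h6
  simp only [V.ext_iff, physd_y]
  omega

lemma physd_Pe (ha : a ≤ c) (hc : c < 0) (hj : j < T) :
    Pe (boxF a 0 T) (physd_s c j) true (pB c) (qB c) = physd_E a c T j := by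
  ext l
  constructor
  · rintro ⟨h1, h2, h3, h4, h5, h6, -⟩
    rw [physd_coe] at h3
    have h4' : lv (qB c) l ∉ box a 0 T := by rwa [← physd_coe]
    have hch : (pB c :: qB c :: l).IsChain Adj := List.isChain_cons_cons.2 ⟨(physd_up c).adj, h1⟩
    have h7 : ed (pv (pB c) (qB c) l) (lv (qB c) l) = ed (physd_y j) (physd_u j) := by
      by_contra hn
      rw [physd_s_o h5 hn] at h6
      exact sp_ne_o _ _ h6.symm
    have h8 : lv (qB c) l = physd_u j := by
      rcases ed_inj (physd_chain hch) (physd_adj j) h7 with h | h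
      · exact h.2
      · refine absurd ?_ h4'
        rw [h.2]
        refine ⟨(physd_adj j).valid_left, ?_⟩
        simp only [physd_y]
        omega
    refine ⟨⟨⟨hch, List.nodup_cons.2 ⟨fun hm => ?_, h2⟩⟩, h3, h4'⟩, h8⟩
    rcases h3.mem hm with h | h
    · exact physd_p_not a c T h
    · rw [h8] at h
      have := congrArg V.k h
      simp only [pB, physd_u] at this
      omega
  · intro hl
    have h0 := physd_pv hc hl
    obtain ⟨⟨h1, h2, h3⟩, h4⟩ := hl
    refine ⟨(List.isChain_cons_cons.1 h1.1).2, (List.nodup_cons.1 h1.2).2, ?_, ?_, ?_, ?_, ?_⟩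
    · rwa [physd_coe]
    · rwa [← Finset.mem_coe, physd_coe]
    · rw [h0, h4]
      exact physd_ne c j
    · rw [h0, h4, physd_s_p]
      simp [spo, sp, physd_y, physd_u]
    · intro v _ _ w _ _
      rw [h0, h4]
      by_cases e1 : ed v w = ed (pB c) (qB c)
      · exact Or.inl e1
      by_cases e2 : ed v w = ed (physd_y j) (physd_u j)
      · exact Or.inr (Or.inl e2)
      exact Or.inr (Or.inr (physd_s_o e1 e2))

lemma physd_wind (hc : c < 0) {l : List V} (hl : l ∈ physd_E a c T j) :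
    wind (pB c) (qB c) l = -2 := by
  have h0 := physd_pv hc hl
  obtain ⟨he, h4⟩ := hl
  have h5 := wind_right (physd_up c) he.1
    (cY_le_inn (D := box a 0 T) (physd_up c) (fun u hu => hu.2.1) he.1 he.2.1) (by
      intro u hu
      rw [h4]
      rcases Exit.cases he hu with h | h | h
      · rw [h]
        simp only [cX, cY, pB, physd_u]
        omega
      · obtain ⟨v1, -, -, -, v2⟩ := h
        unfold Valid at v1
        simp only [cX, cY, physd_u]
        omega
      · rw [h, h4]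
        omega)
  have h6 := he.1.wind_mod
  have h7 : dirI (physd_y j) (physd_u j) = 4 := by
    simp only [dirI, physd_y, physd_u]
    split_ifs <;> omega
  rw [h0, h4, h7, (physd_up c).dirI] at h6
  omega

lemma physd_wex (hc : c < 0) {l : List V} (hl : l ∈ physd_E a c T j) :
    wex (pB c) (qB c) l = -1 := by
  have h0 := physd_pv hc hl
  have h1 := physd_wind hc hl
  obtain ⟨he, h4⟩ := hl
  have h5 := wex_eq he.1.1 (List.nodup_cons.1 he.1.2).2 (fun h =>
    (List.nodup_cons.1 he.1.2).1 (List.mem_cons_of_mem _ (List.mem_of_mem_head? h)))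
  have h6 : ga (pB c) (qB c) = -2 := by
    simp only [ga, pB, qB]
    split_ifs <;> omega
  have h7 : ga (physd_y j) (physd_u j) = -3 := by simp [ga, physd_y, physd_u]
  rw [h0, h4, h1, h6, h7] at h5
  omega

lemma physd_res (hc : c < 0) {l : List V} (hl : l ∈ physd_E a c T j) :
    Z (boxF a 0 T \ (qB c :: l).toFinset) (physd_s c j) = 1 := by
  have h0 := physd_pv hc hl
  refine Z_zero (fun v hv => (mem_boxF.1 (Finset.mem_sdiff.1 hv).1).1) fun v hv w _ h => ?_
  obtain ⟨h1, h2⟩ := Finset.mem_sdiff.1 hv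
  rw [← Finset.mem_coe, physd_coe] at h1
  rw [List.mem_toFinset] at h2
  refine physd_s_o (fun e => ?_) fun e => ?_
  · rcases ed_inj h (physd_up c).adj e with e | e
    · exact physd_p_not a c T (e.1 ▸ h1)
    · exact h2 (e.1 ▸ List.mem_cons_self)
  · rcases ed_inj h (physd_adj j) e with e | e
    · have h3 := pv_mem (pB c) (qB c) l
      rw [h0, ← e.1] at h3
      rcases List.mem_cons.1 h3 with h3 | h3
      · exact physd_p_not a c T (h3 ▸ h1)
      · exact h2 h3
    · exact physd_u_not a T j (e.1 ▸ h1)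

lemma physd_fin (a c : ℤ) (T j : ℕ) : (physd_E a c T j).Finite :=
  (finite_exit (box_finite a 0 T) _ _).subset fun _ h => h.1

lemma physd_zeta : ζ * ph (-1) = 1 := by
  rw [ζ, ph, ← Complex.exp_add, ← Complex.exp_zero]
  congr 1
  push_cast
  ring

lemma physd_Z (ha : a ≤ c) (hc : c < 0) (hj : j < T) :
    ζ * Z (boxF a 0 T) (physd_s c j) = mu (physd_E a c T j) := by
  have hn : Nrm (boxF a 0 T) (physd_s c j) := by
    intro v hv w hw h
    rw [← Finset.mem_coe, physd_coe] at hv hw
    refine physd_s_o (fun e => ?_) fun e => ?_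
    · rcases ed_inj h (physd_up c).adj e with e | e
      · exact physd_p_not a c T (e.1 ▸ hv)
      · exact physd_p_not a c T (e.2 ▸ hw)
    · rcases ed_inj h (physd_adj j) e with e | e
      · exact physd_u_not a T j (e.2 ▸ hw)
      · exact physd_u_not a T j (e.1 ▸ hv)
  have hq : qB c ∈ boxF a 0 T := by
    refine mem_boxF.2 ⟨(physd_up c).adj.valid_right, ?_⟩
    simp only [qB]
    omega
  have hp : pB c ∉ boxF a 0 T := by
    rw [← Finset.mem_coe, physd_coe]
    exact physd_p_not a c T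
  have hs : physd_s c j (ed (pB c) (qB c)) = spo true (pB c) (qB c) := by
    rw [physd_s_m]
    simp only [spo, sp, pB, qB, if_true]
    rw [if_neg (by omega)]
  rw [Z_peel (fun v hv => (mem_boxF.1 hv).1) hn hp hq (physd_up c).adj true hs,
    physd_Pe ha hc hj, finsum_mem_eq_finite_toFinset_sum _ (physd_fin a c T j), mu,
    ms_eq_sum (physd_fin a c T j), Finset.mul_sum, Complex.ofReal_sum]
  refine Finset.sum_congr rfl fun l hl => ?_
  have hl' := (physd_fin a c T j).mem_toFinset.1 hl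
  rw [physd_res hc hl', wtb_true, physd_wex hc hl', wt, mul_one, mul_left_comm, physd_zeta,
    mul_one, Complex.ofReal_pow]

lemma physd_union (a : ℤ) (hc : c < 0) (T : ℕ) :
    {l | l ∈ Exit (box a 0 T) (pB c) (qB c) ∧ (lv (qB c) l).j = 0} =
      ⋃ j ∈ Finset.range T, physd_E a c T j := by
  ext l
  simp only [Set.mem_iUnion, Finset.mem_range, exists_prop]
  constructor
  · rintro ⟨he, h4⟩
    have h0 : l ≠ [] := by
      rintro rfl
      simp only [lv_nil, qB] at h4
      omega
    obtain ⟨-, b1, b2, -, b3⟩ := he.2.1.pv_mem (p := pB c) h0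
    have h6 := he.1.adj_last
    rw [adj_iff] at h6
    refine ⟨(pv (pB c) (qB c) l).k.toNat, by omega, he, ?_⟩
    simp only [V.ext_iff, physd_u]
    omega
  · rintro ⟨j, -, he, h4⟩
    exact ⟨he, by rw [h4]; rfl⟩

end

theorem am_eq (T i m : ℕ) :
    ζ * ∑ j ∈ Finset.range T, (Ch T ^ i * ChA T * Ch T ^ m) vac (sgl j) = am T i m := by
  have hc : (-1 - i : ℤ) < 0 := by omega
  rw [am, physd_union _ hc, mu, ms_biUnion _ _ (fun j _ => physd_fin _ _ T j), Finset.mul_sum,
    Complex.ofReal_sum]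
  · refine Finset.sum_congr rfl fun j hj => ?_
    rw [physd_transfer (Finset.mem_range.1 hj), physd_Z (by omega) hc (Finset.mem_range.1 hj), mu]
  · intro j _ j' _ hne
    refine Set.disjoint_left.2 fun l h h' => hne ?_
    have := congrArg V.k (h.2.symm.trans h'.2)
    simp only [physd_u] at this
    omega

theorem am_nonneg (T i m : ℕ) : 0 ≤ am T i m := mu_nonneg _

theorem am_mono (T i : ℕ) : Monotone (am T i) := by
  intro m m' h
  refine mu_mono ((finite_exit (box_finite _ 0 T) _ _).subset fun _ h => h.1) ?_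
  rintro l ⟨⟨h1, h2, -⟩, h4⟩
  refine ⟨⟨h1, h2.mono ?_, fun hb => ?_⟩, h4⟩
  · rintro v ⟨b1, b2, b3, b4, b5⟩
    exact ⟨b1, b2, b3, by omega, b5⟩
  · have := hb.2.2.2.2
    omega

theorem RT_eq (T N : ℕ) : RT T N = ∑ i ∈ Finset.range N, am T i (N - 1 - i) := by
  refine Finset.sum_congr rfl fun i hi => ?_
  have hi' := Finset.mem_range.1 hi
  have e : (-1 - i - ((N - 1 - i : ℕ) : ℤ) : ℤ) = -N := by omega
  rw [am, e]

end Pool.Agent.Lib.MP_4960b8_pr.QK
end

-- part Pool.Agent.Lib.MP_4960b8_pr.QK.PhysE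
section

/-! Fixed vectors of the column operator count self-avoiding walks. -/

namespace Pool.Agent.Lib.MP_4960b8_pr.QK

open Filter Topology

/-! ### closed vectors are exact up to the vacuum -/

lemma physe_ext {u v : Vec} (h : ∀ x, prj x u = prj x v) : u = v := by
  funext σ
  obtain ⟨x, t, rfl⟩ := basic_ex1 σ
  exact congrFun (h x) t

lemma physe_Q_apply (n : ℕ) (v : Vec) (x : S) (t : St) :
    Q (n + 1) v (cons x t) =
      q1 v (cons x t) + basic_ev 1 (ζ ^ 4) (-ζ ^ 4) x * Q n (prj x v) t := by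
  rw [Q_succ, LinearMap.add_apply, Pi.add_apply, Module.End.mul_apply]
  unfold kq
  rw [basic_dg_apply, lift_apply]
  rfl

lemma physe_Q_o (n : ℕ) (v : Vec) : prj .o (Q (n + 1) v) = Q n (prj .o v) := by
  funext t
  show Q (n + 1) v (cons .o t) = _
  rw [physe_Q_apply]
  unfold q1
  rw [basic_loc_apply]
  simp only [basic_ev, zero_mul, add_zero, zero_add, one_mul]

lemma physe_Q_p (n : ℕ) (v : Vec) :
    prj .p (Q (n + 1) v) = prj .m v + ζ ^ 4 • Q n (prj .p v) := by
  funext t
  show Q (n + 1) v (cons .p t) = v (cons .m t) + ζ ^ 4 * Q n (prj .p v) t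
  rw [physe_Q_apply]
  unfold q1
  rw [basic_loc_apply]
  simp only [basic_ev, zero_mul, add_zero, zero_add, one_mul]

lemma physe_Q_m (n : ℕ) (v : Vec) : prj .m (Q (n + 1) v) = (-ζ ^ 4) • Q n (prj .m v) := by
  funext t
  show Q (n + 1) v (cons .m t) = -ζ ^ 4 * Q n (prj .m v) t
  rw [physe_Q_apply]
  unfold q1
  rw [basic_loc_apply]
  simp only [basic_ev, zero_mul, add_zero, zero_add]

lemma physe_supp_zero {v : Vec} (h : Supp 0 v) : v = v zer • vac := by
  funext σ
  rw [Pi.smul_apply, smul_eq_mul]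
  unfold vac
  by_cases e : σ = zer
  · rw [if_pos e, e, mul_one]
  · rw [if_neg e, mul_zero, basic_supp_zero_eq h e]

lemma physe_vac_o : prj .o vac = vac := by
  funext t
  show vac (cons .o t) = vac t
  unfold vac
  by_cases e : t = zer
  · rw [e, basic_cons_zer]
  · rw [if_neg e, if_neg]
    intro e'
    exact e (congrArg tl e')

lemma physe_vac_ne {x : S} (hx : x ≠ .o) : prj x vac = 0 := basic_supp_zero_ne supp_vac hx

/-- glue three vectors along the lowest spin -/
def physe_glue (g : S → Vec) : Vec := fun σ => g (σ 0) (tl σ)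

lemma physe_prj_glue (g : S → Vec) (x : S) : prj x (physe_glue g) = g x := rfl

lemma physe_exact (n : ℕ) : ∀ (c : ℤ) (v : Vec), Supp n v → HasCh n c v → Q n v = 0 →
    ∃ ξ : Vec, Supp n ξ ∧ HasCh n (c - 2) ξ ∧ v = v zer • vac + Q n ξ := by
  induction n with
  | zero =>
    intro c v hs _ _
    refine ⟨0, fun _ _ _ _ => rfl, fun _ _ => rfl, ?_⟩
    rw [map_zero, add_zero]
    exact physe_supp_zero hs
  | succ n ih =>
    intro c v hs hc hQ
    have hQo : Q n (prj .o v) = 0 := by rw [← physe_Q_o, hQ, map_zero]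
    have hQp : prj .m v + ζ ^ 4 • Q n (prj .p v) = 0 := by rw [← physe_Q_p, hQ, map_zero]
    obtain ⟨ξ, h1, h2, h3⟩ := ih _ _ (hs.prj .o) (hc.prj .o) hQo
    let g : S → Vec := fun x => match x with
      | .o => ξ
      | .p => 0
      | .m => prj .p v
    refine ⟨physe_glue g, basic_supp_of_cons fun x => ?_, basic_ch_of_cons fun x => ?_, ?_⟩
    · show Supp n (g x)
      cases x
      · exact h1
      · exact fun _ _ _ _ => rfl
      · exact hs.prj .p
    · show HasCh n _ (g x)
      cases x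
      · have e : c - 2 - S.o.val = c - S.o.val - 2 := by ring
        rw [e]
        exact h2
      · exact fun _ _ => rfl
      · have e : c - 2 - S.m.val = c - S.p.val := by simp only [S.val]; ring
        rw [e]
        exact hc.prj .p
    · refine physe_ext fun x => ?_
      rw [map_add, map_smul]
      cases x
      · rw [physe_Q_o, physe_prj_glue, physe_vac_o]
        have e : v zer = prj .o v zer := by
          show _ = v (cons .o zer)
          rw [basic_cons_zer]
        rw [e]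
        exact h3
      · rw [physe_Q_p, physe_prj_glue, physe_prj_glue, physe_vac_ne (by decide)]
        show _ = v zer • (0 : Vec) + (prj .p v + ζ ^ 4 • Q n 0)
        rw [map_zero, smul_zero, smul_zero, zero_add, add_zero]
      · rw [physe_Q_m, physe_prj_glue, physe_vac_ne (by decide), smul_zero, zero_add, neg_smul]
        exact eq_neg_of_add_eq_zero_left hQp

/-! ### linear functionals on vectors of finite support -/

/-- indicator of a spin -/
def physe_ind (x : S) : S → ℂ := fun y => if y = x then 1 else 0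

lemma physe_split (v : Vec) : v = ins1 (physe_ind .o) (prj .o v) +
    ins1 (physe_ind .p) (prj .p v) + ins1 (physe_ind .m) (prj .m v) := by
  funext σ
  obtain ⟨x, t, rfl⟩ := basic_ex1 σ
  show _ = physe_ind .o x * v (cons .o t) + physe_ind .p x * v (cons .p t) +
    physe_ind .m x * v (cons .m t)
  cases x <;> simp [physe_ind]

lemma physe_lim (n : ℕ) : ∀ (Λ : Vec →ₗ[ℂ] ℂ) (u : ℕ → Vec), (∀ m, Supp n (u m)) →
    (∀ σ, Tendsto (fun m => u m σ) atTop (𝓝 0)) → Tendsto (fun m => Λ (u m)) atTop (𝓝 0) := by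
  induction n with
  | zero =>
    intro Λ u hs h0
    have := (h0 zer).mul_const (Λ vac)
    rw [zero_mul] at this
    refine this.congr fun m => ?_
    conv_rhs => rw [physe_supp_zero (hs m), map_smul, smul_eq_mul]
  | succ n ih =>
    intro Λ u hs h0
    have key : ∀ x : S, Tendsto (fun m => Λ (ins1 (physe_ind x) (prj x (u m)))) atTop (𝓝 0) :=
      fun x => ih (Λ ∘ₗ ins1 (physe_ind x)) (fun m => prj x (u m)) (fun m => (hs m).prj x)
        fun σ => h0 (cons x σ)
    have := ((key .o).add (key .p)).add (key .m)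
    rw [add_zero, add_zero] at this
    refine this.congr fun m => ?_
    conv_rhs => rw [physe_split (u m), map_add, map_add]

/-! ### the column operator -/

lemma physe_Ch_supp {T : ℕ} {v : Vec} (h : Supp T v) : Supp T (Ch T v) := by
  have h1 : Supp ((List.replicate T hn).length + 1) v := by
    rw [List.length_replicate]; exact h.mono (Nat.le_succ T)
  have h2 := Supp.colB h1 .o
  rw [List.length_replicate] at h2
  exact h2.smul _

lemma physe_pow_supp {T : ℕ} {v : Vec} (h : Supp T v) (m : ℕ) : Supp T ((Ch T ^ m) v) := by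
  induction m with
  | zero => exact h
  | succ m ih => rw [pow_succ', Module.End.mul_apply]; exact physe_Ch_supp ih

lemma physe_Q_Ch {T : ℕ} {v : Vec} (h : Supp T v) : Q T (Ch T v) = Ch T (Q T v) := by
  have h1 : Supp (List.replicate T hn).length v := by rw [List.length_replicate]; exact h
  have h2 := Q_col _ h1
  rw [List.length_replicate] at h2
  unfold Ch
  rw [LinearMap.smul_apply, LinearMap.smul_apply, map_smul, h2]

lemma physe_Q_pow {T : ℕ} {v : Vec} (h : Supp T v) (m : ℕ) :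
    Q T ((Ch T ^ m) v) = (Ch T ^ m) (Q T v) := by
  induction m with
  | zero => rfl
  | succ m ih =>
    rw [pow_succ', Module.End.mul_apply, Module.End.mul_apply, physe_Q_Ch (physe_pow_supp h m), ih]

lemma physe_fix_pow {T : ℕ} {ψ : Vec} (h : Ch T ψ = ψ) (m : ℕ) : (Ch T ^ m) ψ = ψ := by
  induction m with
  | zero => rfl
  | succ m ih => rw [pow_succ', Module.End.mul_apply, ih, h]

/-- the fixed vector is the limit of the iterates of the vacuum -/
lemma physe_vac_lim {T : ℕ} {ψ φ : Vec} (h : Fix T ψ φ) (Λ : Vec →ₗ[ℂ] ℂ) :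
    Tendsto (fun m => ψ zer * Λ ((Ch T ^ m) vac)) atTop (𝓝 (Λ ψ)) := by
  obtain ⟨ξ, h1, h2, h3⟩ := physe_exact T 0 ψ h.s0 h.c0 h.cl
  have h4 := physe_lim T (Λ ∘ₗ Q T) (fun m => (Ch T ^ m) ξ) (physe_pow_supp h1)
    (ch_decay (by norm_num) h1 h2)
  have h5 := h4.const_sub (Λ ψ)
  rw [sub_zero] at h5
  refine h5.congr fun m => ?_
  have h6 : ψ = ψ zer • (Ch T ^ m) vac + Q T ((Ch T ^ m) ξ) := by
    rw [physe_Q_pow h1, ← map_smul, ← map_add, ← h3, physe_fix_pow h.fix]
  have h7 : Λ ψ = ψ zer * Λ ((Ch T ^ m) vac) + Λ (Q T ((Ch T ^ m) ξ)) := by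
    conv_lhs => rw [h6, map_add, map_smul, smul_eq_mul]
  rw [LinearMap.comp_apply, h7, add_sub_cancel_right]

lemma physe_inh {T : ℕ} {ψ φ : Vec} (h : Fix T ψ φ) (N : ℕ) :
    φ = (Ch T ^ N) φ + ∑ i ∈ Finset.range N, (Ch T ^ i * ChA T) ψ := by
  induction N with
  | zero => simp
  | succ N ih =>
    have e : (Ch T ^ N) φ = (Ch T ^ (N + 1)) φ + (Ch T ^ N * ChA T) ψ := by
      conv_lhs => rw [h.inh, map_add]
      rw [pow_succ, Module.End.mul_apply, Module.End.mul_apply]
    rw [Finset.sum_range_succ, add_comm (∑ i ∈ Finset.range N, _), ← add_assoc, ← e]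
    exact ih

/-- the sum of the one-arrow components -/
noncomputable def physe_Lam (T : ℕ) : Vec →ₗ[ℂ] ℂ :=
  ζ • ∑ j ∈ Finset.range T, LinearMap.proj (sgl j)

lemma physe_Lam_apply (T : ℕ) (v : Vec) :
    physe_Lam T v = ζ * ∑ j ∈ Finset.range T, v (sgl j) := by
  simp [physe_Lam]

/-! ### a diagonal limit -/

lemma physe_diag_real {a : ℕ → ℕ → ℝ} {α : ℕ → ℝ} {L : ℝ} (h0 : ∀ i m, 0 ≤ a i m)
    (hm : ∀ i, Monotone (a i)) (hα : ∀ i, Tendsto (a i) atTop (𝓝 (α i)))
    (hL : Tendsto (fun N => ∑ i ∈ Finset.range N, α i) atTop (𝓝 L)) :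
    Tendsto (fun N => ∑ i ∈ Finset.range N, a i (N - 1 - i)) atTop (𝓝 L) := by
  have hle : ∀ i m, a i m ≤ α i := fun i m => (hm i).ge_of_tendsto (hα i) m
  have hα0 : ∀ i, 0 ≤ α i := fun i => (h0 i 0).trans (hle i 0)
  have hsum : HasSum α L := (hasSum_iff_tendsto_nat_of_nonneg hα0 L).2 hL
  have key := tendsto_tsum_of_dominated_convergence (𝓕 := atTop)
    (f := fun N i => if i < N then a i (N - 1 - i) else 0) (g := α) (bound := α) hsum.summable
    (fun i => by
      have h1 : Tendsto (fun N : ℕ => N - 1 - i) atTop atTop :=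
        (tendsto_sub_atTop_nat i).comp (tendsto_sub_atTop_nat 1)
      refine ((hα i).comp h1).congr' ?_
      filter_upwards [eventually_gt_atTop i] with N hN
      simp only [Function.comp, if_pos hN])
    (Eventually.of_forall fun N i => by
      by_cases hi : i < N
      · rw [if_pos hi, Real.norm_eq_abs, abs_of_nonneg (h0 _ _)]
        exact hle _ _
      · rw [if_neg hi, norm_zero]
        exact hα0 i)
  rw [hsum.tsum_eq] at key
  refine key.congr fun N => ?_
  rw [tsum_eq_sum (s := Finset.range N) fun i hi => if_neg (by simpa using hi)]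
  exact Finset.sum_congr rfl fun i hi => if_pos (Finset.mem_range.1 hi)

lemma physe_real_lim {u : ℕ → ℝ} {c : ℂ} (h : Tendsto (fun m => (u m : ℂ)) atTop (𝓝 c)) :
    Tendsto u atTop (𝓝 c.re) ∧ c = (c.re : ℂ) := by
  have h1 : Tendsto u atTop (𝓝 c.re) :=
    ((Complex.continuous_re.tendsto c).comp h).congr fun m => Complex.ofReal_re _
  exact ⟨h1, tendsto_nhds_unique h ((Complex.continuous_ofReal.tendsto _).comp h1)⟩

lemma physe_diag {a : ℕ → ℕ → ℝ} {b : ℕ → ℂ} {z L : ℂ} (h0 : ∀ i m, 0 ≤ a i m)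
    (hm : ∀ i, Monotone (a i)) (hb : ∀ i, Tendsto (fun m => z * (a i m : ℂ)) atTop (𝓝 (b i)))
    (hL : Tendsto (fun N => ∑ i ∈ Finset.range N, b i) atTop (𝓝 L)) :
    Tendsto (fun N => z * ((∑ i ∈ Finset.range N, a i (N - 1 - i) : ℝ) : ℂ)) atTop (𝓝 L) := by
  by_cases hz : z = 0
  · subst hz
    have hb0 : ∀ i, b i = 0 := fun i => by
      have := hb i
      simp only [zero_mul] at this
      exact tendsto_nhds_unique this tendsto_const_nhds
    simp only [hb0, Finset.sum_const_zero] at hL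
    simpa only [zero_mul] using hL
  · have h1 : ∀ i, Tendsto (fun m => (a i m : ℂ)) atTop (𝓝 (z⁻¹ * b i)) := fun i =>
      ((hb i).const_mul z⁻¹).congr fun m => by rw [inv_mul_cancel_left₀ hz]
    have h2 : Tendsto (fun N => ((∑ i ∈ Finset.range N, (z⁻¹ * b i).re : ℝ) : ℂ)) atTop
        (𝓝 (z⁻¹ * L)) := by
      refine (hL.const_mul z⁻¹).congr fun N => ?_
      rw [Finset.mul_sum, Complex.ofReal_sum]
      exact Finset.sum_congr rfl fun i _ => (physe_real_lim (h1 i)).2
    have h3 := physe_diag_real h0 hm (fun i => (physe_real_lim (h1 i)).1) (physe_real_lim h2).1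
    have h4 := ((Complex.continuous_ofReal.tendsto _).comp h3).const_mul z
    rw [← (physe_real_lim h2).2, mul_inv_cancel_left₀ hz] at h4
    exact h4

theorem phys : StmtPhys := by
  intro T ψ φ h
  refine ⟨fun hz => funext fun σ => ?_, ?_⟩
  · have := physe_vac_lim h (LinearMap.proj σ)
    simp only [hz, zero_mul] at this
    exact tendsto_nhds_unique this tendsto_const_nhds
  · have hb : ∀ i, Tendsto (fun m => ψ zer * (am T i m : ℂ)) atTop
        (𝓝 (physe_Lam T ((Ch T ^ i * ChA T) ψ))) := fun i => by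
      refine (physe_vac_lim h (physe_Lam T ∘ₗ (Ch T ^ i * ChA T))).congr fun m => ?_
      rw [← am_eq, LinearMap.comp_apply, physe_Lam_apply]
      rfl
    have h1 := physe_lim T (physe_Lam T) (fun N => (Ch T ^ N) φ) (physe_pow_supp h.s1)
      (ch_decay one_ne_zero h.s1 h.c1)
    have h2 := h1.const_sub (physe_Lam T φ)
    rw [sub_zero] at h2
    have hL : Tendsto (fun N => ∑ i ∈ Finset.range N, physe_Lam T ((Ch T ^ i * ChA T) ψ)) atTop
        (𝓝 (physe_Lam T φ)) := by
      refine h2.congr fun N => ?_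
      have e := congrArg (physe_Lam T) (physe_inh h N)
      rw [map_add, map_sum] at e
      rw [sub_eq_iff_eq_add']
      exact e
    have h3 := physe_diag (am_nonneg T) (am_mono T) hb hL
    rw [physe_Lam_apply] at h3
    refine h3.congr fun N => ?_
    rw [RT_eq]

end Pool.Agent.Lib.MP_4960b8_pr.QK
end

-- part Pool.Agent.Lib.MP_4960b8_pr.QK.AnaF
section

/-! Asymptotics of the solution of the functional equation. -/

namespace Pool.Agent.Lib.MP_4960b8_pr.QK

open Polynomial

lemma anaf_lin {T : ℕ} {A B : ℂ[X]} (hA : FE T A) (hB : FE T B) (a b : ℂ) :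
    FE T (C a * A + C b * B) := by
  refine ⟨(natDegree_add_le _ _).trans (max_le ((natDegree_C_mul_le _ _).trans hA.1)
    ((natDegree_C_mul_le _ _).trans hB.1)), fun x hx => ?_, fun x => ?_⟩
  · simp only [eval_add, eval_mul, eval_C]
    rw [hA.2.1 x hx, hB.2.1 x hx]
    ring
  · have h1 := hA.2.2 x
    have h2 := hB.2.2 x
    simp only [PhiH, eval_add, eval_mul, eval_C] at h1 h2 ⊢
    linear_combination a * h1 + b * h2

lemma anaf_eval (A : ℂ[X]) (x : ℂ) :
    (A.map (starRingEnd ℂ)).eval x = starRingEnd ℂ (A.eval (starRingEnd ℂ x)) := by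
  rw [eval_map, ← eval₂_at_apply, Complex.conj_conj]

lemma anaf_phi (T : ℕ) (A : ℂ[X]) (x : ℂ) :
    PhiH T (A.map (starRingEnd ℂ)) x = starRingEnd ℂ (PhiH T A (starRingEnd ℂ x)) := by
  simp only [PhiH, anaf_eval, map_mul, map_pow, map_sub, map_add, map_one, Complex.conj_conj,
    Complex.conj_ofReal]

lemma anaf_conj {T : ℕ} {A : ℂ[X]} (hA : FE T A) : FE T (A.map (starRingEnd ℂ)) := by
  refine ⟨natDegree_map_le.trans hA.1, fun x hx => ?_, fun x => ?_⟩
  · rw [anaf_eval, anaf_eval, hA.2.1 _ ((_root_.map_ne_zero _).2 hx), map_mul, map_pow,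
      Complex.conj_conj, map_inv₀]
  · have h := congrArg (starRingEnd ℂ) (hA.2.2 (starRingEnd ℂ x))
    simp only [map_sub, map_add, map_zero] at h
    simp only [anaf_phi, map_neg, map_mul, Complex.conj_I, neg_mul, neg_neg]
    linear_combination h

lemma anaf_real {T : ℕ} (hT : 1000 ≤ T) {A : ℂ[X]} (hA : FE T A) (hr : ∀ i, (A.coeff i).im = 0)
    (h0 : A.coeff 0 = 0) : A = 0 := by
  have h := th_rh hA hr
  rw [h0, Complex.zero_re] at h
  exact th_zero fun τ _ => h.zero hT τ

lemma anaf_im {T : ℕ} (hT : 1000 ≤ T) {A : ℂ[X]} (hA : FE T A) (h0 : (A.coeff 0).im = 0) (i : ℕ) :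
    (A.coeff i).im = 0 := by
  have e : ∀ i, (C (-Complex.I / 2) * A + C (Complex.I / 2) * A.map (starRingEnd ℂ)).coeff i =
      (A.coeff i).im := fun i => by
    rw [coeff_add, coeff_C_mul, coeff_C_mul, coeff_map]
    apply Complex.ext <;> simp <;> ring
  have h := anaf_real hT (anaf_lin hA (anaf_conj hA) (-Complex.I / 2) (Complex.I / 2))
    (fun i => by rw [e, Complex.ofReal_im]) (by rw [e, h0, Complex.ofReal_zero])
  have := e i
  rw [h, coeff_zero] at this
  exact Complex.ofReal_eq_zero.1 this.symm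

lemma anaf_c18 : 0 < c18 ∧ c18 ≤ 2 := by
  have h1 := Real.cos_le_one (Real.pi / 8)
  have h2 := Real.cos_pos_of_mem_Ioo (x := Real.pi / 8)
    ⟨by linarith [Real.pi_pos], by linarith [Real.pi_pos]⟩
  unfold c18
  constructor <;> linarith

theorem ana : StmtAna := by
  refine ⟨1 / 4000, 200, by norm_num, 160000, fun T hT Pl h _ => ?_⟩
  have hT' : 1000 ≤ T := by omega
  have z : Pl.coeff 0 = 0 → Pl = 0 := fun h0 =>
    anaf_real hT' h (anaf_im hT' h (by rw [h0, Complex.zero_im])) h0
  have t0 : (0 : ℝ) ≤ T := Nat.cast_nonneg T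
  have t1 : (8000 : ℝ) ≤ (T : ℝ) ^ (3 / 4 : ℝ) := by
    have e : (160000 : ℝ) ^ (3 / 4 : ℝ) = 8000 := by
      rw [show (160000 : ℝ) = 20 ^ (4 : ℝ) by norm_num, ← Real.rpow_mul (by norm_num)]
      norm_num
    rw [← e]
    exact Real.rpow_le_rpow (by norm_num) (by exact_mod_cast hT) (by norm_num)
  refine ⟨z, ?_⟩
  by_cases h0 : Pl.coeff 0 = 0
  · exact ⟨(T : ℝ) ^ (3 / 4 : ℝ), by linarith, by linarith, by simp [z h0]⟩
  have h1 := anaf_lin h h (Pl.coeff 0)⁻¹ 0
  rw [map_zero, zero_mul, add_zero] at h1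
  have c0 : (C (Pl.coeff 0)⁻¹ * Pl).coeff 0 = 1 := by rw [coeff_C_mul, inv_mul_cancel₀ h0]
  have hr := anaf_im hT' h1 (by rw [c0, Complex.one_im])
  have h2 := th_rh h1 hr
  rw [c0, Complex.one_re] at h2
  obtain ⟨b1, b2⟩ := h2.one hT'
  have t2 : (T : ℝ) ^ (3 / 4 : ℝ) ≤ (8 * T : ℝ) ^ (3 / 4 : ℝ) :=
    Real.rpow_le_rpow t0 (by linarith) (by norm_num)
  have t3 : (8 * T : ℝ) ^ (3 / 4 : ℝ) ≤ 8 * (T : ℝ) ^ (3 / 4 : ℝ) := by
    rw [Real.mul_rpow (by norm_num) t0]
    refine mul_le_mul_of_nonneg_right ?_ (by linarith)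
    exact Real.rpow_le_self_of_one_le (by norm_num) (by norm_num)
  obtain ⟨k1, k2⟩ := anaf_c18
  refine ⟨(1 + √2) * T * c18 - ((C (Pl.coeff 0)⁻¹ * Pl).coeff 1).re, by linarith, by linarith, ?_⟩
  have e : (((C (Pl.coeff 0)⁻¹ * Pl).coeff 1).re : ℂ) = (Pl.coeff 0)⁻¹ * Pl.coeff 1 := by
    rw [← coeff_C_mul]
    exact Complex.ext (Complex.ofReal_re _) (by rw [Complex.ofReal_im, hr])
  push_cast
  rw [e]
  field_simp

end Pool.Agent.Lib.MP_4960b8_pr.QK
end

-- part Pool.Agent.Lib.MP_4960b8_pr.QK.Main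
section

/-! Assembly. -/

namespace Pool.Agent.Lib.MP_4960b8_pr.QK

open Filter Topology

theorem final_of_good (hG : StmtGood) : Final := by
  obtain ⟨c, C, hc, T₀, h⟩ := ana
  have k0 : 0 < 2 * c18 := mul_pos two_pos anaf_c18.1
  refine comb ⟨c / (2 * c18), C / (2 * c18), div_pos hc k0, T₀, fun T hT => ?_⟩
  obtain ⟨ψ, φ, Pl, h1, h2, h3, h4, h5, h6⟩ := alg hG T
  obtain ⟨a1, k, a2, a3, a4⟩ := h T hT Pl h3 h5
  obtain ⟨p1, p2⟩ := phys T ψ φ h1
  have n0 : ψ zer ≠ 0 := fun e => h2.elim (fun b => b (p1 e)) fun b => b (a1 (h4.trans e))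
  refine ⟨k / (2 * c18), ?_, ?_, ?_⟩
  · have k1 : ((2 * c18 : ℝ) : ℂ) ≠ 0 := Complex.ofReal_ne_zero.2 k0.ne'
    have e : (ψ zer)⁻¹ * (ζ * ∑ j ∈ Finset.range T, φ (sgl j)) = ((k / (2 * c18) : ℝ) : ℂ) := by
      rw [a4, h4] at h6
      rw [Complex.ofReal_div, eq_div_iff k1, inv_mul_eq_div, div_mul_eq_mul_div, div_eq_iff n0]
      push_cast
      linear_combination h6
    have t := p2.const_mul (ψ zer)⁻¹
    simp only [inv_mul_cancel_left₀ n0, e] at t
    exact (Complex.continuous_re.tendsto _).comp t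
  · rw [div_mul_eq_mul_div]
    exact div_le_div_of_nonneg_right a2 k0.le
  · rw [div_mul_eq_mul_div]
    exact div_le_div_of_nonneg_right a3 k0.le

end Pool.Agent.Lib.MP_4960b8_pr.QK
end
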