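import Pool.Agent.Lib.MP_4960b8_pr.QK.AlgA

/-! Existence of the polynomial interpolant. -/

namespace Pool.Agent.Lib.MP_4960b8_pr.QK

open MvPolynomial

abbrev interpA0 := MvPolynomial (ℕ × Bool) ℂ
noncomputable def interpS : Submonoid interpA0 := Submonoid.closure (Set.range X)
/-- the Laurent ring -/
abbrev interpA := Localization interpS
noncomputable abbrev interpI : interpA0 →+* interpA := algebraMap interpA0 interpA

lemma interp_S_le : interpS ≤ nonZeroDivisors interpA0 := by
  refine Submonoid.closure_le.2 ?_
  rintro _ ⟨w, rfl⟩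
  exact mem_nonZeroDivisors_of_ne_zero (X_ne_zero w)

instance interp_dom : IsDomain interpA := IsLocalization.isDomain_localization interp_S_le

lemma interp_inj : Function.Injective interpI := IsLocalization.injective interpA interp_S_le

lemma interp_unitX (w : ℕ × Bool) : IsUnit (interpI (X w)) :=
  IsLocalization.map_units interpA (⟨X w, Submonoid.subset_closure ⟨w, rfl⟩⟩ : interpS)

lemma interp_units {R : Type} [CommRing R] [Algebra ℂ R] (g : ℕ × Bool → R)
    (hg : ∀ w, IsUnit (g w)) (y : interpS) : IsUnit (aeval g (y : interpA0)) := by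
  obtain ⟨y, hy⟩ := y
  induction hy using Submonoid.closure_induction with
  | mem x hx => obtain ⟨w, rfl⟩ := hx; simpa using hg w
  | one => simp
  | mul x y _ _ hx hy => simpa using hx.mul hy

noncomputable def interpLift {R : Type} [CommRing R] [Algebra ℂ R] (g : ℕ × Bool → R)
    (hg : ∀ w, IsUnit (g w)) : interpA →ₐ[ℂ] R :=
  IsLocalization.liftAlgHom (M := interpS) (f := aeval g) (interp_units g hg)

lemma interpLift_I {R : Type} [CommRing R] [Algebra ℂ R] (g : ℕ × Bool → R)
    (hg : ∀ w, IsUnit (g w)) (h : interpA0) : interpLift g hg (interpI h) = aeval g h := by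
  simp [interpLift, IsLocalization.liftAlgHom_apply]

lemma interpI_C (c : ℂ) : interpI (C c) = algebraMap ℂ interpA c := rfl

lemma interp_hom_I {R : Type} [CommRing R] [Algebra ℂ R] (ψ : interpA →ₐ[ℂ] R) (h : interpA0) :
    ψ (interpI h) = aeval (fun w => ψ (interpI (X w))) h := by
  induction h using MvPolynomial.induction_on with
  | C c => rw [interpI_C, AlgHom.commutes, aeval_C]
  | add p q hp hq => simp only [map_add, hp, hq]
  | mul_X p w hp => simp only [map_mul, hp, aeval_X]

lemma interp_sep (a : interpA) (h : ∀ ψ : interpA →ₐ[ℂ] ℂ, ψ a = 0) : a = 0 := by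
  obtain ⟨⟨p, s⟩, hps⟩ := IsLocalization.surj interpS a
  have hp : p = 0 := by
    refine MvPolynomial.funext_set (fun _ => ({0}ᶜ : Set ℂ))
      (fun _ => (Set.finite_singleton 0).infinite_compl) fun x hx => ?_
    have hx' : ∀ w, IsUnit (x w) := fun w => isUnit_iff_ne_zero.2 (hx w trivial)
    have := congrArg (interpLift x hx') hps
    rw [map_mul, h, zero_mul] at this
    have h2 := interpLift_I x hx' p
    rw [← this] at h2
    simpa [MvPolynomial.aeval_eq_eval] using h2.symm
  subst hp
  rw [map_zero] at hps
  exact (IsLocalization.map_units interpA s).mul_left_eq_zero.1 hps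

open Classical in
/-- substitution of the unit `u` for the variable `v` -/
noncomputable def interpSub (v : ℕ × Bool) (u : interpA) (hu : IsUnit u) :
    interpA →ₐ[ℂ] interpA :=
  interpLift (fun w => if w = v then u else interpI (X w)) fun w => by
    split_ifs
    · exact hu
    · exact interp_unitX w

lemma interpSub_self (v : ℕ × Bool) (u : interpA) (hu : IsUnit u) :
    interpSub v u hu (interpI (X v)) = u := by
  simp [interpSub, interpLift_I]

lemma interpSub_ne (v : ℕ × Bool) (u : interpA) (hu : IsUnit u) (w : ℕ × Bool) (h : w ≠ v) :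
    interpSub v u hu (interpI (X w)) = interpI (X w) := by
  simp [interpSub, interpLift_I, h]

lemma interpSub_dvd (v : ℕ × Bool) (u : interpA) (hu : IsUnit u) (h : interpA)
    (h0 : interpSub v u hu h = 0) : interpI (X v) - u ∣ h := by
  set J : Ideal interpA := Ideal.span {interpI (X v) - u}
  have key : (Ideal.Quotient.mk J).comp (interpSub v u hu).toRingHom = Ideal.Quotient.mk J := by
    refine IsLocalization.ringHom_ext interpS ?_
    refine MvPolynomial.ringHom_ext (fun c => ?_) fun w => ?_
    · show Ideal.Quotient.mk J (interpSub v u hu (interpI (C c))) =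
        Ideal.Quotient.mk J (interpI (C c))
      rw [interpI_C, AlgHom.commutes]
    · show Ideal.Quotient.mk J (interpSub v u hu (interpI (X w))) =
        Ideal.Quotient.mk J (interpI (X w))
      by_cases hw : w = v
      · subst hw
        rw [interpSub_self]
        symm
        exact Ideal.Quotient.eq.2 (Ideal.mem_span_singleton_self _)
      · rw [interpSub_ne _ _ _ _ hw]
  have := RingHom.congr_fun key h
  have h1 : Ideal.Quotient.mk J (interpSub v u hu h) = Ideal.Quotient.mk J h := this
  rw [h0, map_zero] at h1
  exact Ideal.mem_span_singleton.1 (Ideal.Quotient.eq_zero_iff_mem.1 h1.symm)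

/-- `u` is a unit which does not involve the variable `v` -/
def interpFree (v : ℕ × Bool) (u : interpA) : Prop := IsUnit u ∧
  ∀ φ : interpA →ₐ[ℂ] interpA, (∀ w, w ≠ v → φ (interpI (X w)) = interpI (X w)) → φ u = u

lemma interp_prod_dvd (v : ℕ × Bool) (U : Finset interpA) (hU : ∀ u ∈ U, interpFree v u)
    (h : interpA) (h0 : ∀ u (hu : u ∈ U), interpSub v u (hU u hu).1 h = 0) :
    ∏ u ∈ U, (interpI (X v) - u) ∣ h := by
  classical
  induction U using Finset.induction_on generalizing h with
  | empty => simp
  | insert a U ha ih =>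
    obtain ⟨h', rfl⟩ := interpSub_dvd v a _ h (h0 a (Finset.mem_insert_self _ _))
    rw [Finset.prod_insert ha]
    refine mul_dvd_mul_left _ (ih (fun u hu => hU u (Finset.mem_insert_of_mem hu)) h' ?_)
    intro u hu
    have h1 := h0 u (Finset.mem_insert_of_mem hu)
    rw [map_mul, map_sub, interpSub_self,
      (hU a (Finset.mem_insert_self _ _)).2 _ (interpSub_ne v u _)] at h1
    refine (mul_eq_zero.1 h1).resolve_left ?_
    intro h2
    exact ha (sub_eq_zero.1 h2 ▸ hu)

/-! ### the nodes -/

noncomputable def interpNa : Option (Bool × ℕ) → interpA0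
  | none => C (ζ ^ 3)
  | some (b, j) => C (ζ ^ 13) * X (j, b)
noncomputable def interpNb : Option (Bool × ℕ) → interpA0
  | none => 1
  | some (b, j) => C (ζ ^ 3) * X (j, !b)

lemma interp_unitC (k : ℕ) : IsUnit (interpI (C (ζ ^ k))) :=
  (isUnit_iff_ne_zero.2 (pow_ne_zero k zeta_ne)).map (algebraMap ℂ interpA)

lemma interp_unitNa (i : Option (Bool × ℕ)) : IsUnit (interpI (interpNa i)) := by
  rcases i with _ | ⟨b, j⟩
  · exact interp_unitC 3
  · rw [interpNa, map_mul]; exact (interp_unitC 13).mul (interp_unitX _)

lemma interp_unitNb (i : Option (Bool × ℕ)) : IsUnit (interpI (interpNb i)) := by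
  rcases i with _ | ⟨b, j⟩
  · simp [interpNb]
  · rw [interpNb, map_mul]; exact (interp_unitC 3).mul (interp_unitX _)

noncomputable def interpX (i : Option (Bool × ℕ)) : interpA :=
  interpI (interpNa i) * Ring.inverse (interpI (interpNb i))

lemma interpX_mul (i : Option (Bool × ℕ)) :
    interpX i * interpI (interpNb i) = interpI (interpNa i) := by
  rw [interpX, mul_assoc, Ring.inverse_mul_cancel _ (interp_unitNb i), mul_one]

lemma interpX_unit (i : Option (Bool × ℕ)) : IsUnit (interpX i) :=
  isUnit_of_mul_isUnit_left (by rw [interpX_mul]; exact interp_unitNa i)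

/-- no variable divides the determinant of two nodes -/
lemma interp_det (i j : Option (Bool × ℕ)) (hij : i ≠ j) (v : ℕ × Bool) :
    ∃ x : ℕ × Bool → ℂ, x v = 0 ∧
      eval x (interpNa j * interpNb i - interpNa i * interpNb j) ≠ 0 := by
  have hz := zeta_ne
  obtain ⟨m, c⟩ := v
  rcases i with _ | ⟨b, k⟩ <;> rcases j with _ | ⟨b', k'⟩
  · exact absurd rfl hij
  · refine ⟨fun w => if w.2 = c then 0 else 1, by simp, ?_⟩
    cases b' <;> cases c <;> simp [interpNa, interpNb, hz]
  · refine ⟨fun w => if w.2 = c then 0 else 1, by simp, ?_⟩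
    cases b <;> cases c <;> simp [interpNa, interpNb, hz]
  · by_cases hb : b = b'
    · subst hb
      have hk : k' ≠ k := fun h => hij (by rw [h])
      refine ⟨fun w => if (decide (w.1 = k) ^^ w.2) = (decide (m = k) ^^ c) then 0 else 1,
        by simp, ?_⟩
      generalize (decide (m = k) ^^ c) = e
      cases b <;> cases e <;> simp [interpNa, interpNb, hz, hk]
    · refine ⟨fun w => if w.2 = c then 0 else 1, by simp, ?_⟩
      cases b <;> cases b' <;> cases c <;> simp_all [interpNa, interpNb]

lemma interpX_inj (i j : Option (Bool × ℕ)) (hij : i ≠ j) : interpX i ≠ interpX j := by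
  intro h
  obtain ⟨x, -, hx⟩ := interp_det i j hij (0, true)
  apply hx
  have : interpNa j * interpNb i - interpNa i * interpNb j = 0 := by
    apply interp_inj
    rw [map_sub, map_mul, map_mul, ← interpX_mul i, ← interpX_mul j, h, map_zero]
    ring
  rw [this, map_zero]

lemma interp_z16 : algebraMap ℂ interpA ζ ^ 16 = 1 := by rw [← map_pow, h16, map_one]

lemma interpX_some (b : Bool) (m : ℕ) :
    algebraMap ℂ interpA ζ ^ 6 * interpI (X (m, !b)) * interpX (some (b, m)) =
      interpI (X (m, b)) := by
  have h := interpX_mul (some (b, m))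
  simp only [interpNa, interpNb, map_mul, interpI_C, map_pow] at h
  linear_combination (algebraMap ℂ interpA ζ) ^ 3 * h + interpI (X (m, b)) * interp_z16

lemma interpX_sq (j : Option (Bool × ℕ)) :
    (algebraMap ℂ interpA ζ ^ 6 * interpX j) ^ 2 ≠ 1 := by
  intro h
  rcases j with _ | ⟨b, m⟩
  · have h1 := interpX_mul none
    simp only [interpNa, interpNb, map_one, mul_one, interpI_C, map_pow] at h1
    rw [h1, ← pow_add, ← pow_mul, ← map_pow, ← map_one (algebraMap ℂ interpA)] at h
    have h2 := (algebraMap ℂ interpA).injective h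
    have h3 : ζ ^ 2 = ζ ^ 0 := by linear_combination h2 - ζ ^ 2 * h16
    exact zeta_pow_ne (by norm_num) (by norm_num) (by norm_num) h3
  · have h1 := interpX_some b m
    have h2 : (X (m, b) : interpA0) ^ 2 = X (m, !b) ^ 2 := by
      apply interp_inj
      rw [map_pow, map_pow, ← h1]
      linear_combination interpI (X (m, !b)) ^ 2 * h
    have h3 := congrArg (eval fun w : ℕ × Bool => if w.2 = b then (1 : ℂ) else 0) h2
    cases b <;> simp at h3

lemma interpX_free (v : ℕ × Bool) (j : Option (Bool × ℕ)) (hj : ∀ b, j ≠ some (b, v.1)) :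
    interpFree v (interpX j) := by
  refine ⟨interpX_unit j, fun φ hφ => ?_⟩
  have ha : φ (interpI (interpNa j)) = interpI (interpNa j) ∧
      φ (interpI (interpNb j)) = interpI (interpNb j) := by
    rcases j with _ | ⟨b, k⟩
    · simp [interpNa, interpNb, interpI_C]
    · have hk : ∀ c, (k, c) ≠ v := by
        rintro c rfl
        exact hj b rfl
      simp only [interpNa, interpNb, map_mul, interpI_C, AlgHom.commutes, hφ _ (hk _), and_self]
  have h := congrArg φ (interpX_mul j)
  rw [map_mul, ha.1, ha.2, ← interpX_mul j] at h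
  exact (interp_unitNb j).mul_right_cancel h

open Classical in
/-- the roots of `X i - X j` in the variable `(m, b)`, `i = some (b, m)` -/
noncomputable def interpU (b : Bool) (m : ℕ) (j : Option (Bool × ℕ)) : Finset interpA :=
  if j = some (!b, m) then {interpI (X (m, !b)), -interpI (X (m, !b))}
  else {algebraMap ℂ interpA ζ ^ 6 * interpI (X (m, !b)) * interpX j}

lemma interp_R_ne (w : ℕ × Bool) : interpI (X w) ≠ -interpI (X w) := by
  intro h
  have h2 : (algebraMap ℂ interpA 2) * interpI (X w) = 0 := by
    rw [map_ofNat]; linear_combination h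
  rcases mul_eq_zero.1 h2 with h3 | h3
  · exact two_ne_zero ((algebraMap ℂ interpA).injective (h3.trans (map_zero _).symm))
  · exact (interp_unitX w).ne_zero h3

lemma interp_unitZ : IsUnit (algebraMap ℂ interpA ζ ^ 6) := by
  rw [← map_pow]; exact interp_unitC 6

lemma interpU_prod (b : Bool) (m : ℕ) (j : Option (Bool × ℕ)) : ∃ e : interpA, IsUnit e ∧
    ∏ u ∈ interpU b m j, (interpI (X (m, b)) - u) =
      e * (interpX (some (b, m)) - interpX j) := by
  classical
  have h1 := interpX_some b m
  unfold interpU
  split_ifs with h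
  · subst h
    have h2 := interpX_some (!b) m
    rw [Bool.not_not] at h2
    refine ⟨algebraMap ℂ interpA ζ ^ 6 * interpI (X (m, !b)) * interpI (X (m, b)),
      (interp_unitZ.mul (interp_unitX _)).mul (interp_unitX _), ?_⟩
    rw [Finset.prod_pair (interp_R_ne _)]
    linear_combination -interpI (X (m, b)) * h1 + interpI (X (m, !b)) * h2
  · refine ⟨algebraMap ℂ interpA ζ ^ 6 * interpI (X (m, !b)),
      interp_unitZ.mul (interp_unitX _), ?_⟩
    rw [Finset.prod_singleton]
    linear_combination -h1

lemma interpU_free (b : Bool) (m : ℕ) (j : Option (Bool × ℕ)) (hj : j ≠ some (b, m)) :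
    ∀ u ∈ interpU b m j, interpFree (m, b) u := by
  have hne : (m, !b) ≠ (m, b) := by cases b <;> simp
  intro u hu
  unfold interpU at hu
  split_ifs at hu with h
  · simp only [Finset.mem_insert, Finset.mem_singleton] at hu
    rcases hu with rfl | rfl
    · exact ⟨interp_unitX _, fun φ hφ => hφ _ hne⟩
    · exact ⟨(interp_unitX _).neg, fun φ hφ => by rw [map_neg, hφ _ hne]⟩
  · rw [Finset.mem_singleton] at hu
    subst hu
    have hf := interpX_free (m, b) j (by
      intro c hc
      by_cases hcb : c = b
      · exact hj (by rw [hc, hcb])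
      · exact h (by rw [hc]; cases c <;> cases b <;> simp_all))
    refine ⟨(interp_unitZ.mul (interp_unitX _)).mul hf.1, fun φ hφ => ?_⟩
    rw [map_mul, map_mul, map_pow, AlgHom.commutes, hφ _ hne, hf.2 φ hφ]

lemma interpU_disj (b : Bool) (m : ℕ) (j j' : Option (Bool × ℕ)) (h : j ≠ j') :
    Disjoint (interpU b m j) (interpU b m j') := by
  have hR := interp_unitX (m, !b)
  have key : ∀ k, algebraMap ℂ interpA ζ ^ 6 * interpI (X (m, !b)) * interpX k ∉
      interpU b m (some (!b, m)) := by
    intro k hk
    simp only [interpU, if_true, Finset.mem_insert, Finset.mem_singleton] at hk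
    apply interpX_sq k
    apply (hR.pow 2).mul_left_cancel
    rcases hk with hk | hk
    · linear_combination (algebraMap ℂ interpA ζ ^ 6 * interpI (X (m, !b)) * interpX k +
        interpI (X (m, !b))) * hk
    · linear_combination (algebraMap ℂ interpA ζ ^ 6 * interpI (X (m, !b)) * interpX k -
        interpI (X (m, !b))) * hk
  by_cases h1 : j = some (!b, m)
  · subst h1
    rw [interpU.eq_def b m j', if_neg (Ne.symm h), Finset.disjoint_singleton_right]
    exact key j'
  · by_cases h2 : j' = some (!b, m)
    · subst h2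
      rw [interpU.eq_def b m j, if_neg h, Finset.disjoint_singleton_left]
      exact key j
    · rw [interpU, interpU, if_neg h1, if_neg h2, Finset.disjoint_singleton]
      intro h3
      exact interpX_inj j j' h ((interp_unitZ.mul hR).mul_left_cancel h3)

lemma interp_key (b : Bool) (m : ℕ) (J : Finset (Option (Bool × ℕ))) (hJ : some (b, m) ∉ J)
    (h : interpA) (h0 : ∀ j ∈ J, ∀ φ : interpA →ₐ[ℂ] interpA,
      φ (interpX (some (b, m))) = φ (interpX j) → φ h = 0) :
    ∏ j ∈ J, (interpX (some (b, m)) - interpX j) ∣ h := by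
  classical
  have hne : ∀ j ∈ J, j ≠ some (b, m) := fun j hj e => hJ (e ▸ hj)
  have hU : ∀ u ∈ J.biUnion (interpU b m), interpFree (m, b) u := by
    intro u hu
    obtain ⟨j, hj, hu⟩ := Finset.mem_biUnion.1 hu
    exact interpU_free b m j (hne j hj) u hu
  refine dvd_trans ?_ (interp_prod_dvd (m, b) _ hU h ?_)
  · rw [Finset.prod_biUnion fun j _ j' _ hjj => interpU_disj b m j j' hjj]
    refine Finset.prod_dvd_prod_of_dvd _ _ fun j _ => ?_
    obtain ⟨e, -, he⟩ := interpU_prod b m j
    exact ⟨e, by rw [he, mul_comm]⟩
  · intro u hu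
    obtain ⟨j, hj, hu'⟩ := Finset.mem_biUnion.1 hu
    refine h0 j hj _ ?_
    obtain ⟨e, he1, he⟩ := interpU_prod b m j
    have h1 := congrArg (interpSub (m, b) u (hU u hu).1) he
    rw [map_prod, Finset.prod_eq_zero hu', map_mul, map_sub] at h1
    · exact sub_eq_zero.1 ((mul_eq_zero.1 h1.symm).resolve_left (he1.map _).ne_zero)
    · rw [map_sub, interpSub_self, (hU u hu).2 _ (interpSub_ne _ _ _), sub_self]

/-- Newton interpolation over the Laurent ring -/
lemma interp_newton (y : Option (Bool × ℕ) → interpA) (T : Finset (Bool × ℕ))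
    (hy : ∀ i ∈ Finset.insertNone T, ∀ j ∈ Finset.insertNone T, ∀ ψ : interpA →ₐ[ℂ] ℂ,
      ψ (interpX i) = ψ (interpX j) → ψ (y i) = ψ (y j)) :
    ∃ g : Polynomial interpA, g.natDegree ≤ T.card ∧
      ∀ j ∈ Finset.insertNone T, g.eval (interpX j) = y j := by
  classical
  induction T using Finset.induction_on with
  | empty =>
    refine ⟨Polynomial.C (y none), by simp, fun j hj => ?_⟩
    rcases j with _ | t
    · simp
    · simp at hj
  | insert t T ht ih =>
    have hsub : ∀ j ∈ Finset.insertNone T, j ∈ Finset.insertNone (insert t T) := by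
      intro j hj
      rw [Finset.mem_insertNone] at hj ⊢
      exact fun a ha => Finset.mem_insert_of_mem (hj a ha)
    obtain ⟨g, hg, hgy⟩ := ih fun i hi j hj => hy i (hsub i hi) j (hsub j hj)
    obtain ⟨b, m⟩ := t
    have hnot : some (b, m) ∉ Finset.insertNone T := by simpa using ht
    obtain ⟨c, hc⟩ := interp_key b m _ hnot (y (some (b, m)) - g.eval (interpX (some (b, m)))) (by
      intro j hj φ hφ
      have h1 : φ (g.eval (interpX (some (b, m)))) = φ (y j) := by
        rw [← hgy j hj]
        have e1 := Polynomial.eval₂_at_apply (p := g) φ.toRingHom (interpX (some (b, m)))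
        have e2 := Polynomial.eval₂_at_apply (p := g) φ.toRingHom (interpX j)
        simp only [AlgHom.toRingHom_eq_coe, RingHom.coe_coe] at e1 e2
        rw [← e1, ← e2, hφ]
      rw [map_sub, h1]
      refine interp_sep _ fun ψ => ?_
      have := hy (some (b, m)) (by simp) j (hsub j hj) (ψ.comp φ) (by simp [hφ])
      rw [map_sub, sub_eq_zero]
      exact this)
    refine ⟨g + Polynomial.C c *
      ∏ j ∈ Finset.insertNone T, (Polynomial.X - Polynomial.C (interpX j)), ?_, fun j hj => ?_⟩
    · rw [Finset.card_insert_of_notMem ht]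
      refine (Polynomial.natDegree_add_le _ _).trans (max_le (hg.trans (Nat.le_succ _)) ?_)
      refine (Polynomial.natDegree_C_mul_le _ _).trans ?_
      refine (Polynomial.natDegree_prod_le _ _).trans ?_
      simp
    · rw [Polynomial.eval_add, Polynomial.eval_mul, Polynomial.eval_C, Polynomial.eval_prod]
      simp only [Polynomial.eval_sub, Polynomial.eval_X, Polynomial.eval_C]
      by_cases hj' : j ∈ Finset.insertNone T
      · rw [Finset.prod_eq_zero hj' (sub_self _), mul_zero, add_zero, hgy j hj']
      · have : j = some (b, m) := by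
          rcases j with _ | t
          · simp at hj'
          · simp only [Finset.some_mem_insertNone, Finset.mem_insert] at hj hj'
            rw [hj.resolve_right hj']
        subst this
        linear_combination -hc

/-- cancellation of monomials -/
lemma interp_cancel (D : interpA0) (hD : ∀ v, ¬ X v ∣ D) (f : interpA) (N : interpA0)
    (h : interpI D * f = interpI N) : ∃ F, f = interpI F := by
  obtain ⟨⟨p, s, hs⟩, hps⟩ := IsLocalization.surj interpS f
  have h1 : s * N = D * p := by
    apply interp_inj
    rw [map_mul, map_mul, ← h, ← hps]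
    ring
  have h2 : ∀ p, s * N = D * p → s ∣ p := by
    clear hps h1
    induction hs using Submonoid.closure_induction_left with
    | one => intro p _; exact one_dvd p
    | mul_left x hx y _ ih =>
      obtain ⟨v, rfl⟩ := hx
      intro p hp
      have : X v ∣ D * p := ⟨y * N, by rw [← hp, mul_assoc]⟩
      obtain ⟨p', rfl⟩ := (X_prime.dvd_or_dvd this).resolve_left (hD v)
      refine mul_dvd_mul_left _ (ih p' ?_)
      apply mul_left_cancel₀ (X_ne_zero (R := ℂ) v)
      linear_combination hp
  obtain ⟨F, rfl⟩ := h2 p h1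
  refine ⟨F, (IsLocalization.map_units interpA (⟨s, hs⟩ : interpS)).mul_right_cancel ?_⟩
  rw [hps, map_mul, mul_comm]

/-- the homogeneous interpolant with polynomial coefficients -/
lemma interp_poly (w : Option (Bool × ℕ) → interpA0) (T : Finset (Bool × ℕ)) (d : ℕ)
    (hd : T.card = d)
    (hw : ∀ i ∈ Finset.insertNone T, ∀ j ∈ Finset.insertNone T, ∀ x : ℕ × Bool → ℂ,
      (∀ v, x v ≠ 0) → ∀ c : ℂ, eval x (interpNa i) = c * eval x (interpNa j) →
      eval x (interpNb i) = c * eval x (interpNb j) → eval x (w i) = c ^ d * eval x (w j)) :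
    ∃ F : Fin (d + 1) → interpA0, ∀ i ∈ Finset.insertNone T,
      ∑ k, F k * interpNa i ^ k.1 * interpNb i ^ (d - k.1) = w i := by
  classical
  set y : Option (Bool × ℕ) → interpA :=
    fun i => interpI (w i) * Ring.inverse (interpI (interpNb i) ^ d) with hydef
  have hy : ∀ i, y i * interpI (interpNb i) ^ d = interpI (w i) := fun i => by
    rw [hydef]
    simp only
    rw [mul_assoc, Ring.inverse_mul_cancel _ ((interp_unitNb i).pow d), mul_one]
  obtain ⟨g, hg, hgy⟩ := interp_newton y T (by
    intro i hi j hj ψ hψ
    have hev : ∀ h, ψ (interpI h) = eval (fun v => ψ (interpI (X v))) h := fun h => by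
      rw [interp_hom_I, MvPolynomial.aeval_eq_eval]
    have hbi := ((interp_unitNb i).map ψ).ne_zero
    have hbj := ((interp_unitNb j).map ψ).ne_zero
    have ei := congrArg ψ (interpX_mul i)
    have ej := congrArg ψ (interpX_mul j)
    have fi := congrArg ψ (hy i)
    have fj := congrArg ψ (hy j)
    simp only [map_mul, map_pow] at ei ej fi fj
    have h1 := hw i hi j hj (fun v => ψ (interpI (X v)))
      (fun v => ((interp_unitX v).map ψ).ne_zero)
      (ψ (interpI (interpNb i)) / ψ (interpI (interpNb j)))
      (by rw [← hev, ← hev, ← ei, ← ej, hψ]; field_simp)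
      (by rw [← hev, ← hev]; field_simp)
    rw [← hev, ← hev, ← fi, ← fj, div_pow] at h1
    apply mul_right_cancel₀ (pow_ne_zero d hbi)
    rw [h1]
    field_simp)
  have hsum : ∀ i ∈ Finset.insertNone T, ∑ k : Fin (d + 1), g.coeff k *
      interpI (interpNa i) ^ k.1 * interpI (interpNb i) ^ (d - k.1) = interpI (w i) := by
    intro i hi
    rw [← hy, ← hgy i hi, Polynomial.eval_eq_sum_range' (n := d + 1) (by omega),
      Finset.sum_range, Finset.sum_mul]
    refine Finset.sum_congr rfl fun k _ => ?_
    have hk : interpI (interpNb i) ^ d =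
        interpI (interpNb i) ^ k.1 * interpI (interpNb i) ^ (d - k.1) := by
      rw [← pow_add]; congr 1; have := k.2; omega
    rw [← interpX_mul i, mul_pow, hk]
    ring
  have hcard : (Finset.insertNone T).card = d + 1 := by rw [Finset.card_insertNone, hd]
  let e := (Finset.equivFinOfCardEq hcard).symm
  let V : Matrix (Fin (d + 1)) (Fin (d + 1)) interpA0 :=
    Matrix.projVandermonde (fun i => interpNa (e i)) fun i => interpNb (e i)
  have hD : ∀ v, ¬ X v ∣ V.det := by
    intro v hv
    rw [Matrix.det_projVandermonde] at hv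
    obtain ⟨i, -, hv⟩ := (X_prime.dvd_finsetProd_iff _).1 hv
    obtain ⟨j, hj, r, hr⟩ := (X_prime.dvd_finsetProd_iff _).1 hv
    have hij : (e i : Option (Bool × ℕ)) ≠ e j := fun h =>
      (Finset.mem_Ioi.1 hj).ne (e.injective (Subtype.ext h))
    obtain ⟨x, hx, hx'⟩ := interp_det _ _ hij v
    apply hx'
    rw [hr, map_mul, eval_X, hx, zero_mul]
  have hV : (V.map interpI).mulVec (fun k => g.coeff k) = fun i => interpI (w (e i)) := by
    funext i
    rw [← hsum _ (e i).2]
    simp only [Matrix.mulVec, dotProduct, Matrix.map_apply, V, Matrix.projVandermonde_apply,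
      map_mul, map_pow, Fin.val_rev]
    refine Finset.sum_congr rfl fun k _ => ?_
    rw [show d + 1 - (k.1 + 1) = d - k.1 by omega]
    ring
  have hF : ∀ k : Fin (d + 1), ∃ F, g.coeff k = interpI F := by
    intro k
    refine interp_cancel V.det hD _ (V.adjugate.mulVec (fun i => w (e i)) k) ?_
    have h1 := congrArg (fun z => (V.adjugate.map interpI).mulVec z k) hV
    simp only [Matrix.mulVec_mulVec] at h1
    rw [← Matrix.map_mul, Matrix.adjugate_mul] at h1
    rw [RingHom.map_mulVec]
    refine Eq.trans ?_ h1
    simp [Matrix.mulVec, dotProduct, Matrix.one_apply, apply_ite interpI]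
  choose F hF using hF
  refine ⟨F, fun i hi => interp_inj ?_⟩
  rw [← hsum i hi, map_sum]
  refine Finset.sum_congr rfl fun k _ => ?_
  rw [map_mul, map_mul, map_pow, map_pow, hF]

/-! ### back to lists -/

/-- the coordinates of a list -/
def interpCo (l : List P) : ℕ × Bool → ℂ :=
  fun v => if v.2 then (l.getD v.1 0).1 else (l.getD v.1 0).2

lemma interp_node (l : List P) (i : Option (Bool × ℕ)) :
    node l i = (eval (interpCo l) (interpNa i), eval (interpCo l) (interpNb i)) := by
  rcases i with _ | ⟨_ | _, j⟩ <;> simp [node, interpNa, interpNb, interpCo, bar, aux, sh]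

lemma interp_range (l : List P) : (List.range l.length).map (fun j => l.getD j 0) = l := by
  refine List.ext_getElem (by simp) fun i h1 h2 => ?_
  simp [List.getD_eq_getElem?_getD, List.getElem?_eq_getElem h2]

lemma interp_polyF (L : List ((ℕ → P) → P)) (hL : ∀ g ∈ L, PolyP g) (f : interpA0) :
    PolyF fun x => eval (interpCo (L.map fun g => g x)) f := by
  induction f using MvPolynomial.induction_on with
  | C c => simpa using PolyF.const c
  | add p q hp hq => simpa using hp.add hq
  | mul_X p w hp =>
    simp only [map_mul, eval_X]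
    refine hp.mul ?_
    have hg : PolyP (L.getD w.1 fun _ => 0) := by
      by_cases h : w.1 < L.length
      · rw [List.getD_eq_getElem _ _ h]
        exact hL _ (List.getElem_mem h)
      · rw [List.getD_eq_default _ _ (not_lt.1 h)]
        exact PolyP.const 0
    have he : ∀ x, (L.map fun g => g x).getD w.1 0 = (L.getD w.1 fun _ => 0) x := fun x =>
      List.getD_map (f := fun g : (ℕ → P) → P => g x) L (fun _ => 0)
    simp only [interpCo, he]
    cases w.2
    · exact hg.2
    · exact hg.1

theorem interp : StmtInterp := by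
  classical
  intro n W hW hc
  have hw : ∀ i, ∃ q : interpA0, ∀ x : ℕ → P, W i ((List.range n).map x) =
      eval (fun v : ℕ × Bool => if v.2 then (x v.1).1 else (x v.1).2) q := by
    intro i
    obtain ⟨q, hq⟩ := hW i ((List.range n).map fun j x => x j) (by
      intro g hg
      obtain ⟨j, -, rfl⟩ := List.mem_map.1 hg
      exact PolyP.var j)
    refine ⟨q, fun x => ?_⟩
    have := hq x
    simp only [List.map_map, Function.comp_def] at this
    exact this
  choose w hw using hw
  have hw' : ∀ i (l : List P), l.length = n → W i l = eval (interpCo l) (w i) := by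
    intro i l hl
    have := hw i fun j => l.getD j 0
    rw [← hl, interp_range] at this
    exact this
  set T : Finset (Bool × ℕ) := Finset.univ ×ˢ Finset.range n with hT
  have hmem : ∀ i, i ∈ Finset.insertNone T ↔ NodeOK n i := by
    intro i
    rcases i with _ | ⟨b, j⟩ <;> simp [NodeOK, hT]
  obtain ⟨F, hF⟩ := interp_poly w T (2 * n) (by simp [hT]) (by
    intro i hi j hj x hx c h1 h2
    set l : List P := (List.range n).map fun j => (x (j, true), x (j, false)) with hl
    have hlen : l.length = n := by simp [hl]
    have hev : ∀ i, W i l = eval x (w i) := by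
      intro i
      rw [hl, hw]
      congr 2
      funext ⟨k, b⟩
      cases b <;> rfl
    have hnode : ∀ i, NodeOK n i → node l i = (eval x (interpNa i), eval x (interpNb i)) := by
      intro i hi
      rcases i with _ | ⟨b, k⟩
      · simp [node, interpNa, interpNb, bar, aux]
      · have hk : l.getD k 0 = (x (k, true), x (k, false)) := by
          have hk : k < n := hi
          simp [hl, List.getD_eq_getElem?_getD, hk]
        cases b <;> simp only [node, hk] <;> simp [interpNa, interpNb, bar, sh]
    by_cases hij : i = j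
    · subst hij
      have hb : eval x (interpNb i) ≠ 0 := by
        rcases i with _ | ⟨b, k⟩ <;> simp [interpNb, zeta_ne, hx]
      have hc1 : c = 1 := mul_right_cancel₀ hb (by rw [← h2, one_mul])
      rw [hc1, one_pow, one_mul]
    · rw [← hev, ← hev]
      refine hc i j ((hmem i).1 hi) ((hmem j).1 hj) hij l c hlen ?_ ?_
      · intro a ha
        obtain ⟨k, -, rfl⟩ := List.mem_map.1 ha
        exact ⟨hx _, hx _⟩
      · rw [hnode i ((hmem i).1 hi), hnode j ((hmem j).1 hj), h1, h2]
        rfl)
  refine ⟨fun l => if l.length = n + 1 then ∑ k : Fin (2 * n + 1),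
    eval (interpCo l.tail) (F k) * (l.headD 0).1 ^ k.1 * (l.headD 0).2 ^ (2 * n - k.1) else 0,
    ?_, fun l hl => if_neg hl, ?_, ?_⟩
  · intro L hL
    by_cases hlen : L.length = n + 1
    · obtain ⟨g, L, rfl⟩ := List.exists_cons_of_length_eq_add_one hlen
      have hg := hL g List.mem_cons_self
      simp only [List.length_cons] at hlen
      simp only [List.map_cons, List.tail_cons, List.headD_cons, List.length_cons,
        List.length_map, hlen, if_true]
      exact PolyF.sum _ fun k _ => ((interp_polyF L (fun g hg => hL g (List.mem_cons_of_mem _ hg))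
        (F k)).mul (hg.1.pow _)).mul (hg.2.pow _)
    · simp only [List.length_map, hlen, if_false]
      exact PolyF.const 0
  · intro l a c hl
    simp only [List.length_cons, hl, if_true, List.tail_cons, List.headD_cons, Prod.smul_fst,
      Prod.smul_snd, smul_eq_mul, Finset.mul_sum]
    refine Finset.sum_congr rfl fun k _ => ?_
    have hk : c ^ (2 * n) = c ^ k.1 * c ^ (2 * n - k.1) := by
      rw [← pow_add]; congr 1; have := k.2; omega
    rw [hk, mul_pow, mul_pow]
    ring
  · intro i hi l hl
    simp only [List.length_cons, hl, if_true, List.tail_cons, List.headD_cons]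
    rw [hw' i l hl, ← hF i ((hmem i).2 hi), map_sum, interp_node]
    simp only [map_mul, map_pow]

end Pool.Agent.Lib.MP_4960b8_pr.QK
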