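import Pool.Agent.Lib.MP_4960b8_pr.QK.GoodD
import Pool.Agent.Lib.MP_4960b8_pr.QK.Interp

-- part Pool.Agent.Lib.MP_4960b8_pr.QK.GoodB
section

/-! Compatibility of the node values and the extension. -/

namespace Pool.Agent.Lib.MP_4960b8_pr.QK

variable {n : ℕ} {Ψ : List P → Vec}

/-- difference of two node values -/
noncomputable def DD (Ψ : List P → Vec) (s s' : Bool) (l₁ : List P) (k : P) (l₂ : List P) (k' : P)
    (l₃ : List P) : Vec :=
  VV s Ψ l₁ k (l₂ ++ k' :: l₃) - VV s' Ψ (l₁ ++ k :: l₂) k' l₃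

def tb : Bool → P → P
  | true, k => k
  | false, k => bar k

lemma tb_tb (s : Bool) (k : P) : tb s (tb s k) = k := by cases s <;> rfl
lemma nd_eq (s : Bool) (k : P) : nd s k = sh (tb s k) := by cases s <;> rfl
lemma tb_smul (s : Bool) (c : ℂ) (k : P) : tb s (c • k) = c • tb s k := by cases s <;> rfl

lemma goodb_cancel {A : Op} {u w : Vec} {c : ℂ} (e : A u = c • w) (hc : c ≠ 0) (h : u = 0) :
    w = 0 := by
  rw [h, map_zero] at e
  exact (smul_eq_zero.1 e.symm).resolve_left hc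

lemma Good.up2 (h : Good n Ψ) {s s' : Bool} {l₁ : List P} {k k' : P} (q : List P) :
    ∀ l₂ l₃ : List P, l₁.length + l₂.length + q.length + l₃.length < n →
      (∀ m ∈ q, dd k' m ≠ 0) → DD Ψ s s' l₁ k l₂ k' (q ++ l₃) = 0 →
      DD Ψ s s' l₁ k (l₂ ++ q) k' l₃ = 0 := by
  induction q with
  | nil => intro l₂ l₃ _ _ e; simpa using e
  | cons b q ih =>
    intro l₂ l₃ hl hq e
    have e1 := h.X2 s l₁ k l₂ k' b (q ++ l₃) (by simp at hl ⊢; omega)
    have e2 := VV_X3 Ψ s' (l₁ ++ k :: l₂) k' b (q ++ l₃)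
    have e3 : (l₁ ++ k :: l₂).length + 1 = l₁.length + 1 + l₂.length + 1 := by simp; omega
    rw [e3] at e2
    have := ih (l₂ ++ [b]) l₃ (by simp at hl ⊢; omega) (fun m hm => hq m (by simp [hm]))
      (goodb_cancel (A := liftN (l₁.length + 1 + l₂.length + 1) (R k' b)) (by
        simp only [DD, List.cons_append, map_sub, e1, e2, smul_sub, List.append_assoc,
          List.nil_append]) (hq b (by simp)) e)
    simpa using this

lemma Good.dn2 (h : Good n Ψ) {s s' : Bool} {l₁ : List P} {k k' : P} (q : List P) :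
    ∀ l₂ l₃ : List P, l₁.length + l₂.length + q.length + l₃.length < n →
      (∀ m ∈ q, dd m k' ≠ 0) → DD Ψ s s' l₁ k (l₂ ++ q) k' l₃ = 0 →
      DD Ψ s s' l₁ k l₂ k' (q ++ l₃) = 0 := by
  induction q with
  | nil => intro l₂ l₃ _ _ e; simpa using e
  | cons b q ih =>
    intro l₂ l₃ hl hq e
    have e1 := h.X2 s l₁ k l₂ b k' (q ++ l₃) (by simp at hl ⊢; omega)
    have e2 := VV_X4 Ψ s' (l₁ ++ k :: l₂) b k' (q ++ l₃)
    have e3 : (l₁ ++ k :: l₂).length + 1 = l₁.length + 1 + l₂.length + 1 := by simp; omega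
    rw [e3] at e2
    have := ih (l₂ ++ [b]) l₃ (by simp at hl ⊢; omega) (fun m hm => hq m (by simp [hm]))
      (by simpa using e)
    refine goodb_cancel (A := liftN (l₁.length + 1 + l₂.length + 1) (R b k')) ?_ (hq b (by simp))
      this
    simp only [List.append_assoc, List.cons_append, List.nil_append] at e2
    simp only [DD, List.cons_append, map_sub, e1, e2, smul_sub, List.append_assoc,
      List.nil_append]

lemma Good.up1 (h : Good n Ψ) {s s' : Bool} {l₃ : List P} {k k' : P} (q : List P) :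
    ∀ l₁ l₂ : List P, l₁.length + l₂.length + q.length + l₃.length < n →
      (∀ m ∈ q, dd k m ≠ 0) → DD Ψ s s' l₁ k (q ++ l₂) k' l₃ = 0 →
      DD Ψ s s' (l₁ ++ q) k l₂ k' l₃ = 0 := by
  induction q with
  | nil => intro l₁ l₂ _ _ e; simpa using e
  | cons b q ih =>
    intro l₁ l₂ hl hq e
    have e1 := VV_X3 Ψ s l₁ k b (q ++ (l₂ ++ k' :: l₃))
    have e2 := h.X1 s' l₁ k b (q ++ l₂) k' l₃ (by simp at hl ⊢; omega)
    have := ih (l₁ ++ [b]) l₂ (by simp at hl ⊢; omega) (fun m hm => hq m (by simp [hm]))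
      (goodb_cancel (A := liftN (l₁.length + 1) (R k b)) (by
        simp only [DD, List.cons_append, map_sub, e1, e2, smul_sub, List.append_assoc,
          List.nil_append]) (hq b (by simp)) e)
    simpa using this

lemma Good.mk' (h : Good n Ψ) {s s' : Bool} {l₁ l₂ : List P} {k k' : P}
    (hl : l₁.length + l₂.length < n) (hk : kd k' ≠ 0) (e : DD Ψ s s' l₁ k l₂ k' [] = 0) :
    DD Ψ s (!s') l₁ k l₂ (bar k') [] = 0 := by
  have e1 := h.KT1 s l₁ k l₂ k' (by simp; omega)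
  have e2 := VV_KT2 Ψ s' (l₁ ++ k :: l₂) k'
  have e3 : (l₁ ++ k :: l₂).length + 1 = l₁.length + 1 + l₂.length + 1 := by simp; omega
  rw [e3] at e2
  exact goodb_cancel (A := liftN (l₁.length + 1 + l₂.length + 1) (K k')) (by
    simp only [DD, map_sub, e1, e2, smul_sub]) hk e

lemma goodb_m3 {s s' : Bool} {l₁ l₃ : List P} {k k' : P} (hk : dd k k' ≠ 0)
    (e : DD Ψ s s' l₁ k [] k' l₃ = 0) : DD Ψ s' s l₁ k' [] k l₃ = 0 := by
  have e1 := VV_X3 Ψ s l₁ k k' l₃
  have e2 := VV_X4 Ψ s' l₁ k k' l₃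
  refine goodb_cancel (A := liftN (l₁.length + 1) (R k k')) (c := -dd k k') ?_ (neg_ne_zero.2 hk) e
  simp only [DD, List.nil_append, map_sub, e1, e2]
  module

lemma goodb_base (k : P) (l : List P) : DD Ψ true true [] k [] k l = 0 := by
  simp only [DD, VV, Vp, List.nil_append, List.map_cons, List.prod_cons, up, lift_one, one_mul,
    R_self, lift_smul, List.singleton_append, smul_mul_assoc, LinearMap.smul_apply, smul_smul]
  rw [sub_eq_zero]; congr 1; ring

lemma Good.dd_gen (h : Good n Ψ) (s s' : Bool) {l₁ l₂ l₃ : List P} {k : P}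
    (hl : l₁.length + l₂.length + l₃.length < n) (h1 : G1 k)
    (h2 : ∀ m, m ∈ l₁ ∨ m ∈ l₂ ∨ m ∈ l₃ → G2 k m) :
    DD Ψ s s' l₁ k l₂ (tb s' (tb s k)) l₃ = 0 := by
  have tt : ∀ {l₁ l₂ l₃ : List P} {k : P}, l₁.length + l₂.length + l₃.length < n →
      (∀ m, m ∈ l₁ ∨ m ∈ l₂ ∨ m ∈ l₃ → G2 k m) → DD Ψ true true l₁ k l₂ k l₃ = 0 := by
    intro l₁ l₂ l₃ k hl h2
    have a1 := h.up2 (s := true) (s' := true) (l₁ := []) (k := k) (k' := k) (l₁ ++ l₂) [] l₃
      (by simpa using hl) (fun m hm => (h2 m (by simp at hm; tauto)).dd) (goodb_base k _)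
    simpa using h.up1 l₁ [] l₂ (by simp; omega) (fun m hm => (h2 m (Or.inl hm)).dd)
      (by simpa using a1)
  have tf : ∀ {l₁ l₂ l₃ : List P} {k : P}, l₁.length + l₂.length + l₃.length < n → G1 k →
      (∀ m, m ∈ l₁ ∨ m ∈ l₂ ∨ m ∈ l₃ → G2 k m) → DD Ψ true false l₁ k l₂ (bar k) l₃ = 0 := by
    intro l₁ l₂ l₃ k hl h1 h2
    have a1 := h.mk' (by simp; omega) h1.kd (tt (l₁ := l₁) (l₂ := l₂ ++ l₃) (l₃ := []) (k := k)
      (by simp; omega) fun m hm => h2 m (by simp at hm; tauto))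
    simpa using h.dn2 l₃ l₂ [] (by simp; omega)
      (fun m hm => (G2_bar.2 (h2 m (by tauto))).symm.dd) a1
  have ft : ∀ {l₁ l₂ l₃ : List P} {k : P}, l₁.length + l₂.length + l₃.length < n → G1 k →
      (∀ m, m ∈ l₁ ∨ m ∈ l₂ ∨ m ∈ l₃ → G2 k m) → DD Ψ false true l₁ k l₂ (bar k) l₃ = 0 := by
    intro l₁ l₂ l₃ k hl h1 h2
    have a1 := goodb_m3 (G1_bar.2 h1).dd_bar.1 (tf (l₁ := l₁) (l₂ := []) (l₃ := l₂ ++ l₃)
      (k := bar k) (by simp; omega) (G1_bar.2 h1) fun m hm => G2_bar.2 (h2 m (by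
        simp at hm; tauto)))
    simpa using h.up2 l₂ [] l₃ (by simp; omega)
      (fun m hm => (G2_bar.2 (h2 m (by tauto))).dd) a1
  cases s <;> cases s'
  · have a1 := h.mk' (by simp; omega) (G1_bar.2 h1).kd (ft (l₁ := l₁) (l₂ := l₂ ++ l₃)
      (l₃ := []) (k := k) (by simp; omega) h1 fun m hm => h2 m (by simp at hm; tauto))
    simpa [tb] using h.dn2 l₃ l₂ [] (by simp; omega) (fun m hm => (h2 m (by tauto)).symm.dd) a1
  · exact ft hl h1 h2
  · exact tf hl h1 h2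
  · exact tt hl h2

lemma PolyP.tb {g} (hg : PolyP g) (s : Bool) : PolyP fun x => tb s (g x) := by
  cases s
  exacts [hg.bar, hg]

lemma Good.dd_all (h : Good n Ψ) (s s' : Bool) (l₁ l₂ l₃ : List P) (k : P)
    (hl : l₁.length + l₂.length + l₃.length < n) :
    VV s Ψ l₁ k (l₂ ++ tb s' (tb s k) :: l₃) = VV s' Ψ (l₁ ++ k :: l₂) (tb s' (tb s k)) l₃ := by
  refine sub_eq_zero.1 (densG (F := fun k _ _ l₁ l₂ l₃ => DD Ψ s s' l₁ k l₂ (tb s' (tb s k)) l₃)
    (fun a _ _ M₁ M₂ M₃ ha _ _ p₁ p₂ p₃ => ?_) k 0 0 l₁ l₂ l₃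
    fun a b c m₁ m₂ m₃ e₁ e₂ e₃ hg => ?_)
  · exact (VV_poly h.pol s p₁ ha (alga_PL_append p₂ (alga_PL_cons ((ha.tb s).tb s') p₃))).sub
      (VV_poly h.pol s' (alga_PL_append p₁ (alga_PL_cons ha p₂)) ((ha.tb s).tb s') p₃)
  · refine h.dd_gen s s' (by omega) (hg.1 a (by simp)) fun m hm => ?_
    exact (List.pairwise_cons.1 hg.2).1 m (by simp; tauto)

lemma Good.dd_same (h : Good n Ψ) {k : P} {e : ℂ} (he : e ^ 2 = 1) (hk : bar k = e • k)
    (h0 : k.1 ≠ 0) (l₁ l₂ : List P) : VV true Ψ l₁ k l₂ = VV false Ψ l₁ k l₂ := by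
  have k2 : k.2 = e * k.1 := congrArg Prod.fst hk
  have e' : e = 1 ∨ e = -1 := sq_eq_one_iff.1 he
  have hkd : kd k ≠ 0 := by
    refine mul_ne_zero h0 ?_
    rw [k2, ← sub_mul]
    refine mul_ne_zero (sub_ne_zero.2 ?_) h0
    rcases e' with rfl | rfl
    · simpa using zeta_pow_ne (i := 3) (j := 0) (by norm_num) (by norm_num) (by norm_num)
    · rw [← h8]; exact zeta_pow_ne (by norm_num) (by norm_num) (by norm_num)
  have hfix : K k = kd k • 1 := K_fix k (by rcases e' with rfl | rfl <;> simp [k2])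
  have top : ∀ l, VV true Ψ l k [] - VV false Ψ l k [] = 0 := by
    intro l
    have e1 := VV_KT2 Ψ true l k
    rw [hfix, liftN_smul, liftN_one, LinearMap.smul_apply, Module.End.one_apply, hk, VV_homk,
      show 4 * (l.length + ([] : List P).length + 1) = 2 * (2 * (l.length + 1)) by simp; ring,
      pow_mul, he, one_pow, one_smul] at e1
    exact sub_eq_zero.2 (smul_right_injective _ hkd e1)
  have dn : ∀ l₂ l₁ : List P, (∀ m ∈ l₂, dd m k ≠ 0) →
      VV true Ψ l₁ k l₂ - VV false Ψ l₁ k l₂ = 0 := by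
    intro l₂
    induction l₂ with
    | nil => intro l₁ _; exact top l₁
    | cons a l₂ ih =>
      intro l₁ hq
      refine goodb_cancel (A := liftN (l₁.length + 1) (R a k)) ?_ (hq a (by simp))
        (ih (l₁ ++ [a]) fun m hm => hq m (by simp [hm]))
      simp only [map_sub, VV_X4, smul_sub]
  refine sub_eq_zero.1 (densG (F := fun _ _ _ l₁ l₂ _ => VV true Ψ l₁ k l₂ - VV false Ψ l₁ k l₂)
    (fun _ _ _ M₁ M₂ _ _ _ _ p₁ p₂ _ => ?_) 0 0 0 l₁ l₂ []
    fun a b c m₁ m₂ m₃ _ _ _ hg => dn m₂ m₁ fun m hm => G2.dd ?_)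
  · exact (VV_poly h.pol true p₁ (PolyP.const k) p₂).sub (VV_poly h.pol false p₁ (PolyP.const k) p₂)
  · have g := (hg.1 m (by simp [hm])).2.2
    have e32 : e ^ 32 = 1 := by rw [show 32 = 2 * 16 by rfl, pow_mul, he, one_pow]
    have p0 := pow_ne_zero 32 h0
    refine ⟨fun x => g ?_, fun x => g ?_⟩ <;>
      simpa only [k2, mul_pow, e32, one_mul, mul_left_inj' p0] using x

lemma goodb_zero (s : Bool) {k : P} (hk : (tb s k).1 + ζ * (tb s k).2 = 0) (l₁ l₂ : List P) :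
    VV s Ψ l₁ k l₂ = 0 ∧ fc (l₁ ++ k :: l₂) = 0 := by
  have h1 : lin (tb s k) = 0 := by rw [lin, hk, mul_zero]
  have h2 : dd (tb s k) aux = 0 := by
    simp only [dd, aux]
    have : ζ ^ 4 * ((tb s k).1 * ζ ^ 3) - (tb s k).2 * 1 = 0 := by
      linear_combination ζ ^ 7 * hk - (tb s k).2 * h8
    rw [this, zero_mul]
  have h3 : dd k aux = 0 := by
    cases s
    · rw [← dd_bar_aux]; exact h2
    · exact h2
  refine ⟨?_, by simp [fc, h3]⟩
  cases s
  · have : lin (bar k) = 0 := h1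
    simp [VV, Vm, this]
  · have : lin k = 0 := h1
    simp [VV, Vp, this]

/-- the data of the interpolation problem -/
noncomputable def WW (Ψ : List P → Vec) : Option (Bool × ℕ) → List P → Vec
  | none, l => fc l • emp (Ψ l)
  | some (s, j), l => VV s Ψ (l.take j) (l.getD j 0) (l.drop (j + 1))

lemma WW_eq (s : Bool) (l₁ : List P) (k : P) (l₂ : List P) :
    WW Ψ (some (s, l₁.length)) (l₁ ++ k :: l₂) = VV s Ψ l₁ k l₂ ∧
      node (l₁ ++ k :: l₂) (some (s, l₁.length)) = nd s k := by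
  cases s <;> simp [WW, node, nd]

lemma goodb_split {l : List P} {j : ℕ} (hj : j < l.length) :
    ∃ l₁ k l₂, l = l₁ ++ k :: l₂ ∧ l₁.length = j :=
  ⟨l.take j, l[j], l.drop (j + 1), by simp, by simp; omega⟩

lemma goodb_sh_inj {a b : P} {c : ℂ} (e : sh a = c • sh b) : a = c • b := by
  have e1 : ζ ^ 13 * a.1 = c * (ζ ^ 13 * b.1) := congrArg Prod.fst e
  have e2 : ζ ^ 3 * a.2 = c * (ζ ^ 3 * b.2) := congrArg Prod.snd e
  refine Prod.ext (mul_left_cancel₀ (pow_ne_zero 13 zeta_ne) ?_)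
    (mul_left_cancel₀ (pow_ne_zero 3 zeta_ne) ?_)
  · rw [e1]; simp; ring
  · rw [e2]; simp; ring

lemma Good.compat (h : Good n Ψ) (i i' : Option (Bool × ℕ)) (hi : NodeOK n i) (hi' : NodeOK n i')
    (hne : i ≠ i') (l : List P) (c : ℂ) (hl : l.length = n) (h0 : ∀ a ∈ l, a.1 ≠ 0 ∧ a.2 ≠ 0)
    (e : node l i = c • node l i') : WW Ψ i l = c ^ (2 * n) • WW Ψ i' l := by
  rcases i with _ | ⟨s, j⟩ <;> rcases i' with _ | ⟨s', j'⟩
  · exact absurd rfl hne
  · obtain ⟨l₁, k, l₂, rfl, rfl⟩ := goodb_split (hl ▸ hi' : j' < l.length)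
    rw [(WW_eq (Ψ := Ψ) s' l₁ k l₂).2, nd_eq] at e
    have e1 : ζ ^ 3 = c * (ζ ^ 13 * (tb s' k).1) := congrArg Prod.fst e
    have e2 : 1 = c * (ζ ^ 3 * (tb s' k).2) := congrArg Prod.snd e
    have hc : c ≠ 0 := by rintro rfl; simp at e2
    obtain ⟨z1, z2⟩ := goodb_zero (Ψ := Ψ) s' (k := k) (mul_left_cancel₀ hc (by
      linear_combination (-ζ ^ 3) * e1 - ζ ^ 14 * e2 - (c * (tb s' k).1 + c * ζ * (tb s' k).2) * h16
        + ζ ^ 6 * h8)) l₁ l₂
    rw [(WW_eq s' l₁ k l₂).1, z1, smul_zero, WW, z2, zero_smul]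
  · obtain ⟨l₁, k, l₂, rfl, rfl⟩ := goodb_split (hl ▸ hi : j < l.length)
    rw [(WW_eq (Ψ := Ψ) s l₁ k l₂).2, nd_eq] at e
    have e1 : ζ ^ 13 * (tb s k).1 = c * ζ ^ 3 := congrArg Prod.fst e
    have e2 : ζ ^ 3 * (tb s k).2 = c * 1 := congrArg Prod.snd e
    obtain ⟨z1, z2⟩ := goodb_zero (Ψ := Ψ) s (k := k) (by
      linear_combination ζ ^ 3 * e1 + ζ ^ 14 * e2 - ((tb s k).1 + ζ * (tb s k).2) * h16
        + c * ζ ^ 6 * h8) l₁ l₂
    rw [(WW_eq s l₁ k l₂).1, z1, WW, z2, zero_smul, smul_zero]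
  · rcases lt_trichotomy j j' with hj | rfl | hj
    · obtain ⟨p, k', l₃, rfl, rfl⟩ := goodb_split (hl ▸ hi' : j' < l.length)
      obtain ⟨l₁, k, l₂, rfl, rfl⟩ := goodb_split hj
      rw [(WW_eq (Ψ := Ψ) s' _ k' l₃).2] at e
      rw [(WW_eq s' _ k' l₃).1]
      rw [List.append_assoc, List.cons_append] at e ⊢
      rw [(WW_eq (Ψ := Ψ) s l₁ k _).2, nd_eq, nd_eq] at e
      rw [(WW_eq s l₁ k _).1]
      have ek : k = c • tb s (tb s' k') := by rw [← tb_smul, ← goodb_sh_inj e, tb_tb]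
      have a1 := h.dd_all s s' l₁ l₂ l₃ (tb s (tb s' k')) (by simp at hl; omega)
      rw [tb_tb, tb_tb] at a1
      rw [ek, VV_homk, a1, h.VV_hom1 s' l₁ _ l₂ k' l₃ c (by simp at hl ⊢; omega), smul_smul,
        ← pow_add]
      congr 2
      simp at hl ⊢; omega
    · obtain ⟨l₁, k, l₂, rfl, rfl⟩ := goodb_split (hl ▸ hi : j < l.length)
      rw [(WW_eq (Ψ := Ψ) s l₁ k l₂).2, (WW_eq (Ψ := Ψ) s' l₁ k l₂).2, nd_eq, nd_eq] at e
      rw [(WW_eq s l₁ k l₂).1, (WW_eq s' l₁ k l₂).1]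
      have ek := goodb_sh_inj e
      obtain ⟨k1, k2⟩ := h0 k (by simp)
      have hc : c ^ 2 = 1 ∧ bar k = c • k := by
        have f1 := congrArg Prod.fst ek
        have f2 := congrArg Prod.snd ek
        cases s <;> cases s' <;> simp only [tb, bar, Prod.smul_fst, Prod.smul_snd, smul_eq_mul]
          at f1 f2 <;> first
          | exact absurd rfl hne
          | exact ⟨mul_right_cancel₀ k1 (by linear_combination (-c) * f1 - f2), Prod.ext f1 f2⟩
          | exact ⟨mul_right_cancel₀ k1 (by linear_combination (-c) * f2 - f1), Prod.ext f2 f1⟩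
      have a1 := h.dd_same hc.1 hc.2 k1 l₁ l₂
      rw [pow_mul, hc.1, one_pow, one_smul]
      cases s <;> cases s' <;> simp [a1]
    · obtain ⟨p, k, l₃, rfl, rfl⟩ := goodb_split (hl ▸ hi : j < l.length)
      obtain ⟨l₁, k', l₂, rfl, rfl⟩ := goodb_split hj
      rw [(WW_eq (Ψ := Ψ) s _ k l₃).2] at e
      rw [(WW_eq s _ k l₃).1]
      rw [List.append_assoc, List.cons_append] at e ⊢
      rw [(WW_eq (Ψ := Ψ) s' l₁ k' _).2, nd_eq, nd_eq] at e
      rw [(WW_eq s' l₁ k' _).1]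
      have ek : k = c • tb s (tb s' k') := by rw [← tb_smul, ← goodb_sh_inj e, tb_tb]
      have a1 := h.dd_all s' s l₁ l₂ l₃ k' (by simp at hl; omega)
      rw [ek, VV_homk, ← a1, h.VV_hom2 s' l₁ k' l₂ _ l₃ c (by simp at hl ⊢; omega), smul_smul,
        ← pow_add]
      congr 2
      simp at hl ⊢; omega

lemma Good.WW_pol (h : Good n Ψ) (i : Option (Bool × ℕ)) : PolV (WW Ψ i) := by
  intro σ L hL
  have hM : alga_PL fun x => L.map fun g => g x := ⟨L, hL, fun _ => rfl⟩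
  rcases i with _ | ⟨s, j⟩
  · exact PolyV.smul hM.fc (PolyO.emp _ (hM.psi h.pol)) σ
  · exact VV_poly h.pol s (hM.take j) (hM.getD j) (hM.drop (j + 1)) σ

theorem Good.pre (h : Good n Ψ) : ∃ Ψ', Pre n Ψ' := by
  have key := fun σ : St => interp n (fun i l => WW Ψ i l σ) (fun i => h.WW_pol i σ)
    fun i i' hi hi' hne l c hl h0 e => congrFun (h.compat i i' hi hi' hne l c hl h0 e) σ
  choose F hF using key
  let Φ : List P → Vec := fun l σ => if l.length = n + 1 then F σ l else Ψ l σ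
  have lo : ∀ l : List P, l.length ≤ n → Φ l = Ψ l := fun l hl => by
    funext σ; simp only [Φ]; rw [if_neg (by omega)]
  have hi : ∀ (a : P) (l : List P), l.length = n → ∀ σ, Φ (a :: l) σ = F σ (a :: l) :=
    fun a l hl σ => by simp only [Φ]; rw [if_pos (by simp [hl])]
  have vv : ∀ s l₁ k l₂, (l₁ ++ l₂).length ≤ n → VV s Φ l₁ k l₂ = VV s Ψ l₁ k l₂ := by
    intro s l₁ k l₂ hl
    cases s <;> simp only [VV, Vp, Vm, lo _ hl]
  refine ⟨Φ, ⟨?_, ?_, ?_, ?_, ?_, ?_, ?_, ?_, ?_, ?_, ?_, ?_, ?_⟩, ?_, ?_, ?_⟩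
  · rw [lo _ (by simp), h.nil]
  · intro σ L hL
    by_cases e : L.length = n + 1
    · simpa only [Φ, List.length_map, e, if_true] using (hF σ).1 L hL
    · simpa only [Φ, List.length_map, e, if_false] using h.pol σ L hL
  · intro l hl; rw [lo l hl]; exact h.supp l hl
  · intro l hl; rw [lo l hl]; exact h.ch l hl
  · intro l₁ a l₂ c hl
    rw [lo _ hl, lo _ (by simpa using hl)]; exact h.hom l₁ a l₂ c hl
  · intro l₁ a b l₂ hl
    rw [lo _ hl, lo _ (by simpa using hl)]; exact h.ex l₁ a b l₂ hl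
  · intro l a hl
    rw [lo _ hl, lo _ (by simpa using hl)]; exact h.kt l a hl
  · intro l₁ c l₂ hl
    rw [lo _ hl, lo _ (by simp at hl ⊢; omega)]; exact h.r2 l₁ c l₂ hl
  · intro l₁ k l₂ hl
    rw [lo (_ :: _) hl, h.np l₁ k l₂ hl]; exact (vv true l₁ k l₂ (by simp at hl ⊢; omega)).symm
  · intro l₁ k l₂ hl
    rw [lo (_ :: _) hl, h.nm l₁ k l₂ hl]; exact (vv false l₁ k l₂ (by simp at hl ⊢; omega)).symm
  · intro l hl; rw [lo (_ :: l) hl, lo _ hl.le]; exact h.r0b l hl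
  · intro l hl; rw [lo _ (by simpa using hl), lo _ hl.le]; exact h.r0t l hl
  · intro l hl; rw [lo (_ :: l) hl, lo _ hl.le]; exact h.p5 l hl
  · intro l a c hl
    funext σ
    rw [Pi.smul_apply, hi _ _ hl, hi _ _ hl, (hF σ).2.2.1 l a c hl, smul_eq_mul]
  · intro s l₁ k l₂ hl
    funext σ
    have := (hF σ).2.2.2 (some (s, l₁.length)) (by simp at hl; simp only [NodeOK]; omega) _ hl
    rw [(WW_eq (Ψ := Ψ) s l₁ k l₂).2, (WW_eq s l₁ k l₂).1] at this
    rw [hi _ _ hl, this, vv s l₁ k l₂ (by simp at hl ⊢; omega)]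
  · intro l hl
    funext σ
    rw [hi _ _ hl, lo l hl.le]
    exact (hF σ).2.2.2 none trivial l hl

end Pool.Agent.Lib.MP_4960b8_pr.QK
end

-- part Pool.Agent.Lib.MP_4960b8_pr.QK.GoodE
section

/-! The exchange relation at the bottom, and the induction. -/

namespace Pool.Agent.Lib.MP_4960b8_pr.QK

variable {n : ℕ} {Ψ : List P → Vec}

open IdentAux

/-! ### covariant families -/

lemma goode_move {F : List P → Vec} {N j : ℕ}
    (cx : ∀ p x y r, (p ++ x :: y :: r).length = N →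
      liftN (p.length + j) (R x y) (F (p ++ x :: y :: r)) = dd x y • F (p ++ y :: x :: r))
    (m : P) (r : List P) : ∀ p, (p ++ m :: r).length = N → (∀ y ∈ r, dd m y ≠ 0) →
      F (p ++ m :: r) = 0 → F (p ++ r ++ [m]) = 0 := by
  induction r with
  | nil => intro p _ _ h; simpa using h
  | cons y r ih =>
    intro p hl hd h
    have h1 := cx p m y r hl
    rw [h, map_zero, eq_comm, smul_eq_zero] at h1
    have h2 := h1.resolve_left (hd y (by simp))
    have := ih (p ++ [y]) (by simpa using hl) (fun z hz => hd z (by simp [hz])) (by simpa using h2)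
    simpa using this

lemma goode_nodes {F : List P → Vec} {N j : ℕ}
    (cx : ∀ p x y r, (p ++ x :: y :: r).length = N →
      liftN (p.length + j) (R x y) (F (p ++ x :: y :: r)) = dd x y • F (p ++ y :: x :: r))
    (ck : ∀ q m, (q ++ [m]).length = N →
      liftN (q.length + j) (K m) (F (q ++ [m])) = kd m • F (q ++ [bar m]))
    (p r : List P) (k : P) (hl : (p ++ r).length + 1 = N) (hk : G1 k) (hr : ∀ y ∈ r, G2 k y)
    (h : ∀ m, sh m = k → F (p ++ m :: r) = 0) :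
    F (p ++ r ++ [bar (sh (bar k))]) = 0 ∧ F (p ++ r ++ [sh (bar k)]) = 0 := by
  have h1 : F (p ++ r ++ [bar (sh (bar k))]) = 0 :=
    goode_move cx _ r p (by simp at hl ⊢; omega)
      (fun y hy => (G2_bar.2 (G2_sh.2 (G2_bar.2 (hr y hy)))).dd) (h _ (sh_bar_sh (bar k)))
  refine ⟨h1, ?_⟩
  have h2 := ck (p ++ r) (bar (sh (bar k))) (by simp at hl ⊢; omega)
  rw [h1, map_zero, eq_comm, smul_eq_zero] at h2
  exact h2.resolve_left (G1_bar.2 (G1_sh.2 (G1_bar.2 hk))).kd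

/-- the nodes attached to the labels of the list -/
lemma goode_inner {F : List P → Vec} {N j : ℕ}
    (cx : ∀ p x y r, (p ++ x :: y :: r).length = N →
      liftN (p.length + j) (R x y) (F (p ++ x :: y :: r)) = dd x y • F (p ++ y :: x :: r))
    (ck : ∀ q m, (q ++ [m]).length = N →
      liftN (q.length + j) (K m) (F (q ++ [m])) = kd m • F (q ++ [bar m]))
    (h : ∀ p m r, (p ++ sh m :: m :: r).length = N → F (p ++ sh m :: m :: r) = 0)
    {q : List P} (hq : Gen q) (hl : q.length + 1 = N) (k : P) (hk : k ∈ q) :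
    F (q ++ [bar (sh (bar k))]) = 0 ∧ F (q ++ [sh (bar k)]) = 0 := by
  obtain ⟨p, r, rfl⟩ := List.append_of_mem hk
  have hr : ∀ y ∈ r, G2 k y :=
    (List.pairwise_cons.1 (hq.2.sublist (List.sublist_append_right _ _))).1
  have := goode_nodes cx ck (p ++ [k]) r k (by simpa using hl) (hq.1 k hk) hr fun m hm => by
    subst hm
    simpa using h p m r (by simp at hl ⊢; omega)
  simpa using this

/-! ### two labels -/

noncomputable def goode_A (a b : P) : ℂ :=
  a.1 * b.1 * ((ζ ^ 3 - ζ ^ 5) * (a.2 * b.2 + a.1 * b.1) + (-1 - ζ ^ 6) * a.2 * b.1 +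
    (-1 + ζ ^ 2) * a.1 * b.2)
noncomputable def goode_D (a b : P) : ℂ :=
  -ζ ^ 5 * (b.1 * a.2 ^ 2 * b.2 + a.1 * a.2 * b.2 ^ 2 + a.1 * a.2 * b.1 ^ 2 + a.1 ^ 2 * b.1 * b.2) +
    (-1 + ζ ^ 2 - ζ ^ 4 - ζ ^ 6) * a.1 * a.2 * b.1 * b.2
noncomputable def goode_c (a b : P) : P := (goode_A a b, goode_D a b)

lemma goode_c_smul (t : ℂ) (a b : P) : goode_c (t • a) b = t ^ 2 • goode_c a b := by
  refine Prod.ext ?_ ?_ <;>
    simp only [goode_c, goode_A, goode_D, Prod.smul_fst, Prod.smul_snd, smul_eq_mul] <;> ring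

lemma goode_c_aux (b : P) : goode_c (bar aux) b = dd b aux • ((0, 1) : P) := by
  refine Prod.ext ?_ ?_ <;>
    simp only [goode_c, goode_A, goode_D, Prod.smul_fst, Prod.smul_snd, smul_eq_mul, dd, bar, aux]
  · linear_combination (-b.1 ^ 2 * ζ ^ 3) * h8
  · linear_combination (-b.1 * b.2 * ζ ^ 3 - b.1 ^ 2 * ζ ^ 8 - b.2 ^ 2) * h8

lemma goode_c_sh (b : P) : goode_c (sh b) b = (kd b * lin b) • b := by
  refine Prod.ext ?_ ?_ <;>
    simp only [goode_c, goode_A, goode_D, Prod.smul_fst, Prod.smul_snd, smul_eq_mul, kd, lin, sh]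
  · linear_combination (-b.1 ^ 2 * b.2 ^ 2 * ζ ^ 3 + b.1 ^ 2 * b.2 ^ 2 * ζ ^ 5 +
      b.1 ^ 2 * b.2 ^ 2 * ζ ^ 11 - b.1 ^ 2 * b.2 ^ 2 * ζ ^ 13 - b.1 ^ 3 * b.2 * ζ ^ 2 +
      b.1 ^ 3 * b.2 * ζ ^ 4 + b.1 ^ 3 * b.2 * ζ ^ 6 - b.1 ^ 3 * b.2 * ζ ^ 8 +
      b.1 ^ 3 * b.2 * ζ ^ 10 - b.1 ^ 3 * b.2 * ζ ^ 12 - b.1 ^ 3 * b.2 * ζ ^ 14 -
      b.1 ^ 3 * b.2 * ζ ^ 18 + b.1 ^ 3 * b.2 * ζ ^ 20 + b.1 ^ 4 * ζ ^ 5 - b.1 ^ 4 * ζ ^ 7 -
      b.1 ^ 4 * ζ ^ 13 + b.1 ^ 4 * ζ ^ 15 + b.1 ^ 4 * ζ ^ 21 - b.1 ^ 4 * ζ ^ 23) * h8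
  · linear_combination (-b.1 * b.2 ^ 3 * ζ ^ 3 + b.1 * b.2 ^ 3 * ζ ^ 5 - b.1 * b.2 ^ 3 * ζ ^ 13 -
      b.1 ^ 2 * b.2 ^ 2 * ζ ^ 2 + b.1 ^ 2 * b.2 ^ 2 * ζ ^ 4 + b.1 ^ 2 * b.2 ^ 2 * ζ ^ 6 -
      b.1 ^ 2 * b.2 ^ 2 * ζ ^ 8 + b.1 ^ 2 * b.2 ^ 2 * ζ ^ 10 - b.1 ^ 2 * b.2 ^ 2 * ζ ^ 12 -
      b.1 ^ 2 * b.2 ^ 2 * ζ ^ 14 + b.1 ^ 3 * b.2 * ζ ^ 5 - b.1 ^ 3 * b.2 * ζ ^ 7 -
      b.1 ^ 3 * b.2 * ζ ^ 13 + b.1 ^ 3 * b.2 * ζ ^ 15 - b.1 ^ 3 * b.2 * ζ ^ 23) * h8

lemma goode_c_shb (b : P) : goode_c (sh (bar b)) b =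
    lin (bar b) • (ko (bar b) * (bar b).1, kd (bar b) * (bar b).2) := by
  refine Prod.ext ?_ ?_ <;>
    simp only [goode_c, goode_A, goode_D, Prod.smul_fst, Prod.smul_snd, smul_eq_mul, kd, ko, lin,
      sh, bar]
  · linear_combination (-b.1 * b.2 ^ 3 * ζ ^ 2 + b.1 * b.2 ^ 3 * ζ ^ 4 + b.1 * b.2 ^ 3 * ζ ^ 10 -
      b.1 * b.2 ^ 3 * ζ ^ 12 - b.1 * b.2 ^ 3 * ζ ^ 18 + b.1 * b.2 ^ 3 * ζ ^ 20 -
      b.1 ^ 2 * b.2 ^ 2 * ζ ^ 3 + 2 * b.1 ^ 2 * b.2 ^ 2 * ζ ^ 5 - b.1 ^ 2 * b.2 ^ 2 * ζ ^ 7 +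
      b.1 ^ 2 * b.2 ^ 2 * ζ ^ 11 - 2 * b.1 ^ 2 * b.2 ^ 2 * ζ ^ 13 + b.1 ^ 2 * b.2 ^ 2 * ζ ^ 15 +
      b.1 ^ 2 * b.2 ^ 2 * ζ ^ 21 - b.1 ^ 2 * b.2 ^ 2 * ζ ^ 23 + b.1 ^ 3 * b.2 * ζ ^ 6 -
      b.1 ^ 3 * b.2 * ζ ^ 8 - b.1 ^ 3 * b.2 * ζ ^ 14) * h8
  · linear_combination (b.1 * b.2 ^ 3 * ζ ^ 5 - b.1 * b.2 ^ 3 * ζ ^ 7 - b.1 * b.2 ^ 3 * ζ ^ 13 +
      b.1 * b.2 ^ 3 * ζ ^ 15 - b.1 * b.2 ^ 3 * ζ ^ 23 - b.1 ^ 2 * b.2 ^ 2 * ζ ^ 2 +
      b.1 ^ 2 * b.2 ^ 2 * ζ ^ 4 + b.1 ^ 2 * b.2 ^ 2 * ζ ^ 6 - b.1 ^ 2 * b.2 ^ 2 * ζ ^ 8 +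
      b.1 ^ 2 * b.2 ^ 2 * ζ ^ 10 - b.1 ^ 2 * b.2 ^ 2 * ζ ^ 12 - b.1 ^ 2 * b.2 ^ 2 * ζ ^ 14 -
      b.1 ^ 3 * b.2 * ζ ^ 3 + b.1 ^ 3 * b.2 * ζ ^ 5 - b.1 ^ 3 * b.2 * ζ ^ 13) * h8

lemma goode_c_ex (a b : P) :
    (w1 a b * (goode_c a b).1 + cr a b * (goode_c a b).2, dd a b * (goode_c a b).2) =
      dd a b • goode_c b a := by
  refine Prod.ext ?_ ?_ <;>
    simp only [goode_c, goode_A, goode_D, Prod.smul_fst, Prod.smul_snd, smul_eq_mul, w1, cr, dd]
  · linear_combination (-a.1 * a.2 ^ 3 * b.1 ^ 3 * b.2 * ζ ^ 3 +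
      a.1 * a.2 ^ 3 * b.1 ^ 3 * b.2 * ζ ^ 5 + a.1 * a.2 ^ 3 * b.1 ^ 4 -
      a.1 * a.2 ^ 3 * b.1 ^ 4 * ζ ^ 2 - a.1 * a.2 ^ 3 * b.1 ^ 4 * ζ ^ 8 +
      a.1 ^ 2 * a.2 ^ 2 * b.1 ^ 3 * b.2 + a.1 ^ 2 * a.2 ^ 2 * b.1 ^ 3 * b.2 * ζ ^ 6 +
      a.1 ^ 2 * a.2 ^ 2 * b.1 ^ 3 * b.2 * ζ ^ 8 - a.1 ^ 2 * a.2 ^ 2 * b.1 ^ 4 * ζ ^ 3 +
      a.1 ^ 2 * a.2 ^ 2 * b.1 ^ 4 * ζ ^ 5 + a.1 ^ 3 * a.2 * b.1 * b.2 ^ 3 * ζ ^ 3 -
      a.1 ^ 3 * a.2 * b.1 * b.2 ^ 3 * ζ ^ 5 - a.1 ^ 3 * a.2 * b.1 ^ 2 * b.2 ^ 2 -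
      a.1 ^ 3 * a.2 * b.1 ^ 2 * b.2 ^ 2 * ζ ^ 6 - a.1 ^ 3 * a.2 * b.1 ^ 2 * b.2 ^ 2 * ζ ^ 8 -
      a.1 ^ 4 * b.1 * b.2 ^ 3 + a.1 ^ 4 * b.1 * b.2 ^ 3 * ζ ^ 2 +
      a.1 ^ 4 * b.1 * b.2 ^ 3 * ζ ^ 8 + a.1 ^ 4 * b.1 ^ 2 * b.2 ^ 2 * ζ ^ 3 -
      a.1 ^ 4 * b.1 ^ 2 * b.2 ^ 2 * ζ ^ 5) * h8
  · ring

lemma goode_c_poly {g} (hg : PolyP g) (b : P) : PolyP fun x => goode_c (g x) b := by
  have c := PolyF.const
  refine ⟨(hg.1.mul (c _)).mul ((((c _).mul ((hg.2.mul (c _)).add (hg.1.mul (c _)))).add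
    (((c _).mul hg.2).mul (c _))).add (((c _).mul hg.1).mul (c _))), ?_⟩
  exact ((c _).mul ((((((c _).mul (hg.2.pow 2)).mul (c _)).add ((hg.1.mul hg.2).mul (c _))).add
    ((hg.1.mul hg.2).mul (c _))).add (((hg.1.pow 2).mul (c _)).mul (c _)))).add
    (((((c _).mul hg.1).mul hg.2).mul (c _)).mul (c _))

lemma goode_K_ins (k c : P) : lift (K k) * ins c = ins (ko k * c.1, kd k * c.2) := by
  refine ext2 fun v r s t => ?_
  cases r <;> cases s
  all_goals simp only [Module.End.mul_apply, lift_apply, K_o, K_p, K_m, ins_oo, ins_op, ins_om,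
    ins_po, ins_pp, ins_pm, ins_mo, ins_mp, ins_mm, mul_zero]
  all_goals ring

lemma goode_R_ins (a b c : P) :
    R a b * ins c = ins (w1 a b * c.1 + cr a b * c.2, dd a b * c.2) := by
  refine ext2 fun v r s t => ?_
  cases r <;> cases s
  all_goals simp only [Module.End.mul_apply, R_apply, Rf, ins_oo, ins_op, ins_om,
    ins_po, ins_pp, ins_pm, ins_mo, ins_mp, ins_mm, mul_zero, add_zero]
  · linear_combination (jn a b * ζ ^ 4 * c.1 * v t) * h8
  · linear_combination (ζ ^ 2 * w2 a b * ζ ^ 4 * c.1 * v t) * h8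
  · linear_combination (-ζ ^ 6 * w2 a b * ζ ^ 4 * c.1 * v t) * h8

lemma goode_two (h : Pre 1 Ψ) {b : P} (hb : G1 b) (a : P) :
    Ψ [a, b] = ins (goode_c a b) vac := by
  refine sub_eq_zero.1 (nodecount2 (f := fun a => Ψ [a, b] - ins (goode_c a b) vac)
    (((alga_PL_cons (PolyP.var 0) (alga_PL_const [b])).psi h.good.pol).sub
      (PolyO.ins (goode_c_poly (PolyP.var 0) b) _ fun _ => PolyF.const _)) 2 (fun c a => ?_)
    (l := [b]) ⟨by simpa using hb, by simp⟩ [bar aux] (by simp)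
    (fun e he => (special_ok e (by simp at he ⊢; tauto)).1)
    (fun e he => (special_ok e (by simp at he ⊢; tauto)).2) (by simp) ?_ ?_ a)
  · show Ψ (c • a :: [b]) - _ = _
    rw [h.hom0 [b] a c rfl, goode_c_smul, ins_smul, smul_sub]
    rfl
  · intro e he
    obtain rfl : e = bar aux := by simpa using he
    show Ψ (bar aux :: [b]) - _ = _
    rw [h.r0b [b] rfl, h.one, goode_c_aux, ins_smul, ins_zero_one, sub_eq_zero]
    simp [fc]
  · intro m hm
    obtain rfl : m = b := by simpa using hm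
    have h1 := h.nv true [] m [] rfl
    have h2 := h.nv false [] m [] rfl
    simp only [nd, VV, Vp, Vm, List.nil_append, List.map_nil, List.prod_nil, mul_one, up, down,
      lift_one, one_mul, liftN_one, h.good.nil, List.length_nil, Nat.zero_add] at h1 h2
    refine ⟨sub_eq_zero.2 ?_, sub_eq_zero.2 ?_⟩
    · rw [h1, goode_c_sh, ins_smul]
      rfl
    · rw [h2, goode_c_shb, ins_smul, ← goode_K_ins]
      rfl

lemma goode_ex_nil (h : Pre 1 Ψ) (a b : P) : R a b (Ψ [a, b]) = dd a b • Ψ [b, a] := by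
  refine sub_eq_zero.1 (densG
    (F := fun a b _ _ _ _ => R a b (Ψ [a, b]) - dd a b • Ψ [b, a])
    (fun a b _ _ _ _ ha hb _ _ _ _ =>
      (PolyO.R ha hb _ ((alga_PL_cons ha (alga_PL_single hb)).psi h.good.pol)).sub
        (((alga_PL_cons hb (alga_PL_single ha)).psi h.good.pol).smul (PolyF.dd ha hb)))
    a b a [] [] [] fun a b c _ _ _ _ _ _ hg => sub_eq_zero.2 ?_)
  rw [goode_two h (hg.1 b (by simp)), goode_two h (hg.1 a (by simp)), ← Module.End.mul_apply,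
    goode_R_ins, goode_c_ex, ins_smul]
  rfl

/-! ### the exchange relation at the bottom -/

lemma goode_R_lift (a b : P) (i : ℕ) (A : Op) (v : Vec) :
    liftN (i + 2) A (R a b v) = R a b (liftN (i + 2) A v) :=
  (LinearMap.congr_fun (R_lift a b (liftN i A)) v).symm

lemma goode_ex_gen (h : Pre n Ψ) {a b : P} {q : List P} (hg : Gen (a :: b :: q))
    (hl : q.length + 2 = n) (m : P) :
    R a b (Ψ (a :: b :: (q ++ [m]))) - dd a b • Ψ (b :: a :: (q ++ [m])) = 0 := by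
  set F : List P → Vec := fun l => R a b (Ψ (a :: b :: l)) - dd a b • Ψ (b :: a :: l) with hF
  have cx : ∀ p x y r, (p ++ x :: y :: r).length = q.length + 1 →
      liftN (p.length + 2) (R x y) (F (p ++ x :: y :: r)) = dd x y • F (p ++ y :: x :: r) := by
    intro p x y r e
    have h1 := h.ext a (b :: p) x y r (by simp at e ⊢; omega)
    have h2 := h.ext b (a :: p) x y r (by simp at e ⊢; omega)
    simp only [List.length_cons, List.cons_append] at h1 h2
    simp only [hF, map_sub, map_smul, goode_R_lift, h1, h2]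
    module
  have ck : ∀ p x, (p ++ [x]).length = q.length + 1 →
      liftN (p.length + 2) (K x) (F (p ++ [x])) = kd x • F (p ++ [bar x]) := by
    intro p x e
    have h1 := h.kt (a :: b :: p) x (by simp at e ⊢; omega)
    have h2 := h.kt (b :: a :: p) x (by simp at e ⊢; omega)
    simp only [List.length_cons, List.cons_append] at h1 h2
    simp only [hF, map_sub, map_smul, goode_R_lift, h1, h2]
    module
  have hq : Gen q := hg.sublist (by simp)
  have hp := List.pairwise_cons.1 hg.2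
  have hA := alga_PL_append (alga_PL_const q) (alga_PL_single (PolyP.var 0))
  refine nodecountR (f := fun m => F (q ++ [m]))
    ((PolyO.R (PolyP.const a) (PolyP.const b) _
      ((alga_PL_cons (PolyP.const a) (alga_PL_cons (PolyP.const b) hA)).psi h.good.pol)).sub
      (((alga_PL_cons (PolyP.const b) (alga_PL_cons (PolyP.const a) hA)).psi h.good.pol).smul
        (PolyF.const _))) (2 * (q.length + 2)) (fun c x => ?_) hg [aux] (by simp)
    (fun e he => (special_ok e (by simp at he ⊢; tauto)).1)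
    (fun e he => (special_ok e (by simp at he ⊢; tauto)).2) (by simp) ?_ ?_ m
  · have h1 := h.hom (a :: b :: q) x [] c (by simp; omega)
    have h2 := h.hom (b :: a :: q) x [] c (by simp; omega)
    simp only [List.length_cons, List.cons_append, List.length_nil, Nat.add_zero] at h1 h2
    simp only [hF, h1, h2, map_smul]
    module
  · intro e he
    obtain rfl : e = aux := by simpa using he
    have h1 := h.r0t (a :: b :: q) (by simp; omega)
    have h2 := h.r0t (b :: a :: q) (by simp; omega)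
    have h3 : R a b (Ψ (a :: b :: q)) = dd a b • Ψ (b :: a :: q) :=
      h.good.ex [] a b q (by simp; omega)
    simp only [List.cons_append] at h1 h2
    simp only [hF, h1, h2, map_smul, h3, alga_fc_cons]
    module
  · intro k hk
    rcases List.mem_cons.1 hk with rfl | hk
    · refine goode_nodes cx ck [] q k (by simp) (hg.1 k (by simp))
        (fun y hy => hp.1 y (by simp [hy])) ?_
      rintro m rfl
      have h1 := h.nv true [b] m q (by simp; omega)
      have h2 := h.r2 [b] m q (by simp; omega)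
      have h3 := LinearMap.congr_fun (cross1 m b) (Ψ (b :: q))
      simp only [nd, VV, Vp, List.cons_append, List.nil_append, List.map_cons, List.prod_cons, up,
        lift_one, one_mul, List.length_cons, List.length_nil, basic_liftN_succ, basic_liftN_zero,
        phi, List.prod_map_mul, Module.End.mul_apply, LinearMap.smul_apply] at h1 h2 h3
      simp only [hF, List.nil_append, h1, h2, map_smul, h3]
      module
    rcases List.mem_cons.1 hk with rfl | hk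
    · refine goode_nodes cx ck [] q k (by simp) (hg.1 k (by simp))
        (List.pairwise_cons.1 hp.2).1 ?_
      rintro m rfl
      have h1 := h.nv true [a] m q (by simp; omega)
      have h2 := h.r2 [a] m q (by simp; omega)
      have h3 := LinearMap.congr_fun (rot m a) (Ψ (a :: q))
      simp only [nd, VV, Vp, List.cons_append, List.nil_append, List.map_cons, List.prod_cons, up,
        lift_one, one_mul, List.length_cons, List.length_nil, basic_liftN_succ, basic_liftN_zero,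
        phi, List.prod_map_mul, Module.End.mul_apply] at h1 h2 h3
      simp only [hF, List.nil_append, h1, h2, map_smul, h3, dd_sh_right]
      module
    · refine goode_inner cx ck (fun p m r e => ?_) hq rfl k hk
      have h1 := h.r2 (a :: b :: p) m r (by simp at e ⊢; omega)
      have h2 := h.r2 (b :: a :: p) m r (by simp at e ⊢; omega)
      have h3 : R a b (Ψ (a :: b :: (p ++ r))) = dd a b • Ψ (b :: a :: (p ++ r)) :=
        h.good.ex [] a b (p ++ r) (by simp at e ⊢; omega)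
      simp only [List.cons_append, List.length_cons, List.map_cons, List.prod_cons] at h1 h2
      simp only [hF, h1, h2, map_smul, ← goode_R_lift, h3]
      module

theorem Pre.ex0 (h : Pre n Ψ) (a b : P) (l : List P) (hl : (a :: b :: l).length ≤ n + 1) :
    R a b (Ψ (a :: b :: l)) = dd a b • Ψ (b :: a :: l) := by
  rcases hl.lt_or_eq with hl | hl
  · exact h.good.ex [] a b l (Nat.lt_succ_iff.1 hl)
  rcases List.eq_nil_or_concat' l with rfl | ⟨q, m, rfl⟩
  · obtain rfl : n = 1 := by simp at hl; omega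
    exact goode_ex_nil h a b
  refine sub_eq_zero.1 (densG
    (F := fun a b m q _ _ => R a b (Ψ (a :: b :: (q ++ [m]))) - dd a b • Ψ (b :: a :: (q ++ [m])))
    (fun a b c M _ _ ha hb hc hM _ _ =>
      (PolyO.R ha hb _ ((alga_PL_cons ha (alga_PL_cons hb
        (alga_PL_append hM (alga_PL_single hc)))).psi h.good.pol)).sub
        (((alga_PL_cons hb (alga_PL_cons ha
          (alga_PL_append hM (alga_PL_single hc)))).psi h.good.pol).smul (PolyF.dd ha hb)))
    a b m q [] [] fun a b c p _ _ e _ _ hg => ?_)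
  exact goode_ex_gen h (hg.sublist (by simp)) (by simp at hl; omega) c

/-! ### the braid limit -/

noncomputable def goode_pr (l : List P) : ℂ := (l.map fun m => ζ ^ 13 * m.1 * m.2).prod

lemma goode_emp (i : ℕ) (A : Op) (v : Vec) : liftN (i + 1) A (emp v) = emp (liftN i A v) :=
  (LinearMap.congr_fun (ins1_lift _ (liftN i A)) v).symm

lemma goode_phi (m : P) :
    phi (0, 1) m = ζ ^ 13 * (sh m).1 * (sh m).2 * (ζ ^ 13 * m.1 * m.2) := by
  simp only [phi, dd, sh, bar]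
  linear_combination (m.1 ^ 2 * m.2 ^ 2 * ζ ^ 10 - m.1 ^ 2 * m.2 ^ 2 * ζ ^ 18 +
    m.1 ^ 2 * m.2 ^ 2 * ζ ^ 26 - m.1 ^ 2 * m.2 ^ 2 * ζ ^ 34) * h8

lemma goode_K_up (q : List P) : liftN q.length (K (0, 1)) * up (0, 1) q * E0 = 0 := by
  induction q with
  | nil => simpa only [List.length_nil, basic_liftN_zero, up, mul_one] using K_zero_one
  | cons m q ih =>
    rw [List.length_cons, basic_liftN_succ, up, mul_assoc, mul_assoc, stay_empty, mul_assoc,
      ← mul_assoc, ← mul_assoc, ← lift_mul, ← lift_mul, ih, lift_zero, zero_mul]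

lemma goode_E0_emp : E0 * emp = emp := by
  refine ext1 fun v r t => ?_
  cases r <;> simp only [Module.End.mul_apply, E0_o, E0_p, E0_m, emp_p, emp_m]

lemma goode_sh01 (h : Pre n Ψ) {l : List P} (hl : l.length = n) (h0 : Ψ (sh (0, 1) :: l) = 0) :
    Ψ ((0, 1) :: l) = 0 :=
  poly_unsmul (f := fun a => Ψ (a :: l)) (fun c a => h.hom0 l a c hl) (j := 3)
    (by simp [sh]) h0

lemma goode_p5_gen (h : Pre n Ψ) {q : List P} (hq : Gen q) (hl : q.length + 1 = n) (m : P) :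
    Ψ ((0, 1) :: (q ++ [m])) - goode_pr (q ++ [m]) • emp (Ψ (q ++ [m])) = 0 := by
  set F : List P → Vec := fun l => Ψ ((0, 1) :: l) - goode_pr l • emp (Ψ l) with hF
  have cx : ∀ p x y r, (p ++ x :: y :: r).length = n →
      liftN (p.length + 1) (R x y) (F (p ++ x :: y :: r)) = dd x y • F (p ++ y :: x :: r) := by
    intro p x y r e
    simp only [hF, map_sub, map_smul, goode_emp, h.ext (0, 1) p x y r e.le, h.good.ex p x y r e.le,
      goode_pr, List.map_append, List.map_cons, List.prod_append, List.prod_cons]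
    module
  have ck : ∀ p x, (p ++ [x]).length = n →
      liftN (p.length + 1) (K x) (F (p ++ [x])) = kd x • F (p ++ [bar x]) := by
    intro p x e
    have h1 := h.kt ((0, 1) :: p) x (by simp at e ⊢; omega)
    simp only [List.length_cons, List.cons_append] at h1
    simp only [hF, map_sub, map_smul, goode_emp, h1, h.good.kt p x e.le, goode_pr, List.map_append,
      List.map_cons, List.prod_append, List.prod_cons, bar_1, bar_2, List.map_nil]
    module
  have hA := alga_PL_append (alga_PL_const q) (alga_PL_single (PolyP.var 0))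
  have hz : ∀ e : P, e.1 * e.2 = 0 → Ψ (sh (0, 1) :: (q ++ [e])) = 0 → F (q ++ [e]) = 0 := by
    intro e h1 h2
    simp only [hF, goode_sh01 h (by simpa using hl) h2, goode_pr, List.map_append, List.map_cons,
      List.prod_append, List.prod_cons, mul_assoc, h1, mul_zero, zero_mul, zero_smul, sub_zero]
  refine nodecountR (f := fun m => F (q ++ [m]))
    (((alga_PL_cons (PolyP.const (0, 1)) hA).psi h.good.pol).sub
      ((PolyO.emp _ (hA.psi h.good.pol)).smul (hA.prod (fun _ m => ζ ^ 13 * m.1 * m.2)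
        fun _ hg => ((PolyF.const _).mul hg.1).mul hg.2)))
    (2 * (q.length + 1)) (fun c x => ?_) hq [aux, (0, 1), (1, 0)]
    (List.pairwise_cons.1 special_np).2
    (fun e he => (special_ok e (List.mem_cons_of_mem _ he)).1)
    (fun e he => (special_ok e (List.mem_cons_of_mem _ he)).2) (by simp; omega) ?_ ?_ m
  · have h1 := h.hom ((0, 1) :: q) x [] c (by simp; omega)
    have h2 := h.good.hom q x [] c (by simp; omega)
    simp only [List.length_cons, List.cons_append, List.length_nil, Nat.add_zero] at h1 h2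
    simp only [hF, h1, h2, map_smul, goode_pr, List.map_append, List.map_cons, List.prod_append,
      List.prod_cons, List.map_nil, Prod.smul_fst, Prod.smul_snd, smul_eq_mul]
    module
  · intro e he
    simp only [List.mem_cons, List.not_mem_nil, or_false] at he
    rcases he with rfl | rfl | rfl
    · have h1 := h.r0t ((0, 1) :: q) (by simp; omega)
      have h2 : dd (0, 1) aux = 1 := by simp [dd, aux]
      have h3 : ζ ^ 13 * aux.1 * aux.2 = 1 := by
        simp only [aux]; linear_combination h16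
      simp only [List.cons_append] at h1
      simp only [hF, h1, h.good.r0t q (by omega), h.good.p5 q (by omega), map_smul, alga_fc_cons,
        h2, goode_pr, List.map_append, List.map_cons, List.prod_append, List.prod_cons, h3,
        List.map_nil, List.prod_nil]
      module
    · refine hz _ (by simp) ?_
      have h1 := h.nv true q (0, 1) [] (by simpa using hl)
      simpa [nd, VV, Vp, kd] using h1
    · refine hz _ (by simp) ?_
      have h1 : Ψ (sh (0, 1) :: (q ++ [(1, 0)])) = Vm Ψ q (1, 0) [] :=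
        h.nv false q (1, 0) [] (by simpa using hl)
      have h2 : liftN (q.length + 1) (K (0, 1)) * lift (up (0, 1) q) * ins (0, 1) = 0 := by
        rw [basic_liftN_succ, ← lift_mul, ins_zero_one, ← mul_assoc, emp, ← ins1_lift, ← emp,
          mul_assoc]
        nth_rewrite 2 [← goode_E0_emp]
        rw [← mul_assoc _ E0, goode_K_up, zero_mul, mul_zero]
      rw [h1, Vm, List.append_nil, down, liftN_one, one_mul, show bar (1, 0) = (0, 1) from rfl, h2,
        LinearMap.zero_apply, smul_zero]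
  · refine goode_inner cx ck (fun p m r e => ?_) hq hl
    have h1 := h.r2 ((0, 1) :: p) m r (by simp at e ⊢; omega)
    simp only [List.cons_append, List.length_cons, List.map_cons, List.prod_cons] at h1
    simp only [hF, h1, h.good.r2 p m r e.le, h.good.p5 (p ++ r) (by simp at e ⊢; omega), map_smul,
      goode_emp, goode_phi, goode_pr, List.map_append, List.map_cons, List.prod_append,
      List.prod_cons]
    module

theorem Pre.p5 (h : Pre n Ψ) (l : List P) (hl : l.length < n + 1) :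
    Ψ ((0, 1) :: l) = (l.map fun m => ζ ^ 13 * m.1 * m.2).prod • emp (Ψ l) := by
  rcases (Nat.lt_succ_iff.1 hl).lt_or_eq with hl | hl
  · exact h.good.p5 l hl
  rcases List.eq_nil_or_concat' l with rfl | ⟨q, m, rfl⟩
  · rw [h.one, h.good.nil, List.map_nil, List.prod_nil, one_smul]
  refine sub_eq_zero.1 (densG
    (F := fun _ _ m q _ _ => Ψ ((0, 1) :: (q ++ [m])) - goode_pr (q ++ [m]) • emp (Ψ (q ++ [m])))
    (fun _ _ c M _ _ _ _ hc hM _ _ => ?_) m m m q [] [] fun a b c p _ _ e _ _ hg => ?_)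
  · have hA := alga_PL_append hM (alga_PL_single hc)
    exact ((alga_PL_cons (PolyP.const (0, 1)) hA).psi h.good.pol).sub
      ((PolyO.emp _ (hA.psi h.good.pol)).smul (hA.prod (fun _ m => ζ ^ 13 * m.1 * m.2)
        fun _ hg => ((PolyF.const _).mul hg.1).mul hg.2))
  · exact goode_p5_gen h (hg.sublist ((((List.sublist_append_left _ _).cons c).cons b).cons a))
      (by simp at hl; omega) c

/-! ### the induction -/

lemma goode_step (h : Pre n Ψ) : Good (n + 1) Ψ where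
  nil := h.good.nil
  pol := h.good.pol
  supp l hl := (h.supp l hl).1
  ch l hl := (h.supp l hl).2
  hom := h.hom
  ex l₁ a b l₂ hl := by
    cases l₁ with
    | nil => exact h.ex0 a b l₂ hl
    | cons c p => exact h.ext c p a b l₂ (Nat.le_of_succ_le_succ hl)
  kt := h.kt
  r2 := h.r2
  np l₁ k l₂ hl := by
    rcases (Nat.lt_succ_iff.1 hl).lt_or_eq with hl | hl
    exacts [h.good.np l₁ k l₂ hl, h.nv true l₁ k l₂ hl]
  nm l₁ k l₂ hl := by
    rcases (Nat.lt_succ_iff.1 hl).lt_or_eq with hl | hl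
    exacts [h.good.nm l₁ k l₂ hl, h.nv false l₁ k l₂ hl]
  r0b l hl := by
    rcases (Nat.lt_succ_iff.1 hl).lt_or_eq with hl | hl
    exacts [h.good.r0b l hl, h.r0b l hl]
  r0t := h.r0t
  p5 := h.p5

lemma goode_base : Good 0 fun _ => vac where
  nil := rfl
  pol _ _ _ := PolyF.const _
  supp l hl := by rw [Nat.le_zero.1 hl]; exact supp_vac
  ch l _ := hasCh_vac _
  hom _ _ _ _ hl := by simp at hl
  ex _ _ _ _ hl := by simp at hl
  kt _ _ hl := by simp at hl
  r2 _ _ _ hl := by simp at hl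
  np _ _ _ hl := absurd hl (Nat.not_lt_zero _)
  nm _ _ _ hl := absurd hl (Nat.not_lt_zero _)
  r0b _ hl := absurd hl (Nat.not_lt_zero _)
  r0t _ hl := absurd hl (Nat.not_lt_zero _)
  p5 _ hl := absurd hl (Nat.not_lt_zero _)

theorem good : StmtGood := by
  intro n
  induction n with
  | zero => exact ⟨_, goode_base⟩
  | succ n ih =>
    obtain ⟨Ψ, h⟩ := ih
    obtain ⟨Ψ', h'⟩ := h.pre
    exact ⟨Ψ', goode_step h'⟩

end Pool.Agent.Lib.MP_4960b8_pr.QK
end
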