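import Pool.Agent.Lib.MP_4960b8_pr.QK.CombA
import Pool.Agent.Lib.MP_4960b8_pr.QK.AlgA

-- part Pool.Agent.Lib.MP_4960b8_pr.QK.PhysB
section

/-! The column operators are the transfer matrices of the vertex model. -/

namespace Pool.Agent.Lib.MP_4960b8_pr.QK

open SAW

lemma box_finite (a b : ℤ) (T : ℕ) : (box a b T).Finite := by
  refine (((Set.finite_Ico a b).prod ((Set.finite_Ico (0 : ℤ) T).prod
    (Set.finite_Icc (1 : ℤ) 2))).image
      fun x => (⟨x.2.2 - x.1 - x.2.1, x.1, x.2.1⟩ : V)).subset ?_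
  rintro v ⟨hv, h1, h2, h3, h4⟩
  refine ⟨(v.j, v.k, v.i + v.j + v.k), ⟨⟨h3, h4⟩, ⟨h1, h2⟩, ?_⟩, ?_⟩
  · unfold Valid at hv
    constructor <;> simp only <;> omega
  · ext <;> simp only
    omega
noncomputable def boxF (a b : ℤ) (T : ℕ) : Finset V := (box_finite a b T).toFinset
/-- the row edge on the left of the rhombus in column `j`, row `k` -/
def eW (j k : ℤ) : V := ed ⟨2 - j - k, j - 1, k⟩ ⟨2 - j - k, j, k⟩
/-- the vertical edge below the rhombus in column `j`, row `k` -/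
def eS (j k : ℤ) : V := ed ⟨2 - j - k, j, k - 1⟩ ⟨2 - j - k, j, k⟩
noncomputable def ChB (T : ℕ) (b : S) : Op :=
  ((dd hn aux)⁻¹ ^ T) • (prj b * down aux (List.replicate T hn))
noncomputable def tr (T : ℕ) (β : ℕ → S) : ℕ → Op
  | 0 => 1
  | N + 1 => ChB T (β N) * tr T β N
open Classical in
noncomputable def dl (σ : St) : Vec := fun τ => if τ = σ then 1 else 0

lemma mem_boxF {a b : ℤ} {T : ℕ} {v : V} :
    v ∈ boxF a b T ↔ Valid v ∧ 0 ≤ v.k ∧ v.k < T ∧ a ≤ v.j ∧ v.j < b := by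
  unfold boxF
  rw [Set.Finite.mem_toFinset]
  rfl
/-- the boundary edges of a box -/
lemma box_bdry {a b : ℤ} {T : ℕ} {v c : V} (hv : v ∈ boxF a b T) (hc : c ∉ boxF a b T)
    (h : Adj v c) :
    (c.j = a - 1 ∧ v.j = a ∧ c.k = v.k ∧ ed v c = eW a v.k) ∨
    (c.j = b ∧ v.j = b - 1 ∧ c.k = v.k ∧ ed v c = eW b v.k) ∨
    (c.k = -1 ∧ v.k = 0 ∧ c.j = v.j ∧ ed v c = eS v.j 0) ∨
    (c.k = T ∧ v.k = T - 1 ∧ c.j = v.j ∧ ed v c = eS v.j T) := by
  have hc' := h.valid_right
  rw [mem_boxF] at hv hc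
  obtain ⟨-, h1, h2, h3, h4⟩ := hv
  simp only [hc', true_and] at hc
  simp only [ed, eW, eS, V.ext_iff]
  rcases adj_iff.1 h with ⟨h0, ⟨e1, e2, e3⟩ | ⟨e1, e2, e3⟩ | ⟨e1, e2, e3⟩⟩ |
    ⟨h0, ⟨e1, e2, e3⟩ | ⟨e1, e2, e3⟩ | ⟨e1, e2, e3⟩⟩
  · exact absurd ⟨by omega, by omega, by omega, by omega⟩ hc
  · exact Or.inr (Or.inl (by omega))
  · exact Or.inr (Or.inr (Or.inr (by omega)))
  · exact absurd ⟨by omega, by omega, by omega, by omega⟩ hc
  · exact Or.inl (by omega)
  · exact Or.inr (Or.inr (Or.inl (by omega)))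

/-! ### scalars -/


lemma physb_ph1 : ph 1 = ζ := by
  unfold ph ζ; congr 1; push_cast; ring
lemma physb_ph0 : ph 0 = 1 := by unfold ph; simp
lemma physb_ph2 : ph 2 = ζ ^ 2 := by
  rw [show (2 : ℤ) = 1 + 1 from rfl, ph_add, physb_ph1]; ring
lemma physb_phm1 : ph (-1) = -ζ ^ 7 := by
  have h := ph_add 1 (-1)
  rw [show (1 : ℤ) + -1 = 0 from rfl, physb_ph0, physb_ph1] at h
  linear_combination ζ ^ 7 * h + ph (-1) * h8
lemma physb_phm2 : ph (-2) = -ζ ^ 6 := by
  rw [show (-2 : ℤ) = -1 + -1 from rfl, ph_add, physb_phm1]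
  linear_combination ζ ^ 6 * h8
lemma physb_hx : (xc : ℂ) * (ζ - ζ ^ 7) = 1 := by
  have h := ph_one
  rw [physb_ph1, physb_phm1] at h
  linear_combination h

lemma physb_dd : dd hn aux = 2 * ζ * (ζ - ζ ^ 7) := by
  simp only [dd, hn, aux]; linear_combination (-ζ ^ 2 + ζ ^ 8) * h8
lemma physb_di : (dd hn aux)⁻¹ = -(xc * ζ ^ 7) / 2 := by
  refine inv_eq_of_mul_eq_one_right ?_
  rw [physb_dd]
  linear_combination physb_hx - xc * (ζ - ζ ^ 7) * h8
lemma physb_edd : (dd hn aux)⁻¹ * dd hn aux = 1 := by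
  rw [physb_di, physb_dd]
  linear_combination physb_hx - xc * (ζ - ζ ^ 7) * h8
lemma physb_evv : (dd hn aux)⁻¹ * vv hn aux = xc ^ 2 := by
  have h : vv hn aux * (ζ - ζ ^ 7) = 2 * ζ := by
    simp only [vv, hn, aux]; linear_combination (-2 * ζ + ζ ^ 3 - ζ ^ 5 + ζ ^ 7) * h8
  have h' : vv hn aux = 2 * ζ * xc := by linear_combination xc * h - vv hn aux * physb_hx
  rw [physb_di, h']
  linear_combination -(xc : ℂ) ^ 2 * h8
lemma physb_ew1 : (dd hn aux)⁻¹ * w1 hn aux = xc ^ 2 := by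
  have h : w1 hn aux * (ζ - ζ ^ 7) = 2 * ζ := by
    simp only [w1, hn, aux]; linear_combination (-2 * ζ + ζ ^ 7 + ζ ^ 9 - ζ ^ 11) * h8
  have h' : w1 hn aux = 2 * ζ * xc := by linear_combination xc * h - w1 hn aux * physb_hx
  rw [physb_di, h']
  linear_combination -(xc : ℂ) ^ 2 * h8
lemma physb_ew2 : w2 hn aux = 0 := by
  simp only [w2, hn, aux]; ring
lemma physb_eul : (dd hn aux)⁻¹ * ul hn aux = -(xc * ζ ^ 7) := by
  have h : ul hn aux = 2 := by
    simp only [ul, hn, aux]; linear_combination (-2 + ζ ^ 4) * h8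
  rw [physb_di, h]; ring
lemma physb_euu : (dd hn aux)⁻¹ * uu hn aux = xc * ζ := by
  have h : uu hn aux = 2 * ζ ^ 2 := by
    simp only [uu, hn, aux]; linear_combination (-2 * ζ ^ 2 + ζ ^ 6) * h8
  rw [physb_di, h]
  linear_combination -(xc : ℂ) * ζ * h8
lemma physb_ecr : (dd hn aux)⁻¹ * cr hn aux = xc ^ 2 * ζ := by
  have h : cr hn aux * (ζ - ζ ^ 7) = 2 * ζ ^ 2 := by
    simp only [cr, hn, aux]; linear_combination (-2 * ζ ^ 2 + ζ ^ 8 + ζ ^ 10 - ζ ^ 12) * h8
  have h' : cr hn aux = 2 * ζ ^ 2 * xc := by linear_combination xc * h - cr hn aux * physb_hx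
  rw [physb_di, h']
  linear_combination -(xc : ℂ) ^ 2 * ζ * h8
lemma physb_ejn : (dd hn aux)⁻¹ * jn hn aux = -(xc ^ 2 * ζ ^ 7) := by
  have h : jn hn aux * (ζ - ζ ^ 7) = 2 := by
    simp only [jn, hn, aux]; linear_combination (-2 + ζ ^ 6 + ζ ^ 8 - ζ ^ 10) * h8
  have h' : jn hn aux = 2 * xc := by linear_combination xc * h - jn hn aux * physb_hx
  rw [physb_di, h']; ring

/-- weight of a vertex of sum `2` in terms of the diagonal, left and lower spins -/
noncomputable def physb_vu : S → S → S → ℂ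
  | .o, .o, .o => 1
  | .m, .m, .o => xc * -ζ ^ 7
  | .p, .p, .o => xc * -ζ ^ 7
  | .m, .o, .p => xc * ζ ^ 2
  | .p, .o, .m => xc * -ζ ^ 6
  | .o, .p, .p => xc * -ζ ^ 7
  | .o, .m, .m => xc * -ζ ^ 7
  | _, _, _ => 0
/-- weight of a vertex of sum `1` in terms of the diagonal, right and upper spins -/
noncomputable def physb_vy : S → S → S → ℂ
  | .o, .o, .o => 1
  | .p, .p, .o => xc * ζ
  | .m, .m, .o => xc * ζ
  | .p, .o, .m => xc * ζ ^ 2
  | .m, .o, .p => xc * -ζ ^ 6
  | .o, .m, .m => xc * ζ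
  | .o, .p, .p => xc * ζ
  | _, _, _ => 0

lemma physb_sumS (f : S → ℂ) : ∑ x, f x = f .o + f .p + f .m := by
  have : (Finset.univ : Finset S) = {S.o, S.p, S.m} := rfl
  rw [this, Finset.sum_insert (by decide), Finset.sum_insert (by decide), Finset.sum_singleton,
    add_assoc]

lemma physb_rhombus (g : S → S → ℂ) (x y : S) :
    (dd hn aux)⁻¹ * Rf hn aux g x y =
      ∑ w, ∑ n, ∑ d, physb_vu d w x * physb_vy d y n * g w n := by
  cases x <;> cases y <;> simp only [Rf, physb_sumS, physb_vu, physb_vy, physb_ew2]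
  · linear_combination g .o .o * physb_edd + (ζ ^ 2 * g .p .m - ζ ^ 6 * g .m .p) * physb_ejn
  · linear_combination g .p .o * physb_evv + g .o .p * physb_euu + xc ^ 2 * g .p .o * h8
  · linear_combination g .m .o * physb_evv + g .o .m * physb_euu + xc ^ 2 * g .m .o * h8
  · linear_combination g .p .o * physb_eul + g .o .p * physb_evv + xc ^ 2 * g .o .p * h8
  · linear_combination g .p .p * physb_ew1 + xc ^ 2 * g .p .p * h8
  · linear_combination g .p .m * physb_ew1 + ζ ^ 2 * g .o .o * physb_ecr + xc ^ 2 * g .p .m * h8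
  · linear_combination g .m .o * physb_eul + g .o .m * physb_evv + xc ^ 2 * g .o .m * h8
  · linear_combination g .m .p * physb_ew1 - ζ ^ 6 * g .o .o * physb_ecr + xc ^ 2 * g .m .p * h8
  · linear_combination g .m .m * physb_ew1 + xc ^ 2 * g .m .m * h8

lemma physb_vw_two (i j k : ℤ) (h : i + j + k = 2) (s : Cfg) :
    vw ⟨i, j, k⟩ s = physb_vu (s (ed ⟨i, j, k⟩ ⟨i - 1, j, k⟩)) (s (ed ⟨i, j, k⟩ ⟨i, j - 1, k⟩))
      (s (ed ⟨i, j, k⟩ ⟨i, j, k - 1⟩)) := by
  have s1 : sp ⟨i, j, k⟩ ⟨i - 1, j, k⟩ = .p := by simp [sp]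
  have s2 : sp ⟨i - 1, j, k⟩ ⟨i, j, k⟩ = .m := by simp only [sp]; rw [if_neg (by omega)]
  have s3 : sp ⟨i, j, k⟩ ⟨i, j - 1, k⟩ = .m := by simp only [sp]; rw [if_neg (by omega)]
  have s4 : sp ⟨i, j - 1, k⟩ ⟨i, j, k⟩ = .p := by simp [sp]
  have s5 : sp ⟨i, j, k⟩ ⟨i, j, k - 1⟩ = .p := by simp [sp]
  have s6 : sp ⟨i, j, k - 1⟩ ⟨i, j, k⟩ = .m := by simp only [sp]; rw [if_neg (by omega)]
  have e1 : ex ⟨i - 1, j, k⟩ ⟨i, j, k⟩ ⟨i, j - 1, k⟩ = -1 := by
    simp only [ex, turn, ga, Lf, V.ext_iff]; split_ifs <;> omega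
  have e2 : ex ⟨i, j - 1, k⟩ ⟨i, j, k⟩ ⟨i - 1, j, k⟩ = -1 := by
    simp only [ex, turn, ga, Lf, V.ext_iff]; split_ifs <;> omega
  have e3 : ex ⟨i - 1, j, k⟩ ⟨i, j, k⟩ ⟨i, j, k - 1⟩ = 2 := by
    simp only [ex, turn, ga, Lf, V.ext_iff]; split_ifs <;> omega
  have e4 : ex ⟨i, j, k - 1⟩ ⟨i, j, k⟩ ⟨i - 1, j, k⟩ = -2 := by
    simp only [ex, turn, ga, Lf, V.ext_iff]; split_ifs <;> omega
  have e5 : ex ⟨i, j - 1, k⟩ ⟨i, j, k⟩ ⟨i, j, k - 1⟩ = -1 := by
    simp only [ex, turn, ga, Lf, V.ext_iff]; split_ifs <;> omega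
  have e6 : ex ⟨i, j, k - 1⟩ ⟨i, j, k⟩ ⟨i, j - 1, k⟩ = -1 := by
    simp only [ex, turn, ga, Lf, V.ext_iff]; split_ifs <;> omega
  simp only [vw]
  rw [if_neg (by omega)]
  simp only [vw3, thr, s1, s2, s3, s4, s5, s6, e1, e2, e3, e4, e5, e6, physb_ph2, physb_phm1,
    physb_phm2, ed_comm ⟨i - 1, j, k⟩ ⟨i, j, k⟩, ed_comm ⟨i, j - 1, k⟩ ⟨i, j, k⟩,
    ed_comm ⟨i, j, k - 1⟩ ⟨i, j, k⟩]
  generalize s (ed ⟨i, j, k⟩ ⟨i - 1, j, k⟩) = a
  generalize s (ed ⟨i, j, k⟩ ⟨i, j - 1, k⟩) = b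
  generalize s (ed ⟨i, j, k⟩ ⟨i, j, k - 1⟩) = c
  cases a <;> cases b <;> cases c <;> simp [physb_vu]

lemma physb_vw_one (i j k : ℤ) (h : i + j + k = 1) (s : Cfg) :
    vw ⟨i, j, k⟩ s = physb_vy (s (ed ⟨i, j, k⟩ ⟨i + 1, j, k⟩)) (s (ed ⟨i, j, k⟩ ⟨i, j + 1, k⟩))
      (s (ed ⟨i, j, k⟩ ⟨i, j, k + 1⟩)) := by
  have s1 : sp ⟨i, j, k⟩ ⟨i + 1, j, k⟩ = .m := by simp only [sp]; rw [if_neg (by omega)]
  have s2 : sp ⟨i + 1, j, k⟩ ⟨i, j, k⟩ = .p := by simp [sp]
  have s3 : sp ⟨i, j, k⟩ ⟨i, j + 1, k⟩ = .p := by simp [sp]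
  have s4 : sp ⟨i, j + 1, k⟩ ⟨i, j, k⟩ = .m := by simp only [sp]; rw [if_neg (by omega)]
  have s5 : sp ⟨i, j, k⟩ ⟨i, j, k + 1⟩ = .m := by simp only [sp]; rw [if_neg (by omega)]
  have s6 : sp ⟨i, j, k + 1⟩ ⟨i, j, k⟩ = .p := by simp [sp]
  have e1 : ex ⟨i + 1, j, k⟩ ⟨i, j, k⟩ ⟨i, j + 1, k⟩ = 1 := by
    simp only [ex, turn, ga, Lf, V.ext_iff]; split_ifs <;> omega
  have e2 : ex ⟨i, j + 1, k⟩ ⟨i, j, k⟩ ⟨i + 1, j, k⟩ = 1 := by
    simp only [ex, turn, ga, Lf, V.ext_iff]; split_ifs <;> omega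
  have e3 : ex ⟨i + 1, j, k⟩ ⟨i, j, k⟩ ⟨i, j, k + 1⟩ = 2 := by
    simp only [ex, turn, ga, Lf, V.ext_iff]; split_ifs <;> omega
  have e4 : ex ⟨i, j, k + 1⟩ ⟨i, j, k⟩ ⟨i + 1, j, k⟩ = -2 := by
    simp only [ex, turn, ga, Lf, V.ext_iff]; split_ifs <;> omega
  have e5 : ex ⟨i, j + 1, k⟩ ⟨i, j, k⟩ ⟨i, j, k + 1⟩ = 1 := by
    simp only [ex, turn, ga, Lf, V.ext_iff]; split_ifs <;> omega
  have e6 : ex ⟨i, j, k + 1⟩ ⟨i, j, k⟩ ⟨i, j + 1, k⟩ = 1 := by
    simp only [ex, turn, ga, Lf, V.ext_iff]; split_ifs <;> omega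
  simp only [vw]
  rw [if_pos h]
  simp only [vw3, thr, s1, s2, s3, s4, s5, s6, e1, e2, e3, e4, e5, e6, physb_ph2, physb_ph1,
    physb_phm2, ed_comm ⟨i + 1, j, k⟩ ⟨i, j, k⟩, ed_comm ⟨i, j + 1, k⟩ ⟨i, j, k⟩,
    ed_comm ⟨i, j, k + 1⟩ ⟨i, j, k⟩]
  generalize s (ed ⟨i, j, k⟩ ⟨i + 1, j, k⟩) = a
  generalize s (ed ⟨i, j, k⟩ ⟨i, j + 1, k⟩) = b
  generalize s (ed ⟨i, j, k⟩ ⟨i, j, k + 1⟩) = c
  cases a <;> cases b <;> cases c <;> simp [physb_vy]


/-! ### edges of a column -/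

/-- the diagonal edge of the rhombus in column `j`, row `k` -/
def physb_eD (j k : ℤ) : V := ⟨3 - 2 * j - 2 * k, 2 * j, 2 * k⟩
lemma physb_eW (j k : ℤ) : eW j k = ⟨4 - 2 * j - 2 * k, 2 * j - 1, 2 * k⟩ := by
  simp only [eW, ed, V.ext_iff]; omega
lemma physb_eS (j k : ℤ) : eS j k = ⟨4 - 2 * j - 2 * k, 2 * j, 2 * k - 1⟩ := by
  simp only [eS, ed, V.ext_iff]; omega

lemma physb_vw_U (j k : ℤ) (s : Cfg) :
    vw ⟨2 - j - k, j, k⟩ s = physb_vu (s (physb_eD j k)) (s (eW j k)) (s (eS j k)) := by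
  have a1 : ed ⟨2 - j - k, j, k⟩ ⟨2 - j - k - 1, j, k⟩ = physb_eD j k := by
    simp only [physb_eD, ed, V.ext_iff]; omega
  have a2 : ed ⟨2 - j - k, j, k⟩ ⟨2 - j - k, j - 1, k⟩ = eW j k := ed_comm _ _
  have a3 : ed ⟨2 - j - k, j, k⟩ ⟨2 - j - k, j, k - 1⟩ = eS j k := ed_comm _ _
  rw [physb_vw_two _ _ _ (by omega), a1, a2, a3]
lemma physb_vw_Y (j k : ℤ) (s : Cfg) :
    vw ⟨1 - j - k, j, k⟩ s =
      physb_vy (s (physb_eD j k)) (s (eW (j + 1) k)) (s (eS j (k + 1))) := by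
  have a1 : ed ⟨1 - j - k, j, k⟩ ⟨1 - j - k + 1, j, k⟩ = physb_eD j k := by
    simp only [physb_eD, ed, V.ext_iff]; omega
  have a2 : ed ⟨1 - j - k, j, k⟩ ⟨1 - j - k, j + 1, k⟩ = eW (j + 1) k := by
    simp only [physb_eW, ed, V.ext_iff]; omega
  have a3 : ed ⟨1 - j - k, j, k⟩ ⟨1 - j - k, j, k + 1⟩ = eS j (k + 1) := by
    simp only [physb_eS, ed, V.ext_iff]; omega
  rw [physb_vw_one _ _ _ (by omega), a1, a2, a3]

/-- left, upper and diagonal edges of the rhombi of column `j`, rows `r .. r + n - 1` -/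
def physb_C (j : ℤ) : ℤ → ℕ → Finset V
  | _, 0 => ∅
  | r, n + 1 => {eW j r} ∪ ({eS j (r + 1)} ∪ ({physb_eD j r} ∪ physb_C j (r + 1) n))
/-- vertices of these rhombi -/
def physb_cv (j : ℤ) : ℤ → ℕ → Finset V
  | _, 0 => ∅
  | r, n + 1 => insert ⟨2 - j - r, j, r⟩ (insert ⟨1 - j - r, j, r⟩ (physb_cv j (r + 1) n))

lemma physb_mem_C {j : ℤ} {n : ℕ} : ∀ {r : ℤ} {e : V}, e ∈ physb_C j r n ↔
    e.i + e.j + e.k = 3 ∧ 2 * r ≤ e.k ∧ e.k < 2 * (r + n) ∧
      (e.j = 2 * j ∨ (e.j = 2 * j - 1 ∧ e.k % 2 = 0)) := by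
  induction n with
  | zero => intro r e; simp only [physb_C, Finset.notMem_empty, false_iff]; omega
  | succ n ih =>
    intro r e
    simp only [physb_C, Finset.mem_union, Finset.mem_singleton, ih, physb_eW, physb_eS, physb_eD,
      V.ext_iff]
    omega

lemma physb_mem_cv {j : ℤ} {n : ℕ} : ∀ {r : ℤ} {v : V}, v ∈ physb_cv j r n ↔
    Valid v ∧ v.j = j ∧ r ≤ v.k ∧ v.k < r + n := by
  induction n with
  | zero => intro r v; simp only [physb_cv, Finset.notMem_empty, false_iff]; omega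
  | succ n ih =>
    intro r v
    simp only [physb_cv, Finset.mem_insert, ih, V.ext_iff, Valid]
    omega

/-- the state read on the left and top of the column piece -/
def physb_rW (j : ℤ) (t : St) (s : Cfg) : ℤ → ℕ → St
  | r, 0 => cons (s (eS j r)) t
  | r, n + 1 => cons (s (eW j r)) (physb_rW j t s (r + 1) n)
/-- the state read on the vertical cut `j` -/
def physb_rE (j : ℤ) (t : St) (s : Cfg) : ℤ → ℕ → St
  | _, 0 => t
  | r, n + 1 => cons (s (eW j r)) (physb_rE j t s (r + 1) n)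

lemma physb_rE_congr {j : ℤ} {t : St} {s s' : Cfg} (h : ∀ k, s (eW j k) = s' (eW j k)) (n : ℕ) :
    ∀ r, physb_rE j t s r n = physb_rE j t s' r n := by
  induction n with
  | zero => intro r; rfl
  | succ n ih => intro r; simp only [physb_rE, h, ih]

lemma physb_upd {I : Finset V} {e : V} (h : e ∉ I) (s : Cfg) (y : I → S) :
    Function.updateFinset s I y e = s e := by
  simp [Function.updateFinset, h]

lemma physb_mar_single (e : V) (F : Cfg → ℂ) (s : Cfg) :
    mar {e} F s = ∑ x, F (Function.update s e x) := by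
  rw [mar_singleton, physb_sumS]

lemma physb_Rf_mul (a b : P) (c : ℂ) (g : S → S → ℂ) (x y : S) :
    c * Rf a b g x y = Rf a b (fun w n => c * g w n) x y := by
  cases x <;> cases y <;> simp only [Rf] <;> ring

theorem physb_column (j : ℤ) (t : St) (n : ℕ) : ∀ (r : ℤ) (v : Vec) (s : Cfg),
    mar (physb_C j r n) (fun s' => (∏ x ∈ physb_cv j r n, vw x s') * v (physb_rW j t s' r n)) s =
      (dd hn aux)⁻¹ ^ n * down aux (List.replicate n hn) v
        (cons (s (eS j r)) (physb_rE (j + 1) t s r n)) := by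
  induction n with
  | zero =>
    intro r v s
    simp only [physb_C, physb_cv, mar_empty, Finset.prod_empty, one_mul, pow_zero,
      List.replicate_zero, down, Module.End.one_apply, physb_rW, physb_rE]
  | succ n ih =>
    intro r v s
    have inner : mar (physb_C j (r + 1) n) (fun s' => (∏ x ∈ physb_cv j r (n + 1), vw x s') *
        v (physb_rW j t s' r (n + 1))) = fun s1 =>
        physb_vu (s1 (physb_eD j r)) (s1 (eW j r)) (s1 (eS j r)) *
          physb_vy (s1 (physb_eD j r)) (s1 (eW (j + 1) r)) (s1 (eS j (r + 1))) *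
          ((dd hn aux)⁻¹ ^ n * down aux (List.replicate n hn) (fun τ => v (cons (s1 (eW j r)) τ))
            (cons (s1 (eS j (r + 1))) (physb_rE (j + 1) t s1 (r + 1) n))) := by
      funext s1
      rw [← ih (r + 1) (fun τ => v (cons (s1 (eW j r)) τ)) s1]
      have hm := mar_mul (I := physb_C j (r + 1) n)
        (F := fun _ => physb_vu (s1 (physb_eD j r)) (s1 (eW j r)) (s1 (eS j r)) *
          physb_vy (s1 (physb_eD j r)) (s1 (eW (j + 1) r)) (s1 (eS j (r + 1))))
        (fun s' => (∏ x ∈ physb_cv j (r + 1) n, vw x s') *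
          v (cons (s1 (eW j r)) (physb_rW j t s' (r + 1) n))) (fun _ _ _ => rfl)
      rw [← congrFun hm s1]
      refine mar_congr fun y => ?_
      have n1 : physb_eD j r ∉ physb_C j (r + 1) n := by
        rw [physb_mem_C]; simp only [physb_eD]; omega
      have n2 : eW j r ∉ physb_C j (r + 1) n := by
        rw [physb_mem_C]; simp only [physb_eW]; omega
      have n3 : eS j r ∉ physb_C j (r + 1) n := by
        rw [physb_mem_C]; simp only [physb_eS]; omega
      have n4 : eW (j + 1) r ∉ physb_C j (r + 1) n := by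
        rw [physb_mem_C]; simp only [physb_eW]; omega
      have n5 : eS j (r + 1) ∉ physb_C j (r + 1) n := by
        rw [physb_mem_C]; simp only [physb_eS]; omega
      have m1 : (⟨2 - j - r, j, r⟩ : V) ∉ insert (⟨1 - j - r, j, r⟩ : V) (physb_cv j (r + 1) n) := by
        simp only [Finset.mem_insert, physb_mem_cv, V.ext_iff]; omega
      have m2 : (⟨1 - j - r, j, r⟩ : V) ∉ physb_cv j (r + 1) n := by
        simp only [physb_mem_cv]; omega
      simp only [physb_cv, physb_rW]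
      rw [Finset.prod_insert m1, Finset.prod_insert m2, physb_vw_U, physb_vw_Y, physb_upd n1,
        physb_upd n2, physb_upd n3, physb_upd n4, physb_upd n5]
      ring
    have d1 : Disjoint {eW j r} ({eS j (r + 1)} ∪ ({physb_eD j r} ∪ physb_C j (r + 1) n)) := by
      simp only [Finset.disjoint_singleton_left, Finset.mem_union, Finset.mem_singleton,
        physb_mem_C, physb_eW, physb_eS, physb_eD, V.ext_iff]
      omega
    have d2 : Disjoint {eS j (r + 1)} ({physb_eD j r} ∪ physb_C j (r + 1) n) := by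
      simp only [Finset.disjoint_singleton_left, Finset.mem_union, Finset.mem_singleton,
        physb_mem_C, physb_eS, physb_eD, V.ext_iff]
      omega
    have d3 : Disjoint {physb_eD j r} (physb_C j (r + 1) n) := by
      simp only [Finset.disjoint_singleton_left, physb_mem_C, physb_eD]
      omega
    have hC : physb_C j r (n + 1) =
      {eW j r} ∪ ({eS j (r + 1)} ∪ ({physb_eD j r} ∪ physb_C j (r + 1) n)) := rfl
    rw [hC, mar_union d1, mar_union d2, mar_union d3, inner]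
    simp only [physb_mar_single]
    have hd : down aux (List.replicate (n + 1) hn) v
        (cons (s (eS j r)) (physb_rE (j + 1) t s r (n + 1))) =
        Rf hn aux (fun w x => down aux (List.replicate n hn) (fun τ => v (cons w τ))
          (cons x (physb_rE (j + 1) t s (r + 1) n))) (s (eS j r)) (s (eW (j + 1) r)) := rfl
    rw [hd, pow_succ', mul_assoc, physb_Rf_mul, physb_rhombus]
    refine Finset.sum_congr rfl fun w _ => Finset.sum_congr rfl fun x _ =>
      Finset.sum_congr rfl fun d _ => ?_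
    have a1 : eW j r ≠ physb_eD j r := by simp only [physb_eW, physb_eD, ne_eq, V.ext_iff]; omega
    have a2 : eW j r ≠ eS j (r + 1) := by simp only [physb_eW, physb_eS, ne_eq, V.ext_iff]; omega
    have a3 : eS j r ≠ physb_eD j r := by simp only [physb_eS, physb_eD, ne_eq, V.ext_iff]; omega
    have a4 : eS j r ≠ eS j (r + 1) := by simp only [physb_eS, ne_eq, V.ext_iff]; omega
    have a5 : eS j r ≠ eW j r := by simp only [physb_eW, physb_eS, ne_eq, V.ext_iff]; omega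
    have a6 : eS j (r + 1) ≠ physb_eD j r := by
      simp only [physb_eS, physb_eD, ne_eq, V.ext_iff]; omega
    have b1 : ∀ k, eW (j + 1) k ≠ physb_eD j r := fun k => by
      simp only [physb_eW, physb_eD, ne_eq, V.ext_iff]; omega
    have b2 : ∀ k, eW (j + 1) k ≠ eS j (r + 1) := fun k => by
      simp only [physb_eW, physb_eS, ne_eq, V.ext_iff]; omega
    have b3 : ∀ k, eW (j + 1) k ≠ eW j r := fun k => by
      simp only [physb_eW, ne_eq, V.ext_iff]; omega
    have b4 : ∀ k, Function.update (Function.update (Function.update s (eW j r) w)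
        (eS j (r + 1)) x) (physb_eD j r) d (eW (j + 1) k) = s (eW (j + 1) k) := fun k => by
      rw [Function.update_of_ne (b1 k), Function.update_of_ne (b2 k), Function.update_of_ne (b3 k)]
    rw [physb_rE_congr b4, b4, Function.update_self, Function.update_of_ne a1,
      Function.update_of_ne a2, Function.update_self, Function.update_of_ne a3,
      Function.update_of_ne a4, Function.update_of_ne a5, Function.update_of_ne a6,
      Function.update_self]

/-! ### boxes -/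

/-- left, upper and diagonal edges of all rhombi of the box -/
def physb_A (a : ℤ) (T : ℕ) : ℕ → Finset V
  | 0 => ∅
  | N + 1 => physb_C (a + N) 0 T ∪ physb_A a T N

lemma physb_mem_A {a : ℤ} {T N : ℕ} {e : V} : e ∈ physb_A a T N ↔
    e.i + e.j + e.k = 3 ∧ 0 ≤ e.k ∧ e.k < 2 * T ∧ 2 * a - 1 ≤ e.j ∧ e.j < 2 * (a + N) - 1 ∧
      (e.j % 2 = 0 ∨ e.k % 2 = 0) := by
  induction N with
  | zero => simp only [physb_A, Finset.notMem_empty, false_iff]; omega
  | succ N ih =>
    simp only [physb_A, Finset.mem_union, ih, physb_mem_C]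
    omega

lemma physb_mem_inE {Ω : Finset V} {e : V} :
    e ∈ inE Ω ↔ ∃ a ∈ Ω, ∃ c ∈ Ω, Adj a c ∧ ed a c = e := by
  simp only [inE, Finset.mem_image, Finset.mem_filter, Finset.mem_product, Prod.exists]
  constructor
  · rintro ⟨a, c, ⟨⟨ha, hc⟩, h⟩, e⟩
    exact ⟨a, ha, c, hc, h, e⟩
  · rintro ⟨a, ha, c, hc, h, e⟩
    exact ⟨a, c, ⟨⟨ha, hc⟩, h⟩, e⟩

lemma physb_mem_inE_box {a b : ℤ} {T : ℕ} {e : V} : e ∈ inE (boxF a b T) ↔
    e.i + e.j + e.k = 3 ∧ 0 ≤ e.k ∧ e.k ≤ 2 * T - 2 ∧ 2 * a ≤ e.j ∧ e.j ≤ 2 * b - 2 ∧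
      (e.j % 2 = 0 ∨ e.k % 2 = 0) := by
  rw [physb_mem_inE]
  constructor
  · rintro ⟨u, hu, c, hc, h, rfl⟩
    rw [mem_boxF] at hu hc
    obtain ⟨-, h1, h2, h3, h4⟩ := hu
    obtain ⟨-, h5, h6, h7, h8⟩ := hc
    simp only [ed]
    rcases adj_iff.1 h with ⟨h0, ⟨e1, e2, e3⟩ | ⟨e1, e2, e3⟩ | ⟨e1, e2, e3⟩⟩ |
      ⟨h0, ⟨e1, e2, e3⟩ | ⟨e1, e2, e3⟩ | ⟨e1, e2, e3⟩⟩ <;> omega
  · rintro ⟨h1, h2, h3, h4, h5, h6⟩
    refine ⟨⟨e.i / 2, e.j / 2, e.k / 2⟩, ?_, ⟨e.i - e.i / 2, e.j - e.j / 2, e.k - e.k / 2⟩,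
      ?_, ?_, ?_⟩
    · simp only [mem_boxF, Valid]; omega
    · simp only [mem_boxF, Valid]; omega
    · rw [adj_iff]; left; simp only; omega
    · simp only [ed, V.ext_iff]; omega

lemma physb_box_succ (a : ℤ) (T N : ℕ) :
    boxF a (a + (N + 1 : ℕ)) T = physb_cv (a + N) 0 T ∪ boxF a (a + N) T := by
  ext v
  simp only [Finset.mem_union, mem_boxF, physb_mem_cv, Valid]
  omega

lemma physb_supp_dl {T : ℕ} {σ : St} (hσ : ∀ i, T ≤ i → σ i = .o) : Supp T (dl σ) := by
  intro τ i hi h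
  unfold dl
  rw [if_neg]
  rintro rfl
  exact h (hσ i hi)

lemma physb_supp_tr {T : ℕ} (β : ℕ → S) {v : Vec} (hv : Supp T v) (N : ℕ) :
    Supp T (tr T β N v) := by
  induction N with
  | zero => exact hv
  | succ N ih =>
    have h1 : Supp (T + 1) (liftN 0 (down aux (List.replicate T hn)) (tr T β N v)) :=
      Supp.down (ih.mono (Nat.le_succ T)) _ _ (by simp)
    exact Supp.smul (Supp.prj h1 (β N)) _

lemma physb_rE_apply (j : ℤ) (t : St) (s : Cfg) (n : ℕ) : ∀ (r : ℤ) (i : ℕ),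
    physb_rE j t s r n i = if i < n then s (eW j (r + i)) else t (i - n) := by
  induction n with
  | zero => intro r i; simp [physb_rE]
  | succ n ih =>
    intro r i
    cases i with
    | zero => simp [physb_rE]
    | succ i =>
      simp only [physb_rE, cons_succ, ih, Nat.add_lt_add_iff_right, Nat.add_sub_add_right]
      rw [show r + 1 + (i : ℤ) = r + ((i + 1 : ℕ) : ℤ) by push_cast; ring]

lemma physb_rW_eq (j : ℤ) (t : St) (s : Cfg) (n : ℕ) : ∀ r : ℤ,
    physb_rW j t s r n = physb_rE j (cons (s (eS j (r + n))) t) s r n := by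
  induction n with
  | zero => intro r; simp [physb_rW, physb_rE]
  | succ n ih =>
    intro r
    simp only [physb_rW, physb_rE, ih]
    rw [show r + 1 + (n : ℤ) = r + ((n + 1 : ℕ) : ℤ) by push_cast; ring]

lemma physb_top {T : ℕ} {v : Vec} (hv : Supp T v) (j : ℤ) (s : Cfg) :
    v (physb_rW j zer s 0 T) =
      (if s (eS j T) = .o then 1 else 0) * v (physb_rE j zer s 0 T) := by
  rw [physb_rW_eq, zero_add]
  split_ifs with h
  · rw [h, basic_cons_zer, one_mul]
  · rw [zero_mul]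
    refine hv _ T le_rfl ?_
    rw [physb_rE_apply]
    simpa using h

open Classical in
/-- the boundary condition on the left and on the top -/
noncomputable def physb_del (T : ℕ) (a : ℤ) (σ : St) (N : ℕ) (s : Cfg) : ℂ :=
  if (∀ k : ℕ, k < T → s (eW a k) = σ k) ∧ ∀ i : ℕ, i < N → s (eS (a + i) T) = .o then 1 else 0

lemma physb_del_succ (T : ℕ) (a : ℤ) (σ : St) (N : ℕ) (s : Cfg) :
    physb_del T a σ (N + 1) s =
      (if s (eS (a + N) T) = .o then 1 else 0) * physb_del T a σ N s := by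
  unfold physb_del
  simp only [Nat.forall_lt_succ_right]
  by_cases h1 : s (eS (a + N) T) = .o <;> simp [h1]

theorem physb_transfer (T : ℕ) (a : ℤ) (β : ℕ → S) {σ : St} (hσ : ∀ i, T ≤ i → σ i = .o)
    (N : ℕ) : ∀ s : Cfg, (∀ i : ℕ, i < N → s (eS (a + i) 0) = β i) →
    mar (physb_A a T N) (fun s' => physb_del T a σ N s' * ∏ v ∈ boxF a (a + N) T, vw v s') s =
      tr T β N (dl σ) (physb_rE (a + N) zer s 0 T) := by
  induction N with
  | zero =>
    intro s _
    have hb : boxF a (a + (0 : ℕ)) T = ∅ := by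
      ext v
      simp only [mem_boxF, Finset.notMem_empty, iff_false]
      omega
    simp only [physb_A, mar_empty, hb, Finset.prod_empty, mul_one, tr, Module.End.one_apply,
      physb_del, dl]
    congr 1
    apply propext
    constructor
    · rintro ⟨h, -⟩
      funext i
      rw [physb_rE_apply]
      split_ifs with hi
      · simpa using h i hi
      · exact (hσ i (by omega)).symm
    · intro h
      refine ⟨fun k hk => ?_, fun i hi => absurd hi (by omega)⟩
      have := congrFun h k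
      rw [physb_rE_apply, if_pos hk] at this
      simpa using this
  | succ N ih =>
    intro s hB
    have d1 : Disjoint (physb_C (a + N) 0 T) (physb_A a T N) := by
      rw [Finset.disjoint_left]
      intro e h1 h2
      rw [physb_mem_C] at h1
      rw [physb_mem_A] at h2
      omega
    have d2 : Disjoint (physb_cv (a + N) 0 T) (boxF a (a + N) T) := by
      rw [Finset.disjoint_left]
      intro e h1 h2
      rw [physb_mem_cv] at h1
      rw [mem_boxF] at h2
      omega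
    have hA : physb_A a T (N + 1) = physb_C (a + N) 0 T ∪ physb_A a T N := rfl
    have hm := mar_mul (I := physb_A a T N)
      (F := fun s' => (∏ v ∈ physb_cv (a + N) 0 T, vw v s') *
        (if s' (eS (a + N) T) = .o then 1 else 0))
      (fun s' => physb_del T a σ N s' * ∏ v ∈ boxF a (a + N) T, vw v s') (by
        intro s1 s2 h
        have n1 : eS (a + N) T ∉ physb_A a T N := by
          rw [physb_mem_A]; simp only [physb_eS]; omega
        simp only [h _ n1]
        congr 1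
        refine Finset.prod_congr rfl fun v hv => ?_
        rw [physb_mem_cv] at hv
        refine vw_congr hv.1 fun c hc => h _ ?_
        rw [physb_mem_A]
        simp only [ed]
        have := adj_iff.1 hc
        omega)
    have e1 : (fun s' => physb_del T a σ (N + 1) s' *
        ∏ v ∈ boxF a (a + (N + 1 : ℕ)) T, vw v s') = fun s' =>
        ((∏ v ∈ physb_cv (a + N) 0 T, vw v s') * (if s' (eS (a + N) T) = .o then 1 else 0)) *
          (physb_del T a σ N s' * ∏ v ∈ boxF a (a + N) T, vw v s') := by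
      funext s'
      rw [physb_box_succ, Finset.prod_union d2, physb_del_succ]
      ring
    have e2 : tr T β (N + 1) (dl σ) (physb_rE (a + (N + 1 : ℕ)) zer s 0 T) =
        (dd hn aux)⁻¹ ^ T * down aux (List.replicate T hn) (tr T β N (dl σ))
          (cons (s (eS (a + N) 0)) (physb_rE (a + N + 1) zer s 0 T)) := by
      rw [hB N (Nat.lt_succ_self N), show a + ((N + 1 : ℕ) : ℤ) = a + N + 1 by push_cast; ring]
      rfl
    rw [hA, mar_union d1, e1, hm, e2, ← physb_column]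
    refine mar_congr fun y => ?_
    rw [ih, physb_top (physb_supp_tr β (physb_supp_dl hσ) N), mul_assoc]
    intro i hi
    rw [physb_upd, hB i (by omega)]
    rw [physb_mem_C]; simp only [physb_eS]; omega

theorem transfer (T : ℕ) (a : ℤ) (N : ℕ) (β : ℕ → S) {σ σ' : St} (hσ : ∀ i, T ≤ i → σ i = .o)
    (hσ' : ∀ i, T ≤ i → σ' i = .o) {s : Cfg} (hL : ∀ k : ℕ, k < T → s (eW a k) = σ k)
    (hR : ∀ k : ℕ, k < T → s (eW (a + N) k) = σ' k)
    (hB : ∀ i : ℕ, i < N → s (eS (a + i) 0) = β i)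
    (hT : ∀ i : ℕ, i < N → s (eS (a + i) T) = .o) :
    tr T β N (dl σ) σ' = Z (boxF a (a + N) T) s := by
  have e0 : σ' = physb_rE (a + N) zer s 0 T := by
    funext i
    rw [physb_rE_apply]
    split_ifs with hi
    · rw [zero_add, hR i hi]
    · exact hσ' i (by omega)
  have hsub : inE (boxF a (a + N) T) ⊆ physb_A a T N := by
    intro e he
    rw [physb_mem_inE_box] at he
    rw [physb_mem_A]
    omega
  have hm := mar_mul (I := inE (boxF a (a + N) T)) (F := physb_del T a σ N)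
    (fun s' => ∏ v ∈ boxF a (a + N) T, vw v s') (by
      intro s1 s2 h
      have n1 : ∀ k : ℕ, s1 (eW a k) = s2 (eW a k) := fun k => h _ (by
        rw [physb_mem_inE_box]; simp only [physb_eW]; omega)
      have n2 : ∀ i : ℕ, s1 (eS (a + i) T) = s2 (eS (a + i) T) := fun k => h _ (by
        rw [physb_mem_inE_box]; simp only [physb_eS]; omega)
      simp only [physb_del, n1, n2])
  rw [e0, ← physb_transfer T a β hσ N s hB, ← Finset.sdiff_union_of_subset hsub,
    mar_union Finset.sdiff_disjoint, hm]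
  unfold mar
  rw [Finset.sum_eq_single (fun e => s e.1)]
  · have : Function.updateFinset s (physb_A a T N \ inE (boxF a (a + N) T)) (fun e => s e.1) = s := by
      funext e
      simp [Function.updateFinset]
    rw [this]
    have h1 : physb_del T a σ N s = 1 := if_pos ⟨hL, hT⟩
    show physb_del T a σ N s * _ = _
    rw [h1, one_mul]
    rfl
  · intro y _ hy
    show physb_del T a σ N _ * _ = _
    rw [physb_del, if_neg, zero_mul]
    rintro ⟨h1, h2⟩
    apply hy
    funext e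
    have he := e.2
    rw [Finset.mem_sdiff, physb_mem_A, physb_mem_inE_box] at he
    have hv : Function.updateFinset s (physb_A a T N \ inE (boxF a (a + N) T)) y e.1 = y e := by
      simp [Function.updateFinset]
    rw [← hv]
    by_cases hj : e.1.j = 2 * a - 1
    · have ee : e.1 = eW a ((e.1.k / 2).toNat : ℕ) := by
        simp only [physb_eW, V.ext_iff]; omega
      rw [ee, h1 _ (by omega), hL _ (by omega)]
    · have ee : e.1 = eS (a + ((e.1.j / 2 - a).toNat : ℕ)) T := by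
        simp only [physb_eS, V.ext_iff]; omega
      rw [ee, h2 _ (by omega), hT _ (by omega)]
  · intro h
    exact absurd (Finset.mem_univ _) h

end Pool.Agent.Lib.MP_4960b8_pr.QK
end

-- part Pool.Agent.Lib.MP_4960b8_pr.QK.PhysC
section

/-! Decay of the charged sectors, and the mass of the walks from the bottom to the right. -/

namespace Pool.Agent.Lib.MP_4960b8_pr.QK

open SAW Filter Topology

def physc_gU (a b c : ℤ) (v : V) : V := ⟨v.i + a, v.k + b, v.j + c⟩
def physc_gW (a b c : ℤ) (v : V) : V := ⟨a - v.i, b - v.k, c - v.j⟩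

lemma physc_symU {a b c : ℤ} (h : a + b + c = 0) : IsSym (physc_gU a b c) := by
  refine ⟨fun u v e => ?_, fun u v e => ?_⟩
  · simp only [physc_gU, V.ext_iff] at e ⊢; omega
  · rcases e with ⟨h0, rfl | rfl | rfl⟩ | ⟨h0, rfl | rfl | rfl⟩ <;> rw [adj_iff] <;>
      dsimp only [physc_gU] <;> omega

lemma physc_symW {a b c : ℤ} (h : a + b + c = 3) : IsSym (physc_gW a b c) := by
  refine ⟨fun u v e => ?_, fun u v e => ?_⟩
  · simp only [physc_gW, V.ext_iff] at e ⊢; omega
  · rcases e with ⟨h0, rfl | rfl | rfl⟩ | ⟨h0, rfl | rfl | rfl⟩ <;> rw [adj_iff] <;>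
      dsimp only [physc_gW] <;> omega

lemma physc_good (a b : ℤ) (N : ℕ) : SAW.Good (box a b N) p0 q0 := by
  refine ⟨up0, box_finite a b N, ?_, fun u hu => hu.2.1⟩
  intro x hx y hy z v1 v2 v3 e1 e2 e3 e4
  simp only [box, Set.mem_ofPred_eq] at *
  unfold Valid cX cY at *
  omega

lemma physc_ret {g : V → V} (hg : IsSym g) {p q : V} (e1 : g p = p0) (e2 : g q = q0)
    {D : Set V} {a b : ℤ} {N : ℕ} (hD : ∀ u ∈ D, g u ∈ box a b N) {S : Set (List V)}
    (h : ∀ l ∈ S, Saw p q l ∧ Inn D q l ∧ (g (lv q l)).k < 0) : mu S ≤ 3 := by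
  have G := physc_good a b N
  have h1 : mu S ≤ mu (Bot (box a b N) p0 q0) := by
    refine mu_le_map hg G.finB fun l hl => ?_
    obtain ⟨h1, h2, h3⟩ := h l hl
    have e3 : lv q0 (l.map g) = g (lv q l) := by rw [← e2, lv_map]
    refine ⟨⟨?_, ?_, ?_⟩, ?_⟩
    · rw [← e1, ← e2]; exact h1.map hg
    · rw [← e2]; exact Inn.map hD h2
    · rw [e3]; intro hm; have := hm.2.1; omega
    · rw [e3]; exact h3
  have h2 := G.esc_eq
  have h3 := G.esc_nonneg
  have h4 := s8_ge
  nlinarith [mu_nonneg (Bot (box a b N) p0 q0)]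

lemma physc_cross {g : V → V} (hg : IsSym g) {p q : V} (e1 : g p = p0) (e2 : g q = q0)
    {D : Set V} {a b : ℤ} {N : ℕ} (hD : ∀ u ∈ D, g u ∈ box a b N) {S : Set (List V)}
    (hS : S.Finite) (h : ∀ l ∈ S, Saw p q l ∧ Inn D q l ∧ (g (lv q l)).k = N) : mu S ≤ bb N :=
  brg_le_bb hg e1 e2 N hS fun l hl => ⟨(h l hl).1,
    Inn.mono (D := D) (fun u hu => And.intro (hD u hu).2.1 (hD u hu).2.2.1) (h l hl).2.1,
    (h l hl).2.2⟩

lemma physc_adj_last {p q : V} {l : List V} (h : (p :: q :: l).IsChain Adj) :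
    Adj (pv p q l) (lv q l) := by
  induction l generalizing p q with
  | nil => exact (List.isChain_cons_cons.1 h).1
  | cons r l ih => exact ih (List.isChain_cons_cons.1 h).2

lemma physc_pv_mem (p q : V) {l : List V} (h : l ≠ []) : pv p q l ∈ q :: l := by
  rcases l with _ | ⟨r, l⟩
  · exact absurd rfl h
  · exact pv_mem q r l

lemma physc_spo_ne (o : Bool) (a b : V) : spo o a b ≠ .o := by
  unfold spo; split_ifs <;> exact sp_ne_o _ _

lemma physc_norm {S : Set (List V)} (hS : S.Finite) (F : List V → ℂ) (P : List V → Prop)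
    {c1 c2 m1 m2 : ℝ} (h1 : 0 ≤ c1) (h2 : 0 ≤ c2)
    (f1 : ∀ l ∈ S, P l → ‖F l‖ ≤ c1 * wt l) (f2 : ∀ l ∈ S, ¬ P l → ‖F l‖ ≤ c2 * wt l)
    (g1 : mu {l | l ∈ S ∧ P l} ≤ m1) (g2 : mu {l | l ∈ S ∧ ¬ P l} ≤ m2) :
    ‖∑ᶠ l ∈ S, F l‖ ≤ c1 * m1 + c2 * m2 := by
  have e0 : ‖∑ᶠ l ∈ S, F l‖ ≤ ms (fun l => ‖F l‖) S := by
    rw [finsum_mem_eq_finite_toFinset_sum F hS, ms_eq_sum hS]
    exact norm_sum_le _ _
  have s1 : {l | l ∈ S ∧ P l}.Finite := hS.subset fun _ h => h.1
  have s2 : {l | l ∈ S ∧ ¬ P l}.Finite := hS.subset fun _ h => h.1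
  rw [ms_split hS P] at e0
  have a1 := ms_le_ms (f := fun l => ‖F l‖) (g := fun l => c1 * wt l) s1
    fun l hl => f1 l hl.1 hl.2
  have a2 := ms_le_ms (f := fun l => ‖F l‖) (g := fun l => c2 * wt l) s2
    fun l hl => f2 l hl.1 hl.2
  rw [ms_const_mul s1] at a1
  rw [ms_const_mul s2] at a2
  have b1 := mul_le_mul_of_nonneg_left g1 h1
  have b2 := mul_le_mul_of_nonneg_left g2 h2
  unfold mu at b1 b2
  linarith

/-- side edges of the box -/
def physc_Side (a : ℤ) (N : ℕ) (v c : V) : Prop :=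
  (c.j = a - 1 ∧ v.j = a) ∨ (c.j = a + N ∧ v.j = a + N - 1)

/-- only side edges may carry arrows -/
structure physc_H (a : ℤ) (N T : ℕ) (s : Cfg) : Prop where
  nrm : Nrm (boxF a (a + N) T) s
  side : ∀ v ∈ boxF a (a + N) T, ∀ c, c ∉ boxF a (a + N) T → Adj v c → s (ed v c) ≠ .o →
    physc_Side a N v c

section
variable {a : ℤ} {N T : ℕ} {s : Cfg} {Ω : Finset V}

lemma physc_H.out (H : physc_H a N T s) {v c : V} (hv : v ∈ boxF a (a + N) T) (h : Adj v c)
    (hs : s (ed v c) ≠ .o) : c ∉ boxF a (a + N) T ∧ physc_Side a N v c := by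
  have : c ∉ boxF a (a + N) T := fun hc => hs (H.nrm v hv c hc h)
  exact ⟨this, H.side v hv c this h hs⟩

lemma physc_pe (H : physc_H a N T s) (hΩ : Ω ⊆ boxF a (a + N) T) {p q : V} (hq : q ∈ Ω)
    (h : Adj p q) (hs : s (ed q p) ≠ .o) {o : Bool} {l : List V} (hl : l ∈ Pe Ω s o p q) :
    Saw p q l ∧ Inn (box a (a + N) T) q l ∧ pv p q l ∈ Ω ∧ pv p q l ∈ q :: l ∧
      Adj (pv p q l) (lv q l) ∧ physc_Side a N (pv p q l) (lv q l) := by
  obtain ⟨h1, h2, h3, h4, h5, h6, -⟩ := hl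
  have hne : l ≠ [] := by rintro rfl; exact h4 hq
  have hc : (p :: q :: l).IsChain Adj := List.isChain_cons_cons.2 ⟨h, h1⟩
  have ad := physc_adj_last hc
  have hpv : pv p q l ∈ Ω := h3.pv_mem hne
  obtain ⟨o1, o2⟩ := H.out (hΩ hq) h.symm hs
  have o3 := (H.out (hΩ hpv) ad (by rw [h6]; exact physc_spo_ne _ _ _)).2
  refine ⟨⟨hc, List.nodup_cons.2 ⟨fun hm => ?_, h2⟩⟩,
    h3.mono fun u hu => (box_finite _ _ _).mem_toFinset.1 (hΩ hu), hpv, physc_pv_mem p q hne,
    ad, o3⟩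
  rcases h3.mem hm with e | e
  · exact o1 (hΩ e)
  · apply h5
    rw [← e] at ad ⊢
    have b1 := mem_boxF.1 (hΩ hpv)
    have b2 := adj_iff.1 ad
    have b3 := adj_iff.1 h
    have : pv p q l = q := by
      unfold physc_Side at o2
      rw [V.ext_iff]; omega
    rw [this, ed_comm]

lemma physc_mass (hN : 0 < N) (H : physc_H a N T s) (hΩ : Ω ⊆ boxF a (a + N) T) {p q : V}
    (hq : q ∈ Ω) (h : Adj p q) (hs : s (ed q p) ≠ .o) (o : Bool) :
    mu {l | l ∈ Pe Ω s o p q ∧ (lv q l).j = p.j} ≤ 3 ∧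
      mu {l | l ∈ Pe Ω s o p q ∧ ¬ (lv q l).j = p.j} ≤ bb N := by
  obtain ⟨-, o2⟩ := H.out (hΩ hq) h.symm hs
  have b3 := adj_iff.1 h
  have b4 := mem_boxF.1 (hΩ hq)
  have fin : {l | l ∈ Pe Ω s o p q ∧ ¬ (lv q l).j = p.j}.Finite :=
    (Pe_finite Ω s o p q).subset fun _ h => h.1
  rcases o2 with ⟨o2, o3⟩ | ⟨o2, o3⟩
  · have hg := physc_symU (a := 1 - p.i) (b := 1 - p.k) (c := -1 - p.j) (by omega)
    have e1 : physc_gU (1 - p.i) (1 - p.k) (-1 - p.j) p = p0 := by
      simp only [physc_gU, p0, V.ext_iff]; omega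
    have e2 : physc_gU (1 - p.i) (1 - p.k) (-1 - p.j) q = q0 := by
      simp only [physc_gU, q0, V.ext_iff]; omega
    have hD : ∀ u ∈ box a (a + N) T, physc_gU (1 - p.i) (1 - p.k) (-1 - p.j) u ∈
        box (1 - p.k) (1 - p.k + T) N := by
      intro u hu
      simp only [box, Set.mem_ofPred_eq, physc_gU, Valid] at hu ⊢
      omega
    refine ⟨physc_ret hg e1 e2 hD fun l hl => ?_, physc_cross hg e1 e2 hD fin fun l hl => ?_⟩
    · obtain ⟨c1, c2, -⟩ := physc_pe H hΩ hq h hs hl.1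
      refine ⟨c1, c2, ?_⟩
      have := hl.2
      dsimp only [physc_gU]; omega
    · obtain ⟨c1, c2, -, -, -, c3⟩ := physc_pe H hΩ hq h hs hl.1
      refine ⟨c1, c2, ?_⟩
      have := hl.2
      unfold physc_Side at c3
      dsimp only [physc_gU]; omega
  · have hg := physc_symW (a := 1 + p.i) (b := 1 + p.k) (c := p.j - 1) (by omega)
    have e1 : physc_gW (1 + p.i) (1 + p.k) (p.j - 1) p = p0 := by
      simp only [physc_gW, p0, V.ext_iff]; omega
    have e2 : physc_gW (1 + p.i) (1 + p.k) (p.j - 1) q = q0 := by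
      simp only [physc_gW, q0, V.ext_iff]; omega
    have hD : ∀ u ∈ box a (a + N) T, physc_gW (1 + p.i) (1 + p.k) (p.j - 1) u ∈
        box (2 + p.k - T) (2 + p.k) N := by
      intro u hu
      simp only [box, Set.mem_ofPred_eq, physc_gW, Valid] at hu ⊢
      omega
    refine ⟨physc_ret hg e1 e2 hD fun l hl => ?_, physc_cross hg e1 e2 hD fin fun l hl => ?_⟩
    · obtain ⟨c1, c2, -⟩ := physc_pe H hΩ hq h hs hl.1
      refine ⟨c1, c2, ?_⟩
      have := hl.2
      dsimp only [physc_gW]; omega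
    · obtain ⟨c1, c2, -, -, -, c3⟩ := physc_pe H hΩ hq h hs hl.1
      refine ⟨c1, c2, ?_⟩
      have := hl.2
      unfold physc_Side at c3
      dsimp only [physc_gW]; omega

/-- vertices at the two sides -/
def physc_A (a : ℤ) (N : ℕ) (v : V) : Prop :=
  (v.j = a ∧ v.i + v.j + v.k = 2) ∨ (v.j = a + N - 1 ∧ v.i + v.j + v.k = 1)

instance (a : ℤ) (N : ℕ) : DecidablePred (physc_A a N) := fun v => by
  unfold physc_A; infer_instance

lemma physc_A_of {v c : V} (h : Adj v c) (hs : physc_Side a N v c) : physc_A a N v := by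
  have := adj_iff.1 h
  unfold physc_Side at hs
  unfold physc_A
  omega

lemma physc_card {n : ℕ} (hn : (Ω.filter (physc_A a N)).card ≤ n + 1) {q : V} (hq : q ∈ Ω)
    (hA : physc_A a N q) (l : List V) :
    ((Ω \ (q :: l).toFinset).filter (physc_A a N)).card ≤ n := by
  have : ((Ω \ (q :: l).toFinset).filter (physc_A a N)).card <
      (Ω.filter (physc_A a N)).card := by
    refine Finset.card_lt_card ⟨Finset.filter_subset_filter _ Finset.sdiff_subset, fun h => ?_⟩
    have := h (Finset.mem_filter.2 ⟨hq, hA⟩)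
    simp at this
  omega

lemma physc_valid (hΩ : Ω ⊆ boxF a (a + N) T) : ∀ v ∈ Ω, Valid v :=
  fun _ hv => (mem_boxF.1 (hΩ hv)).1

lemma physc_nrm (H : physc_H a N T s) (hΩ : Ω ⊆ boxF a (a + N) T) : Nrm Ω s :=
  fun u hu c hc h => H.nrm u (hΩ hu) c (hΩ hc) h

lemma physc_B1 (hN : 0 < N) (H : physc_H a N T s) (n : ℕ) : ∀ Ω : Finset V,
    Ω ⊆ boxF a (a + N) T → (Ω.filter (physc_A a N)).card ≤ n → ‖Z Ω s‖ ≤ 4 ^ n := by
  induction n with
  | zero =>
    intro Ω hΩ hn
    rw [Z_zero (physc_valid hΩ) fun u hu c _ h => ?_]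
    · simp
    · by_contra hs
      have := physc_A_of h (H.out (hΩ hu) h hs).2
      have := Finset.card_pos.2 ⟨u, Finset.mem_filter.2 ⟨hu, this⟩⟩
      omega
  | succ n ih =>
    intro Ω hΩ hn
    by_cases h0 : ∀ u ∈ Ω, ∀ c, c ∉ Ω → Adj u c → s (ed u c) = .o
    · rw [Z_zero (physc_valid hΩ) h0, norm_one]
      exact one_le_pow₀ (by norm_num)
    simp only [not_forall] at h0
    obtain ⟨q, hq, p, hp, h, hs⟩ := h0
    obtain ⟨o, ho⟩ := spo_cases h.symm hs
    have hA := physc_A_of h (H.out (hΩ hq) h hs).2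
    rw [Z_peel (physc_valid hΩ) (physc_nrm H hΩ) hp hq h.symm o (by rw [ed_comm, ho])]
    obtain ⟨m1, m2⟩ := physc_mass hN H hΩ hq h.symm hs o
    have key : ∀ l : List V, ‖wtb o p q l * Z (Ω \ (q :: l).toFinset) s‖ ≤ 4 ^ n * wt l := by
      intro l
      rw [norm_mul, norm_wtb, mul_comm]
      exact mul_le_mul_of_nonneg_right
        (ih _ (Finset.sdiff_subset.trans hΩ) (physc_card hn hq hA l)) (wt_pos l).le
    refine (physc_norm (Pe_finite Ω s o p q) _ (fun l => (lv q l).j = p.j) (by positivity)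
      (by positivity) (fun l _ _ => key l) (fun l _ _ => key l) m1
      (m2.trans (bb_le_one N))).trans (le_of_eq ?_)
    ring

def physc_vL (a : ℤ) (k : ℕ) : V := ⟨2 - a - k, a, k⟩
def physc_cL (a : ℤ) (k : ℕ) : V := ⟨2 - a - k, a - 1, k⟩

lemma physc_adjL (a : ℤ) (k : ℕ) : Adj (physc_cL a k) (physc_vL a k) := by
  rw [adj_iff]; dsimp only [physc_cL, physc_vL]; omega

lemma physc_eW (a : ℤ) (k : ℕ) : eW a k = ed (physc_cL a k) (physc_vL a k) := rfl

/-- charge of the left edges with an end in `Ω` -/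
def physc_ch (a : ℤ) (T : ℕ) (s : Cfg) (Ω : Finset V) : ℤ :=
  ∑ k ∈ Finset.range T, if physc_vL a k ∈ Ω then (s (eW a k)).val else 0

lemma physc_ch_eq (H : physc_H a N T s) (hΩ : Ω ⊆ boxF a (a + N) T) {k : ℕ}
    (hq : physc_vL a k ∈ Ω) {o : Bool} (ho : s (eW a k) = spo o (physc_cL a k) (physc_vL a k))
    {l : List V} (hl : l ∈ Pe Ω s o (physc_cL a k) (physc_vL a k))
    (hj : (lv (physc_vL a k) l).j = (physc_cL a k).j) (hN : 0 < N) :
    physc_ch a T s (Ω \ (physc_vL a k :: l).toFinset) = physc_ch a T s Ω := by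
  have hs : s (ed (physc_vL a k) (physc_cL a k)) ≠ .o := by
    rw [ed_comm, ← physc_eW, ho]; exact physc_spo_ne _ _ _
  obtain ⟨-, -, c1, c2, c3, c4⟩ := physc_pe H hΩ hq (physc_adjL a k) hs hl
  obtain ⟨-, -, -, -, h5, h6, h7⟩ := hl
  set v := pv (physc_cL a k) (physc_vL a k) l with hv
  set c := lv (physc_vL a k) l with hc
  have b1 := mem_boxF.1 (hΩ c1)
  have b2 := adj_iff.1 c3
  have b3 := mem_boxF.1 (hΩ hq)
  obtain ⟨k', hk'⟩ := Int.eq_ofNat_of_zero_le b1.2.1
  have ev : v = physc_vL a k' := by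
    unfold physc_Side at c4
    dsimp only [physc_cL] at hj
    rw [V.ext_iff]; dsimp only [physc_vL]; omega
  have ec : c = physc_cL a k' := by
    unfold physc_Side at c4
    dsimp only [physc_cL] at hj
    rw [V.ext_iff]; dsimp only [physc_cL]; omega
  rw [ev, ec] at h5 h6 h7
  rw [ev] at c1 c2
  rw [ed_comm (physc_vL a k'), ← physc_eW, ← physc_eW] at h5 h7
  rw [ed_comm (physc_vL a k'), ← physc_eW] at h6
  have hkk : k ≠ k' := fun e => h5 (by rw [e])
  have inj : ∀ x y : ℕ, eW a x = eW a y → x = y := by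
    intro x y e
    simp only [eW, ed, V.ext_iff] at e
    omega
  have kT : k < T := by have := b3.2.2.1; dsimp only [physc_vL] at this; omega
  have kT' : k' < T := by have := b1.2.2.1; omega
  have hv0 : (s (eW a k)).val + (s (eW a k')).val = 0 := by
    rw [ho, h6]
    have e1 : sp (physc_cL a k) (physc_vL a k) = .p := by simp [sp, physc_cL, physc_vL]
    have e2 : sp (physc_cL a k') (physc_vL a k') = .p := by simp [sp, physc_cL, physc_vL]
    have e3 := sp_val (physc_adjL a k)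
    have e4 := sp_val (physc_adjL a k')
    rw [e1] at e3
    rw [e2] at e4
    cases o
    · simp only [spo, Bool.false_eq_true, if_false]
      rw [e3, e2]; ring
    · simp only [spo, if_true]
      rw [e4, e1]; ring
  unfold physc_ch
  rw [← sub_eq_zero, ← Finset.sum_sub_distrib,
    ← Finset.sum_subset (s₁ := {k, k'}) (fun x hx => ?_) fun x _ hx => ?_]
  · rw [Finset.sum_pair hkk, if_neg (by simp), if_pos hq, if_neg, if_pos c1]
    · linarith
    · rw [Finset.mem_sdiff, List.mem_toFinset]; exact fun h => h.2 c2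
  · rw [Finset.mem_range]
    rcases Finset.mem_insert.1 hx with rfl | hx
    · exact kT
    · rw [Finset.mem_singleton.1 hx]; exact kT'
  · by_cases m1 : physc_vL a x ∈ Ω
    · by_cases m2 : physc_vL a x ∈ physc_vL a k :: l
      · have nc : physc_cL a x ∉ Ω := fun h => by
          have := (mem_boxF.1 (hΩ h)).2.2.2.1
          dsimp only [physc_cL] at this; omega
        have := h7 _ m2 m1 _ nc (physc_adjL a x).symm
        rw [ed_comm (physc_vL a x), ← physc_eW] at this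
        simp only [Finset.mem_insert, Finset.mem_singleton, not_or] at hx
        rcases this with e | e | e
        · exact absurd (inj _ _ e) hx.1
        · exact absurd (inj _ _ e) hx.2
        · rw [e]; simp [S.val]
      · rw [if_pos m1, if_pos, sub_self]
        rw [Finset.mem_sdiff, List.mem_toFinset]; exact ⟨m1, m2⟩
    · rw [if_neg m1, if_neg, sub_self]
      exact fun h => m1 (Finset.mem_sdiff.1 h).1

lemma physc_ex (h : physc_ch a T s Ω ≠ 0) : ∃ k : ℕ, physc_vL a k ∈ Ω ∧ s (eW a k) ≠ .o := by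
  obtain ⟨k, -, hk⟩ := Finset.exists_ne_zero_of_sum_ne_zero h
  refine ⟨k, ?_, fun e => hk ?_⟩
  · by_contra e; exact hk (if_neg e)
  · rw [e]; simp [S.val]

lemma physc_B2 (hN : 0 < N) (H : physc_H a N T s) (n : ℕ) : ∀ Ω : Finset V,
    Ω ⊆ boxF a (a + N) T → (Ω.filter (physc_A a N)).card ≤ n → physc_ch a T s Ω ≠ 0 →
      ‖Z Ω s‖ ≤ n * 4 ^ n * bb N := by
  have hA : ∀ k : ℕ, physc_A a N (physc_vL a k) := fun k =>
    Or.inl ⟨rfl, by dsimp only [physc_vL]; omega⟩
  induction n with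
  | zero =>
    intro Ω hΩ hn hc
    obtain ⟨k, hq, -⟩ := physc_ex hc
    have := Finset.card_pos.2 ⟨_, Finset.mem_filter.2 ⟨hq, hA k⟩⟩
    omega
  | succ n ih =>
    intro Ω hΩ hn hc
    obtain ⟨k, hq, hs⟩ := physc_ex hc
    have h := physc_adjL a k
    obtain ⟨o, ho⟩ := spo_cases h hs
    have hp : physc_cL a k ∉ Ω := fun h => by
      have := (mem_boxF.1 (hΩ h)).2.2.2.1
      dsimp only [physc_cL] at this; omega
    rw [Z_peel (physc_valid hΩ) (physc_nrm H hΩ) hp hq h o ho]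
    obtain ⟨m1, m2⟩ := physc_mass hN H hΩ hq h (by rw [ed_comm]; exact hs) o
    have hb := bb_nonneg N
    refine (physc_norm (c1 := n * 4 ^ n * bb N) (c2 := 4 ^ n) (Pe_finite Ω s o _ _) _
      (fun l => (lv (physc_vL a k) l).j = (physc_cL a k).j) (by positivity)
      (by positivity) (fun l hl hj => ?_) (fun l _ _ => ?_) m1 m2).trans ?_
    · rw [norm_mul, norm_wtb, mul_comm]
      refine mul_le_mul_of_nonneg_right
        (ih _ (Finset.sdiff_subset.trans hΩ) (physc_card hn hq (hA k) l) ?_) (wt_pos l).le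
      rw [physc_ch_eq H hΩ hq ho hl hj hN]; exact hc
    · rw [norm_mul, norm_wtb, mul_comm]
      exact mul_le_mul_of_nonneg_right (physc_B1 hN H n _ (Finset.sdiff_subset.trans hΩ)
        (physc_card hn hq (hA k) l)) (wt_pos l).le
    · push_cast
      have : (0 : ℝ) ≤ 4 ^ n * bb N := by positivity
      have : (0 : ℝ) ≤ n * (4 ^ n * bb N) := by positivity
      rw [pow_succ]
      nlinarith

lemma physc_cardA : ((boxF a (a + N) T).filter (physc_A a N)).card ≤ 2 * T := by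
  have : (boxF a (a + N) T).filter (physc_A a N) ⊆
      (Finset.range T).image (physc_vL a) ∪
        (Finset.range T).image fun k : ℕ => (⟨2 - (a + N) - k, a + N - 1, k⟩ : V) := by
    intro v hv
    obtain ⟨h1, h2⟩ := Finset.mem_filter.1 hv
    have b := mem_boxF.1 h1
    obtain ⟨k, hk⟩ := Int.eq_ofNat_of_zero_le b.2.1
    have kT : k ∈ Finset.range T := Finset.mem_range.2 (by omega)
    rcases h2 with h2 | h2
    · refine Finset.mem_union_left _ (Finset.mem_image.2 ⟨k, kT, ?_⟩)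
      rw [V.ext_iff]; dsimp only [physc_vL]; omega
    · refine Finset.mem_union_right _ (Finset.mem_image.2 ⟨k, kT, ?_⟩)
      rw [V.ext_iff]; dsimp only; omega
  refine (Finset.card_le_card this).trans ((Finset.card_union_le _ _).trans ?_)
  have h1 := Finset.card_image_le (s := Finset.range T) (f := physc_vL a)
  have h2 := Finset.card_image_le (s := Finset.range T)
    (f := fun k : ℕ => (⟨2 - (a + N) - k, a + N - 1, k⟩ : V))
  rw [Finset.card_range] at h1 h2
  omega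

end

lemma physc_bb : Tendsto bb atTop (𝓝 0) := by
  obtain ⟨Λ, hΛ⟩ := decay_any (θ := 1 / 2) (by norm_num)
  rw [Metric.tendsto_atTop]
  intro ε hε
  obtain ⟨j, hj⟩ := exists_pow_lt_of_lt_one hε (show (1 / 2 : ℝ) < 1 by norm_num)
  refine ⟨2 * Λ ^ j + 1, fun n hn => ?_⟩
  rw [Real.dist_eq, sub_zero, abs_of_nonneg (bb_nonneg n)]
  exact ((bb_le_vv (by omega)).trans (hΛ Λ le_rfl j)).trans_lt hj

theorem decayZ (T : ℕ) : ∃ ε : ℕ → ℝ, Tendsto ε atTop (𝓝 0) ∧
    ∀ (a : ℤ) (N : ℕ) (s : Cfg), 0 < N →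
      (∀ i : ℕ, i < N → s (eS (a + i) 0) = .o ∧ s (eS (a + i) T) = .o) →
      ∑ k ∈ Finset.range T, (s (eW a k)).val ≠ 0 → ‖Z (boxF a (a + N) T) s‖ ≤ ε N := by
  refine ⟨fun N => ((2 * T : ℕ) : ℝ) * 4 ^ (2 * T) * bb N, ?_, fun a N s hN hs hc => ?_⟩
  · simpa using physc_bb.const_mul (((2 * T : ℕ) : ℝ) * 4 ^ (2 * T))
  obtain ⟨t, ht, hts⟩ := exists_nrm (boxF a (a + N) T) s
  have H : physc_H a N T t := by
    refine ⟨ht, fun v hv c hc h hne => ?_⟩
    rw [hts v c h (Or.inr hc)] at hne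
    have b := mem_boxF.1 hv
    obtain ⟨i, hi⟩ := Int.eq_ofNat_of_zero_le (show 0 ≤ v.j - a by omega)
    have ei : v.j = a + i := by omega
    have := hs i (by omega)
    rcases box_bdry hv hc h with e | e | e | e
    · exact Or.inl ⟨e.1, e.2.1⟩
    · exact Or.inr ⟨e.1, e.2.1⟩
    · rw [e.2.2.2, ei] at hne; exact absurd this.1 hne
    · rw [e.2.2.2, ei] at hne; exact absurd this.2 hne
  rw [Z_congr (t := t) (physc_valid (Finset.Subset.refl _))
    fun u _ c hc h => (hts u c h (Or.inr hc)).symm]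
  refine physc_B2 hN H (2 * T) _ (Finset.Subset.refl _) physc_cardA fun e => hc ?_
  rw [← e]
  refine Finset.sum_congr rfl fun k hk => ?_
  have hk' := Finset.mem_range.1 hk
  have m1 : physc_vL a k ∈ boxF a (a + N) T := by
    rw [mem_boxF]; dsimp only [physc_vL, Valid]; omega
  have m2 : physc_cL a k ∉ boxF a (a + N) T := by
    rw [mem_boxF]; dsimp only [physc_cL, Valid]; omega
  rw [if_pos m1, physc_eW, hts _ _ (physc_adjL a k) (Or.inl m2)]

lemma physc_tr (T N : ℕ) : tr T (fun _ => .o) N = Ch T ^ N := by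
  induction N with
  | zero => rfl
  | succ N ih => rw [pow_succ', ← ih]; rfl

lemma physc_supp {T : ℕ} {v : Vec} (hs : Supp T v) (N : ℕ) : Supp T ((Ch T ^ N) v) := by
  induction N with
  | zero => exact hs
  | succ N ih =>
    rw [pow_succ']
    have h1 := ((ih.mono (Nat.le_succ T)).down (i := 0) aux (List.replicate T hn)
      (by simp)).prj .o
    exact h1.smul _

def physc_ext (T : ℕ) (y : Fin T → S) : St := fun i => if h : i < T then y ⟨i, h⟩ else .o

lemma physc_dec {T : ℕ} {v : Vec} (hs : Supp T v) :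
    v = ∑ y : Fin T → S, v (physc_ext T y) • dl (physc_ext T y) := by
  funext σ
  rw [Finset.sum_apply]
  simp only [Pi.smul_apply, smul_eq_mul, dl]
  by_cases h : ∀ i, T ≤ i → σ i = .o
  · have e : σ = physc_ext T fun i => σ i := by
      funext i
      unfold physc_ext
      split_ifs with hi
      · rfl
      · exact h i (by omega)
    rw [Finset.sum_eq_single (fun i : Fin T => σ i)]
    · rw [if_pos e, ← e, mul_one]
    · intro y _ hy
      rw [if_neg, mul_zero]
      intro e'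
      apply hy
      funext i
      have := congrFun e' i
      simp only [physc_ext, i.2, dif_pos] at this
      exact this.symm
    · simp
  · simp only [not_forall] at h
    obtain ⟨i, hi, hne⟩ := h
    rw [hs σ i hi hne]
    refine (Finset.sum_eq_zero fun y _ => ?_).symm
    rw [if_neg, mul_zero]
    intro e
    apply hne
    rw [e]; unfold physc_ext; rw [dif_neg (by omega)]

lemma physc_dl {T : ℕ} {τ σ : St} (hτ : ∀ i, T ≤ i → τ i = .o) (hσ : ∀ i, T ≤ i → σ i = .o)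
    (hc : chg T τ ≠ 0) : Tendsto (fun N => (Ch T ^ N) (dl τ) σ) atTop (𝓝 0) := by
  obtain ⟨ε, hε, h⟩ := decayZ T
  refine squeeze_zero_norm' ?_ hε
  filter_upwards [eventually_gt_atTop 0] with N hN
  let s : Cfg := fun e => if e.j = -1 then τ (e.k / 2).toNat
    else if e.j = 2 * N - 1 then σ (e.k / 2).toNat else .o
  have hL : ∀ k : ℕ, s (eW 0 k) = τ k := by
    intro k
    have e1 : (eW 0 k).j = -1 := by simp [eW, ed]
    have e2 : ((eW 0 k).k / 2).toNat = k := by dsimp only [eW, ed]; omega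
    simp only [s]; rw [if_pos e1, e2]
  have hR : ∀ k : ℕ, s (eW (0 + N) k) = σ k := by
    intro k
    have e1 : (eW (0 + N) k).j = 2 * N - 1 := by dsimp only [eW, ed]; omega
    have e2 : ((eW (0 + N) k).k / 2).toNat = k := by dsimp only [eW, ed]; omega
    simp only [s]; rw [if_neg (by omega), if_pos e1, e2]
  have hS : ∀ j k : ℤ, s (eS j k) = .o := by
    intro j k
    have e1 : (eS j k).j = 2 * j := by dsimp only [eS, ed]; omega
    simp only [s]; rw [if_neg (by omega), if_neg (by omega)]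
  rw [← physc_tr, transfer T 0 N (fun _ => .o) hτ hσ (s := s) (fun k _ => hL k)
    (fun k _ => hR k) (fun i _ => hS _ _) fun i _ => hS _ _]
  refine h 0 N s hN (fun i _ => ⟨hS _ _, hS _ _⟩) ?_
  simp only [hL]
  exact hc

theorem ch_decay {T : ℕ} {c : ℤ} (hc : c ≠ 0) {v : Vec} (hs : Supp T v) (h : HasCh T c v)
    (σ : St) : Tendsto (fun N => (Ch T ^ N) v σ) atTop (𝓝 0) := by
  by_cases hσ : ∀ i, T ≤ i → σ i = .o
  · have e : ∀ N, (Ch T ^ N) v σ =
        ∑ y : Fin T → S, v (physc_ext T y) * (Ch T ^ N) (dl (physc_ext T y)) σ := by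
      intro N
      conv_lhs => rw [physc_dec hs, map_sum, Finset.sum_apply]
      refine Finset.sum_congr rfl fun y _ => ?_
      rw [map_smul]; rfl
    simp only [e]
    have : (0 : ℂ) = ∑ _y : Fin T → S, 0 := by simp
    rw [this]
    refine tendsto_finsetSum _ fun y _ => ?_
    by_cases hy : chg T (physc_ext T y) = c
    · have := (physc_dl (τ := physc_ext T y) (fun i hi => dif_neg (by omega)) hσ
        (by rw [hy]; exact hc)).const_mul (v (physc_ext T y))
      rwa [mul_zero] at this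
    · simp only [h _ hy, zero_mul]
      exact tendsto_const_nhds
  · simp only [not_forall] at hσ
    obtain ⟨i, hi, hne⟩ := hσ
    simp only [fun N => physc_supp hs N σ i hi hne]
    exact tendsto_const_nhds

end Pool.Agent.Lib.MP_4960b8_pr.QK
end
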