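import Pool.Agent.Lib.MP_4960b8_pr.QK.AlgA

-- part Pool.Agent.Lib.MP_4960b8_pr.QK.AlgB
section

/-! The currents. -/

namespace Pool.Agent.Lib.MP_4960b8_pr.QK

lemma algb_z (n : ℕ) (h : 8 ≤ n) : ζ ^ n = -ζ ^ (n - 8) := by
  obtain ⟨k, rfl⟩ := Nat.exists_eq_add_of_le' h
  rw [pow_add, h8, Nat.add_sub_cancel]; ring
lemma algb_aux1 : aux.1 = 1 := rfl
lemma algb_aux2 : aux.2 = ζ ^ 3 := rfl

/-! bottom components -/
lemma algb_prj_apply (s : S) (v : Vec) (σ : St) : prj s v σ = v (cons s σ) := rfl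
lemma algb_lift_apply (A : Op) (v : Vec) (x : S) (t : St) :
    lift A v (cons x t) = A (prj x v) t := rfl

lemma algb_JE_o (a : P) (l : List P) (v : Vec) : prj .o (JE (a :: l) v) =
    (pQ l * ζ ^ 10 * a.2) • prj .m v + a.2 • JE l (prj .o v) := by
  funext σ
  simp only [JE, algb_prj_apply, LinearMap.add_apply, LinearMap.smul_apply, Pi.add_apply,
    Pi.smul_apply, smul_eq_mul, Module.End.mul_apply, kap, basic_dg_apply, basic_ev, e1,
    basic_loc_apply, algb_lift_apply]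
  ring
lemma algb_JE_p (a : P) (l : List P) (v : Vec) : prj .p (JE (a :: l) v) =
    (pQ l * a.1) • prj .o v + (a.2 * ζ ^ 6) • JE l (prj .p v) := by
  funext σ
  simp only [JE, algb_prj_apply, LinearMap.add_apply, LinearMap.smul_apply, Pi.add_apply,
    Pi.smul_apply, smul_eq_mul, Module.End.mul_apply, kap, basic_dg_apply, basic_ev, e1,
    basic_loc_apply, algb_lift_apply]
  ring
lemma algb_JE_m (a : P) (l : List P) (v : Vec) : prj .m (JE (a :: l) v) =
    (a.2 * ζ ^ 10) • JE l (prj .m v) := by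
  funext σ
  simp only [JE, algb_prj_apply, LinearMap.add_apply, LinearMap.smul_apply, Pi.add_apply,
    Pi.smul_apply, smul_eq_mul, Module.End.mul_apply, kap, basic_dg_apply, basic_ev, e1,
    basic_loc_apply, algb_lift_apply]
  ring
lemma algb_JF_o (a : P) (l : List P) (v : Vec) : prj .o (JF (a :: l) v) =
    (pP l * a.2) • prj .p v + a.1 • JF l (prj .o v) := by
  funext σ
  simp only [JF, algb_prj_apply, LinearMap.add_apply, LinearMap.smul_apply, Pi.add_apply,
    Pi.smul_apply, smul_eq_mul, Module.End.mul_apply, kap, basic_dg_apply, basic_ev, f1,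
    basic_loc_apply, algb_lift_apply]
  ring
lemma algb_JF_p (a : P) (l : List P) (v : Vec) : prj .p (JF (a :: l) v) =
    (a.1 * ζ ^ 6) • JF l (prj .p v) := by
  funext σ
  simp only [JF, algb_prj_apply, LinearMap.add_apply, LinearMap.smul_apply, Pi.add_apply,
    Pi.smul_apply, smul_eq_mul, Module.End.mul_apply, kap, basic_dg_apply, basic_ev, f1,
    basic_loc_apply, algb_lift_apply]
  ring
lemma algb_JF_m (a : P) (l : List P) (v : Vec) : prj .m (JF (a :: l) v) =
    (pP l * a.1) • prj .o v + (a.1 * ζ ^ 10) • JF l (prj .m v) := by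
  funext σ
  simp only [JF, algb_prj_apply, LinearMap.add_apply, LinearMap.smul_apply, Pi.add_apply,
    Pi.smul_apply, smul_eq_mul, Module.End.mul_apply, kap, basic_dg_apply, basic_ev, f1,
    basic_loc_apply, algb_lift_apply]
  ring
lemma algb_Q_o (n : ℕ) (v : Vec) : prj .o (Q (n + 1) v) = Q n (prj .o v) := by
  funext σ
  simp only [Q_succ, algb_prj_apply, LinearMap.add_apply, Pi.add_apply,
    Module.End.mul_apply, kq, basic_dg_apply, basic_ev, q1, basic_loc_apply, algb_lift_apply]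
  ring
lemma algb_Q_p (n : ℕ) (v : Vec) :
    prj .p (Q (n + 1) v) = prj .m v + ζ ^ 4 • Q n (prj .p v) := by
  funext σ
  simp only [Q_succ, algb_prj_apply, LinearMap.add_apply, Pi.add_apply, Pi.smul_apply,
    smul_eq_mul,
    Module.End.mul_apply, kq, basic_dg_apply, basic_ev, q1, basic_loc_apply, algb_lift_apply]
  ring
lemma algb_Q_m (n : ℕ) (v : Vec) : prj .m (Q (n + 1) v) = (-ζ ^ 4) • Q n (prj .m v) := by
  funext σ
  simp only [Q_succ, algb_prj_apply, LinearMap.add_apply, Pi.add_apply, Pi.smul_apply,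
    smul_eq_mul,
    Module.End.mul_apply, kq, basic_dg_apply, basic_ev, q1, basic_loc_apply, algb_lift_apply]
  ring
lemma algb_zer (v : Vec) : v zer = prj .o v zer := by rw [algb_prj_apply, basic_cons_zer]
lemma algb_Q_zer (n : ℕ) (v : Vec) : Q n v zer = 0 := by
  induction n generalizing v with
  | zero => rfl
  | succ n ih => rw [algb_zer (Q (n + 1) v), algb_Q_o, ih]

/-! the top site -/
/-- the diagonal operator `dg 1 y z` on each of the `n` lowest sites -/
noncomputable def algb_kk (y z : ℂ) : ℕ → Op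
  | 0 => 1
  | n + 1 => dg 1 y z * lift (algb_kk y z n)

lemma algb_pQ_app (l : List P) (a : P) : pQ (l ++ [a]) = pQ l * a.2 := by
  simp only [pQ, List.map_append, List.prod_append, List.map_cons, List.map_nil, List.prod_cons,
    List.prod_nil, mul_one]
lemma algb_pP_app (l : List P) (a : P) : pP (l ++ [a]) = pP l * a.1 := by
  simp only [pP, List.map_append, List.prod_append, List.map_cons, List.map_nil, List.prod_cons,
    List.prod_nil, mul_one]
lemma algb_pQ_nil : pQ [] = 1 := rfl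
lemma algb_pP_nil : pP [] = 1 := rfl

lemma algb_JE_top (l : List P) (a : P) : JE (l ++ [a]) =
    a.2 • JE l + pQ l • (algb_kk (ζ ^ 6) (ζ ^ 10) l.length * liftN l.length (e1 a)) := by
  induction l with
  | nil =>
    simp only [List.nil_append, JE, List.length_nil, algb_kk, basic_liftN_zero, lift_zero,
      mul_zero, smul_zero, add_zero, zero_add, one_mul]
  | cons m l ih =>
    simp only [List.cons_append, JE, ih, List.length_cons, algb_kk, basic_liftN_succ, lift_add,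
      lift_smul, lift_mul, algb_pQ_app, local_pQ_cons, mul_add, mul_smul_comm, mul_assoc, kap]
    module
lemma algb_JF_top (l : List P) (a : P) : JF (l ++ [a]) =
    a.1 • JF l + pP l • (algb_kk (ζ ^ 6) (ζ ^ 10) l.length * liftN l.length (f1 a)) := by
  induction l with
  | nil =>
    simp only [List.nil_append, JF, List.length_nil, algb_kk, basic_liftN_zero, lift_zero,
      mul_zero, smul_zero, add_zero, zero_add, one_mul]
  | cons m l ih =>
    simp only [List.cons_append, JF, ih, List.length_cons, algb_kk, basic_liftN_succ, lift_add,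
      lift_smul, lift_mul, algb_pP_app, local_pP_cons, mul_add, mul_smul_comm, mul_assoc, kap]
    module
lemma algb_Q_top (n : ℕ) : Q (n + 1) = Q n + algb_kk (ζ ^ 4) (-ζ ^ 4) n * liftN n q1 := by
  induction n with
  | zero =>
    rw [Q_succ]
    simp only [Q, algb_kk, basic_liftN_zero, lift_zero, mul_zero, add_zero, zero_add, one_mul]
  | succ n ih =>
    rw [Q_succ (n + 1)]
    conv_lhs => rw [ih]
    rw [Q_succ n, lift_add, lift_mul, mul_add, add_assoc, algb_kk, basic_liftN_succ, mul_assoc]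
    rfl
lemma algb_kk_liftN (y z : ℂ) (n : ℕ) (A : Op) :
    algb_kk y z n * liftN n A = liftN n A * algb_kk y z n := by
  induction n with
  | zero => rw [algb_kk, mul_one, one_mul]
  | succ n ih =>
    rw [algb_kk, basic_liftN_succ, mul_assoc, ← lift_mul, ih, lift_mul, ← mul_assoc,
      local_dg_lift, mul_assoc]
lemma algb_Q_liftN (n : ℕ) (A : Op) : Q n * liftN n A = liftN n A * Q n := by
  induction n with
  | zero =>
    show 0 * _ = _ * 0
    rw [zero_mul, mul_zero]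
  | succ n ih => exact local_Q_step ih
lemma algb_kk_apply {y z : ℂ} (h : y * z = 1) (n : ℕ) (v : Vec) (σ : St) :
    algb_kk y z n v σ = y ^ chg n σ * v σ := by
  have hy : y ≠ 0 := left_ne_zero_of_mul_eq_one h
  induction n generalizing v σ with
  | zero => simp [algb_kk, chg]
  | succ n ih =>
    obtain ⟨x, t, rfl⟩ := basic_ex1 σ
    rw [algb_kk, Module.End.mul_apply, basic_dg_apply, algb_lift_apply, ih, basic_chg_cons,
      zpow_add₀ hy, algb_prj_apply, ← mul_assoc]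
    congr 2
    cases x
    · simp [basic_ev, S.val]
    · simp [basic_ev, S.val]
    · simp only [basic_ev, S.val, zpow_neg, zpow_one]
      exact eq_inv_of_mul_eq_one_right h
lemma algb_kk_ch {y z : ℂ} (h : y * z = 1) {n : ℕ} {c : ℤ} {v : Vec} (hv : HasCh n c v) :
    algb_kk y z n v = y ^ c • v := by
  funext σ
  rw [algb_kk_apply h, Pi.smul_apply, smul_eq_mul]
  by_cases e : chg n σ = c
  · rw [e]
  · rw [hv σ e, mul_zero, mul_zero]
lemma algb_qf : q1 * f1 aux = e1 aux * E0 := by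
  refine ext1 fun v s t => ?_
  cases s <;>
    simp only [Module.End.mul_apply, q1, f1, e1, E0, basic_dg_apply, basic_loc_apply, basic_ev,
      aux] <;> ring

lemma algb_M1 {l : List P} {c : ℤ} {v : Vec} (hc : HasCh l.length c v) :
    JE (aux :: l) (down aux l v) = ζ ^ 3 • down aux l (JE l v) +
      (pQ l * (ζ ^ 6) ^ c) • down aux l (liftN l.length (e1 aux) v) := by
  have e := congrArg (fun A : Op => A v) (JE_down aux l [])
  simp only [List.append_nil, Module.End.mul_apply] at e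
  rw [e, algb_JE_top, algb_kk_liftN]
  simp only [LinearMap.add_apply, LinearMap.smul_apply, Module.End.mul_apply,
    algb_kk_ch local_kap hc, map_add, map_smul, smul_smul]
  rfl
lemma algb_M3 {l : List P} {v : Vec} (hs : Supp l.length v) :
    Q (l.length + 1) (down aux l v) = down aux l (Q l.length v) := by
  have e := congrArg (fun A : Op => A v) (Q_down aux l (n := l.length + 1) le_rfl)
  simp only [Module.End.mul_apply] at e
  rw [e, Q_succ_supp hs]
lemma algb_M2 {l : List P} {c : ℤ} {v : Vec} (hs : Supp l.length v) (hc : HasCh l.length c v)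
    (hq : Q l.length v = 0) :
    Q (l.length + 1) (JF (aux :: l) (down aux l v)) = down aux l (Q l.length (JF l v)) +
      (pP l * (ζ ^ 6) ^ c * (ζ ^ 4) ^ c) • down aux l (liftN l.length (e1 aux) v) := by
  have e := congrArg (fun A : Op => A v) (JF_down aux l [])
  simp only [List.append_nil, Module.End.mul_apply] at e
  have e' (w : Vec) := congrArg (fun A : Op => A w) (Q_down aux l (n := l.length + 1) le_rfl)
  simp only [Module.End.mul_apply] at e'
  have k : Q (l.length + 1) (liftN l.length (f1 aux) v) =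
      (ζ ^ 4) ^ c • liftN l.length (e1 aux) v := by
    have k1 := congrArg (fun A : Op => A v) (algb_Q_liftN l.length (f1 aux))
    simp only [Module.End.mul_apply, hq, map_zero] at k1
    have k2 : liftN l.length q1 (liftN l.length (f1 aux) v) = liftN l.length (e1 aux) v := by
      rw [← Module.End.mul_apply, ← liftN_mul, algb_qf, liftN_mul, Module.End.mul_apply,
        hs.liftN_E0 le_rfl]
    have k3 := congrArg (fun A : Op => A v)
      (algb_kk_liftN (ζ ^ 4) (-ζ ^ 4) l.length (e1 aux))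
    simp only [Module.End.mul_apply, algb_kk_ch local_kq hc, map_smul] at k3
    rw [algb_Q_top, LinearMap.add_apply, Module.End.mul_apply, k1, k2, k3, zero_add]
  rw [e, e', algb_JF_top, algb_kk_liftN]
  simp only [LinearMap.add_apply, LinearMap.smul_apply, Module.End.mul_apply,
    algb_kk_ch local_kap hc, map_add, map_smul, smul_smul, k, Q_succ_supp (hs.JF l le_rfl)]
  simp only [aux, one_smul, mul_assoc]

/-! polynomiality -/
/-- the weighted flux -/
noncomputable def GG (Ψ : List P → Vec) (l : List P) : ℂ := pQ l * LT l (JB l (Ψ l))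

lemma algb_poly_pP {L : List ((ℕ → P) → P)} (hL : ∀ g ∈ L, PolyP g) :
    PolyF fun x => pP (L.map fun g => g x) :=
  PolyF.listProd (fun _ a => a.1) fun g hg => (hL g hg).1
lemma algb_poly_pQ {L : List ((ℕ → P) → P)} (hL : ∀ g ∈ L, PolyP g) :
    PolyF fun x => pQ (L.map fun g => g x) :=
  PolyF.listProd (fun _ a => a.2) fun g hg => (hL g hg).2

lemma PolyO.JB {L : List ((ℕ → P) → P)} (hL : ∀ g ∈ L, PolyP g) :
    PolyO fun x => JB (L.map fun g => g x) := by
  simp only [QK.JB, List.length_map]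
  exact (PolyO.smul (algb_poly_pP hL) (PolyO.JE hL)).add
    (PolyO.smul ((PolyF.const _).mul (algb_poly_pQ hL)) ((PolyO.Q _).mul (PolyO.JF hL)))
lemma PolyF.LT {L : List ((ℕ → P) → P)} (hL : ∀ g ∈ L, PolyP g) {v} (hv : PolyV v) :
    PolyF fun x => LT (L.map fun g => g x) (v x) := by
  induction L generalizing v with
  | nil => exact PolyF.const 0
  | cons a L ih =>
    have ha := hL a List.mem_cons_self
    have hL' : ∀ g ∈ L, PolyP g := fun g hg => hL g (List.mem_cons_of_mem _ hg)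
    exact (((algb_poly_pP hL').mul (ha.2.sub ((PolyF.const _).mul ha.1))).mul (hv _)).add
      (ha.1.mul (ih hL' (PolyO.prj .o v hv)))

lemma algb_vars (T : ℕ) : ∀ g ∈ (List.range T).map fun i (y : ℕ → P) => y i, PolyP g := by
  intro g hg
  obtain ⟨i, -, rfl⟩ := List.mem_map.1 hg
  exact PolyP.var i

/-- list form of the uniqueness statement -/
lemma algb_uniq {F : List P → Vec} (T : ℕ)
    (hF : ∀ L : List ((ℕ → P) → P), L.length = T → (∀ g ∈ L, PolyP g) →
      PolyV fun x => F (L.map fun g => g x))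
    (hs : ∀ l, l.length = T → Supp T (F l)) (hz : ∀ l, l.length = T → F l zer = 0)
    (hc : ∀ l, l.length = T → col l (F l) = fc l • F l) (l : List P) (hl : l.length = T) :
    F l = 0 := by
  have hp : PolyV fun x => F ((List.range T).map x) := by
    simp only [poly_range T]
    exact hF _ (by simp) (algb_vars T)
  have := uniq hp (fun x => hs _ (by simp)) (fun x => hz _ (by simp)) (fun x => hc _ (by simp))
    fun i => l.getD i 0
  subst hl
  rwa [poly_getD] at this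

variable {n : ℕ} {Ψ : List P → Vec}

lemma algb_JB_apply (l : List P) (v : Vec) :
    JB l v = pP l • JE l v + (ζ ^ 5 * pQ l) • Q l.length (JF l v) := rfl
lemma algb_col_apply (l : List P) (v : Vec) : col l v = prj .o (down aux l v) := rfl
lemma algb_colA_apply (l : List P) (v : Vec) : colA l v = prj .m (down aux l v) := rfl

theorem Good.phi_eq (h : Good n Ψ) (l : List P) (hl : l.length ≤ n) :
    fc l • JB l (Ψ l) =
      col l (JB l (Ψ l)) + (pP l * pQ l * (ζ ^ 2 + ζ ^ 4)) • colA l (Ψ l) := by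
  have hq := h.Q_zero l hl
  have hf := h.col_fix l hl
  have h1 := congrArg (prj .o) (algb_M1 (h.ch l hl))
  have h2 := congrArg (prj .o) (algb_M2 (h.supp l hl) (h.ch l hl) hq)
  have h3 := congrArg (prj .p) (algb_M3 (h.supp l hl))
  rw [algb_col_apply] at hf
  rw [algb_JE_o, hf] at h1
  rw [algb_Q_o, algb_JF_o, hf] at h2
  rw [algb_Q_p, hq] at h3
  rw [algb_col_apply, algb_colA_apply, algb_JB_apply]
  simp only [map_add, map_smul, zpow_zero, map_zero, algb_aux1, algb_aux2] at h1 h2 h3 ⊢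
  funext σ
  have h1 := congrFun h1 σ
  have h2 := congrFun h2 σ
  have h3 := congrFun h3 σ
  simp only [Pi.add_apply, Pi.smul_apply, smul_eq_mul, Pi.zero_apply] at h1 h2 h3 ⊢
  linear_combination
    (norm := (ring_nf; simp (disch := decide) only [algb_z, Nat.reduceSub]; ring))
    -ζ ^ 5 * pP l * h1 + ζ ^ 5 * pQ l * h2 - ζ ^ 4 * pP l * pQ l * h3
theorem Good.phi_supp (h : Good n Ψ) (l : List P) (hl : l.length ≤ n) :
    Supp l.length (JB l (Ψ l)) ∧ HasCh l.length 1 (JB l (Ψ l)) := by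
  rw [algb_JB_apply]
  refine ⟨(((h.supp l hl).JE l le_rfl).smul _).add ((((h.supp l hl).JF l le_rfl).Q _).smul _),
    (((h.ch l hl).JE l le_rfl).smul _).add ((((h.ch l hl).JF l le_rfl).Q _ le_rfl).smul _)⟩


lemma Good.algb_col_phi (h : Good n Ψ) (l : List P) (hl : l.length ≤ n) :
    col l (JB l (Ψ l)) =
      fc l • JB l (Ψ l) - (pP l * pQ l * (ζ ^ 2 + ζ ^ 4)) • colA l (Ψ l) := by
  rw [h.phi_eq l hl, add_sub_cancel_right]
lemma Good.algb_poly_phi (h : Good n Ψ) {L : List ((ℕ → P) → P)} (hL : ∀ g ∈ L, PolyP g) :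
    PolyV fun x => JB (L.map fun g => g x) (Ψ (L.map fun g => g x)) :=
  PolyO.JB hL _ (h.pol.polyV hL)
lemma Good.algb_Q_colA (h : Good n Ψ) (l : List P) (hl : l.length ≤ n) :
    Q l.length (colA l (Ψ l)) = 0 := by
  have h3 := congrArg (prj .m) (algb_M3 (h.supp l hl))
  rw [algb_Q_m, h.Q_zero l hl, map_zero, map_zero] at h3
  exact (smul_eq_zero.1 h3).resolve_left (neg_ne_zero.2 (pow_ne_zero _ zeta_ne))

theorem Good.Q_phi (h : Good n Ψ) (l : List P) (hl : l.length ≤ n) :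
    Q l.length (JB l (Ψ l)) = 0 := by
  refine algb_uniq (F := fun l => Q l.length (JB l (Ψ l))) l.length ?_ ?_ ?_ ?_ l rfl
  · intro L _ hL
    simp only [List.length_map]
    exact PolyO.Q _ _ (h.algb_poly_phi hL)
  · intro l' e
    rw [← e] at hl ⊢
    exact (h.phi_supp l' hl).1.Q _
  · intro l' _
    exact algb_Q_zer _ _
  · intro l' e
    rw [← e] at hl
    rw [← Q_col l' (h.phi_supp l' hl).1, h.algb_col_phi l' hl, map_sub, map_smul, map_smul,
      h.algb_Q_colA l' hl, smul_zero, sub_zero]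

lemma Good.algb_colA_phi (h : Good n Ψ) (l : List P) (hl : l.length ≤ n) :
    colA l (JB l (Ψ l)) = (ζ ^ 10 * pP l) • JE l (colA l (Ψ l)) -
      (ζ ^ 3 * pQ l) • Q l.length (JF l (colA l (Ψ l))) := by
  have hq := h.Q_zero l hl
  have hf := h.col_fix l hl
  have h1 := congrArg (prj .m) (algb_M1 (h.ch l hl))
  have h2 := congrArg (prj .m) (algb_M2 (h.supp l hl) (h.ch l hl) hq)
  rw [algb_col_apply] at hf
  rw [algb_JE_m] at h1
  rw [algb_Q_m, algb_JF_m, hf] at h2
  simp only [algb_colA_apply, algb_JB_apply]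
  simp only [map_add, map_smul, zpow_zero, algb_aux1, algb_aux2, hq] at h1 h2 ⊢
  funext σ
  have h1 := congrFun h1 σ
  have h2 := congrFun h2 σ
  simp only [Pi.add_apply, Pi.sub_apply, Pi.smul_apply, smul_eq_mul, Pi.zero_apply] at h1 h2 ⊢
  linear_combination
    (norm := (ring_nf; simp (disch := decide) only [algb_z, Nat.reduceSub]; ring))
    ζ ^ 5 * pP l * h1 - ζ ^ 5 * pQ l * h2

theorem Good.chi2 (h : Good n Ψ) (l : List P) (hl : l.length ≤ n) :
    pQ l • Q l.length (JF l (JB l (Ψ l))) + (ζ ^ 15 * pP l) • JE l (JB l (Ψ l)) = 0 := by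
  refine algb_uniq (F := fun l => pQ l • Q l.length (JF l (JB l (Ψ l))) +
    (ζ ^ 15 * pP l) • JE l (JB l (Ψ l))) l.length ?_ ?_ ?_ ?_ l rfl
  · intro L _ hL
    simp only [List.length_map]
    exact ((PolyO.Q _ _ (PolyO.JF hL _ (h.algb_poly_phi hL))).smul (algb_poly_pQ hL)).add
      ((PolyO.JE hL _ (h.algb_poly_phi hL)).smul ((PolyF.const _).mul (algb_poly_pP hL)))
  · intro l' e
    rw [← e] at hl ⊢
    exact ((((h.phi_supp l' hl).1.JF l' le_rfl).Q _).smul _).add
      (((h.phi_supp l' hl).1.JE l' le_rfl).smul _)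
  · intro l' e
    rw [← e] at hl
    exact (((((h.phi_supp l' hl).2.JF l' le_rfl).Q _ le_rfl).smul _).add
      (((h.phi_supp l' hl).2.JE l' le_rfl).smul _)).zer (by decide)
  · intro l' e
    rw [← e] at hl
    clear e l
    rename' l' => l
    obtain ⟨hs, hc⟩ := h.phi_supp l hl
    have hq := h.Q_phi l hl
    have hf := h.algb_col_phi l hl
    have hA := h.algb_colA_phi l hl
    have h1 := congrArg (prj .o) (algb_M1 hc)
    have h2 := congrArg (prj .o) (algb_M2 hs hc hq)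
    have h3 := congrArg (prj .p) (algb_M3 hs)
    rw [algb_col_apply] at hf
    rw [algb_colA_apply] at hA
    rw [algb_JE_o, hf, hA] at h1
    rw [algb_Q_o, algb_JF_o, hf] at h2
    rw [algb_Q_p, hq, hA] at h3
    rw [algb_col_apply]
    simp only [map_add, map_sub, map_smul, zpow_one, map_zero, algb_aux1, algb_aux2] at h1 h2 h3 ⊢
    funext σ
    have h1 := congrFun h1 σ
    have h2 := congrFun h2 σ
    have h3 := congrFun h3 σ
    simp only [Pi.add_apply, Pi.sub_apply, Pi.smul_apply, smul_eq_mul, Pi.zero_apply]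
      at h1 h2 h3 ⊢
    linear_combination
      (norm := (ring_nf; simp (disch := decide) only [algb_z, Nat.reduceSub]; ring))
      -ζ ^ 12 * pP l * h1 - pQ l * h2 - ζ ^ 7 * pP l * pQ l * h3

lemma algb_fc_app (l : List P) (a : P) : fc (l ++ [a]) = fc l * dd a aux := by
  simp only [fc, List.map_append, List.prod_append, List.map_cons, List.map_nil, List.prod_cons,
    List.prod_nil, mul_one]

theorem Good.phi_K (h : Good n Ψ) (l : List P) (a : P) (hl : l.length < n) :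
    liftN l.length (K a) (JB (l ++ [a]) (Ψ (l ++ [a]))) =
      kd a • JB (l ++ [bar a]) (Ψ (l ++ [bar a])) := by
  obtain ⟨T, hT⟩ : ∃ T, l.length = T := ⟨_, rfl⟩
  have len : ∀ (l : List P) (a : P), l.length = T → (l ++ [a]).length = T + 1 := fun l a e => by
    rw [List.length_append, e]; rfl
  have hn : T + 1 ≤ n := hT ▸ hl
  have sp : ∀ (l : List P) (a : P), l.length = T →
      Supp (T + 1) (JB (l ++ [a]) (Ψ (l ++ [a]))) ∧
        HasCh (T + 1) 1 (JB (l ++ [a]) (Ψ (l ++ [a]))) := fun l a e => by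
    have := h.phi_supp (l ++ [a]) ((len l a e).trans_le hn)
    rwa [len l a e] at this
  have key := uniq (T := T + 1) (v := fun x =>
    liftN T (K (bar (x T))) (JB ((List.range T).map x ++ [bar (x T)])
      (Ψ ((List.range T).map x ++ [bar (x T)]))) -
    kd (bar (x T)) • JB ((List.range T).map x ++ [x T]) (Ψ ((List.range T).map x ++ [x T])))
    ?_ ?_ ?_ ?_ fun i => if i < T then l.getD i 0 else bar a
  · have e : (List.range T).map (fun i => if i < T then l.getD i 0 else bar a) = l := by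
      conv_rhs => rw [← poly_getD l, hT]
      exact List.map_congr_left fun i hi => if_pos (List.mem_range.1 hi)
    simp only [e, lt_irrefl, if_false, bar_bar] at key
    rw [hT]
    exact sub_eq_zero.1 key
  · have p : ∀ g : (ℕ → P) → P, PolyP g → PolyV fun x =>
        JB ((List.range T).map x ++ [g x]) (Ψ ((List.range T).map x ++ [g x])) := fun g hg => by
      have := h.algb_poly_phi (L := ((List.range T).map fun i (y : ℕ → P) => y i) ++ [g])
        fun k hk => by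
          rcases List.mem_append.1 hk with hk | hk
          · exact algb_vars T k hk
          · rw [List.mem_singleton.1 hk]; exact hg
      simp only [List.map_append, ← poly_range T, List.map_cons, List.map_nil] at this
      exact this
    exact (((PolyO.K (PolyP.var T).bar).liftN T) _ (p _ (PolyP.var T).bar)).sub
      ((p _ (PolyP.var T)).smul (PolyF.kd (PolyP.var T).bar))
  · intro x
    exact ((sp _ _ (by simp)).1.K _ _).sub ((sp _ _ (by simp)).1.smul _)
  · intro x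
    exact (((sp _ _ (by simp)).2.K _ _).sub ((sp _ _ (by simp)).2.smul _)).zer (by decide)
  · intro x
    rw [List.range_succ, List.map_append, List.map_singleton]
    have hl' : ((List.range T).map x).length = T := by simp
    generalize (List.range T).map x = l' at hl' ⊢
    generalize x T = b
    have e1 := colB_K .o (bar b) l' (hl' ▸ (sp l' (bar b) hl').1)
    have e2 := colB_K .m (bar b) l' (v := Ψ (l' ++ [bar b])) (by
      have := h.supp (l' ++ [bar b]) ((len _ _ hl').trans_le hn)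
      rwa [len _ _ hl', ← hl'] at this)
    have e3 := h.kt l' (bar b) ((len _ _ hl').trans_le hn)
    have e4 := h.algb_col_phi (l' ++ [bar b]) ((len _ _ hl').trans_le hn)
    have e5 := h.algb_col_phi (l' ++ [b]) ((len _ _ hl').trans_le hn)
    rw [e3, map_smul] at e2
    rw [hl', bar_bar] at e1 e2
    change liftN T _ (col _ _) = col _ _ at e1
    change liftN T _ (colA _ _) = _ • colA _ _ at e2
    rw [map_sub, map_smul, ← e1, e4, e5, map_sub, map_smul, map_smul, e2]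
    simp only [algb_fc_app, algb_pP_app, algb_pQ_app, dd_bar_aux]
    simp only [bar]
    module
theorem Good.G_pol (h : Good n Ψ) : Pol (GG Ψ) := fun _ hL =>
  (algb_poly_pQ hL).mul (PolyF.LT hL (h.algb_poly_phi hL))


/-! the weighted sum -/
lemma algb_LT_cons (a : P) (l : List P) (v : Vec) : LT (a :: l) v =
    pP l * (a.2 - ζ ^ 13 * a.1) * prj .p v zer + a.1 * LT l (prj .o v) := rfl
lemma algb_LT_add (l : List P) (u v : Vec) : LT l (u + v) = LT l u + LT l v := by
  induction l generalizing u v with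
  | nil => exact (add_zero _).symm
  | cons a l ih => simp only [algb_LT_cons, map_add, ih, Pi.add_apply]; ring
lemma algb_LT_smul (l : List P) (c : ℂ) (v : Vec) : LT l (c • v) = c * LT l v := by
  induction l generalizing v with
  | nil => exact (mul_zero _).symm
  | cons a l ih => simp only [algb_LT_cons, map_smul, ih, Pi.smul_apply, smul_eq_mul]; ring

lemma algb_L1 (l : List P) (u : Vec) : pQ l * LT l (Q l.length u) =
    pQ l * JF l (Q l.length u) zer - ζ ^ 3 * pP l * JE l u zer := by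
  induction l generalizing u with
  | nil => simp [LT, JF, JE]
  | cons a l ih =>
    rw [algb_zer (JF _ _), algb_zer (JE _ _), List.length_cons, algb_LT_cons, algb_JF_o,
      algb_JE_o, algb_Q_o, algb_Q_p, local_pQ_cons, local_pP_cons]
    simp only [Pi.add_apply, Pi.smul_apply, smul_eq_mul, algb_Q_zer]
    linear_combination a.1 * a.2 * ih (prj .o u)

/-- empty sites below a state -/
def algb_pad : ℕ → St → St
  | 0, σ => σ
  | i + 1, σ => cons .o (algb_pad i σ)

lemma algb_RQ (a b : P) (i m : ℕ) (w : Vec) :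
    ζ ^ 2 * (liftN i (R a b) w zer - dd a b * w zer) =
      jn a b * Q (m + 2 + i) w (algb_pad i (cons .p (cons .p zer))) := by
  induction i generalizing w with
  | zero =>
    have e : R a b w zer = R a b w (cons .o (cons .o zer)) := by
      rw [basic_cons_zer, basic_cons_zer]
    have e' : w zer = w (cons .o (cons .o zer)) := by rw [basic_cons_zer, basic_cons_zer]
    have k : Q (m + 2 + 0) w (algb_pad 0 (cons .p (cons .p zer))) =
      prj .p (prj .p (Q (m + 1 + 1) w)) zer := rfl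
    rw [basic_liftN_zero, e, e', k, R_apply, algb_Q_p, map_add, map_smul, algb_Q_p]
    simp only [Rf, Pi.add_apply, Pi.smul_apply, smul_eq_mul, algb_Q_zer, algb_prj_apply]
    linear_combination
      (norm := (ring_nf; simp (disch := decide) only [algb_z, Nat.reduceSub]; ring))
  | succ i ih =>
    have k : Q (m + 2 + (i + 1)) w (algb_pad (i + 1) (cons .p (cons .p zer))) =
      prj .o (Q (m + 2 + i + 1) w) (algb_pad i (cons .p (cons .p zer))) := rfl
    have e : liftN (i + 1) (R a b) w zer = liftN i (R a b) (prj .o w) zer :=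
      algb_zer _
    rw [k, algb_Q_o, ← ih, e, algb_zer w]

lemma algb_prj_liftN (s : S) (i : ℕ) (A : Op) (v : Vec) :
    prj s (liftN (i + 1) A v) = liftN i A (prj s v) := rfl

lemma algb_R_oo (a b : P) (v : Vec) : prj .o (prj .o (R a b v)) =
    dd a b • prj .o (prj .o v) +
      jn a b • (ζ ^ 2 • prj .m (prj .p v) - ζ ^ 6 • prj .p (prj .m v)) := rfl
lemma algb_R_po (a b : P) (v : Vec) : prj .o (prj .p (R a b v)) =
    ul a b • prj .o (prj .p v) + vv a b • prj .p (prj .o v) := rfl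
lemma algb_R_op (a b : P) (v : Vec) : prj .p (prj .o (R a b v)) =
    vv a b • prj .o (prj .p v) + uu a b • prj .p (prj .o v) := rfl

lemma algb_s1 (a b : P) : ζ ^ 2 * a.2 * b.2 * (a.1 * (b.2 - ζ ^ 13 * b.1) * ul a b +
    b.1 * (a.2 - ζ ^ 13 * a.1) * vv a b - dd a b * b.1 * (a.2 - ζ ^ 13 * a.1)) =
    jn a b * (ζ ^ 10 * a.1 * a.2 * b.1 * b.2 + ζ ^ 21 * a.1 * b.1 * a.2 * b.1) := by
  simp only [ul, vv, dd, jn]
  linear_combination
    (norm := (ring_nf; simp (disch := decide) only [algb_z, Nat.reduceSub]; ring))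
lemma algb_s2 (a b : P) : ζ ^ 2 * a.2 * b.2 * (a.1 * (b.2 - ζ ^ 13 * b.1) * vv a b +
    b.1 * (a.2 - ζ ^ 13 * a.1) * uu a b - dd a b * a.1 * (b.2 - ζ ^ 13 * b.1)) =
    jn a b * (a.1 * a.2 * b.1 * b.2 + ζ ^ 15 * a.1 * b.1 * b.2 * a.1) := by
  simp only [uu, vv, dd, jn]
  linear_combination
    (norm := (ring_nf; simp (disch := decide) only [algb_z, Nat.reduceSub]; ring))

lemma algb_L2 (a b : P) (l₁ l₂ : List P) (v : Vec) (hv : Q (l₂.length + 2 + l₁.length) v = 0) :
    ζ ^ 2 * pQ (l₁ ++ a :: b :: l₂) * (LT (l₁ ++ b :: a :: l₂) (liftN l₁.length (R a b) v) -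
      dd a b * LT (l₁ ++ a :: b :: l₂) v) =
    jn a b * (pQ (l₁ ++ a :: b :: l₂) •
      Q (l₂.length + 2 + l₁.length) (JF (l₁ ++ a :: b :: l₂) v) +
      (ζ ^ 15 * pP (l₁ ++ a :: b :: l₂)) • JE (l₁ ++ a :: b :: l₂) v)
        (algb_pad l₁.length (cons .p (cons .p zer))) := by
  induction l₁ generalizing v with
  | nil =>
    simp only [List.nil_append, List.length_nil, basic_liftN_zero, Nat.add_zero] at hv ⊢
    have k (X : Vec) : X (algb_pad 0 (cons .p (cons .p zer))) = prj .p (prj .p X) zer := rfl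
    have hq := congrArg (fun X => prj .p (prj .p X)) hv
    simp only [algb_Q_p, map_add, map_smul, map_zero] at hq
    have hq' : ζ ^ 2 • prj .m (prj .p v) - ζ ^ 6 • prj .p (prj .m v) =
        (-ζ ^ 6) • Q l₂.length (prj .p (prj .p v)) := by
      funext σ
      have hq := congrFun hq σ
      simp only [Pi.add_apply, Pi.sub_apply, Pi.smul_apply, smul_eq_mul, Pi.zero_apply] at hq ⊢
      linear_combination
        (norm := (ring_nf; simp (disch := decide) only [algb_z, Nat.reduceSub]; ring))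
        -ζ ^ 6 * hq
    have hq2 : JF l₂ (prj .p (prj .m v)) zer + ζ ^ 4 * JF l₂ (prj .m (prj .p v)) zer =
        JF l₂ (Q l₂.length (prj .p (prj .p v))) zer := by
      have := congrFun (congrArg (JF l₂) hq) zer
      simp only [map_add, map_smul, map_zero, Pi.add_apply, Pi.smul_apply, smul_eq_mul,
        Pi.zero_apply] at this
      linear_combination
        (norm := (ring_nf; simp (disch := decide) only [algb_z, Nat.reduceSub]; ring))
        this
    have h1 := algb_L1 l₂ (prj .p (prj .p v))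
    rw [k (_ + _), algb_LT_cons, algb_LT_cons, algb_LT_cons, algb_LT_cons, algb_zer (prj .p (R a b v)),
      algb_zer (prj .p v), algb_R_oo, algb_R_po, algb_R_op, hq', algb_LT_add, algb_LT_smul,
      algb_LT_smul, algb_LT_smul]
    simp only [map_add, map_smul, algb_Q_p, algb_JF_p, algb_JF_m, algb_JE_p, Pi.add_apply,
      Pi.smul_apply, smul_eq_mul, algb_Q_zer, local_pQ_cons, local_pP_cons]
    linear_combination
      (norm := (ring_nf; simp (disch := decide) only [algb_z, Nat.reduceSub]; ring))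
      pP l₂ * pQ l₂ * prj .o (prj .p v) zer * algb_s1 a b +
      pP l₂ * pQ l₂ * prj .p (prj .o v) zer * algb_s2 a b +
      jn a b * a.1 * a.2 * b.1 * b.2 * h1 - jn a b * a.1 * a.2 * b.1 * b.2 * pQ l₂ * hq2
  | cons m l ih =>
    have k (X : Vec) : X (algb_pad (l.length + 1) (cons .p (cons .p zer))) =
      prj .o X (algb_pad l.length (cons .p (cons .p zer))) := rfl
    have hv' : Q (l₂.length + 2 + l.length + 1) v = 0 := hv
    have ho := congrArg (prj .o) hv'
    have hp := congrArg (prj .p) hv'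
    rw [algb_Q_o, map_zero] at ho
    rw [algb_Q_p, map_zero] at hp
    have hp := congrFun hp (algb_pad l.length (cons .p (cons .p zer)))
    have h1 := ih _ ho
    have h2 := algb_RQ a b l.length l₂.length (prj .p v)
    have e : pP (l ++ b :: a :: l₂) = pP (l ++ a :: b :: l₂) :=
      local_pP_perm ((List.Perm.swap _ _ _).append_left l)
    simp only [List.cons_append, List.length_cons, ← Nat.add_assoc]
    rw [k (_ + _), algb_LT_cons, algb_LT_cons, algb_prj_liftN, algb_prj_liftN, e]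
    simp only [map_add, map_smul, algb_Q_o, algb_JF_o, algb_JE_o, Pi.add_apply, Pi.zero_apply,
      Pi.smul_apply, smul_eq_mul, local_pQ_cons, local_pP_cons] at h1 hp ⊢
    linear_combination
      (norm := (ring_nf; simp (disch := decide) only [algb_z, Nat.reduceSub]; ring))
      m.1 * m.2 * h1 +
      m.2 * pQ (l ++ a :: b :: l₂) * pP (l ++ a :: b :: l₂) * (m.2 - ζ ^ 13 * m.1) * h2 -
      jn a b * ζ ^ 25 * m.1 * m.2 * pQ (l ++ a :: b :: l₂) * pP (l ++ a :: b :: l₂) * hp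

lemma Good.algb_phi_R (h : Good n Ψ) (a b : P) (l₁ l₂ : List P)
    (hl : (l₁ ++ a :: b :: l₂).length ≤ n) :
    liftN l₁.length (R a b) (JB (l₁ ++ a :: b :: l₂) (Ψ (l₁ ++ a :: b :: l₂))) =
      dd a b • JB (l₁ ++ b :: a :: l₂) (Ψ (l₁ ++ b :: a :: l₂)) := by
  have pm : (l₁ ++ b :: a :: l₂).Perm (l₁ ++ a :: b :: l₂) :=
    (List.Perm.swap _ _ _).append_left l₁
  have e1 (w : Vec) := congrArg (fun A : Op => A w) (JE_R a b l₁ l₂)
  have e2 (w : Vec) := congrArg (fun A : Op => A w) (JF_R a b l₁ l₂)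
  have e3 (w : Vec) := congrArg (fun A : Op => A w)
    (Q_R a b (i := l₁.length) (n := (l₁ ++ a :: b :: l₂).length) (by simp))
  simp only [Module.End.mul_apply] at e1 e2 e3
  rw [← map_smul, ← h.ex l₁ a b l₂ hl, algb_JB_apply, algb_JB_apply, e1, e2, pm.length_eq, e3,
    local_pP_perm pm, local_pQ_perm pm, map_add, map_smul, map_smul]

lemma algb_pol2 {F : List P → ℂ} (hF : Pol F) (l₁ l₂ : List P) {g k : (ℕ → P) → P}
    (hg : PolyP g) (hk : PolyP k) : PolyF fun x => F (l₁ ++ g x :: k x :: l₂) := by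
  have := hF ((l₁.map fun a _ => a) ++ g :: k :: l₂.map fun a _ => a) fun j hj => by
    simp only [List.mem_append, List.mem_cons, List.mem_map] at hj
    rcases hj with ⟨a, -, rfl⟩ | rfl | rfl | ⟨a, -, rfl⟩
    exacts [PolyP.const a, hg, hk, PolyP.const a]
  simpa only [List.map_append, List.map_cons, List.map_map, Function.comp_def, List.map_id']
    using this
lemma algb_pol1 {F : List P → ℂ} (hF : Pol F) (l : List P) {g : (ℕ → P) → P}
    (hg : PolyP g) : PolyF fun x => F (l ++ [g x]) := by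
  have := hF ((l.map fun a _ => a) ++ [g]) fun j hj => by
    simp only [List.mem_append, List.mem_singleton, List.mem_map] at hj
    rcases hj with ⟨a, -, rfl⟩ | rfl
    exacts [PolyP.const a, hg]
  simpa only [List.map_append, List.map_cons, List.map_map, Function.comp_def, List.map_id',
    List.map_nil] using this

lemma Good.algb_swap (h : Good n Ψ) (a b : P) (l₁ l₂ : List P)
    (hl : (l₁ ++ a :: b :: l₂).length ≤ n) :
    GG Ψ (l₁ ++ b :: a :: l₂) = GG Ψ (l₁ ++ a :: b :: l₂) := by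
  have len : ∀ a b : P, (l₁ ++ a :: b :: l₂).length = l₂.length + 2 + l₁.length := fun a b => by
    simp only [List.length_append, List.length_cons]; omega
  rw [len] at hl
  have key : ∀ a b : P, dd a b ≠ 0 →
      GG Ψ (l₁ ++ b :: a :: l₂) - GG Ψ (l₁ ++ a :: b :: l₂) = 0 := fun a b hd => by
    have hl' := (len a b).trans_le hl
    have hq := h.Q_phi _ hl'
    have hc := h.chi2 _ hl'
    rw [len] at hq hc
    have e := algb_L2 a b l₁ l₂ _ hq
    rw [hc, h.algb_phi_R a b l₁ l₂ hl', algb_LT_smul, Pi.zero_apply, mul_zero] at e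
    have e' : pQ (l₁ ++ b :: a :: l₂) = pQ (l₁ ++ a :: b :: l₂) :=
      local_pQ_perm ((List.Perm.swap _ _ _).append_left l₁)
    refine mul_left_cancel₀ (mul_ne_zero (pow_ne_zero 2 zeta_ne) hd) ?_
    rw [GG, GG, e']
    linear_combination e
  have := poly_dom (f := fun x => GG Ψ (l₁ ++ x 1 :: x 0 :: l₂) - GG Ψ (l₁ ++ x 0 :: x 1 :: l₂))
    (g := fun x => dd (x 0) (x 1))
    ((algb_pol2 h.G_pol l₁ l₂ (PolyP.var 1) (PolyP.var 0)).sub
      (algb_pol2 h.G_pol l₁ l₂ (PolyP.var 0) (PolyP.var 1)))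
    (PolyF.dd (PolyP.var 0) (PolyP.var 1)) (fun x hx => key _ _ hx) (y := fun _ => aux)
    dd_aux_aux (poly_cs a fun _ => b)
  exact sub_eq_zero.1 this

theorem Good.G_perm (h : Good n Ψ) {l l' : List P} (hl : l.length ≤ n) (hp : l.Perm l') :
    GG Ψ l = GG Ψ l' := by
  have key : ∀ l₁ : List P, (l₁ ++ l).length ≤ n → GG Ψ (l₁ ++ l) = GG Ψ (l₁ ++ l') := by
    clear hl
    induction hp with
    | nil => exact fun _ _ => rfl
    | cons x _ ih =>
      intro l₁ hl
      have := ih (l₁ ++ [x]) (by simpa using hl)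
      simpa using this
    | swap x y l => exact fun l₁ hl => (h.algb_swap y x l₁ l hl).symm
    | trans p _ ih1 ih2 =>
      intro l₁ hl
      rw [ih1 l₁ hl, ih2 l₁ ((p.append_left l₁).length_eq ▸ hl)]
  exact key [] hl

lemma algb_K_zer (a : P) (i : ℕ) (w : Vec) : liftN i (K a) w zer = kd a * w zer := by
  induction i generalizing w with
  | zero =>
    rw [← basic_cons_zer]
    exact basic_dg_apply _ _ _ _ _ _
  | succ i ih => rw [algb_zer (liftN _ _ _), algb_prj_liftN, ih, algb_zer w]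
lemma algb_LT_K (a : P) (l : List P) (v : Vec) :
    a.1 * LT (l ++ [bar a]) (liftN l.length (K a) v) = kd a * a.2 * LT (l ++ [a]) v := by
  induction l generalizing v with
  | nil =>
    have e : prj .p (K a v) zer = ko a * prj .p v zer :=
      basic_dg_apply (kd a) (ko a) (ko a) v .p zer
    simp only [List.nil_append, List.length_nil, basic_liftN_zero, algb_LT_cons, e, LT, kd, ko,
      bar, algb_prj_apply, algb_pP_nil]
    linear_combination
      (norm := (ring_nf; simp (disch := decide) only [algb_z, Nat.reduceSub]; ring))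
  | cons m l ih =>
    rw [List.cons_append, List.cons_append, List.length_cons, algb_LT_cons, algb_LT_cons,
      algb_prj_liftN, algb_prj_liftN, algb_K_zer, algb_pP_app, algb_pP_app]
    simp only [bar] at ih ⊢
    linear_combination m.1 * ih (prj .o v)

theorem Good.G_bar (h : Good n Ψ) (a : P) (l : List P) (hl : l.length < n) :
    GG Ψ (bar a :: l) = GG Ψ (a :: l) := by
  have key : ∀ a : P, kd a ≠ 0 → GG Ψ (l ++ [bar a]) - GG Ψ (l ++ [a]) = 0 := fun a hd => by
    have e := algb_LT_K a l (JB (l ++ [a]) (Ψ (l ++ [a])))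
    rw [h.phi_K l a hl, algb_LT_smul] at e
    refine mul_left_cancel₀ hd ?_
    rw [GG, GG, algb_pQ_app, algb_pQ_app]
    simp only [bar] at e ⊢
    linear_combination pQ l * e
  have k0 : kd (1, 0) ≠ 0 := by simpa [kd] using zeta_ne
  have := poly_dom (f := fun x => GG Ψ (l ++ [bar (x 0)]) - GG Ψ (l ++ [x 0]))
    (g := fun x => kd (x 0))
    ((algb_pol1 h.G_pol l (PolyP.var 0).bar).sub (algb_pol1 h.G_pol l (PolyP.var 0)))
    (PolyF.kd (PolyP.var 0)) (fun x hx => key _ hx) (y := fun _ => (1, 0)) k0 fun _ => a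
  rw [h.G_perm (l := bar a :: l) hl (List.perm_append_singleton _ _).symm,
    h.G_perm (l := a :: l) hl (List.perm_append_singleton _ _).symm]
  exact sub_eq_zero.1 this

lemma algb_JE_smul (c : ℂ) (a : P) (l : List P) : JE (c • a :: l) = c • JE (a :: l) := by
  have e : e1 (c • a) = c • e1 a := by
    refine ext1 fun v s t => ?_
    cases s <;> simp only [e1, basic_loc_apply, LinearMap.smul_apply, Pi.smul_apply,
      smul_eq_mul, Prod.smul_fst, Prod.smul_snd] <;> ring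
  rw [JE, JE, e, Prod.smul_snd, smul_eq_mul]
  module
lemma algb_JF_smul (c : ℂ) (a : P) (l : List P) : JF (c • a :: l) = c • JF (a :: l) := by
  have e : f1 (c • a) = c • f1 a := by
    refine ext1 fun v s t => ?_
    cases s <;> simp only [f1, basic_loc_apply, LinearMap.smul_apply, Pi.smul_apply,
      smul_eq_mul, Prod.smul_fst, Prod.smul_snd] <;> ring
  rw [JF, JF, e, Prod.smul_fst, smul_eq_mul]
  module

theorem Good.G_hom (h : Good n Ψ) (a : P) (c : ℂ) (l : List P) (hl : l.length < n) :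
    GG Ψ (c • a :: l) = c ^ (2 * l.length + 4) * GG Ψ (a :: l) := by
  have e := h.hom [] a l c hl
  simp only [List.nil_append, List.length_nil, Nat.zero_add] at e
  have e' : JB (c • a :: l) (Ψ (a :: l)) = c ^ 2 • JB (a :: l) (Ψ (a :: l)) := by
    simp only [algb_JB_apply, algb_JE_smul, algb_JF_smul, local_pP_cons, local_pQ_cons,
      List.length_cons, LinearMap.smul_apply, map_smul, Prod.smul_fst, Prod.smul_snd,
      smul_eq_mul]
    module
  rw [GG, GG, e, map_smul, e', algb_LT_smul, algb_LT_smul, algb_LT_cons, algb_LT_cons,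
    local_pQ_cons, local_pQ_cons]
  simp only [Prod.smul_fst, Prod.smul_snd, smul_eq_mul]
  ring

theorem Good.G_sh (h : Good n Ψ) (c : P) (l : List P) (hl : l.length + 2 ≤ n) :
    GG Ψ (sh c :: c :: l) =
      kd c * lin c * (l.map fun m => phi m c).prod * c.2 * (c.1 * c.2) ^ 4 * GG Ψ l := by
  have e := h.r2 [] c l hl
  simp only [List.nil_append, List.length_nil, basic_liftN_zero] at e
  have e1 (w : Vec) := congrArg (fun A : Op => A w) (JE_ins c l)
  have e2 (w : Vec) := congrArg (fun A : Op => A w) (JF_ins c l)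
  have e3 (w : Vec) := congrArg (fun A : Op => A w) (Q_ins c l.length)
  simp only [Module.End.mul_apply, LinearMap.smul_apply] at e1 e2 e3
  have e4 (w : Vec) : JB (sh c :: c :: l) (ins c w) =
      ((sh c).1 * (sh c).2 * c.1 * c.2) • ins c (JB l w) := by
    simp only [algb_JB_apply, e1, e2, List.length_cons, map_smul, e3, map_add, local_pP_cons,
      local_pQ_cons]
    module
  have e5 (w : Vec) : LT (sh c :: c :: l) (ins c w) = (sh c).1 * c.1 * c.2 * LT l w := by
    have k1 : prj .p (ins c w) zer = 0 := by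
      rw [algb_zer (prj _ _)]; exact zero_mul _
    have k2 : prj .p (prj .o (ins c w)) zer = 0 := zero_mul _
    have k3 : prj .o (prj .o (ins c w)) = c.2 • w := rfl
    rw [algb_LT_cons, algb_LT_cons, k1, k2, k3, algb_LT_smul]
    ring
  rw [GG, GG, e, map_smul, e4, algb_LT_smul, algb_LT_smul, e5, local_pQ_cons, local_pQ_cons]
  simp only [sh]
  linear_combination
    (norm := (ring_nf; simp (disch := decide) only [algb_z, Nat.reduceSub]; ring))

lemma algb_emp_o (w : Vec) : prj .o (emp w) = w := funext fun _ => one_mul _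
lemma algb_emp_p (w : Vec) : prj .p (emp w) = 0 := funext fun _ => zero_mul _
lemma algb_emp_m (w : Vec) : prj .m (emp w) = 0 := funext fun _ => zero_mul _

theorem Good.G_aux (h : Good n Ψ) (l : List P) (hl : l.length < n) :
    GG Ψ (bar aux :: l) = ζ ^ 6 * fc l * GG Ψ l := by
  have e (a : P) (w : Vec) : prj .o (JB (a :: l) (emp w)) = (a.1 * a.2) • JB l w := by
    simp only [algb_JB_apply, List.length_cons, map_add, map_smul, algb_Q_o, algb_JE_o,
      algb_JF_o, algb_emp_o, algb_emp_p, algb_emp_m, local_pP_cons, local_pQ_cons, map_zero]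
    module
  rw [GG, GG, h.r0b l hl, map_smul, algb_LT_smul, algb_LT_cons, e, algb_LT_smul, local_pQ_cons]
  simp only [bar, algb_aux1, algb_aux2]
  linear_combination
    (norm := (ring_nf; simp (disch := decide) only [algb_z, Nat.reduceSub]; ring))
theorem Good.G_zero (h : Good n Ψ) (l : List P) (hl : l.length < n) :
    GG Ψ ((0, 1) :: l) = 0 := by
  rw [GG, algb_LT_cons, algb_JB_apply]
  simp only [List.length_cons, map_add, map_smul, algb_Q_p, algb_JF_m, local_pP_cons,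
    Pi.add_apply, Pi.smul_apply, smul_eq_mul, algb_Q_zer]
  ring
theorem Good.G_one (h : Good n Ψ) (hn : 1 ≤ n) (a : P) :
    GG Ψ [a] = a.1 * a.2 * (a.2 - ζ ^ 13 * a.1) * (a.1 + ζ ^ 5 * a.2) := by
  have e0 (b : P) : Ψ [0] = Ψ [b] := by
    have := h.hom [] b [] 0 hn
    simpa using this
  have e : Ψ [a] = emp vac := by
    rw [← e0 a, e0 (bar aux), h.r0b [] hn, h.nil]
    exact one_smul _ _
  have ev : vac zer = 1 := if_pos rfl
  rw [GG, e, algb_LT_cons, algb_JB_apply]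
  simp only [List.length_cons, map_add, map_smul, algb_Q_p, algb_JF_m, algb_JE_p, local_pP_cons,
    local_pQ_cons, Pi.add_apply, Pi.smul_apply, smul_eq_mul, algb_Q_zer, algb_emp_o, algb_emp_p,
    algb_emp_m, map_zero, Pi.zero_apply, ev, algb_pP_nil, algb_pQ_nil, LT]
  ring

end Pool.Agent.Lib.MP_4960b8_pr.QK
end

-- part Pool.Agent.Lib.MP_4960b8_pr.QK.AnaA
section

/-! Definitions of the analytic part and maximum principles. -/

namespace Pool.Agent.Lib.MP_4960b8_pr.QK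

open Real

def Ust : Set ℂ := {z | |z.re| < 13 * π / 16}
noncomputable def pt (x τ : ℝ) : ℂ := x + τ * Complex.I
noncomputable def dD : ℝ := √3 / 2 + 3 / 2
noncomputable def lf0 (Y : ℝ) : ℝ := (1 - √3 * Y + Y ^ 2) / (1 + √3 * Y + Y ^ 2)
noncomputable def lfp (Y : ℝ) : ℂ :=
  (((1 + Y ^ 2) ^ 2 - 6 * Y ^ 2 : ℝ) - (3 * Y * (1 - Y ^ 2) : ℝ) * Complex.I) /
    ((1 + Y ^ 2) * (1 + √3 * Y + Y ^ 2) : ℝ)
noncomputable def lla (Y : ℝ) : ℂ :=
  ((1 + Y ^ 2 - dD * Y : ℝ) - (dD * Y * (1 - Y) / (1 + Y) : ℝ) * Complex.I) /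
    (1 + √3 * Y + Y ^ 2 : ℝ)
/-- the multiplier of the boundary relation -/
noncomputable def Lam (T : ℕ) (Y : ℝ) : ℂ := (lf0 Y * lfp Y) ^ T * lla Y

/-- the boundary value problem -/
structure RH (T : ℕ) (a b : ℝ) (Θ : ℂ → ℂ) : Prop where
  hol : DifferentiableOn ℂ Θ Ust
  even : ∀ z ∈ Ust, Θ (-z) = Θ z
  real : ∀ z ∈ Ust, Θ (-(starRingEnd ℂ z)) = starRingEnd ℂ (Θ z)
  bd : ∀ τ : ℝ, 0 < τ → (Θ (pt (3 * π / 4) τ)).im =
    (Lam T (exp (-4 * τ / 3)) * Θ (pt (π / 4) τ)).im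
  asym : ∀ ε : ℝ, 0 < ε → ∃ L : ℝ, ∀ x τ : ℝ, |x| ≤ 3 * π / 4 → L ≤ τ →
    ‖Θ (pt x τ) - a + b * Complex.exp (Complex.I * pt x τ)‖ ≤ ε * exp (-τ)

lemma anaa_pt_re (x τ : ℝ) : (pt x τ).re = x := by simp [pt]
lemma anaa_pt_im (x τ : ℝ) : (pt x τ).im = τ := by simp [pt]
lemma anaa_pt_eq (z : ℂ) : pt z.re z.im = z := Complex.re_add_im z

lemma anaa_mem {z : ℂ} (h0 : -(3 * π / 4) ≤ z.re) (h1 : z.re ≤ 3 * π / 4) : z ∈ Ust := by
  have := pi_pos
  show |z.re| < 13 * π / 16
  exact abs_lt.2 ⟨by linarith, by linarith⟩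

lemma anaa_open : IsOpen Ust :=
  isOpen_lt (continuous_abs.comp Complex.continuous_re) continuous_const

/-- minimum principle for the imaginary part in a rectangle -/
lemma anaa_rect {h : ℂ → ℂ} (hh : DifferentiableOn ℂ h Ust) {c d : ℝ} (hcd : c < d)
    (hL : ∀ τ, c ≤ τ → 0 ≤ (h (pt 0 τ)).im) (hR : ∀ τ, c ≤ τ → 0 ≤ (h (pt (3 * π / 4) τ)).im)
    (hB : ∀ x, 0 ≤ x → x ≤ 3 * π / 4 → 0 ≤ (h (pt x c)).im)
    (hT : ∀ x, 0 ≤ x → x ≤ 3 * π / 4 → 0 ≤ (h (pt x d)).im)
    {x τ : ℝ} (h0 : 0 ≤ x) (h1 : x ≤ 3 * π / 4) (h2 : c ≤ τ) (h3 : τ ≤ d) :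
    0 ≤ (h (pt x τ)).im := by
  have hp := pi_pos
  have cl : closure (Complex.reProdIm (Set.Ioo 0 (3 * π / 4)) (Set.Ioo c d)) =
      Complex.reProdIm (Set.Icc 0 (3 * π / 4)) (Set.Icc c d) := by
    rw [Complex.closure_reProdIm, closure_Ioo (by positivity), closure_Ioo hcd.ne]
  have nm : ∀ z, ‖Complex.exp (Complex.I * h z)‖ ≤ 1 ↔ 0 ≤ (h z).im := fun z => by
    rw [Complex.norm_exp, exp_le_one_iff]
    simp
  rw [← nm]
  refine Complex.norm_le_of_forall_mem_frontier_norm_le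
    (f := fun z => Complex.exp (Complex.I * h z))
    ((Metric.isBounded_Ioo 0 (3 * π / 4)).reProdIm (Metric.isBounded_Ioo c d))
    (DifferentiableOn.diffContOnCl ?_) (fun z hz => ?_) ?_
  · rw [cl]
    exact ((hh.const_mul _).cexp).mono fun z hz => anaa_mem (by linarith [hz.1.1]) hz.1.2
  · rw [(isOpen_Ioo.reProdIm isOpen_Ioo).frontier_eq, cl] at hz
    obtain ⟨⟨⟨a1, a2⟩, a3, a4⟩, a5⟩ := hz
    rw [nm, ← anaa_pt_eq z]
    rcases a1.eq_or_lt with b1 | b1
    · rw [← b1]; exact hL _ a3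
    rcases a2.eq_or_lt with b2 | b2
    · rw [b2]; exact hR _ a3
    rcases a3.eq_or_lt with b3 | b3
    · rw [← b3]; exact hB _ a1 a2
    rcases a4.eq_or_lt with b4 | b4
    · rw [b4]; exact hT _ a1 a2
    exact absurd ⟨⟨b1, b2⟩, b3, b4⟩ a5
  · rw [cl]
    exact ⟨by simpa [pt] using ⟨h0, h1⟩, by simpa [pt] using ⟨h2, h3⟩⟩

lemma anaa_bar (ε x τ : ℝ) : ((ε : ℂ) * (Complex.I *
    Complex.exp (-Complex.I * (pt x τ - (3 * π / 8 : ℝ))))).im =
      ε * (exp τ * cos (x - 3 * π / 8)) := by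
  have e1 : (-Complex.I * (pt x τ - (3 * π / 8 : ℝ))).re = τ := by simp [pt]
  have e2 : (-Complex.I * (pt x τ - (3 * π / 8 : ℝ))).im = -(x - 3 * π / 8) := by simp [pt]
  rw [Complex.im_ofReal_mul, Complex.I_mul_im, Complex.exp_re, e1, e2, cos_neg]

lemma anaa_e (m x τ : ℝ) : ((m : ℂ) * Complex.exp (2 * Complex.I * pt x τ / 3)).im =
    m * (exp (-2 * τ / 3) * sin (2 * x / 3)) := by
  have e1 : (2 * Complex.I * pt x τ / 3).re = -2 * τ / 3 := by simp [pt]
  have e2 : (2 * Complex.I * pt x τ / 3).im = 2 * x / 3 := by simp [pt]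
  rw [Complex.im_ofReal_mul, Complex.exp_im, e1, e2]

/-- maximum principle in a half strip, with growth -/
theorem mp_half {g : ℂ → ℂ} (hg : DifferentiableOn ℂ g Ust) {t₀ L C : ℝ}
    (hL : ∀ τ, t₀ ≤ τ → 0 ≤ (g (pt 0 τ)).im) (hR : ∀ τ, t₀ ≤ τ → 0 ≤ (g (pt (3 * π / 4) τ)).im)
    (hB : ∀ x, 0 ≤ x → x ≤ 3 * π / 4 → 0 ≤ (g (pt x t₀)).im)
    (hC : ∀ x τ, 0 ≤ x → x ≤ 3 * π / 4 → L ≤ τ → -(C * exp (2 * τ / 3)) ≤ (g (pt x τ)).im)
    {x τ : ℝ} (h0 : 0 ≤ x) (h1 : x ≤ 3 * π / 4) (hτ : t₀ ≤ τ) : 0 ≤ (g (pt x τ)).im := by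
  have hp := pi_pos
  have k0 : 0 < cos (3 * π / 8) := cos_pos_of_mem_Ioo ⟨by linarith, by linarith⟩
  have k1 : ∀ x, 0 ≤ x → x ≤ 3 * π / 4 → cos (3 * π / 8) ≤ cos (x - 3 * π / 8) := fun x a b => by
    rw [← cos_abs (x - 3 * π / 8)]
    exact cos_le_cos_of_nonneg_of_le_pi (abs_nonneg _) (by linarith)
      (abs_le.2 ⟨by linarith, by linarith⟩)
  have key : ∀ ε : ℝ, 0 < ε → 0 ≤ (g (pt x τ)).im + ε * (exp τ * cos (x - 3 * π / 8)) := by
    intro ε hε
    have pos : ∀ x τ, 0 ≤ x → x ≤ 3 * π / 4 → 0 ≤ ε * (exp τ * cos (x - 3 * π / 8)) :=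
      fun x τ a b => mul_nonneg hε.le (mul_nonneg (exp_pos _).le (k0.le.trans (k1 x a b)))
    obtain ⟨d, d1, d2, d3⟩ : ∃ d, τ < d ∧ L ≤ d ∧ 3 * (C / (ε * cos (3 * π / 8))) ≤ d :=
      ⟨max (τ + 1) (max L _), (lt_add_one τ).trans_le (le_max_left _ _),
        (le_max_left _ _).trans (le_max_right _ _), (le_max_right _ _).trans (le_max_right _ _)⟩
    have := anaa_rect (h := fun z => g z + (ε : ℂ) * (Complex.I *
        Complex.exp (-Complex.I * (z - (3 * π / 8 : ℝ))))) (hg.add (by fun_prop))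
      (hτ.trans_lt d1) (fun τ a => ?_) (fun τ a => ?_) (fun x a b => ?_) (fun x a b => ?_)
      h0 h1 hτ d1.le
    · rwa [Complex.add_im, anaa_bar] at this
    · rw [Complex.add_im, anaa_bar]
      exact add_nonneg (hL τ a) (pos _ _ le_rfl (by positivity))
    · rw [Complex.add_im, anaa_bar]
      exact add_nonneg (hR τ a) (pos _ _ (by positivity) le_rfl)
    · rw [Complex.add_im, anaa_bar]
      exact add_nonneg (hB x a b) (pos _ _ a b)
    · rw [Complex.add_im, anaa_bar]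
      have e1 := hC x d a b d2
      have e2 : exp d = exp (d / 3) * exp (2 * d / 3) := by rw [← exp_add]; congr 1; ring
      have e3 : C ≤ exp (d / 3) * (ε * cos (3 * π / 8)) := by
        rw [← div_le_iff₀ (mul_pos hε k0)]
        linarith [add_one_le_exp (d / 3)]
      have e4 := mul_le_mul_of_nonneg_right e3 (exp_pos (2 * d / 3)).le
      have e5 := mul_le_mul_of_nonneg_left (k1 x a b) (mul_pos hε (exp_pos d)).le
      rw [e2] at e5 ⊢
      linarith
  refine le_of_forall_pos_le_add fun δ hδ => ?_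
  have e1 := key (δ / exp τ) (div_pos hδ (exp_pos τ))
  have e2 : δ / exp τ * (exp τ * cos (x - 3 * π / 8)) = δ * cos (x - 3 * π / 8) := by
    field_simp
  have e3 := mul_le_mul_of_nonneg_left (cos_le_one (x - 3 * π / 8)) hδ.le
  linarith

/-- maximum principle in the whole strip -/
theorem mp_strip {g : ℂ → ℂ} (hg : DifferentiableOn ℂ g Ust) {M L C : ℝ}
    (hL : ∀ τ, (g (pt (-(3 * π / 4)) τ)).re ≤ M) (hR : ∀ τ, (g (pt (3 * π / 4) τ)).re ≤ M)
    (hC : ∀ x τ, |x| ≤ 3 * π / 4 → L ≤ |τ| → (g (pt x τ)).re ≤ C)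
    {x : ℝ} (h : |x| ≤ 3 * π / 4) (τ : ℝ) : (g (pt x τ)).re ≤ M := by
  have hp := pi_pos
  have nm : ∀ z y, ‖Complex.exp (g z)‖ ≤ exp y ↔ (g z).re ≤ y := fun z y => by
    rw [Complex.norm_exp, exp_le_exp]
  rw [← nm]
  refine PhragmenLindelof.vertical_strip (f := fun z => Complex.exp (g z)) (a := -(3 * π / 4))
    (b := 3 * π / 4) (DifferentiableOn.diffContOnCl ?_) ⟨0, div_pos hp (by linarith), C, ?_⟩
    (fun z hz => ?_) (fun z hz => ?_) (by simpa [pt] using (abs_le.1 h).1)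
    (by simpa [pt] using (abs_le.1 h).2)
  · rw [Complex.closure_preimage_re, closure_Ioo (by linarith)]
    exact hg.cexp.mono fun z hz => anaa_mem hz.1 hz.2
  · refine Asymptotics.IsBigO.of_bound 1 ?_
    rw [Filter.eventually_inf_principal]
    refine (Filter.eventually_comap.2 ((Filter.eventually_ge_atTop L).mono fun y hy z e hz => ?_))
    rw [zero_mul, exp_zero, mul_one, one_mul, norm_of_nonneg (exp_pos C).le, nm, ← anaa_pt_eq z]
    exact hC _ _ (abs_le.2 ⟨hz.1.le, hz.2.le⟩) (hy.trans_eq e.symm)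
  · rw [nm, ← anaa_pt_eq z, hz]; exact hL _
  · rw [nm, ← anaa_pt_eq z, hz]; exact hR _

/-- non-local maximum principle -/
theorem nlmp {g : ℂ → ℂ} (hg : DifferentiableOn ℂ g Ust) {t₀ L C : ℝ}
    (hL : ∀ τ, t₀ ≤ τ → 0 ≤ (g (pt 0 τ)).im)
    (hR : ∀ τ, t₀ ≤ τ → min 0 (g (pt (π / 4) τ)).im ≤ (g (pt (3 * π / 4) τ)).im)
    (hB : ∀ x, 0 ≤ x → x ≤ 3 * π / 4 → 0 ≤ (g (pt x t₀)).im)
    (hC : ∀ x τ, 0 ≤ x → x ≤ 3 * π / 4 → L ≤ τ → -(C * exp (-2 * τ / 3)) ≤ (g (pt x τ)).im)
    {x τ : ℝ} (h0 : 0 ≤ x) (h1 : x ≤ 3 * π / 4) (hτ : t₀ ≤ τ) : 0 ≤ (g (pt x τ)).im := by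
  have hp := pi_pos
  have pos : ∀ x τ, 0 ≤ x → x ≤ 3 * π / 4 → 0 ≤ exp (-2 * τ / 3) * sin (2 * x / 3) :=
    fun x τ a b => mul_nonneg (exp_pos _).le
      (sin_nonneg_of_nonneg_of_le_pi (by linarith) (by linarith))
  have step : ∀ m : ℝ, 0 ≤ m →
      (∀ τ, t₀ ≤ τ → -(m * exp (-2 * τ / 3)) ≤ (g (pt (3 * π / 4) τ)).im) →
      ∀ x τ, 0 ≤ x → x ≤ 3 * π / 4 → t₀ ≤ τ →
        0 ≤ (g (pt x τ)).im + m * (exp (-2 * τ / 3) * sin (2 * x / 3)) := by
    intro m hm h x τ h0 h1 hτ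
    have := mp_half (g := fun z => g z + (m : ℂ) * Complex.exp (2 * Complex.I * z / 3))
      (hg.add (by fun_prop)) (L := max L 0) (C := |C|) (fun τ a => ?_) (fun τ a => ?_)
      (fun x a b => ?_) (fun x τ a b c => ?_) h0 h1 hτ
    · rwa [Complex.add_im, anaa_e] at this
    · rw [Complex.add_im, anaa_e]
      exact add_nonneg (hL τ a) (mul_nonneg hm (pos _ _ le_rfl (by positivity)))
    · rw [Complex.add_im, anaa_e, show 2 * (3 * π / 4) / 3 = π / 2 by ring, sin_pi_div_two]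
      linarith [h τ a]
    · rw [Complex.add_im, anaa_e]
      exact add_nonneg (hB x a b) (mul_nonneg hm (pos _ _ a b))
    · rw [Complex.add_im, anaa_e]
      have e1 := hC x τ a b ((le_max_left _ _).trans c)
      have e2 : (0 : ℝ) ≤ τ := (le_max_right _ _).trans c
      have e3 : C * exp (-2 * τ / 3) ≤ |C| * exp (2 * τ / 3) :=
        mul_le_mul (le_abs_self C) (exp_le_exp.2 (by linarith)) (exp_pos _).le (abs_nonneg C)
      linarith [mul_nonneg hm (pos x τ a b)]
  obtain ⟨m, hm, h⟩ : ∃ m : ℝ, 0 ≤ m ∧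
      ∀ τ, t₀ ≤ τ → -(m * exp (-2 * τ / 3)) ≤ (g (pt (3 * π / 4) τ)).im := by
    have c1 : Continuous fun τ : ℝ => g (pt (3 * π / 4) τ) :=
      hg.continuousOn.comp_continuous (by unfold pt; fun_prop) fun τ =>
        anaa_mem (by rw [anaa_pt_re]; linarith) (by rw [anaa_pt_re])
    have c2 : Continuous fun τ : ℝ => -(g (pt (3 * π / 4) τ)).im / exp (-2 * τ / 3) :=
      (Complex.continuous_im.comp c1).neg.div (by fun_prop) fun τ => (exp_pos _).ne'
    obtain ⟨m, hm⟩ := (isCompact_Icc (a := t₀) (b := L)).bddAbove_image c2.continuousOn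
    refine ⟨max (max m C) 0, le_max_right _ _, fun τ a => ?_⟩
    have e0 := exp_pos (-2 * τ / 3)
    rcases le_total τ L with b | b
    · have e1 := (div_le_iff₀ e0).1 (hm ⟨τ, ⟨a, b⟩, rfl⟩)
      have e2 := mul_le_mul_of_nonneg_right
        ((le_max_left m C).trans (le_max_left _ 0)) e0.le
      linarith
    · have e1 := hC _ τ (by positivity) le_rfl b
      have e2 := mul_le_mul_of_nonneg_right
        ((le_max_right m C).trans (le_max_left _ 0)) e0.le
      linarith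
  have all : ∀ n : ℕ, ∀ τ, t₀ ≤ τ →
      -(m * (1 / 2) ^ n * exp (-2 * τ / 3)) ≤ (g (pt (3 * π / 4) τ)).im := by
    intro n
    induction n with
    | zero => simpa using h
    | succ n ih =>
      intro τ a
      have e1 := step _ (by positivity) ih (π / 4) τ (by positivity) (by linarith) a
      rw [show 2 * (π / 4) / 3 = π / 6 by ring, sin_pi_div_six] at e1
      refine le_trans (le_min ?_ ?_) (hR τ a)
      · exact neg_nonpos.2 (by positivity)
      · rw [pow_succ]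
        linarith
  have lim : Filter.Tendsto (fun n : ℕ => (g (pt x τ)).im +
      m * (1 / 2) ^ n * (exp (-2 * τ / 3) * sin (2 * x / 3))) Filter.atTop
      (nhds ((g (pt x τ)).im + m * 0 * (exp (-2 * τ / 3) * sin (2 * x / 3)))) :=
    (((tendsto_pow_atTop_nhds_zero_of_lt_one (by norm_num) (by norm_num)).const_mul m).mul_const
      _).const_add _
  simpa using ge_of_tendsto' lim fun n => step _ (by positivity) (all n) x τ h0 h1 hτ

end Pool.Agent.Lib.MP_4960b8_pr.QK
end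

-- part Pool.Agent.Lib.MP_4960b8_pr.QK.AnaB
section

/-! Bounds for the multiplier. -/

namespace Pool.Agent.Lib.MP_4960b8_pr.QK

open Real

variable {T : ℕ} {Y : ℝ}

theorem anab_s3 : √3 * √3 = (3 : ℝ) := Real.mul_self_sqrt (by norm_num)

theorem anab_s3_lo : (1.732 : ℝ) < √3 := Real.lt_sqrt_of_sq_lt (by norm_num)

theorem anab_s3_hi : √3 < (1.7321 : ℝ) := (Real.sqrt_lt' (by norm_num)).2 (by norm_num)

theorem anab_D_pos (h0 : 0 < Y) : 0 < 1 + √3 * Y + Y ^ 2 := by positivity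

theorem anab_D_ge (h0 : 0 < Y) : 1 ≤ 1 + √3 * Y + Y ^ 2 := by
  have : 0 ≤ √3 * Y + Y ^ 2 := by positivity
  linarith

theorem anab_lf0_eq (h0 : 0 < Y) : lf0 Y = 1 - 2 * √3 * Y / (1 + √3 * Y + Y ^ 2) := by
  have := anab_D_pos h0
  unfold lf0
  field_simp
  ring

theorem anab_lf0_nonneg (h0 : 0 < Y) : 0 ≤ lf0 Y := by
  refine div_nonneg ?_ (anab_D_pos h0).le
  nlinarith [anab_s3_hi, sq_nonneg (Y - 1)]

theorem anab_lf0_le_one (h0 : 0 < Y) : lf0 Y ≤ 1 := by
  rw [anab_lf0_eq h0]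
  have : 0 ≤ 2 * √3 * Y / (1 + √3 * Y + Y ^ 2) := by positivity
  linarith

theorem anab_one_sub_lf0 (h0 : 0 < Y) : 1 - lf0 Y ≤ 2 * √3 * Y := by
  rw [anab_lf0_eq h0, sub_sub_cancel]
  exact div_le_self (by positivity) (anab_D_ge h0)

theorem anab_lf0_le {Y1 : ℝ} (h0 : 0 < Y1) (h1 : Y1 ≤ 1 / 2000) (h2 : Y1 ≤ Y) (h3 : Y ≤ 1) :
    lf0 Y ≤ 1 - 3.455 * Y1 := by
  have hY : 0 < Y := h0.trans_le h2
  rw [anab_lf0_eq hY]
  have : 3.455 * Y1 ≤ 2 * √3 * Y / (1 + √3 * Y + Y ^ 2) := by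
    rw [le_div_iff₀ (anab_D_pos hY)]
    have a1 : Y1 * (√3 * Y) ≤ 1 / 2000 * (1.7321 * Y) := by
      gcongr; exact anab_s3_hi.le
    have a2 : Y1 * Y ^ 2 ≤ 1 / 2000 * Y := by
      have : Y ^ 2 ≤ Y := by nlinarith
      gcongr
    have a3 : 1.732 * Y ≤ √3 * Y := by gcongr; exact anab_s3_lo.le
    nlinarith
  linarith

theorem anab_frac_re (a b c : ℝ) : (((a : ℂ) - (b : ℂ) * Complex.I) / (c : ℂ)).re = a / c := by
  rw [Complex.div_ofReal_re]; simp

theorem anab_frac_im (a b c : ℝ) : (((a : ℂ) - (b : ℂ) * Complex.I) / (c : ℂ)).im = -(b / c) := by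
  rw [Complex.div_ofReal_im]; simp [neg_div]

theorem anab_lfp_re : (lfp Y).re =
    ((1 + Y ^ 2) ^ 2 - 6 * Y ^ 2) / ((1 + Y ^ 2) * (1 + √3 * Y + Y ^ 2)) := anab_frac_re _ _ _

theorem anab_lfp_im : (lfp Y).im =
    -(3 * Y * (1 - Y ^ 2) / ((1 + Y ^ 2) * (1 + √3 * Y + Y ^ 2))) := anab_frac_im _ _ _

theorem anab_lla_re : (lla Y).re = (1 + Y ^ 2 - dD * Y) / (1 + √3 * Y + Y ^ 2) :=
  anab_frac_re _ _ _

theorem anab_lla_im : (lla Y).im = -(dD * Y * (1 - Y) / (1 + Y) / (1 + √3 * Y + Y ^ 2)) :=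
  anab_frac_im _ _ _

theorem anab_norm_sq (z : ℂ) : ‖z‖ ^ 2 = z.re ^ 2 + z.im ^ 2 := by
  rw [Complex.sq_norm, Complex.normSq_apply]; ring

theorem anab_lfp_sq (h0 : 0 < Y) : ‖lfp Y‖ ^ 2 = lf0 Y := by
  have := anab_D_pos h0
  rw [anab_norm_sq, anab_lfp_re, anab_lfp_im, lf0]
  field_simp
  linear_combination ((1 + Y ^ 2) ^ 2 * Y ^ 2) * anab_s3

theorem anab_lfp_le (h0 : 0 < Y) : ‖lfp Y‖ ≤ 1 := by
  have h := anab_lfp_sq h0
  have := anab_lf0_le_one h0
  nlinarith [norm_nonneg (lfp Y)]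

theorem anab_one_sub_lfp (h0 : 0 < Y) : ‖1 - lfp Y‖ ≤ 2 * √3 * Y := by
  have hD := anab_D_pos h0
  have e : ‖1 - lfp Y‖ ^ 2 = 12 * Y ^ 2 / ((1 + Y ^ 2) * (1 + √3 * Y + Y ^ 2)) := by
    rw [anab_norm_sq, Complex.sub_re, Complex.sub_im, anab_lfp_re, anab_lfp_im, Complex.one_re,
      Complex.one_im]
    field_simp
    linear_combination ((1 + Y ^ 2) ^ 2 * Y ^ 2) * anab_s3
  have e2 : (2 * √3 * Y) ^ 2 = 12 * Y ^ 2 := by linear_combination (4 * Y ^ 2) * anab_s3
  refine (pow_le_pow_iff_left₀ (norm_nonneg _) (by positivity) two_ne_zero).1 ?_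
  rw [e, e2]
  refine div_le_self (by positivity) ?_
  exact one_le_mul_of_one_le_of_one_le (by nlinarith) (anab_D_ge h0)

theorem anab_dD_lo : (2.366 : ℝ) < dD := by unfold dD; linarith [anab_s3_lo]

theorem anab_dD_hi : dD < (2.3661 : ℝ) := by unfold dD; linarith [anab_s3_hi]

theorem anab_Q (h0 : 0 < Y) (h1 : Y ≤ 1) :
    0 ≤ dD * Y * (1 - Y) / (1 + Y) ∧ dD * Y * (1 - Y) / (1 + Y) ≤ dD * Y := by
  have hd := anab_dD_lo
  have h2 : 0 ≤ 1 - Y := by linarith
  refine ⟨by positivity, ?_⟩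
  rw [div_le_iff₀ (by positivity)]
  have : 0 ≤ dD * Y := by positivity
  gcongr
  linarith

theorem anab_lla_le (h0 : 0 < Y) (h1 : Y ≤ 1) : ‖lla Y‖ ≤ 1 := by
  have hD := anab_D_pos h0
  obtain ⟨q0, q1⟩ := anab_Q h0 h1
  refine (pow_le_one_iff_of_nonneg (norm_nonneg _) two_ne_zero).1 ?_
  rw [anab_norm_sq, anab_lla_re, anab_lla_im, neg_sq, div_pow, div_pow, ← add_div,
    div_le_one (by positivity)]
  have q2 : (dD * Y * (1 - Y) / (1 + Y)) ^ 2 ≤ (2.3661 * Y) ^ 2 := by
    gcongr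
    exact q1.trans (by gcongr; exact anab_dD_hi.le)
  have e : (1 + √3 * Y + Y ^ 2) ^ 2 - (1 + Y ^ 2 - dD * Y) ^ 2 =
      ((√3 + dD) * Y) * (2 + 2 * Y ^ 2 + (√3 - dD) * Y) := by ring
  have a1 : 4.098 * Y ≤ (√3 + dD) * Y := by gcongr; linarith [anab_s3_lo, anab_dD_lo]
  have a2 : 1.37 * Y ≤ 2 + 2 * Y ^ 2 + (√3 - dD) * Y := by
    have : -0.635 * Y ≤ (√3 - dD) * Y := by gcongr; linarith [anab_s3_lo, anab_dD_hi]
    nlinarith [sq_nonneg (Y - 1)]
  have a3 : 4.098 * Y * (1.37 * Y) ≤ ((√3 + dD) * Y) * (2 + 2 * Y ^ 2 + (√3 - dD) * Y) :=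
    mul_le_mul a1 a2 (by positivity) (le_trans (by positivity) a1)
  nlinarith [sq_nonneg Y]

theorem anab_one_sub_lla (h0 : 0 < Y) (h1 : Y ≤ 1) : ‖1 - lla Y‖ ≤ 7 * Y := by
  have hD := anab_D_pos h0
  have hd := anab_dD_lo
  obtain ⟨q0, q1⟩ := anab_Q h0 h1
  refine (Complex.norm_le_abs_re_add_abs_im _).trans ?_
  have e1 : (1 - lla Y).re = (√3 + dD) * Y / (1 + √3 * Y + Y ^ 2) := by
    rw [Complex.sub_re, anab_lla_re, Complex.one_re]
    field_simp
    ring
  have e2 : (1 - lla Y).im = dD * Y * (1 - Y) / (1 + Y) / (1 + √3 * Y + Y ^ 2) := by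
    rw [Complex.sub_im, anab_lla_im, Complex.one_im]; ring
  rw [e1, e2, abs_of_nonneg (by positivity), abs_of_nonneg (by positivity)]
  have a1 := div_le_self (a := (√3 + dD) * Y) (by positivity) (anab_D_ge h0)
  have a2 := div_le_self q0 (anab_D_ge h0)
  have a3 : (√3 + dD) * Y + dD * Y ≤ 7 * Y := by
    rw [← add_mul]; gcongr; linarith [anab_s3_hi, anab_dD_hi]
  linarith

theorem anab_w_sq (h0 : 0 < Y) : ‖(lf0 Y : ℂ) * lfp Y‖ ^ 2 = lf0 Y ^ 3 := by
  rw [norm_mul, mul_pow, anab_lfp_sq h0, Complex.norm_real,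
    Real.norm_of_nonneg (anab_lf0_nonneg h0)]
  ring

theorem anab_w_le (h0 : 0 < Y) : ‖(lf0 Y : ℂ) * lfp Y‖ ≤ 1 := by
  refine (pow_le_one_iff_of_nonneg (norm_nonneg _) two_ne_zero).1 ?_
  rw [anab_w_sq h0]
  exact pow_le_one₀ (anab_lf0_nonneg h0) (anab_lf0_le_one h0)

theorem lam_le_one (T : ℕ) (h0 : 0 < Y) (h1 : Y ≤ 1) : ‖Lam T Y‖ ≤ 1 := by
  rw [Lam, norm_mul, norm_pow]
  exact mul_le_one₀ (pow_le_one₀ (norm_nonneg _) (anab_w_le h0)) (norm_nonneg _)
    (anab_lla_le h0 h1)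

theorem anab_sub_mul {w u : ℂ} (hw : ‖w‖ ≤ 1) : ‖1 - w * u‖ ≤ ‖1 - w‖ + ‖1 - u‖ := by
  have e : 1 - w * u = (1 - w) + w * (1 - u) := by ring
  rw [e]
  refine (norm_add_le _ _).trans ?_
  rw [norm_mul]
  gcongr
  exact mul_le_of_le_one_left (norm_nonneg _) hw

theorem anab_sub_pow {w : ℂ} (hw : ‖w‖ ≤ 1) (n : ℕ) : ‖1 - w ^ n‖ ≤ n * ‖1 - w‖ := by
  induction n with
  | zero => simp
  | succ n ih =>
    rw [pow_succ']
    refine (anab_sub_mul hw).trans ?_
    push_cast
    linarith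

theorem lam_sub (T : ℕ) (hT : 1000 ≤ T) (h0 : 0 < Y) (h1 : Y ≤ 1) :
    ‖1 - Lam T Y‖ ≤ 3.5 * (2 * T * Y) := by
  have hT' : (1000 : ℝ) ≤ T := by exact_mod_cast hT
  have hw := anab_w_le h0
  have a0 : ‖(lf0 Y : ℂ)‖ ≤ 1 := by
    rw [Complex.norm_real, Real.norm_of_nonneg (anab_lf0_nonneg h0)]; exact anab_lf0_le_one h0
  have a1 : ‖1 - (lf0 Y : ℂ)‖ ≤ 2 * √3 * Y := by
    rw [← Complex.ofReal_one, ← Complex.ofReal_sub, Complex.norm_real,
      Real.norm_of_nonneg (by linarith [anab_lf0_le_one h0])]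
    exact anab_one_sub_lf0 h0
  have a2 : ‖1 - (lf0 Y : ℂ) * lfp Y‖ ≤ 6.93 * Y := by
    have := anab_sub_mul (u := lfp Y) a0
    have a3 : √3 * Y ≤ 1.7321 * Y := by gcongr; exact anab_s3_hi.le
    linarith [anab_one_sub_lfp h0]
  have a4 : ‖((lf0 Y : ℂ) * lfp Y) ^ T‖ ≤ 1 := by
    rw [norm_pow]; exact pow_le_one₀ (norm_nonneg _) hw
  have a5 := anab_sub_mul (u := lla Y) a4
  have a6 := anab_sub_pow hw T
  have a7 : T * ‖1 - (lf0 Y : ℂ) * lfp Y‖ ≤ T * (6.93 * Y) := by gcongr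
  have a8 : 1000 * Y ≤ T * Y := by gcongr
  have a9 := anab_one_sub_lla h0 h1
  rw [Lam]
  linarith

theorem anab_lam_exp (T : ℕ) {Y1 : ℝ} (h0 : 0 < Y1) (h1 : Y1 ≤ 1 / 2000) (h2 : Y1 ≤ Y)
    (h3 : Y ≤ 1) : ‖Lam T Y‖ ≤ exp (-(2.59 * (2 * T * Y1))) := by
  have hY : 0 < Y := h0.trans_le h2
  have a1 : lf0 Y ≤ exp (-(3.455 * Y1)) :=
    (anab_lf0_le h0 h1 h2 h3).trans (Real.one_sub_le_exp_neg _)
  have a2 : ‖(lf0 Y : ℂ) * lfp Y‖ ≤ exp (-(5.18 * Y1)) := by
    refine (pow_le_pow_iff_left₀ (norm_nonneg _) (by positivity) two_ne_zero).1 ?_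
    rw [anab_w_sq hY]
    refine (pow_le_pow_left₀ (anab_lf0_nonneg hY) a1 3).trans ?_
    rw [← Real.exp_nat_mul, ← Real.exp_nat_mul]
    refine Real.exp_le_exp.2 ?_
    push_cast
    linarith
  rw [Lam, norm_mul, norm_pow]
  refine (mul_le_of_le_one_right (by positivity) (anab_lla_le hY h3)).trans ?_
  refine (pow_le_pow_left₀ (norm_nonneg _) a2 T).trans (le_of_eq ?_)
  rw [← Real.exp_nat_mul]
  congr 1
  ring

theorem lam_bad (hT : 1000 ≤ T) (h1 : Y ≤ 1) (ht : 1 ≤ 2 * T * Y) : ‖Lam T Y‖ ≤ 0.076 := by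
  have hT' : (1000 : ℝ) ≤ T := by exact_mod_cast hT
  have hT0 : (0 : ℝ) < 2 * T := by linarith
  have h := anab_lam_exp T (Y := Y) (Y1 := 1 / (2 * T)) (by positivity)
    (by gcongr; linarith) (by rw [div_le_iff₀ hT0]; linarith) h1
  rw [mul_one_div_cancel hT0.ne', mul_one] at h
  refine h.trans ?_
  have a1 := Real.sum_le_exp_of_nonneg (x := 2.59) (by norm_num) 8
  have a2 : (13.2 : ℝ) ≤ exp 2.59 := by
    refine le_trans ?_ a1
    simp only [Finset.sum_range_succ, Finset.sum_range_zero, Nat.factorial]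
    norm_num
  rw [Real.exp_neg]
  refine (inv_anti₀ (by norm_num) a2).trans ?_
  norm_num

theorem anab_mul_cos_le {x : ℝ} (h0 : 0 ≤ x) (h1 : x < π / 2) : x * cos x ≤ sin x := by
  have hc : 0 < cos x := Real.cos_pos_of_mem_Ioo ⟨by linarith [Real.pi_pos], h1⟩
  have := Real.le_tan h0 h1
  rwa [Real.tan_eq_sin_div_cos, le_div_iff₀ hc] at this

theorem anab_polar {z : ℂ} (hre : 0 < z.re) (him : z.im ≤ 0) : ∃ α : ℝ, 0 ≤ α ∧
    z = ‖z‖ * Complex.exp ((-α : ℝ) * Complex.I) ∧ -z.im ≤ α * ‖z‖ ∧ α * z.re ≤ -z.im := by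
  have hz : z ≠ 0 := by rintro rfl; simp at hre
  have hn : 0 < ‖z‖ := norm_pos_iff.2 hz
  have ha := abs_lt.1 (Complex.abs_arg_lt_pi_div_two_iff.2 (Or.inl hre))
  have hs : sin (-z.arg) = -z.im / ‖z‖ := by rw [Real.sin_neg, Complex.sin_arg, neg_div]
  have hc : cos (-z.arg) = z.re / ‖z‖ := by rw [Real.cos_neg, Complex.cos_arg hz]
  have h0 : 0 ≤ -z.arg := by
    by_contra h
    have h1 : 0 < sin z.arg := Real.sin_pos_of_pos_of_lt_pi (by linarith)
      (by linarith [Real.pi_pos])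
    rw [Complex.sin_arg] at h1
    exact absurd h1 (not_lt.2 (div_nonpos_of_nonpos_of_nonneg him hn.le))
  refine ⟨-z.arg, h0, ?_, ?_, ?_⟩
  · rw [neg_neg]; exact (Complex.norm_mul_exp_arg_mul_I z).symm
  · have := Real.sin_le h0
    rwa [hs, div_le_iff₀ hn] at this
  · have := anab_mul_cos_le h0 (by linarith)
    rwa [hs, hc, ← mul_div_assoc, div_le_div_iff_of_pos_right hn] at this

theorem anab_alpha (h0 : 0 < Y) (h1 : Y ≤ 1 / 2000) : ∃ α : ℝ,
    lfp Y = ‖lfp Y‖ * Complex.exp ((-α : ℝ) * Complex.I) ∧ 2.99 * Y ≤ α ∧ α ≤ 3.01 * Y := by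
  have hD := anab_D_pos h0
  have hY2 : Y ^ 2 ≤ 1 / 4000000 := by nlinarith
  have hA : 0.999 ≤ (1 + Y ^ 2) ^ 2 - 6 * Y ^ 2 := by nlinarith [sq_nonneg (Y ^ 2)]
  have hB : 0 ≤ 3 * Y * (1 - Y ^ 2) := mul_nonneg (by positivity) (by linarith)
  have hu : 0 < (1 + Y ^ 2) * (1 + √3 * Y + Y ^ 2) := by positivity
  obtain ⟨α, a0, a1, a2, a3⟩ := anab_polar (z := lfp Y)
    (by rw [anab_lfp_re]; exact div_pos (by linarith) hu)
    (by rw [anab_lfp_im, neg_nonpos]; positivity)
  refine ⟨α, a1, ?_, ?_⟩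
  · have b1 : α * ‖lfp Y‖ ≤ α := mul_le_of_le_one_right a0 (anab_lfp_le h0)
    refine le_trans ?_ (a2.trans b1)
    rw [anab_lfp_im, neg_neg, le_div_iff₀ hu]
    have b2 : √3 * Y ≤ 1.7321 * (1 / 2000) := by gcongr; exact anab_s3_hi.le
    have b3 : (1 + Y ^ 2) * (1 + √3 * Y + Y ^ 2) ≤ 1.001 * 1.001 := by
      gcongr <;> linarith
    have b4 : 2.99 * Y * ((1 + Y ^ 2) * (1 + √3 * Y + Y ^ 2)) ≤ 2.99 * Y * (1.001 * 1.001) := by
      gcongr
    have b5 : 3 * Y * 0.9999 ≤ 3 * Y * (1 - Y ^ 2) := by gcongr; linarith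
    linarith
  · rw [anab_lfp_im, neg_neg, anab_lfp_re, ← mul_div_assoc, div_le_div_iff_of_pos_right hu] at a3
    have b1 : α * 0.999 ≤ α * ((1 + Y ^ 2) ^ 2 - 6 * Y ^ 2) := by gcongr
    have b2 : 3 * Y * (1 - Y ^ 2) ≤ 3 * Y * 1 := by gcongr; linarith [sq_nonneg Y]
    linarith

theorem anab_beta (h0 : 0 < Y) (h1 : Y ≤ 1 / 2000) : ∃ β : ℝ,
    lla Y = ‖lla Y‖ * Complex.exp ((-β : ℝ) * Complex.I) ∧ 0 ≤ β ∧ β ≤ 2.5 * Y := by
  have hD := anab_D_pos h0
  obtain ⟨q0, q1⟩ := anab_Q h0 (by linarith)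
  have b0 : dD * Y ≤ 2.3661 * Y := by gcongr; exact anab_dD_hi.le
  have hP : 0.99 ≤ 1 + Y ^ 2 - dD * Y := by nlinarith [sq_nonneg Y]
  obtain ⟨β, a0, a1, -, a3⟩ := anab_polar (z := lla Y)
    (by rw [anab_lla_re]; exact div_pos (by linarith) hD)
    (by rw [anab_lla_im, neg_nonpos]; positivity)
  refine ⟨β, a1, a0, ?_⟩
  rw [anab_lla_im, neg_neg, anab_lla_re, ← mul_div_assoc, div_le_div_iff_of_pos_right hD] at a3
  have b1 : β * 0.99 ≤ β * (1 + Y ^ 2 - dD * Y) := by gcongr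
  linarith

theorem anab_exp_bound {t : ℝ} (ht : 0 ≤ t) : 1.52 * t * exp (-(2.59 * t)) ≤ 0.42 * √t := by
  obtain ⟨q, hq, rfl⟩ : ∃ q : ℝ, 0 ≤ q ∧ t = q ^ 2 := ⟨√t, Real.sqrt_nonneg _, (Real.sq_sqrt ht).symm⟩
  rw [Real.sqrt_sq hq, Real.exp_neg, ← div_eq_mul_inv, div_le_iff₀ (Real.exp_pos _)]
  have a1 : 1.625 ≤ exp (1 / 2) := by
    have := Real.quadratic_le_exp_of_nonneg (x := 1 / 2) (by norm_num)
    linarith
  have a2 : 2.59 * q ^ 2 - 1 / 2 + 1 ≤ exp (2.59 * q ^ 2 - 1 / 2) := Real.add_one_le_exp _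
  have a3 : 1.625 * (2.59 * q ^ 2 - 1 / 2 + 1) ≤ exp (2.59 * q ^ 2) := by
    have e : exp (2.59 * q ^ 2) = exp (1 / 2) * exp (2.59 * q ^ 2 - 1 / 2) := by
      rw [← Real.exp_add]; congr 1; ring
    rw [e]
    exact mul_le_mul a1 a2 (by nlinarith [sq_nonneg q]) (Real.exp_pos _).le
  have a4 : 1.52 * q ≤ 0.42 * exp (2.59 * q ^ 2) := by nlinarith [sq_nonneg (q - 0.43)]
  nlinarith [mul_le_mul_of_nonneg_left a4 hq]

theorem lam_good (hT : 1000 ≤ T) (h0 : 0 < Y) (ht : 2 * T * Y ≤ 1) :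
    0 ≤ (Lam T Y).re ∧ 1.49 * (2 * T * Y) * (Lam T Y).re ≤ -(Lam T Y).im ∧
      -(Lam T Y).im ≤ 0.42 * √(2 * T * Y) ∧ -(Lam T Y).im ≤ 1.52 * (2 * T * Y) := by
  have hT' : (1000 : ℝ) ≤ T := by exact_mod_cast hT
  have hTY : 1000 * Y ≤ T * Y := by gcongr
  have h1 : Y ≤ 1 / 2000 := by linarith
  obtain ⟨α, ea, a1, a2⟩ := anab_alpha h0 h1
  obtain ⟨β, eb, b1, b2⟩ := anab_beta h0 h1
  set r : ℝ := (lf0 Y * ‖lfp Y‖) ^ T * ‖lla Y‖ with hr
  set φ : ℝ := T * α + β with hφ
  have hr0 : 0 ≤ r := by have := anab_lf0_nonneg h0; positivity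
  have e : Lam T Y = r * Complex.exp ((-φ : ℝ) * Complex.I) := by
    have e1 : ((-φ : ℝ) : ℂ) * Complex.I =
        T * (((-α : ℝ) : ℂ) * Complex.I) + ((-β : ℝ) : ℂ) * Complex.I := by
      rw [hφ]; push_cast; ring
    rw [e1, Complex.exp_add, Complex.exp_nat_mul, hr, Lam]
    conv_lhs => rw [ea, eb]
    push_cast
    ring
  have hn : ‖Lam T Y‖ = r := by
    rw [e, norm_mul, Complex.norm_exp_ofReal_mul_I, mul_one, Complex.norm_real,
      Real.norm_of_nonneg hr0]
  have hre : (Lam T Y).re = r * cos φ := by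
    rw [e, Complex.re_ofReal_mul, Complex.exp_ofReal_mul_I_re, Real.cos_neg]
  have him : -(Lam T Y).im = r * sin φ := by
    rw [e, Complex.im_ofReal_mul, Complex.exp_ofReal_mul_I_im, Real.sin_neg, mul_neg, neg_neg]
  have p1 : T * (2.99 * Y) ≤ T * α := by gcongr
  have p2 : T * α ≤ T * (3.01 * Y) := by gcongr
  have ht0 : 0 ≤ 2 * T * Y := by positivity
  have f1 : 1.49 * (2 * T * Y) ≤ φ := by rw [hφ]; linarith
  have f2 : φ ≤ 1.52 * (2 * T * Y) := by rw [hφ]; linarith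
  have f0 : 0 ≤ φ := le_trans (by positivity) f1
  have f3 : φ < π / 2 := by linarith [Real.pi_gt_d2]
  have hc : 0 ≤ cos φ := Real.cos_nonneg_of_mem_Icc ⟨by linarith [Real.pi_pos], f3.le⟩
  have hs : sin φ ≤ 1.52 * (2 * T * Y) := (Real.sin_le f0).trans f2
  have r1 : r ≤ 1 := hn ▸ lam_le_one T h0 (by linarith)
  have r2 : r ≤ exp (-(2.59 * (2 * T * Y))) := hn ▸ anab_lam_exp T h0 h1 le_rfl (by linarith)
  have g1 : r * sin φ ≤ r * (1.52 * (2 * T * Y)) := by gcongr
  rw [hre, him]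
  refine ⟨by positivity, ?_, ?_, ?_⟩
  · have g2 : 1.49 * (2 * T * Y) * cos φ ≤ φ * cos φ := by gcongr
    have g3 := mul_le_mul_of_nonneg_left (g2.trans (anab_mul_cos_le f0 f3)) hr0
    linarith
  · refine g1.trans (le_trans ?_ (anab_exp_bound ht0))
    rw [mul_comm r]
    gcongr
  · exact g1.trans (mul_le_of_le_one_left (by positivity) r1)

end Pool.Agent.Lib.MP_4960b8_pr.QK
end
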