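import Mathlib

/-!
Spin representation of the integrable `n = 0` loop model (Nienhuis, Glazman-Manolescu weights).
States of a cut are streams of spins; operators act on functions of streams.
-/

namespace Pool.Agent.Lib.MP_4960b8_pr.QK

/-- spin of an edge of the cut: empty, arrow to the right, arrow to the left -/
inductive S | o | p | m
deriving DecidableEq

instance : Fintype S := ⟨{S.o, S.p, S.m}, fun x => by cases x <;> simp⟩

abbrev St := ℕ → S
abbrev Vec := St → ℂ
abbrev Op := Module.End ℂ Vec
/-- homogeneous spectral parameter `(p, q)`, `X = p / q` -/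
abbrev P := ℂ × ℂ

def cons (a : S) (σ : St) : St := fun n => match n with
  | 0 => a
  | n + 1 => σ n

def tl (σ : St) : St := fun n => σ (n + 1)

noncomputable def ζ : ℂ := Complex.exp (Real.pi / 8 * Complex.I)

/-- act on all sites but the lowest -/
def lift (A : Op) : Op where
  toFun v σ := A (fun τ => v (cons (σ 0) τ)) (tl σ)
  map_add' u v := by
    funext σ
    exact congrFun (A.map_add (fun τ => u (cons (σ 0) τ)) (fun τ => v (cons (σ 0) τ))) (tl σ)
  map_smul' c v := by
    funext σ
    exact congrFun (A.map_smul c (fun τ => v (cons (σ 0) τ))) (tl σ)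

def liftN : ℕ → Op → Op
  | 0, A => A
  | n + 1, A => lift (liftN n A)

noncomputable def dd (a b : P) : ℂ :=
  (ζ ^ 4 * (a.1 * b.2) - a.2 * b.1) * (ζ ^ 6 * (a.1 * b.2) - a.2 * b.1)
noncomputable def vv (a b : P) : ℂ := -(a.1 * b.2 - a.2 * b.1) * (ζ ^ 2 * (a.1 * b.2) + a.2 * b.1)
noncomputable def w1 (a b : P) : ℂ :=
  (a.1 * b.2 - ζ ^ 6 * (a.2 * b.1)) * (a.1 * b.2 - ζ ^ 4 * (a.2 * b.1))
noncomputable def w2 (a b : P) : ℂ :=
  (ζ ^ 4 * (a.1 * b.2) - ζ ^ 6 * (a.2 * b.1)) * (a.1 * b.2 - a.2 * b.1)
noncomputable def ul (a b : P) : ℂ := (1 - ζ ^ 4) * (a.1 * b.2 - ζ ^ 6 * (a.2 * b.1)) * (a.2 * b.1)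
noncomputable def uu (a b : P) : ℂ := (1 - ζ ^ 4) * (a.1 * b.2 - ζ ^ 6 * (a.2 * b.1)) * (a.1 * b.2)
noncomputable def cr (a b : P) : ℂ := ζ ^ 6 * (ζ ^ 4 - 1) * (a.1 * b.2 - a.2 * b.1) * (a.1 * b.1)
noncomputable def jn (a b : P) : ℂ := (ζ ^ 4 - 1) * (a.1 * b.2 - a.2 * b.1) * (a.2 * b.2)

/-- the value of `R a b v` on the state with lowest spins `x, y` and rest `t` -/
noncomputable def Rf (a b : P) (g : S → S → ℂ) : S → S → ℂ
  | .o, .o => dd a b * g .o .o + jn a b * (ζ ^ 2 * g .p .m - ζ ^ 6 * g .m .p)
  | .p, .o => ul a b * g .p .o + vv a b * g .o .p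
  | .m, .o => ul a b * g .m .o + vv a b * g .o .m
  | .o, .p => vv a b * g .p .o + uu a b * g .o .p
  | .o, .m => vv a b * g .m .o + uu a b * g .o .m
  | .p, .p => w1 a b * g .p .p
  | .m, .m => w1 a b * g .m .m
  | .p, .m => w1 a b * g .p .m +
      ζ ^ 2 * (cr a b * g .o .o + w2 a b * (ζ ^ 2 * g .p .m - ζ ^ 6 * g .m .p))
  | .m, .p => w1 a b * g .m .p -
      ζ ^ 6 * (cr a b * g .o .o + w2 a b * (ζ ^ 2 * g .p .m - ζ ^ 6 * g .m .p))

/-- the rhombus operator on the two lowest sites: lines `(a, b)` become `(b, a)` -/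
noncomputable def R (a b : P) : Op where
  toFun v σ := Rf a b (fun x y => v (cons x (cons y (tl (tl σ))))) (σ 0) (σ 1)
  map_add' u v := by
    funext σ
    show Rf a b _ _ _ = Rf a b _ _ _ + Rf a b _ _ _
    cases σ 0 <;> cases σ 1 <;> simp only [Rf, Pi.add_apply] <;> ring
  map_smul' c v := by
    funext σ
    show Rf a b _ _ _ = c * Rf a b _ _ _
    cases σ 0 <;> cases σ 1 <;> simp only [Rf, Pi.smul_apply, smul_eq_mul] <;> ring

/-- one-site operator with matrix `M out in` on the lowest site -/
noncomputable def loc (M : S → S → ℂ) : Op where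
  toFun v σ := M (σ 0) .o * v (cons .o (tl σ)) + M (σ 0) .p * v (cons .p (tl σ)) +
    M (σ 0) .m * v (cons .m (tl σ))
  map_add' u v := by funext σ; simp only [Pi.add_apply]; ring
  map_smul' c v := by funext σ; simp only [Pi.smul_apply, smul_eq_mul, RingHom.id_apply]; ring

/-- diagonal one-site operator -/
noncomputable def dg (x y z : ℂ) : Op := loc fun a b => match a, b with
  | .o, .o => x
  | .p, .p => y
  | .m, .m => z
  | _, _ => 0

/-- fix the lowest spin and remove the site -/
def prj (s : S) : Op where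
  toFun v σ := v (cons s σ)
  map_add' _ _ := rfl
  map_smul' _ _ := rfl

/-- insert a lowest site with spin distribution `χ` -/
noncomputable def ins1 (χ : S → ℂ) : Op where
  toFun v σ := χ (σ 0) * v (tl σ)
  map_add' u v := by funext σ; simp only [Pi.add_apply]; ring
  map_smul' c v := by funext σ; simp only [Pi.smul_apply, smul_eq_mul, RingHom.id_apply]; ring

/-- insert an empty lowest site -/
noncomputable def emp : Op := ins1 fun s => match s with
  | .o => 1
  | _ => 0

noncomputable def chi (c : P) : S → S → ℂ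
  | .o, .o => c.2
  | .p, .m => ζ ^ 2 * c.1
  | .m, .p => -ζ ^ 6 * c.1
  | _, _ => 0

/-- insert the pair of lines `(sh c, c)` at the bottom -/
noncomputable def ins (c : P) : Op where
  toFun v σ := chi c (σ 0) (σ 1) * v (tl (tl σ))
  map_add' u v := by funext σ; simp only [Pi.add_apply]; ring
  map_smul' c v := by funext σ; simp only [Pi.smul_apply, smul_eq_mul, RingHom.id_apply]; ring

def bar (a : P) : P := (a.2, a.1)
noncomputable def sh (c : P) : P := (ζ ^ 13 * c.1, ζ ^ 3 * c.2)
/-- parameter of the columns (angle `0`) -/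
noncomputable def aux : P := (1, ζ ^ 3)
/-- parameter of the rows of the hexagonal lattice (angle `π / 3`) -/
noncomputable def hn : P := (1, ζ)
noncomputable def kd (a : P) : ℂ := a.1 * (ζ ^ 3 * a.1 - a.2)
noncomputable def ko (a : P) : ℂ := a.2 * (ζ ^ 3 * a.2 - a.1)
/-- reflection at the top -/
noncomputable def K (a : P) : Op := dg (kd a) (ko a) (ko a)
noncomputable def lin (c : P) : ℂ := (ζ ^ 4 - ζ ^ 2) * (c.1 + ζ * c.2)
noncomputable def phi (m c : P) : ℂ := dd c m * dd m (bar c)
/-- projection on an empty lowest site -/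
noncomputable def E0 : Op := dg 1 0 0

/-- the line `k` at the bottom goes up through the lines `l` -/
noncomputable def up (k : P) : List P → Op
  | [] => 1
  | m :: l => lift (up k l) * R k m

/-- the line `k` above the lines `l` comes down to the bottom -/
noncomputable def down (k : P) : List P → Op
  | [] => 1
  | m :: l => R m k * lift (down k l)

/-- column transfer operator (numerator) -/
noncomputable def col (l : List P) : Op := prj .o * down aux l
/-- column with an arrow entering at the bottom -/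
noncomputable def colA (l : List P) : Op := prj .m * down aux l
noncomputable def fc (l : List P) : ℂ := (l.map fun m => dd m aux).prod

/-- the empty state -/
def zer : St := fun _ => .o
open Classical in
noncomputable def vac : Vec := fun σ => if σ = zer then 1 else 0
/-- one arrow `+` at the site `j` -/
def sgl (j : ℕ) : St := fun i => if i = j then .p else .o

def Supp (n : ℕ) (v : Vec) : Prop := ∀ σ i, n ≤ i → σ i ≠ .o → v σ = 0
def S.val : S → ℤ
  | .o => 0
  | .p => 1
  | .m => -1
def chg (n : ℕ) (σ : St) : ℤ := ∑ i ∈ Finset.range n, (σ i).val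
def HasCh (n : ℕ) (c : ℤ) (v : Vec) : Prop := ∀ σ, chg n σ ≠ c → v σ = 0

/-- the nilpotent charge on `n` sites -/
noncomputable def Q : ℕ → Op
  | 0 => 0
  | n + 1 => loc (fun a b => match a, b with
      | .p, .m => 1
      | _, _ => 0) + dg 1 (ζ ^ 4) (-ζ ^ 4) * lift (Q n)

noncomputable def pP (l : List P) : ℂ := (l.map Prod.fst).prod
noncomputable def pQ (l : List P) : ℂ := (l.map Prod.snd).prod
noncomputable def kap : Op := dg 1 (ζ ^ 6) (ζ ^ 10)
noncomputable def e1 (a : P) : Op := loc fun x y => match x, y with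
  | .p, .o => a.1
  | .o, .m => ζ ^ 10 * a.2
  | _, _ => 0
noncomputable def f1 (a : P) : Op := loc fun x y => match x, y with
  | .m, .o => a.1
  | .o, .p => a.2
  | _, _ => 0
/-- raising current times the product of the `q` -/
noncomputable def JE : List P → Op
  | [] => 0
  | a :: l => pQ l • e1 a + a.2 • (kap * lift (JE l))
/-- lowering current times the product of the `p` -/
noncomputable def JF : List P → Op
  | [] => 0
  | a :: l => pP l • f1 a + a.1 • (kap * lift (JF l))
/-- the current without flux through the top -/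
noncomputable def JB (l : List P) : Op := pP l • JE l + (ζ ^ 5 * pQ l) • (Q l.length * JF l)
/-- the weighted sum of the one-arrow components -/
noncomputable def LT : List P → Vec → ℂ
  | [], _ => 0
  | a :: l, v => pP l * (a.2 - ζ ^ 13 * a.1) * v (cons .p zer) + a.1 * LT l (prj .o v)

/-- node value at `sh k` -/
noncomputable def Vp (Ψ : List P → Vec) (l₁ : List P) (k : P) (l₂ : List P) : Vec :=
  (kd k * lin k * (l₂.map fun m => dd k m).prod * ((l₁ ++ l₂).map fun m => dd m (bar k)).prod) •
    (lift (up k l₁) * ins k) (Ψ (l₁ ++ l₂))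
/-- node value at `sh (bar k)` -/
noncomputable def Vm (Ψ : List P → Vec) (l₁ : List P) (k : P) (l₂ : List P) : Vec :=
  (lin (bar k) * (l₁.map fun m => dd m k).prod) •
    (liftN (l₁.length + 1) (down k l₂) * liftN ((l₁ ++ l₂).length + 1) (K (bar k)) *
      lift (up (bar k) (l₁ ++ l₂)) * ins (bar k)) (Ψ (l₁ ++ l₂))

end Pool.Agent.Lib.MP_4960b8_pr.QK
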