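import Pool.Agent.Lib.MP_4960b8_pr.QK.AlgA

-- part Pool.Agent.Lib.MP_4960b8_pr.QK.GoodT
section

/-! Tools for the construction of the polynomial solution. -/

namespace Pool.Agent.Lib.MP_4960b8_pr.QK

/-- node values -/
noncomputable def VV : Bool → (List P → Vec) → List P → P → List P → Vec
  | true => Vp
  | false => Vm
/-- nodes -/
noncomputable def nd : Bool → P → P
  | true, k => sh k
  | false, k => sh (bar k)

/-- the solution up to length `n`, extended to length `n + 1` by interpolation -/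
structure Pre (n : ℕ) (Ψ : List P → Vec) : Prop where
  good : Good n Ψ
  hom0 : ∀ (l : List P) (a : P) (c : ℂ), l.length = n → Ψ (c • a :: l) = c ^ (2 * n) • Ψ (a :: l)
  nv : ∀ s l₁ k l₂, (l₁ ++ k :: l₂).length = n → Ψ (nd s k :: (l₁ ++ k :: l₂)) = VV s Ψ l₁ k l₂
  r0b : ∀ l, l.length = n → Ψ (bar aux :: l) = fc l • emp (Ψ l)

lemma alga_PL.len {M} (hM : alga_PL M) : ∃ n, ∀ x, (M x).length = n := by
  obtain ⟨L, -, h2⟩ := hM
  exact ⟨L.length, fun x => by simp [h2]⟩
lemma alga_PL.prod {M} (hM : alga_PL M) (F : (ℕ → P) → P → ℂ)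
    (h : ∀ g, PolyP g → PolyF fun x => F x (g x)) : PolyF fun x => ((M x).map (F x)).prod := by
  obtain ⟨L, h1, h2⟩ := hM
  simp only [h2]
  exact PolyF.listProd F fun g hg => h g (h1 g hg)
lemma alga_PL.fc {M} (hM : alga_PL M) : PolyF fun x => fc (M x) :=
  hM.prod (fun _ m => dd m aux) fun _ hg => PolyF.dd hg (PolyP.const aux)
lemma alga_PL.up {M g} (hM : alga_PL M) (hg : PolyP g) : PolyO fun x => up (g x) (M x) := by
  obtain ⟨L, h1, h2⟩ := hM
  simp only [h2]
  exact PolyO.up hg h1
lemma alga_PL.down {M g} (hM : alga_PL M) (hg : PolyP g) : PolyO fun x => down (g x) (M x) := by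
  obtain ⟨L, h1, h2⟩ := hM
  simp only [h2]
  exact PolyO.down hg h1
lemma alga_PL.liftN {M A} (hM : alga_PL M) (hA : PolyO A) (j : ℕ) :
    PolyO fun x => liftN ((M x).length + j) (A x) := by
  obtain ⟨n, hn⟩ := hM.len
  simp only [hn]
  exact hA.liftN _
lemma alga_PL.liftN0 {M A} (hM : alga_PL M) (hA : PolyO A) :
    PolyO fun x => QK.liftN (M x).length (A x) := hM.liftN hA 0
lemma alga_PL.take {M} (hM : alga_PL M) (j : ℕ) : alga_PL fun x => (M x).take j := by
  obtain ⟨L, h1, h2⟩ := hM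
  exact ⟨L.take j, fun g hg => h1 g (List.mem_of_mem_take hg), fun x => by
    simp only [h2, List.map_take]⟩
lemma alga_PL.drop {M} (hM : alga_PL M) (j : ℕ) : alga_PL fun x => (M x).drop j := by
  obtain ⟨L, h1, h2⟩ := hM
  exact ⟨L.drop j, fun g hg => h1 g (List.mem_of_mem_drop hg), fun x => by
    simp only [h2, List.map_drop]⟩
lemma alga_PL.getD {M} (hM : alga_PL M) (j : ℕ) : PolyP fun x => (M x).getD j 0 := by
  obtain ⟨L, h1, h2⟩ := hM
  simp only [h2]
  by_cases hj : j < L.length
  · have : (fun x => (L.map fun g => g x).getD j 0) = L[j] := by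
      funext x; simp [List.getD_eq_getElem?_getD, hj]
    rw [this]; exact h1 _ (List.getElem_mem hj)
  · have : (fun x => (L.map fun g => g x).getD j 0) = fun _ => 0 := by
      funext x; simp [List.getD_eq_getElem?_getD, List.getElem?_eq_none (not_lt.1 hj)]
    rw [this]; exact PolyP.const 0
lemma alga_PL_single {g} (hg : PolyP g) : alga_PL fun x => [g x] :=
  alga_PL_cons hg (alga_PL_const [])

lemma VV_poly {Ψ} (h : PolV Ψ) (s : Bool) {M M' g} (hM : alga_PL M) (hg : PolyP g)
    (hM' : alga_PL M') : PolyV fun x => VV s Ψ (M x) (g x) (M' x) := by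
  have hA := alga_PL_append hM hM'
  cases s
  · refine PolyV.smul ((PolyF.lin hg.bar).mul
      (hM.prod (fun x m => dd m (g x)) fun _ h' => PolyF.dd h' hg)) ?_
    exact ((((hM.liftN (hM'.down hg) 1).mul (hA.liftN (PolyO.K hg.bar) 1)).mul
      (hA.up hg.bar).lift).mul (PolyO.ins hg.bar)) _ (hA.psi h)
  · refine PolyV.smul ((((PolyF.kd hg).mul (PolyF.lin hg)).mul
      (hM'.prod (fun x m => dd (g x) m) fun _ h' => PolyF.dd hg h')).mul
      (hA.prod (fun x m => dd m (bar (g x))) fun _ h' => PolyF.dd h' hg.bar)) ?_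
    exact ((hM.up hg).lift.mul (PolyO.ins hg)) _ (hA.psi h)

/-- density for three parameters and three lists -/
theorem densG {F : P → P → P → List P → List P → List P → Vec}
    (hF : ∀ a b c M₁ M₂ M₃, PolyP a → PolyP b → PolyP c → alga_PL M₁ → alga_PL M₂ → alga_PL M₃ →
      PolyV fun x => F (a x) (b x) (c x) (M₁ x) (M₂ x) (M₃ x)) (a b c : P) (l₁ l₂ l₃ : List P)
    (h : ∀ a b c m₁ m₂ m₃, m₁.length = l₁.length → m₂.length = l₂.length →
      m₃.length = l₃.length → Gen (a :: b :: c :: (m₁ ++ (m₂ ++ m₃))) → F a b c m₁ m₂ m₃ = 0) :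
    F a b c l₁ l₂ l₃ = 0 := by
  have hR := alga_PL_range (l₁.length + (l₂.length + l₃.length) + 3) (g := fun x => x)
    PolyP.var
  have key : ∀ (a b c : P) (m₁ m₂ m₃ : List P), m₁.length = l₁.length → m₂.length = l₂.length →
      ∀ l, l = a :: b :: c :: (m₁ ++ (m₂ ++ m₃)) →
      F (l.getD 0 0) (l.getD 1 0) (l.getD 2 0) ((l.drop 3).take l₁.length)
        (((l.drop 3).drop l₁.length).take l₂.length) (((l.drop 3).drop l₁.length).drop l₂.length)
        = F a b c m₁ m₂ m₃ := by
    rintro a b c m₁ m₂ m₃ e₁ e₂ l rfl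
    simp [← e₁, ← e₂]
  rw [← key a b c l₁ l₂ l₃ rfl rfl _ rfl]
  refine densL (F := fun l => F (l.getD 0 0) (l.getD 1 0) (l.getD 2 0) ((l.drop 3).take l₁.length)
      (((l.drop 3).drop l₁.length).take l₂.length) (((l.drop 3).drop l₁.length).drop l₂.length))
    (l₁.length + (l₂.length + l₃.length) + 3)
    (hF _ _ _ _ _ _ (hR.getD 0) (hR.getD 1) (hR.getD 2) ((hR.drop 3).take _)
      (((hR.drop 3).drop _).take _) (((hR.drop 3).drop _).drop _)) (fun l hl hg => ?_) _
    (by simp)
  obtain ⟨a, b, c, r, rfl⟩ : ∃ a b c r, l = a :: b :: c :: r := by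
    rcases l with _ | ⟨a, _ | ⟨b, _ | ⟨c, r⟩⟩⟩ <;> simp at hl
    exact ⟨a, b, c, r, rfl⟩
  have hr : r.length = l₁.length + (l₂.length + l₃.length) := by simpa using hl
  refine h _ _ _ _ _ _ (by simp; omega) (by simp; omega) (by simp; omega) ?_
  simpa only [List.drop_succ_cons, List.drop_zero, List.take_append_drop, List.getD_cons_zero,
    List.getD_cons_succ] using hg

/-- counting nodes, with a separate family of nodes for every label -/
theorem nodecountM {f : P → Vec} (hp : PolyV fun x => f (x 0)) (d : ℕ)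
    (hh : ∀ (c : ℂ) a, f (c • a) = c ^ d • f a) {L : List (P × List (ℕ × Bool))}
    (hl : Gen (L.map Prod.fst)) (hJ : ∀ x ∈ L, x.2.Nodup ∧ ∀ j ∈ x.2, j.1 < 16)
    (E : List P) (hE : E.Pairwise NP) (hE0 : ∀ e ∈ E, e ≠ 0)
    (hE' : ∀ e ∈ E, e.1 * e.2 = 0 ∨ e.1 ^ 32 = e.2 ^ 32)
    (hd : d < E.length + (L.map fun x => x.2.length).sum) (h1 : ∀ e ∈ E, f e = 0)
    (h2 : ∀ x ∈ L, ∀ j ∈ x.2, f (tw j.1 j.2 x.1) = 0) (a : P) : f a = 0 := by
  have mem : ∀ t ∈ L.flatMap fun x => x.2.map fun j => tw j.1 j.2 x.1,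
      ∃ x ∈ L, ∃ j ∈ x.2, tw j.1 j.2 x.1 = t := fun t ht => by
    simpa only [List.mem_flatMap, List.mem_map] using ht
  have g1 : ∀ x ∈ L, G1 x.1 := fun x hx => hl.1 _ (List.mem_map_of_mem hx)
  refine nodecountV hp d hh (E ++ L.flatMap fun x => x.2.map fun j => tw j.1 j.2 x.1) ?_
    (List.pairwise_append.2 ⟨hE, List.pairwise_flatMap.2 ⟨fun x hx => ?_, ?_⟩,
      fun e he t ht => ?_⟩) (fun t ht => ?_) a
  · simpa [List.length_flatMap] using hd
  · exact List.pairwise_map.2 ((hJ x hx).1.imp_of_mem fun hi hj h =>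
      poly_np_tw (g1 x hx) ((hJ x hx).2 _ hi) ((hJ x hx).2 _ hj) h)
  · refine (List.pairwise_map.1 hl.2).imp fun h s hs t ht => ?_
    obtain ⟨i, -, rfl⟩ := List.mem_map.1 hs
    obtain ⟨j, -, rfl⟩ := List.mem_map.1 ht
    exact (poly_G2_tw (poly_G2_tw h.symm).symm).det
  · obtain ⟨x, hx, j, -, rfl⟩ := mem t ht
    exact poly_np_special (hE0 e he) (hE' e he) (poly_G1_tw (g1 x hx))
  · rcases List.mem_append.1 ht with ht | ht
    · exact h1 t ht
    · obtain ⟨x, hx, j, hj, rfl⟩ := mem t ht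
      exact h2 x hx j hj

/-- nodes `bar (sh (bar m))` (the inverse of `sh`) and `sh (bar m)` -/
theorem nodecountR {f : P → Vec} (hp : PolyV fun x => f (x 0)) (d : ℕ)
    (hh : ∀ (c : ℂ) a, f (c • a) = c ^ d • f a) {l : List P} (hl : Gen l)
    (E : List P) (hE : E.Pairwise NP) (hE0 : ∀ e ∈ E, e ≠ 0)
    (hE' : ∀ e ∈ E, e.1 * e.2 = 0 ∨ e.1 ^ 32 = e.2 ^ 32)
    (hd : d < E.length + 2 * l.length) (h1 : ∀ e ∈ E, f e = 0)
    (h2 : ∀ m ∈ l, f (bar (sh (bar m))) = 0 ∧ f (sh (bar m)) = 0) (a : P) : f a = 0 := by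
  funext σ
  refine nodecountL (f := fun a => f a σ) (hp σ) d (fun c a => congrFun (hh c a) σ) hl
    [(6, false), (10, true)] (by decide) (by decide) E hE hE0 hE' (by simpa [mul_comm] using hd)
    (fun e he => congrFun (h1 e he) σ)
    (fun j hj m hm => congrFun (?_ : f (tw j.1 j.2 m) = 0) σ) a
  simp only [List.mem_cons, List.not_mem_nil, or_false] at hj
  rcases hj with rfl | rfl
  exacts [poly_unsmul hh (bar_sh_bar_eq_tw m) (h2 m hm).1,
    poly_unsmul hh (sh_bar_eq_tw m) (h2 m hm).2]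

/-- four nodes for the label `c`, two for the others, and `bar aux` -/
theorem nodecountC {f : P → Vec} (hp : PolyV fun x => f (x 0)) {c : P} {l : List P}
    (hh : ∀ (t : ℂ) a, f (t • a) = t ^ (2 * l.length + 4) • f a) (hl : Gen (c :: l))
    (h0 : f (bar aux) = 0) (h1 : f (sh c) = 0) (h2 : f (sh (bar c)) = 0) (h3 : f (sh (sh c)) = 0)
    (h4 : f (bar c) = 0) (h5 : ∀ m ∈ l, f (sh m) = 0 ∧ f (sh (bar m)) = 0) (a : P) : f a = 0 := by
  refine nodecountM hp _ hh (L := (c, [(10, false), (10, true), (4, false), (0, true)]) ::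
      l.map fun m => (m, [(10, false), (10, true)])) (by simpa [Function.comp_def] using hl) ?_
    [bar aux] (by simp) (fun e he => (special_ok e (by simp at he ⊢; tauto)).1)
    (fun e he => (special_ok e (by simp at he ⊢; tauto)).2) ?_ (by simpa using h0) ?_ a
  · intro x hx
    rcases List.mem_cons.1 hx with rfl | hx
    · exact ⟨by dsimp only; decide, by dsimp only; decide⟩
    · obtain ⟨m, -, rfl⟩ := List.mem_map.1 hx
      exact ⟨by dsimp only; decide, by dsimp only; decide⟩
  · simp [Function.comp_def]; omega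
  · intro x hx j hj
    rcases List.mem_cons.1 hx with rfl | hx
    · simp only [List.mem_cons, List.not_mem_nil, or_false] at hj
      rcases hj with rfl | rfl | rfl | rfl
      · exact poly_unsmul hh (sh_eq_tw c) h1
      · exact poly_unsmul hh (sh_bar_eq_tw c) h2
      · refine poly_unsmul hh (j := 6) ?_ h3
        refine Prod.ext ?_ ?_ <;> simp [sh, tw]
        · linear_combination ζ ^ 10 * c.1 * h16
        · ring
      · refine poly_unsmul hh (j := 0) ?_ h4
        simp [tw, bar]
    · obtain ⟨m, hm, rfl⟩ := List.mem_map.1 hx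
      simp only [List.mem_cons, List.not_mem_nil, or_false] at hj
      rcases hj with rfl | rfl
      exacts [poly_unsmul hh (sh_eq_tw m) (h5 m hm).1, poly_unsmul hh (sh_bar_eq_tw m) (h5 m hm).2]

end Pool.Agent.Lib.MP_4960b8_pr.QK
end

-- part Pool.Agent.Lib.MP_4960b8_pr.QK.GoodA
section

/-! Covariance of the node values. -/

namespace Pool.Agent.Lib.MP_4960b8_pr.QK

variable {n : ℕ} {Ψ : List P → Vec}

/-- the pair `(sh k, k)` is inserted at the bottom and `k` goes up through `l` -/
noncomputable def gooda_W (k : P) (l : List P) : Op := lift (up k l) * ins k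

lemma gooda_Vp (Ψ : List P → Vec) (l₁ : List P) (k : P) (l₂ : List P) : VV true Ψ l₁ k l₂ =
    (kd k * lin k * (l₂.map fun m => dd k m).prod * ((l₁ ++ l₂).map fun m => dd m (bar k)).prod) •
      gooda_W k l₁ (Ψ (l₁ ++ l₂)) := rfl

lemma gooda_Vm (Ψ : List P → Vec) (l₁ : List P) (k : P) (l₂ : List P) : VV false Ψ l₁ k l₂ =
    (lin (bar k) * (l₁.map fun m => dd m k).prod) •
      (liftN (l₁.length + 1) (down k l₂) * (liftN ((l₁ ++ l₂).length + 1) (K (bar k)) *
        gooda_W (bar k) (l₁ ++ l₂))) (Ψ (l₁ ++ l₂)) := rfl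

lemma gooda_key {A B B' C : Op} {x y t c d : ℂ} {u w : Vec} (h1 : A * B = t • (B' * C))
    (h2 : C u = c • w) (h3 : x * t * c = d * y) : A (x • B u) = d • y • B' w := by
  have e : A (B u) = t • B' (C u) := LinearMap.congr_fun h1 u
  rw [map_smul, e, h2, map_smul, smul_smul, smul_smul, smul_smul, h3]

lemma gooda_key1 {A B B' C : Op} {x y c d : ℂ} {u w : Vec} (h1 : A * B = B' * C)
    (h2 : C u = c • w) (h3 : x * c = d * y) : A (x • B u) = d • y • B' w :=
  gooda_key (t := 1) (by rw [one_smul, h1]) h2 (by rw [mul_one, h3])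

lemma gooda_key0 {A B B' : Op} {x y t d : ℂ} {u : Vec} (h1 : A * B = t • B')
    (h3 : x * t = d * y) : A (x • B u) = d • y • B' u :=
  gooda_key (C := 1) (c := 1) (by rw [mul_one, h1]) (one_smul _ _).symm (by rw [mul_one, h3])

lemma gooda_len (l : List P) (a : P) : (l ++ [a]).length = l.length + 1 := by simp

lemma gooda_cR {i j : ℕ} (h : i + 2 ≤ j) (a b : P) (A : Op) :
    liftN i (R a b) * liftN j A = liftN j A * liftN i (R a b) := by
  obtain ⟨m, rfl⟩ : ∃ m, j = i + (m + 2) := ⟨j - i - 2, by omega⟩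
  rw [← liftN_liftN, ← liftN_mul, ← liftN_mul]
  exact congrArg _ (R_lift a b (liftN m A))

lemma gooda_cdown {i j : ℕ} {l : List P} (h : i + l.length + 1 ≤ j) (k : P) (A : Op) :
    liftN j A * liftN i (down k l) = liftN i (down k l) * liftN j A := by
  obtain ⟨m, rfl⟩ : ∃ m, j = i + (l.length + 1 + m) := ⟨j - i - l.length - 1, by omega⟩
  rw [← liftN_liftN, ← liftN_liftN, ← liftN_mul, ← liftN_mul, down_liftN]

lemma gooda_W_lift {j : ℕ} {l : List P} (h : l.length ≤ j) (k : P) (A : Op) :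
    liftN (j + 2) A * gooda_W k l = gooda_W k l * liftN j A := by
  obtain ⟨m, rfl⟩ : ∃ m, j = l.length + m := ⟨j - l.length, by omega⟩
  have h1 := up_liftN k l (liftN m A)
  rw [liftN_liftN, Nat.add_right_comm] at h1
  unfold gooda_W
  rw [mul_assoc, ins_lift, ← mul_assoc, ← mul_assoc, ← lift_mul]
  show lift (liftN (l.length + m + 1) A) * lift (up k l) * ins k = _
  rw [← lift_mul, ← h1]
  rfl

lemma gooda_W_ex (k a b : P) (p q : List P) :
    liftN (p.length + 1) (R a b) * gooda_W k (p ++ a :: b :: q) =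
      gooda_W k (p ++ b :: a :: q) * liftN p.length (R a b) := by
  unfold gooda_W
  rw [mul_assoc, ins_lift, ← mul_assoc, ← mul_assoc, ← lift_mul]
  show lift (liftN p.length (R a b)) * lift (up k (p ++ a :: b :: q)) * ins k = _
  rw [← lift_mul, up_ex]
  rfl

lemma gooda_W_snoc (k b : P) (l : List P) :
    gooda_W k (l ++ [b]) = liftN (l.length + 1) (R k b) * gooda_W k l := by
  unfold gooda_W
  rw [up_append, lift_mul, mul_assoc]
  simp only [up, lift_one, one_mul]
  rfl

lemma gooda_down_snoc (k a : P) (i : ℕ) (l : List P) : liftN i (down k (l ++ [a])) =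
    liftN i (down k l) * liftN (i + l.length) (R a k) := by
  rw [down_append, alga_down_one, liftN_mul, liftN_liftN]

lemma gooda_W_pair (k c : P) (l : List P) : gooda_W k (sh c :: c :: l) * ins c =
    (dd k c * dd k (sh c)) • (lift (ins c) * gooda_W k l) := by
  have h1 : up k (sh c :: c :: l) * lift (ins c) = (dd k c * dd k (sh c)) • (ins c * up k l) :=
    up_ins k c [] l
  unfold gooda_W
  rw [mul_assoc, ins_lift, ← mul_assoc, ← lift_mul, h1, lift_smul, lift_mul, smul_mul_assoc,
    mul_assoc]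

lemma gooda_ins_lift (c : P) (j : ℕ) (A : Op) :
    liftN (j + 3) A * lift (ins c) = lift (ins c) * liftN (j + 1) A := by
  show lift (lift (lift (liftN j A))) * lift (ins c) = lift (ins c) * lift (liftN j A)
  rw [← lift_mul, ← lift_mul, ins_lift]

theorem Good.X1 (h : Good n Ψ) (s : Bool) (p : List P) (a b : P) (q : List P) (k : P)
    (l₂ : List P) (hl : (p ++ a :: b :: q ++ l₂).length ≤ n) :
    liftN (p.length + 1) (R a b) (VV s Ψ (p ++ a :: b :: q) k l₂) =
      dd a b • VV s Ψ (p ++ b :: a :: q) k l₂ := by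
  have e : ∀ a b : P, p ++ a :: b :: q ++ l₂ = p ++ a :: b :: (q ++ l₂) := fun a b => by simp
  rw [e] at hl
  have h2 := h.ex p a b (q ++ l₂) hl
  cases s
  · rw [gooda_Vm, gooda_Vm, e, e]
    refine gooda_key1 ?_ h2 (by simp; ring)
    rw [← mul_assoc, gooda_cR (by simp), mul_assoc, ← mul_assoc (liftN _ (R a b)),
      gooda_cR (by simp), mul_assoc, gooda_W_ex]
    simp only [List.length_append, List.length_cons, mul_assoc]
  · rw [gooda_Vp, gooda_Vp, e, e]
    exact gooda_key1 (gooda_W_ex k a b p q) h2 (by simp; ring)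

theorem Good.X2 (h : Good n Ψ) (s : Bool) (l₁ : List P) (k : P) (p : List P) (a b : P)
    (q : List P) (hl : (l₁ ++ (p ++ a :: b :: q)).length ≤ n) :
    liftN (l₁.length + 1 + p.length + 1) (R a b) (VV s Ψ l₁ k (p ++ a :: b :: q)) =
      dd a b • VV s Ψ l₁ k (p ++ b :: a :: q) := by
  rw [← List.append_assoc] at hl
  have h2 := h.ex (l₁ ++ p) a b q hl
  cases s
  · rw [gooda_Vm, gooda_Vm, ← List.append_assoc, ← List.append_assoc]
    refine gooda_key1 ?_ h2 (by ring)
    have h1 := congrArg (liftN (l₁.length + 1)) (down_ex k a b p q)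
    rw [liftN_mul, liftN_mul, liftN_liftN, liftN_liftN, ← add_assoc] at h1
    have h3 := gooda_W_ex (bar k) a b (l₁ ++ p) q
    rw [List.length_append, Nat.add_right_comm] at h3
    rw [← mul_assoc, h1, mul_assoc, ← mul_assoc (liftN _ (R a b)), gooda_cR (by simp; omega),
      mul_assoc, h3]
    simp only [List.length_append, List.length_cons, mul_assoc]
  · rw [gooda_Vp, gooda_Vp, ← List.append_assoc, ← List.append_assoc]
    refine gooda_key1 ?_ h2 (by simp; ring)
    rw [← gooda_W_lift (by simp)]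
    congr 2
    simp; omega

theorem VV_X3 (Ψ : List P → Vec) (s : Bool) (l₁ : List P) (k b : P) (l₂ : List P) :
    liftN (l₁.length + 1) (R k b) (VV s Ψ l₁ k (b :: l₂)) =
      dd k b • VV s Ψ (l₁ ++ [b]) k l₂ := by
  have e : l₁ ++ [b] ++ l₂ = l₁ ++ b :: l₂ := by simp
  cases s
  · rw [gooda_Vm, gooda_Vm, e]
    refine gooda_key0 (t := dd b k * dd k b) ?_ (by simp; ring)
    rw [← mul_assoc, ← liftN_mul, down, ← mul_assoc (R k b), unitar, smul_mul_assoc, one_mul,
      liftN_smul, liftN_lift, smul_mul_assoc, gooda_len l₁ b]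
  · rw [gooda_Vp, gooda_Vp, e]
    exact gooda_key0 (t := 1) (by rw [one_smul, gooda_W_snoc]) (by simp; ring)

theorem VV_X4 (Ψ : List P → Vec) (s : Bool) (l₁ : List P) (a k : P) (l₂ : List P) :
    liftN (l₁.length + 1) (R a k) (VV s Ψ (l₁ ++ [a]) k l₂) =
      dd a k • VV s Ψ l₁ k (a :: l₂) := by
  have e : l₁ ++ [a] ++ l₂ = l₁ ++ a :: l₂ := by simp
  cases s
  · rw [gooda_Vm, gooda_Vm, e]
    refine gooda_key0 (t := 1) ?_ (by simp; ring)
    rw [one_smul, ← mul_assoc, down, liftN_mul, liftN_lift, gooda_len l₁ a]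
  · rw [gooda_Vp, gooda_Vp, e]
    refine gooda_key0 (t := dd k a * dd a k) ?_ (by simp; ring)
    rw [gooda_W_snoc, ← mul_assoc, ← liftN_mul, unitar, liftN_smul, liftN_one, smul_mul_assoc,
      one_mul]

theorem Good.KT1 (h : Good n Ψ) (s : Bool) (l₁ : List P) (k : P) (q : List P) (a : P)
    (hl : (l₁ ++ (q ++ [a])).length ≤ n) :
    liftN (l₁.length + 1 + q.length + 1) (K a) (VV s Ψ l₁ k (q ++ [a])) =
      kd a • VV s Ψ l₁ k (q ++ [bar a]) := by
  rw [← List.append_assoc] at hl
  have h2 := h.kt (l₁ ++ q) a hl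
  have e : l₁.length + 1 + q.length + 1 = (l₁ ++ q).length + 2 := by simp; omega
  have e' : l₁.length + 1 + q.length = (l₁ ++ q).length + 1 := by simp; omega
  rw [e]
  cases s
  · rw [gooda_Vm, gooda_Vm, ← List.append_assoc, ← List.append_assoc]
    refine gooda_key1 ?_ h2 (by ring)
    have h1 := congrArg (liftN ((l₁ ++ q).length + 1)) (refl_eq (bar k) a)
    simp only [liftN_mul, liftN_lift, bar_bar] at h1
    have h3 := gooda_W_lift (l := l₁ ++ q) le_rfl (bar k) (K a)
    rw [gooda_down_snoc, gooda_down_snoc, gooda_W_snoc, gooda_W_snoc, e',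
      gooda_len, gooda_len]
    calc _ = liftN ((l₁ ++ q).length + 2) (K a) * liftN (l₁.length + 1) (down k q) *
          (liftN ((l₁ ++ q).length + 1) (R a k) * liftN ((l₁ ++ q).length + 1 + 1) (K (bar k)) *
            liftN ((l₁ ++ q).length + 1) (R (bar k) a) * gooda_W (bar k) (l₁ ++ q)) := by
          simp only [mul_assoc]
      _ = liftN (l₁.length + 1) (down k q) * (liftN ((l₁ ++ q).length + 1 + 1) (K a) *
          liftN ((l₁ ++ q).length + 1) (R a k) * liftN ((l₁ ++ q).length + 1 + 1) (K (bar k)) *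
            liftN ((l₁ ++ q).length + 1) (R (bar k) a) * gooda_W (bar k) (l₁ ++ q)) := by
          rw [gooda_cdown (by omega)]
          simp only [mul_assoc]
      _ = _ := by
          rw [← h1]
          simp only [mul_assoc]
          rw [← h3]
  · rw [gooda_Vp, gooda_Vp, ← List.append_assoc, ← List.append_assoc]
    refine gooda_key1 (gooda_W_lift (by simp) k _) h2 ?_
    have x : dd k (bar a) = dd a (bar k) := dd_bar_bar (bar k) a
    simp [x, dd_bar_bar]
    ring

theorem VV_KT2 (Ψ : List P → Vec) (s : Bool) (l₁ : List P) (k : P) :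
    liftN (l₁.length + 1) (K k) (VV s Ψ l₁ k []) = kd k • VV (!s) Ψ l₁ (bar k) [] := by
  cases s
  · rw [Bool.not_false, gooda_Vm, gooda_Vp, List.append_nil]
    refine gooda_key0 (t := kd (bar k) * kd k) ?_ (by simp; ring)
    have h1 : K k * K (bar k) = _ := K_K (bar k)
    rw [down, liftN_one, one_mul, ← mul_assoc, ← liftN_mul, h1, liftN_smul, liftN_one,
      smul_mul_assoc, one_mul, bar_bar]
  · rw [Bool.not_true, gooda_Vm, gooda_Vp, List.append_nil]
    refine gooda_key0 (t := 1) ?_ (by simp; ring)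
    rw [down, liftN_one, one_mul, one_smul, bar_bar]

lemma gooda_up_hom (k : P) (p : List P) (a : P) (q : List P) (c : ℂ) :
    up k (p ++ c • a :: q) = c ^ 2 • up k (p ++ a :: q) := by
  simp only [up_append, up, R_smul_right, mul_smul_comm, liftN_smul, smul_mul_assoc]

lemma gooda_down_hom (k : P) (p : List P) (a : P) (q : List P) (c : ℂ) :
    down k (p ++ c • a :: q) = c ^ 2 • down k (p ++ a :: q) := by
  simp only [down_append, down, R_smul_left, mul_smul_comm, liftN_smul, smul_mul_assoc]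

lemma gooda_W_hom (k : P) (p : List P) (a : P) (q : List P) (c : ℂ) :
    gooda_W k (p ++ c • a :: q) = c ^ 2 • gooda_W k (p ++ a :: q) := by
  simp only [gooda_W, gooda_up_hom, lift_smul, smul_mul_assoc]

lemma gooda_up_homk (k : P) (l : List P) (c : ℂ) :
    up (c • k) l = c ^ (2 * l.length) • up k l := by
  induction l with
  | nil => simp [up]
  | cons m l ih =>
    rw [up, up, ih, R_smul_left, lift_smul, smul_mul_smul_comm, ← pow_add]
    rfl

lemma gooda_down_homk (k : P) (l : List P) (c : ℂ) :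
    down (c • k) l = c ^ (2 * l.length) • down k l := by
  induction l with
  | nil => simp [down]
  | cons m l ih =>
    rw [down, down, ih, R_smul_right, lift_smul, smul_mul_smul_comm, ← pow_add, add_comm]
    rfl

lemma gooda_W_homk (k : P) (l : List P) (c : ℂ) :
    gooda_W (c • k) l = c ^ (2 * l.length + 1) • gooda_W k l := by
  rw [gooda_W, gooda_W, gooda_up_homk, ins_smul, lift_smul, smul_mul_smul_comm, pow_succ]

lemma gooda_prod_left (k : P) (l : List P) (c : ℂ) :
    (l.map fun m => dd (c • k) m).prod = c ^ (2 * l.length) * (l.map fun m => dd k m).prod := by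
  simp only [dd_smul_left, List.prod_map_mul, List.map_const', List.prod_replicate, pow_mul]

lemma gooda_prod_right (k : P) (l : List P) (c : ℂ) :
    (l.map fun m => dd m (c • k)).prod = c ^ (2 * l.length) * (l.map fun m => dd m k).prod := by
  simp only [dd_smul_right, List.prod_map_mul, List.map_const', List.prod_replicate, pow_mul]

lemma gooda_kd_smul (c : ℂ) (k : P) : kd (c • k) = c ^ 2 * kd k := by
  simp only [kd, Prod.smul_fst, Prod.smul_snd, smul_eq_mul]; ring

lemma gooda_lin_smul (c : ℂ) (k : P) : lin (c • k) = c * lin k := by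
  simp only [lin, Prod.smul_fst, Prod.smul_snd, smul_eq_mul]; ring

lemma gooda_bar_smul (c : ℂ) (k : P) : bar (c • k) = c • bar k := rfl

theorem Good.VV_hom1 (h : Good n Ψ) (s : Bool) (p : List P) (a : P) (q : List P) (k : P)
    (l₂ : List P) (c : ℂ) (hl : (p ++ a :: q ++ l₂).length ≤ n) :
    VV s Ψ (p ++ c • a :: q) k l₂ =
      c ^ (2 * (p.length + q.length + l₂.length + 2)) • VV s Ψ (p ++ a :: q) k l₂ := by
  have e : ∀ a : P, p ++ a :: q ++ l₂ = p ++ a :: (q ++ l₂) := fun a => by simp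
  rw [e] at hl
  have h2 := h.hom p a (q ++ l₂) c hl
  cases s
  · rw [gooda_Vm, gooda_Vm, e, e, h2, gooda_W_hom]
    simp only [List.length_append, List.length_cons, mul_smul_comm, LinearMap.smul_apply, map_smul,
      smul_smul, List.map_append, List.map_cons, List.prod_append, List.prod_cons, dd_smul_left]
    congr 1
    ring
  · rw [gooda_Vp, gooda_Vp, e, e, h2, gooda_W_hom]
    simp only [List.length_append, LinearMap.smul_apply, map_smul,
      smul_smul, List.map_append, List.map_cons, List.prod_append, List.prod_cons, dd_smul_left]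
    congr 1
    ring

theorem Good.VV_hom2 (h : Good n Ψ) (s : Bool) (l₁ : List P) (k : P) (p : List P) (a : P)
    (q : List P) (c : ℂ) (hl : (l₁ ++ (p ++ a :: q)).length ≤ n) :
    VV s Ψ l₁ k (p ++ c • a :: q) =
      c ^ (2 * (l₁.length + p.length + q.length + 2)) • VV s Ψ l₁ k (p ++ a :: q) := by
  rw [← List.append_assoc] at hl
  have h2 := h.hom (l₁ ++ p) a q c hl
  cases s
  · rw [gooda_Vm, gooda_Vm, ← List.append_assoc, ← List.append_assoc, h2, gooda_W_hom,
      gooda_down_hom]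
    simp only [List.length_append, List.length_cons, mul_smul_comm, LinearMap.smul_apply, map_smul,
      smul_smul, liftN_smul, smul_mul_assoc]
    congr 1
    ring
  · rw [gooda_Vp, gooda_Vp, ← List.append_assoc, ← List.append_assoc, h2]
    simp only [List.length_append, map_smul, dd_smul_right,
      smul_smul, List.map_append, List.map_cons, List.prod_append, List.prod_cons, dd_smul_left]
    congr 1
    ring

theorem VV_homk (Ψ : List P → Vec) (s : Bool) (l₁ : List P) (k : P) (l₂ : List P) (c : ℂ) :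
    VV s Ψ l₁ (c • k) l₂ = c ^ (4 * (l₁.length + l₂.length + 1)) • VV s Ψ l₁ k l₂ := by
  cases s
  · rw [gooda_Vm, gooda_Vm, gooda_bar_smul, gooda_W_homk, gooda_down_homk, K_smul,
      gooda_lin_smul, gooda_prod_right]
    simp only [List.length_append, mul_smul_comm, LinearMap.smul_apply,
      smul_smul, liftN_smul, smul_mul_assoc]
    congr 1
    ring
  · rw [gooda_Vp, gooda_Vp, gooda_bar_smul, gooda_W_homk, gooda_lin_smul, gooda_kd_smul,
      gooda_prod_right, gooda_prod_left]
    simp only [List.length_append, LinearMap.smul_apply, smul_smul]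
    congr 1
    ring

lemma gooda_W_supp {N : ℕ} {v : Vec} (hv : Supp N v) (k : P) {l : List P} (h : l.length ≤ N) :
    Supp (N + 2) (gooda_W k l v) :=
  (hv.ins (i := 0) (Nat.zero_le _) k).up (i := 1) k l (by omega)

lemma gooda_W_ch {N : ℕ} {v : Vec} (hv : HasCh N 0 v) (k : P) {l : List P} (h : l.length ≤ N) :
    HasCh (N + 2) 0 (gooda_W k l v) :=
  (hv.ins (i := 0) (Nat.zero_le _) k).up (i := 1) k l (by omega)

theorem Good.VV_supp (h : Good n Ψ) (s : Bool) (l₁ : List P) (k : P) (l₂ : List P)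
    (hl : (l₁ ++ l₂).length ≤ n) : Supp (l₁.length + l₂.length + 2) (VV s Ψ l₁ k l₂) ∧
      HasCh (l₁.length + l₂.length + 2) 0 (VV s Ψ l₁ k l₂) := by
  have h1 := h.supp _ hl
  have h2 := h.ch _ hl
  rw [← List.length_append]
  cases s
  · rw [gooda_Vm, Module.End.mul_apply, Module.End.mul_apply]
    have h3 : l₁.length + 1 + l₂.length + 1 ≤ (l₁ ++ l₂).length + 2 := by simp; omega
    exact ⟨(((gooda_W_supp h1 _ le_rfl).K _ _).down _ _ h3).smul _,
      (((gooda_W_ch h2 _ le_rfl).K _ _).down _ _ h3).smul _⟩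
  · rw [gooda_Vp]
    exact ⟨(gooda_W_supp h1 _ (by simp)).smul _, (gooda_W_ch h2 _ (by simp)).smul _⟩

/-- a line `aux` on the top -/
theorem Good.VV_aux (h : Good n Ψ) (s : Bool) (l₁ : List P) (k : P) (l₂ : List P)
    (hl : (l₁ ++ l₂).length < n) : VV s Ψ l₁ k (l₂ ++ [aux]) =
      (dd (nd s k) aux * fc (l₁ ++ k :: l₂)) • VV s Ψ l₁ k l₂ := by
  have h2 := h.r0t _ hl
  have e : fc (l₁ ++ k :: l₂) = dd k aux * fc (l₁ ++ l₂) := by
    rw [alga_fc_perm List.perm_middle, alga_fc_cons]
  cases s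
  · have e' : l₁.length + 1 + l₂.length = (l₁ ++ l₂).length + 1 := by simp; omega
    have x : dd (sh (bar k)) aux = dd aux k := (dd_aux_bar (bar k)).symm
    have h0 := (gooda_W_supp (h.supp _ hl.le) (bar k) le_rfl).liftN_E0 le_rfl
    have h1 : R aux k * (lift (K (bar k)) * R (bar k) aux * lift E0) =
        (dd k aux * dd aux k) • (K (bar k) * lift E0) := by
      rw [topK, bar_bar, mul_assoc, ← mul_assoc, unitar, smul_mul_assoc, one_mul]
    have h3 := LinearMap.congr_fun (congrArg (liftN ((l₁ ++ l₂).length + 1)) h1)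
      (gooda_W (bar k) (l₁ ++ l₂) (Ψ (l₁ ++ l₂)))
    simp only [liftN_mul, liftN_lift, liftN_smul, Module.End.mul_apply, LinearMap.smul_apply,
      h0] at h3
    rw [gooda_Vm, gooda_Vm, ← List.append_assoc, h2, gooda_down_snoc, gooda_W_snoc, e',
      gooda_len, nd, x, e]
    simp only [Module.End.mul_apply, map_smul, h3, smul_smul]
    congr 1
    ring
  · rw [gooda_Vp, gooda_Vp, ← List.append_assoc, h2, nd, ← dd_aux_bar, e, map_smul, smul_smul,
      smul_smul]
    congr 1
    simp
    ring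

/-- a pair at the bottom -/
theorem Good.VV_pair (h : Good n Ψ) (s : Bool) (c : P) (l₁ : List P) (k : P) (l₂ : List P)
    (hl : (l₁ ++ l₂).length + 2 ≤ n) : VV s Ψ (sh c :: c :: l₁) k l₂ =
      (kd c * lin c * (phi (nd s k) c * ((l₁ ++ k :: l₂).map fun m => phi m c).prod)) •
        lift (ins c) (VV s Ψ l₁ k l₂) := by
  have h2 : Ψ (sh c :: c :: (l₁ ++ l₂)) =
      (kd c * lin c * ((l₁ ++ l₂).map fun m => phi m c).prod) • ins c (Ψ (l₁ ++ l₂)) :=
    h.r2 [] c (l₁ ++ l₂) hl
  have e : ((l₁ ++ k :: l₂).map fun m => phi m c).prod =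
      phi k c * ((l₁ ++ l₂).map fun m => phi m c).prod := by
    rw [(List.perm_middle.map _).prod_eq, List.map_cons, List.prod_cons]
  cases s
  · have x := phi_sh_mul (bar k) c
    rw [phi_bar_left, bar_bar] at x
    have h1 : liftN (l₁.length + 3) (down k l₂) * (liftN ((l₁ ++ l₂).length + 3) (K (bar k)) *
        gooda_W (bar k) (sh c :: c :: (l₁ ++ l₂))) * ins c =
        (dd (bar k) c * dd (bar k) (sh c)) • (lift (ins c) * (liftN (l₁.length + 1) (down k l₂) *
          (liftN ((l₁ ++ l₂).length + 1) (K (bar k)) * gooda_W (bar k) (l₁ ++ l₂)))) := by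
      rw [mul_assoc, mul_assoc, gooda_W_pair, mul_smul_comm, mul_smul_comm, ← mul_assoc _ (lift _),
        gooda_ins_lift, mul_assoc, ← mul_assoc _ (lift _), gooda_ins_lift, mul_assoc]
    have h3 := LinearMap.congr_fun h1 (Ψ (l₁ ++ l₂))
    rw [Module.End.mul_apply, LinearMap.smul_apply, Module.End.mul_apply] at h3
    rw [gooda_Vm, gooda_Vm, List.cons_append, List.cons_append, h2, map_smul, map_smul, nd, e,
      ← mul_assoc (phi _ _), x]
    refine (congrArg (fun v => _ • _ • v) h3).trans ?_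
    simp only [smul_smul, List.map_cons, List.prod_cons]
    congr 1
    ring
  · have h3 := LinearMap.congr_fun (gooda_W_pair k c l₁) (Ψ (l₁ ++ l₂))
    rw [Module.End.mul_apply, LinearMap.smul_apply, Module.End.mul_apply] at h3
    rw [gooda_Vp, gooda_Vp, List.cons_append, List.cons_append, h2, map_smul, map_smul, nd, e,
      ← mul_assoc (phi _ _), phi_sh_mul, h3]
    simp only [smul_smul, List.map_cons, List.prod_cons]
    congr 1
    ring

end Pool.Agent.Lib.MP_4960b8_pr.QK
end

-- part Pool.Agent.Lib.MP_4960b8_pr.QK.GoodC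
section

/-! Properties in the tail labels. -/

namespace Pool.Agent.Lib.MP_4960b8_pr.QK

variable {n : ℕ} {Ψ : List P → Vec}

lemma goodc_nc {f : P → Vec} (hp : PolyV fun x => f (x 0)) {l : List P} (hn : l.length = n)
    (hh : ∀ (c : ℂ) a, f (c • a) = c ^ (2 * n) • f a) (hl : Gen l) (h0 : f (bar aux) = 0)
    (h1 : ∀ s l₁ k l₂, l = l₁ ++ k :: l₂ → f (nd s k) = 0) (a : P) : f a = 0 := by
  refine nodecount2 hp _ hh hl [bar aux] (by simp)
    (fun e he => (special_ok e (by simp at he ⊢; tauto)).1)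
    (fun e he => (special_ok e (by simp at he ⊢; tauto)).2) (by simp [hn]) (by simpa using h0)
    (fun m hm => ?_) a
  obtain ⟨l₁, l₂, e⟩ := List.append_of_mem hm
  exact ⟨h1 true l₁ m l₂ e, h1 false l₁ m l₂ e⟩

lemma goodc_split {p q l₁ l₂ : List P} {a k : P} (h : p ++ a :: q = l₁ ++ k :: l₂) :
    (∃ r, p = l₁ ++ k :: r ∧ l₂ = r ++ a :: q) ∨ (l₁ = p ∧ k = a ∧ l₂ = q) ∨
      ∃ r, l₁ = p ++ a :: r ∧ q = r ++ k :: l₂ := by
  rcases List.append_eq_append_iff.1 h with ⟨r, h1, h2⟩ | ⟨r, h1, h2⟩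
  · rcases r with _ | ⟨b, r⟩
    · simp only [List.nil_append, List.cons.injEq, List.append_nil] at h1 h2
      exact Or.inr (Or.inl ⟨h1, h2.1.symm, h2.2.symm⟩)
    · simp only [List.cons_append, List.cons.injEq] at h2
      exact Or.inr (Or.inr ⟨r, by rw [h1, h2.1], h2.2⟩)
  · rcases r with _ | ⟨b, r⟩
    · simp only [List.nil_append, List.cons.injEq, List.append_nil] at h1 h2
      exact Or.inr (Or.inl ⟨h1.symm, h2.1, h2.2⟩)
    · simp only [List.cons_append, List.cons.injEq] at h2
      exact Or.inl ⟨r, by rw [h1, h2.1], h2.2⟩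

lemma goodc_emp (i : ℕ) (A : Op) (v : Vec) : liftN (i + 1) A (emp v) = emp (liftN i A v) :=
  (LinearMap.congr_fun (ins1_lift _ (liftN i A)) v).symm

lemma goodc_nd_smul (s : Bool) (c : ℂ) (k : P) : nd s (c • k) = c • nd s k := by
  cases s <;> refine Prod.ext ?_ ?_ <;> simp [nd, sh, bar] <;> ring

lemma goodc_fc_mid (p : List P) (a : P) (q : List P) :
    fc (p ++ a :: q) = dd a aux * fc (p ++ q) := by
  rw [alga_fc_perm List.perm_middle, alga_fc_cons]

theorem Pre.supp (h : Pre n Ψ) (l : List P) (hl : l.length ≤ n + 1) :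
    Supp l.length (Ψ l) ∧ HasCh l.length 0 (Ψ l) := by
  rcases Nat.lt_or_ge n l.length with h1 | h1
  swap
  · exact ⟨h.good.supp l h1, h.good.ch l h1⟩
  obtain ⟨a, l, rfl⟩ := List.exists_cons_of_length_pos (l := l) (by omega)
  have hn : l.length = n := by simp at hl h1; omega
  have key : ∀ σ, (∀ v, Supp (n + 1) v → HasCh (n + 1) 0 v → v σ = 0) → Ψ (a :: l) σ = 0 := by
    intro σ hσ
    refine congrFun (densG (F := fun a _ _ m _ _ => fun _ => Ψ (a :: m) σ)
      (fun a _ _ M _ _ ha _ _ hM _ _ _ => (alga_PL_cons ha hM).psi h.good.pol σ) a a a l [] []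
      fun a b c m m₂ m₃ e _ _ hg => ?_) σ
    have hm : m.length = n := e.trans hn
    refine goodc_nc (f := fun a => fun _ => Ψ (a :: m) σ)
      (fun _ => (alga_PL_cons (PolyP.var 0) (alga_PL_const m)).psi h.good.pol σ) hm
      (fun c a => funext fun _ => congrFun (h.hom0 m a c hm) σ) 
      (hg.sublist ((((List.sublist_append_left _ _).cons _).cons _).cons _)) ?_ ?_ a
    · funext _
      rw [h.r0b m hm]
      exact hσ _ ((hm ▸ h.good.supp m hm.le).emp.smul _) ((hm ▸ h.good.ch m hm.le).emp.smul _)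
    · rintro s l₁ k l₂ rfl
      funext _
      rw [h.nv s l₁ k l₂ hm]
      have e : l₁.length + l₂.length + 2 = n + 1 := by simp at hm; omega
      obtain ⟨v1, v2⟩ := h.good.VV_supp s l₁ k l₂ (by simp; omega)
      exact hσ _ (e ▸ v1) (e ▸ v2)
  rw [List.length_cons, hn]
  exact ⟨fun σ i hi hs => key σ fun v hv _ => hv σ i hi hs,
    fun σ hs => key σ fun v _ hv => hv σ hs⟩

theorem Pre.hom (h : Pre n Ψ) (l₁ : List P) (a : P) (l₂ : List P) (c : ℂ)
    (hl : (l₁ ++ a :: l₂).length ≤ n + 1) :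
    Ψ (l₁ ++ c • a :: l₂) = c ^ (2 * (l₁.length + l₂.length)) • Ψ (l₁ ++ a :: l₂) := by
  rcases Nat.lt_or_ge n (l₁ ++ a :: l₂).length with h1 | h1
  swap
  · exact h.good.hom l₁ a l₂ c h1
  rcases l₁ with _ | ⟨d, p⟩
  · have hn : l₂.length = n := by simp at hl h1; omega
    simpa [hn] using h.hom0 l₂ a c hn
  have hn : p.length + l₂.length + 1 = n := by simp at hl h1; omega
  have e : 2 * ((d :: p).length + l₂.length) = 2 * n := by simp; omega
  rw [e]
  refine sub_eq_zero.1 (densG (F := fun d a e p q _ =>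
      Ψ (d :: (p ++ e.1 • a :: q)) - e.1 ^ (2 * n) • Ψ (d :: (p ++ a :: q)))
    (fun d a e M M' _ hd ha he hM hM' _ =>
      ((alga_PL_cons hd (alga_PL_append hM (alga_PL_cons (PolyP.smul he.1 ha) hM'))).psi
        h.good.pol).sub (PolyV.smul (he.1.pow _)
        ((alga_PL_cons hd (alga_PL_append hM (alga_PL_cons ha hM'))).psi h.good.pol)))
    d a (c, 0) p l₂ [] fun d a e p q m₃ e1 e2 _ hg => ?_)
  replace hn : p.length + q.length + 1 = n := by omega
  have hc : e.1 ≠ 0 := (hg.1 e (by simp)).1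
  generalize e.1 = c at hc
  have len : ∀ a, (p ++ a :: q).length = n := fun a => by simp; omega
  refine goodc_nc (f := fun d => Ψ (d :: (p ++ c • a :: q)) - c ^ (2 * n) • Ψ (d :: (p ++ a :: q)))
    (((alga_PL_cons (PolyP.var 0) (alga_PL_const _)).psi h.good.pol).sub (PolyV.smul
      (PolyF.const _) ((alga_PL_cons (PolyP.var 0) (alga_PL_const _)).psi h.good.pol))) (len a)
    (fun t d => by rw [h.hom0 _ d t (len _), h.hom0 _ d t (len _), smul_sub, smul_comm])
    ((hg.sublist (((((List.sublist_append_left q _).append_left p).cons _).cons_cons a).cons _)).perm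
      List.perm_middle.symm)
    (sub_eq_zero.2 ?_) (fun s l₁ k l₂ hs => sub_eq_zero.2 ?_) d
  · rw [h.r0b _ (len _), h.r0b _ (len _), h.good.hom p a q c (len a).le, goodc_fc_mid,
      goodc_fc_mid, dd_smul_left, map_smul, smul_smul, smul_smul, ← hn]
    congr 1
    ring
  · rcases goodc_split hs with ⟨r, rfl, rfl⟩ | ⟨rfl, rfl, rfl⟩ | ⟨r, rfl, rfl⟩
    · simp only [List.append_assoc, List.cons_append] at len ⊢
      rw [h.nv s l₁ k _ (len _), h.nv s l₁ k _ (len _),
        h.good.VV_hom2 s l₁ k r a q c (by simp at hn ⊢; omega)]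
      congr 2
      simp at hn
      omega
    · refine smul_right_injective _ (pow_ne_zero (2 * n) hc) ?_
      simp only
      rw [← h.hom0 _ _ c (len _), ← goodc_nd_smul, h.nv s _ _ _ (len _), h.nv s _ _ _ (len _),
        VV_homk, smul_smul, ← pow_add, ← hn]
      congr 2
      ring
    · have e : ∀ a, p ++ a :: (r ++ k :: l₂) = (p ++ a :: r) ++ k :: l₂ := fun a => by simp
      simp only [e] at len ⊢
      rw [h.nv s _ k _ (len _), h.nv s _ k _ (len _),
        h.good.VV_hom1 s p a r k l₂ c (by simp at hn ⊢; omega)]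
      congr 2
      simp at hn
      omega

theorem Pre.ext (h : Pre n Ψ) (c : P) (p : List P) (a b : P) (q : List P)
    (hl : (p ++ a :: b :: q).length ≤ n) :
    liftN (p.length + 1) (R a b) (Ψ (c :: (p ++ a :: b :: q))) =
      dd a b • Ψ (c :: (p ++ b :: a :: q)) := by
  rcases hl.lt_or_eq with h1 | h1
  · exact h.good.ex (c :: p) a b q h1
  refine sub_eq_zero.1 (densG (F := fun c a b p q _ =>
      liftN (p.length + 1) (R a b) (Ψ (c :: (p ++ a :: b :: q)))
        - dd a b • Ψ (c :: (p ++ b :: a :: q)))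
    (fun c a b M M' _ hc ha hb hM hM' _ =>
      (hM.liftN (PolyO.R ha hb) 1 _ ((alga_PL_cons hc (alga_PL_append hM (alga_PL_cons ha
        (alga_PL_cons hb hM')))).psi h.good.pol)).sub (PolyV.smul (PolyF.dd ha hb)
        ((alga_PL_cons hc (alga_PL_append hM (alga_PL_cons hb (alga_PL_cons ha hM')))).psi
          h.good.pol)))
    c a b p q [] fun c a b p q m₃ e1 e2 _ hg => ?_)
  have hn : p.length + q.length + 2 = n := by simp at h1; omega
  have len : ∀ a b, (p ++ a :: b :: q).length = n := fun a b => by simp; omega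
  refine goodc_nc (f := fun c => liftN (p.length + 1) (R a b) (Ψ (c :: (p ++ a :: b :: q)))
      - dd a b • Ψ (c :: (p ++ b :: a :: q)))
    (((PolyO.R (PolyP.const a) (PolyP.const b)).liftN _ _
      ((alga_PL_cons (PolyP.var 0) (alga_PL_const _)).psi h.good.pol)).sub (PolyV.smul
      (PolyF.const _) ((alga_PL_cons (PolyP.var 0) (alga_PL_const _)).psi h.good.pol))) (len a b)
    (fun t d => by
      rw [h.hom0 _ d t (len _ _), h.hom0 _ d t (len _ _), smul_sub, map_smul, smul_comm (dd a b)])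
    (((hg.sublist (l' := a :: b :: (p ++ q)) (by simp)).perm
      ((List.perm_middle.trans (List.perm_middle.cons a)).symm)))
    (sub_eq_zero.2 ?_) (fun s l₁ k l₂ hs => sub_eq_zero.2 ?_) c
  · rw [h.r0b _ (len _ _), h.r0b _ (len _ _), map_smul, goodc_emp, h.good.ex p a b q (len _ _).le,
      map_smul, smul_comm, alga_fc_perm ((List.Perm.swap b a q).append_left p)]
  · rcases goodc_split hs with ⟨r, rfl, rfl⟩ | ⟨rfl, rfl, rfl⟩ | ⟨r, rfl, hr⟩
    · have e : (l₁ ++ k :: r).length + 1 = l₁.length + 1 + r.length + 1 := by simp; omega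
      rw [e]
      simp only [List.append_assoc, List.cons_append] at len ⊢
      rw [h.nv s l₁ k _ (len _ _), h.nv s l₁ k _ (len _ _),
        h.good.X2 s l₁ k r a b q (by simp at hn ⊢; omega)]
    · have e : l₁ ++ b :: k :: q = (l₁ ++ [b]) ++ k :: q := by simp
      rw [h.nv s _ _ _ (len _ _), VV_X3, e, h.nv s _ _ _ (e ▸ len _ _)]
    · rcases r with _ | ⟨b', r⟩
      · simp only [List.nil_append, List.cons.injEq] at hr
        obtain ⟨rfl, rfl⟩ := hr
        have e : p ++ a :: b :: q = (p ++ [a]) ++ b :: q := by simp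
        rw [h.nv s _ _ _ (len _ _), e, h.nv s _ _ _ (e ▸ len _ _), VV_X4]
      · simp only [List.cons_append, List.cons.injEq] at hr
        obtain ⟨rfl, rfl⟩ := hr
        have e : ∀ a b, p ++ a :: b :: (r ++ k :: l₂) = (p ++ a :: b :: r) ++ k :: l₂ :=
          fun a b => by simp
        simp only [e] at len ⊢
        rw [h.nv s _ k _ (len _ _), h.nv s _ k _ (len _ _),
          h.good.X1 s p a b r k l₂ (by simp at hn ⊢; omega)]

theorem Pre.one (h : Pre n Ψ) (a : P) : Ψ [a] = emp vac := by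
  have h0 : Ψ [bar aux] = emp vac := by
    have : Ψ [bar aux] = fc [] • emp (Ψ []) := by
      rcases n with _ | n
      · exact h.r0b [] rfl
      · exact h.good.r0b [] (by simp)
    simpa [fc, h.good.nil] using this
  refine sub_eq_zero.1 (goodc_nc (n := 0) (f := fun a => Ψ [a] - emp vac) (l := [])
    (((alga_PL_single (PolyP.var 0)).psi h.good.pol).sub fun _ => PolyF.const _) rfl
    (fun c a => ?_) ⟨by simp, by simp⟩ (sub_eq_zero.2 h0) (fun s l₁ k l₂ e => by simp at e) a)
  have := h.hom [] a [] c (by simp)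
  simpa using this

theorem Pre.kt (h : Pre n Ψ) (l : List P) (a : P) (hl : (l ++ [a]).length ≤ n + 1) :
    liftN l.length (K a) (Ψ (l ++ [a])) = kd a • Ψ (l ++ [bar a]) := by
  rcases Nat.lt_or_ge n (l ++ [a]).length with h1 | h1
  swap
  · exact h.good.kt l a h1
  rcases l with _ | ⟨c, p⟩
  · simp only [List.nil_append, h.one]
    funext σ
    obtain ⟨x, t, rfl⟩ := basic_ex1 σ
    refine (basic_dg_apply _ _ _ _ x t).trans ?_
    cases x <;> simp [basic_ev, emp, ins1]
  refine sub_eq_zero.1 (densG (F := fun c a _ p _ _ =>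
      liftN (p.length + 1) (K a) (Ψ (c :: (p ++ [a]))) - kd a • Ψ (c :: (p ++ [bar a])))
    (fun c a _ M _ _ hc ha _ hM _ _ =>
      (hM.liftN (PolyO.K ha) 1 _ ((alga_PL_cons hc (alga_PL_append hM (alga_PL_single ha))).psi
        h.good.pol)).sub (PolyV.smul (PolyF.kd ha)
        ((alga_PL_cons hc (alga_PL_append hM (alga_PL_single ha.bar))).psi h.good.pol)))
    c a a p [] [] fun c a b p m₂ m₃ e1 _ _ hg => ?_)
  have hn : p.length + 1 = n := by simp at hl h1; omega
  have len : ∀ a, (p ++ [a]).length = n := fun a => by simp; omega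
  refine goodc_nc (f := fun c => liftN (p.length + 1) (K a) (Ψ (c :: (p ++ [a])))
      - kd a • Ψ (c :: (p ++ [bar a])))
    (((PolyO.K (PolyP.const a)).liftN _ _
      ((alga_PL_cons (PolyP.var 0) (alga_PL_const _)).psi h.good.pol)).sub (PolyV.smul
      (PolyF.const _) ((alga_PL_cons (PolyP.var 0) (alga_PL_const _)).psi h.good.pol))) (len a)
    (fun t d => by
      rw [h.hom0 _ d t (len _), h.hom0 _ d t (len _), smul_sub, map_smul, smul_comm (kd a)])
    ((hg.sublist ((((List.sublist_append_left p _).cons _).cons_cons a).cons _)).perm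
      (List.perm_append_singleton a p).symm)
    (sub_eq_zero.2 ?_) (fun s l₁ k l₂ hs => sub_eq_zero.2 ?_) c
  · rw [h.r0b _ (len _), h.r0b _ (len _), map_smul, goodc_emp, h.good.kt p a (len _).le,
      map_smul, smul_comm, goodc_fc_mid, goodc_fc_mid, dd_bar_aux]
  · rcases goodc_split hs with ⟨r, rfl, rfl⟩ | ⟨rfl, rfl, rfl⟩ | ⟨r, -, hr⟩
    · have e : (l₁ ++ k :: r).length + 1 = l₁.length + 1 + r.length + 1 := by simp; omega
      rw [e]
      simp only [List.append_assoc, List.cons_append] at len ⊢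
      rw [h.nv s l₁ k _ (len _), h.nv s l₁ k _ (len _),
        h.good.KT1 s l₁ k r a (by simp at hn ⊢; omega)]
    · have e : nd s k = nd (!s) (bar k) := by cases s <;> rfl
      rw [h.nv s _ _ _ (len _), VV_KT2, e, h.nv (!s) _ _ _ (len _)]
    · simp at hr

lemma goodc_np : [bar aux, aux, sh aux].Pairwise NP := by
  have h1 : ζ ^ 3 * ζ ^ 3 ≠ 1 := by
    simpa only [← pow_add, pow_zero] using
      zeta_pow_ne (i := 6) (j := 0) (by norm_num) (by norm_num) (by norm_num)
  have h2 : ζ ^ 3 * (ζ ^ 3 * ζ ^ 3) ≠ ζ ^ 13 := by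
    simpa only [← pow_add] using
      zeta_pow_ne (i := 9) (j := 13) (by norm_num) (by norm_num) (by norm_num)
  have h3 : ζ ^ 3 * ζ ^ 3 ≠ ζ ^ 3 * ζ ^ 13 := by
    rw [← pow_add ζ 3 13, h16]
    exact h1
  refine List.Pairwise.cons ?_ (List.Pairwise.cons ?_ (List.pairwise_singleton _ _))
  · intro e he
    simp only [List.mem_cons, List.not_mem_nil, or_false] at he
    rcases he with rfl | rfl
    · simpa only [NP, bar, aux, mul_one] using h1
    · simpa only [NP, bar, aux, sh, mul_one, one_mul] using h2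
  · intro e he
    simp only [List.mem_cons, List.not_mem_nil, or_false] at he
    subst he
    simpa only [NP, bar, aux, sh, mul_one, one_mul] using h3

lemma goodc_ok : ∀ e ∈ [bar aux, aux, sh aux],
    e ≠ 0 ∧ (e.1 * e.2 = 0 ∨ e.1 ^ 32 = e.2 ^ 32) := by
  simp [bar, aux, sh, poly_z32, mul_pow, zeta_ne]

lemma goodc_aux (h : Good n Ψ) {p : List P} (hl : p.length < n) (hg : Gen p) :
    Vm Ψ p aux [] = fc (aux :: p) • Ψ (aux :: p) := by
  have hne : fc p ≠ 0 := List.prod_ne_zero fun h0 => by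
    obtain ⟨m, hm, e⟩ := List.mem_map.1 h0
    exact (hg.1 m hm).aux.dd e
  have h1 : down aux p (Ψ (p ++ [aux])) = fc p • Ψ (aux :: (p ++ [])) :=
    alga_chain h aux [] p [] (by simpa using hl)
  rw [h.r0t p hl, map_smul, List.append_nil] at h1
  have h2 : down aux p (Ψ p) = Ψ (aux :: p) := smul_right_injective _ hne h1
  have hs := h.supp p hl.le
  have h3 : liftN (p.length + 1) (K (bar aux)) * liftN p.length (ins (bar aux))
      = kd (bar aux) • (liftN p.length emp * liftN p.length emp) := by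
    rw [← liftN_lift, ← liftN_mul, K_bar_aux, lift_smul, smul_mul_assoc, E0_ins, ← liftN_mul,
      ← liftN_smul]
    simp [bar, aux]
  simp only [Vm, down, liftN_one, one_mul, List.append_nil]
  rw [mul_assoc, rot_chain, sh_bar_aux, ← mul_assoc, ← down_liftN, mul_assoc, h3,
    Module.End.mul_apply, LinearMap.smul_apply, Module.End.mul_apply, hs.liftN_emp, hs.liftN_emp,
    map_smul, h2, smul_smul, alga_fc_cons, ← aux_node]
  congr 1
  unfold fc
  ring

theorem Pre.r0t (h : Pre n Ψ) (l : List P) (hl : l.length < n + 1) :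
    Ψ (l ++ [aux]) = fc l • Ψ l := by
  rcases Nat.lt_or_ge l.length n with h1 | h1
  · exact h.good.r0t l h1
  rcases l with _ | ⟨c, p⟩
  · have : emp vac = vac := supp_vac.liftN_emp
    simp [h.one, fc, h.good.nil, this]
  refine sub_eq_zero.1 (densG (F := fun c _ _ p _ _ =>
      Ψ (c :: (p ++ [aux])) - fc (c :: p) • Ψ (c :: p))
    (fun c _ _ M _ _ hc _ _ hM _ _ =>
      ((alga_PL_cons hc (alga_PL_append hM (alga_PL_const _))).psi h.good.pol).sub
        (PolyV.smul (alga_PL_cons hc hM).fc ((alga_PL_cons hc hM).psi h.good.pol)))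
    c c c p [] [] fun c a b p m₂ m₃ e1 _ _ hg => ?_)
  have hn : p.length + 1 = n := by simp at hl h1; omega
  have len : (p ++ [aux]).length = n := by simp; omega
  have hp := alga_PL_cons (PolyP.var 0) (alga_PL_const p)
  replace hg : Gen p := hg.sublist ((((List.sublist_append_left _ _).cons _).cons _).cons _)
  refine nodecount2 (f := fun c => Ψ (c :: (p ++ [aux])) - fc (c :: p) • Ψ (c :: p))
    (((alga_PL_cons (PolyP.var 0) (alga_PL_const _)).psi h.good.pol).sub
      (PolyV.smul hp.fc (hp.psi h.good.pol))) (2 * n) (fun t d => ?_) hg [bar aux, aux, sh aux]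
    goodc_np (fun e he => (goodc_ok e he).1) (fun e he => (goodc_ok e he).2) (by simp; omega)
    (fun e he => sub_eq_zero.2 ?_) (fun k hk => ?_) c
  · have h2 : Ψ (t • d :: p) = t ^ (2 * (0 + p.length)) • Ψ (d :: p) :=
      h.good.hom [] d p t hn.le
    rw [h.hom0 _ d t len, h2, alga_fc_cons, alga_fc_cons, dd_smul_left, smul_sub, smul_smul,
      smul_smul, ← hn]
    congr 2
    ring
  · simp only [List.mem_cons, List.not_mem_nil, or_false] at he
    rcases he with rfl | rfl | rfl
    · rw [h.r0b _ len, h.good.r0t p (by omega), h.good.r0b p (by omega), map_smul, goodc_fc_mid,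
        alga_fc_cons, dd_bar_aux, List.append_nil]
    · have := h.nv false p aux [] len
      rw [nd, sh_bar_aux] at this
      rw [this]
      exact goodc_aux h.good (by omega) hg
    · have h2 : kd aux = 0 := by simp [kd, aux]
      have := h.nv true p aux [] len
      rw [nd] at this
      rw [this, alga_fc_cons, dd_sh_self]
      simp [VV, Vp, h2]
  · obtain ⟨l₁, l₂, rfl⟩ := List.append_of_mem hk
    have key : ∀ s, Ψ (nd s k :: (l₁ ++ k :: l₂)) = VV s Ψ l₁ k l₂ →
        Ψ (nd s k :: (l₁ ++ k :: l₂ ++ [aux])) - fc (nd s k :: (l₁ ++ k :: l₂))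
          • Ψ (nd s k :: (l₁ ++ k :: l₂)) = 0 := fun s e => by
      simp only [List.append_assoc, List.cons_append] at len ⊢
      rw [h.nv s _ _ _ len, h.good.VV_aux s l₁ k l₂ (by simp at hn ⊢; omega), e, alga_fc_cons,
        sub_self]
    exact ⟨key true (h.good.np l₁ k l₂ (by omega)), key false (h.good.nm l₁ k l₂ (by omega))⟩

end Pool.Agent.Lib.MP_4960b8_pr.QK
end

-- part Pool.Agent.Lib.MP_4960b8_pr.QK.GoodD
section

/-! The recursion for a pair. -/

namespace Pool.Agent.Lib.MP_4960b8_pr.QK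

variable {n : ℕ} {Ψ : List P → Vec}

/-- the pair recursion with a non-empty list below the pair -/
def goodd_R2 (Ψ : List P → Vec) (a : P) (p : List P) (c : P) (q : List P) : Prop :=
  Ψ (a :: (p ++ sh c :: c :: q)) =
    (kd c * lin c * ((a :: (p ++ q)).map fun m => phi m c).prod) •
      liftN (p.length + 1) (ins c) (Ψ (a :: (p ++ q)))

lemma goodd_cancel {s : ℂ} (hs : s ≠ 0) {u v : Vec} (h : s • u = s • v) : u = v :=
  smul_right_injective Vec hs h

lemma goodd_prod_phi (c : P) (l : List P) : (l.map fun m => phi m c).prod =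
    (l.map fun m => dd c m).prod * (l.map fun m => dd m (bar c)).prod :=
  List.prod_map_mul

lemma goodd_ext2 (h : Pre n Ψ) (c : P) (p : List P) (d a b : P) (q : List P)
    (hl : p.length + q.length + 3 ≤ n) :
    liftN (p.length + 1) (lift (R a b)) (Ψ (c :: (p ++ d :: a :: b :: q))) =
      dd a b • Ψ (c :: (p ++ d :: b :: a :: q)) := by
  have := h.ext c (p ++ [d]) a b q (by simp; omega)
  rw [liftN_lift]
  simpa using this

lemma goodd_up (h : Pre n Ψ) {a : P} {p : List P} {c m : P} {q : List P}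
    (hl : p.length + q.length + 3 ≤ n) (hd : dd c m * dd (sh c) m ≠ 0)
    (H : goodd_R2 Ψ a p c (m :: q)) : goodd_R2 Ψ a (p ++ [m]) c q := by
  have e := congrArg (liftN (p.length + 1) (R (sh c) m * lift (R c m))) H
  rw [map_smul, ← Module.End.mul_apply (liftN _ _) (liftN _ (ins c)), ← liftN_mul, cross1,
    liftN_smul, liftN_lift, liftN_mul, Module.End.mul_apply, goodd_ext2 h a p _ _ _ q hl, map_smul,
    h.ext a p _ _ _ (by simp; omega), smul_smul, LinearMap.smul_apply, smul_comm] at e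
  have := goodd_cancel hd e
  simpa [goodd_R2] using this

lemma goodd_down (h : Pre n Ψ) {a : P} {p : List P} {c m : P} {q : List P}
    (hl : p.length + q.length + 3 ≤ n) (hd : dd m c * dd m (sh c) ≠ 0)
    (H : goodd_R2 Ψ a (p ++ [m]) c q) : goodd_R2 Ψ a p c (m :: q) := by
  have H' : Ψ (a :: (p ++ m :: sh c :: c :: q)) =
      (kd c * lin c * ((a :: (p ++ m :: q)).map fun m => phi m c).prod) •
        liftN (p.length + 1) (lift (ins c)) (Ψ (a :: (p ++ m :: q))) := by
    rw [liftN_lift]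
    simpa [goodd_R2] using H
  have e := congrArg (liftN (p.length + 1) (lift (R m c) * R m (sh c))) H'
  rw [map_smul, ← Module.End.mul_apply (liftN _ _) (liftN _ (lift (ins c))), ← liftN_mul, cross2,
    liftN_smul, liftN_mul, Module.End.mul_apply, h.ext a p _ _ _ (by simp; omega), map_smul,
    goodd_ext2 h a p _ _ _ q hl, smul_smul, LinearMap.smul_apply, smul_comm,
    mul_comm (dd m (sh c))] at e
  exact goodd_cancel hd e

lemma goodd_ups (h : Pre n Ψ) {a c : P} {q : List P} (r : List P) :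
    ∀ p : List P, p.length + r.length + q.length + 2 ≤ n →
      (∀ m ∈ r, dd c m * dd (sh c) m ≠ 0) → goodd_R2 Ψ a p c (r ++ q) →
      goodd_R2 Ψ a (p ++ r) c q := by
  induction r with
  | nil => intro p _ _ H; simpa using H
  | cons m r ih =>
    intro p hl hd H
    have := ih (p ++ [m]) (by simp at hl ⊢; omega) (fun x hx => hd x (List.mem_cons_of_mem _ hx))
      (goodd_up h (by simp at hl ⊢; omega) (hd m List.mem_cons_self) H)
    simpa using this

lemma goodd_downs (h : Pre n Ψ) {a c : P} {q : List P} (r : List P) :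
    ∀ p : List P, p.length + r.length + q.length + 2 ≤ n →
      (∀ m ∈ r, dd m c * dd m (sh c) ≠ 0) → goodd_R2 Ψ a (p ++ r) c q →
      goodd_R2 Ψ a p c (r ++ q) := by
  induction r with
  | nil => intro p _ _ H; simpa using H
  | cons m r ih =>
    intro p hl hd H
    exact goodd_down h (by simp at hl ⊢; omega) (hd m List.mem_cons_self)
      (ih (p ++ [m]) (by simp at hl ⊢; omega) (fun x hx => hd x (List.mem_cons_of_mem _ hx))
        (by simpa using H))

lemma goodd_kt (h : Pre n Ψ) (c : P) (p : List P) (d a : P) (hl : p.length + 2 ≤ n) :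
    liftN (p.length + 1) (lift (K a)) (Ψ (c :: (p ++ [d, a]))) =
      kd a • Ψ (c :: (p ++ [d, bar a])) := by
  have := h.kt (c :: (p ++ [d])) a (by simp; omega)
  rw [liftN_lift]
  simpa using this

lemma goodd_flip (h : Pre n Ψ) {a : P} {p : List P} {c : P} (hl : p.length + 2 ≤ n) (hc : G1 c)
    (H : goodd_R2 Ψ a p (bar (sh c)) []) : goodd_R2 Ψ a p c [] := by
  obtain ⟨c', hc'⟩ : ∃ c', c' = bar (sh c) := ⟨_, rfl⟩
  have e1 : bar (sh c') = c := by rw [hc', sh_bar_sh, bar_bar]
  have e2 : bar c' = sh c := by rw [hc', bar_bar]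
  have g1 : G1 c' := hc' ▸ G1_bar.2 (G1_sh.2 hc)
  have e3 : ((a :: (p ++ [])).map fun m => phi m c').prod =
      ((a :: (p ++ [])).map fun m => phi m c).prod := by simp only [hc', phi_bar_sh]
  rw [← hc', goodd_R2, e3] at H
  have e := congrArg (liftN (p.length + 1) (lift (K (sh c')) * R (sh c') (bar c') * lift (K c'))) H
  have k := congrArg (fun A => liftN (p.length + 1) A (Ψ (a :: (p ++ [])))) (pairK c')
  simp only [liftN_smul, LinearMap.smul_apply, e1] at k
  rw [map_smul, ← Module.End.mul_apply (liftN _ _) (liftN _ (ins c')), ← liftN_mul,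
    mul_right_comm, mul_smul, k, liftN_mul, liftN_mul, Module.End.mul_apply, Module.End.mul_apply,
    goodd_kt h a p _ _ hl, map_smul, h.ext a p _ _ [] (by simp; omega), map_smul, map_smul,
    goodd_kt h a p _ _ hl, e1, smul_smul, smul_smul, smul_smul] at e
  rw [e2] at e
  refine goodd_cancel (mul_ne_zero (mul_ne_zero g1.kd (e2 ▸ g1.dd_bar.2)) (G1_sh.2 g1).kd)
    (e.trans ?_)
  rw [smul_smul]
  congr 1
  ring

lemma goodd_N1 (h : Pre n Ψ) (c : P) (q : List P) (hl : q.length + 2 = n) :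
    goodd_R2 Ψ (sh c) [] c q := by
  have e : Ψ (sh c :: ([sh c] ++ c :: q)) = Vp Ψ [sh c] c q :=
    h.nv true [sh c] c q (by simp; omega)
  have r : lift (up c [sh c]) * ins c = dd c c • lift (ins c) := by
    rw [up, up, lift_one, one_mul, rot, R_self, dd_sh_sh, smul_mul_assoc, one_mul]
  refine e.trans ?_
  rw [Vp, r, LinearMap.smul_apply, smul_smul]
  simp only [List.nil_append, List.cons_append, List.map_cons, List.prod_cons, List.prod_map_mul,
    List.length_nil, phi, dd_sh_right c c]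
  congr 1
  ring

lemma goodd_base (h : Pre n Ψ) (a c : P) (q : List P) (hl : q.length + 2 = n)
    (hg : Gen (c :: q)) : goodd_R2 Ψ a [] c q := by
  have g1 : G1 c := hg.1 c List.mem_cons_self
  have g2 : ∀ m ∈ q, G2 c m := fun m hm => List.rel_of_pairwise_cons hg.2 hm
  have key : ∀ a, goodd_R2 Ψ a [] c q ↔ Ψ (a :: sh c :: c :: q) -
      (kd c * lin c * (phi a c * (q.map fun m => phi m c).prod)) •
        lift (ins c) (Ψ (a :: q)) = 0 := fun a => sub_eq_zero.symm
  rw [key]
  refine nodecountC (f := fun a => Ψ (a :: sh c :: c :: q) -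
      (kd c * lin c * (phi a c * (q.map fun m => phi m c).prod)) • lift (ins c) (Ψ (a :: q)))
    ?_ ?_ hg ?_ ((key _).1 (goodd_N1 h c q hl)) ?_ ?_ ?_ ?_ a
  · have v0 := PolyP.var 0
    refine PolyV.sub ((alga_PL_cons v0 (alga_PL_const _)).psi h.good.pol) (PolyV.smul
      ((PolyF.const _).mul ((PolyF.phi v0 (PolyP.const c)).mul (PolyF.const _))) ?_)
    exact (PolyO.ins (PolyP.const c)).lift _ ((alga_PL_cons v0 (alga_PL_const _)).psi h.good.pol)
  · intro t a
    have h1 := h.hom0 (sh c :: c :: q) a t (by simpa using hl)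
    have h2 : Ψ (t • a :: q) = t ^ (2 * q.length) • Ψ (a :: q) := by
      simpa using h.good.hom [] a q t (by simp; omega)
    have h3 : phi (t • a) c = t ^ 4 * phi a c := by
      rw [phi, phi, dd_smul_left, dd_smul_right]; ring
    rw [h1, h2, h3, map_smul, smul_sub, smul_smul, smul_smul, ← hl]
    congr 2
    ring
  · have h1 := h.r0b (sh c :: c :: q) (by simpa using hl)
    have h2 : Ψ (sh c :: c :: q) =
        (kd c * lin c * (q.map fun m => phi m c).prod) • ins c (Ψ q) :=
      h.good.r2 [] c q (by simp; omega)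
    have h3 := h.good.r0b q (by omega)
    have h4 : emp (ins c (Ψ q)) = lift (ins c) (emp (Ψ q)) := by
      rw [← Module.End.mul_apply, emp, ins1_lift, Module.End.mul_apply]
    rw [h1, h2, h3, map_smul, map_smul, h4, smul_smul, smul_smul, alga_fc_cons, alga_fc_cons,
      phi_bar_aux, sub_eq_zero]
    congr 1
    ring
  · have e : Ψ (sh (bar c) :: sh c :: c :: q) = Vm Ψ [sh c] c q :=
      h.nv false [sh c] c q (by simp; omega)
    simp [e, Vm, phi, dd_sh_self]
  · have e : Ψ (sh (sh c) :: sh c :: c :: q) = Vp Ψ [] (sh c) (c :: q) :=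
      h.nv true [] (sh c) (c :: q) (by simp; omega)
    simp [e, Vp, phi, dd_sh_self, dd_sh_sh_self]
  · refine (key _).1 ?_
    have h1 := goodd_N1 h (bar (sh c)) q hl
    rw [sh_bar_sh] at h1
    have h2 := goodd_ups h (q := []) q [] (by simp; omega) (fun m hm => by
      rw [sh_bar_sh]
      exact mul_ne_zero (G2_bar.2 (G2_sh.2 (g2 m hm))).dd (G2_bar.2 (g2 m hm)).dd)
      (by simpa using h1)
    have h3 := goodd_flip h (by simp; omega) g1 h2
    simpa using goodd_downs h q [] (by simp; omega)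
      (fun m hm => mul_ne_zero (g2 m hm).symm.dd (G2_sh.2 (g2 m hm)).symm.dd) h3
  · intro m hm
    obtain ⟨q₁, q₂, rfl⟩ := List.append_of_mem hm
    have main : ∀ s, Ψ (nd s m :: (q₁ ++ m :: q₂)) = VV s Ψ q₁ m q₂ →
        Ψ (nd s m :: sh c :: c :: (q₁ ++ m :: q₂)) -
          (kd c * lin c * (phi (nd s m) c * ((q₁ ++ m :: q₂).map fun m => phi m c).prod)) •
            lift (ins c) (Ψ (nd s m :: (q₁ ++ m :: q₂))) = 0 := by
      intro s hs
      have e : Ψ (nd s m :: sh c :: c :: (q₁ ++ m :: q₂)) = VV s Ψ (sh c :: c :: q₁) m q₂ :=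
        h.nv s (sh c :: c :: q₁) m q₂ (by simpa using hl)
      rw [e, hs, h.good.VV_pair s c q₁ m q₂ (by simp at hl ⊢; omega), sub_self]
    exact ⟨main true (h.good.np q₁ m q₂ (by omega)), main false (h.good.nm q₁ m q₂ (by omega))⟩

theorem Pre.r2 (h : Pre n Ψ) (l₁ : List P) (c : P) (l₂ : List P)
    (hl : (l₁ ++ sh c :: c :: l₂).length ≤ n + 1) : Ψ (l₁ ++ sh c :: c :: l₂) =
      (kd c * lin c * ((l₁ ++ l₂).map fun m => phi m c).prod) •
        liftN l₁.length (ins c) (Ψ (l₁ ++ l₂)) := by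
  rcases Nat.lt_or_ge n (l₁ ++ sh c :: c :: l₂).length with hn | hn
  swap
  · exact h.good.r2 l₁ c l₂ hn
  rcases l₁ with _ | ⟨a, p⟩
  · have e : Ψ (sh c :: c :: l₂) = Vp Ψ [] c l₂ := h.nv true [] c l₂ (by simp at hl hn ⊢; omega)
    refine e.trans ?_
    rw [Vp, up, lift_one, one_mul, List.nil_append, goodd_prod_phi, ← mul_assoc]
    rfl
  have hlen : p.length + l₂.length + 2 = n := by simp at hl hn; omega
  refine sub_eq_zero.1 (densG (F := fun a c _ p q _ => Ψ (a :: (p ++ sh c :: c :: q)) -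
    (kd c * lin c * ((a :: (p ++ q)).map fun m => phi m c).prod) •
      liftN (p.length + 1) (ins c) (Ψ (a :: (p ++ q)))) ?_ a c 0 p l₂ [] ?_)
  · intro a c _ M₁ M₂ _ ha hc _ h1 h2 _
    have h3 := alga_PL_cons ha (alga_PL_append h1 h2)
    refine PolyV.sub ((alga_PL_cons ha (alga_PL_append h1 (alga_PL_cons hc.sh
      (alga_PL_cons hc h2)))).psi h.good.pol) (PolyV.smul (((PolyF.kd hc).mul (PolyF.lin hc)).mul
      (h3.prod (fun x m => phi m (c x)) fun _ hg => PolyF.phi hg hc)) ?_)
    exact h1.liftN (PolyO.ins hc) 1 _ (h3.psi h.good.pol)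
  · intro a c d p' q r e1 e2 _ hg
    have hg' : Gen (c :: (p' ++ q)) := hg.sublist (List.Sublist.cons _ (List.Sublist.cons_cons _
      (List.Sublist.cons _ ((List.sublist_append_left q r).append_left p'))))
    have g2 : ∀ m ∈ p', G2 c m := fun m hm =>
      List.rel_of_pairwise_cons hg'.2 (List.mem_append_left _ hm)
    have h1 := goodd_base h a c (p' ++ q) (by simp; omega) hg'
    exact sub_eq_zero.2 (goodd_ups h p' [] (by simp; omega)
      (fun m hm => mul_ne_zero (g2 m hm).dd (G2_sh.2 (g2 m hm)).dd) h1)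

end Pool.Agent.Lib.MP_4960b8_pr.QK
end
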