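import Pool.Agent.Lib.MP_4960b8_pr.QK.Basic

/-! Evaluation lemmas and factorised weights for the local identities. -/

namespace Pool.Agent.Lib.MP_4960b8_pr.QK

set_option linter.unusedSimpArgs false

namespace IdentAux

noncomputable def xc (a b : P) : ℂ := a.1 * b.2 - a.2 * b.1
noncomputable def xe (a b : P) : ℂ := a.1 * b.2 - ζ ^ 6 * (a.2 * b.1)
noncomputable def xf (a b : P) : ℂ := a.1 * b.2 - ζ ^ 4 * (a.2 * b.1)
noncomputable def xg (a b : P) : ℂ := ζ ^ 4 * (a.1 * b.2) - ζ ^ 6 * (a.2 * b.1)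
noncomputable def uz : ℂ := 1 - ζ ^ 4
noncomputable def xk (a : P) : ℂ := ζ ^ 3 * a.1 - a.2
noncomputable def xo (a : P) : ℂ := ζ ^ 3 * a.2 - a.1

lemma vv_f (a b : P) : vv a b = -ζ ^ 2 * xc a b * xe a b := by
  simp only [vv, xc, xe]
  linear_combination (-(a.1 * b.2 - a.2 * b.1) * (a.2 * b.1)) * h8
lemma w1_f (a b : P) : w1 a b = xe a b * xf a b := rfl
lemma w2_f (a b : P) : w2 a b = xg a b * xc a b := rfl
lemma ul_f (a b : P) : ul a b = uz * xe a b * (a.2 * b.1) := rfl
lemma uu_f (a b : P) : uu a b = uz * xe a b * (a.1 * b.2) := rfl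
lemma cr_f (a b : P) : cr a b = -ζ ^ 6 * uz * xc a b * (a.1 * b.1) := by
  simp only [cr, xc, uz]; ring
lemma jn_f (a b : P) : jn a b = -uz * xc a b * (a.2 * b.2) := by
  simp only [jn, xc, uz]; ring
lemma kd_f (a : P) : kd a = a.1 * xk a := rfl
lemma ko_f (a : P) : ko a = a.2 * xo a := rfl

lemma sh_1 (c : P) : (sh c).1 = ζ ^ 13 * c.1 := rfl
lemma sh_2 (c : P) : (sh c).2 = ζ ^ 3 * c.2 := rfl
lemma bar_1 (c : P) : (bar c).1 = c.2 := rfl
lemma bar_2 (c : P) : (bar c).2 = c.1 := rfl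
lemma aux_1 : aux.1 = 1 := rfl
lemma aux_2 : aux.2 = ζ ^ 3 := rfl

lemma loc_apply (M : S → S → ℂ) (v : Vec) (x : S) (t : St) : loc M v (cons x t) =
    M x .o * v (cons .o t) + M x .p * v (cons .p t) + M x .m * v (cons .m t) := rfl
lemma dg_o (x y z : ℂ) (v : Vec) (t : St) :
    dg x y z v (cons .o t) = x * v (cons .o t) := by
  simp [dg, loc_apply]
lemma dg_p (x y z : ℂ) (v : Vec) (t : St) :
    dg x y z v (cons .p t) = y * v (cons .p t) := by
  simp [dg, loc_apply]
lemma dg_m (x y z : ℂ) (v : Vec) (t : St) :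
    dg x y z v (cons .m t) = z * v (cons .m t) := by
  simp [dg, loc_apply]
lemma K_o (a : P) (v : Vec) (t : St) :
    K a v (cons .o t) = kd a * v (cons .o t) := by
  simp [K, dg, loc_apply]
lemma K_p (a : P) (v : Vec) (t : St) :
    K a v (cons .p t) = ko a * v (cons .p t) := by
  simp [K, dg, loc_apply]
lemma K_m (a : P) (v : Vec) (t : St) :
    K a v (cons .m t) = ko a * v (cons .m t) := by
  simp [K, dg, loc_apply]
lemma E0_o (v : Vec) (t : St) :
    E0 v (cons .o t) = v (cons .o t) := by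
  simp [E0, dg, loc_apply]
lemma E0_p (v : Vec) (t : St) :
    E0 v (cons .p t) = 0 := by
  simp [E0, dg, loc_apply]
lemma E0_m (v : Vec) (t : St) :
    E0 v (cons .m t) = 0 := by
  simp [E0, dg, loc_apply]
lemma kap_o (v : Vec) (t : St) :
    kap v (cons .o t) = v (cons .o t) := by
  simp [kap, dg, loc_apply]
lemma kap_p (v : Vec) (t : St) :
    kap v (cons .p t) = ζ ^ 6 * v (cons .p t) := by
  simp [kap, dg, loc_apply]
lemma kap_m (v : Vec) (t : St) :
    kap v (cons .m t) = ζ ^ 10 * v (cons .m t) := by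
  simp [kap, dg, loc_apply]
lemma kq_o (v : Vec) (t : St) :
    kq v (cons .o t) = v (cons .o t) := by
  simp [kq, dg, loc_apply]
lemma kq_p (v : Vec) (t : St) :
    kq v (cons .p t) = ζ ^ 4 * v (cons .p t) := by
  simp [kq, dg, loc_apply]
lemma kq_m (v : Vec) (t : St) :
    kq v (cons .m t) = -ζ ^ 4 * v (cons .m t) := by
  simp [kq, dg, loc_apply]
lemma q1_o (v : Vec) (t : St) :
    q1 v (cons .o t) = 0 := by
  simp [q1, loc_apply]
lemma q1_p (v : Vec) (t : St) :
    q1 v (cons .p t) = v (cons .m t) := by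
  simp [q1, loc_apply]
lemma q1_m (v : Vec) (t : St) :
    q1 v (cons .m t) = 0 := by
  simp [q1, loc_apply]
lemma e1_o (a : P) (v : Vec) (t : St) :
    e1 a v (cons .o t) = ζ ^ 10 * a.2 * v (cons .m t) := by
  simp [e1, loc_apply]
lemma e1_p (a : P) (v : Vec) (t : St) :
    e1 a v (cons .p t) = a.1 * v (cons .o t) := by
  simp [e1, loc_apply]
lemma e1_m (a : P) (v : Vec) (t : St) :
    e1 a v (cons .m t) = 0 := by
  simp [e1, loc_apply]
lemma f1_o (a : P) (v : Vec) (t : St) :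
    f1 a v (cons .o t) = a.2 * v (cons .p t) := by
  simp [f1, loc_apply]
lemma f1_p (a : P) (v : Vec) (t : St) :
    f1 a v (cons .p t) = 0 := by
  simp [f1, loc_apply]
lemma f1_m (a : P) (v : Vec) (t : St) :
    f1 a v (cons .m t) = a.1 * v (cons .o t) := by
  simp [f1, loc_apply]
lemma prj_apply (s : S) (v : Vec) (t : St) : prj s v t = v (cons s t) := rfl
lemma emp_o (v : Vec) (t : St) : emp v (cons .o t) = v t := one_mul _
lemma emp_p (v : Vec) (t : St) : emp v (cons .p t) = 0 := zero_mul _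
lemma emp_m (v : Vec) (t : St) : emp v (cons .m t) = 0 := zero_mul _
lemma ins_oo (c : P) (v : Vec) (t : St) :
    ins c v (cons .o (cons .o t)) = c.2 * v t := rfl
lemma ins_op (c : P) (v : Vec) (t : St) :
    ins c v (cons .o (cons .p t)) = 0 := zero_mul _
lemma ins_om (c : P) (v : Vec) (t : St) :
    ins c v (cons .o (cons .m t)) = 0 := zero_mul _
lemma ins_po (c : P) (v : Vec) (t : St) :
    ins c v (cons .p (cons .o t)) = 0 := zero_mul _
lemma ins_pp (c : P) (v : Vec) (t : St) :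
    ins c v (cons .p (cons .p t)) = 0 := zero_mul _
lemma ins_pm (c : P) (v : Vec) (t : St) :
    ins c v (cons .p (cons .m t)) = ζ ^ 2 * c.1 * v t := rfl
lemma ins_mo (c : P) (v : Vec) (t : St) :
    ins c v (cons .m (cons .o t)) = 0 := zero_mul _
lemma ins_mp (c : P) (v : Vec) (t : St) :
    ins c v (cons .m (cons .p t)) = -ζ ^ 6 * c.1 * v t := rfl
lemma ins_mm (c : P) (v : Vec) (t : St) :
    ins c v (cons .m (cons .m t)) = 0 := zero_mul _

end IdentAux

end Pool.Agent.Lib.MP_4960b8_pr.QK
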