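import Pool.Agent.Lib.MP_4960b8_pr.QK.Ident0

/-! The Yang-Baxter equation. -/

namespace Pool.Agent.Lib.MP_4960b8_pr.QK

set_option linter.unusedSimpArgs false

open IdentAux

lemma ident_ybe_0 (a b c : P) :
    -a.1 * a.2 * uz * xg b c - xc a b * xe a c * ζ ^ 4 + xf a b * xg a c = 0 := by
  simp only [xc, xe, xf, xg, uz]
  ring

lemma ident_ybe_1 (a b c : P) :
    -b.1 * b.2 * uz * xe a c - xc a b * xg b c + xe b c * xf a b = 0 := by
  simp only [xc, xe, xf, xg, uz]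
  ring

lemma ident_ybe_2 (a b c : P) :
    b.1 * b.2 * uz * xe a c + xc b c * xg a b - xe a b * xf b c = 0 := by
  simp only [xc, xe, xf, xg, uz]
  ring

lemma ident_ybe_3 (a b c : P) :
    a.1 * a.2 * uz * xc b c + xc a b * xf a c - xc a c * xf a b = 0 := by
  simp only [xc, xf, uz]
  ring

lemma ident_ybe_4 (a b c : P) :
    -b.1 * b.2 * uz * xf a c * ζ ^ 4 + xc a b * xc b c + xf a b * xf b c * ζ ^ 4 = 0 := by
  simp only [xc, xf, uz]
  linear_combination (a.1 * b.1 * b.2 * c.2 - a.1 * b.2 ^ 2 * c.1 + a.2 * b.1 * b.2 * c.1 - a.2 *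
    b.1 ^ 2 * c.2) * h8

lemma ident_ybe_5 (a b c : P) :
    -a.1 * a.2 * uz * xc b c * ζ ^ 6 + xe a b * xg a c - xe a c * xg a b = 0 := by
  simp only [xc, xe, xg, uz]
  ring

lemma ident_ybe_6 (a b c : P) :
    c.1 * c.2 * uz * xg a b + xc b c * xe a c * ζ ^ 4 - xf b c * xg a c = 0 := by
  simp only [xc, xe, xf, xg, uz]
  ring

lemma ident_ybe_7 (a b c : P) :
    c.1 * c.2 * uz * xc a b - xc a c * xf b c + xc b c * xf a c = 0 := by
  simp only [xc, xf, uz]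
  ring

lemma ident_ybe_8 (a b c : P) :
    -c.1 * c.2 * uz * xc a b * ζ ^ 6 - xe a c * xg b c + xe b c * xg a c = 0 := by
  simp only [xc, xe, xg, uz]
  ring

lemma ident_ybe_9 (a b c : P) :
    -c.1 * c.2 * dd a b * uz * xc a c * xe b c + c.1 * c.2 * uz * xc b c * xe a b * xe a c * xf a b
      + dd a c * dd b c * xc a b - xc a b * xc a c * xc b c * xe a c * xe b c * ζ ^ 4 = 0 := by
  simp only [dd, xc, xe, xf, uz]
  linear_combination (-a.1 * a.2 ^ 2 * b.1 ^ 3 * c.1 * c.2 ^ 3 + a.1 * a.2 ^ 2 * b.1 ^ 3 * c.1 *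
    c.2 ^ 3 * ζ ^ 8 + a.1 * a.2 ^ 2 * b.2 ^ 3 * c.1 ^ 4 - a.1 * a.2 ^ 2 * b.2 ^ 3 * c.1 ^ 4 * ζ ^ 8
    + a.1 ^ 2 * a.2 * b.1 ^ 3 * c.2 ^ 4 * ζ ^ 4 - a.1 ^ 2 * a.2 * b.1 ^ 3 * c.2 ^ 4 * ζ ^ 12 - a.1
    ^ 2 * a.2 * b.2 ^ 3 * c.1 ^ 3 * c.2 * ζ ^ 4 + a.1 ^ 2 * a.2 * b.2 ^ 3 * c.1 ^ 3 * c.2 * ζ ^ 12
    + a.1 ^ 3 * b.1 * b.2 ^ 2 * c.1 * c.2 ^ 3 - a.1 ^ 3 * b.1 * b.2 ^ 2 * c.1 * c.2 ^ 3 * ζ ^ 8 -
    a.1 ^ 3 * b.1 ^ 2 * b.2 * c.2 ^ 4 * ζ ^ 4 + a.1 ^ 3 * b.1 ^ 2 * b.2 * c.2 ^ 4 * ζ ^ 12 - a.1 ^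
    3 * b.2 ^ 3 * c.1 ^ 2 * c.2 ^ 2 + a.1 ^ 3 * b.2 ^ 3 * c.1 ^ 2 * c.2 ^ 2 * ζ ^ 4 + a.1 ^ 3 * b.2
    ^ 3 * c.1 ^ 2 * c.2 ^ 2 * ζ ^ 8 - a.1 ^ 3 * b.2 ^ 3 * c.1 ^ 2 * c.2 ^ 2 * ζ ^ 12 - a.2 ^ 3 *
    b.1 * b.2 ^ 2 * c.1 ^ 4 + a.2 ^ 3 * b.1 * b.2 ^ 2 * c.1 ^ 4 * ζ ^ 8 + a.2 ^ 3 * b.1 ^ 2 * b.2 *
    c.1 ^ 3 * c.2 * ζ ^ 4 - a.2 ^ 3 * b.1 ^ 2 * b.2 * c.1 ^ 3 * c.2 * ζ ^ 12 + a.2 ^ 3 * b.1 ^ 3 *
    c.1 ^ 2 * c.2 ^ 2 - a.2 ^ 3 * b.1 ^ 3 * c.1 ^ 2 * c.2 ^ 2 * ζ ^ 4 - a.2 ^ 3 * b.1 ^ 3 * c.1 ^ 2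
    * c.2 ^ 2 * ζ ^ 8 + a.2 ^ 3 * b.1 ^ 3 * c.1 ^ 2 * c.2 ^ 2 * ζ ^ 12) * h8

lemma ident_ybe_10 (a b c : P) :
    -b.1 * b.2 * uz * xc a b * xe a c * xe b c + b.1 * b.2 * uz * xc b c * xe a b * xe a c - dd a b
      * xc b c * xe b c + dd b c * xc a b * xe a b = 0 := by
  simp only [dd, xc, xe, uz]
  linear_combination (-a.1 * a.2 * b.1 * b.2 ^ 3 * c.1 ^ 2 + a.1 * a.2 * b.1 * b.2 ^ 3 * c.1 ^ 2 *
    ζ ^ 8 + a.1 * a.2 * b.1 ^ 3 * b.2 * c.2 ^ 2 - a.1 * a.2 * b.1 ^ 3 * b.2 * c.2 ^ 2 * ζ ^ 8 - a.1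
    ^ 2 * b.1 * b.2 ^ 3 * c.1 * c.2 + a.1 ^ 2 * b.1 * b.2 ^ 3 * c.1 * c.2 * ζ ^ 8 + a.1 ^ 2 * b.2 ^
    4 * c.1 ^ 2 - a.1 ^ 2 * b.2 ^ 4 * c.1 ^ 2 * ζ ^ 8 + a.2 ^ 2 * b.1 ^ 3 * b.2 * c.1 * c.2 - a.2 ^
    2 * b.1 ^ 3 * b.2 * c.1 * c.2 * ζ ^ 8 - a.2 ^ 2 * b.1 ^ 4 * c.2 ^ 2 + a.2 ^ 2 * b.1 ^ 4 * c.2 ^
    2 * ζ ^ 8) * h8

lemma ident_ybe_11 (a b c : P) :
    a.1 * a.2 * dd b c * uz * xc a c * xe a b - a.1 * a.2 * uz * xc a b * xe a c * xe b c * xf b c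
      - dd a b * dd a c * xc b c + xc a b * xc a c * xc b c * xe a b * xe a c * ζ ^ 4 = 0 := by
  simp only [dd, xc, xe, xf, uz]
  linear_combination (-a.1 * a.2 ^ 3 * b.1 * b.2 ^ 2 * c.1 ^ 3 * ζ ^ 4 + a.1 * a.2 ^ 3 * b.1 * b.2
    ^ 2 * c.1 ^ 3 * ζ ^ 12 + a.1 * a.2 ^ 3 * b.1 ^ 3 * c.1 * c.2 ^ 2 * ζ ^ 4 - a.1 * a.2 ^ 3 * b.1
    ^ 3 * c.1 * c.2 ^ 2 * ζ ^ 12 + a.1 ^ 2 * a.2 ^ 2 * b.1 ^ 3 * c.2 ^ 3 - a.1 ^ 2 * a.2 ^ 2 * b.1
    ^ 3 * c.2 ^ 3 * ζ ^ 4 - a.1 ^ 2 * a.2 ^ 2 * b.1 ^ 3 * c.2 ^ 3 * ζ ^ 8 + a.1 ^ 2 * a.2 ^ 2 * b.1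
    ^ 3 * c.2 ^ 3 * ζ ^ 12 - a.1 ^ 2 * a.2 ^ 2 * b.2 ^ 3 * c.1 ^ 3 + a.1 ^ 2 * a.2 ^ 2 * b.2 ^ 3 *
    c.1 ^ 3 * ζ ^ 4 + a.1 ^ 2 * a.2 ^ 2 * b.2 ^ 3 * c.1 ^ 3 * ζ ^ 8 - a.1 ^ 2 * a.2 ^ 2 * b.2 ^ 3 *
    c.1 ^ 3 * ζ ^ 12 - a.1 ^ 3 * a.2 * b.1 ^ 2 * b.2 * c.2 ^ 3 + a.1 ^ 3 * a.2 * b.1 ^ 2 * b.2 *
    c.2 ^ 3 * ζ ^ 8 + a.1 ^ 3 * a.2 * b.2 ^ 3 * c.1 ^ 2 * c.2 - a.1 ^ 3 * a.2 * b.2 ^ 3 * c.1 ^ 2 *
    c.2 * ζ ^ 8 + a.1 ^ 4 * b.1 * b.2 ^ 2 * c.2 ^ 3 * ζ ^ 4 - a.1 ^ 4 * b.1 * b.2 ^ 2 * c.2 ^ 3 * ζ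
    ^ 12 - a.1 ^ 4 * b.2 ^ 3 * c.1 * c.2 ^ 2 * ζ ^ 4 + a.1 ^ 4 * b.2 ^ 3 * c.1 * c.2 ^ 2 * ζ ^ 12 +
    a.2 ^ 4 * b.1 ^ 2 * b.2 * c.1 ^ 3 - a.2 ^ 4 * b.1 ^ 2 * b.2 * c.1 ^ 3 * ζ ^ 8 - a.2 ^ 4 * b.1 ^
    3 * c.1 ^ 2 * c.2 + a.2 ^ 4 * b.1 ^ 3 * c.1 ^ 2 * c.2 * ζ ^ 8) * h8

lemma ident_ybe_12 (a b c : P) :
    c.1 * c.2 * uz * xc a b * xc a c * xc b c * ζ ^ 6 - c.1 * c.2 * uz * xc a b * xe a c * xe b c -
      dd a c * xc b c * xe b c + dd b c * xc a c * xe a c = 0 := by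
  simp only [dd, xc, xe, uz]
  linear_combination (a.1 * a.2 * b.1 ^ 2 * c.1 * c.2 ^ 3 - a.1 * a.2 * b.1 ^ 2 * c.1 * c.2 ^ 3 * ζ
    ^ 8 - a.1 * a.2 * b.2 ^ 2 * c.1 ^ 3 * c.2 + a.1 * a.2 * b.2 ^ 2 * c.1 ^ 3 * c.2 * ζ ^ 8 - a.1 ^
    2 * b.1 * b.2 * c.1 * c.2 ^ 3 + a.1 ^ 2 * b.1 * b.2 * c.1 * c.2 ^ 3 * ζ ^ 8 + a.1 ^ 2 * b.2 ^ 2
    * c.1 ^ 2 * c.2 ^ 2 - a.1 ^ 2 * b.2 ^ 2 * c.1 ^ 2 * c.2 ^ 2 * ζ ^ 8 + a.2 ^ 2 * b.1 * b.2 * c.1
    ^ 3 * c.2 - a.2 ^ 2 * b.1 * b.2 * c.1 ^ 3 * c.2 * ζ ^ 8 - a.2 ^ 2 * b.1 ^ 2 * c.1 ^ 2 * c.2 ^ 2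
    + a.2 ^ 2 * b.1 ^ 2 * c.1 ^ 2 * c.2 ^ 2 * ζ ^ 8) * h8

lemma ident_ybe_13 (a b c : P) :
    -b.1 * b.2 * dd a c * uz * xe a b * xe b c + b.1 * b.2 * uz * xc a b * xc a c * xc b c * xg a c
      * ζ ^ 6 + dd a b * dd b c * xe a c - xc a b * xc b c * xe a b * xe a c * xe b c * ζ ^ 4 = 0
      := by
  simp only [dd, xc, xe, xg, uz]
  linear_combination (a.1 * a.2 ^ 2 * b.1 * b.2 ^ 3 * c.1 ^ 3 * ζ ^ 6 - a.1 * a.2 ^ 2 * b.1 * b.2 ^
    3 * c.1 ^ 3 * ζ ^ 14 + a.1 * a.2 ^ 2 * b.1 ^ 2 * b.2 ^ 2 * c.1 ^ 2 * c.2 * ζ ^ 4 - a.1 * a.2 ^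
    2 * b.1 ^ 2 * b.2 ^ 2 * c.1 ^ 2 * c.2 * ζ ^ 12 - a.1 * a.2 ^ 2 * b.1 ^ 3 * b.2 * c.1 * c.2 ^ 2
    * ζ ^ 4 - a.1 * a.2 ^ 2 * b.1 ^ 3 * b.2 * c.1 * c.2 ^ 2 * ζ ^ 6 + a.1 * a.2 ^ 2 * b.1 ^ 3 * b.2
    * c.1 * c.2 ^ 2 * ζ ^ 12 + a.1 * a.2 ^ 2 * b.1 ^ 3 * b.2 * c.1 * c.2 ^ 2 * ζ ^ 14 - a.1 ^ 2 *
    a.2 * b.1 * b.2 ^ 3 * c.1 ^ 2 * c.2 * ζ ^ 4 - a.1 ^ 2 * a.2 * b.1 * b.2 ^ 3 * c.1 ^ 2 * c.2 * ζ
    ^ 6 + a.1 ^ 2 * a.2 * b.1 * b.2 ^ 3 * c.1 ^ 2 * c.2 * ζ ^ 12 + a.1 ^ 2 * a.2 * b.1 * b.2 ^ 3 *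
    c.1 ^ 2 * c.2 * ζ ^ 14 + a.1 ^ 2 * a.2 * b.1 ^ 2 * b.2 ^ 2 * c.1 * c.2 ^ 2 * ζ ^ 6 - a.1 ^ 2 *
    a.2 * b.1 ^ 2 * b.2 ^ 2 * c.1 * c.2 ^ 2 * ζ ^ 14 + a.1 ^ 2 * a.2 * b.1 ^ 3 * b.2 * c.2 ^ 3 * ζ
    ^ 4 - a.1 ^ 2 * a.2 * b.1 ^ 3 * b.2 * c.2 ^ 3 * ζ ^ 12 + a.1 ^ 3 * b.1 * b.2 ^ 3 * c.1 * c.2 ^
    2 * ζ ^ 4 - a.1 ^ 3 * b.1 * b.2 ^ 3 * c.1 * c.2 ^ 2 * ζ ^ 12 - a.1 ^ 3 * b.1 ^ 2 * b.2 ^ 2 *
    c.2 ^ 3 * ζ ^ 4 + a.1 ^ 3 * b.1 ^ 2 * b.2 ^ 2 * c.2 ^ 3 * ζ ^ 12 - a.2 ^ 3 * b.1 ^ 2 * b.2 ^ 2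
    * c.1 ^ 3 * ζ ^ 6 + a.2 ^ 3 * b.1 ^ 2 * b.2 ^ 2 * c.1 ^ 3 * ζ ^ 14 + a.2 ^ 3 * b.1 ^ 3 * b.2 *
    c.1 ^ 2 * c.2 * ζ ^ 6 - a.2 ^ 3 * b.1 ^ 3 * b.2 * c.1 ^ 2 * c.2 * ζ ^ 14) * h8

lemma ident_ybe_14 (a b c : P) :
    a.1 * a.2 * dd b c * uz * xc a b * xe a c - a.1 * a.2 * uz * xc a c * xe a b * xe b c * xf b c
      + xc a b * xc a c * xc b c * xg a b * xg a c + xc b c * xe a b * xe a c * xf a b * xf a c = 0
      := by
  simp only [dd, xc, xe, xf, xg, uz]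
  linear_combination (a.1 * a.2 ^ 3 * b.1 * b.2 ^ 2 * c.1 ^ 3 * ζ ^ 6 + a.1 * a.2 ^ 3 * b.1 * b.2 ^
    2 * c.1 ^ 3 * ζ ^ 12 - a.1 * a.2 ^ 3 * b.1 ^ 3 * c.1 * c.2 ^ 2 * ζ ^ 6 - a.1 * a.2 ^ 3 * b.1 ^
    3 * c.1 * c.2 ^ 2 * ζ ^ 12 - a.1 ^ 2 * a.2 ^ 2 * b.1 * b.2 ^ 2 * c.1 ^ 2 * c.2 - a.1 ^ 2 * a.2
    ^ 2 * b.1 * b.2 ^ 2 * c.1 ^ 2 * c.2 * ζ ^ 6 - a.1 ^ 2 * a.2 ^ 2 * b.1 * b.2 ^ 2 * c.1 ^ 2 * c.2
    * ζ ^ 12 + a.1 ^ 2 * a.2 ^ 2 * b.1 ^ 2 * b.2 * c.1 * c.2 ^ 2 + a.1 ^ 2 * a.2 ^ 2 * b.1 ^ 2 *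
    b.2 * c.1 * c.2 ^ 2 * ζ ^ 6 + a.1 ^ 2 * a.2 ^ 2 * b.1 ^ 2 * b.2 * c.1 * c.2 ^ 2 * ζ ^ 12 + a.1
    ^ 2 * a.2 ^ 2 * b.1 ^ 3 * c.2 ^ 3 * ζ ^ 6 - a.1 ^ 2 * a.2 ^ 2 * b.2 ^ 3 * c.1 ^ 3 * ζ ^ 6 - a.1
    ^ 3 * a.2 * b.1 ^ 2 * b.2 * c.2 ^ 3 - a.1 ^ 3 * a.2 * b.1 ^ 2 * b.2 * c.2 ^ 3 * ζ ^ 6 + a.1 ^ 3
    * a.2 * b.2 ^ 3 * c.1 ^ 2 * c.2 + a.1 ^ 3 * a.2 * b.2 ^ 3 * c.1 ^ 2 * c.2 * ζ ^ 6 + a.1 ^ 4 *
    b.1 * b.2 ^ 2 * c.2 ^ 3 - a.1 ^ 4 * b.2 ^ 3 * c.1 * c.2 ^ 2 - a.2 ^ 4 * b.1 ^ 2 * b.2 * c.1 ^ 3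
    * ζ ^ 12 + a.2 ^ 4 * b.1 ^ 3 * c.1 ^ 2 * c.2 * ζ ^ 12) * h8

lemma ident_ybe_15 (a b c : P) :
    a.1 * a.2 * uz * xc a b * xc a c * xc b c + a.1 * a.2 * uz * xc b c * xe a b * xe a c * ζ ^ 2 -
      dd a b * xc a c * xe a c * ζ ^ 2 + dd a c * xc a b * xe a b * ζ ^ 2 = 0 := by
  simp only [dd, xc, xe, uz]
  linear_combination (-a.1 * a.2 ^ 3 * b.1 * b.2 * c.1 ^ 2 - a.1 * a.2 ^ 3 * b.1 * b.2 * c.1 ^ 2 *
    ζ ^ 2 + a.1 * a.2 ^ 3 * b.1 * b.2 * c.1 ^ 2 * ζ ^ 4 + a.1 * a.2 ^ 3 * b.1 * b.2 * c.1 ^ 2 * ζ ^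
    10 + a.1 * a.2 ^ 3 * b.1 ^ 2 * c.1 * c.2 + a.1 * a.2 ^ 3 * b.1 ^ 2 * c.1 * c.2 * ζ ^ 2 - a.1 *
    a.2 ^ 3 * b.1 ^ 2 * c.1 * c.2 * ζ ^ 4 - a.1 * a.2 ^ 3 * b.1 ^ 2 * c.1 * c.2 * ζ ^ 10 - a.1 ^ 2
    * a.2 ^ 2 * b.1 ^ 2 * c.2 ^ 2 - a.1 ^ 2 * a.2 ^ 2 * b.1 ^ 2 * c.2 ^ 2 * ζ ^ 2 + a.1 ^ 2 * a.2 ^
    2 * b.1 ^ 2 * c.2 ^ 2 * ζ ^ 4 + a.1 ^ 2 * a.2 ^ 2 * b.1 ^ 2 * c.2 ^ 2 * ζ ^ 10 + a.1 ^ 2 * a.2
    ^ 2 * b.2 ^ 2 * c.1 ^ 2 + a.1 ^ 2 * a.2 ^ 2 * b.2 ^ 2 * c.1 ^ 2 * ζ ^ 2 - a.1 ^ 2 * a.2 ^ 2 *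
    b.2 ^ 2 * c.1 ^ 2 * ζ ^ 4 - a.1 ^ 2 * a.2 ^ 2 * b.2 ^ 2 * c.1 ^ 2 * ζ ^ 10 + a.1 ^ 3 * a.2 *
    b.1 * b.2 * c.2 ^ 2 + a.1 ^ 3 * a.2 * b.1 * b.2 * c.2 ^ 2 * ζ ^ 2 - a.1 ^ 3 * a.2 * b.1 * b.2 *
    c.2 ^ 2 * ζ ^ 4 - a.1 ^ 3 * a.2 * b.1 * b.2 * c.2 ^ 2 * ζ ^ 10 - a.1 ^ 3 * a.2 * b.2 ^ 2 * c.1
    * c.2 - a.1 ^ 3 * a.2 * b.2 ^ 2 * c.1 * c.2 * ζ ^ 2 + a.1 ^ 3 * a.2 * b.2 ^ 2 * c.1 * c.2 * ζ ^
    4 + a.1 ^ 3 * a.2 * b.2 ^ 2 * c.1 * c.2 * ζ ^ 10) * h8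

lemma ident_ybe_16 (a b c : P) :
    -b.1 * b.2 * dd a c * uz * xc a b * xc b c * ζ ^ 6 + b.1 * b.2 * uz * xc a c * xe a b * xe b c
      * xg a c - xc a b * xe a c * xe b c * xf b c * xg a b - xc b c * xe a b * xe a c * xf a b *
      xg b c = 0 := by
  simp only [dd, xc, xe, xf, xg, uz]
  linear_combination (a.1 * a.2 ^ 2 * b.1 * b.2 ^ 3 * c.1 ^ 3 * ζ ^ 6 - a.1 * a.2 ^ 2 * b.1 * b.2 ^
    3 * c.1 ^ 3 * ζ ^ 10 - a.1 * a.2 ^ 2 * b.1 * b.2 ^ 3 * c.1 ^ 3 * ζ ^ 12 - a.1 * a.2 ^ 2 * b.1 *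
    b.2 ^ 3 * c.1 ^ 3 * ζ ^ 14 + a.1 * a.2 ^ 2 * b.1 ^ 2 * b.2 ^ 2 * c.1 ^ 2 * c.2 * ζ ^ 10 + a.1 *
    a.2 ^ 2 * b.1 ^ 2 * b.2 ^ 2 * c.1 ^ 2 * c.2 * ζ ^ 12 + a.1 * a.2 ^ 2 * b.1 ^ 2 * b.2 ^ 2 * c.1
    ^ 2 * c.2 * ζ ^ 14 - a.1 * a.2 ^ 2 * b.1 ^ 4 * c.2 ^ 3 * ζ ^ 6 - a.1 ^ 2 * a.2 * b.1 ^ 2 * b.2
    ^ 2 * c.1 * c.2 ^ 2 * ζ ^ 4 - a.1 ^ 2 * a.2 * b.1 ^ 2 * b.2 ^ 2 * c.1 * c.2 ^ 2 * ζ ^ 6 - a.1 ^
    2 * a.2 * b.1 ^ 2 * b.2 ^ 2 * c.1 * c.2 ^ 2 * ζ ^ 8 + a.1 ^ 2 * a.2 * b.1 ^ 3 * b.2 * c.2 ^ 3 *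
    ζ ^ 4 + a.1 ^ 2 * a.2 * b.1 ^ 3 * b.2 * c.2 ^ 3 * ζ ^ 6 + a.1 ^ 2 * a.2 * b.1 ^ 3 * b.2 * c.2 ^
    3 * ζ ^ 8 - a.1 ^ 2 * a.2 * b.1 ^ 3 * b.2 * c.2 ^ 3 * ζ ^ 12 + a.1 ^ 2 * a.2 * b.2 ^ 4 * c.1 ^
    3 * ζ ^ 12 + a.1 ^ 3 * b.1 * b.2 ^ 3 * c.1 * c.2 ^ 2 * ζ ^ 4 + a.1 ^ 3 * b.1 * b.2 ^ 3 * c.1 *
    c.2 ^ 2 * ζ ^ 6 + a.1 ^ 3 * b.1 * b.2 ^ 3 * c.1 * c.2 ^ 2 * ζ ^ 8 - a.1 ^ 3 * b.1 * b.2 ^ 3 *
    c.1 * c.2 ^ 2 * ζ ^ 12 - a.1 ^ 3 * b.1 ^ 2 * b.2 ^ 2 * c.2 ^ 3 * ζ ^ 4 - a.1 ^ 3 * b.1 ^ 2 *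
    b.2 ^ 2 * c.2 ^ 3 * ζ ^ 8 + a.1 ^ 3 * b.1 ^ 2 * b.2 ^ 2 * c.2 ^ 3 * ζ ^ 12 - a.1 ^ 3 * b.2 ^ 4
    * c.1 ^ 2 * c.2 * ζ ^ 6 - a.2 ^ 3 * b.1 ^ 2 * b.2 ^ 2 * c.1 ^ 3 * ζ ^ 6 + a.2 ^ 3 * b.1 ^ 2 *
    b.2 ^ 2 * c.1 ^ 3 * ζ ^ 10 + a.2 ^ 3 * b.1 ^ 2 * b.2 ^ 2 * c.1 ^ 3 * ζ ^ 14 + a.2 ^ 3 * b.1 ^ 3
    * b.2 * c.1 ^ 2 * c.2 * ζ ^ 6 - a.2 ^ 3 * b.1 ^ 3 * b.2 * c.1 ^ 2 * c.2 * ζ ^ 10 - a.2 ^ 3 *
    b.1 ^ 3 * b.2 * c.1 ^ 2 * c.2 * ζ ^ 12 - a.2 ^ 3 * b.1 ^ 3 * b.2 * c.1 ^ 2 * c.2 * ζ ^ 14 + a.2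
    ^ 3 * b.1 ^ 4 * c.1 * c.2 ^ 2 * ζ ^ 12) * h8

lemma ident_ybe_17 (a b c : P) :
    -c.1 * c.2 * dd a b * uz * xc b c * xe a c + c.1 * c.2 * uz * xc a c * xe a b * xe b c * xf a b
      - xc a b * xc a c * xc b c * xg a c * xg b c - xc a b * xe a c * xe b c * xf a c * xf b c = 0
      := by
  simp only [dd, xc, xe, xf, xg, uz]
  linear_combination (a.1 * a.2 ^ 2 * b.1 ^ 2 * b.2 * c.1 ^ 2 * c.2 ^ 2 + a.1 * a.2 ^ 2 * b.1 ^ 2 *
    b.2 * c.1 ^ 2 * c.2 ^ 2 * ζ ^ 6 + a.1 * a.2 ^ 2 * b.1 ^ 2 * b.2 * c.1 ^ 2 * c.2 ^ 2 * ζ ^ 12 -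
    a.1 * a.2 ^ 2 * b.1 ^ 3 * c.1 * c.2 ^ 3 - a.1 * a.2 ^ 2 * b.1 ^ 3 * c.1 * c.2 ^ 3 * ζ ^ 6 - a.1
    * a.2 ^ 2 * b.2 ^ 3 * c.1 ^ 4 * ζ ^ 12 - a.1 ^ 2 * a.2 * b.1 * b.2 ^ 2 * c.1 ^ 2 * c.2 ^ 2 -
    a.1 ^ 2 * a.2 * b.1 * b.2 ^ 2 * c.1 ^ 2 * c.2 ^ 2 * ζ ^ 6 - a.1 ^ 2 * a.2 * b.1 * b.2 ^ 2 * c.1
    ^ 2 * c.2 ^ 2 * ζ ^ 12 + a.1 ^ 2 * a.2 * b.1 ^ 3 * c.2 ^ 4 + a.1 ^ 2 * a.2 * b.2 ^ 3 * c.1 ^ 3
    * c.2 * ζ ^ 6 + a.1 ^ 2 * a.2 * b.2 ^ 3 * c.1 ^ 3 * c.2 * ζ ^ 12 + a.1 ^ 3 * b.1 * b.2 ^ 2 *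
    c.1 * c.2 ^ 3 + a.1 ^ 3 * b.1 * b.2 ^ 2 * c.1 * c.2 ^ 3 * ζ ^ 6 - a.1 ^ 3 * b.1 ^ 2 * b.2 * c.2
    ^ 4 - a.1 ^ 3 * b.2 ^ 3 * c.1 ^ 2 * c.2 ^ 2 * ζ ^ 6 + a.2 ^ 3 * b.1 * b.2 ^ 2 * c.1 ^ 4 * ζ ^
    12 - a.2 ^ 3 * b.1 ^ 2 * b.2 * c.1 ^ 3 * c.2 * ζ ^ 6 - a.2 ^ 3 * b.1 ^ 2 * b.2 * c.1 ^ 3 * c.2
    * ζ ^ 12 + a.2 ^ 3 * b.1 ^ 3 * c.1 ^ 2 * c.2 ^ 2 * ζ ^ 6) * h8

lemma ident_ybe_18 (a b c : P) :
    -a.1 * a.2 * b.1 * b.2 * c.1 * c.2 * uz ^ 3 * xc a b * xc b c * xe a c * ζ ^ 6 - xc a b * xc a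
      c * xc b c * xg a b * xg a c * xg b c - xc a b * xe a c * xe b c * xf a c * xf b c * xg a b +
      xc a c * xe a b * xe b c * xf a b * xf b c * xg a c - xc b c * xe a b * xe a c * xf a b * xf
      a c * xg b c = 0 := by
  simp only [xc, xe, xf, xg, uz]
  linear_combination (a.1 * a.2 ^ 3 * b.1 * b.2 ^ 3 * c.1 ^ 4 * ζ ^ 16 + a.1 * a.2 ^ 3 * b.1 * b.2
    ^ 3 * c.1 ^ 4 * ζ ^ 18 + a.1 * a.2 ^ 3 * b.1 ^ 2 * b.2 ^ 2 * c.1 ^ 3 * c.2 * ζ ^ 12 - 2 * a.1 *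
    a.2 ^ 3 * b.1 ^ 2 * b.2 ^ 2 * c.1 ^ 3 * c.2 * ζ ^ 16 - a.1 * a.2 ^ 3 * b.1 ^ 2 * b.2 ^ 2 * c.1
    ^ 3 * c.2 * ζ ^ 18 - a.1 * a.2 ^ 3 * b.1 ^ 3 * b.2 * c.1 ^ 2 * c.2 ^ 2 * ζ ^ 10 - 2 * a.1 * a.2
    ^ 3 * b.1 ^ 3 * b.2 * c.1 ^ 2 * c.2 ^ 2 * ζ ^ 12 + a.1 * a.2 ^ 3 * b.1 ^ 3 * b.2 * c.1 ^ 2 *
    c.2 ^ 2 * ζ ^ 16 + a.1 * a.2 ^ 3 * b.1 ^ 4 * c.1 * c.2 ^ 3 * ζ ^ 10 + a.1 * a.2 ^ 3 * b.1 ^ 4 *
    c.1 * c.2 ^ 3 * ζ ^ 12 - a.1 ^ 2 * a.2 ^ 2 * b.1 * b.2 ^ 3 * c.1 ^ 3 * c.2 * ζ ^ 10 - 2 * a.1 ^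
    2 * a.2 ^ 2 * b.1 * b.2 ^ 3 * c.1 ^ 3 * c.2 * ζ ^ 12 + a.1 ^ 2 * a.2 ^ 2 * b.1 * b.2 ^ 3 * c.1
    ^ 3 * c.2 * ζ ^ 16 + 3 * a.1 ^ 2 * a.2 ^ 2 * b.1 ^ 2 * b.2 ^ 2 * c.1 ^ 2 * c.2 ^ 2 * ζ ^ 10 + 3
    * a.1 ^ 2 * a.2 ^ 2 * b.1 ^ 2 * b.2 ^ 2 * c.1 ^ 2 * c.2 ^ 2 * ζ ^ 12 + a.1 ^ 2 * a.2 ^ 2 * b.1
    ^ 3 * b.2 * c.1 * c.2 ^ 3 * ζ ^ 6 - 2 * a.1 ^ 2 * a.2 ^ 2 * b.1 ^ 3 * b.2 * c.1 * c.2 ^ 3 * ζ ^
    10 - a.1 ^ 2 * a.2 ^ 2 * b.1 ^ 3 * b.2 * c.1 * c.2 ^ 3 * ζ ^ 12 - a.1 ^ 2 * a.2 ^ 2 * b.1 ^ 4 *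
    c.2 ^ 4 * ζ ^ 6 - a.1 ^ 2 * a.2 ^ 2 * b.2 ^ 4 * c.1 ^ 4 * ζ ^ 16 + a.1 ^ 3 * a.2 * b.1 * b.2 ^
    3 * c.1 ^ 2 * c.2 ^ 2 * ζ ^ 6 - 2 * a.1 ^ 3 * a.2 * b.1 * b.2 ^ 3 * c.1 ^ 2 * c.2 ^ 2 * ζ ^ 10
    - a.1 ^ 3 * a.2 * b.1 * b.2 ^ 3 * c.1 ^ 2 * c.2 ^ 2 * ζ ^ 12 - a.1 ^ 3 * a.2 * b.1 ^ 2 * b.2 ^
    2 * c.1 * c.2 ^ 3 * ζ ^ 4 - 2 * a.1 ^ 3 * a.2 * b.1 ^ 2 * b.2 ^ 2 * c.1 * c.2 ^ 3 * ζ ^ 6 + a.1
    ^ 3 * a.2 * b.1 ^ 2 * b.2 ^ 2 * c.1 * c.2 ^ 3 * ζ ^ 10 + a.1 ^ 3 * a.2 * b.1 ^ 3 * b.2 * c.2 ^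
    4 * ζ ^ 4 + a.1 ^ 3 * a.2 * b.1 ^ 3 * b.2 * c.2 ^ 4 * ζ ^ 6 + a.1 ^ 3 * a.2 * b.2 ^ 4 * c.1 ^ 3
    * c.2 * ζ ^ 10 + a.1 ^ 3 * a.2 * b.2 ^ 4 * c.1 ^ 3 * c.2 * ζ ^ 12 + a.1 ^ 4 * b.1 * b.2 ^ 3 *
    c.1 * c.2 ^ 3 * ζ ^ 4 + a.1 ^ 4 * b.1 * b.2 ^ 3 * c.1 * c.2 ^ 3 * ζ ^ 6 - a.1 ^ 4 * b.1 ^ 2 *
    b.2 ^ 2 * c.2 ^ 4 * ζ ^ 4 - a.1 ^ 4 * b.2 ^ 4 * c.1 ^ 2 * c.2 ^ 2 * ζ ^ 6 - a.2 ^ 4 * b.1 ^ 2 *
    b.2 ^ 2 * c.1 ^ 4 * ζ ^ 18 + a.2 ^ 4 * b.1 ^ 3 * b.2 * c.1 ^ 3 * c.2 * ζ ^ 16 + a.2 ^ 4 * b.1 ^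
    3 * b.2 * c.1 ^ 3 * c.2 * ζ ^ 18 - a.2 ^ 4 * b.1 ^ 4 * c.1 ^ 2 * c.2 ^ 2 * ζ ^ 16) * h8

lemma ident_ybe_oo (a b c : P) (v : Vec) (u : S) (t : St) :
    (R b c * lift (R a c) * R a b) v (cons .o (cons .o (cons u t))) =
      (lift (R a b) * R a c * lift (R b c)) v (cons .o (cons .o (cons u t))) := by
  cases u
  all_goals simp only [Module.End.mul_apply, R_apply, lift_apply, Rf, vv_f, w1_f, w2_f, ul_f, uu_f,
    cr_f, jn_f]
  case o =>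
    linear_combination (a.2 * b.2 * uz * v (cons .m (cons .p (cons .o t))) * ζ ^ 6 - a.2 * b.2 * uz
      * v (cons .p (cons .m (cons .o t))) * ζ ^ 2) * ident_ybe_9 a b c + (a.2 * c.2 * uz * v (cons
      .m (cons .o (cons .p t))) * xc a c + a.2 * c.2 * uz * v (cons .p (cons .o (cons .m t))) * xc
      a c * ζ ^ 4) * ident_ybe_10 a b c + (b.2 * c.2 * uz * v (cons .o (cons .m (cons .p t))) * ζ ^
      6 - b.2 * c.2 * uz * v (cons .o (cons .p (cons .m t))) * ζ ^ 2) * ident_ybe_11 a b c + (-a.1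
      * a.2 * b.2 * c.2 * uz ^ 2 * v (cons .o (cons .m (cons .p t))) * xc a b * xc b c * xe a c *
      xg b c * ζ ^ 10 + a.1 * a.2 * b.2 * c.2 * uz ^ 2 * v (cons .o (cons .p (cons .m t))) * xc a b
      * xc b c * xe a c * xg b c * ζ ^ 6 + a.2 * b.1 * b.2 * c.2 * uz ^ 2 * v (cons .m (cons .o
      (cons .p t))) * xc a b * xc a c * xe a c * xe b c - a.2 * b.1 * b.2 * c.2 * uz ^ 2 * v (cons
      .m (cons .o (cons .p t))) * xc a c * xc b c * xe a b * xe a c + a.2 * b.2 * c.1 * c.2 * uz ^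
      2 * v (cons .m (cons .p (cons .o t))) * xc a b * xc b c * xe a c * xg a b * ζ ^ 10 - a.2 *
      b.2 * c.1 * c.2 * uz ^ 2 * v (cons .p (cons .m (cons .o t))) * xc a b * xc b c * xe a c * xg
      a b * ζ ^ 6 + a.2 * c.2 * dd a b * uz * v (cons .m (cons .o (cons .p t))) * xc a c * xc b c *
      xe b c - a.2 * c.2 * dd b c * uz * v (cons .m (cons .o (cons .p t))) * xc a b * xc a c * xe a
      b) * h8
  case p =>
    linear_combination (b.2 * c.2 * uz * v (cons .p (cons .m (cons .p t))) * xc a c * xc b c * xe a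
      b * ζ ^ 6 - b.2 * c.2 * uz * v (cons .p (cons .p (cons .m t))) * xc a c * xc b c * xe a b * ζ
      ^ 2) * ident_ybe_0 a b c + (-a.1 * b.2 * uz * v (cons .o (cons .p (cons .o t))) * xe a b * ζ
      ^ 2) * ident_ybe_12 a b c + a.1 * c.2 * uz * v (cons .o (cons .o (cons .p t))) * ident_ybe_13
      a b c + (b.2 * c.2 * uz * v (cons .m (cons .p (cons .p t))) * ζ ^ 6 - b.2 * c.2 * uz * v
      (cons .p (cons .m (cons .p t))) * ζ ^ 2) * ident_ybe_14 a b c + (a.1 * a.2 * b.2 * c.2 * uz ^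
      2 * v (cons .p (cons .m (cons .p t))) * xc a c * xc b c * xe a b * xg b c * ζ ^ 6 - a.1 * a.2
      * b.2 * c.2 * uz ^ 2 * v (cons .p (cons .p (cons .m t))) * xc a c * xc b c * xe a b * xg b c
      * ζ ^ 2 - a.1 * b.1 * b.2 * c.2 * uz ^ 2 * v (cons .o (cons .o (cons .p t))) * xc a b * xc a
      c * xc b c * xg a c * ζ ^ 6 + a.1 * b.1 * b.2 * c.2 * uz ^ 2 * v (cons .o (cons .o (cons .p
      t))) * xc a b * xc a c * xc b c * xg a c * ζ ^ 14 + a.1 * b.1 * b.2 * c.2 * uz ^ 2 * v (cons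
      .o (cons .o (cons .p t))) * xc a b * xc b c * xe a c * xf a c * ζ ^ 10 + a.1 * b.2 * c.1 *
      c.2 * uz ^ 2 * v (cons .o (cons .p (cons .o t))) * xc a b * xc a c * xc b c * xe a b * ζ ^ 8
      - b.2 * c.2 * uz * v (cons .m (cons .p (cons .p t))) * xc a b * xc a c * xc b c * xg a b * xg
      a c * ζ ^ 6 + b.2 * c.2 * uz * v (cons .m (cons .p (cons .p t))) * xc a b * xc a c * xc b c *
      xg a b * xg a c * ζ ^ 14 + b.2 * c.2 * uz * v (cons .m (cons .p (cons .p t))) * xc a b * xc b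
      c * xe a c * xf a c * xg a b * ζ ^ 10 + b.2 * c.2 * uz * v (cons .p (cons .m (cons .p t))) *
      xc a b * xc a c * xc b c * xg a b * xg a c * ζ ^ 2 - b.2 * c.2 * uz * v (cons .p (cons .m
      (cons .p t))) * xc a b * xc a c * xc b c * xg a b * xg a c * ζ ^ 10 - b.2 * c.2 * uz * v
      (cons .p (cons .m (cons .p t))) * xc a b * xc b c * xe a c * xf a c * xg a b * ζ ^ 6 - b.2 *
      c.2 * uz * v (cons .p (cons .m (cons .p t))) * xc a c * xc b c * xe a b * xf a b * xg a c * ζ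
      ^ 6 + b.2 * c.2 * uz * v (cons .p (cons .p (cons .m t))) * xc a c * xc b c * xe a b * xf a b
      * xg a c * ζ ^ 2) * h8
  case m =>
    linear_combination (b.2 * c.2 * uz * v (cons .m (cons .m (cons .p t))) * xc a c * xc b c * xe a
      b * ζ ^ 6 - b.2 * c.2 * uz * v (cons .m (cons .p (cons .m t))) * xc a c * xc b c * xe a b * ζ
      ^ 2) * ident_ybe_0 a b c + (-a.1 * b.2 * uz * v (cons .o (cons .m (cons .o t))) * xe a b * ζ
      ^ 2) * ident_ybe_12 a b c + a.1 * c.2 * uz * v (cons .o (cons .o (cons .m t))) * ident_ybe_13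
      a b c + (b.2 * c.2 * uz * v (cons .m (cons .p (cons .m t))) * ζ ^ 6 - b.2 * c.2 * uz * v
      (cons .p (cons .m (cons .m t))) * ζ ^ 2) * ident_ybe_14 a b c + (a.1 * a.2 * b.2 * c.2 * uz ^
      2 * v (cons .m (cons .m (cons .p t))) * xc a c * xc b c * xe a b * xg b c * ζ ^ 6 - a.1 * a.2
      * b.2 * c.2 * uz ^ 2 * v (cons .m (cons .p (cons .m t))) * xc a c * xc b c * xe a b * xg b c
      * ζ ^ 2 - a.1 * b.1 * b.2 * c.2 * uz ^ 2 * v (cons .o (cons .o (cons .m t))) * xc a b * xc a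
      c * xc b c * xg a c * ζ ^ 6 + a.1 * b.1 * b.2 * c.2 * uz ^ 2 * v (cons .o (cons .o (cons .m
      t))) * xc a b * xc a c * xc b c * xg a c * ζ ^ 14 + a.1 * b.1 * b.2 * c.2 * uz ^ 2 * v (cons
      .o (cons .o (cons .m t))) * xc a b * xc b c * xe a c * xf a c * ζ ^ 10 + a.1 * b.2 * c.1 *
      c.2 * uz ^ 2 * v (cons .o (cons .m (cons .o t))) * xc a b * xc a c * xc b c * xe a b * ζ ^ 8
      - b.2 * c.2 * uz * v (cons .m (cons .m (cons .p t))) * xc a c * xc b c * xe a b * xf a b * xg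
      a c * ζ ^ 6 - b.2 * c.2 * uz * v (cons .m (cons .p (cons .m t))) * xc a b * xc a c * xc b c *
      xg a b * xg a c * ζ ^ 6 + b.2 * c.2 * uz * v (cons .m (cons .p (cons .m t))) * xc a b * xc a
      c * xc b c * xg a b * xg a c * ζ ^ 14 + b.2 * c.2 * uz * v (cons .m (cons .p (cons .m t))) *
      xc a b * xc b c * xe a c * xf a c * xg a b * ζ ^ 10 + b.2 * c.2 * uz * v (cons .m (cons .p
      (cons .m t))) * xc a c * xc b c * xe a b * xf a b * xg a c * ζ ^ 2 + b.2 * c.2 * uz * v (cons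
      .p (cons .m (cons .m t))) * xc a b * xc a c * xc b c * xg a b * xg a c * ζ ^ 2 - b.2 * c.2 *
      uz * v (cons .p (cons .m (cons .m t))) * xc a b * xc a c * xc b c * xg a b * xg a c * ζ ^ 10
      - b.2 * c.2 * uz * v (cons .p (cons .m (cons .m t))) * xc a b * xc b c * xe a c * xf a c * xg
      a b * ζ ^ 6) * h8
  all_goals ring

lemma ident_ybe_op (a b c : P) (v : Vec) (u : S) (t : St) :
    (R b c * lift (R a c) * R a b) v (cons .o (cons .p (cons u t))) =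
      (lift (R a b) * R a c * lift (R b c)) v (cons .o (cons .p (cons u t))) := by
  cases u
  all_goals simp only [Module.End.mul_apply, R_apply, lift_apply, Rf, vv_f, w1_f, w2_f, ul_f, uu_f,
    cr_f, jn_f]
  case o =>
    linear_combination (a.2 * c.2 * uz * v (cons .p (cons .m (cons .p t))) * xc a c * xc b c * xe a
      b + a.2 * c.2 * uz * v (cons .p (cons .p (cons .m t))) * xc a c * xc b c * xe a b * ζ ^ 4) *
      ident_ybe_1 a b c + (a.2 * c.2 * uz * v (cons .m (cons .p (cons .p t))) * xc a b * xc a c *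
      xe b c + a.2 * c.2 * uz * v (cons .p (cons .m (cons .p t))) * xc a b * xc a c * xe b c * ζ ^
      4) * ident_ybe_2 a b c + a.2 * b.1 * uz * v (cons .p (cons .o (cons .o t))) * xe a b * ζ ^ 2
      * ident_ybe_12 a b c + b.1 * c.2 * uz * v (cons .o (cons .o (cons .p t))) * xe b c *
      ident_ybe_15 a b c + (-a.1 * a.2 * b.1 * c.2 * uz ^ 2 * v (cons .o (cons .o (cons .p t))) *
      xc a b * xc a c * xc b c * xe b c + a.1 * a.2 * b.1 * c.2 * uz ^ 2 * v (cons .o (cons .o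
      (cons .p t))) * xc a b * xc a c * xc b c * xe b c * ζ ^ 8 - a.2 * b.1 * b.2 * c.2 * uz ^ 2 *
      v (cons .m (cons .p (cons .p t))) * xc a b * xc a c * xe a c * xe b c + a.2 * b.1 * b.2 * c.2
      * uz ^ 2 * v (cons .p (cons .m (cons .p t))) * xc a c * xc b c * xe a b * xe a c - a.2 * b.1
      * c.1 * c.2 * uz ^ 2 * v (cons .p (cons .o (cons .o t))) * xc a b * xc a c * xc b c * xe a b
      * ζ ^ 8 - a.2 * c.2 * uz * v (cons .m (cons .p (cons .p t))) * xc a b * xc a c * xc b c * xe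
      b c * xg a b + a.2 * c.2 * uz * v (cons .m (cons .p (cons .p t))) * xc a b * xc a c * xc b c
      * xe b c * xg a b * ζ ^ 8 + a.2 * c.2 * uz * v (cons .m (cons .p (cons .p t))) * xc a b * xc
      a c * xe a b * xe b c * xf b c + a.2 * c.2 * uz * v (cons .p (cons .m (cons .p t))) * xc a b
      * xc a c * xc b c * xe a b * xg b c - a.2 * c.2 * uz * v (cons .p (cons .m (cons .p t))) * xc
      a b * xc a c * xc b c * xe a b * xg b c * ζ ^ 8 - a.2 * c.2 * uz * v (cons .p (cons .m (cons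
      .p t))) * xc a b * xc a c * xc b c * xe b c * xg a b * ζ ^ 4 - a.2 * c.2 * uz * v (cons .p
      (cons .m (cons .p t))) * xc a c * xc b c * xe a b * xe b c * xf a b + a.2 * c.2 * uz * v
      (cons .p (cons .p (cons .m t))) * xc a b * xc a c * xc b c * xe a b * xg b c * ζ ^ 4) * h8
  case p =>
    linear_combination (-b.1 * c.2 * uz * v (cons .p (cons .o (cons .p t))) * xe a b * xe a c * xe
      b c * ζ ^ 2) * ident_ybe_3 a b c + a.1 * c.2 * uz * v (cons .o (cons .p (cons .p t))) * xe a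
      b * xe a c * xe b c * ζ ^ 4 * ident_ybe_4 a b c + (a.1 * b.1 * b.2 * c.2 * uz ^ 2 * v (cons
      .o (cons .p (cons .p t))) * xe a b * xe a c * xe b c * xf a c - a.1 * c.2 * uz * v (cons .o
      (cons .p (cons .p t))) * xe a b * xe a c * xe b c * xf a b * xf b c) * h8
  case m =>
    linear_combination (-b.1 * c.2 * uz * v (cons .p (cons .o (cons .m t))) * xe a b * xe a c * xe
      b c * ζ ^ 2) * ident_ybe_3 a b c + a.1 * c.2 * uz * v (cons .o (cons .p (cons .m t))) * xe a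
      b * xe a c * xe b c * ζ ^ 4 * ident_ybe_4 a b c + (-b.1 * c.2 * uz * v (cons .m (cons .o
      (cons .p t))) * xc a b * xc a c * xe b c * ζ ^ 2 - b.1 * c.2 * uz * v (cons .p (cons .o (cons
      .m t))) * xc a b * xc a c * xe b c * ζ ^ 6) * ident_ybe_5 a b c + (-a.1 * b.1 * uz * v (cons
      .o (cons .o (cons .o t)))) * ident_ybe_9 a b c + (a.1 * c.2 * uz * v (cons .o (cons .m (cons
      .p t))) + a.1 * c.2 * uz * v (cons .o (cons .p (cons .m t))) * ζ ^ 4) * ident_ybe_16 a b c +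
      (-a.1 * a.2 * b.1 * c.2 * uz ^ 2 * v (cons .m (cons .o (cons .p t))) * xc a b * xc a c * xc b
      c * xe b c * ζ ^ 8 + a.1 * b.1 * b.2 * c.2 * dd a c * uz ^ 2 * v (cons .o (cons .m (cons .p
      t))) * xc a b * xc b c * ζ ^ 6 - a.1 * b.1 * b.2 * c.2 * uz ^ 2 * v (cons .o (cons .m (cons
      .p t))) * xc a c * xe a b * xe b c * xg a c + a.1 * b.1 * b.2 * c.2 * uz ^ 2 * v (cons .o
      (cons .p (cons .m t))) * xe a b * xe a c * xe b c * xf a c - a.1 * b.1 * c.1 * c.2 * dd a b *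
      uz ^ 2 * v (cons .o (cons .o (cons .o t))) * xc a c * xe b c + a.1 * b.1 * c.1 * c.2 * uz ^ 2
      * v (cons .o (cons .o (cons .o t))) * xc a b * xc b c * xe a c * xg a b * ζ ^ 12 + a.1 * b.1
      * c.1 * c.2 * uz ^ 2 * v (cons .o (cons .o (cons .o t))) * xc b c * xe a b * xe a c * xf a b
      + a.1 * b.1 * dd a c * dd b c * uz * v (cons .o (cons .o (cons .o t))) * xc a b - a.1 * b.1 *
      uz * v (cons .o (cons .o (cons .o t))) * xc a b * xc a c * xc b c * xe a c * xe b c * ζ ^ 4 +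
      a.1 * c.2 * uz * v (cons .o (cons .m (cons .p t))) * xc a b * xc b c * xe a c * xg a b * xg b
      c * ζ ^ 12 + a.1 * c.2 * uz * v (cons .o (cons .m (cons .p t))) * xc a b * xe a c * xe b c *
      xf b c * xg a b + a.1 * c.2 * uz * v (cons .o (cons .m (cons .p t))) * xc b c * xe a b * xe a
      c * xf a b * xg b c - a.1 * c.2 * uz * v (cons .o (cons .p (cons .m t))) * xc a b * xc b c *
      xe a c * xg a b * xg b c * ζ ^ 8 - a.1 * c.2 * uz * v (cons .o (cons .p (cons .m t))) * xe a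
      b * xe a c * xe b c * xf a b * xf b c + b.1 * c.2 * uz * v (cons .m (cons .o (cons .p t))) *
      xc a b * xc a c * xe a b * xe b c * xg a c * ζ ^ 2 - b.1 * c.2 * uz * v (cons .m (cons .o
      (cons .p t))) * xc a b * xc a c * xe a c * xe b c * xg a b * ζ ^ 2) * h8
  all_goals ring

lemma ident_ybe_om (a b c : P) (v : Vec) (u : S) (t : St) :
    (R b c * lift (R a c) * R a b) v (cons .o (cons .m (cons u t))) =
      (lift (R a b) * R a c * lift (R b c)) v (cons .o (cons .m (cons u t))) := by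
  cases u
  all_goals simp only [Module.End.mul_apply, R_apply, lift_apply, Rf, vv_f, w1_f, w2_f, ul_f, uu_f,
    cr_f, jn_f]
  case o =>
    linear_combination (a.2 * c.2 * uz * v (cons .m (cons .m (cons .p t))) * xc a c * xc b c * xe a
      b + a.2 * c.2 * uz * v (cons .m (cons .p (cons .m t))) * xc a c * xc b c * xe a b * ζ ^ 4) *
      ident_ybe_1 a b c + (a.2 * c.2 * uz * v (cons .m (cons .p (cons .m t))) * xc a b * xc a c *
      xe b c + a.2 * c.2 * uz * v (cons .p (cons .m (cons .m t))) * xc a b * xc a c * xe b c * ζ ^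
      4) * ident_ybe_2 a b c + a.2 * b.1 * uz * v (cons .m (cons .o (cons .o t))) * xe a b * ζ ^ 2
      * ident_ybe_12 a b c + b.1 * c.2 * uz * v (cons .o (cons .o (cons .m t))) * xe b c *
      ident_ybe_15 a b c + (-a.1 * a.2 * b.1 * c.2 * uz ^ 2 * v (cons .o (cons .o (cons .m t))) *
      xc a b * xc a c * xc b c * xe b c + a.1 * a.2 * b.1 * c.2 * uz ^ 2 * v (cons .o (cons .o
      (cons .m t))) * xc a b * xc a c * xc b c * xe b c * ζ ^ 8 + a.2 * b.1 * b.2 * c.2 * uz ^ 2 *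
      v (cons .m (cons .m (cons .p t))) * xc a c * xc b c * xe a b * xe a c - a.2 * b.1 * b.2 * c.2
      * uz ^ 2 * v (cons .m (cons .p (cons .m t))) * xc a b * xc a c * xe a c * xe b c - a.2 * b.1
      * c.1 * c.2 * uz ^ 2 * v (cons .m (cons .o (cons .o t))) * xc a b * xc a c * xc b c * xe a b
      * ζ ^ 8 + a.2 * c.2 * uz * v (cons .m (cons .m (cons .p t))) * xc a b * xc a c * xc b c * xe
      a b * xg b c - a.2 * c.2 * uz * v (cons .m (cons .m (cons .p t))) * xc a b * xc a c * xc b c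
      * xe a b * xg b c * ζ ^ 8 - a.2 * c.2 * uz * v (cons .m (cons .m (cons .p t))) * xc a c * xc
      b c * xe a b * xe b c * xf a b + a.2 * c.2 * uz * v (cons .m (cons .p (cons .m t))) * xc a b
      * xc a c * xc b c * xe a b * xg b c * ζ ^ 4 - a.2 * c.2 * uz * v (cons .m (cons .p (cons .m
      t))) * xc a b * xc a c * xc b c * xe b c * xg a b + a.2 * c.2 * uz * v (cons .m (cons .p
      (cons .m t))) * xc a b * xc a c * xc b c * xe b c * xg a b * ζ ^ 8 + a.2 * c.2 * uz * v (cons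
      .m (cons .p (cons .m t))) * xc a b * xc a c * xe a b * xe b c * xf b c - a.2 * c.2 * uz * v
      (cons .p (cons .m (cons .m t))) * xc a b * xc a c * xc b c * xe b c * xg a b * ζ ^ 4) * h8
  case p =>
    linear_combination (-b.1 * c.2 * uz * v (cons .m (cons .o (cons .p t))) * xe a b * xe a c * xe
      b c * ζ ^ 2) * ident_ybe_3 a b c + a.1 * c.2 * uz * v (cons .o (cons .m (cons .p t))) * xe a
      b * xe a c * xe b c * ζ ^ 4 * ident_ybe_4 a b c + (b.1 * c.2 * uz * v (cons .m (cons .o (cons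
      .p t))) * xc a b * xc a c * xe b c * ζ ^ 6 - b.1 * c.2 * uz * v (cons .p (cons .o (cons .m
      t))) * xc a b * xc a c * xe b c * ζ ^ 2) * ident_ybe_5 a b c + a.1 * b.1 * uz * v (cons .o
      (cons .o (cons .o t))) * ζ ^ 4 * ident_ybe_9 a b c + (-a.1 * c.2 * uz * v (cons .o (cons .m
      (cons .p t))) * ζ ^ 4 + a.1 * c.2 * uz * v (cons .o (cons .p (cons .m t)))) * ident_ybe_16 a
      b c + (a.1 * a.2 * b.1 * c.2 * uz ^ 2 * v (cons .m (cons .o (cons .p t))) * xc a b * xc a c *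
      xc b c * xe b c * ζ ^ 12 - a.1 * a.2 * b.1 * c.2 * uz ^ 2 * v (cons .p (cons .o (cons .m t)))
      * xc a b * xc a c * xc b c * xe b c * ζ ^ 8 - a.1 * b.1 * b.2 * c.2 * dd a c * uz ^ 2 * v
      (cons .o (cons .m (cons .p t))) * xc a b * xc b c * ζ ^ 10 + a.1 * b.1 * b.2 * c.2 * dd a c *
      uz ^ 2 * v (cons .o (cons .p (cons .m t))) * xc a b * xc b c * ζ ^ 6 + a.1 * b.1 * b.2 * c.2
      * uz ^ 2 * v (cons .o (cons .m (cons .p t))) * xc a c * xe a b * xe b c * xg a c * ζ ^ 4 +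
      a.1 * b.1 * b.2 * c.2 * uz ^ 2 * v (cons .o (cons .m (cons .p t))) * xe a b * xe a c * xe b c
      * xf a c - a.1 * b.1 * b.2 * c.2 * uz ^ 2 * v (cons .o (cons .p (cons .m t))) * xc a c * xe a
      b * xe b c * xg a c + a.1 * b.1 * c.1 * c.2 * dd a b * uz ^ 2 * v (cons .o (cons .o (cons .o
      t))) * xc a c * xe b c * ζ ^ 4 - a.1 * b.1 * c.1 * c.2 * uz ^ 2 * v (cons .o (cons .o (cons
      .o t))) * xc a b * xc b c * xe a c * xg a b * ζ ^ 16 - a.1 * b.1 * c.1 * c.2 * uz ^ 2 * v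
      (cons .o (cons .o (cons .o t))) * xc b c * xe a b * xe a c * xf a b * ζ ^ 4 - a.1 * b.1 * dd
      a c * dd b c * uz * v (cons .o (cons .o (cons .o t))) * xc a b * ζ ^ 4 + a.1 * b.1 * uz * v
      (cons .o (cons .o (cons .o t))) * xc a b * xc a c * xc b c * xe a c * xe b c * ζ ^ 8 - a.1 *
      c.2 * uz * v (cons .o (cons .m (cons .p t))) * xc a b * xc b c * xe a c * xg a b * xg b c * ζ
      ^ 16 - a.1 * c.2 * uz * v (cons .o (cons .m (cons .p t))) * xc a b * xe a c * xe b c * xf b c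
      * xg a b * ζ ^ 4 - a.1 * c.2 * uz * v (cons .o (cons .m (cons .p t))) * xc b c * xe a b * xe
      a c * xf a b * xg b c * ζ ^ 4 - a.1 * c.2 * uz * v (cons .o (cons .m (cons .p t))) * xe a b *
      xe a c * xe b c * xf a b * xf b c + a.1 * c.2 * uz * v (cons .o (cons .p (cons .m t))) * xc a
      b * xc b c * xe a c * xg a b * xg b c * ζ ^ 12 + a.1 * c.2 * uz * v (cons .o (cons .p (cons
      .m t))) * xc a b * xe a c * xe b c * xf b c * xg a b + a.1 * c.2 * uz * v (cons .o (cons .p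
      (cons .m t))) * xc b c * xe a b * xe a c * xf a b * xg b c - b.1 * c.2 * uz * v (cons .m
      (cons .o (cons .p t))) * xc a b * xc a c * xe a b * xe b c * xg a c * ζ ^ 6 + b.1 * c.2 * uz
      * v (cons .m (cons .o (cons .p t))) * xc a b * xc a c * xe a c * xe b c * xg a b * ζ ^ 6 +
      b.1 * c.2 * uz * v (cons .p (cons .o (cons .m t))) * xc a b * xc a c * xe a b * xe b c * xg a
      c * ζ ^ 2 - b.1 * c.2 * uz * v (cons .p (cons .o (cons .m t))) * xc a b * xc a c * xe a c *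
      xe b c * xg a b * ζ ^ 2) * h8
  case m =>
    linear_combination (-b.1 * c.2 * uz * v (cons .m (cons .o (cons .m t))) * xe a b * xe a c * xe
      b c * ζ ^ 2) * ident_ybe_3 a b c + a.1 * c.2 * uz * v (cons .o (cons .m (cons .m t))) * xe a
      b * xe a c * xe b c * ζ ^ 4 * ident_ybe_4 a b c + (a.1 * b.1 * b.2 * c.2 * uz ^ 2 * v (cons
      .o (cons .m (cons .m t))) * xe a b * xe a c * xe b c * xf a c - a.1 * c.2 * uz * v (cons .o
      (cons .m (cons .m t))) * xe a b * xe a c * xe b c * xf a b * xf b c) * h8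
  all_goals ring

lemma ident_ybe_po (a b c : P) (v : Vec) (u : S) (t : St) :
    (R b c * lift (R a c) * R a b) v (cons .p (cons .o (cons u t))) =
      (lift (R a b) * R a c * lift (R b c)) v (cons .p (cons .o (cons u t))) := by
  cases u
  all_goals simp only [Module.End.mul_apply, R_apply, lift_apply, Rf, vv_f, w1_f, w2_f, ul_f, uu_f,
    cr_f, jn_f]
  case o =>
    linear_combination (a.2 * b.2 * uz * v (cons .m (cons .p (cons .p t))) * xc a b * xc a c * xe b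
      c * ζ ^ 6 - a.2 * b.2 * uz * v (cons .p (cons .m (cons .p t))) * xc a b * xc a c * xe b c * ζ
      ^ 2) * ident_ybe_6 a b c + (-a.2 * c.1 * uz * v (cons .p (cons .o (cons .o t)))) *
      ident_ybe_13 a b c + (-b.2 * c.1 * uz * v (cons .o (cons .p (cons .o t))) * xe b c) *
      ident_ybe_15 a b c + (a.2 * b.2 * uz * v (cons .p (cons .m (cons .p t))) * ζ ^ 6 - a.2 * b.2
      * uz * v (cons .p (cons .p (cons .m t))) * ζ ^ 2) * ident_ybe_17 a b c + (a.1 * a.2 * b.2 *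
      c.1 * uz ^ 2 * v (cons .o (cons .p (cons .o t))) * xc a b * xc a c * xc b c * xe b c - a.1 *
      a.2 * b.2 * c.1 * uz ^ 2 * v (cons .o (cons .p (cons .o t))) * xc a b * xc a c * xc b c * xe
      b c * ζ ^ 8 + a.2 * b.1 * b.2 * c.1 * uz ^ 2 * v (cons .p (cons .o (cons .o t))) * xc a b *
      xc a c * xc b c * xg a c * ζ ^ 6 - a.2 * b.1 * b.2 * c.1 * uz ^ 2 * v (cons .p (cons .o (cons
      .o t))) * xc a b * xc a c * xc b c * xg a c * ζ ^ 14 - a.2 * b.1 * b.2 * c.1 * uz ^ 2 * v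
      (cons .p (cons .o (cons .o t))) * xc a b * xc b c * xe a c * xf a c * ζ ^ 10 - a.2 * b.2 *
      c.1 * c.2 * uz ^ 2 * v (cons .m (cons .p (cons .p t))) * xc a b * xc a c * xe b c * xg a b *
      ζ ^ 6 + a.2 * b.2 * c.1 * c.2 * uz ^ 2 * v (cons .p (cons .m (cons .p t))) * xc a b * xc a c
      * xe b c * xg a b * ζ ^ 2 + a.2 * b.2 * uz * v (cons .m (cons .p (cons .p t))) * xc a b * xc
      a c * xe b c * xf b c * xg a c * ζ ^ 6 + a.2 * b.2 * uz * v (cons .p (cons .m (cons .p t))) *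
      xc a b * xc a c * xc b c * xg a c * xg b c * ζ ^ 6 - a.2 * b.2 * uz * v (cons .p (cons .m
      (cons .p t))) * xc a b * xc a c * xc b c * xg a c * xg b c * ζ ^ 14 - a.2 * b.2 * uz * v
      (cons .p (cons .m (cons .p t))) * xc a b * xc a c * xe b c * xf b c * xg a c * ζ ^ 2 - a.2 *
      b.2 * uz * v (cons .p (cons .m (cons .p t))) * xc a b * xc b c * xe a c * xf a c * xg b c * ζ
      ^ 10 - a.2 * b.2 * uz * v (cons .p (cons .p (cons .m t))) * xc a b * xc a c * xc b c * xg a c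
      * xg b c * ζ ^ 2 + a.2 * b.2 * uz * v (cons .p (cons .p (cons .m t))) * xc a b * xc a c * xc
      b c * xg a c * xg b c * ζ ^ 10 + a.2 * b.2 * uz * v (cons .p (cons .p (cons .m t))) * xc a b
      * xc b c * xe a c * xf a c * xg b c * ζ ^ 6) * h8
  case p =>
    linear_combination b.2 * c.1 * uz * v (cons .p (cons .p (cons .o t))) * xe a b * xe a c * xe b
      c * ζ ^ 2 * ident_ybe_3 a b c + (-a.1 * b.2 * uz * v (cons .o (cons .p (cons .p t))) * xe a b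
      * xe a c * xe b c * ζ ^ 2) * ident_ybe_7 a b c
  case m =>
    linear_combination b.2 * c.1 * uz * v (cons .p (cons .m (cons .o t))) * xe a b * xe a c * xe b
      c * ζ ^ 2 * ident_ybe_3 a b c + (b.2 * c.1 * uz * v (cons .m (cons .p (cons .o t))) * xc a b
      * xc a c * xe b c * ζ ^ 2 + b.2 * c.1 * uz * v (cons .p (cons .m (cons .o t))) * xc a b * xc
      a c * xe b c * ζ ^ 6) * ident_ybe_5 a b c + (-a.1 * b.2 * uz * v (cons .o (cons .p (cons .m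
      t))) * xe a b * xe a c * xe b c * ζ ^ 2) * ident_ybe_7 a b c + (-a.1 * b.2 * uz * v (cons .o
      (cons .m (cons .p t))) * xc a c * xc b c * xe a b * ζ ^ 2 - a.1 * b.2 * uz * v (cons .o (cons
      .p (cons .m t))) * xc a c * xc b c * xe a b * ζ ^ 6) * ident_ybe_8 a b c + a.1 * c.1 * uz * v
      (cons .o (cons .o (cons .o t))) * xc a c * ζ ^ 2 * ident_ybe_10 a b c + (a.1 * a.2 * b.2 *
      c.1 * uz ^ 2 * v (cons .m (cons .p (cons .o t))) * xc a b * xc a c * xc b c * xe b c * ζ ^ 8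
      + a.1 * b.1 * b.2 * c.1 * uz ^ 2 * v (cons .o (cons .o (cons .o t))) * xc a b * xc a c * xe a
      c * xe b c * ζ ^ 2 - a.1 * b.1 * b.2 * c.1 * uz ^ 2 * v (cons .o (cons .o (cons .o t))) * xc
      a c * xc b c * xe a b * xe a c * ζ ^ 2 - a.1 * b.2 * c.1 * c.2 * uz ^ 2 * v (cons .o (cons .m
      (cons .p t))) * xc a b * xc a c * xc b c * xe a b * ζ ^ 8 - a.1 * b.2 * uz * v (cons .o (cons
      .m (cons .p t))) * xc a c * xc b c * xe a b * xe a c * xg b c * ζ ^ 2 + a.1 * b.2 * uz * v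
      (cons .o (cons .m (cons .p t))) * xc a c * xc b c * xe a b * xe b c * xg a c * ζ ^ 2 + a.1 *
      c.1 * dd a b * uz * v (cons .o (cons .o (cons .o t))) * xc a c * xc b c * xe b c * ζ ^ 2 -
      a.1 * c.1 * dd b c * uz * v (cons .o (cons .o (cons .o t))) * xc a b * xc a c * xe a b * ζ ^
      2 - b.2 * c.1 * uz * v (cons .m (cons .p (cons .o t))) * xc a b * xc a c * xe a b * xe b c *
      xg a c * ζ ^ 2 + b.2 * c.1 * uz * v (cons .m (cons .p (cons .o t))) * xc a b * xc a c * xe a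
      c * xe b c * xg a b * ζ ^ 2) * h8
  all_goals ring

lemma ident_ybe_pp (a b c : P) (v : Vec) (u : S) (t : St) :
    (R b c * lift (R a c) * R a b) v (cons .p (cons .p (cons u t))) =
      (lift (R a b) * R a c * lift (R b c)) v (cons .p (cons .p (cons u t))) := by
  cases u
  all_goals simp only [Module.End.mul_apply, R_apply, lift_apply, Rf, vv_f, w1_f, w2_f, ul_f, uu_f,
    cr_f, jn_f]
  case o =>
    linear_combination (-a.2 * c.1 * uz * v (cons .p (cons .p (cons .o t))) * xe a b * xe a c * xe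
      b c * ζ ^ 4) * ident_ybe_4 a b c + a.2 * b.1 * uz * v (cons .p (cons .o (cons .p t))) * xe a
      b * xe a c * xe b c * ζ ^ 2 * ident_ybe_7 a b c + (-a.2 * b.1 * b.2 * c.1 * uz ^ 2 * v (cons
      .p (cons .p (cons .o t))) * xe a b * xe a c * xe b c * xf a c + a.2 * c.1 * uz * v (cons .p
      (cons .p (cons .o t))) * xe a b * xe a c * xe b c * xf a b * xf b c) * h8
  case m =>
    linear_combination a.1 * c.1 * uz * v (cons .o (cons .p (cons .o t))) * xc a b * xc a c * xe b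
      c * ζ ^ 2 * ident_ybe_2 a b c + (-a.1 * b.1 * uz * v (cons .o (cons .o (cons .p t))) * xc a b
      * xc a c * xe b c) * ident_ybe_6 a b c + (-b.1 * c.1 * uz * v (cons .p (cons .o (cons .o
      t)))) * ident_ybe_14 a b c + (v (cons .p (cons .m (cons .p t))) + v (cons .p (cons .p (cons
      .m t))) * ζ ^ 4) * ident_ybe_18 a b c + (a.1 * a.2 * b.1 * b.2 * c.1 * c.2 * uz ^ 3 * v (cons
      .p (cons .m (cons .p t))) * xc a b * xc b c * xe a c * ζ ^ 6 + a.1 * a.2 * b.1 * c.1 * dd b c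
      * uz ^ 2 * v (cons .p (cons .o (cons .o t))) * xc a b * xe a c - a.1 * a.2 * b.1 * c.1 * uz ^
      2 * v (cons .p (cons .o (cons .o t))) * xc a c * xe a b * xe b c * xf b c - a.1 * b.1 * b.2 *
      c.1 * uz ^ 2 * v (cons .o (cons .p (cons .o t))) * xc a b * xc a c * xe a c * xe b c * ζ ^ 2
      + a.1 * b.1 * c.1 * c.2 * uz ^ 2 * v (cons .o (cons .o (cons .p t))) * xc a b * xc a c * xe b
      c * xg a b - a.1 * b.1 * c.1 * c.2 * uz ^ 2 * v (cons .o (cons .o (cons .p t))) * xc a b * xc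
      a c * xe b c * xg a b * ζ ^ 8 + a.1 * b.1 * uz * v (cons .o (cons .o (cons .p t))) * xc a b *
      xc a c * xc b c * xe a c * xe b c * ζ ^ 4 - a.1 * b.1 * uz * v (cons .o (cons .o (cons .p
      t))) * xc a b * xc a c * xe b c * xf b c * xg a c + a.1 * b.1 * uz * v (cons .o (cons .o
      (cons .p t))) * xc a b * xc a c * xe b c * xf b c * xg a c * ζ ^ 8 - a.1 * c.1 * uz * v (cons
      .o (cons .p (cons .o t))) * xc a b * xc a c * xc b c * xe b c * xg a b * ζ ^ 2 + a.1 * c.1 *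
      uz * v (cons .o (cons .p (cons .o t))) * xc a b * xc a c * xc b c * xe b c * xg a b * ζ ^ 10
      + a.1 * c.1 * uz * v (cons .o (cons .p (cons .o t))) * xc a b * xc a c * xe a b * xe b c * xf
      b c * ζ ^ 2 + b.1 * c.1 * uz * v (cons .p (cons .o (cons .o t))) * xc a b * xc a c * xc b c *
      xg a b * xg a c - b.1 * c.1 * uz * v (cons .p (cons .o (cons .o t))) * xc a b * xc a c * xc b
      c * xg a b * xg a c * ζ ^ 8 + b.1 * c.1 * uz * v (cons .p (cons .o (cons .o t))) * xc a b *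
      xc a c * xc b c * xg a b * xg a c * ζ ^ 16 + b.1 * c.1 * uz * v (cons .p (cons .o (cons .o
      t))) * xc a b * xc b c * xe a c * xf a c * xg a b * ζ ^ 12 + b.1 * c.1 * uz * v (cons .p
      (cons .o (cons .o t))) * xc b c * xe a b * xe a c * xf a b * xf a c + v (cons .p (cons .m
      (cons .p t))) * xc a b * xc a c * xc b c * xg a b * xg a c * xg b c - v (cons .p (cons .m
      (cons .p t))) * xc a b * xc a c * xc b c * xg a b * xg a c * xg b c * ζ ^ 8 + v (cons .p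
      (cons .m (cons .p t))) * xc a b * xc a c * xc b c * xg a b * xg a c * xg b c * ζ ^ 16 + v
      (cons .p (cons .m (cons .p t))) * xc a b * xc b c * xe a c * xf a c * xg a b * xg b c * ζ ^
      12 + v (cons .p (cons .m (cons .p t))) * xc a b * xe a c * xe b c * xf a c * xf b c * xg a b
      - v (cons .p (cons .m (cons .p t))) * xc a c * xe a b * xe b c * xf a b * xf b c * xg a c + v
      (cons .p (cons .m (cons .p t))) * xc b c * xe a b * xe a c * xf a b * xf a c * xg b c + v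
      (cons .p (cons .p (cons .m t))) * xc a b * xc a c * xc b c * xg a b * xg a c * xg b c * ζ ^ 4
      - v (cons .p (cons .p (cons .m t))) * xc a b * xc a c * xc b c * xg a b * xg a c * xg b c * ζ
      ^ 12 - v (cons .p (cons .p (cons .m t))) * xc a b * xc b c * xe a c * xf a c * xg a b * xg b
      c * ζ ^ 8) * h8
  all_goals ring

lemma ident_ybe_pm (a b c : P) (v : Vec) (u : S) (t : St) :
    (R b c * lift (R a c) * R a b) v (cons .p (cons .m (cons u t))) =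
      (lift (R a b) * R a c * lift (R b c)) v (cons .p (cons .m (cons u t))) := by
  cases u
  all_goals simp only [Module.End.mul_apply, R_apply, lift_apply, Rf, vv_f, w1_f, w2_f, ul_f, uu_f,
    cr_f, jn_f]
  case o =>
    linear_combination (-a.2 * c.1 * uz * v (cons .p (cons .m (cons .o t))) * xe a b * xe a c * xe
      b c * ζ ^ 4) * ident_ybe_4 a b c + a.2 * b.1 * uz * v (cons .p (cons .o (cons .m t))) * xe a
      b * xe a c * xe b c * ζ ^ 2 * ident_ybe_7 a b c + (a.2 * b.1 * uz * v (cons .m (cons .o (cons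
      .p t))) * xc a c * xc b c * xe a b * ζ ^ 2 + a.2 * b.1 * uz * v (cons .p (cons .o (cons .m
      t))) * xc a c * xc b c * xe a b * ζ ^ 6) * ident_ybe_8 a b c + (-b.1 * c.1 * uz * v (cons .o
      (cons .o (cons .o t)))) * ident_ybe_11 a b c + (-a.2 * c.1 * uz * v (cons .m (cons .p (cons
      .o t))) - a.2 * c.1 * uz * v (cons .p (cons .m (cons .o t))) * ζ ^ 4) * ident_ybe_16 a b c +
      (a.1 * a.2 * b.1 * c.1 * dd b c * uz ^ 2 * v (cons .o (cons .o (cons .o t))) * xc a c * xe a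
      b - a.1 * a.2 * b.1 * c.1 * uz ^ 2 * v (cons .o (cons .o (cons .o t))) * xc a b * xc b c * xe
      a c * xg b c * ζ ^ 12 - a.1 * a.2 * b.1 * c.1 * uz ^ 2 * v (cons .o (cons .o (cons .o t))) *
      xc a b * xe a c * xe b c * xf b c - a.2 * b.1 * b.2 * c.1 * dd a c * uz ^ 2 * v (cons .m
      (cons .p (cons .o t))) * xc a b * xc b c * ζ ^ 6 + a.2 * b.1 * b.2 * c.1 * uz ^ 2 * v (cons
      .m (cons .p (cons .o t))) * xc a c * xe a b * xe b c * xg a c - a.2 * b.1 * b.2 * c.1 * uz ^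
      2 * v (cons .p (cons .m (cons .o t))) * xe a b * xe a c * xe b c * xf a c + a.2 * b.1 * c.1 *
      c.2 * uz ^ 2 * v (cons .m (cons .o (cons .p t))) * xc a b * xc a c * xc b c * xe a b * ζ ^ 8
      + a.2 * b.1 * uz * v (cons .m (cons .o (cons .p t))) * xc a c * xc b c * xe a b * xe a c * xg
      b c * ζ ^ 2 - a.2 * b.1 * uz * v (cons .m (cons .o (cons .p t))) * xc a c * xc b c * xe a b *
      xe b c * xg a c * ζ ^ 2 - a.2 * c.1 * uz * v (cons .m (cons .p (cons .o t))) * xc a b * xc b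
      c * xe a c * xg a b * xg b c * ζ ^ 12 - a.2 * c.1 * uz * v (cons .m (cons .p (cons .o t))) *
      xc a b * xe a c * xe b c * xf b c * xg a b - a.2 * c.1 * uz * v (cons .m (cons .p (cons .o
      t))) * xc b c * xe a b * xe a c * xf a b * xg b c + a.2 * c.1 * uz * v (cons .p (cons .m
      (cons .o t))) * xc a b * xc b c * xe a c * xg a b * xg b c * ζ ^ 8 + a.2 * c.1 * uz * v (cons
      .p (cons .m (cons .o t))) * xe a b * xe a c * xe b c * xf a b * xf b c - b.1 * c.1 * dd a b *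
      dd a c * uz * v (cons .o (cons .o (cons .o t))) * xc b c + b.1 * c.1 * uz * v (cons .o (cons
      .o (cons .o t))) * xc a b * xc a c * xc b c * xe a b * xe a c * ζ ^ 4) * h8
  case p =>
    linear_combination (-b.1 * c.1 * uz * v (cons .p (cons .o (cons .o t))) * xc a c * xc b c * xe
      a b) * ident_ybe_0 a b c + a.1 * c.1 * uz * v (cons .o (cons .p (cons .o t))) * xc a c * xc b
      c * xe a b * ζ ^ 2 * ident_ybe_1 a b c + (-a.1 * c.1 * uz * v (cons .o (cons .p (cons .o t)))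
      * xc a b * xc a c * xe b c * ζ ^ 6) * ident_ybe_2 a b c + a.1 * b.1 * uz * v (cons .o (cons
      .o (cons .p t))) * xc a b * xc a c * xe b c * ζ ^ 4 * ident_ybe_6 a b c + b.1 * c.1 * uz * v
      (cons .p (cons .o (cons .o t))) * ζ ^ 4 * ident_ybe_14 a b c + (-a.1 * b.1 * uz * v (cons .o
      (cons .o (cons .p t)))) * ident_ybe_17 a b c + (-v (cons .m (cons .p (cons .p t))) - 2 * v
      (cons .p (cons .m (cons .p t))) * ζ ^ 4 + v (cons .p (cons .p (cons .m t)))) * ident_ybe_18 a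
      b c + (-a.1 * a.2 * b.1 * b.2 * c.1 * c.2 * uz ^ 3 * v (cons .m (cons .p (cons .p t))) * xc a
      b * xc b c * xe a c * ζ ^ 6 - a.1 * a.2 * b.1 * b.2 * c.1 * c.2 * uz ^ 3 * v (cons .p (cons
      .m (cons .p t))) * xc a b * xc b c * xe a c * ζ ^ 10 + a.1 * a.2 * b.1 * b.2 * c.1 * c.2 * uz
      ^ 3 * v (cons .p (cons .p (cons .m t))) * xc a b * xc b c * xe a c * ζ ^ 6 - a.1 * a.2 * b.1
      * c.1 * dd b c * uz ^ 2 * v (cons .p (cons .o (cons .o t))) * xc a b * xe a c * ζ ^ 4 - a.1 *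
      a.2 * b.1 * c.1 * uz ^ 2 * v (cons .p (cons .o (cons .o t))) * xc a c * xc b c * xe a b * xg
      b c + a.1 * a.2 * b.1 * c.1 * uz ^ 2 * v (cons .p (cons .o (cons .o t))) * xc a c * xc b c *
      xe a b * xg b c * ζ ^ 8 + a.1 * a.2 * b.1 * c.1 * uz ^ 2 * v (cons .p (cons .o (cons .o t)))
      * xc a c * xe a b * xe b c * xf b c * ζ ^ 4 + a.1 * b.1 * b.2 * c.1 * uz ^ 2 * v (cons .o
      (cons .p (cons .o t))) * xc a b * xc a c * xe a c * xe b c * ζ ^ 6 + a.1 * b.1 * b.2 * c.1 *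
      uz ^ 2 * v (cons .o (cons .p (cons .o t))) * xc a c * xc b c * xe a b * xe a c * ζ ^ 2 - a.1
      * b.1 * c.1 * c.2 * dd a b * uz ^ 2 * v (cons .o (cons .o (cons .p t))) * xc b c * xe a c -
      a.1 * b.1 * c.1 * c.2 * uz ^ 2 * v (cons .o (cons .o (cons .p t))) * xc a b * xc a c * xe b c
      * xg a b * ζ ^ 4 + a.1 * b.1 * c.1 * c.2 * uz ^ 2 * v (cons .o (cons .o (cons .p t))) * xc a
      b * xc a c * xe b c * xg a b * ζ ^ 12 + a.1 * b.1 * c.1 * c.2 * uz ^ 2 * v (cons .o (cons .o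
      (cons .p t))) * xc a c * xe a b * xe b c * xf a b - a.1 * b.1 * uz * v (cons .o (cons .o
      (cons .p t))) * xc a b * xc a c * xc b c * xe a c * xe b c * ζ ^ 8 - a.1 * b.1 * uz * v (cons
      .o (cons .o (cons .p t))) * xc a b * xc a c * xc b c * xg a c * xg b c + a.1 * b.1 * uz * v
      (cons .o (cons .o (cons .p t))) * xc a b * xc a c * xc b c * xg a c * xg b c * ζ ^ 8 - a.1 *
      b.1 * uz * v (cons .o (cons .o (cons .p t))) * xc a b * xc a c * xc b c * xg a c * xg b c * ζ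
      ^ 16 + a.1 * b.1 * uz * v (cons .o (cons .o (cons .p t))) * xc a b * xc a c * xe b c * xf b c
      * xg a c * ζ ^ 4 - a.1 * b.1 * uz * v (cons .o (cons .o (cons .p t))) * xc a b * xc a c * xe
      b c * xf b c * xg a c * ζ ^ 12 - a.1 * b.1 * uz * v (cons .o (cons .o (cons .p t))) * xc a b
      * xc b c * xe a c * xf a c * xg b c * ζ ^ 12 - a.1 * b.1 * uz * v (cons .o (cons .o (cons .p
      t))) * xc a b * xe a c * xe b c * xf a c * xf b c + a.1 * c.1 * uz * v (cons .o (cons .p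
      (cons .o t))) * xc a b * xc a c * xc b c * xe a b * xg b c * ζ ^ 2 - a.1 * c.1 * uz * v (cons
      .o (cons .p (cons .o t))) * xc a b * xc a c * xc b c * xe a b * xg b c * ζ ^ 10 + a.1 * c.1 *
      uz * v (cons .o (cons .p (cons .o t))) * xc a b * xc a c * xc b c * xe b c * xg a b * ζ ^ 6 -
      a.1 * c.1 * uz * v (cons .o (cons .p (cons .o t))) * xc a b * xc a c * xc b c * xe b c * xg a
      b * ζ ^ 14 - a.1 * c.1 * uz * v (cons .o (cons .p (cons .o t))) * xc a b * xc a c * xe a b *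
      xe b c * xf b c * ζ ^ 6 - a.1 * c.1 * uz * v (cons .o (cons .p (cons .o t))) * xc a c * xc b
      c * xe a b * xe b c * xf a b * ζ ^ 2 - b.1 * c.1 * uz * v (cons .p (cons .o (cons .o t))) *
      xc a b * xc a c * xc b c * xe a b * xe a c * ζ ^ 4 - b.1 * c.1 * uz * v (cons .p (cons .o
      (cons .o t))) * xc a b * xc a c * xc b c * xg a b * xg a c * ζ ^ 4 + b.1 * c.1 * uz * v (cons
      .p (cons .o (cons .o t))) * xc a b * xc a c * xc b c * xg a b * xg a c * ζ ^ 12 - b.1 * c.1 *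
      uz * v (cons .p (cons .o (cons .o t))) * xc a b * xc a c * xc b c * xg a b * xg a c * ζ ^ 20
      - b.1 * c.1 * uz * v (cons .p (cons .o (cons .o t))) * xc a b * xc b c * xe a c * xf a c * xg
      a b * ζ ^ 16 + b.1 * c.1 * uz * v (cons .p (cons .o (cons .o t))) * xc a c * xc b c * xe a b
      * xf a b * xg a c - b.1 * c.1 * uz * v (cons .p (cons .o (cons .o t))) * xc a c * xc b c * xe
      a b * xf a b * xg a c * ζ ^ 8 - b.1 * c.1 * uz * v (cons .p (cons .o (cons .o t))) * xc b c *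
      xe a b * xe a c * xf a b * xf a c * ζ ^ 4 - v (cons .m (cons .p (cons .p t))) * xc a b * xc a
      c * xc b c * xg a b * xg a c * xg b c + v (cons .m (cons .p (cons .p t))) * xc a b * xc a c *
      xc b c * xg a b * xg a c * xg b c * ζ ^ 8 - v (cons .m (cons .p (cons .p t))) * xc a b * xc a
      c * xc b c * xg a b * xg a c * xg b c * ζ ^ 16 - v (cons .m (cons .p (cons .p t))) * xc a b *
      xc b c * xe a c * xf a c * xg a b * xg b c * ζ ^ 12 - v (cons .m (cons .p (cons .p t))) * xc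
      a b * xe a c * xe b c * xf a c * xf b c * xg a b + v (cons .m (cons .p (cons .p t))) * xc a c
      * xe a b * xe b c * xf a b * xf b c * xg a c - v (cons .m (cons .p (cons .p t))) * xc b c *
      xe a b * xe a c * xf a b * xf a c * xg b c - 2 * v (cons .p (cons .m (cons .p t))) * xc a b *
      xc a c * xc b c * xg a b * xg a c * xg b c * ζ ^ 4 + 2 * v (cons .p (cons .m (cons .p t))) *
      xc a b * xc a c * xc b c * xg a b * xg a c * xg b c * ζ ^ 12 - v (cons .p (cons .m (cons .p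
      t))) * xc a b * xc a c * xc b c * xg a b * xg a c * xg b c * ζ ^ 20 + v (cons .p (cons .m
      (cons .p t))) * xc a b * xc b c * xe a c * xf a c * xg a b * xg b c * ζ ^ 8 - v (cons .p
      (cons .m (cons .p t))) * xc a b * xc b c * xe a c * xf a c * xg a b * xg b c * ζ ^ 16 - v
      (cons .p (cons .m (cons .p t))) * xc a b * xe a c * xe b c * xf a c * xf b c * xg a b * ζ ^ 4
      + v (cons .p (cons .m (cons .p t))) * xc a c * xe a b * xe b c * xf a b * xf b c * xg a c * ζ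
      ^ 4 - v (cons .p (cons .m (cons .p t))) * xc b c * xe a b * xe a c * xf a b * xf a c * xg b c
      * ζ ^ 4 + v (cons .p (cons .p (cons .m t))) * xc a b * xc a c * xc b c * xg a b * xg a c * xg
      b c - v (cons .p (cons .p (cons .m t))) * xc a b * xc a c * xc b c * xg a b * xg a c * xg b c
      * ζ ^ 8 + v (cons .p (cons .p (cons .m t))) * xc a b * xc a c * xc b c * xg a b * xg a c * xg
      b c * ζ ^ 16 + v (cons .p (cons .p (cons .m t))) * xc a b * xc b c * xe a c * xf a c * xg a b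
      * xg b c * ζ ^ 12 + v (cons .p (cons .p (cons .m t))) * xc a b * xe a c * xe b c * xf a c *
      xf b c * xg a b - v (cons .p (cons .p (cons .m t))) * xc a c * xe a b * xe b c * xf a b * xf
      b c * xg a c + v (cons .p (cons .p (cons .m t))) * xc b c * xe a b * xe a c * xf a b * xf a c
      * xg b c) * h8
  case m =>
    linear_combination (-b.1 * c.1 * uz * v (cons .m (cons .o (cons .o t))) * xc a c * xc b c * xe
      a b) * ident_ybe_0 a b c + a.1 * c.1 * uz * v (cons .o (cons .m (cons .o t))) * xc a c * xc b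
      c * xe a b * ζ ^ 2 * ident_ybe_1 a b c + (-a.1 * b.1 * uz * v (cons .o (cons .o (cons .m
      t)))) * ident_ybe_17 a b c + (-v (cons .m (cons .p (cons .m t))) - v (cons .p (cons .m (cons
      .m t))) * ζ ^ 4) * ident_ybe_18 a b c + (-a.1 * a.2 * b.1 * b.2 * c.1 * c.2 * uz ^ 3 * v
      (cons .m (cons .p (cons .m t))) * xc a b * xc b c * xe a c * ζ ^ 6 - a.1 * a.2 * b.1 * c.1 *
      uz ^ 2 * v (cons .m (cons .o (cons .o t))) * xc a c * xc b c * xe a b * xg b c + a.1 * a.2 *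
      b.1 * c.1 * uz ^ 2 * v (cons .m (cons .o (cons .o t))) * xc a c * xc b c * xe a b * xg b c *
      ζ ^ 8 + a.1 * b.1 * b.2 * c.1 * uz ^ 2 * v (cons .o (cons .m (cons .o t))) * xc a c * xc b c
      * xe a b * xe a c * ζ ^ 2 - a.1 * b.1 * c.1 * c.2 * dd a b * uz ^ 2 * v (cons .o (cons .o
      (cons .m t))) * xc b c * xe a c + a.1 * b.1 * c.1 * c.2 * uz ^ 2 * v (cons .o (cons .o (cons
      .m t))) * xc a c * xe a b * xe b c * xf a b - a.1 * b.1 * uz * v (cons .o (cons .o (cons .m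
      t))) * xc a b * xc a c * xc b c * xg a c * xg b c + a.1 * b.1 * uz * v (cons .o (cons .o
      (cons .m t))) * xc a b * xc a c * xc b c * xg a c * xg b c * ζ ^ 8 - a.1 * b.1 * uz * v (cons
      .o (cons .o (cons .m t))) * xc a b * xc a c * xc b c * xg a c * xg b c * ζ ^ 16 - a.1 * b.1 *
      uz * v (cons .o (cons .o (cons .m t))) * xc a b * xc b c * xe a c * xf a c * xg b c * ζ ^ 12
      - a.1 * b.1 * uz * v (cons .o (cons .o (cons .m t))) * xc a b * xe a c * xe b c * xf a c * xf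
      b c + a.1 * c.1 * uz * v (cons .o (cons .m (cons .o t))) * xc a b * xc a c * xc b c * xe a b
      * xg b c * ζ ^ 2 - a.1 * c.1 * uz * v (cons .o (cons .m (cons .o t))) * xc a b * xc a c * xc
      b c * xe a b * xg b c * ζ ^ 10 - a.1 * c.1 * uz * v (cons .o (cons .m (cons .o t))) * xc a c
      * xc b c * xe a b * xe b c * xf a b * ζ ^ 2 - b.1 * c.1 * uz * v (cons .m (cons .o (cons .o
      t))) * xc a b * xc a c * xc b c * xe a b * xe a c * ζ ^ 4 + b.1 * c.1 * uz * v (cons .m (cons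
      .o (cons .o t))) * xc a c * xc b c * xe a b * xf a b * xg a c - b.1 * c.1 * uz * v (cons .m
      (cons .o (cons .o t))) * xc a c * xc b c * xe a b * xf a b * xg a c * ζ ^ 8 - v (cons .m
      (cons .p (cons .m t))) * xc a b * xc a c * xc b c * xg a b * xg a c * xg b c + v (cons .m
      (cons .p (cons .m t))) * xc a b * xc a c * xc b c * xg a b * xg a c * xg b c * ζ ^ 8 - v
      (cons .m (cons .p (cons .m t))) * xc a b * xc a c * xc b c * xg a b * xg a c * xg b c * ζ ^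
      16 - v (cons .m (cons .p (cons .m t))) * xc a b * xc b c * xe a c * xf a c * xg a b * xg b c
      * ζ ^ 12 - v (cons .m (cons .p (cons .m t))) * xc a b * xe a c * xe b c * xf a c * xf b c *
      xg a b + v (cons .m (cons .p (cons .m t))) * xc a c * xe a b * xe b c * xf a b * xf b c * xg
      a c - v (cons .m (cons .p (cons .m t))) * xc b c * xe a b * xe a c * xf a b * xf a c * xg b c
      - v (cons .p (cons .m (cons .m t))) * xc a b * xc a c * xc b c * xg a b * xg a c * xg b c * ζ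
      ^ 4 + v (cons .p (cons .m (cons .m t))) * xc a b * xc a c * xc b c * xg a b * xg a c * xg b c
      * ζ ^ 12 + v (cons .p (cons .m (cons .m t))) * xc a b * xc b c * xe a c * xf a c * xg a b *
      xg b c * ζ ^ 8) * h8
  all_goals ring

lemma ident_ybe_mo (a b c : P) (v : Vec) (u : S) (t : St) :
    (R b c * lift (R a c) * R a b) v (cons .m (cons .o (cons u t))) =
      (lift (R a b) * R a c * lift (R b c)) v (cons .m (cons .o (cons u t))) := by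
  cases u
  all_goals simp only [Module.End.mul_apply, R_apply, lift_apply, Rf, vv_f, w1_f, w2_f, ul_f, uu_f,
    cr_f, jn_f]
  case o =>
    linear_combination (a.2 * b.2 * uz * v (cons .m (cons .p (cons .m t))) * xc a b * xc a c * xe b
      c * ζ ^ 6 - a.2 * b.2 * uz * v (cons .p (cons .m (cons .m t))) * xc a b * xc a c * xe b c * ζ
      ^ 2) * ident_ybe_6 a b c + (-a.2 * c.1 * uz * v (cons .m (cons .o (cons .o t)))) *
      ident_ybe_13 a b c + (-b.2 * c.1 * uz * v (cons .o (cons .m (cons .o t))) * xe b c) *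
      ident_ybe_15 a b c + (a.2 * b.2 * uz * v (cons .m (cons .m (cons .p t))) * ζ ^ 6 - a.2 * b.2
      * uz * v (cons .m (cons .p (cons .m t))) * ζ ^ 2) * ident_ybe_17 a b c + (a.1 * a.2 * b.2 *
      c.1 * uz ^ 2 * v (cons .o (cons .m (cons .o t))) * xc a b * xc a c * xc b c * xe b c - a.1 *
      a.2 * b.2 * c.1 * uz ^ 2 * v (cons .o (cons .m (cons .o t))) * xc a b * xc a c * xc b c * xe
      b c * ζ ^ 8 + a.2 * b.1 * b.2 * c.1 * uz ^ 2 * v (cons .m (cons .o (cons .o t))) * xc a b *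
      xc a c * xc b c * xg a c * ζ ^ 6 - a.2 * b.1 * b.2 * c.1 * uz ^ 2 * v (cons .m (cons .o (cons
      .o t))) * xc a b * xc a c * xc b c * xg a c * ζ ^ 14 - a.2 * b.1 * b.2 * c.1 * uz ^ 2 * v
      (cons .m (cons .o (cons .o t))) * xc a b * xc b c * xe a c * xf a c * ζ ^ 10 - a.2 * b.2 *
      c.1 * c.2 * uz ^ 2 * v (cons .m (cons .p (cons .m t))) * xc a b * xc a c * xe b c * xg a b *
      ζ ^ 6 + a.2 * b.2 * c.1 * c.2 * uz ^ 2 * v (cons .p (cons .m (cons .m t))) * xc a b * xc a c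
      * xe b c * xg a b * ζ ^ 2 + a.2 * b.2 * uz * v (cons .m (cons .m (cons .p t))) * xc a b * xc
      a c * xc b c * xg a c * xg b c * ζ ^ 6 - a.2 * b.2 * uz * v (cons .m (cons .m (cons .p t))) *
      xc a b * xc a c * xc b c * xg a c * xg b c * ζ ^ 14 - a.2 * b.2 * uz * v (cons .m (cons .m
      (cons .p t))) * xc a b * xc b c * xe a c * xf a c * xg b c * ζ ^ 10 - a.2 * b.2 * uz * v
      (cons .m (cons .p (cons .m t))) * xc a b * xc a c * xc b c * xg a c * xg b c * ζ ^ 2 + a.2 *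
      b.2 * uz * v (cons .m (cons .p (cons .m t))) * xc a b * xc a c * xc b c * xg a c * xg b c * ζ
      ^ 10 + a.2 * b.2 * uz * v (cons .m (cons .p (cons .m t))) * xc a b * xc a c * xe b c * xf b c
      * xg a c * ζ ^ 6 + a.2 * b.2 * uz * v (cons .m (cons .p (cons .m t))) * xc a b * xc b c * xe
      a c * xf a c * xg b c * ζ ^ 6 - a.2 * b.2 * uz * v (cons .p (cons .m (cons .m t))) * xc a b *
      xc a c * xe b c * xf b c * xg a c * ζ ^ 2) * h8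
  case p =>
    linear_combination b.2 * c.1 * uz * v (cons .m (cons .p (cons .o t))) * xe a b * xe a c * xe b
      c * ζ ^ 2 * ident_ybe_3 a b c + (-b.2 * c.1 * uz * v (cons .m (cons .p (cons .o t))) * xc a b
      * xc a c * xe b c * ζ ^ 6 + b.2 * c.1 * uz * v (cons .p (cons .m (cons .o t))) * xc a b * xc
      a c * xe b c * ζ ^ 2) * ident_ybe_5 a b c + (-a.1 * b.2 * uz * v (cons .o (cons .m (cons .p
      t))) * xe a b * xe a c * xe b c * ζ ^ 2) * ident_ybe_7 a b c + (a.1 * b.2 * uz * v (cons .o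
      (cons .m (cons .p t))) * xc a c * xc b c * xe a b * ζ ^ 6 - a.1 * b.2 * uz * v (cons .o (cons
      .p (cons .m t))) * xc a c * xc b c * xe a b * ζ ^ 2) * ident_ybe_8 a b c + (-a.1 * c.1 * uz *
      v (cons .o (cons .o (cons .o t))) * xc a c * ζ ^ 6) * ident_ybe_10 a b c + (-a.1 * a.2 * b.2
      * c.1 * uz ^ 2 * v (cons .m (cons .p (cons .o t))) * xc a b * xc a c * xc b c * xe b c * ζ ^
      12 + a.1 * a.2 * b.2 * c.1 * uz ^ 2 * v (cons .p (cons .m (cons .o t))) * xc a b * xc a c *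
      xc b c * xe b c * ζ ^ 8 - a.1 * b.1 * b.2 * c.1 * uz ^ 2 * v (cons .o (cons .o (cons .o t)))
      * xc a b * xc a c * xe a c * xe b c * ζ ^ 6 + a.1 * b.1 * b.2 * c.1 * uz ^ 2 * v (cons .o
      (cons .o (cons .o t))) * xc a c * xc b c * xe a b * xe a c * ζ ^ 6 + a.1 * b.2 * c.1 * c.2 *
      uz ^ 2 * v (cons .o (cons .m (cons .p t))) * xc a b * xc a c * xc b c * xe a b * ζ ^ 12 - a.1
      * b.2 * c.1 * c.2 * uz ^ 2 * v (cons .o (cons .p (cons .m t))) * xc a b * xc a c * xc b c *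
      xe a b * ζ ^ 8 + a.1 * b.2 * uz * v (cons .o (cons .m (cons .p t))) * xc a c * xc b c * xe a
      b * xe a c * xg b c * ζ ^ 6 - a.1 * b.2 * uz * v (cons .o (cons .m (cons .p t))) * xc a c *
      xc b c * xe a b * xe b c * xg a c * ζ ^ 6 - a.1 * b.2 * uz * v (cons .o (cons .p (cons .m
      t))) * xc a c * xc b c * xe a b * xe a c * xg b c * ζ ^ 2 + a.1 * b.2 * uz * v (cons .o (cons
      .p (cons .m t))) * xc a c * xc b c * xe a b * xe b c * xg a c * ζ ^ 2 - a.1 * c.1 * dd a b *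
      uz * v (cons .o (cons .o (cons .o t))) * xc a c * xc b c * xe b c * ζ ^ 6 + a.1 * c.1 * dd b
      c * uz * v (cons .o (cons .o (cons .o t))) * xc a b * xc a c * xe a b * ζ ^ 6 + b.2 * c.1 *
      uz * v (cons .m (cons .p (cons .o t))) * xc a b * xc a c * xe a b * xe b c * xg a c * ζ ^ 6 -
      b.2 * c.1 * uz * v (cons .m (cons .p (cons .o t))) * xc a b * xc a c * xe a c * xe b c * xg a
      b * ζ ^ 6 - b.2 * c.1 * uz * v (cons .p (cons .m (cons .o t))) * xc a b * xc a c * xe a b *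
      xe b c * xg a c * ζ ^ 2 + b.2 * c.1 * uz * v (cons .p (cons .m (cons .o t))) * xc a b * xc a
      c * xe a c * xe b c * xg a b * ζ ^ 2) * h8
  case m =>
    linear_combination b.2 * c.1 * uz * v (cons .m (cons .m (cons .o t))) * xe a b * xe a c * xe b
      c * ζ ^ 2 * ident_ybe_3 a b c + (-a.1 * b.2 * uz * v (cons .o (cons .m (cons .m t))) * xe a b
      * xe a c * xe b c * ζ ^ 2) * ident_ybe_7 a b c
  all_goals ring

lemma ident_ybe_mp (a b c : P) (v : Vec) (u : S) (t : St) :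
    (R b c * lift (R a c) * R a b) v (cons .m (cons .p (cons u t))) =
      (lift (R a b) * R a c * lift (R b c)) v (cons .m (cons .p (cons u t))) := by
  cases u
  all_goals simp only [Module.End.mul_apply, R_apply, lift_apply, Rf, vv_f, w1_f, w2_f, ul_f, uu_f,
    cr_f, jn_f]
  case o =>
    linear_combination (-a.2 * c.1 * uz * v (cons .m (cons .p (cons .o t))) * xe a b * xe a c * xe
      b c * ζ ^ 4) * ident_ybe_4 a b c + a.2 * b.1 * uz * v (cons .m (cons .o (cons .p t))) * xe a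
      b * xe a c * xe b c * ζ ^ 2 * ident_ybe_7 a b c + (-a.2 * b.1 * uz * v (cons .m (cons .o
      (cons .p t))) * xc a c * xc b c * xe a b * ζ ^ 6 + a.2 * b.1 * uz * v (cons .p (cons .o (cons
      .m t))) * xc a c * xc b c * xe a b * ζ ^ 2) * ident_ybe_8 a b c + b.1 * c.1 * uz * v (cons .o
      (cons .o (cons .o t))) * ζ ^ 4 * ident_ybe_11 a b c + (a.2 * c.1 * uz * v (cons .m (cons .p
      (cons .o t))) * ζ ^ 4 - a.2 * c.1 * uz * v (cons .p (cons .m (cons .o t)))) * ident_ybe_16 a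
      b c + (-a.1 * a.2 * b.1 * c.1 * dd b c * uz ^ 2 * v (cons .o (cons .o (cons .o t))) * xc a c
      * xe a b * ζ ^ 4 + a.1 * a.2 * b.1 * c.1 * uz ^ 2 * v (cons .o (cons .o (cons .o t))) * xc a
      b * xc b c * xe a c * xg b c * ζ ^ 16 + a.1 * a.2 * b.1 * c.1 * uz ^ 2 * v (cons .o (cons .o
      (cons .o t))) * xc a b * xe a c * xe b c * xf b c * ζ ^ 4 + a.2 * b.1 * b.2 * c.1 * dd a c *
      uz ^ 2 * v (cons .m (cons .p (cons .o t))) * xc a b * xc b c * ζ ^ 10 - a.2 * b.1 * b.2 * c.1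
      * dd a c * uz ^ 2 * v (cons .p (cons .m (cons .o t))) * xc a b * xc b c * ζ ^ 6 - a.2 * b.1 *
      b.2 * c.1 * uz ^ 2 * v (cons .m (cons .p (cons .o t))) * xc a c * xe a b * xe b c * xg a c *
      ζ ^ 4 - a.2 * b.1 * b.2 * c.1 * uz ^ 2 * v (cons .m (cons .p (cons .o t))) * xe a b * xe a c
      * xe b c * xf a c + a.2 * b.1 * b.2 * c.1 * uz ^ 2 * v (cons .p (cons .m (cons .o t))) * xc a
      c * xe a b * xe b c * xg a c - a.2 * b.1 * c.1 * c.2 * uz ^ 2 * v (cons .m (cons .o (cons .p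
      t))) * xc a b * xc a c * xc b c * xe a b * ζ ^ 12 + a.2 * b.1 * c.1 * c.2 * uz ^ 2 * v (cons
      .p (cons .o (cons .m t))) * xc a b * xc a c * xc b c * xe a b * ζ ^ 8 - a.2 * b.1 * uz * v
      (cons .m (cons .o (cons .p t))) * xc a c * xc b c * xe a b * xe a c * xg b c * ζ ^ 6 + a.2 *
      b.1 * uz * v (cons .m (cons .o (cons .p t))) * xc a c * xc b c * xe a b * xe b c * xg a c * ζ
      ^ 6 + a.2 * b.1 * uz * v (cons .p (cons .o (cons .m t))) * xc a c * xc b c * xe a b * xe a c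
      * xg b c * ζ ^ 2 - a.2 * b.1 * uz * v (cons .p (cons .o (cons .m t))) * xc a c * xc b c * xe
      a b * xe b c * xg a c * ζ ^ 2 + a.2 * c.1 * uz * v (cons .m (cons .p (cons .o t))) * xc a b *
      xc b c * xe a c * xg a b * xg b c * ζ ^ 16 + a.2 * c.1 * uz * v (cons .m (cons .p (cons .o
      t))) * xc a b * xe a c * xe b c * xf b c * xg a b * ζ ^ 4 + a.2 * c.1 * uz * v (cons .m (cons
      .p (cons .o t))) * xc b c * xe a b * xe a c * xf a b * xg b c * ζ ^ 4 + a.2 * c.1 * uz * v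
      (cons .m (cons .p (cons .o t))) * xe a b * xe a c * xe b c * xf a b * xf b c - a.2 * c.1 * uz
      * v (cons .p (cons .m (cons .o t))) * xc a b * xc b c * xe a c * xg a b * xg b c * ζ ^ 12 -
      a.2 * c.1 * uz * v (cons .p (cons .m (cons .o t))) * xc a b * xe a c * xe b c * xf b c * xg a
      b - a.2 * c.1 * uz * v (cons .p (cons .m (cons .o t))) * xc b c * xe a b * xe a c * xf a b *
      xg b c + b.1 * c.1 * dd a b * dd a c * uz * v (cons .o (cons .o (cons .o t))) * xc b c * ζ ^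
      4 - b.1 * c.1 * uz * v (cons .o (cons .o (cons .o t))) * xc a b * xc a c * xc b c * xe a b *
      xe a c * ζ ^ 8) * h8
  case p =>
    linear_combination b.1 * c.1 * uz * v (cons .p (cons .o (cons .o t))) * xc a c * xc b c * xe a
      b * ζ ^ 4 * ident_ybe_0 a b c + (-a.1 * c.1 * uz * v (cons .o (cons .p (cons .o t))) * xc a c
      * xc b c * xe a b * ζ ^ 6) * ident_ybe_1 a b c + a.1 * b.1 * uz * v (cons .o (cons .o (cons
      .p t))) * ζ ^ 4 * ident_ybe_17 a b c + (v (cons .m (cons .p (cons .p t))) * ζ ^ 4 - v (cons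
      .p (cons .m (cons .p t)))) * ident_ybe_18 a b c + (a.1 * a.2 * b.1 * b.2 * c.1 * c.2 * uz ^ 3
      * v (cons .m (cons .p (cons .p t))) * xc a b * xc b c * xe a c * ζ ^ 10 - a.1 * a.2 * b.1 *
      b.2 * c.1 * c.2 * uz ^ 3 * v (cons .p (cons .m (cons .p t))) * xc a b * xc b c * xe a c * ζ ^
      6 + a.1 * a.2 * b.1 * c.1 * uz ^ 2 * v (cons .p (cons .o (cons .o t))) * xc a c * xc b c * xe
      a b * xg b c * ζ ^ 4 - a.1 * a.2 * b.1 * c.1 * uz ^ 2 * v (cons .p (cons .o (cons .o t))) *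
      xc a c * xc b c * xe a b * xg b c * ζ ^ 12 - a.1 * b.1 * b.2 * c.1 * uz ^ 2 * v (cons .o
      (cons .p (cons .o t))) * xc a c * xc b c * xe a b * xe a c * ζ ^ 6 + a.1 * b.1 * c.1 * c.2 *
      dd a b * uz ^ 2 * v (cons .o (cons .o (cons .p t))) * xc b c * xe a c * ζ ^ 4 - a.1 * b.1 *
      c.1 * c.2 * uz ^ 2 * v (cons .o (cons .o (cons .p t))) * xc a c * xe a b * xe b c * xf a b *
      ζ ^ 4 + a.1 * b.1 * uz * v (cons .o (cons .o (cons .p t))) * xc a b * xc a c * xc b c * xg a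
      c * xg b c * ζ ^ 4 - a.1 * b.1 * uz * v (cons .o (cons .o (cons .p t))) * xc a b * xc a c *
      xc b c * xg a c * xg b c * ζ ^ 12 + a.1 * b.1 * uz * v (cons .o (cons .o (cons .p t))) * xc a
      b * xc a c * xc b c * xg a c * xg b c * ζ ^ 20 + a.1 * b.1 * uz * v (cons .o (cons .o (cons
      .p t))) * xc a b * xc b c * xe a c * xf a c * xg b c * ζ ^ 16 + a.1 * b.1 * uz * v (cons .o
      (cons .o (cons .p t))) * xc a b * xe a c * xe b c * xf a c * xf b c * ζ ^ 4 - a.1 * c.1 * uz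
      * v (cons .o (cons .p (cons .o t))) * xc a b * xc a c * xc b c * xe a b * xg b c * ζ ^ 6 +
      a.1 * c.1 * uz * v (cons .o (cons .p (cons .o t))) * xc a b * xc a c * xc b c * xe a b * xg b
      c * ζ ^ 14 + a.1 * c.1 * uz * v (cons .o (cons .p (cons .o t))) * xc a c * xc b c * xe a b *
      xe b c * xf a b * ζ ^ 6 + b.1 * c.1 * uz * v (cons .p (cons .o (cons .o t))) * xc a b * xc a
      c * xc b c * xe a b * xe a c * ζ ^ 8 - b.1 * c.1 * uz * v (cons .p (cons .o (cons .o t))) *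
      xc a c * xc b c * xe a b * xf a b * xg a c * ζ ^ 4 + b.1 * c.1 * uz * v (cons .p (cons .o
      (cons .o t))) * xc a c * xc b c * xe a b * xf a b * xg a c * ζ ^ 12 + v (cons .m (cons .p
      (cons .p t))) * xc a b * xc a c * xc b c * xg a b * xg a c * xg b c * ζ ^ 4 - v (cons .m
      (cons .p (cons .p t))) * xc a b * xc a c * xc b c * xg a b * xg a c * xg b c * ζ ^ 12 + v
      (cons .m (cons .p (cons .p t))) * xc a b * xc a c * xc b c * xg a b * xg a c * xg b c * ζ ^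
      20 + v (cons .m (cons .p (cons .p t))) * xc a b * xc b c * xe a c * xf a c * xg a b * xg b c
      * ζ ^ 16 + v (cons .m (cons .p (cons .p t))) * xc a b * xe a c * xe b c * xf a c * xf b c *
      xg a b * ζ ^ 4 - v (cons .m (cons .p (cons .p t))) * xc a c * xe a b * xe b c * xf a b * xf b
      c * xg a c * ζ ^ 4 + v (cons .m (cons .p (cons .p t))) * xc b c * xe a b * xe a c * xf a b *
      xf a c * xg b c * ζ ^ 4 - v (cons .p (cons .m (cons .p t))) * xc a b * xc a c * xc b c * xg a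
      b * xg a c * xg b c + v (cons .p (cons .m (cons .p t))) * xc a b * xc a c * xc b c * xg a b *
      xg a c * xg b c * ζ ^ 8 - v (cons .p (cons .m (cons .p t))) * xc a b * xc a c * xc b c * xg a
      b * xg a c * xg b c * ζ ^ 16 - v (cons .p (cons .m (cons .p t))) * xc a b * xc b c * xe a c *
      xf a c * xg a b * xg b c * ζ ^ 12 - v (cons .p (cons .m (cons .p t))) * xc a b * xe a c * xe
      b c * xf a c * xf b c * xg a b + v (cons .p (cons .m (cons .p t))) * xc a c * xe a b * xe b c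
      * xf a b * xf b c * xg a c - v (cons .p (cons .m (cons .p t))) * xc b c * xe a b * xe a c *
      xf a b * xf a c * xg b c) * h8
  case m =>
    linear_combination b.1 * c.1 * uz * v (cons .m (cons .o (cons .o t))) * xc a c * xc b c * xe a
      b * ζ ^ 4 * ident_ybe_0 a b c + (-a.1 * c.1 * uz * v (cons .o (cons .m (cons .o t))) * xc a c
      * xc b c * xe a b * ζ ^ 6) * ident_ybe_1 a b c + a.1 * c.1 * uz * v (cons .o (cons .m (cons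
      .o t))) * xc a b * xc a c * xe b c * ζ ^ 2 * ident_ybe_2 a b c + (-a.1 * b.1 * uz * v (cons
      .o (cons .o (cons .m t))) * xc a b * xc a c * xe b c) * ident_ybe_6 a b c + (-b.1 * c.1 * uz
      * v (cons .m (cons .o (cons .o t)))) * ident_ybe_14 a b c + a.1 * b.1 * uz * v (cons .o (cons
      .o (cons .m t))) * ζ ^ 4 * ident_ybe_17 a b c + (v (cons .m (cons .m (cons .p t))) + 2 * v
      (cons .m (cons .p (cons .m t))) * ζ ^ 4 - v (cons .p (cons .m (cons .m t)))) * ident_ybe_18 a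
      b c + (a.1 * a.2 * b.1 * b.2 * c.1 * c.2 * uz ^ 3 * v (cons .m (cons .m (cons .p t))) * xc a
      b * xc b c * xe a c * ζ ^ 6 + a.1 * a.2 * b.1 * b.2 * c.1 * c.2 * uz ^ 3 * v (cons .m (cons
      .p (cons .m t))) * xc a b * xc b c * xe a c * ζ ^ 10 - a.1 * a.2 * b.1 * b.2 * c.1 * c.2 * uz
      ^ 3 * v (cons .p (cons .m (cons .m t))) * xc a b * xc b c * xe a c * ζ ^ 6 + a.1 * a.2 * b.1
      * c.1 * dd b c * uz ^ 2 * v (cons .m (cons .o (cons .o t))) * xc a b * xe a c + a.1 * a.2 *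
      b.1 * c.1 * uz ^ 2 * v (cons .m (cons .o (cons .o t))) * xc a c * xc b c * xe a b * xg b c *
      ζ ^ 4 - a.1 * a.2 * b.1 * c.1 * uz ^ 2 * v (cons .m (cons .o (cons .o t))) * xc a c * xc b c
      * xe a b * xg b c * ζ ^ 12 - a.1 * a.2 * b.1 * c.1 * uz ^ 2 * v (cons .m (cons .o (cons .o
      t))) * xc a c * xe a b * xe b c * xf b c - a.1 * b.1 * b.2 * c.1 * uz ^ 2 * v (cons .o (cons
      .m (cons .o t))) * xc a b * xc a c * xe a c * xe b c * ζ ^ 2 - a.1 * b.1 * b.2 * c.1 * uz ^ 2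
      * v (cons .o (cons .m (cons .o t))) * xc a c * xc b c * xe a b * xe a c * ζ ^ 6 + a.1 * b.1 *
      c.1 * c.2 * dd a b * uz ^ 2 * v (cons .o (cons .o (cons .m t))) * xc b c * xe a c * ζ ^ 4 +
      a.1 * b.1 * c.1 * c.2 * uz ^ 2 * v (cons .o (cons .o (cons .m t))) * xc a b * xc a c * xe b c
      * xg a b - a.1 * b.1 * c.1 * c.2 * uz ^ 2 * v (cons .o (cons .o (cons .m t))) * xc a b * xc a
      c * xe b c * xg a b * ζ ^ 8 - a.1 * b.1 * c.1 * c.2 * uz ^ 2 * v (cons .o (cons .o (cons .m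
      t))) * xc a c * xe a b * xe b c * xf a b * ζ ^ 4 + a.1 * b.1 * uz * v (cons .o (cons .o (cons
      .m t))) * xc a b * xc a c * xc b c * xe a c * xe b c * ζ ^ 4 + a.1 * b.1 * uz * v (cons .o
      (cons .o (cons .m t))) * xc a b * xc a c * xc b c * xg a c * xg b c * ζ ^ 4 - a.1 * b.1 * uz
      * v (cons .o (cons .o (cons .m t))) * xc a b * xc a c * xc b c * xg a c * xg b c * ζ ^ 12 +
      a.1 * b.1 * uz * v (cons .o (cons .o (cons .m t))) * xc a b * xc a c * xc b c * xg a c * xg b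
      c * ζ ^ 20 - a.1 * b.1 * uz * v (cons .o (cons .o (cons .m t))) * xc a b * xc a c * xe b c *
      xf b c * xg a c + a.1 * b.1 * uz * v (cons .o (cons .o (cons .m t))) * xc a b * xc a c * xe b
      c * xf b c * xg a c * ζ ^ 8 + a.1 * b.1 * uz * v (cons .o (cons .o (cons .m t))) * xc a b *
      xc b c * xe a c * xf a c * xg b c * ζ ^ 16 + a.1 * b.1 * uz * v (cons .o (cons .o (cons .m
      t))) * xc a b * xe a c * xe b c * xf a c * xf b c * ζ ^ 4 - a.1 * c.1 * uz * v (cons .o (cons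
      .m (cons .o t))) * xc a b * xc a c * xc b c * xe a b * xg b c * ζ ^ 6 + a.1 * c.1 * uz * v
      (cons .o (cons .m (cons .o t))) * xc a b * xc a c * xc b c * xe a b * xg b c * ζ ^ 14 - a.1 *
      c.1 * uz * v (cons .o (cons .m (cons .o t))) * xc a b * xc a c * xc b c * xe b c * xg a b * ζ
      ^ 2 + a.1 * c.1 * uz * v (cons .o (cons .m (cons .o t))) * xc a b * xc a c * xc b c * xe b c
      * xg a b * ζ ^ 10 + a.1 * c.1 * uz * v (cons .o (cons .m (cons .o t))) * xc a b * xc a c * xe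
      a b * xe b c * xf b c * ζ ^ 2 + a.1 * c.1 * uz * v (cons .o (cons .m (cons .o t))) * xc a c *
      xc b c * xe a b * xe b c * xf a b * ζ ^ 6 + b.1 * c.1 * uz * v (cons .m (cons .o (cons .o
      t))) * xc a b * xc a c * xc b c * xe a b * xe a c * ζ ^ 8 + b.1 * c.1 * uz * v (cons .m (cons
      .o (cons .o t))) * xc a b * xc a c * xc b c * xg a b * xg a c - b.1 * c.1 * uz * v (cons .m
      (cons .o (cons .o t))) * xc a b * xc a c * xc b c * xg a b * xg a c * ζ ^ 8 + b.1 * c.1 * uz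
      * v (cons .m (cons .o (cons .o t))) * xc a b * xc a c * xc b c * xg a b * xg a c * ζ ^ 16 +
      b.1 * c.1 * uz * v (cons .m (cons .o (cons .o t))) * xc a b * xc b c * xe a c * xf a c * xg a
      b * ζ ^ 12 - b.1 * c.1 * uz * v (cons .m (cons .o (cons .o t))) * xc a c * xc b c * xe a b *
      xf a b * xg a c * ζ ^ 4 + b.1 * c.1 * uz * v (cons .m (cons .o (cons .o t))) * xc a c * xc b
      c * xe a b * xf a b * xg a c * ζ ^ 12 + b.1 * c.1 * uz * v (cons .m (cons .o (cons .o t))) *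
      xc b c * xe a b * xe a c * xf a b * xf a c + v (cons .m (cons .m (cons .p t))) * xc a b * xc
      a c * xc b c * xg a b * xg a c * xg b c - v (cons .m (cons .m (cons .p t))) * xc a b * xc a c
      * xc b c * xg a b * xg a c * xg b c * ζ ^ 8 + v (cons .m (cons .m (cons .p t))) * xc a b * xc
      a c * xc b c * xg a b * xg a c * xg b c * ζ ^ 16 + v (cons .m (cons .m (cons .p t))) * xc a b
      * xc b c * xe a c * xf a c * xg a b * xg b c * ζ ^ 12 + v (cons .m (cons .m (cons .p t))) *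
      xc a b * xe a c * xe b c * xf a c * xf b c * xg a b - v (cons .m (cons .m (cons .p t))) * xc
      a c * xe a b * xe b c * xf a b * xf b c * xg a c + v (cons .m (cons .m (cons .p t))) * xc b c
      * xe a b * xe a c * xf a b * xf a c * xg b c + 2 * v (cons .m (cons .p (cons .m t))) * xc a b
      * xc a c * xc b c * xg a b * xg a c * xg b c * ζ ^ 4 - 2 * v (cons .m (cons .p (cons .m t)))
      * xc a b * xc a c * xc b c * xg a b * xg a c * xg b c * ζ ^ 12 + v (cons .m (cons .p (cons .m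
      t))) * xc a b * xc a c * xc b c * xg a b * xg a c * xg b c * ζ ^ 20 - v (cons .m (cons .p
      (cons .m t))) * xc a b * xc b c * xe a c * xf a c * xg a b * xg b c * ζ ^ 8 + v (cons .m
      (cons .p (cons .m t))) * xc a b * xc b c * xe a c * xf a c * xg a b * xg b c * ζ ^ 16 + v
      (cons .m (cons .p (cons .m t))) * xc a b * xe a c * xe b c * xf a c * xf b c * xg a b * ζ ^ 4
      - v (cons .m (cons .p (cons .m t))) * xc a c * xe a b * xe b c * xf a b * xf b c * xg a c * ζ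
      ^ 4 + v (cons .m (cons .p (cons .m t))) * xc b c * xe a b * xe a c * xf a b * xf a c * xg b c
      * ζ ^ 4 - v (cons .p (cons .m (cons .m t))) * xc a b * xc a c * xc b c * xg a b * xg a c * xg
      b c + v (cons .p (cons .m (cons .m t))) * xc a b * xc a c * xc b c * xg a b * xg a c * xg b c
      * ζ ^ 8 - v (cons .p (cons .m (cons .m t))) * xc a b * xc a c * xc b c * xg a b * xg a c * xg
      b c * ζ ^ 16 - v (cons .p (cons .m (cons .m t))) * xc a b * xc b c * xe a c * xf a c * xg a b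
      * xg b c * ζ ^ 12 - v (cons .p (cons .m (cons .m t))) * xc a b * xe a c * xe b c * xf a c *
      xf b c * xg a b + v (cons .p (cons .m (cons .m t))) * xc a c * xe a b * xe b c * xf a b * xf
      b c * xg a c - v (cons .p (cons .m (cons .m t))) * xc b c * xe a b * xe a c * xf a b * xf a c
      * xg b c) * h8
  all_goals ring

lemma ident_ybe_mm (a b c : P) (v : Vec) (u : S) (t : St) :
    (R b c * lift (R a c) * R a b) v (cons .m (cons .m (cons u t))) =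
      (lift (R a b) * R a c * lift (R b c)) v (cons .m (cons .m (cons u t))) := by
  cases u
  all_goals simp only [Module.End.mul_apply, R_apply, lift_apply, Rf, vv_f, w1_f, w2_f, ul_f, uu_f,
    cr_f, jn_f]
  case o =>
    linear_combination (-a.2 * c.1 * uz * v (cons .m (cons .m (cons .o t))) * xe a b * xe a c * xe
      b c * ζ ^ 4) * ident_ybe_4 a b c + a.2 * b.1 * uz * v (cons .m (cons .o (cons .m t))) * xe a
      b * xe a c * xe b c * ζ ^ 2 * ident_ybe_7 a b c + (-a.2 * b.1 * b.2 * c.1 * uz ^ 2 * v (cons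
      .m (cons .m (cons .o t))) * xe a b * xe a c * xe b c * xf a c + a.2 * c.1 * uz * v (cons .m
      (cons .m (cons .o t))) * xe a b * xe a c * xe b c * xf a b * xf b c) * h8
  case p =>
    linear_combination (-a.1 * c.1 * uz * v (cons .o (cons .m (cons .o t))) * xc a b * xc a c * xe
      b c * ζ ^ 6) * ident_ybe_2 a b c + a.1 * b.1 * uz * v (cons .o (cons .o (cons .m t))) * xc a
      b * xc a c * xe b c * ζ ^ 4 * ident_ybe_6 a b c + b.1 * c.1 * uz * v (cons .m (cons .o (cons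
      .o t))) * ζ ^ 4 * ident_ybe_14 a b c + (-v (cons .m (cons .m (cons .p t))) * ζ ^ 4 + v (cons
      .m (cons .p (cons .m t)))) * ident_ybe_18 a b c + (-a.1 * a.2 * b.1 * b.2 * c.1 * c.2 * uz ^
      3 * v (cons .m (cons .m (cons .p t))) * xc a b * xc b c * xe a c * ζ ^ 10 + a.1 * a.2 * b.1 *
      b.2 * c.1 * c.2 * uz ^ 3 * v (cons .m (cons .p (cons .m t))) * xc a b * xc b c * xe a c * ζ ^
      6 - a.1 * a.2 * b.1 * c.1 * dd b c * uz ^ 2 * v (cons .m (cons .o (cons .o t))) * xc a b * xe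
      a c * ζ ^ 4 + a.1 * a.2 * b.1 * c.1 * uz ^ 2 * v (cons .m (cons .o (cons .o t))) * xc a c *
      xe a b * xe b c * xf b c * ζ ^ 4 + a.1 * b.1 * b.2 * c.1 * uz ^ 2 * v (cons .o (cons .m (cons
      .o t))) * xc a b * xc a c * xe a c * xe b c * ζ ^ 6 - a.1 * b.1 * c.1 * c.2 * uz ^ 2 * v
      (cons .o (cons .o (cons .m t))) * xc a b * xc a c * xe b c * xg a b * ζ ^ 4 + a.1 * b.1 * c.1
      * c.2 * uz ^ 2 * v (cons .o (cons .o (cons .m t))) * xc a b * xc a c * xe b c * xg a b * ζ ^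
      12 - a.1 * b.1 * uz * v (cons .o (cons .o (cons .m t))) * xc a b * xc a c * xc b c * xe a c *
      xe b c * ζ ^ 8 + a.1 * b.1 * uz * v (cons .o (cons .o (cons .m t))) * xc a b * xc a c * xe b
      c * xf b c * xg a c * ζ ^ 4 - a.1 * b.1 * uz * v (cons .o (cons .o (cons .m t))) * xc a b *
      xc a c * xe b c * xf b c * xg a c * ζ ^ 12 + a.1 * c.1 * uz * v (cons .o (cons .m (cons .o
      t))) * xc a b * xc a c * xc b c * xe b c * xg a b * ζ ^ 6 - a.1 * c.1 * uz * v (cons .o (cons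
      .m (cons .o t))) * xc a b * xc a c * xc b c * xe b c * xg a b * ζ ^ 14 - a.1 * c.1 * uz * v
      (cons .o (cons .m (cons .o t))) * xc a b * xc a c * xe a b * xe b c * xf b c * ζ ^ 6 - b.1 *
      c.1 * uz * v (cons .m (cons .o (cons .o t))) * xc a b * xc a c * xc b c * xg a b * xg a c * ζ
      ^ 4 + b.1 * c.1 * uz * v (cons .m (cons .o (cons .o t))) * xc a b * xc a c * xc b c * xg a b
      * xg a c * ζ ^ 12 - b.1 * c.1 * uz * v (cons .m (cons .o (cons .o t))) * xc a b * xc a c * xc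
      b c * xg a b * xg a c * ζ ^ 20 - b.1 * c.1 * uz * v (cons .m (cons .o (cons .o t))) * xc a b
      * xc b c * xe a c * xf a c * xg a b * ζ ^ 16 - b.1 * c.1 * uz * v (cons .m (cons .o (cons .o
      t))) * xc b c * xe a b * xe a c * xf a b * xf a c * ζ ^ 4 - v (cons .m (cons .m (cons .p t)))
      * xc a b * xc a c * xc b c * xg a b * xg a c * xg b c * ζ ^ 4 + v (cons .m (cons .m (cons .p
      t))) * xc a b * xc a c * xc b c * xg a b * xg a c * xg b c * ζ ^ 12 - v (cons .m (cons .m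
      (cons .p t))) * xc a b * xc a c * xc b c * xg a b * xg a c * xg b c * ζ ^ 20 - v (cons .m
      (cons .m (cons .p t))) * xc a b * xc b c * xe a c * xf a c * xg a b * xg b c * ζ ^ 16 - v
      (cons .m (cons .m (cons .p t))) * xc a b * xe a c * xe b c * xf a c * xf b c * xg a b * ζ ^ 4
      + v (cons .m (cons .m (cons .p t))) * xc a c * xe a b * xe b c * xf a b * xf b c * xg a c * ζ
      ^ 4 - v (cons .m (cons .m (cons .p t))) * xc b c * xe a b * xe a c * xf a b * xf a c * xg b c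
      * ζ ^ 4 + v (cons .m (cons .p (cons .m t))) * xc a b * xc a c * xc b c * xg a b * xg a c * xg
      b c - v (cons .m (cons .p (cons .m t))) * xc a b * xc a c * xc b c * xg a b * xg a c * xg b c
      * ζ ^ 8 + v (cons .m (cons .p (cons .m t))) * xc a b * xc a c * xc b c * xg a b * xg a c * xg
      b c * ζ ^ 16 + v (cons .m (cons .p (cons .m t))) * xc a b * xc b c * xe a c * xf a c * xg a b
      * xg b c * ζ ^ 12 + v (cons .m (cons .p (cons .m t))) * xc a b * xe a c * xe b c * xf a c *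
      xf b c * xg a b - v (cons .m (cons .p (cons .m t))) * xc a c * xe a b * xe b c * xf a b * xf
      b c * xg a c + v (cons .m (cons .p (cons .m t))) * xc b c * xe a b * xe a c * xf a b * xf a c
      * xg b c) * h8
  all_goals ring

theorem ybe (a b c : P) :
    R b c * lift (R a c) * R a b = lift (R a b) * R a c * lift (R b c) := by
  refine ext3 fun v r s u t => ?_
  cases r <;> cases s
  · exact ident_ybe_oo a b c v u t
  · exact ident_ybe_op a b c v u t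
  · exact ident_ybe_om a b c v u t
  · exact ident_ybe_po a b c v u t
  · exact ident_ybe_pp a b c v u t
  · exact ident_ybe_pm a b c v u t
  · exact ident_ybe_mo a b c v u t
  · exact ident_ybe_mp a b c v u t
  · exact ident_ybe_mm a b c v u t

end Pool.Agent.Lib.MP_4960b8_pr.QK
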